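import Mathlib
import Pool.Agent.Shared.PolyTime.GraphEnc

/-!
Minimum-cost k-connected Euclidean spanning networks: instances, feasibility, cost and
approximation algorithms.
-/

set_option autoImplicit false

namespace Pool.Agent.Lib.MP_959bb6_lc

open Pool.Agent.Shared.PolyTime

/-- An instance: `n` distinct points with rational coordinates in dimension `d`, and `k`. -/
structure Inst (d : ℕ) : Type where
  n : ℕ
  k : ℕ
  pt : Fin n → Fin d → ℚ
  inj : Function.Injective pt

/-- A natural number as the list of its binary digits. -/
def encBin (m : ℕ) : List Bool := encList (fun b => [b]) (Nat.bits m)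

/-- A rational number in binary: sign, numerator, denominator. -/
def encRat (q : ℚ) : List Bool :=
  encPair [decide (q.num < 0)] (encPair (encBin q.num.natAbs) (encBin q.den))

/-- The input bit string: `k` in binary and the list of points. -/
def Inst.code {d : ℕ} (I : Inst d) : List Bool :=
  encPair (encBin I.k)
    (encList (encList encRat) (List.ofFn fun i => List.ofFn fun j => I.pt i j))

/-- The `i`-th point in Euclidean space. -/
noncomputable def Inst.point {d : ℕ} (I : Inst d) (i : Fin I.n) : EuclideanSpace ℝ (Fin d) :=
  WithLp.toLp 2 fun j => (I.pt i j : ℝ)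

open Classical in
/-- The cost of a network: the total Euclidean length of its edges. -/
noncomputable def Inst.cost {d : ℕ} (I : Inst d) (G : SimpleGraph (Fin I.n)) : ℝ :=
  ∑ i, ∑ j, if i < j ∧ G.Adj i j then dist (I.point i) (I.point j) else 0

/-- Every two vertices are joined by `k` edge-disjoint paths. -/
def EdgeConn (n k : ℕ) (G : SimpleGraph (Fin n)) : Prop :=
  ∀ u v, u ≠ v → ∃ p : Fin k → G.Path u v,
    ∀ i j, i ≠ j → ∀ e ∈ (p i).1.edges, e ∉ (p j).1.edges

/-- Every two vertices are joined by `k` distinct, internally vertex-disjoint paths. -/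
def VertConn (n k : ℕ) (G : SimpleGraph (Fin n)) : Prop :=
  ∀ u v, u ≠ v → ∃ p : Fin k → G.Path u v, Function.Injective p ∧
    ∀ i j, i ≠ j → ∀ w ∈ (p i).1.support, w ∈ (p j).1.support → w = u ∨ w = v

/-- There is a polynomial-time algorithm that prints the adjacency matrix of a network and, on
every instance in `R` that has a feasible network, returns a feasible network of cost at most
`1 + ε` times the cost of any feasible network. -/
def Approximable (d : ℕ) (Conn : (n k : ℕ) → SimpleGraph (Fin n) → Prop) (R : Inst d → Prop)
    (ε : ℝ) : Prop :=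
  ∃ A : (I : Inst d) → SimpleGraph (Fin I.n),
    Nonempty (Turing.TM2ComputableInPolyTime Inst.code (fun s : List Bool => s)
      (fun I : Inst d => encGraph (A I))) ∧
    ∀ I, R I → ∀ G, Conn I.n I.k G →
      Conn I.n I.k (A I) ∧ I.cost (A I) ≤ (1 + ε) * I.cost G

end Pool.Agent.Lib.MP_959bb6_lc
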