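import Mathlib

-- part Pool.Agent.Lib.MP_959bb6_lc.Lam
section

/-!
Laminar families, token counting and purification of points of a polytope.
-/

set_option autoImplicit false

namespace Pool.Agent.Lib.MP_959bb6_lc.Rnd

open Finset

/-- Two sets cross. -/
def Cross (A B : Finset ℕ) : Prop := (∃ x ∈ A, x ∉ B) ∧ (∃ x ∈ B, x ∉ A) ∧ ∃ x ∈ A, x ∈ B

/-- A family without crossing pairs. -/
def Laminar (L : Finset (Finset ℕ)) : Prop := ∀ A ∈ L, ∀ B ∈ L, ¬ Cross A B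

theorem Laminar.mono {L L' : Finset (Finset ℕ)} (h : Laminar L) (hs : L' ⊆ L) : Laminar L' :=
  fun A hA B hB => h A (hs hA) B (hs hB)

theorem not_cross {A B : Finset ℕ} (h : ¬ Cross A B) : A ⊆ B ∨ B ⊆ A ∨ Disjoint A B := by
  unfold Cross at h
  by_contra hc
  push Not at hc
  obtain ⟨h1, h2, h3⟩ := hc
  exact h ⟨by simpa [Finset.subset_iff] using h1, by simpa [Finset.subset_iff] using h2,
    by simpa [Finset.disjoint_left] using h3⟩

theorem Cross.symm {A B : Finset ℕ} (h : Cross A B) : Cross B A := by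
  obtain ⟨h1, h2, x, h3, h4⟩ := h
  exact ⟨h2, h1, x, h4, h3⟩

/-- Token counting in a laminar family. -/
theorem token (ω : ℕ → ℕ) : ∀ (k : ℕ) (L : Finset (Finset ℕ)) (U : Finset ℕ), L.card ≤ k →
    Laminar L → L.Nonempty → (∀ S ∈ L, S ⊆ U) → (∀ S ∈ L, 4 ≤ ∑ p ∈ S, ω p) →
    (∀ S ∈ L, ∀ T ∈ L, T ⊂ S → 2 ≤ ∑ p ∈ S \ T, ω p) → 2 * L.card + 2 ≤ ∑ p ∈ U, ω p := by
  classical
  intro k
  induction k with
  | zero =>
    intro L U hk _ hne
    exact absurd (card_pos.2 hne) (by omega)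
  | succ k ih =>
    intro L U hk hL hne hU h0 h1
    have split : ∀ (L' : Finset (Finset ℕ)) (U' S : Finset ℕ), L' ⊆ L → S ∈ L' →
        (∀ T ∈ L', S ⊆ T → T = S) → (∀ T ∈ L', T ⊆ U') →
        (L'.filter fun T => ¬ T ⊆ S).Nonempty → L'.card ≤ k + 1 →
        2 * L'.card + 4 ≤ ∑ p ∈ U', ω p := by
      intro L' U' S hs hS hmax hU' hne' hk'
      have hc := card_filter_add_card_filter_not (s := L') (fun T => T ⊆ S)
      have hp1 : 0 < (L'.filter fun T => T ⊆ S).card := card_pos.2 ⟨S, by simp [hS]⟩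
      have hp2 := card_pos.2 hne'
      have e1 := ih (L'.filter fun T => T ⊆ S) S (by omega)
        (hL.mono ((filter_subset _ _).trans hs)) ⟨S, by simp [hS]⟩
        (fun T hT => (mem_filter.1 hT).2) (fun T hT => h0 T (hs (mem_filter.1 hT).1))
        (fun T hT T' hT' => h1 T (hs (mem_filter.1 hT).1) T' (hs (mem_filter.1 hT').1))
      have e2 := ih (L'.filter fun T => ¬ T ⊆ S) (U' \ S) (by omega)
        (hL.mono ((filter_subset _ _).trans hs)) hne'
        (fun T hT => by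
          obtain ⟨hT1, hT2⟩ := mem_filter.1 hT
          rcases not_cross (hL T (hs hT1) S (hs hS)) with h | h | h
          · exact absurd h hT2
          · exact absurd (hmax T hT1 h ▸ Subset.refl _) hT2
          · exact subset_sdiff.2 ⟨hU' T hT1, h⟩)
        (fun T hT => h0 T (hs (mem_filter.1 hT).1))
        (fun T hT T' hT' => h1 T (hs (mem_filter.1 hT).1) T' (hs (mem_filter.1 hT').1))
      have e3 := sum_sdiff (f := ω) (hU' S hS)
      omega
    obtain ⟨S, hS, hmax⟩ := exists_max_image L card hne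
    have hmax' : ∀ T ∈ L, S ⊆ T → T = S := fun T hT h =>
      (eq_of_subset_of_card_le h (hmax T hT)).symm
    by_cases hA : (L.filter fun T => ¬ T ⊆ S).Nonempty
    · have := split L U S (Subset.refl _) hS hmax' hU hA hk
      omega
    have hall : ∀ T ∈ L, T ⊆ S := fun T hT => by
      by_contra h
      exact hA ⟨T, mem_filter.2 ⟨hT, h⟩⟩
    have hSU : ∑ p ∈ S, ω p ≤ ∑ p ∈ U, ω p := sum_le_sum_of_subset (hU S hS)
    have hce := card_erase_of_mem hS
    have hcp := card_pos.2 hne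
    rcases (L.erase S).eq_empty_or_nonempty with hE | hE
    · have := h0 S hS
      rw [hE] at hce
      simp at hce
      omega
    obtain ⟨T, hT, hmaxT⟩ := exists_max_image (L.erase S) card hE
    have hmaxT' : ∀ T' ∈ L.erase S, T ⊆ T' → T' = T := fun T' hT' h =>
      (eq_of_subset_of_card_le h (hmaxT T' hT')).symm
    by_cases hB : ((L.erase S).filter fun T' => ¬ T' ⊆ T).Nonempty
    · have := split (L.erase S) S T (erase_subset _ _) hT hmaxT'
        (fun T' hT' => hall T' (mem_of_mem_erase hT')) hB (by omega)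
      omega
    have hall' : ∀ T' ∈ L.erase S, T' ⊆ T := fun T' hT' => by
      by_contra h
      exact hB ⟨T', mem_filter.2 ⟨hT', h⟩⟩
    have e1 := ih (L.erase S) T (by omega) (hL.mono (erase_subset _ _)) hE hall'
      (fun T hT => h0 T (mem_of_mem_erase hT))
      (fun T hT T' hT' => h1 T (mem_of_mem_erase hT) T' (mem_of_mem_erase hT'))
    have hTS : T ⊆ S := hall T (mem_of_mem_erase hT)
    have e2 := h1 S hS T (mem_of_mem_erase hT) (Finset.ssubset_iff_subset_ne.2 ⟨hTS, ne_of_mem_erase hT⟩)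
    have e3 := sum_sdiff (f := ω) hTS
    omega

theorem cross_step {X Y Y' Z : Finset ℕ} (hXY : Cross X Y) (hY : ¬ Cross Y Y')
    (hZ : Z = X ∩ Y ∨ Z = X ∪ Y ∨ Z = X \ Y ∨ Z = Y \ X) (h : Cross Z Y') : Cross X Y' := by
  by_contra hc
  obtain ⟨⟨x1, a1, b1⟩, ⟨x2, a2, b2⟩, x3, a3, b3⟩ := hXY
  obtain ⟨⟨y1, c1, d1⟩, ⟨y2, c2, d2⟩, y3, c3, d3⟩ := h
  rcases not_cross hY with h1 | h1 | h1 <;> rcases not_cross hc with h2 | h2 | h2 <;>
    rcases hZ with rfl | rfl | rfl | rfl <;>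
    simp only [mem_inter, mem_union, mem_sdiff, Finset.subset_iff, Finset.disjoint_left] at * <;>
    grind

theorem not_cross_self {X Y Z : Finset ℕ}
    (hZ : Z = X ∩ Y ∨ Z = X ∪ Y ∨ Z = X \ Y ∨ Z = Y \ X) : ¬ Cross Z Y := by
  rintro ⟨⟨y1, c1, d1⟩, ⟨y2, c2, d2⟩, y3, c3, d3⟩
  rcases hZ with rfl | rfl | rfl | rfl <;>
    simp only [mem_inter, mem_union, mem_sdiff] at * <;> grind

open Classical in
theorem cross_lt {L : Finset (Finset ℕ)} (hL : Laminar L) {X Y Z : Finset ℕ} (hY : Y ∈ L)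
    (hXY : Cross X Y) (hZ : Z = X ∩ Y ∨ Z = X ∪ Y ∨ Z = X \ Y ∨ Z = Y \ X) :
    (L.filter fun Y' => Cross Z Y').card < (L.filter fun Y' => Cross X Y').card := by
  refine card_lt_card (Finset.ssubset_iff_subset_ne.2 ⟨fun Y' hY' => ?_, fun h => ?_⟩)
  · obtain ⟨h1, h2⟩ := mem_filter.1 hY'
    exact mem_filter.2 ⟨h1, cross_step hXY (hL Y hY Y' h1) hZ h2⟩
  · have : Y ∈ L.filter fun Y' => Cross Z Y' := h ▸ mem_filter.2 ⟨hY, hXY⟩
    exact not_cross_self hZ (mem_filter.1 this).2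

open Filter Topology in
/-- If every strictly fractional feasible point has a direction along its tight rows, then every
feasible point can be replaced by one of no larger cost with an integral coordinate. -/
theorem purify_abs {ι : Type} (R : Finset ι) (E : ι → Finset ℕ) (r : ι → ℝ) (Fr : Finset ℕ)
    (c : ℕ → ℝ)
    (hker : ∀ x : ℕ → ℝ, (∀ i ∈ Fr, 0 < x i ∧ x i < 1) → (∀ ρ ∈ R, r ρ ≤ ∑ i ∈ E ρ, x i) →
      ∃ z : ℕ → ℝ, (∃ i ∈ Fr, z i ≠ 0) ∧
        ∀ ρ ∈ R, ∑ i ∈ E ρ, x i = r ρ → ∑ i ∈ E ρ, z i = 0)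
    (hE : ∀ ρ ∈ R, E ρ ⊆ Fr)
    (x : ℕ → ℝ) (hx : ∀ i ∈ Fr, 0 ≤ x i ∧ x i ≤ 1) (hr : ∀ ρ ∈ R, r ρ ≤ ∑ i ∈ E ρ, x i) :
    ∃ y : ℕ → ℝ, (∀ i ∈ Fr, 0 ≤ y i ∧ y i ≤ 1) ∧ (∀ ρ ∈ R, r ρ ≤ ∑ i ∈ E ρ, y i) ∧
      ∑ i ∈ Fr, c i * y i ≤ ∑ i ∈ Fr, c i * x i ∧ ∃ i ∈ Fr, y i = 0 ∨ y i = 1 := by
  classical
  set P : Set (ℕ → ℝ) := {y | (∀ i, y i ∈ Set.Icc (0 : ℝ) 1) ∧ ∀ ρ ∈ R, r ρ ≤ ∑ i ∈ E ρ, y i}
    with hP
  have hPc : IsCompact P := by
    have h1 : IsCompact {y : ℕ → ℝ | ∀ i, y i ∈ Set.Icc (0 : ℝ) 1} :=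
      isCompact_pi_infinite fun _ => isCompact_Icc
    have h2 : IsClosed {y : ℕ → ℝ | ∀ ρ ∈ R, r ρ ≤ ∑ i ∈ E ρ, y i} := by
      have : {y : ℕ → ℝ | ∀ ρ ∈ R, r ρ ≤ ∑ i ∈ E ρ, y i} =
          ⋂ ρ ∈ R, {y : ℕ → ℝ | r ρ ≤ ∑ i ∈ E ρ, y i} := by ext; simp
      rw [this]
      exact isClosed_biInter fun ρ _ => isClosed_le continuous_const (by fun_prop)
    exact h1.inter_right h2
  set x0 : ℕ → ℝ := fun i => if i ∈ Fr then x i else 0 with hx0
  have hx0P : x0 ∈ P := by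
    refine ⟨fun i => ?_, fun ρ hρ => ?_⟩
    · by_cases h : i ∈ Fr
      · simpa [hx0, h] using hx i h
      · simp [hx0, h]
    · refine (hr ρ hρ).trans (le_of_eq (sum_congr rfl fun i hi => ?_))
      simp [hx0, hE ρ hρ hi]
  have hcc : Continuous fun y : ℕ → ℝ => ∑ i ∈ Fr, c i * y i := by fun_prop
  obtain ⟨x1, hx1, hmin⟩ := hPc.exists_isMinOn ⟨x0, hx0P⟩ hcc.continuousOn
  have hQc : IsCompact (P ∩ {y | ∑ i ∈ Fr, c i * y i ≤ ∑ i ∈ Fr, c i * x1 i}) :=
    hPc.inter_right (isClosed_le hcc continuous_const)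
  have hqc : Continuous fun y : ℕ → ℝ => ∑ i ∈ Fr, y i ^ 2 := by fun_prop
  obtain ⟨y, ⟨hyP, hyc⟩, hmax⟩ := hQc.exists_isMaxOn ⟨x1, hx1, by simp⟩ hqc.continuousOn
  refine ⟨y, fun i _ => hyP.1 i, hyP.2, ?_, ?_⟩
  · have h1 : ∑ i ∈ Fr, c i * x1 i ≤ ∑ i ∈ Fr, c i * x0 i := hmin hx0P
    have h2 : ∑ i ∈ Fr, c i * x0 i = ∑ i ∈ Fr, c i * x i :=
      sum_congr rfl fun i hi => by simp [hx0, hi]
    exact le_trans hyc (h1.trans h2.le)
  by_contra hno
  push Not at hno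
  have hfr : ∀ i ∈ Fr, 0 < y i ∧ y i < 1 := fun i hi =>
    ⟨lt_of_le_of_ne (hyP.1 i).1 (hno i hi).1.symm, lt_of_le_of_ne (hyP.1 i).2 (hno i hi).2⟩
  obtain ⟨z, ⟨i0, hi0, hz0⟩, hz⟩ := hker y hfr hyP.2
  set v : ℝ → ℕ → ℝ := fun θ i => if i ∈ Fr then y i + θ * z i else y i with hv
  have hsum : ∀ θ, ∀ ρ ∈ R, ∑ i ∈ E ρ, v θ i = ∑ i ∈ E ρ, y i + θ * ∑ i ∈ E ρ, z i := by
    intro θ ρ hρ
    rw [mul_sum, ← sum_add_distrib]
    exact sum_congr rfl fun i hi => by simp [hv, hE ρ hρ hi]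
  have hev : ∀ᶠ θ in 𝓝 (0 : ℝ), v θ ∈ P := by
    have e1 : ∀ᶠ θ in 𝓝 (0 : ℝ), ∀ i ∈ Fr, y i + θ * z i ∈ Set.Ioo (0 : ℝ) 1 := by
      rw [eventually_all_finset]
      intro i hi
      have hc : Continuous fun θ : ℝ => y i + θ * z i := by fun_prop
      exact hc.continuousAt.eventually_mem (isOpen_Ioo.mem_nhds (by simpa using hfr i hi))
    have e2 : ∀ᶠ θ in 𝓝 (0 : ℝ), ∀ ρ ∈ R, r ρ ≤ ∑ i ∈ E ρ, y i + θ * ∑ i ∈ E ρ, z i := by
      rw [eventually_all_finset]
      intro ρ hρ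
      rcases (hyP.2 ρ hρ).eq_or_lt with h | h
      · exact Eventually.of_forall fun θ => by rw [hz ρ hρ h.symm]; simp [h]
      · have hc : Continuous fun θ : ℝ => ∑ i ∈ E ρ, y i + θ * ∑ i ∈ E ρ, z i := by fun_prop
        exact (hc.continuousAt.eventually_mem (isOpen_Ioi.mem_nhds
          (show _ ∈ Set.Ioi (r ρ) by simpa using h))).mono fun θ hθ => le_of_lt hθ
    filter_upwards [e1, e2] with θ h1 h2
    refine ⟨fun i => ?_, fun ρ hρ => by rw [hsum θ ρ hρ]; exact h2 ρ hρ⟩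
    by_cases h : i ∈ Fr
    · simp only [hv, h, if_true]
      exact Set.Ioo_subset_Icc_self (h1 i h)
    · simp only [hv, h, if_false]
      exact hyP.1 i
  obtain ⟨δ, hδ, hball⟩ := Metric.eventually_nhds_iff.1 hev
  have hp : v (δ / 2) ∈ P := hball (by rw [Real.dist_eq, sub_zero, abs_of_pos (by linarith)]; linarith)
  have hm : v (-(δ / 2)) ∈ P :=
    hball (by rw [Real.dist_eq, sub_zero, abs_neg, abs_of_pos (by linarith)]; linarith)
  have hcv : ∀ θ, ∑ i ∈ Fr, c i * v θ i = ∑ i ∈ Fr, c i * y i + θ * ∑ i ∈ Fr, c i * z i := by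
    intro θ
    rw [mul_sum, ← sum_add_distrib]
    exact sum_congr rfl fun i hi => by simp only [hv, hi, if_true]; ring
  have hqv : ∀ θ, ∑ i ∈ Fr, v θ i ^ 2 =
      ∑ i ∈ Fr, y i ^ 2 + 2 * θ * ∑ i ∈ Fr, y i * z i + θ ^ 2 * ∑ i ∈ Fr, z i ^ 2 := by
    intro θ
    rw [mul_sum, mul_sum, ← sum_add_distrib, ← sum_add_distrib]
    exact sum_congr rfl fun i hi => by simp only [hv, hi, if_true]; ring
  have h1 : ∑ i ∈ Fr, c i * x1 i ≤ ∑ i ∈ Fr, c i * v (δ / 2) i := hmin hp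
  have h2 : ∑ i ∈ Fr, c i * x1 i ≤ ∑ i ∈ Fr, c i * v (-(δ / 2)) i := hmin hm
  have hyc' : ∑ i ∈ Fr, c i * y i ≤ ∑ i ∈ Fr, c i * x1 i := hyc
  rw [hcv] at h1 h2
  have h3 : ∑ i ∈ Fr, v (δ / 2) i ^ 2 ≤ ∑ i ∈ Fr, y i ^ 2 :=
    hmax ⟨hp, show ∑ i ∈ Fr, c i * v (δ / 2) i ≤ _ by rw [hcv]; linarith⟩
  have h4 : ∑ i ∈ Fr, v (-(δ / 2)) i ^ 2 ≤ ∑ i ∈ Fr, y i ^ 2 :=
    hmax ⟨hm, show ∑ i ∈ Fr, c i * v (-(δ / 2)) i ≤ _ by rw [hcv]; linarith⟩
  rw [hqv] at h3 h4
  have h5 : 0 < ∑ i ∈ Fr, z i ^ 2 :=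
    sum_pos' (fun i _ => sq_nonneg _) ⟨i0, hi0, by positivity⟩
  have h6 : 0 < (δ / 2) ^ 2 * ∑ i ∈ Fr, z i ^ 2 := by positivity
  nlinarith

/-- Fewer equations than unknowns. -/
theorem exists_kernel {ι : Type} (R : Finset ι) (E : ι → Finset ℕ) (Fr : Finset ℕ)
    (hE : ∀ ρ ∈ R, E ρ ⊆ Fr) (h : R.card < Fr.card) :
    ∃ z : ℕ → ℝ, (∃ i ∈ Fr, z i ≠ 0) ∧ ∀ ρ ∈ R, ∑ i ∈ E ρ, z i = 0 := by
  classical
  let φ : (Fr → ℝ) →ₗ[ℝ] (R → ℝ) :=
    { toFun := fun w ρ => ∑ i : Fr, if i.1 ∈ E ρ.1 then w i else 0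
      map_add' := fun w w' => by
        funext ρ
        simp only [Pi.add_apply, ← sum_add_distrib]
        exact sum_congr rfl fun i _ => by split_ifs <;> simp
      map_smul' := fun t w => by
        funext ρ
        simp only [Pi.smul_apply, smul_eq_mul, RingHom.id_apply, mul_sum]
        exact sum_congr rfl fun i _ => by split_ifs <;> simp }
  have hk : LinearMap.ker φ ≠ ⊥ := LinearMap.ker_ne_bot_of_finrank_lt (by simpa using h)
  obtain ⟨w, hw, hw0⟩ := Submodule.exists_mem_ne_zero_of_ne_bot hk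
  refine ⟨fun i => if hi : i ∈ Fr then w ⟨i, hi⟩ else 0, ?_, fun ρ hρ => ?_⟩
  · obtain ⟨i, hi⟩ := Function.ne_iff.1 hw0
    exact ⟨i.1, i.2, by simpa [i.2] using hi⟩
  · have h1 : φ w ⟨ρ, hρ⟩ = 0 := by rw [LinearMap.mem_ker.1 hw]; rfl
    have h2 : φ w ⟨ρ, hρ⟩ = ∑ i : Fr, if i.1 ∈ E ρ then w i else 0 := rfl
    refine Eq.trans ?_ (h2.symm.trans h1)
    have h3 : ∑ i ∈ E ρ, (if hi : i ∈ Fr then w ⟨i, hi⟩ else 0) =
        ∑ i ∈ Fr, if i ∈ E ρ then (if hi : i ∈ Fr then w ⟨i, hi⟩ else 0) else 0 := by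
      rw [← sum_filter, filter_mem_eq_inter, inter_eq_right.2 (hE ρ hρ)]
    refine h3.trans ?_
    rw [← sum_coe_sort Fr]
    exact sum_congr rfl fun i _ => by simp [i.2]

end Pool.Agent.Lib.MP_959bb6_lc.Rnd
end

-- part Pool.Agent.Lib.MP_959bb6_lc.Round
section

/-!
Iterative relaxation for cut constraints and star constraints: every feasible point of the
relaxed program can be replaced by one of no larger cost with an integral coordinate.
-/

set_option autoImplicit false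

namespace Pool.Agent.Lib.MP_959bb6_lc.Rnd

open Finset

/-- Data of the program: edges `i < m` with ends `a i`, `b i` among the points below `N`;
edges with `cn i` count for the cuts of the nodes below `n'`. -/
structure LP : Type where
  m : ℕ
  n' : ℕ
  N : ℕ
  K : ℕ
  a : ℕ → ℕ
  b : ℕ → ℕ
  cn : ℕ → Bool
  c : ℕ → ℕ
  dem : ℕ → ℕ
  N2 : ℕ
  u : ℕ → ℕ
  v : ℕ → ℕ
  dem2 : ℕ → ℕ

namespace LP

variable (P : LP)

/-- Well-formed data. -/
structure Ok : Prop where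
  six : 6 ≤ P.K
  even : P.K % 2 = 0
  le : P.n' ≤ P.N
  ne : ∀ i, i < P.m → P.a i ≠ P.b i
  alt : ∀ i, i < P.m → P.a i < P.N
  blt : ∀ i, i < P.m → P.b i < P.N
  cna : ∀ i, i < P.m → P.cn i = true → P.a i < P.n'
  cnb : ∀ i, i < P.m → P.cn i = true → P.b i < P.n'
  fine : ∃ π : ℕ → ℕ, (∀ q, q < P.N2 → π q < P.N) ∧
    ∀ i, i < P.m → π (P.u i) = P.a i ∧ π (P.v i) = P.b i

/-- Edge `i` counts for the cut of `S`. -/
def cr (S : Finset ℕ) (i : ℕ) : Prop := P.cn i = true ∧ ¬ (P.a i ∈ S ↔ P.b i ∈ S)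

/-- Edge `i` has the end `p`. -/
def hasEnd (p i : ℕ) : Prop := P.a i = p ∨ P.b i = p

/-- Edge `i` has the fine end `q`. -/
def hasFine (q i : ℕ) : Prop := P.u i = q ∨ P.v i = q

instance (p : ℕ) : DecidablePred (P.hasFine p) := fun i => by unfold hasFine; infer_instance

instance (S : Finset ℕ) : DecidablePred (P.cr S) := fun i => by unfold cr; infer_instance

instance (p : ℕ) : DecidablePred (P.hasEnd p) := fun i => by unfold hasEnd; infer_instance

/-- Node sets that index the cut rows. -/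
def IsCut (S : Finset ℕ) : Prop := S ⊆ range P.n' ∧ 0 ∉ S ∧ S.Nonempty

/-- Feasibility for the relaxed program with the edges `On` fixed to one and `Fr` free. -/
structure Feas (On Fr : Finset ℕ) (x : ℕ → ℝ) : Prop where
  box : ∀ i ∈ Fr, 0 ≤ x i ∧ x i ≤ 1
  cut : ∀ S, P.IsCut S → (On.filter (P.cr S)).card + 3 ≤ P.K →
    (P.K : ℝ) ≤ (On.filter (P.cr S)).card + ∑ i ∈ Fr.filter (P.cr S), x i
  star : ∀ p, p < P.N → (On.filter (P.hasEnd p)).card + 5 ≤ P.dem p →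
    (P.dem p : ℝ) ≤ (On.filter (P.hasEnd p)).card + ∑ i ∈ Fr.filter (P.hasEnd p), x i
  fine : ∀ q, q < P.N2 → (On.filter (P.hasFine q)).card + 7 ≤ P.dem2 q →
    (P.dem2 q : ℝ) ≤ (On.filter (P.hasFine q)).card + ∑ i ∈ Fr.filter (P.hasFine q), x i

/-- Active tight cut rows. -/
def Tight (On Fr : Finset ℕ) (x : ℕ → ℝ) (S : Finset ℕ) : Prop :=
  P.IsCut S ∧ (On.filter (P.cr S)).card + 3 ≤ P.K ∧
    (P.K : ℝ) = (On.filter (P.cr S)).card + ∑ i ∈ Fr.filter (P.cr S), x i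

/-- Edge `i` joins the two classes. -/
def bt (p q : ℕ → Prop) (i : ℕ) : Prop :=
  P.cn i = true ∧ ((p (P.a i) ∧ q (P.b i)) ∨ (q (P.a i) ∧ p (P.b i)))

open Classical in
theorem atoms {M : Type} [AddCommMonoid M] (D : Finset ℕ) (F : ℕ → M) (S T : Finset ℕ)
    (t : (ℕ → Prop) → (ℕ → Prop) → M) (ht : ∀ p q, t p q = ∑ i ∈ D.filter (P.bt p q), F i)
    (p1 p2 p3 p4 : ℕ → Prop) (h1 : ∀ v, p1 v ↔ v ∈ S ∧ v ∈ T) (h2 : ∀ v, p2 v ↔ v ∈ S ∧ v ∉ T)
    (h3 : ∀ v, p3 v ↔ v ∉ S ∧ v ∈ T) (h4 : ∀ v, p4 v ↔ v ∉ S ∧ v ∉ T) :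
    ∑ i ∈ D.filter (P.cr S), F i = t p1 p3 + t p1 p4 + t p2 p3 + t p2 p4 ∧
    ∑ i ∈ D.filter (P.cr T), F i = t p1 p2 + t p1 p4 + t p2 p3 + t p3 p4 ∧
    ∑ i ∈ D.filter (P.cr (S ∩ T)), F i = t p1 p2 + t p1 p3 + t p1 p4 ∧
    ∑ i ∈ D.filter (P.cr (S ∪ T)), F i = t p1 p4 + t p2 p4 + t p3 p4 ∧
    ∑ i ∈ D.filter (P.cr (S \ T)), F i = t p1 p2 + t p2 p3 + t p2 p4 ∧
    ∑ i ∈ D.filter (P.cr (T \ S)), F i = t p1 p3 + t p2 p3 + t p3 p4 := by
  simp only [ht, sum_filter, ← sum_add_distrib]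
  refine ⟨?_, ?_, ?_, ?_, ?_, ?_⟩ <;> refine sum_congr rfl fun i _ => ?_ <;>
    by_cases c0 : P.cn i = true <;> by_cases c1 : P.a i ∈ S <;> by_cases c2 : P.a i ∈ T <;>
    by_cases c3 : P.b i ∈ S <;> by_cases c4 : P.b i ∈ T <;>
    simp [cr, bt, h1, h2, h3, h4, c0, c1, c2, c3, c4]

variable {P}

theorem uncross (hP : P.Ok) {On Fr : Finset ℕ} {x : ℕ → ℝ} (hx : P.Feas On Fr x)
    (hpos : ∀ i ∈ Fr, 0 < x i) {S T : Finset ℕ} (hS : P.Tight On Fr x S)
    (hT : P.Tight On Fr x T) (hc : Cross S T) :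
    ∃ Z1 Z2 : Finset ℕ, (Z1 = S ∩ T ∨ Z1 = S ∪ T ∨ Z1 = S \ T ∨ Z1 = T \ S) ∧
      (Z2 = S ∩ T ∨ Z2 = S ∪ T ∨ Z2 = S \ T ∨ Z2 = T \ S) ∧
      P.Tight On Fr x Z1 ∧ P.Tight On Fr x Z2 ∧
      ∀ z : ℕ → ℝ, ∑ i ∈ Fr.filter (P.cr T), z i = 0 → ∑ i ∈ Fr.filter (P.cr Z1), z i = 0 →
        ∑ i ∈ Fr.filter (P.cr Z2), z i = 0 → ∑ i ∈ Fr.filter (P.cr S), z i = 0 := by
  classical
  obtain ⟨⟨s1, s2, s3⟩, s4, s5⟩ := hS
  obtain ⟨⟨t1, t2, t3⟩, t4, t5⟩ := hT
  obtain ⟨⟨x1, a1, b1⟩, ⟨x2, a2, b2⟩, x3, a3, b3⟩ := hc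
  have cI : P.IsCut (S ∩ T) :=
    ⟨inter_subset_left.trans s1, fun h => s2 (mem_inter.1 h).1, x3, mem_inter.2 ⟨a3, b3⟩⟩
  have cU : P.IsCut (S ∪ T) :=
    ⟨union_subset s1 t1, fun h => (mem_union.1 h).elim s2 t2, x3, mem_union_left _ a3⟩
  have cP : P.IsCut (S \ T) :=
    ⟨sdiff_subset.trans s1, fun h => s2 (mem_sdiff.1 h).1, x1, mem_sdiff.2 ⟨a1, b1⟩⟩
  have cR : P.IsCut (T \ S) :=
    ⟨sdiff_subset.trans t1, fun h => t2 (mem_sdiff.1 h).1, x2, mem_sdiff.2 ⟨a2, b2⟩⟩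
  set p1 : ℕ → Prop := fun v => v ∈ S ∧ v ∈ T
  set p2 : ℕ → Prop := fun v => v ∈ S ∧ v ∉ T
  set p3 : ℕ → Prop := fun v => v ∉ S ∧ v ∈ T
  set p4 : ℕ → Prop := fun v => v ∉ S ∧ v ∉ T
  obtain ⟨g, hg⟩ : ∃ g : (ℕ → Prop) → (ℕ → Prop) → ℕ,
    ∀ p q, g p q = ∑ _i ∈ On.filter (P.bt p q), 1 := ⟨_, fun _ _ => rfl⟩
  obtain ⟨w, hw⟩ : ∃ w : (ℕ → ℝ) → (ℕ → Prop) → (ℕ → Prop) → ℝ,
    ∀ y p q, w y p q = ∑ i ∈ Fr.filter (P.bt p q), y i := ⟨_, fun _ _ _ => rfl⟩
  obtain ⟨g1, g2, g3, g4, g5, g6⟩ := P.atoms On (fun _ => 1) S T g hg p1 p2 p3 p4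
    (fun _ => Iff.rfl) (fun _ => Iff.rfl) (fun _ => Iff.rfl) (fun _ => Iff.rfl)
  obtain ⟨w1, w2, w3, w4, w5, w6⟩ := P.atoms Fr x S T (w x) (hw x) p1 p2 p3 p4
    (fun _ => Iff.rfl) (fun _ => Iff.rfl) (fun _ => Iff.rfl) (fun _ => Iff.rfl)
  have hz := fun z : ℕ → ℝ => P.atoms Fr z S T (w z) (hw z) p1 p2 p3 p4
    (fun _ => Iff.rfl) (fun _ => Iff.rfl) (fun _ => Iff.rfl) (fun _ => Iff.rfl)
  simp only [← card_eq_sum_ones] at g1 g2 g3 g4 g5 g6
  have wn : ∀ p q, 0 ≤ w x p q := fun p q => by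
    rw [hw]; exact sum_nonneg fun i hi => (hpos i (mem_filter.1 hi).1).le
  have wz : ∀ z p q, w x p q = 0 → w z p q = 0 := fun z p q h => by
    rw [hw] at h ⊢
    have : Fr.filter (P.bt p q) = ∅ := by
      by_contra hne
      have := sum_pos (fun i hi => hpos i (mem_filter.1 hi).1) (nonempty_iff_ne_empty.2 hne)
      exact absurd h this.ne'
    rw [this, sum_empty]
  have fI := hx.cut _ cI
  have fU := hx.cut _ cU
  have fP := hx.cut _ cP
  have fR := hx.cut _ cR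
  have n12 := wn p1 p2
  have n13 := wn p1 p3
  have n14 := wn p1 p4
  have n23 := wn p2 p3
  have n24 := wn p2 p4
  have n34 := wn p3 p4
  have hev := hP.even
  unfold Tight
  rw [g1] at s4 s5
  rw [g2] at t4 t5
  rw [g3, w3] at fI
  rw [g4, w4] at fU
  rw [g5, w5] at fP
  rw [g6, w6] at fR
  rw [w1] at s5
  rw [w2] at t5
  generalize g p1 p2 = G12 at *
  generalize g p1 p3 = G13 at *
  generalize g p1 p4 = G14 at *
  generalize g p2 p3 = G23 at *
  generalize g p2 p4 = G24 at *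
  generalize g p3 p4 = G34 at *
  have m12 : (0 : ℝ) ≤ G12 := Nat.cast_nonneg _
  have m13 : (0 : ℝ) ≤ G13 := Nat.cast_nonneg _
  have m14 : (0 : ℝ) ≤ G14 := Nat.cast_nonneg _
  have m23 : (0 : ℝ) ≤ G23 := Nat.cast_nonneg _
  have m24 : (0 : ℝ) ≤ G24 := Nat.cast_nonneg _
  have m34 : (0 : ℝ) ≤ G34 := Nat.cast_nonneg _
  push_cast at s5 t5 fI fU fP fR
  by_cases aI : G12 + G13 + G14 + 3 ≤ P.K <;> by_cases aU : G14 + G24 + G34 + 3 ≤ P.K
  · have e1 := fI aI
    have e2 := fU aU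
    refine ⟨S ∩ T, S ∪ T, by simp, by simp, ⟨cI, by omega, by rw [g3, w3]; push_cast; linarith⟩,
      ⟨cU, by omega, by rw [g4, w4]; push_cast; linarith⟩, fun z z1 z2 z3 => ?_⟩
    obtain ⟨u1, u2, u3, u4, u5, u6⟩ := hz z
    have := wz z p2 p3 (by linarith)
    linarith
  all_goals
    by_cases aP : G12 + G23 + G24 + 3 ≤ P.K <;> by_cases aR : G13 + G23 + G34 + 3 ≤ P.K
  all_goals first
    | (exfalso; omega)
    | (have e1 := fP aP
       have e2 := fR aR
       refine ⟨S \ T, T \ S, by simp, by simp,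
        ⟨cP, by omega, by rw [g5, w5]; push_cast; linarith⟩,
        ⟨cR, by omega, by rw [g6, w6]; push_cast; linarith⟩, fun z z1 z2 z3 => ?_⟩
       obtain ⟨u1, u2, u3, u4, u5, u6⟩ := hz z
       have := wz z p1 p4 (by linarith)
       linarith)
    | skip
  · have e1 := fI aI
    have e2 := fP aP
    have e3 : (P.K : ℝ) ≤ 2 * G34 := by exact_mod_cast (by omega : P.K ≤ 2 * G34)
    refine ⟨S ∩ T, S \ T, by simp, by simp,
      ⟨cI, by omega, by rw [g3, w3]; push_cast; linarith⟩,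
      ⟨cP, by omega, by rw [g5, w5]; push_cast; linarith⟩, fun z z1 z2 z3 => ?_⟩
    obtain ⟨u1, u2, u3, u4, u5, u6⟩ := hz z
    have := wz z p1 p4 (by linarith)
    have := wz z p2 p3 (by linarith)
    have := wz z p3 p4 (by linarith)
    linarith
  · have e1 := fI aI
    have e2 := fR aR
    have e3 : (P.K : ℝ) ≤ 2 * G24 := by exact_mod_cast (by omega : P.K ≤ 2 * G24)
    refine ⟨S ∩ T, T \ S, by simp, by simp,
      ⟨cI, by omega, by rw [g3, w3]; push_cast; linarith⟩,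
      ⟨cR, by omega, by rw [g6, w6]; push_cast; linarith⟩, fun z z1 z2 z3 => ?_⟩
    obtain ⟨u1, u2, u3, u4, u5, u6⟩ := hz z
    have := wz z p1 p4 (by linarith)
    have := wz z p2 p3 (by linarith)
    have := wz z p2 p4 (by linarith)
    linarith
  · have e1 := fU aU
    have e2 := fP aP
    have e3 : (P.K : ℝ) ≤ 2 * G13 := by exact_mod_cast (by omega : P.K ≤ 2 * G13)
    refine ⟨S ∪ T, S \ T, by simp, by simp,
      ⟨cU, by omega, by rw [g4, w4]; push_cast; linarith⟩,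
      ⟨cP, by omega, by rw [g5, w5]; push_cast; linarith⟩, fun z z1 z2 z3 => ?_⟩
    obtain ⟨u1, u2, u3, u4, u5, u6⟩ := hz z
    have := wz z p1 p4 (by linarith)
    have := wz z p2 p3 (by linarith)
    have := wz z p1 p3 (by linarith)
    linarith
  · have e1 := fU aU
    have e2 := fR aR
    have e3 : (P.K : ℝ) ≤ 2 * G12 := by exact_mod_cast (by omega : P.K ≤ 2 * G12)
    refine ⟨S ∪ T, T \ S, by simp, by simp,
      ⟨cU, by omega, by rw [g4, w4]; push_cast; linarith⟩,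
      ⟨cR, by omega, by rw [g6, w6]; push_cast; linarith⟩, fun z z1 z2 z3 => ?_⟩
    obtain ⟨u1, u2, u3, u4, u5, u6⟩ := hz z
    have := wz z p1 p4 (by linarith)
    have := wz z p2 p3 (by linarith)
    have := wz z p1 p2 (by linarith)
    linarith

theorem lt_card_of_sum {A : Finset ℕ} {x : ℕ → ℝ} (hx : ∀ i ∈ A, x i < 1) {r : ℕ} (hr : 0 < r)
    (h : (r : ℝ) ≤ ∑ i ∈ A, x i) : r < A.card := by
  rcases A.eq_empty_or_nonempty with rfl | hne
  · rw [sum_empty] at h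
    have : (0 : ℝ) < r := by exact_mod_cast hr
    linarith
  · have := sum_lt_sum_of_nonempty hne hx
    simp only [sum_const, nsmul_eq_mul, mul_one] at this
    exact_mod_cast h.trans_lt this

theorem card_le_sum_star (Fr A : Finset ℕ) :
    (Fr.filter fun i => P.a i ∈ A ∨ P.b i ∈ A).card ≤ ∑ p ∈ A, (Fr.filter (P.hasEnd p)).card := by
  refine le_trans (card_le_card fun i hi => ?_) card_biUnion_le
  obtain ⟨h1, h2⟩ := mem_filter.1 hi
  rcases h2 with h2 | h2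
  · exact mem_biUnion.2 ⟨_, h2, mem_filter.2 ⟨h1, Or.inl rfl⟩⟩
  · exact mem_biUnion.2 ⟨_, h2, mem_filter.2 ⟨h1, Or.inr rfl⟩⟩

theorem sum_star (hP : P.Ok) {Fr : Finset ℕ} (hFr : Fr ⊆ range P.m) :
    ∑ p ∈ range P.N, (Fr.filter (P.hasEnd p)).card = 2 * Fr.card := by
  simp only [card_eq_sum_ones, sum_filter]
  rw [sum_comm, mul_sum]
  refine sum_congr rfl fun i hi => ?_
  have hi' := mem_range.1 (hFr hi)
  rw [← sum_filter, ← card_eq_sum_ones]
  have : (range P.N).filter (fun p => P.hasEnd p i) = {P.a i, P.b i} := by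
    ext p
    have := hP.alt i hi'
    have := hP.blt i hi'
    rw [mem_filter, mem_range, mem_insert, mem_singleton]
    unfold hasEnd
    omega
  rw [this, card_pair (hP.ne i hi'), mul_one]

theorem kernel (hP : P.Ok) {On Fr : Finset ℕ} {x : ℕ → ℝ} (hx : P.Feas On Fr x)
    (hFr : Fr ⊆ range P.m) (hne : Fr.Nonempty) (hfr : ∀ i ∈ Fr, 0 < x i ∧ x i < 1) :
    ∃ z : ℕ → ℝ, (∃ i ∈ Fr, z i ≠ 0) ∧
      (∀ S, P.Tight On Fr x S → ∑ i ∈ Fr.filter (P.cr S), z i = 0) ∧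
      (∀ p, p < P.N → (On.filter (P.hasEnd p)).card + 5 ≤ P.dem p →
        (P.dem p : ℝ) = (On.filter (P.hasEnd p)).card + ∑ i ∈ Fr.filter (P.hasEnd p), x i →
        ∑ i ∈ Fr.filter (P.hasEnd p), z i = 0) ∧
      ∀ q, q < P.N2 → (On.filter (P.hasFine q)).card + 7 ≤ P.dem2 q →
        (P.dem2 q : ℝ) = (On.filter (P.hasFine q)).card + ∑ i ∈ Fr.filter (P.hasFine q), x i →
        ∑ i ∈ Fr.filter (P.hasFine q), z i = 0 := by
  classical
  set TT := (range P.n').powerset.filter (P.Tight On Fr x) with hTT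
  obtain ⟨LL, hLL, hmax⟩ := exists_max_image (TT.powerset.filter Laminar) card
    ⟨∅, by simp [Laminar]⟩
  obtain ⟨hLT, hLam⟩ := mem_filter.1 hLL
  have hLT' : LL ⊆ TT := mem_powerset.1 hLT
  have hti : ∀ S ∈ LL, P.Tight On Fr x S := fun S hS => (mem_filter.1 (hLT' hS)).2
  obtain ⟨L, hL, hinj, him⟩ := Finset.exists_subset_injOn_image_eq_of_surjOn
    (f := fun S => Fr.filter (P.cr S)) (LL : Set (Finset ℕ))
    (LL.image fun S => Fr.filter (P.cr S)) (by intro A hA; simpa using hA)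
  have hL' : L ⊆ LL := by simpa using hL
  set W := (range P.N).filter fun p => (On.filter (P.hasEnd p)).card + 5 ≤ P.dem p ∧
    (P.dem p : ℝ) = (On.filter (P.hasEnd p)).card + ∑ i ∈ Fr.filter (P.hasEnd p), x i with hW
  have hWd : ∀ p ∈ W, 6 ≤ (Fr.filter (P.hasEnd p)).card := fun p hp => by
    obtain ⟨_, h1, h2⟩ := mem_filter.1 hp
    refine lt_card_of_sum (x := x) (r := 5) (fun i hi => (hfr i (mem_filter.1 hi).1).2)
      (by norm_num) ?_
    have : ((On.filter (P.hasEnd p)).card + 5 : ℝ) ≤ P.dem p := by exact_mod_cast h1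
    push_cast
    linarith
  obtain ⟨π, hπ1, hπ2⟩ := hP.fine
  set W2 := (range P.N2).filter fun q => (On.filter (P.hasFine q)).card + 7 ≤ P.dem2 q ∧
    (P.dem2 q : ℝ) = (On.filter (P.hasFine q)).card + ∑ i ∈ Fr.filter (P.hasFine q), x i with hW2
  have hW2d : ∀ q ∈ W2, 8 ≤ (Fr.filter (P.hasFine q)).card := fun q hq => by
    obtain ⟨_, h1, h2⟩ := mem_filter.1 hq
    refine lt_card_of_sum (x := x) (r := 7) (fun i hi => (hfr i (mem_filter.1 hi).1).2)
      (by norm_num) ?_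
    have : ((On.filter (P.hasFine q)).card + 7 : ℝ) ≤ P.dem2 q := by exact_mod_cast h1
    push_cast
    linarith
  set jj : ℕ → ℕ := fun p => (W2.filter fun q => π q = p).card with hjj
  have hj8 : ∀ p, jj p * 8 ≤ (Fr.filter (P.hasEnd p)).card := by
    intro p
    refine le_trans (card_nsmul_le_sum _ (fun q => (Fr.filter (P.hasFine q)).card) 8
      fun q hq => hW2d q (mem_filter.1 hq).1) ?_
    rw [← card_biUnion]
    · refine card_le_card fun i hi => ?_
      obtain ⟨q, hq, hi'⟩ := mem_biUnion.1 hi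
      obtain ⟨h1, h2⟩ := mem_filter.1 hi'
      obtain ⟨h3, h4⟩ := hπ2 i (mem_range.1 (hFr h1))
      have h5 := (mem_filter.1 hq).2
      refine mem_filter.2 ⟨h1, ?_⟩
      rcases h2 with h2 | h2
      · exact Or.inl (by rw [← h3, h2, h5])
      · exact Or.inr (by rw [← h4, h2, h5])
    · intro q hq q' hq' hne
      refine disjoint_left.2 fun i h1 h2 => ?_
      have hi := mem_range.1 (hFr (mem_filter.1 h1).1)
      obtain ⟨h3, h4⟩ := hπ2 i hi
      have h5 := (mem_filter.1 (mem_coe.1 hq)).2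
      have h6 := (mem_filter.1 (mem_coe.1 hq')).2
      have h7 := hP.ne i hi
      have h8 := (mem_filter.1 h1).2
      have h9 := (mem_filter.1 h2).2
      unfold hasFine at h8 h9
      grind
  have hjsum : ∑ p ∈ range P.N, jj p = W2.card := (card_eq_sum_card_fiberwise fun q hq =>
    mem_coe.2 (mem_range.2 (hπ1 q (mem_range.1 (mem_filter.1 (mem_coe.1 hq)).1)))).symm
  set ω : ℕ → ℕ := fun p =>
    (Fr.filter (P.hasEnd p)).card - (if p ∈ W then 2 else 0) - 2 * jj p with hω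
  have hω4 : ∀ p, p ∈ W ∨ 0 < jj p → 4 ≤ ω p := by
    intro p hp
    have h1 := hj8 p
    have h2 := hWd p
    by_cases h : p ∈ W <;> simp only [hω, h, if_true, if_false, true_or, false_or,
      forall_const] at hp h2 ⊢ <;> omega
  have hωsum : ∑ p ∈ range P.N, ω p + 2 * W.card + 2 * W2.card = 2 * Fr.card := by
    rw [← sum_star hP hFr]
    have : 2 * W.card = ∑ p ∈ range P.N, if p ∈ W then 2 else 0 := by
      have hWs : W ⊆ range P.N := filter_subset _ _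
      rw [← sum_filter, filter_mem_eq_inter, inter_eq_right.2 hWs, sum_const, smul_eq_mul,
        mul_comm]
    rw [this, ← hjsum, mul_sum, ← sum_add_distrib, ← sum_add_distrib]
    refine sum_congr rfl fun p _ => ?_
    have h1 := hj8 p
    have h2 := hWd p
    by_cases h : p ∈ W <;> simp only [hω, h, if_true, if_false, forall_const] at h2 ⊢ <;> omega
  have hbig : ∀ A : Finset ℕ, 4 ≤ ∑ p ∈ A, ω p ∨
      (Fr.filter fun i => P.a i ∈ A ∨ P.b i ∈ A).card ≤ ∑ p ∈ A, ω p := by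
    intro A
    by_cases h : ∃ p ∈ A, p ∈ W ∨ 0 < jj p
    · obtain ⟨p, h1, h2⟩ := h
      exact Or.inl ((hω4 p h2).trans (single_le_sum (f := ω) (fun _ _ => Nat.zero_le _) h1))
    · right
      push Not at h
      refine (card_le_sum_star Fr A).trans (le_of_eq (sum_congr rfl fun p hp => ?_))
      have := (h p hp).2
      simp only [hω, (h p hp).1, if_false]
      omega
  have hcount : L.card + (W.card + W2.card) < Fr.card := by
    rcases L.eq_empty_or_nonempty with hE | hE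
    · have h0 := card_pos.2 hne
      rw [hE, card_empty]
      by_cases h : ∃ p ∈ range P.N, p ∈ W ∨ 0 < jj p
      · obtain ⟨p, h1, h2⟩ := h
        have := (hω4 p h2).trans (single_le_sum (f := ω) (fun _ _ => Nat.zero_le _) h1)
        omega
      · push Not at h
        have h1 : W = ∅ := eq_empty_of_forall_notMem fun p hp => (h p (mem_filter.1 hp).1).1 hp
        have h2 : ∑ p ∈ range P.N, jj p = 0 := sum_eq_zero fun p hp => by
          have := (h p hp).2; omega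
        rw [h1, card_empty]
        omega
    have := token ω L.card L (range P.N) le_rfl (hLam.mono hL') hE
      (fun S hS => (hti S (hL' hS)).1.1.trans (range_subset_range.2 hP.le))
      (fun S hS => by
        obtain ⟨_, h1, h2⟩ := hti S (hL' hS)
        rcases hbig S with h | h
        · exact h
        refine le_trans ?_ h
        have h3 : 3 < (Fr.filter (P.cr S)).card := by
          refine lt_card_of_sum (x := x) (fun i hi => (hfr i (mem_filter.1 hi).1).2)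
            (by norm_num) ?_
          have : ((On.filter (P.cr S)).card + 3 : ℝ) ≤ P.K := by exact_mod_cast h1
          push_cast
          linarith
        refine le_trans h3 (card_le_card fun i hi => ?_)
        obtain ⟨h4, _, h5⟩ := mem_filter.1 hi
        exact mem_filter.2 ⟨h4, by tauto⟩)
      (fun S hS T hT hTS => by
        obtain ⟨_, _, s2⟩ := hti S (hL' hS)
        obtain ⟨_, _, t2⟩ := hti T (hL' hT)
        rcases hbig (S \ T) with h | h
        · omega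
        refine le_trans ?_ h
        by_contra hlt
        have hdiff : Fr.filter (P.cr S) ≠ Fr.filter (P.cr T) := fun e => hTS.ne (hinj hS hT e).symm
        obtain ⟨j, hj⟩ : ∃ j, ¬ (j ∈ Fr.filter (P.cr S) ↔ j ∈ Fr.filter (P.cr T)) := by
          by_contra hc
          push Not at hc
          exact hdiff (Finset.ext hc)
        have key : ∀ i, ¬ (i ∈ Fr.filter (P.cr S) ↔ i ∈ Fr.filter (P.cr T)) →
            i ∈ Fr.filter fun i => P.a i ∈ S \ T ∨ P.b i ∈ S \ T := by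
          intro i hi
          have h1 : P.a i ∈ T → P.a i ∈ S := fun h => hTS.subset h
          have h2 : P.b i ∈ T → P.b i ∈ S := fun h => hTS.subset h
          simp only [mem_filter, cr, mem_sdiff] at hi ⊢
          tauto
        have uniq : ∀ i, i ≠ j → (i ∈ Fr.filter (P.cr S) ↔ i ∈ Fr.filter (P.cr T)) := by
          intro i hij
          by_contra hc
          exact hij (card_le_one.1 (by omega) i (key i hc) j (key j hj))
        have hjF : j ∈ Fr := (mem_filter.1 (key j hj)).1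
        obtain ⟨x0, x1⟩ := hfr j hjF
        have herase : (Fr.filter (P.cr S)).erase j = (Fr.filter (P.cr T)).erase j := by
          ext i
          simp only [mem_erase]
          exact and_congr_right fun h => uniq i h
        by_cases hjS : j ∈ Fr.filter (P.cr S)
        · have hjT : j ∉ Fr.filter (P.cr T) := fun h => hj ⟨fun _ => h, fun _ => hjS⟩
          have e1 := add_sum_erase _ x hjS
          rw [herase, erase_eq_of_notMem hjT] at e1
          have e2 : ((On.filter (P.cr S)).card : ℝ) < (On.filter (P.cr T)).card := by linarith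
          have e3 : ((On.filter (P.cr T)).card : ℝ) < (On.filter (P.cr S)).card + 1 := by linarith
          have e4 : (On.filter (P.cr S)).card < (On.filter (P.cr T)).card := by exact_mod_cast e2
          have e5 : (On.filter (P.cr T)).card < (On.filter (P.cr S)).card + 1 := by
            exact_mod_cast e3
          omega
        · have hjT : j ∈ Fr.filter (P.cr T) := by
            by_contra h
            exact hj ⟨fun h' => absurd h' hjS, fun h' => absurd h' h⟩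
          have e1 := add_sum_erase _ x hjT
          rw [← herase, erase_eq_of_notMem hjS] at e1
          have e2 : ((On.filter (P.cr T)).card : ℝ) < (On.filter (P.cr S)).card := by linarith
          have e3 : ((On.filter (P.cr S)).card : ℝ) < (On.filter (P.cr T)).card + 1 := by linarith
          have e4 : (On.filter (P.cr T)).card < (On.filter (P.cr S)).card := by exact_mod_cast e2
          have e5 : (On.filter (P.cr S)).card < (On.filter (P.cr T)).card + 1 := by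
            exact_mod_cast e3
          omega)
    omega
  obtain ⟨z, hz0, hz⟩ := exists_kernel (L.disjSum (W.disjSum W2))
    (Sum.elim (fun S => Fr.filter (P.cr S))
      (Sum.elim (fun p => Fr.filter (P.hasEnd p)) fun q => Fr.filter (P.hasFine q))) Fr
    (by rintro (S | p | q) _ <;> exact filter_subset _ _) (by simpa using hcount)
  have hzL : ∀ S ∈ LL, ∑ i ∈ Fr.filter (P.cr S), z i = 0 := by
    intro S hS
    have : Fr.filter (P.cr S) ∈ L.image fun S => Fr.filter (P.cr S) :=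
      him ▸ mem_image_of_mem _ hS
    obtain ⟨T, hT, e⟩ := mem_image.1 this
    rw [← e]
    exact hz (Sum.inl T) (by simpa using hT)
  refine ⟨z, hz0, ?_, fun p hp h1 h2 => hz (Sum.inr (Sum.inl p))
    (inr_mem_disjSum.2 (inl_mem_disjSum.2 (mem_filter.2 ⟨mem_range.2 hp, h1, h2⟩))),
    fun p hp h1 h2 => hz (Sum.inr (Sum.inr p))
    (inr_mem_disjSum.2 (inr_mem_disjSum.2 (mem_filter.2 ⟨mem_range.2 hp, h1, h2⟩)))⟩
  have main : ∀ (k : ℕ) (S : Finset ℕ), (LL.filter fun Y => Cross S Y).card = k →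
      P.Tight On Fr x S → ∑ i ∈ Fr.filter (P.cr S), z i = 0 := by
    intro k
    induction k using Nat.strong_induction_on with
    | _ k ih =>
      intro S hk hS
      by_cases hc : ∃ T ∈ LL, Cross S T
      · obtain ⟨T, hT, hc⟩ := hc
        obtain ⟨Z1, Z2, c1, c2, t1, t2, h⟩ :=
          uncross hP hx (fun i hi => (hfr i hi).1) hS (hti T hT) hc
        exact h z (hzL T hT) (ih _ (hk ▸ cross_lt hLam hT hc c1) Z1 rfl t1)
          (ih _ (hk ▸ cross_lt hLam hT hc c2) Z2 rfl t2)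
      · push Not at hc
        refine hzL S ?_
        by_contra hn
        have h1 : insert S LL ∈ TT.powerset.filter Laminar := by
          refine mem_filter.2 ⟨mem_powerset.2 (insert_subset ?_ hLT'), fun A hA B hB => ?_⟩
          · exact mem_filter.2 ⟨mem_powerset.2 hS.1.1, hS⟩
          · rcases mem_insert.1 hA with rfl | hA' <;> rcases mem_insert.1 hB with rfl | hB'
            · rintro ⟨⟨y, h1, h2⟩, _⟩
              exact h2 h1
            · exact hc B hB'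
            · exact fun h => hc A hA' h.symm
            · exact hLam A hA' B hB'
        have h2 := hmax _ h1
        rw [card_insert_of_notMem hn] at h2
        omega
  exact fun S hS => main _ S rfl hS

/-- A feasible point can be replaced by one of no larger cost with an integral coordinate. -/
theorem purify (hP : P.Ok) {On Fr : Finset ℕ} {x : ℕ → ℝ} (hx : P.Feas On Fr x)
    (hFr : Fr ⊆ range P.m) (hne : Fr.Nonempty) :
    ∃ y : ℕ → ℝ, P.Feas On Fr y ∧ ∑ i ∈ Fr, (P.c i : ℝ) * y i ≤ ∑ i ∈ Fr, (P.c i : ℝ) * x i ∧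
      ∃ i ∈ Fr, y i = 0 ∨ y i = 1 := by
  classical
  set R1 := (range P.n').powerset.filter fun S => P.IsCut S ∧
    (On.filter (P.cr S)).card + 3 ≤ P.K
  set R2 := (range P.N).filter fun p => (On.filter (P.hasEnd p)).card + 5 ≤ P.dem p
  set R3 := (range P.N2).filter fun p => (On.filter (P.hasFine p)).card + 7 ≤ P.dem2 p
  set E : Finset ℕ ⊕ ℕ ⊕ ℕ → Finset ℕ := Sum.elim (fun S => Fr.filter (P.cr S))
    (Sum.elim (fun p => Fr.filter (P.hasEnd p)) fun q => Fr.filter (P.hasFine q)) with hE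
  set r : Finset ℕ ⊕ ℕ ⊕ ℕ → ℝ := Sum.elim (fun S => (P.K : ℝ) - (On.filter (P.cr S)).card)
    (Sum.elim (fun p => (P.dem p : ℝ) - (On.filter (P.hasEnd p)).card)
      fun p => (P.dem2 p : ℝ) - (On.filter (P.hasFine p)).card) with hr
  have conv : ∀ y : ℕ → ℝ, (∀ i ∈ Fr, 0 ≤ y i ∧ y i ≤ 1) →
      (P.Feas On Fr y ↔ ∀ ρ ∈ R1.disjSum (R2.disjSum R3), r ρ ≤ ∑ i ∈ E ρ, y i) := by
    intro y hy
    constructor
    · rintro h (S | p | p) hρ
      · obtain ⟨_, h1, h2⟩ := mem_filter.1 (inl_mem_disjSum.1 hρ)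
        have := h.cut S h1 h2
        simp only [hE, hr, Sum.elim_inl]
        linarith
      · obtain ⟨h1, h2⟩ := mem_filter.1 (inl_mem_disjSum.1 (inr_mem_disjSum.1 hρ))
        have := h.star p (mem_range.1 h1) h2
        simp only [hE, hr, Sum.elim_inr, Sum.elim_inl]
        linarith
      · obtain ⟨h1, h2⟩ := mem_filter.1 (inr_mem_disjSum.1 (inr_mem_disjSum.1 hρ))
        have := h.fine p (mem_range.1 h1) h2
        simp only [hE, hr, Sum.elim_inr]
        linarith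
    · intro h
      refine ⟨hy, fun S h1 h2 => ?_, fun p h1 h2 => ?_, fun p h1 h2 => ?_⟩
      · have := h (Sum.inl S) (inl_mem_disjSum.2 (mem_filter.2 ⟨mem_powerset.2 h1.1, h1, h2⟩))
        simp only [hE, hr, Sum.elim_inl] at this
        linarith
      · have := h (Sum.inr (Sum.inl p))
          (inr_mem_disjSum.2 (inl_mem_disjSum.2 (mem_filter.2 ⟨mem_range.2 h1, h2⟩)))
        simp only [hE, hr, Sum.elim_inr, Sum.elim_inl] at this
        linarith
      · have := h (Sum.inr (Sum.inr p))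
          (inr_mem_disjSum.2 (inr_mem_disjSum.2 (mem_filter.2 ⟨mem_range.2 h1, h2⟩)))
        simp only [hE, hr, Sum.elim_inr] at this
        linarith
  obtain ⟨y, h1, h2, h3, h4⟩ := purify_abs (R1.disjSum (R2.disjSum R3)) E r Fr
    (fun i => (P.c i : ℝ))
    (fun y hy hf => by
      have hb : ∀ i ∈ Fr, 0 ≤ y i ∧ y i ≤ 1 := fun i hi => ⟨(hy i hi).1.le, (hy i hi).2.le⟩
      obtain ⟨z, z0, z1, z2, z3⟩ := kernel hP ((conv y hb).2 hf) hFr hne hy
      refine ⟨z, z0, ?_⟩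
      rintro (S | p | p) hρ he
      · obtain ⟨_, h1, h2⟩ := mem_filter.1 (inl_mem_disjSum.1 hρ)
        simp only [hE, hr, Sum.elim_inl] at he ⊢
        exact z1 S ⟨h1, h2, by linarith⟩
      · obtain ⟨h1, h2⟩ := mem_filter.1 (inl_mem_disjSum.1 (inr_mem_disjSum.1 hρ))
        simp only [hE, hr, Sum.elim_inr, Sum.elim_inl] at he ⊢
        exact z2 p (mem_range.1 h1) h2 (by linarith)
      · obtain ⟨h1, h2⟩ := mem_filter.1 (inr_mem_disjSum.1 (inr_mem_disjSum.1 hρ))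
        simp only [hE, hr, Sum.elim_inr] at he ⊢
        exact z3 p (mem_range.1 h1) h2 (by linarith))
    (by rintro (S | p | p) _ <;> exact filter_subset _ _) x hx.box ((conv x hx.box).1 hx)
  exact ⟨y, (conv y h1).2 h2, h3, h4⟩

end LP

end Pool.Agent.Lib.MP_959bb6_lc.Rnd
end
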