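import Mathlib
import Pool.Agent.Shared.PolyTime.Graph
import Pool.Agent.Lib.MP_959bb6_lc.Defs
import Pool.Agent.Lib.MP_959bb6_lc.Round

-- part Pool.Agent.Lib.MP_959bb6_lc.Base
section

/-!
Common notions for the proofs: tables, integer metrics, cut forms of connectivity.
-/

set_option autoImplicit false

namespace Pool.Agent.Lib.MP_959bb6_lc

open Pool.Agent.Shared.PolyTime Polynomial Enc Finset

/-- Table of a function. -/
def tab {β : Type} (N : ℕ) (f : ℕ → β) : List β := (List.range N).map fun i => f i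

/-- Table of a function of two arguments. -/
def tab2 {β : Type} (N : ℕ) (f : ℕ → ℕ → β) : List (List β) :=
  (List.range N).map fun i => (List.range N).map fun j => f i j

/-- Lookup in a table of numbers. -/
def nat1 (l : List ℕ) (i : ℕ) : ℕ := l.getD i 0

/-- Lookup in a matrix of numbers. -/
def nat2 (M : List (List ℕ)) (i j : ℕ) : ℕ := (M.getD i []).getD j 0

/-- Lookup in a table of bits. -/
def bit1 (l : List Bool) (i : ℕ) : Bool := l.getD i false

/-- The subset of `range N` described by a table of bits. -/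
def setOf1 (N : ℕ) (l : List Bool) : Finset ℕ := (range N).filter fun i => bit1 l i = true

/-- `c` is a metric with positive integer distances on `range n`. -/
structure IsMet (n : ℕ) (c : ℕ → ℕ → ℕ) : Prop where
  self : ∀ u, u < n → c u u = 0
  symm : ∀ u v, u < n → v < n → c u v = c v u
  tri : ∀ u v w, u < n → v < n → w < n → c u w ≤ c u v + c v w
  pos : ∀ u v, u < n → v < n → u ≠ v → 0 < c u v

/-- Packing bound: a set in a ball of radius `ρ` whose points are `ρ / M` apart has at most
`J M` points. -/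
def Doubling (J : ℕ → ℕ) (n : ℕ) (c : ℕ → ℕ → ℕ) : Prop :=
  ∀ (M u ρ : ℕ) (P : Finset ℕ), u < n → P ⊆ range n → (∀ p ∈ P, c u p ≤ ρ) →
    (∀ p ∈ P, ∀ q ∈ P, p ≠ q → ρ ≤ M * c p q) → P.card ≤ J M

/-- The graph on `Fin n` described by a matrix. -/
def graphOf (n : ℕ) (M : List (List Bool)) : SimpleGraph (Fin n) :=
  SimpleGraph.fromRel fun i j => entry M i j = true

open Classical in
/-- Twice the cost of a graph in an integer metric. -/
noncomputable def costN (n : ℕ) (c : ℕ → ℕ → ℕ) (G : SimpleGraph (Fin n)) : ℕ :=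
  ∑ i : Fin n, ∑ j : Fin n, if G.Adj i j then c i j else 0

open Classical in
/-- Cut form of `k`-edge-connectivity. -/
def ECut (n k : ℕ) (G : SimpleGraph (Fin n)) : Prop :=
  ∀ S : Finset (Fin n), S.Nonempty → S ≠ univ →
    k ≤ ∑ i ∈ S, ∑ j ∈ Sᶜ, if G.Adj i j then 1 else 0

/-- Cut form of `k`-vertex-connectivity. -/
def VCut (n k : ℕ) (G : SimpleGraph (Fin n)) : Prop :=
  ∀ A B : Finset (Fin n), A.Nonempty → B.Nonempty → Disjoint A B →
    (∀ a ∈ A, ∀ b ∈ B, ¬ G.Adj a b) → k + A.card + B.card ≤ n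

/-- The algorithmic core on integer metrics with a packing bound. -/
def Core (P : (n k : ℕ) → SimpleGraph (Fin n) → Prop) : Prop :=
  ∀ (J : ℕ → ℕ) (δ : ℕ), ∃ (K : ℕ) (alg : ℕ × List (List ℕ) → List (List Bool)), PF alg ∧
    ∀ (n k : ℕ) (c : ℕ → ℕ → ℕ), IsMet n c → Doubling J n c → K ≤ k → k < n →
      ∀ G : SimpleGraph (Fin n), P n k G →
        P n k (graphOf n (alg (k, tab2 n c))) ∧
          δ * costN n c (graphOf n (alg (k, tab2 n c))) ≤ (δ + 1) * costN n c G

/-- Capacity of the arcs leaving `U` in a directed network on `range N`. -/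
def dcut (N : ℕ) (W : ℕ → ℕ → ℕ) (U : Finset ℕ) : ℕ :=
  ∑ i ∈ U, ∑ j ∈ range N \ U, W i j

section
variable {α β : Type} [Enc α] [Enc β]

@[fun_prop] theorem pf_tab {N : α → ℕ} {f : α → ℕ → β} (hN : PF N)
    (hf : PF fun p : α × ℕ => f p.1 p.2) : PF fun a => tab (N a) (f a) := by
  unfold tab; fun_prop

@[fun_prop] theorem pf_tab2 {N : α → ℕ} {f : α → ℕ → ℕ → β} (hN : PF N)
    (hf : PF fun p : (α × ℕ) × ℕ => f p.1.1 p.1.2 p.2) : PF fun a => tab2 (N a) (f a) :=
  pf_tab (f := fun a i => tab (N a) (f a i)) hN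
    (pf_tab (N := fun p : α × ℕ => N p.1) (f := fun p j => f p.1 p.2 j) (hN.comp (by fun_prop)) hf)

@[fun_prop] theorem pf_nat1 {l : α → List ℕ} {i : α → ℕ} (hl : PF l) (hi : PF i) :
    PF fun a => nat1 (l a) (i a) := by unfold nat1; fun_prop

@[fun_prop] theorem pf_nat2 {l : α → List (List ℕ)} {i j : α → ℕ} (hl : PF l) (hi : PF i)
    (hj : PF j) : PF fun a => nat2 (l a) (i a) (j a) := by unfold nat2; fun_prop

@[fun_prop] theorem pf_bit1 {l : α → List Bool} {i : α → ℕ} (hl : PF l) (hi : PF i) :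
    PF fun a => bit1 (l a) (i a) := by unfold bit1; fun_prop

/-- Iteration when every step has an output of size at most a computable number. -/
theorem pf_iter {k : α → ℕ} {i : α → β} {st : α → β → β} (g : α → ℕ) (hk : PF k)
    (hi : PF i) (hs : PF fun p : α × β => st p.1 p.2) (hg : PF g)
    (hb : ∀ a b, (enc (st a b)).length ≤ g a) : PF fun a => (st a)^[k a] (i a) := by
  obtain ⟨pg, hpg⟩ := hg.size
  obtain ⟨pi, hpi⟩ := hi.size
  refine PF.iterate hk hi hs ⟨pi + pg, fun a j _ => ?_⟩
  have h2 := hpi a _ le_rfl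
  have h3 := hpg a _ le_rfl
  rw [len_nat] at h3
  simp only [eval_add]
  rcases j with _ | j
  · simp only [Function.iterate_zero, id]; omega
  · rw [Function.iterate_succ_apply']
    have := hb a ((st a)^[j] (i a))
    omega

/-- Iteration when every step adds at most a computable number to the size. -/
theorem pf_iter_add {k : α → ℕ} {i : α → β} {st : α → β → β} (g : α → ℕ) (hk : PF k)
    (hi : PF i) (hs : PF fun p : α × β => st p.1 p.2) (hg : PF g)
    (hb : ∀ a b, (enc (st a b)).length ≤ (enc b).length + g a) :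
    PF fun a => (st a)^[k a] (i a) := by
  obtain ⟨r, hr⟩ := hg.size
  obtain ⟨pk, hpk⟩ := hk.size
  obtain ⟨pi, hpi⟩ := hi.size
  refine PF.iterate hk hi hs ⟨pi + pk * r, fun a j hj => ?_⟩
  have h0 := hr a _ le_rfl
  rw [len_nat] at h0
  have key : ∀ j, (enc ((st a)^[j] (i a))).length ≤
      (enc (i a)).length + j * r.eval (enc a).length := by
    intro j
    induction j with
    | zero => simp
    | succ j ih =>
      rw [Function.iterate_succ_apply', Nat.add_mul]
      have := hb a ((st a)^[j] (i a))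
      omega
  have h1 := key j
  have h2 := hpi a _ le_rfl
  have h3 := hpk a _ le_rfl
  rw [len_nat] at h3
  have h4 := Nat.mul_le_mul_right (r.eval (enc a).length) (hj.trans h3)
  simp only [eval_add, eval_mul]
  omega

theorem len_tab (N D : ℕ) (f : ℕ → β) (h : ∀ i < N, (enc (f i)).length ≤ D) :
    (enc (tab N f)).length ≤ N * (2 * D + 1) := by
  have := len_le_mul (tab N f) D fun a ha => by
    obtain ⟨i, hi, rfl⟩ := List.mem_map.1 ha
    exact h i (List.mem_range.1 hi)
  simpa [tab] using this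

theorem len_tab2 (N D : ℕ) (f : ℕ → ℕ → β) (h : ∀ i < N, ∀ j < N, (enc (f i j)).length ≤ D) :
    (enc (tab2 N f)).length ≤ N * (2 * (N * (2 * D + 1)) + 1) :=
  len_tab N _ (fun i => tab N (f i)) fun i hi => len_tab N D (f i) (h i hi)

end

@[simp] theorem length_tab {β : Type} (N : ℕ) (f : ℕ → β) : (tab N f).length = N := by
  simp [tab]

@[simp] theorem length_tab2 {β : Type} (N : ℕ) (f : ℕ → ℕ → β) : (tab2 N f).length = N := by
  simp [tab2]

theorem getD_tab {β : Type} {N i : ℕ} (f : ℕ → β) (d : β) (h : i < N) :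
    (tab N f).getD i d = f i := by
  simp [tab, List.getD_eq_getElem?_getD, h]

theorem getD_tab_ge {β : Type} {N i : ℕ} (f : ℕ → β) (d : β) (h : N ≤ i) :
    (tab N f).getD i d = d := by
  simp [tab, List.getD_eq_getElem?_getD, h]

theorem getD_tab2 {β : Type} {N i j : ℕ} (f : ℕ → ℕ → β) (d : β) (hi : i < N) (hj : j < N) :
    ((tab2 N f).getD i []).getD j d = f i j := by
  have : (tab2 N f).getD i [] = tab N (f i) := getD_tab (fun i => tab N (f i)) [] hi
  rw [this, getD_tab _ _ hj]

theorem nat1_tab {N i : ℕ} (f : ℕ → ℕ) (h : i < N) : nat1 (tab N f) i = f i := getD_tab f 0 h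

theorem bit1_tab {N i : ℕ} (f : ℕ → Bool) (h : i < N) : bit1 (tab N f) i = f i :=
  getD_tab f false h

theorem nat2_tab2 {N i j : ℕ} (f : ℕ → ℕ → ℕ) (hi : i < N) (hj : j < N) :
    nat2 (tab2 N f) i j = f i j := getD_tab2 f 0 hi hj

theorem entry_tab2 {N i j : ℕ} (f : ℕ → ℕ → Bool) (hi : i < N) (hj : j < N) :
    entry (tab2 N f) i j = f i j := getD_tab2 f false hi hj

theorem mem_setOf1 {N i : ℕ} {l : List Bool} : i ∈ setOf1 N l ↔ i < N ∧ bit1 l i = true := by
  simp [setOf1]

theorem setOf1_subset (N : ℕ) (l : List Bool) : setOf1 N l ⊆ range N := filter_subset _ _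

theorem setOf1_tab (N : ℕ) (f : ℕ → Bool) :
    setOf1 N (tab N f) = (range N).filter fun i => f i = true := by
  ext i
  simp only [mem_setOf1, mem_filter, mem_range]
  exact and_congr_right fun h => by rw [bit1_tab f h]

theorem sum_tab (N : ℕ) (f : ℕ → ℕ) : (tab N f).sum = ∑ i ∈ range N, f i := by
  unfold tab
  rw [Finset.sum_range f]
  induction N with
  | zero => simp
  | succ N ih => rw [List.range_succ, List.map_append, List.sum_append, ih, Fin.sum_univ_castSucc]; simp

end Pool.Agent.Lib.MP_959bb6_lc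
end

-- part Pool.Agent.Lib.MP_959bb6_lc.Flow
section

/-!
A minimum cut oracle for directed networks with unary capacities.
-/

set_option autoImplicit false

namespace Pool.Agent.Lib.MP_959bb6_lc

open Pool.Agent.Shared.PolyTime Finset Enc

/-- The first index below `N` with a property, or `N`. -/
def first (N : ℕ) (p : ℕ → Bool) : ℕ := ((List.range N).filter fun i => p i).headD N

@[fun_prop] theorem pf_first {α : Type} [Enc α] {N : α → ℕ} {p : α → ℕ → Bool} (hN : PF N)
    (hp : PF fun q : α × ℕ => p q.1 q.2) : PF fun a => first (N a) (p a) := by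
  unfold first
  exact PF.headD (PF.filter (f := fun a i => p a i) hN.range hp) hN

theorem first_spec {N : ℕ} {p : ℕ → Bool} (h : ∃ i, i < N ∧ p i = true) :
    first N p < N ∧ p (first N p) = true ∧ ∀ j, j < first N p → p j = false := by
  unfold first
  induction N with
  | zero => obtain ⟨i, hi, _⟩ := h; omega
  | succ N ih =>
    rw [List.range_succ, List.filter_append]
    by_cases h' : ∃ i, i < N ∧ p i = true
    · obtain ⟨h1, h2, h3⟩ := ih h'
      obtain ⟨i, hi, hp⟩ := h'
      have hne : (List.range N).filter (fun i => p i) ≠ [] := fun e => by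
        have : i ∈ (List.range N).filter (fun i => p i) := by simp [hi, hp]
        rw [e] at this
        simp at this
      obtain ⟨x, l, e⟩ := List.exists_cons_of_ne_nil hne
      rw [e] at h1 h2 h3 ⊢
      simp only [List.headD_cons, List.cons_append] at h1 h2 h3 ⊢
      exact ⟨by omega, h2, h3⟩
    · have he : (List.range N).filter (fun i => p i) = [] := by
        rw [List.filter_eq_nil_iff]
        intro i hi hp
        exact h' ⟨i, List.mem_range.1 hi, hp⟩
      obtain ⟨i, hi, hp⟩ := h
      have : i = N := by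
        by_contra hne
        exact h' ⟨i, by omega, hp⟩
      subst this
      rw [he]
      simp only [List.nil_append, List.filter_cons, hp, if_true, List.headD_cons]
      refine ⟨by omega, trivial, fun j hj => ?_⟩
      by_contra hc
      exact h' ⟨j, hj, by simpa using hc⟩

theorem first_none {N : ℕ} {p : ℕ → Bool} (h : ∀ i, i < N → p i = false) : first N p = N := by
  unfold first
  have he : (List.range N).filter (fun i => p i) = [] := by
    rw [List.filter_eq_nil_iff]
    intro i hi
    simp [h i (List.mem_range.1 hi)]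
  rw [he]
  rfl

theorem first_le (N : ℕ) (p : ℕ → Bool) : first N p ≤ N := by
  by_cases h : ∃ i, i < N ∧ p i = true
  · exact (first_spec h).1.le
  · push Not at h
    exact (first_none fun i hi => by simpa using h i hi).le

theorem first_lt_iff {N : ℕ} {p : ℕ → Bool} : first N p < N ↔ ∃ i, i < N ∧ p i = true := by
  refine ⟨fun h => ?_, fun h => (first_spec h).1⟩
  by_contra hc
  push Not at hc
  have := first_none (p := p) fun i hi => by simpa using hc i hi
  omega

/-- The number of indices below `N` with a property. -/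
def cntB (N : ℕ) (p : ℕ → Bool) : ℕ := (tab N fun i => bif p i then 1 else 0).sum

@[fun_prop] theorem pf_cntB {α : Type} [Enc α] {N : α → ℕ} {p : α → ℕ → Bool} (hN : PF N)
    (hp : PF fun q : α × ℕ => p q.1 q.2) : PF fun a => cntB (N a) (p a) := by
  unfold cntB
  exact PF.sum (pf_tab (f := fun a i => bif p a i then 1 else 0) hN
    (PF.cond' hp (PF.const 1) (PF.const 0)))

theorem cntB_eq (N : ℕ) (p : ℕ → Bool) :
    cntB N p = ((range N).filter fun i => p i = true).card := by
  unfold cntB
  rw [sum_tab, card_filter]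
  exact sum_congr rfl fun i _ => by cases p i <;> simp

/-- Some index below `N` has the property. -/
def anyB (N : ℕ) (p : ℕ → Bool) : Bool := (List.range N).any fun i => p i

@[fun_prop] theorem pf_anyB {α : Type} [Enc α] {N : α → ℕ} {p : α → ℕ → Bool} (hN : PF N)
    (hp : PF fun q : α × ℕ => p q.1 q.2) : PF fun a => anyB (N a) (p a) := by
  unfold anyB
  exact PF.any (f := fun a i => p a i) hN.range hp

theorem anyB_iff {N : ℕ} {p : ℕ → Bool} : anyB N p = true ↔ ∃ i, i < N ∧ p i = true := by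
  simp [anyB]

/-- Sum of a function below `N`. -/
def sumB (N : ℕ) (f : ℕ → ℕ) : ℕ := (tab N f).sum

@[fun_prop] theorem pf_sumB {α : Type} [Enc α] {N : α → ℕ} {f : α → ℕ → ℕ} (hN : PF N)
    (hf : PF fun q : α × ℕ => f q.1 q.2) : PF fun a => sumB (N a) (f a) :=
  PF.sum (pf_tab hN hf)

theorem sumB_eq (N : ℕ) (f : ℕ → ℕ) : sumB N f = ∑ i ∈ range N, f i := sum_tab N f

namespace Fl

def grow (N : ℕ) (R : List (List ℕ)) (l : List Bool) : List Bool :=
  tab N fun v => bit1 l v || anyB N fun u => bit1 l u && Nat.blt 0 (nat2 R u v)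

def rch (N : ℕ) (R : List (List ℕ)) (s : List Bool) (j : ℕ) : List Bool :=
  (grow N R)^[j] (tab N fun v => bit1 s v)

def dst (N : ℕ) (R : List (List ℕ)) (s : List Bool) (v : ℕ) : ℕ :=
  cntB N fun j => !(bit1 (rch N R s j) v)

def prd (N : ℕ) (R : List (List ℕ)) (s : List Bool) (v : ℕ) : ℕ :=
  first N fun u => Nat.blt 0 (nat2 R u v) && Nat.blt (dst N R s u) (dst N R s v)

def back (N B : ℕ) (R0 : List (List ℕ)) (s : List Bool) (q : List (List ℕ) × ℕ) :
    List (List ℕ) × ℕ :=
  (tab2 N fun x y => min B (bif dst N R0 s q.2 == 0 then nat2 q.1 x y else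
      bif x == prd N R0 s q.2 && y == q.2 then nat2 q.1 x y - 1 else
      bif x == q.2 && y == prd N R0 s q.2 then nat2 q.1 x y + 1 else nat2 q.1 x y),
    min N (bif dst N R0 s q.2 == 0 then q.2 else prd N R0 s q.2))

def snk (N : ℕ) (R : List (List ℕ)) (s t : List Bool) : ℕ :=
  first N fun v => bit1 t v && bit1 (rch N R s N) v

def aug (N B θ : ℕ) (s t : List Bool) (q : ℕ × List (List ℕ)) : ℕ × List (List ℕ) :=
  (min θ (bif Nat.blt (snk N q.2 s t) N then q.1 + 1 else q.1),
    tab2 N fun x y => min B (bif Nat.blt (snk N q.2 s t) N then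
      nat2 ((back N B q.2 s)^[N] (q.2, snk N q.2 s t)).1 x y else nat2 q.2 x y))

def tot (N : ℕ) (R : List (List ℕ)) : ℕ := sumB N fun x => sumB N fun y => nat2 R x y

def run (W : List (List ℕ)) (s t : List Bool) (θ : ℕ) : ℕ × List (List ℕ) :=
  (aug W.length (tot W.length W) θ s t)^[θ] (0, W)

def mc (I : List (List ℕ) × List Bool × List Bool × ℕ) : Bool × List Bool :=
  (Nat.blt (run I.1 I.2.1 I.2.2.1 I.2.2.2).1 I.2.2.2,
    rch I.1.length (run I.1 I.2.1 I.2.2.1 I.2.2.2).2 I.2.1 I.1.length)

section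
variable {α : Type} [Enc α]

@[fun_prop] theorem pf_grow {N : α → ℕ} {R : α → List (List ℕ)} {l : α → List Bool} (h1 : PF N)
    (h2 : PF R) (h3 : PF l) : PF fun a => grow (N a) (R a) (l a) := by unfold grow; fun_prop

@[fun_prop] theorem pf_rch {N j : α → ℕ} {R : α → List (List ℕ)} {s : α → List Bool} (h1 : PF N)
    (h2 : PF R) (h3 : PF s) (h4 : PF j) : PF fun a => rch (N a) (R a) (s a) (j a) := by
  unfold rch
  exact pf_iter (st := fun a => grow (N a) (R a)) (fun a => N a * (2 * 1 + 1)) h4 (by fun_prop)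
    (by fun_prop) (by fun_prop) fun a b => len_tab _ _ _ fun i _ => by simp

@[fun_prop] theorem pf_dst {N v : α → ℕ} {R : α → List (List ℕ)} {s : α → List Bool} (h1 : PF N)
    (h2 : PF R) (h3 : PF s) (h4 : PF v) : PF fun a => dst (N a) (R a) (s a) (v a) := by
  unfold dst; fun_prop

@[fun_prop] theorem pf_prd {N v : α → ℕ} {R : α → List (List ℕ)} {s : α → List Bool} (h1 : PF N)
    (h2 : PF R) (h3 : PF s) (h4 : PF v) : PF fun a => prd (N a) (R a) (s a) (v a) := by
  unfold prd; fun_prop

@[fun_prop] theorem pf_back {N B : α → ℕ} {R : α → List (List ℕ)} {s : α → List Bool}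
    {q : α → List (List ℕ) × ℕ} (h1 : PF N) (h0 : PF B) (h2 : PF R) (h3 : PF s) (h4 : PF q) :
    PF fun a => back (N a) (B a) (R a) (s a) (q a) := by unfold back; fun_prop

@[fun_prop] theorem pf_snk {N : α → ℕ} {R : α → List (List ℕ)} {s t : α → List Bool} (h1 : PF N)
    (h2 : PF R) (h3 : PF s) (h4 : PF t) : PF fun a => snk (N a) (R a) (s a) (t a) := by
  unfold snk; fun_prop

@[fun_prop] theorem pf_backs {N B : α → ℕ} {R : α → List (List ℕ)} {s : α → List Bool}
    {q : α → List (List ℕ) × ℕ} (h1 : PF N) (h0 : PF B) (h2 : PF R) (h3 : PF s) (h4 : PF q) :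
    PF fun a => (back (N a) (B a) (R a) (s a))^[N a] (q a) := by
  refine pf_iter (st := fun a => back (N a) (B a) (R a) (s a))
    (fun a => 2 * (N a * (2 * (N a * (2 * B a + 1)) + 1)) + N a + 1) h1 h4
    (by fun_prop) (by fun_prop) fun a b => ?_
  unfold back
  rw [len_prod, len_nat]
  have := len_tab2 (N a) (B a) (fun x y => min (B a) (bif dst (N a) (R a) (s a) b.2 == 0 then
      nat2 b.1 x y else
      bif x == prd (N a) (R a) (s a) b.2 && y == b.2 then nat2 b.1 x y - 1 else
      bif x == b.2 && y == prd (N a) (R a) (s a) b.2 then nat2 b.1 x y + 1 else nat2 b.1 x y))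
    fun i _ j _ => by simp
  omega

@[fun_prop] theorem pf_aug {N B θ : α → ℕ} {s t : α → List Bool}
    {q : α → ℕ × List (List ℕ)} (h1 : PF N) (h0 : PF B) (h2 : PF θ) (h3 : PF s) (h5 : PF t)
    (h4 : PF q) : PF fun a => aug (N a) (B a) (θ a) (s a) (t a) (q a) := by unfold aug; fun_prop

@[fun_prop] theorem pf_tot {N : α → ℕ} {R : α → List (List ℕ)} (h1 : PF N) (h2 : PF R) :
    PF fun a => tot (N a) (R a) := by unfold tot; fun_prop

@[fun_prop] theorem pf_run {θ : α → ℕ} {s t : α → List Bool} {W : α → List (List ℕ)}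
    (h1 : PF W) (h3 : PF s) (h5 : PF t) (h2 : PF θ) :
    PF fun a => run (W a) (s a) (t a) (θ a) := by
  unfold run
  refine pf_iter (st := fun a => aug (W a).length (tot (W a).length (W a)) (θ a) (s a) (t a))
    (fun a => 2 * θ a + (W a).length * (2 * ((W a).length * (2 * tot (W a).length (W a) + 1)) + 1)
      + 1) h2 (by fun_prop) (by fun_prop) (by fun_prop) fun a b => ?_
  unfold aug
  rw [len_prod, len_nat]
  refine Nat.add_le_add_right (Nat.add_le_add (by omega) (len_tab2 _ _ _ fun i _ j _ => ?_)) 1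
  simp

end

theorem pf_mc : PF mc := by unfold mc; fun_prop

section
variable (N : ℕ) (R : List (List ℕ)) (s : List Bool)

theorem mem_rch_zero (v : ℕ) : v ∈ setOf1 N (rch N R s 0) ↔ v < N ∧ bit1 s v = true := by
  simp [rch, setOf1_tab]

theorem mem_rch_succ (j v : ℕ) : v ∈ setOf1 N (rch N R s (j + 1)) ↔
    v ∈ setOf1 N (rch N R s j) ∨
      v < N ∧ ∃ u ∈ setOf1 N (rch N R s j), 0 < nat2 R u v := by
  unfold rch
  rw [Function.iterate_succ_apply']
  generalize (grow N R)^[j] _ = l
  unfold grow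
  simp only [setOf1_tab, mem_filter, mem_range, Bool.or_eq_true, anyB_iff, Bool.and_eq_true,
    Nat.blt_eq, mem_setOf1]
  constructor
  · rintro ⟨h1, h2 | ⟨u, h2, h3, h4⟩⟩
    · exact Or.inl ⟨h1, h2⟩
    · exact Or.inr ⟨h1, u, ⟨h2, h3⟩, h4⟩
  · rintro (⟨h1, h2⟩ | ⟨h1, u, ⟨h2, h3⟩, h4⟩)
    · exact ⟨h1, Or.inl h2⟩
    · exact ⟨h1, Or.inr ⟨u, h2, h3, h4⟩⟩

theorem rch_mono {i j : ℕ} (h : i ≤ j) : setOf1 N (rch N R s i) ⊆ setOf1 N (rch N R s j) := by
  induction h with
  | refl => exact Subset.refl _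
  | step _ ih => exact ih.trans fun v hv => (mem_rch_succ N R s _ v).2 (Or.inl hv)

theorem rch_closed : setOf1 N (rch N R s (N + 1)) = setOf1 N (rch N R s N) := by
  have key : ∀ j, j ≤ (setOf1 N (rch N R s j)).card ∨
      setOf1 N (rch N R s (j + 1)) = setOf1 N (rch N R s j) := by
    intro j
    induction j with
    | zero => simp
    | succ j ih =>
      by_cases h : setOf1 N (rch N R s (j + 1)) = setOf1 N (rch N R s j)
      · right
        ext v
        rw [mem_rch_succ N R s (j + 1), h, ← mem_rch_succ, h]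
      · left
        have := card_lt_card (Finset.ssubset_iff_subset_ne.2
          ⟨rch_mono N R s (Nat.le_succ j), Ne.symm h⟩)
        rcases ih with ih | ih
        · exact Nat.lt_of_le_of_lt ih this
        · exact absurd ih h
  rcases key N with h | h
  · have h1 : setOf1 N (rch N R s N) = range N :=
      eq_of_subset_of_card_le (setOf1_subset _ _) (by simpa using h)
    exact Subset.antisymm (h1 ▸ setOf1_subset _ _) (rch_mono N R s (Nat.le_succ N))
  · exact h

theorem dst_le {v j : ℕ} (h : v ∈ setOf1 N (rch N R s j)) : dst N R s v ≤ j := by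
  unfold dst
  rw [cntB_eq]
  refine le_trans (card_le_card fun i hi => ?_) (card_range j).le
  by_contra hc
  have := rch_mono N R s (show j ≤ i by simpa using hc) h
  simp [(mem_setOf1.1 this).2] at hi

theorem lt_dst {v j : ℕ} (hv : v < N) (hj : j < N) (h : v ∉ setOf1 N (rch N R s j)) :
    j < dst N R s v := by
  unfold dst
  rw [cntB_eq]
  refine le_trans (card_range (j + 1)).ge (card_le_card fun i hi => ?_)
  have hi' := mem_range.1 hi
  have : v ∉ setOf1 N (rch N R s i) := fun h' => h (rch_mono N R s (by omega) h')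
  simp only [mem_setOf1, hv, true_and] at this
  simp only [mem_filter, mem_range]
  exact ⟨by omega, by simpa using this⟩

theorem prd_spec {v : ℕ} (h : v ∈ setOf1 N (rch N R s N)) (h0 : dst N R s v ≠ 0) :
    prd N R s v ∈ setOf1 N (rch N R s N) ∧ 0 < nat2 R (prd N R s v) v ∧
      dst N R s (prd N R s v) < dst N R s v := by
  have hv := (mem_setOf1.1 h).1
  have h1 := dst_le N R s h
  obtain ⟨d, hd⟩ : ∃ d, dst N R s v = d + 1 := ⟨_, (Nat.succ_pred_eq_of_ne_zero h0).symm⟩
  have h2 : v ∈ setOf1 N (rch N R s (d + 1)) := by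
    by_contra hc
    rcases (show d + 1 < N ∨ d + 1 = N by omega) with h3 | h3
    · have := lt_dst N R s hv h3 hc
      omega
    · exact hc (h3 ▸ h)
  have h3 : v ∉ setOf1 N (rch N R s d) := fun hc => by
    have := dst_le N R s hc
    omega
  obtain ⟨_, u, hu, hp⟩ := ((mem_rch_succ N R s d v).1 h2).resolve_left h3
  obtain ⟨e1, e2, _⟩ := first_spec (N := N)
    (p := fun u => Nat.blt 0 (nat2 R u v) && Nat.blt (dst N R s u) (dst N R s v))
    ⟨u, (mem_setOf1.1 hu).1, by
      have := dst_le N R s hu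
      simp only [Bool.and_eq_true, Nat.blt_eq]
      omega⟩
  simp only [Bool.and_eq_true, Nat.blt_eq] at e2
  refine ⟨?_, e2.1, e2.2⟩
  by_contra hc
  have h4 : prd N R s v ∉ setOf1 N (rch N R s d) := fun h' => hc (rch_mono N R s (by omega) h')
  have := lt_dst N R s e1 (by omega) h4
  have e3 : dst N R s (prd N R s v) < dst N R s v := e2.2
  unfold prd at this e3
  omega

end

/-- Total capacity. -/
def total (N : ℕ) (W : ℕ → ℕ → ℕ) : ℕ := ∑ x ∈ range N, ∑ y ∈ range N, W x y

theorem sum_push {A B : Finset ℕ} {R R' : ℕ → ℕ → ℕ} {u v : ℕ} (huv : u ≠ v) (hp : 0 < R u v)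
    (h : ∀ x ∈ A, ∀ y ∈ B, R' x y = if x = u ∧ y = v then R x y - 1 else
      if x = v ∧ y = u then R x y + 1 else R x y) :
    ∑ x ∈ A, ∑ y ∈ B, R' x y + (if u ∈ A ∧ v ∈ B then 1 else 0) =
      ∑ x ∈ A, ∑ y ∈ B, R x y + if v ∈ A ∧ u ∈ B then 1 else 0 := by
  have e : ∀ p q : ℕ, (if p ∈ A ∧ q ∈ B then 1 else 0) =
      ∑ x ∈ A, ∑ y ∈ B, if x = p ∧ y = q then 1 else 0 := by
    intro p q
    simp only [ite_and, sum_ite_irrel, sum_const_zero, sum_ite_eq']
  rw [e, e, ← sum_add_distrib, ← sum_add_distrib]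
  refine sum_congr rfl fun x hx => ?_
  rw [← sum_add_distrib, ← sum_add_distrib]
  refine sum_congr rfl fun y hy => ?_
  rw [h x hx y hy]
  by_cases h1 : x = u ∧ y = v
  · obtain ⟨rfl, rfl⟩ := h1
    simp [huv]
    omega
  · simp only [if_neg h1]
    split_ifs <;> rfl

theorem le_total {N : ℕ} (R : ℕ → ℕ → ℕ) {x y : ℕ} (hx : x < N) (hy : y < N) :
    R x y ≤ total N R :=
  le_trans (single_le_sum (f := fun y => R x y) (fun _ _ => Nat.zero_le _) (mem_range.2 hy))
    (single_le_sum (f := fun x => ∑ y ∈ range N, R x y) (fun _ _ => Nat.zero_le _)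
      (mem_range.2 hx))

theorem total_congr {N : ℕ} {R R' : ℕ → ℕ → ℕ} (h : ∀ x y, x < N → y < N → R x y = R' x y) :
    total N R = total N R' :=
  sum_congr rfl fun x hx => sum_congr rfl fun y hy => h x y (mem_range.1 hx) (mem_range.1 hy)

theorem dcut_congr {N : ℕ} {R R' : ℕ → ℕ → ℕ} (h : ∀ x y, x < N → y < N → R x y = R' x y)
    {U : Finset ℕ} (hU : U ⊆ range N) : dcut N R U = dcut N R' U :=
  sum_congr rfl fun x hx => sum_congr rfl fun y hy =>
    h x y (mem_range.1 (hU hx)) (mem_range.1 (mem_sdiff.1 hy).1)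

theorem back_inv (N B : ℕ) (R0 : List (List ℕ)) (s : List Bool) (t : ℕ)
    (ht : t ∈ setOf1 N (rch N R0 s N)) (hB : total N (nat2 R0) = B) (j : ℕ) :
    ((back N B R0 s)^[j] (R0, t)).2 ∈ setOf1 N (rch N R0 s N) ∧
    dst N R0 s ((back N B R0 s)^[j] (R0, t)).2 ≤ dst N R0 s t - j ∧
    total N (nat2 ((back N B R0 s)^[j] (R0, t)).1) = B ∧
    (∀ x y, x < N → y < N → dst N R0 s x ≤ dst N R0 s ((back N B R0 s)^[j] (R0, t)).2 →
      dst N R0 s y ≤ dst N R0 s ((back N B R0 s)^[j] (R0, t)).2 →
      nat2 ((back N B R0 s)^[j] (R0, t)).1 x y = nat2 R0 x y) ∧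
    ∀ U : Finset ℕ, U ⊆ range N →
      dcut N (nat2 ((back N B R0 s)^[j] (R0, t)).1) U +
        (if ((back N B R0 s)^[j] (R0, t)).2 ∈ U then 1 else 0) =
      dcut N (nat2 R0) U + if t ∈ U then 1 else 0 := by
  induction j with
  | zero => exact ⟨ht, le_rfl, hB, fun _ _ _ _ _ _ => rfl, fun _ _ => rfl⟩
  | succ j ih =>
    rw [Function.iterate_succ_apply']
    generalize (back N B R0 s)^[j] (R0, t) = q at ih ⊢
    obtain ⟨R, v⟩ := q
    obtain ⟨i1, i2, i3, i4, i5⟩ := ih
    simp only at i1 i2 i3 i4 i5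
    have hv := (mem_setOf1.1 i1).1
    by_cases h0 : dst N R0 s v = 0
    · have e2 : (back N B R0 s (R, v)).2 = v := by simp [back, h0, hv.le]
      have e1 : ∀ x y, x < N → y < N → nat2 (back N B R0 s (R, v)).1 x y = nat2 R x y := by
        intro x y hx hy
        have := le_total (nat2 R) hx hy
        simp only [back, nat2_tab2 _ hx hy, h0, beq_self_eq_true, cond_true]
        omega
      rw [e2]
      refine ⟨i1, by omega, (total_congr e1).trans i3, fun x y hx hy a b => ?_, fun U hU => ?_⟩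
      · rw [e1 x y hx hy, i4 x y hx hy a b]
      · rw [dcut_congr e1 hU, i5 U hU]
    · obtain ⟨p1, p2, p3⟩ := prd_spec N R0 s i1 h0
      set u := prd N R0 s v with hu
      have hu' := (mem_setOf1.1 p1).1
      have huv : u ≠ v := fun e => by rw [e] at p3; omega
      have p4 : 0 < nat2 R u v := by rw [i4 u v hu' hv p3.le le_rfl]; exact p2
      have e2 : (back N B R0 s (R, v)).2 = u := by
        have : (dst N R0 s v == 0) = false := by simpa using h0
        simp [back, this, ← hu, hu'.le]
      have hs := sum_push (A := range N) (B := range N) (R := nat2 R) (R' := fun x y =>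
        if x = u ∧ y = v then nat2 R x y - 1 else if x = v ∧ y = u then nat2 R x y + 1
        else nat2 R x y) huv p4 fun _ _ _ _ => rfl
      simp only [mem_range, hu', hv, and_self, if_true, Nat.add_right_cancel_iff] at hs
      have e1 : ∀ x y, x < N → y < N → nat2 (back N B R0 s (R, v)).1 x y =
          if x = u ∧ y = v then nat2 R x y - 1 else
            if x = v ∧ y = u then nat2 R x y + 1 else nat2 R x y := by
        intro x y hx hy
        have h1 := le_total (fun x y => if x = u ∧ y = v then nat2 R x y - 1 else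
          if x = v ∧ y = u then nat2 R x y + 1 else nat2 R x y) hx hy
        have h2 : total N (fun x y => if x = u ∧ y = v then nat2 R x y - 1 else
          if x = v ∧ y = u then nat2 R x y + 1 else nat2 R x y) = B := hs.trans i3
        have : (dst N R0 s v == 0) = false := by simpa using h0
        simp only [back, nat2_tab2 _ hx hy, this, ← hu, Bool.cond_eq_ite,
          Bool.and_eq_true, beq_iff_eq]
        rw [h2] at h1
        exact min_eq_right h1
      rw [e2]
      refine ⟨p1, by omega, (total_congr e1).trans (hs.trans i3), fun x y hx hy a b => ?_,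
        fun U hU => ?_⟩
      · rw [e1 x y hx hy, if_neg, if_neg, i4 x y hx hy (by omega) (by omega)]
        · rintro ⟨rfl, _⟩; omega
        · rintro ⟨_, rfl⟩; omega
      · have h1 := sum_push (A := U) (B := range N \ U) (R := nat2 R)
          (R' := nat2 (back N B R0 s (R, v)).1) huv p4 fun x hx y hy =>
            e1 x y (mem_range.1 (hU hx)) (mem_range.1 (mem_sdiff.1 hy).1)
        have h2 := i5 U hU
        unfold dcut at h2 ⊢
        simp only [mem_sdiff, mem_range, hu', hv, true_and] at h1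
        by_cases c1 : u ∈ U <;> by_cases c2 : v ∈ U <;> simp [c1, c2] at h1 h2 ⊢ <;> omega

theorem run_inv (N : ℕ) (W : List (List ℕ)) (s t : List Bool) (θ : ℕ) (i : ℕ) (hi : i ≤ θ) :
    ((aug N (tot N W) θ s t)^[i] (0, W)).1 ≤ i ∧
    (((aug N (tot N W) θ s t)^[i] (0, W)).1 = i ∨
      ¬ snk N ((aug N (tot N W) θ s t)^[i] (0, W)).2 s t < N) ∧
    total N (nat2 ((aug N (tot N W) θ s t)^[i] (0, W)).2) = tot N W ∧
    ∀ U : Finset ℕ, U ⊆ range N → (∀ v, v < N → bit1 s v = true → v ∈ U) →
      (∀ v, v < N → bit1 t v = true → v ∉ U) →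
      dcut N (nat2 ((aug N (tot N W) θ s t)^[i] (0, W)).2) U +
        ((aug N (tot N W) θ s t)^[i] (0, W)).1 = dcut N (nat2 W) U := by
  induction i with
  | zero => simp [total, tot, sumB_eq]
  | succ i ih =>
    rw [Function.iterate_succ_apply']
    have ih' := ih (by omega)
    generalize (aug N (tot N W) θ s t)^[i] (0, W) = q at ih' ⊢
    obtain ⟨j, R⟩ := q
    obtain ⟨i1, i2, i3, i4⟩ := ih'
    simp only at i1 i2 i3 i4
    by_cases h : snk N R s t < N
    · have hb : Nat.blt (snk N R s t) N = true := by simpa [Nat.blt_eq] using h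
      obtain ⟨_, f2, _⟩ := first_spec (first_lt_iff.1 h)
      simp only [Bool.and_eq_true] at f2
      have ht : snk N R s t ∈ setOf1 N (rch N R s N) := mem_setOf1.2 ⟨h, f2.2⟩
      obtain ⟨b1, b2, b3, _, b5⟩ := back_inv N (tot N W) R s _ ht i3 N
      have e1 : (aug N (tot N W) θ s t (j, R)).1 = j + 1 := by
        simp only [aug, hb, cond_true]; omega
      have e2 : ∀ x y, x < N → y < N → nat2 (aug N (tot N W) θ s t (j, R)).2 x y =
          nat2 ((back N (tot N W) R s)^[N] (R, snk N R s t)).1 x y := by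
        intro x y hx hy
        have := le_total (nat2 ((back N (tot N W) R s)^[N] (R, snk N R s t)).1) hx hy
        simp only [aug, hb, cond_true, nat2_tab2 _ hx hy]
        omega
      rw [e1]
      refine ⟨by omega, Or.inl (by omega), (total_congr e2).trans b3, fun U hU h1 h2 => ?_⟩
      have h3 := b5 U hU
      have h4 := dst_le N R s ht
      have h5 := (mem_setOf1.1 b1).1
      have h6 : ((back N (tot N W) R s)^[N] (R, snk N R s t)).2 ∈ setOf1 N (rch N R s 0) := by
        by_contra hc
        have := lt_dst N R s h5 (by omega) hc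
        omega
      rw [if_pos (h1 _ h5 ((mem_rch_zero N R s _).1 h6).2), if_neg (h2 _ h f2.1)] at h3
      rw [dcut_congr e2 hU, ← i4 U hU h1 h2]
      omega
    · have hb : Nat.blt (snk N R s t) N = false := by
        rw [Bool.eq_false_iff]; simpa [Nat.blt_eq] using h
      have e1 : (aug N (tot N W) θ s t (j, R)).1 = j := by
        simp only [aug, hb, cond_false]; omega
      have e2 : ∀ x y, x < N → y < N → nat2 (aug N (tot N W) θ s t (j, R)).2 x y = nat2 R x y := by
        intro x y hx hy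
        have := le_total (nat2 R) hx hy
        simp only [aug, hb, cond_false, nat2_tab2 _ hx hy]
        omega
      have e3 : ∀ k, setOf1 N (rch N (aug N (tot N W) θ s t (j, R)).2 s k) =
          setOf1 N (rch N R s k) := by
        intro k
        induction k with
        | zero => ext v; rw [mem_rch_zero, mem_rch_zero]
        | succ k ihk =>
          ext v
          rw [mem_rch_succ, mem_rch_succ, ihk]
          refine or_congr_right (and_congr_right fun hv => exists_congr fun u =>
            and_congr_right fun hu => ?_)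
          rw [e2 u v (mem_setOf1.1 hu).1 hv]
      rw [e1]
      refine ⟨by omega, Or.inr fun hc => h ?_, (total_congr e2).trans i3, fun U hU h1 h2 => ?_⟩
      · obtain ⟨v, hv, hp⟩ := first_lt_iff.1 hc
        simp only [Bool.and_eq_true] at hp
        have : v ∈ setOf1 N (rch N R s N) := e3 N ▸ mem_setOf1.2 ⟨hv, hp.2⟩
        exact first_lt_iff.2 ⟨v, hv, by simp [hp.1, (mem_setOf1.1 this).2]⟩
      · rw [dcut_congr e2 hU, i4 U hU h1 h2]

end Fl

open Fl in
theorem mc_spec (N : ℕ) (W : ℕ → ℕ → ℕ) (s t : ℕ → Bool) (θ : ℕ) :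
    ((mc (tab2 N W, tab N s, tab N t, θ)).1 = true →
      (mc (tab2 N W, tab N s, tab N t, θ)).2.length = N ∧
      (∀ i, i < N → s i = true → i ∈ setOf1 N (mc (tab2 N W, tab N s, tab N t, θ)).2) ∧
      (∀ i, i < N → t i = true → i ∉ setOf1 N (mc (tab2 N W, tab N s, tab N t, θ)).2) ∧
      dcut N W (setOf1 N (mc (tab2 N W, tab N s, tab N t, θ)).2) < θ) ∧
    ((mc (tab2 N W, tab N s, tab N t, θ)).1 = false →
      ∀ U : Finset ℕ, U ⊆ range N → (∀ i, i < N → s i = true → i ∈ U) →
        (∀ i, i < N → t i = true → i ∉ U) → θ ≤ dcut N W U) := by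
  obtain ⟨i1, i2, _, i4⟩ := Fl.run_inv N (tab2 N W) (tab N s) (tab N t) θ θ le_rfl
  have hW : ∀ x y, x < N → y < N → nat2 (tab2 N W) x y = W x y := fun x y => nat2_tab2 W
  simp only [Fl.mc, Fl.run, length_tab2]
  generalize (Fl.aug N (Fl.tot N (tab2 N W)) θ (tab N s) (tab N t))^[θ] (0, tab2 N W) = q at *
  constructor
  · intro h
    have h' : q.1 < θ := by simpa [Nat.blt_eq] using h
    have hn := i2.resolve_left (by omega)
    have a1 : ∀ i, i < N → s i = true → i ∈ setOf1 N (Fl.rch N q.2 (tab N s) N) := fun i hi hs =>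
      Fl.rch_mono _ _ _ (Nat.zero_le N) ((Fl.mem_rch_zero _ _ _ _).2 ⟨hi, by rwa [bit1_tab _ hi]⟩)
    have a2 : ∀ i, i < N → t i = true → i ∉ setOf1 N (Fl.rch N q.2 (tab N s) N) :=
      fun i hi ht hc => hn (first_lt_iff.2
        ⟨i, hi, by simp [bit1_tab _ hi, ht, (mem_setOf1.1 hc).2]⟩)
    refine ⟨?_, a1, a2, ?_⟩
    · unfold Fl.rch
      rcases N with _ | N
      · simp
      · rw [Function.iterate_succ_apply']
        simp [Fl.grow]
    · have h1 := i4 _ (setOf1_subset _ _) (fun v hv h => a1 v hv (by rwa [bit1_tab _ hv] at h))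
        (fun v hv h => a2 v hv (by rwa [bit1_tab _ hv] at h))
      have h2 : dcut N (nat2 q.2) (setOf1 N (Fl.rch N q.2 (tab N s) N)) = 0 := by
        refine sum_eq_zero fun x hx => sum_eq_zero fun y hy => ?_
        by_contra hc
        obtain ⟨h3, h4⟩ := mem_sdiff.1 hy
        exact h4 (Fl.rch_closed N q.2 (tab N s) ▸ (Fl.mem_rch_succ _ _ _ _ _).2
          (Or.inr ⟨mem_range.1 h3, x, hx, Nat.pos_of_ne_zero hc⟩))
      rw [← Fl.dcut_congr hW (setOf1_subset _ _)]
      omega
  · intro h U hU h1 h2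
    have h' : ¬ q.1 < θ := by
      rw [Bool.eq_false_iff] at h; simpa [Nat.blt_eq] using h
    have := i4 U hU (fun v hv h => h1 v hv (by rwa [bit1_tab _ hv] at h))
      (fun v hv h => h2 v hv (by rwa [bit1_tab _ hv] at h))
    rw [← Fl.dcut_congr hW hU]
    omega

@[fun_prop] theorem pf_mc' {α : Type} [Enc α]
    {I : α → List (List ℕ) × List Bool × List Bool × ℕ} (h : PF I) : PF fun a => Fl.mc (I a) :=
  Fl.pf_mc.comp h

/-- The decision version: a cut below the threshold exists. -/
theorem mc_iff (N : ℕ) (W : ℕ → ℕ → ℕ) (s t : ℕ → Bool) (θ : ℕ) :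
    (Fl.mc (tab2 N W, tab N s, tab N t, θ)).1 = true ↔
      ∃ U : Finset ℕ, U ⊆ range N ∧ (∀ i, i < N → s i = true → i ∈ U) ∧
        (∀ i, i < N → t i = true → i ∉ U) ∧ dcut N W U < θ := by
  obtain ⟨h1, h2⟩ := mc_spec N W s t θ
  constructor
  · intro h
    obtain ⟨_, a, b, c⟩ := h1 h
    exact ⟨_, setOf1_subset _ _, a, b, c⟩
  · rintro ⟨U, a, b, c, d⟩
    by_contra h
    have := h2 (by simpa using h) U a b c
    omega

end Pool.Agent.Lib.MP_959bb6_lc
end

-- part Pool.Agent.Lib.MP_959bb6_lc.Enum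
section

/-!
Counting and listing the cuts of value at most three halves of the minimum.
-/

set_option autoImplicit false

namespace Pool.Agent.Lib.MP_959bb6_lc

open Pool.Agent.Shared.PolyTime Finset Enc

namespace Fl

/-- Cut value inside a finite set of nodes. -/
def cutV (V : Finset ℕ) (W : ℕ → ℕ → ℕ) (S : Finset ℕ) : ℕ := ∑ i ∈ S, ∑ j ∈ V \ S, W i j

/-- Weights after merging `b` into `a`. -/
def mrg (W : ℕ → ℕ → ℕ) (a b : ℕ) (i j : ℕ) : ℕ :=
  W i j + (if i = a then W b j else 0) + if j = a then W i b else 0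

theorem cutV_mrg {V : Finset ℕ} (W : ℕ → ℕ → ℕ) {a b : ℕ} (ha : a ∈ V) (hb : b ∈ V) (hab : a ≠ b)
    {S : Finset ℕ} (h : a ∈ S ↔ b ∈ S) :
    cutV (V.erase b) (mrg W a b) (S.erase b) = cutV V W S := by
  unfold cutV mrg
  by_cases hS : b ∈ S
  · have haS : a ∈ S.erase b := mem_erase.2 ⟨hab, h.2 hS⟩
    have e : V.erase b \ S.erase b = V \ S := by
      ext x; simp only [mem_sdiff, mem_erase]; grind
    have han : a ∉ V \ S := fun hc => (mem_sdiff.1 hc).2 (h.2 hS)
    rw [e, ← add_sum_erase S _ hS]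
    simp only [sum_add_distrib, sum_ite_irrel, sum_const_zero, sum_ite_eq', haS, han, if_true,
      if_false]
    omega
  · have haS : a ∉ S := fun hc => hS (h.1 hc)
    have e : V \ S = insert b (V.erase b \ S) := by
      ext x; simp only [mem_sdiff, mem_erase, mem_insert]; grind
    have ha' : a ∈ V.erase b \ S := mem_sdiff.2 ⟨mem_erase.2 ⟨hab, ha⟩, haS⟩
    rw [erase_eq_of_notMem hS, e]
    refine sum_congr rfl fun i hi => ?_
    have : i ≠ a := fun e => haS (e ▸ hi)
    rw [sum_insert (by simp)]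
    simp only [sum_add_distrib, this, if_false, sum_ite_eq', ha', if_true, sum_const_zero]
    omega

theorem count_small (lam : ℕ) (hl : 0 < lam) : ∀ (n : ℕ) (V : Finset ℕ) (W : ℕ → ℕ → ℕ),
    V.card = n + 3 → (∀ i ∈ V, ∀ j ∈ V, W i j = W j i) →
    (∀ S, S ⊆ V → S.Nonempty → S ≠ V → lam ≤ cutV V W S) →
    (V.powerset.filter fun S => 2 * cutV V W S ≤ 3 * lam).card ≤
      2 * (n + 3) * (n + 2) * (n + 1) := by
  intro n
  induction n with
  | zero =>
    intro V W hV _ _
    refine (card_filter_le _ _).trans ?_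
    rw [card_powerset, hV]
    norm_num
  | succ n ih =>
    intro V W hV hs hc
    set Sm := V.powerset.filter fun S => 2 * cutV V W S ≤ 3 * lam with hSm
    set T := ∑ a ∈ V, ∑ b ∈ V.erase a, W a b with hT
    have h1 : ∀ a ∈ V, ∀ b ∈ V.erase a,
        (Sm.filter fun S => (a ∈ S ↔ b ∈ S)).card ≤ 2 * (n + 3) * (n + 2) * (n + 1) := by
      intro a ha b hb
      obtain ⟨hba, hb'⟩ := mem_erase.1 hb
      refine le_trans (card_le_card_of_injOn (fun S => S.erase b) (fun S hS => ?_) ?_)
        (ih (V.erase b) (mrg W a b) (by rw [card_erase_of_mem hb', hV]; rfl) ?_ ?_)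
      · obtain ⟨h2, h3⟩ := mem_filter.1 (mem_coe.1 hS)
        obtain ⟨h4, h5⟩ := mem_filter.1 h2
        refine mem_coe.2 (mem_filter.2 ⟨mem_powerset.2
          (erase_subset_erase _ (mem_powerset.1 h4)), ?_⟩)
        rwa [cutV_mrg W ha hb' hba.symm h3]
      · intro S hS S' hS' e
        have h3 := (mem_filter.1 (mem_coe.1 hS)).2
        have h4 := (mem_filter.1 (mem_coe.1 hS')).2
        have h5 := Finset.ext_iff.1 e
        ext x
        have h6 := h5 x
        have h7 := h5 a
        simp only [mem_erase] at h6 h7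
        grind
      · intro i hi j hj
        have hi' := mem_of_mem_erase hi
        have hj' := mem_of_mem_erase hj
        unfold mrg
        rw [hs i hi' j hj', hs b hb' j hj', hs i hi' b hb']
        omega
      · intro S hS hne hS'
        have hbS : b ∉ S := fun h => (mem_erase.1 (hS h)).1 rfl
        by_cases haS : a ∈ S
        · have := cutV_mrg W ha hb' hba.symm (S := insert b S) (by simp [haS])
          rw [erase_insert hbS] at this
          rw [this]
          refine hc _ (insert_subset hb' (hS.trans (erase_subset _ _))) (by simp) fun e => hS' ?_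
          rw [← e, erase_insert hbS]
        · have := cutV_mrg W ha hb' hba.symm (S := S) (by simp [haS, hbS])
          rw [erase_eq_of_notMem hbS] at this
          rw [this]
          exact hc _ (hS.trans (erase_subset _ _)) hne fun e => hbS (e ▸ hb')
    have h2 : ∀ S ∈ Sm, T ≤ (∑ a ∈ V, ∑ b ∈ V.erase a, if (a ∈ S ↔ b ∈ S) then W a b else 0) +
        3 * lam := by
      intro S hS
      obtain ⟨h3, h4⟩ := mem_filter.1 hS
      have h5 := mem_powerset.1 h3
      have e1 : cutV V W S = ∑ a ∈ V, ∑ b ∈ V.erase a, if a ∈ S ∧ b ∉ S then W a b else 0 := by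
        unfold cutV
        rw [← sum_subset h5 fun a _ h => by simp [h]]
        refine sum_congr rfl fun a ha => ?_
        rw [← sum_filter]
        refine sum_congr ?_ fun _ _ => rfl
        ext x; simp only [mem_sdiff, mem_erase, mem_filter]; grind
      have e2 : cutV V W S = ∑ a ∈ V, ∑ b ∈ V.erase a, if a ∉ S ∧ b ∈ S then W a b else 0 := by
        unfold cutV
        rw [sum_comm, ← sum_subset (sdiff_subset (s := V) (t := S)) fun a h1 h => by
          have : a ∈ S := by simpa [h1] using h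
          simp [this]]
        refine sum_congr rfl fun a ha => ?_
        rw [← sum_filter]
        refine sum_congr ?_ fun b hb => hs b (mem_of_mem_erase (mem_filter.1 hb).1) a
          (mem_sdiff.1 ha).1
        ext x
        have := @h5 x
        simp only [mem_sdiff, mem_erase, mem_filter] at ha ⊢
        grind
      have e3 : T = (∑ a ∈ V, ∑ b ∈ V.erase a, if (a ∈ S ↔ b ∈ S) then W a b else 0) +
          cutV V W S + cutV V W S := by
        nth_rewrite 1 [e1]
        rw [e2, hT]
        simp only [← sum_add_distrib]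
        refine sum_congr rfl fun a _ => sum_congr rfl fun b _ => ?_
        by_cases c1 : a ∈ S <;> by_cases c2 : b ∈ S <;> simp [c1, c2]
      omega
    have h3 : (n + 4) * lam ≤ T := by
      have : ∑ _a ∈ V, lam ≤ T := by
        refine sum_le_sum fun a ha => ?_
        have := hc {a} (singleton_subset_iff.2 ha) (singleton_nonempty a) fun e => by
          rw [← e, card_singleton] at hV; omega
        unfold cutV at this
        rwa [sum_singleton, sdiff_singleton_eq_erase] at this
      rwa [sum_const, hV, smul_eq_mul] at this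
    have h4 : ∑ S ∈ Sm, (∑ a ∈ V, ∑ b ∈ V.erase a, if (a ∈ S ↔ b ∈ S) then W a b else 0) ≤
        T * (2 * (n + 3) * (n + 2) * (n + 1)) := by
      rw [sum_comm, hT, sum_mul]
      refine sum_le_sum fun a ha => ?_
      rw [sum_comm, sum_mul]
      refine sum_le_sum fun b hb => ?_
      rw [← sum_filter, sum_const, smul_eq_mul, mul_comm]
      exact Nat.mul_le_mul_left _ (h1 a ha b hb)
    have h5 := sum_le_sum h2
    rw [sum_add_distrib, sum_const, sum_const, smul_eq_mul, smul_eq_mul] at h5
    generalize Sm.card = c at *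
    have hT0 : 0 < T := lt_of_lt_of_le (by positivity) h3
    have h6 : T * (c * (n + 4)) ≤ T * ((2 * (n + 3) * (n + 2) * (n + 1)) * (n + 4) + 3 * c) := by
      have := Nat.mul_le_mul_left (3 * c) h3
      have := Nat.mul_le_mul_left (n + 4) (h5.trans (Nat.add_le_add_right h4 _))
      nlinarith
    have h7 := Nat.le_of_mul_le_mul_left h6 hT0
    have h8 : (n + 1) * c ≤ (n + 1) * (2 * (n + 1 + 3) * (n + 1 + 2) * (n + 1 + 1)) := by
      nlinarith
    exact Nat.le_of_mul_le_mul_left h8 (by omega)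

theorem count_cuts {N lam : ℕ} {W : ℕ → ℕ → ℕ} (hs : ∀ i j, i < N → j < N → W i j = W j i)
    (hl : 0 < lam)
    (hc : ∀ U : Finset ℕ, U ⊆ range N → U.Nonempty → U ≠ range N → lam ≤ dcut N W U) :
    ((range N).powerset.filter fun S => 2 * dcut N W S ≤ 3 * lam).card ≤ 2 * N ^ 3 + 8 := by
  rcases lt_or_ge N 3 with h | h
  · refine (card_filter_le _ _).trans ?_
    rw [card_powerset, card_range]
    interval_cases N <;> norm_num
  · obtain ⟨n, rfl⟩ := Nat.exists_eq_add_of_le' h
    refine (count_small lam hl n (range (n + 3)) W (card_range _)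
      (fun i hi j hj => hs i j (mem_range.1 hi) (mem_range.1 hj)) hc).trans ?_
    nlinarith [Nat.zero_le (n ^ 2), Nat.zero_le (n ^ 3)]

def test (W : List (List ℕ)) (θ i : ℕ) (l : List Bool) : Bool :=
  !(bit1 l 0) && (mc (W, tab W.length (fun v => Nat.blt v i && bit1 l v),
    tab W.length (fun v => Nat.blt v i && !(bit1 l v)), θ)).1

def level (W : List (List ℕ)) (θ : ℕ) (q : ℕ × List (List Bool)) : ℕ × List (List Bool) :=
  (min W.length (q.1 + 1),
    ((((q.2.map fun l => (l ++ [false]).take W.length) ++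
      q.2.map fun l => (l ++ [true]).take W.length).filter fun l => test W θ (q.1 + 1) l).take
      (2 * W.length ^ 3 + 8)))

def en (I : List (List ℕ) × ℕ) : List (List Bool) := ((level I.1 I.2)^[I.1.length] (0, [[]])).2

@[fun_prop] theorem pf_test {α : Type} [Enc α] {W : α → List (List ℕ)} {θ i : α → ℕ}
    {l : α → List Bool} (h1 : PF W) (h2 : PF θ) (h3 : PF i) (h4 : PF l) :
    PF fun a => test (W a) (θ a) (i a) (l a) := by unfold test; fun_prop

@[fun_prop] theorem pf_level {α : Type} [Enc α] {W : α → List (List ℕ)} {θ : α → ℕ}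
    {q : α → ℕ × List (List Bool)} (h1 : PF W) (h2 : PF θ) (h3 : PF q) :
    PF fun a => level (W a) (θ a) (q a) := by unfold level; fun_prop

theorem pf_en : PF en := by
  unfold en
  refine PF.snd (pf_iter (st := fun a : List (List ℕ) × ℕ => level a.1 a.2)
    (fun a => 2 * a.1.length + (2 * a.1.length ^ 3 + 8) * (2 * (a.1.length * (2 * 1 + 1)) + 1) + 1)
    (by fun_prop) (by fun_prop) (by fun_prop) (by fun_prop) fun a b => ?_)
  unfold level
  rw [len_prod, len_nat]
  refine Nat.add_le_add_right (Nat.add_le_add (by omega)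
    ((len_le_mul _ (a.1.length * (2 * 1 + 1)) fun l hl => ?_).trans
      (Nat.mul_le_mul_right _ (List.length_take_le _ _)))) 1
  have h1 := (List.mem_filter.1 (List.mem_of_mem_take hl)).1
  have h2 : l.length ≤ a.1.length := by
    rcases List.mem_append.1 h1 with h | h <;> obtain ⟨x, _, rfl⟩ := List.mem_map.1 h <;>
      exact List.length_take_le _ _
  exact (len_le_mul l 1 fun _ _ => by simp).trans (Nat.mul_le_mul_right _ h2)

theorem tab_succ {β : Type} (i : ℕ) (f : ℕ → β) : tab (i + 1) f = tab i f ++ [f i] := by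
  simp [tab, List.range_succ]

theorem eq_tab_bit1 (l : List Bool) : l = tab l.length fun v => bit1 l v := by
  refine List.ext_getElem (by simp) fun i h1 h2 => ?_
  simp [tab, bit1, List.getD_eq_getElem?_getD, h1]

theorem level_inv {N : ℕ} {W : ℕ → ℕ → ℕ} {θ lam : ℕ}
    (hs : ∀ i j, i < N → j < N → W i j = W j i) (hl : 0 < lam) (hθ : 2 * θ ≤ 3 * lam)
    (hc : ∀ U : Finset ℕ, U ⊆ range N → U.Nonempty → U ≠ range N → lam ≤ dcut N W U)
    (i : ℕ) (hi : i ≤ N) :
    ((level (tab2 N W) θ)^[i] (0, [[]])).1 = i ∧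
    (∀ l ∈ ((level (tab2 N W) θ)^[i] (0, [[]])).2, l.length = i) ∧
    ((level (tab2 N W) θ)^[i] (0, [[]])).2.Nodup ∧
    ∀ U : Finset ℕ, U ⊆ range N → 0 ∉ U → dcut N W U < θ →
      tab i (fun v => decide (v ∈ U)) ∈ ((level (tab2 N W) θ)^[i] (0, [[]])).2 := by
  classical
  induction i with
  | zero => simp [tab]
  | succ i ih =>
    rw [Function.iterate_succ_apply']
    have ih' := ih (by omega)
    generalize (level (tab2 N W) θ)^[i] (0, [[]]) = q at ih' ⊢
    obtain ⟨j, L⟩ := q
    obtain ⟨i1, i2, i3, i4⟩ := ih'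
    simp only at i1 i2 i3 i4
    subst i1
    have e : ∀ b : Bool, (L.map fun l => (l ++ [b]).take N) = L.map fun l => l ++ [b] :=
      fun b => List.map_congr_left fun l hl => List.take_of_length_le (by simp [i2 l hl]; omega)
    set C := ((L.map fun l => l ++ [false]) ++ L.map fun l => l ++ [true]).filter
      fun l => test (tab2 N W) θ (j + 1) l with hC
    have c1 : ∀ l ∈ C, l.length = j + 1 := by
      intro l hl
      rcases List.mem_append.1 (List.mem_filter.1 hl).1 with h | h <;>
        obtain ⟨x, hx, rfl⟩ := List.mem_map.1 h <;> simp [i2 x hx]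
    have c2 : C.Nodup := by
      refine List.Nodup.filter _ (List.Nodup.append (i3.map fun a b h => by simpa using h)
        (i3.map fun a b h => by simpa using h) fun x h1 h2 => ?_)
      obtain ⟨a, ha, rfl⟩ := List.mem_map.1 h1
      obtain ⟨b, hb, e⟩ := List.mem_map.1 h2
      simp at e
    have c3 : ∀ l : List Bool, test (tab2 N W) θ (j + 1) l = true ↔ bit1 l 0 = false ∧
        ∃ U : Finset ℕ, U ⊆ range N ∧ (∀ v, v < j + 1 → (v ∈ U ↔ bit1 l v = true)) ∧
          dcut N W U < θ := by
      intro l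
      simp only [test, length_tab2, Bool.and_eq_true, mc_iff, Bool.not_eq_true', Nat.blt_eq]
      refine and_congr_right fun _ => exists_congr fun U => and_congr_right fun _ => ?_
      constructor
      · rintro ⟨a, b, c⟩
        refine ⟨fun v hv => ⟨fun h => ?_, fun h => a v (by omega) ⟨hv, h⟩⟩, c⟩
        by_contra h'
        exact b v (by omega) ⟨hv, by simpa using h'⟩ h
      · rintro ⟨a, c⟩
        exact ⟨fun v _ h => (a v h.1).2 h.2, fun v _ h h' => by simp [(a v h.1).1 h'] at h, c⟩
    have c4 : C.length ≤ 2 * N ^ 3 + 8 := by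
      have h1 : ∀ l : List Bool, ∃ U : Finset ℕ, l ∈ C → U ⊆ range N ∧
          (∀ v, v < j + 1 → (v ∈ U ↔ bit1 l v = true)) ∧ dcut N W U < θ := by
        intro l
        by_cases h : l ∈ C
        · obtain ⟨_, U, hU⟩ := (c3 l).1 (List.mem_filter.1 h).2
          exact ⟨U, fun _ => hU⟩
        · exact ⟨∅, fun h' => absurd h' h⟩
      choose f hf using h1
      rw [← List.toFinset_card_of_nodup c2]
      refine le_trans (card_le_card_of_injOn f (fun l hl => ?_) fun l hl l' hl' e => ?_)
        (count_cuts hs hl hc)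
      · obtain ⟨a, _, c⟩ := hf l (by simpa using hl)
        exact mem_coe.2 (mem_filter.2 ⟨mem_powerset.2 a, by omega⟩)
      · have hl1 : l ∈ C := by simpa using hl
        have hl2 : l' ∈ C := by simpa using hl'
        rw [eq_tab_bit1 l, eq_tab_bit1 l', c1 l hl1, c1 l' hl2]
        refine List.map_congr_left fun v hv => ?_
        have hv' := List.mem_range.1 hv
        rw [Bool.eq_iff_iff, ← (hf l hl1).2.1 v hv', ← (hf l' hl2).2.1 v hv', e]
    have e2 : level (tab2 N W) θ (j, L) = (j + 1, C) := by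
      simp only [level, length_tab2, e, ← hC, List.take_of_length_le c4]
      rw [min_eq_right hi]
    rw [e2]
    refine ⟨rfl, c1, c2, fun U hU h0 hθ' => List.mem_filter.2 ⟨?_, (c3 _).2 ⟨?_, U, hU, ?_, hθ'⟩⟩⟩
    · rw [tab_succ]
      have := i4 U hU h0 hθ'
      cases decide (j ∈ U)
      · exact List.mem_append_left _ (List.mem_map.2 ⟨_, this, rfl⟩)
      · exact List.mem_append_right _ (List.mem_map.2 ⟨_, this, rfl⟩)
    · rw [bit1_tab _ (by omega)]
      simpa using h0
    · intro v hv
      rw [bit1_tab _ hv]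
      simp

end Fl

@[fun_prop] theorem pf_en' {α : Type} [Enc α] {I : α → List (List ℕ) × ℕ} (h : PF I) :
    PF fun a => Fl.en (I a) := Fl.pf_en.comp h

theorem en_spec {N : ℕ} {W : ℕ → ℕ → ℕ} {θ lam : ℕ}
    (hs : ∀ i j, i < N → j < N → W i j = W j i) (hl : 0 < lam) (hθ : 2 * θ ≤ 3 * lam)
    (hc : ∀ U : Finset ℕ, U ⊆ range N → U.Nonempty → U ≠ range N → lam ≤ dcut N W U)
    {U : Finset ℕ} (hU : U ⊆ range N) (h0 : 0 ∉ U) (h : dcut N W U < θ) :
    ∃ l ∈ Fl.en (tab2 N W, θ), setOf1 N l = U := by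
  refine ⟨_, by simpa [Fl.en] using (Fl.level_inv hs hl hθ hc N le_rfl).2.2.2 U hU h0 h, ?_⟩
  rw [setOf1_tab]
  ext v
  have := @hU v
  simp only [mem_filter, decide_eq_true_eq]
  tauto

end Pool.Agent.Lib.MP_959bb6_lc
end

-- part Pool.Agent.Lib.MP_959bb6_lc.SolveDef
section

/-!
The rounding algorithm: a perceptron solver for the relaxed program, and one edge fixed per round.
-/

set_option autoImplicit false

namespace Pool.Agent.Lib.MP_959bb6_lc

open Pool.Agent.Shared.PolyTime Finset Enc

namespace Rnd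

/-- Encoded program. -/
abbrev In : Type := ℕ × ℕ × ℕ × List (ℕ × ℕ × Bool × ℕ × ℕ × ℕ) × List ℕ × List ℕ

/-- A row: indicator of its edges, demand, activity threshold. -/
abbrev Row : Type := List Bool × ℕ × ℕ

def im (I : In) : ℕ := I.2.2.2.1.length
def ie (I : In) (i : ℕ) : ℕ × ℕ × Bool × ℕ × ℕ × ℕ := I.2.2.2.1.getD i (0, 0, false, 0, 0, 0)
def ia (I : In) (i : ℕ) : ℕ := (ie I i).1
def ib (I : In) (i : ℕ) : ℕ := (ie I i).2.1
def icn (I : In) (i : ℕ) : Bool := (ie I i).2.2.1
def ic (I : In) (i : ℕ) : ℕ := (ie I i).2.2.2.1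
def iu (I : In) (i : ℕ) : ℕ := (ie I i).2.2.2.2.1
def iv (I : In) (i : ℕ) : ℕ := (ie I i).2.2.2.2.2

/-- The program described by an input. -/
def toLP (I : In) : LP :=
  ⟨im I, I.1, I.2.1, I.2.2.1, ia I, ib I, icn I, ic I, nat1 I.2.2.2.2.1,
    I.2.2.2.2.2.length, iu I, iv I, nat1 I.2.2.2.2.2⟩

def cm (I : In) : ℕ := 1 + (tab (im I) fun i => ic I i).sum
def dD (I : In) : ℕ := cm I ^ 2 + 2 * (im I + 1) * cm I
def mM (I : In) : ℕ := (im I + 1) * dD I + 2 * (im I + 1) + 1

def wf (I : In) (X : List ℕ) (u v : ℕ) : ℕ :=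
  (tab (im I) fun i => bif icn I i && ((ia I i == u && ib I i == v) ||
    (ia I i == v && ib I i == u)) then nat1 X i else 0).sum

def cutRow (I : In) (l : List Bool) : List Bool :=
  tab (im I) fun i => icn I i && !(bit1 l (ia I i) == bit1 l (ib I i))

def valid (I : In) (l : List Bool) : Bool :=
  !(bit1 l 0) && (List.range I.1).any fun v => bit1 l v

def cands (I : In) (X : List ℕ) : List (List Bool) :=
  (tab I.1 fun t => (Fl.mc (tab2 I.1 (wf I X), tab I.1 (fun v => v == t), tab I.1 (fun v => v == 0),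
    mM I * (I.2.2.1 - 2))).2) ++ Fl.en (tab2 I.1 (wf I X), mM I * I.2.2.1 - (im I + 1))

def rows (I : In) (X : List ℕ) : List Row :=
  (((cands I X).filter fun l => valid I l).map fun l => (cutRow I l, I.2.2.1, 3)) ++
    ((tab I.2.1 fun p => (tab (im I) fun i => ia I i == p || ib I i == p, nat1 I.2.2.2.2.1 p, 5)) ++
      tab I.2.2.2.2.2.length fun p =>
        (tab (im I) fun i => iu I i == p || iv I i == p, nat1 I.2.2.2.2.2 p, 7))

def cnt (I : In) (st : List ℕ) (r : List Bool) : ℕ :=
  (tab (im I) fun i => bif bit1 r i && nat1 st i == 1 then 1 else 0).sum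

def wsum (I : In) (X : List ℕ) (r : List Bool) : ℕ :=
  (tab (im I) fun i => bif bit1 r i then nat1 X i else 0).sum

def viol (I : In) (st X : List ℕ) (r : Row) : Bool :=
  Nat.ble (cnt I st r.1 + r.2.2) r.2.1 && Nat.blt (wsum I X r.1 + (im I + 1)) (mM I * r.2.1)

def bad (I : In) (st X : List ℕ) : List Row :=
  (rows I X).filter fun r => viol I st X r

def cst (I : In) (X : List ℕ) : ℕ := (tab (im I) fun i => ic I i * nat1 X i).sum

def step (I : In) (st : List ℕ) (W : ℕ) (X : List ℕ) : List ℕ :=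
  tab (im I) fun i => min (mM I) (bif nat1 st i == 2 then
    (bif (bad I st X).isEmpty then
      (bif Nat.blt (W + cm I ^ 2) (cst I X) then nat1 X i - ic I i else nat1 X i)
    else nat1 X i + bif bit1 ((bad I st X).headD ([], 0, 0)).1 i then 1 else 0)
    else nat1 X i)

def ok (I : In) (st : List ℕ) (W : ℕ) (X : List ℕ) : Bool :=
  (bad I st X).isEmpty && Nat.ble (cst I X) (W + cm I ^ 2)

def x0 (I : In) (st : List ℕ) : List ℕ := tab (im I) fun i => bif nat1 st i == 1 then mM I else 0

def solve (I : In) (st : List ℕ) (W : ℕ) : Bool :=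
  ok I st W ((step I st W)^[im I * mM I ^ 2 + 1] (x0 I st))

def upd (I : In) (st : List ℕ) (j : ℕ) : List ℕ :=
  tab (im I) fun i => bif i == j / 2 then j % 2 else min 2 (nat1 st i)

def pick (I : In) (st : List ℕ) (W : ℕ) : ℕ :=
  first (2 * im I) fun j => nat1 st (j / 2) == 2 && solve I (upd I st j) W

def w0 (I : In) : ℕ :=
  mM I * first (cm I) fun B => solve I (tab (im I) fun _ => 2) (mM I * B)

def round (I : In) (s : ℕ × List ℕ) : ℕ × List ℕ :=
  (min (s.1 + 1) (im I), upd I s.2 (pick I s.2 (w0 I + (s.1 + 1) * dD I)))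

def fin (I : In) : ℕ × List ℕ := (round I)^[im I] (0, tab (im I) fun _ => 2)

def out (I : In) : List Bool := tab (im I) fun i => nat1 (fin I).2 i == 1

section
variable {α : Type} [Enc α]

@[fun_prop] theorem pf_im {I : α → In} (h : PF I) : PF fun a => im (I a) := by
  unfold im; fun_prop
@[fun_prop] theorem pf_ie {I : α → In} {i : α → ℕ} (h : PF I) (h' : PF i) :
    PF fun a => ie (I a) (i a) := by unfold ie; fun_prop
@[fun_prop] theorem pf_ia {I : α → In} {i : α → ℕ} (h : PF I) (h' : PF i) :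
    PF fun a => ia (I a) (i a) := by unfold ia; fun_prop
@[fun_prop] theorem pf_ib {I : α → In} {i : α → ℕ} (h : PF I) (h' : PF i) :
    PF fun a => ib (I a) (i a) := by unfold ib; fun_prop
@[fun_prop] theorem pf_icn {I : α → In} {i : α → ℕ} (h : PF I) (h' : PF i) :
    PF fun a => icn (I a) (i a) := by unfold icn; fun_prop
@[fun_prop] theorem pf_ic {I : α → In} {i : α → ℕ} (h : PF I) (h' : PF i) :
    PF fun a => ic (I a) (i a) := by unfold ic; fun_prop
@[fun_prop] theorem pf_iu {I : α → In} {i : α → ℕ} (h : PF I) (h' : PF i) :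
    PF fun a => iu (I a) (i a) := by unfold iu; fun_prop
@[fun_prop] theorem pf_iv {I : α → In} {i : α → ℕ} (h : PF I) (h' : PF i) :
    PF fun a => iv (I a) (i a) := by unfold iv; fun_prop
@[fun_prop] theorem pf_cm {I : α → In} (h : PF I) : PF fun a => cm (I a) := by
  unfold cm; fun_prop
@[fun_prop] theorem pf_dD {I : α → In} (h : PF I) : PF fun a => dD (I a) := by
  unfold dD; fun_prop
@[fun_prop] theorem pf_mM {I : α → In} (h : PF I) : PF fun a => mM (I a) := by
  unfold mM; fun_prop
@[fun_prop] theorem pf_wf {I : α → In} {X : α → List ℕ} {u v : α → ℕ} (h : PF I) (h1 : PF X)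
    (h2 : PF u) (h3 : PF v) : PF fun a => wf (I a) (X a) (u a) (v a) := by unfold wf; fun_prop
@[fun_prop] theorem pf_cutRow {I : α → In} {l : α → List Bool} (h : PF I) (h1 : PF l) :
    PF fun a => cutRow (I a) (l a) := by unfold cutRow; fun_prop
@[fun_prop] theorem pf_valid {I : α → In} {l : α → List Bool} (h : PF I) (h1 : PF l) :
    PF fun a => valid (I a) (l a) := by unfold valid; fun_prop
@[fun_prop] theorem pf_cnt {I : α → In} {st : α → List ℕ} {r : α → List Bool} (h : PF I)
    (h1 : PF st) (h2 : PF r) : PF fun a => cnt (I a) (st a) (r a) := by unfold cnt; fun_prop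
@[fun_prop] theorem pf_wsum {I : α → In} {st : α → List ℕ} {r : α → List Bool} (h : PF I)
    (h1 : PF st) (h2 : PF r) : PF fun a => wsum (I a) (st a) (r a) := by unfold wsum; fun_prop
@[fun_prop] theorem pf_viol {I : α → In} {st X : α → List ℕ} {r : α → Row} (h : PF I)
    (h1 : PF st) (h2 : PF X) (h3 : PF r) : PF fun a => viol (I a) (st a) (X a) (r a) := by
  unfold viol; fun_prop
@[fun_prop] theorem pf_cst {I : α → In} {X : α → List ℕ} (h : PF I) (h1 : PF X) :
    PF fun a => cst (I a) (X a) := by unfold cst; fun_prop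
@[fun_prop] theorem pf_x0 {I : α → In} {X : α → List ℕ} (h : PF I) (h1 : PF X) :
    PF fun a => x0 (I a) (X a) := by unfold x0; fun_prop
@[fun_prop] theorem pf_upd {I : α → In} {X : α → List ℕ} {j : α → ℕ} (h : PF I) (h1 : PF X)
    (h2 : PF j) : PF fun a => upd (I a) (X a) (j a) := by unfold upd; fun_prop

@[fun_prop] theorem pf_cands {I : α → In} {X : α → List ℕ} (h : PF I)
    (h1 : PF X) : PF fun a => cands (I a) (X a) := by unfold cands; fun_prop
@[fun_prop] theorem pf_rows {I : α → In} {X : α → List ℕ} (h : PF I)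
    (h1 : PF X) : PF fun a => rows (I a) (X a) := by unfold rows; fun_prop
@[fun_prop] theorem pf_bad {I : α → In} {st X : α → List ℕ}
    (h : PF I) (h1 : PF st) (h2 : PF X) : PF fun a => bad (I a) (st a) (X a) := by
  unfold bad; fun_prop
@[fun_prop] theorem pf_step {I : α → In} {st X : α → List ℕ}
    {W : α → ℕ} (h : PF I) (h1 : PF st) (h3 : PF W) (h2 : PF X) :
    PF fun a => step (I a) (st a) (W a) (X a) := by unfold step; fun_prop
@[fun_prop] theorem pf_ok {I : α → In} {st X : α → List ℕ}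
    {W : α → ℕ} (h : PF I) (h1 : PF st) (h3 : PF W) (h2 : PF X) :
    PF fun a => ok (I a) (st a) (W a) (X a) := by unfold ok; fun_prop
@[fun_prop] theorem pf_solve {I : α → In} {st : α → List ℕ}
    {W : α → ℕ} (h : PF I) (h1 : PF st) (h3 : PF W) :
    PF fun a => solve (I a) (st a) (W a) := by
  unfold solve
  refine pf_ok h h1 h3 (pf_iter (st := fun a => step (I a) (st a) (W a))
    (fun a => im (I a) * (2 * mM (I a) + 1)) (by fun_prop) (by fun_prop) (by fun_prop)
    (by fun_prop) fun a b => ?_)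
  exact len_tab _ _ _ fun i _ => by simp
@[fun_prop] theorem pf_pick {I : α → In} {st : α → List ℕ}
    {W : α → ℕ} (h : PF I) (h1 : PF st) (h3 : PF W) :
    PF fun a => pick (I a) (st a) (W a) := by unfold pick; fun_prop
@[fun_prop] theorem pf_w0 {I : α → In} (h : PF I) :
    PF fun a => w0 (I a) := by unfold w0; fun_prop
@[fun_prop] theorem pf_round {I : α → In} {s : α → ℕ × List ℕ}
    (h : PF I) (h1 : PF s) : PF fun a => round (I a) (s a) := by unfold round; fun_prop

@[fun_prop] theorem pf_fin {I : α → In} (h : PF I) : PF fun a => fin (I a) := by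
  unfold fin
  refine pf_iter (st := fun a => round (I a))
    (fun a => 2 * im (I a) + im (I a) * (2 * 2 + 1) + 1)
    (by fun_prop) (by fun_prop) (by fun_prop) (by fun_prop) fun a b => ?_
  unfold round upd
  rw [len_prod, len_nat]
  refine Nat.add_le_add_right (Nat.add_le_add (by omega) (len_tab _ _ _ fun i _ => ?_)) 1
  rw [len_nat]
  cases (i == _) <;> simp only [cond_true, cond_false] <;> omega
@[fun_prop] theorem pf_out {I : α → In} (h : PF I) : PF fun a => out (I a) := by
  unfold out; fun_prop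

end

end Rnd

end Pool.Agent.Lib.MP_959bb6_lc
end

-- part Pool.Agent.Lib.MP_959bb6_lc.Dense
section

/-!
Sparse bipartite graphs in which any two large sets are joined.
-/

set_option autoImplicit false

namespace Pool.Agent.Lib.MP_959bb6_lc

open Finset

theorem dense_num (a : ℕ) : ∃ D, 4 ^ (a + 1) * a ^ D < (a + 1) ^ D := by
  obtain ⟨D, hD⟩ := exists_pow_lt_of_lt_one (x := (1 : ℝ) / 4 ^ (a + 1)) (y := a / (a + 1))
    (by positivity) ((div_lt_one (by positivity)).2 (by linarith))
  refine ⟨D, ?_⟩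
  rw [div_pow, div_lt_div_iff₀ (by positivity) (by positivity), one_mul, mul_comm] at hD
  exact_mod_cast hD

/-- A table of `D` neighbours for every label joins any two sets of `G` labels. -/
def Dense (m D G : ℕ) (T : List (List ℕ)) : Prop :=
  ∀ X Y : Finset ℕ, X ⊆ range m → Y ⊆ range m → G ≤ X.card → G ≤ Y.card →
    ∃ i ∈ X, ∃ j, j < D ∧ nat2 T i j ∈ Y

theorem exists_dense (a : ℕ) : ∃ D, ∀ G, 0 < G → ∃ T, Dense ((a + 1) * G) D G T := by
  classical
  obtain ⟨D, hD⟩ := dense_num a
  refine ⟨D, fun G hG => ?_⟩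
  set m := (a + 1) * G with hm
  let P := powersetCard G (range m) ×ˢ powersetCard G (range m)
  let bad : Finset ℕ × Finset ℕ → Finset (Fin m × Fin D → ℕ) := fun p =>
    Fintype.piFinset fun x => if x.1.1 ∈ p.1 then range m \ p.2 else range m
  have hb : ∀ p ∈ P, (bad p).card = (a * G) ^ (G * D) * m ^ (a * G * D) := by
    intro p hp
    obtain ⟨p1, p2⟩ := mem_product.1 hp
    rw [mem_powersetCard] at p1 p2
    have e : (univ.filter fun x : Fin m × Fin D => x.1.1 ∈ p.1).card = G * D := by
      have : (univ.filter fun x : Fin m × Fin D => x.1.1 ∈ p.1) =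
          (univ.filter fun x : Fin m => x.1 ∈ p.1) ×ˢ univ := by ext x; simp
      rw [this, card_product, card_univ, Fintype.card_fin, ← p1.2]
      congr 1
      exact card_bij (fun x _ => x.1) (fun x hx => (mem_filter.1 hx).2)
        (fun x _ y _ e => Fin.ext e) fun y hy => ⟨⟨y, mem_range.1 (p1.1 hy)⟩, by simpa using hy, rfl⟩
    have e2 := card_filter_add_card_filter_not (s := univ) fun x : Fin m × Fin D => x.1.1 ∈ p.1
    rw [e, card_univ, Fintype.card_prod, Fintype.card_fin, Fintype.card_fin] at e2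
    simp only [bad, Fintype.card_piFinset, apply_ite card, prod_ite, prod_const, e, card_range,
      card_sdiff_of_subset p2.1, p2.2]
    rw [show m - G = a * G by rw [hm, add_mul]; omega,
      show (univ.filter fun x : Fin m × Fin D => ¬ x.1.1 ∈ p.1).card = a * G * D by
        rw [hm] at e2; nlinarith]
  have hP : P.card ≤ 4 ^ m := by
    have := Nat.choose_le_two_pow m G
    rw [card_product, card_powersetCard, card_range, show 4 = 2 * 2 by rfl, mul_pow]
    exact Nat.mul_le_mul this this
  have hlt : (P.biUnion bad).card <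
      (Fintype.piFinset fun _ : Fin m × Fin D => range m).card := by
    refine (card_biUnion_le_card_mul _ _ _ fun p hp => (hb p hp).le).trans_lt
      ((Nat.mul_le_mul_right _ hP).trans_lt ?_)
    simp only [Fintype.card_piFinset, card_range, prod_const, card_univ, Fintype.card_prod,
      Fintype.card_fin]
    have e : m ^ (m * D) = m ^ (G * D) * m ^ (a * G * D) := by
      rw [← pow_add]; congr 1; rw [hm]; ring
    rw [e, ← mul_assoc]
    refine Nat.mul_lt_mul_of_pos_right ?_ (by positivity)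
    have := Nat.pow_lt_pow_left hD hG.ne'
    calc 4 ^ m * (a * G) ^ (G * D) = (4 ^ (a + 1) * a ^ D) ^ G * G ^ (G * D) := by
          rw [hm]; ring
      _ < ((a + 1) ^ D) ^ G * G ^ (G * D) := Nat.mul_lt_mul_of_pos_right this (by positivity)
      _ = m ^ (G * D) := by rw [hm, mul_pow, ← pow_mul, mul_comm D G]
  obtain ⟨f, _, hf⟩ := exists_mem_notMem_of_card_lt_card hlt
  refine ⟨tab m fun i => tab D fun j => if h : i < m ∧ j < D then f (⟨i, h.1⟩, ⟨j, h.2⟩) else 0,
    fun X Y hX hY h1 h2 => ?_⟩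
  obtain ⟨X', x1, x2⟩ := exists_subset_card_eq h1
  obtain ⟨Y', y1, y2⟩ := exists_subset_card_eq h2
  by_contra hc
  refine hf (mem_biUnion.2 ⟨(X', Y'), mem_product.2 ⟨mem_powersetCard.2 ⟨x1.trans hX, x2⟩,
    mem_powersetCard.2 ⟨y1.trans hY, y2⟩⟩, Fintype.mem_piFinset.2 fun x => ?_⟩)
  have hr : f x ∈ range m := Fintype.mem_piFinset.1 ‹_› x
  split_ifs with c
  · refine mem_sdiff.2 ⟨hr, fun e => hc ⟨x.1, x1 c, x.2, x.2.2, y1 ?_⟩⟩
    rw [nat2, getD_tab _ _ x.1.2, getD_tab _ _ x.2.2, dif_pos ⟨x.1.2, x.2.2⟩]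
    exact e
  · exact hr

theorem Dense.lift {m D G g : ℕ} {T : List (List ℕ)} (h : Dense m D G T) (hg : 0 < g)
    {X Y : Finset ℕ} (hX : X ⊆ range (m * g)) (hY : Y ⊆ range (m * g)) (h1 : G * g ≤ X.card)
    (h2 : G * g ≤ Y.card) : ∃ i ∈ X, ∃ j ∈ Y, ∃ d, d < D ∧ nat2 T (i / g) d = j / g := by
  have key : ∀ Z : Finset ℕ, Z ⊆ range (m * g) → G * g ≤ Z.card →
      Z.image (· / g) ⊆ range m ∧ G ≤ (Z.image (· / g)).card := fun Z hZ h => by
    refine ⟨fun x hx => ?_, Nat.le_of_mul_le_mul_right (h.trans ?_) hg⟩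
    · obtain ⟨y, hy, rfl⟩ := mem_image.1 hx
      exact mem_range.2 (Nat.div_lt_of_lt_mul (mul_comm m g ▸ mem_range.1 (hZ hy)))
    · rw [mul_comm]
      refine card_le_mul_card_image _ _ fun x _ => (card_le_card (t := Ico (x * g) (x * g + g))
        fun y hy => ?_).trans (by simp)
      have := (mem_filter.1 hy).2
      have e1 := Nat.div_add_mod y g
      have e2 := Nat.mod_lt y hg
      rw [mem_Ico, ← this, mul_comm]
      omega
  obtain ⟨i, hi, d, hd, hj⟩ := h _ _ (key X hX h1).1 (key Y hY h2).1 (key X hX h1).2 (key Y hY h2).2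
  obtain ⟨i, a, rfl⟩ := mem_image.1 hi
  obtain ⟨j, b, e⟩ := mem_image.1 hj
  exact ⟨i, a, j, b, d, hd, e.symm⟩

end Pool.Agent.Lib.MP_959bb6_lc
end
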