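import Mathlib
import Pool.Agent.Lib.MP_959bb6_lc.Dense

-- part Pool.Agent.Lib.MP_959bb6_lc.Solve
section

/-!
Correctness of the rounding algorithm.
-/

set_option autoImplicit false

namespace Pool.Agent.Lib.MP_959bb6_lc.Rnd

open Pool.Agent.Shared.PolyTime Finset

/-- Edges fixed to one. -/
def On (I : In) (st : List ℕ) : Finset ℕ := (range (im I)).filter fun i => nat1 st i = 1

/-- Free edges. -/
def Fr (I : In) (st : List ℕ) : Finset ℕ := (range (im I)).filter fun i => nat1 st i = 2

/-- Grid points compatible with the fixed edges. -/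
def Val (I : In) (st X : List ℕ) : Prop :=
  ∀ i, i < im I → nat1 X i ≤ mM I ∧ (nat1 st i = 1 → nat1 X i = mM I) ∧
    (nat1 st i ≠ 1 → nat1 st i ≠ 2 → nat1 X i = 0)

variable {I : In} {st X : List ℕ}

theorem cnt_eq {r : List Bool} (q : ℕ → Prop) [DecidablePred q]
    (hq : ∀ i, i < im I → (bit1 r i = true ↔ q i)) : cnt I st r = ((On I st).filter q).card := by
  unfold cnt On
  rw [sum_tab, filter_filter, card_filter]
  refine sum_congr rfl fun i hi => ?_
  simp [Bool.cond_eq_ite, hq i (mem_range.1 hi), and_comm]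

theorem wsum_eq {r : List Bool} (q : ℕ → Prop) [DecidablePred q]
    (hq : ∀ i, i < im I → (bit1 r i = true ↔ q i)) :
    wsum I X r = ∑ i ∈ (range (im I)).filter q, nat1 X i := by
  unfold wsum
  rw [sum_tab, sum_filter]
  refine sum_congr rfl fun i hi => ?_
  simp [Bool.cond_eq_ite, hq i (mem_range.1 hi)]

theorem split_sum (hV : Val I st X) (q : ℕ → Prop) [DecidablePred q] (f : ℕ → ℕ) :
    ∑ i ∈ (range (im I)).filter q, f i * nat1 X i =
      mM I * ∑ i ∈ (On I st).filter q, f i + ∑ i ∈ (Fr I st).filter q, f i * nat1 X i := by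
  unfold On Fr
  simp only [filter_filter, mul_sum, sum_filter, ← sum_add_distrib]
  refine sum_congr rfl fun i hi => ?_
  obtain ⟨_, h2, h3⟩ := hV i (mem_range.1 hi)
  by_cases c0 : q i <;> by_cases c1 : nat1 st i = 1
  · simp [c0, c1, h2 c1, mul_comm]
  · by_cases c2 : nat1 st i = 2
    · simp [c0, c2]
    · simp [c0, c1, c2, h3 c1 c2]
  · simp [c0]
  · simp [c0]

theorem split_one (hV : Val I st X) (q : ℕ → Prop) [DecidablePred q] :
    ∑ i ∈ (range (im I)).filter q, nat1 X i =
      mM I * ((On I st).filter q).card + ∑ i ∈ (Fr I st).filter q, nat1 X i := by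
  simpa using split_sum hV q fun _ => 1

theorem cst_eq (hV : Val I st X) :
    cst I X = mM I * ∑ i ∈ On I st, ic I i + ∑ i ∈ Fr I st, ic I i * nat1 X i := by
  unfold cst
  rw [sum_tab]
  simpa using split_sum hV (fun _ => True) (ic I)

theorem dcut_wf (hP : (toLP I).Ok) {S : Finset ℕ} :
    dcut I.1 (wf I X) S = ∑ i ∈ (range (im I)).filter ((toLP I).cr S), nat1 X i := by
  unfold dcut wf
  simp only [sum_tab]
  rw [sum_congr rfl fun u _ => sum_comm, sum_comm, sum_filter]
  refine sum_congr rfl fun i hi => ?_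
  have hi' := mem_range.1 hi
  have e : ∀ u ∈ S, ∀ v ∈ range I.1 \ S, (bif icn I i && ((ia I i == u && ib I i == v) ||
      (ia I i == v && ib I i == u)) then nat1 X i else 0) =
      (if icn I i = true ∧ ia I i = u ∧ ib I i = v then nat1 X i else 0) +
        if icn I i = true ∧ ib I i = u ∧ ia I i = v then nat1 X i else 0 := by
    intro u hu v hv
    have huv : u ≠ v := fun e => (mem_sdiff.1 hv).2 (e ▸ hu)
    simp only [Bool.cond_eq_ite, Bool.and_eq_true, Bool.or_eq_true, beq_iff_eq]
    grind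
  rw [sum_congr rfl fun u hu => sum_congr rfl fun v hv => e u hu v hv]
  simp only [sum_add_distrib, ite_and, sum_ite_irrel, sum_const_zero, sum_ite_eq]
  by_cases c : icn I i = true
  · have h1 : ia I i < I.1 := hP.cna i hi' c
    have h2 : ib I i < I.1 := hP.cnb i hi' c
    have h3 : (toLP I).cr S i ↔ ¬ (ia I i ∈ S ↔ ib I i ∈ S) := by simp [LP.cr, toLP, c]
    by_cases c1 : ia I i ∈ S <;> by_cases c2 : ib I i ∈ S <;> simp [c, c1, c2, h1, h2, h3]
  · have h3 : ¬ (toLP I).cr S i := fun h => c h.1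
    simp [c, h3]

theorem wf_symm (u v : ℕ) : wf I X u v = wf I X v u := by
  unfold wf
  simp only [Bool.or_comm]

theorem cutRow_iff (hP : (toLP I).Ok) (l : List Bool) (i : ℕ) (hi : i < im I) :
    bit1 (cutRow I l) i = true ↔ (toLP I).cr (setOf1 I.1 l) i := by
  unfold cutRow
  rw [bit1_tab _ hi]
  by_cases c : icn I i = true
  · have h1 : ia I i < I.1 := hP.cna i hi c
    have h2 : ib I i < I.1 := hP.cnb i hi c
    simp only [LP.cr, toLP, mem_setOf1, c, h1, h2, true_and, Bool.true_and]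
    cases bit1 l (ia I i) <;> cases bit1 l (ib I i) <;> simp
  · simp [LP.cr, toLP, c]

theorem starRow_iff (p i : ℕ) (hi : i < im I) :
    bit1 (tab (im I) fun i => ia I i == p || ib I i == p) i = true ↔ (toLP I).hasEnd p i := by
  rw [bit1_tab _ hi]
  simp [LP.hasEnd, toLP]

theorem fineRow_iff (p i : ℕ) (hi : i < im I) :
    bit1 (tab (im I) fun i => iu I i == p || iv I i == p) i = true ↔ (toLP I).hasFine p i := by
  rw [bit1_tab _ hi]
  simp [LP.hasFine, toLP]

theorem valid_iff {l : List Bool} (h : valid I l = true) : (toLP I).IsCut (setOf1 I.1 l) := by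
  simp only [valid, Bool.and_eq_true, Bool.not_eq_true', List.any_eq_true, List.mem_range] at h
  obtain ⟨h1, v, h2, h3⟩ := h
  exact ⟨setOf1_subset _ _, fun h => by simp [mem_setOf1, h1] at h, v, mem_setOf1.2 ⟨h2, h3⟩⟩

theorem bad_sound (hP : (toLP I).Ok) (hV : Val I st X) {r : Row} (hr : r ∈ bad I st X)
    {x : ℕ → ℝ} (hx : (toLP I).Feas (On I st) (Fr I st) x) :
    ∑ i ∈ (Fr I st).filter fun i => bit1 r.1 i = true, ((nat1 X i : ℝ) - mM I * x i) ≤
      -(im I + 1 : ℝ) := by
  obtain ⟨h1, h2⟩ := List.mem_filter.1 hr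
  simp only [viol, Bool.and_eq_true, Nat.ble_eq, Nat.blt_eq] at h2
  have key : ∀ (q : ℕ → Prop) [DecidablePred q], (∀ i, i < im I → (bit1 r.1 i = true ↔ q i)) →
      (((On I st).filter q).card + r.2.2 ≤ r.2.1 →
        (r.2.1 : ℝ) ≤ ((On I st).filter q).card + ∑ i ∈ (Fr I st).filter q, x i) →
      ∑ i ∈ (Fr I st).filter fun i => bit1 r.1 i = true, ((nat1 X i : ℝ) - mM I * x i) ≤
        -(im I + 1 : ℝ) := by
    intro q _ hq h
    rw [cnt_eq q hq, wsum_eq q hq, split_one hV] at h2
    have h3 := mul_le_mul_of_nonneg_left (h h2.1) (Nat.cast_nonneg (α := ℝ) (mM I))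
    have h4 : ((mM I * ((On I st).filter q).card + ∑ i ∈ (Fr I st).filter q, nat1 X i +
      (im I + 1) : ℕ) : ℝ) ≤ (mM I * r.2.1 : ℕ) := by exact_mod_cast h2.2.le
    rw [filter_congr (s := Fr I st) (q := q) fun i hi => hq i (mem_range.1 (mem_filter.1 hi).1),
      sum_sub_distrib, ← mul_sum]
    push_cast at h4
    linarith
  rcases List.mem_append.1 h1 with h | h
  · obtain ⟨l, hl, rfl⟩ := List.mem_map.1 h
    exact key _ (cutRow_iff hP l) (hx.cut _ (valid_iff (List.mem_filter.1 hl).2))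
  · rcases List.mem_append.1 h with h | h <;> obtain ⟨p, hp, rfl⟩ := List.mem_map.1 h
    · exact key _ (starRow_iff p) (hx.star p (List.mem_range.1 hp))
    · exact key _ (fineRow_iff p) (hx.fine p (List.mem_range.1 hp))

theorem mM_big (I : In) : 2 * (im I + 1) < mM I := by unfold mM; omega

theorem bad_complete (hP : (toLP I).Ok) (hV : Val I st X) (hb : bad I st X = []) :
    (∀ S, (toLP I).IsCut S → ((On I st).filter ((toLP I).cr S)).card + 3 ≤ (toLP I).K →
      mM I * (toLP I).K ≤ mM I * ((On I st).filter ((toLP I).cr S)).card +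
        ∑ i ∈ (Fr I st).filter ((toLP I).cr S), nat1 X i + (im I + 1)) ∧
    (∀ p, p < (toLP I).N → ((On I st).filter ((toLP I).hasEnd p)).card + 5 ≤ (toLP I).dem p →
      mM I * (toLP I).dem p ≤ mM I * ((On I st).filter ((toLP I).hasEnd p)).card +
        ∑ i ∈ (Fr I st).filter ((toLP I).hasEnd p), nat1 X i + (im I + 1)) ∧
    ∀ p, p < (toLP I).N2 → ((On I st).filter ((toLP I).hasFine p)).card + 7 ≤ (toLP I).dem2 p →
      mM I * (toLP I).dem2 p ≤ mM I * ((On I st).filter ((toLP I).hasFine p)).card +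
        ∑ i ∈ (Fr I st).filter ((toLP I).hasFine p), nat1 X i + (im I + 1) := by
  have hb' : ∀ r ∈ rows I X, viol I st X r = false := by
    simpa [bad, List.filter_eq_nil_iff] using hb
  refine ⟨?_, ?_, ?_⟩
  · have hl : ∀ l ∈ cands I X, (toLP I).IsCut (setOf1 I.1 l) →
        ((On I st).filter ((toLP I).cr (setOf1 I.1 l))).card + 3 ≤ (toLP I).K →
        mM I * (toLP I).K ≤ dcut I.1 (wf I X) (setOf1 I.1 l) + (im I + 1) := by
      intro l hl hc ha
      have hv : valid I l = true := by
        obtain ⟨_, h0, v, hv⟩ := hc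
        obtain ⟨h1, h2⟩ := mem_setOf1.1 hv
        simp only [valid, Bool.and_eq_true, Bool.not_eq_true', List.any_eq_true, List.mem_range]
        refine ⟨?_, v, h1, h2⟩
        by_contra h
        exact h0 (mem_setOf1.2 ⟨by omega, by simpa using h⟩)
      have := hb' (cutRow I l, I.2.2.1, 3) (List.mem_append_left _
        (List.mem_map.2 ⟨l, List.mem_filter.2 ⟨hl, hv⟩, rfl⟩))
      rw [Bool.eq_false_iff] at this
      simp only [viol, ne_eq, Bool.and_eq_true, Nat.ble_eq, Nat.blt_eq] at this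
      rw [cnt_eq _ (cutRow_iff hP l), wsum_eq _ (cutRow_iff hP l), ← dcut_wf hP] at this
      by_contra h
      exact this ⟨ha, not_le.1 h⟩
    have hK := hP.six
    have hM := mM_big I
    have hKK : mM I * (toLP I).K = mM I * ((toLP I).K - 2) + 2 * mM I := by
      obtain ⟨k, hk⟩ : ∃ k, (toLP I).K = k + 2 := ⟨(toLP I).K - 2, by omega⟩
      rw [hk, Nat.add_sub_cancel]; ring
    have hlow : ∀ U, (toLP I).IsCut U → mM I * ((toLP I).K - 2) ≤ dcut I.1 (wf I X) U := by
      rintro U ⟨u1, u2, t, ht⟩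
      have ht' : t < I.1 := mem_range.1 (u1 ht)
      obtain ⟨m1, m2⟩ := mc_spec I.1 (wf I X) (fun v => v == t) (fun v => v == 0)
        (mM I * (I.2.2.1 - 2))
      by_contra hlt
      have h1 : (Fl.mc (tab2 I.1 (wf I X), tab I.1 (fun v => v == t), tab I.1 (fun v => v == 0),
          mM I * (I.2.2.1 - 2))).1 = true := by
        by_contra h
        exact hlt (m2 (by simpa using h) U u1 (fun i _ h => by rwa [beq_iff_eq.1 h])
          fun i _ h => by rwa [beq_iff_eq.1 h])
      obtain ⟨_, a, b, c⟩ := m1 h1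
      have hc : (toLP I).IsCut _ := ⟨setOf1_subset _ _, b 0 (by omega) rfl, t, a t ht' (by simp)⟩
      have hm : (Fl.mc (tab2 I.1 (wf I X), tab I.1 (fun v => v == t), tab I.1 (fun v => v == 0),
          mM I * (I.2.2.1 - 2))).2 ∈ cands I X :=
        List.mem_append_left _ (List.mem_map.2 ⟨t, List.mem_range.2 ht', rfl⟩)
      have := hl _ hm hc (by
        rw [dcut_wf hP, split_one hV] at c
        have := Nat.lt_of_mul_lt_mul_left (lt_of_le_of_lt (Nat.le_add_right _ _) c)
        change _ < (toLP I).K - 2 at this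
        omega)
      change _ < mM I * ((toLP I).K - 2) at c
      omega
    intro S hS ha
    rw [← split_one hV, ← dcut_wf hP]
    by_contra hlt
    have h3 : 2 * (mM I * (toLP I).K) ≤ 3 * (mM I * ((toLP I).K - 2)) := by
      obtain ⟨k, hk⟩ : ∃ k, (toLP I).K = k + 6 := ⟨(toLP I).K - 6, by omega⟩
      rw [hk, show k + 6 - 2 = k + 4 by omega]
      nlinarith [Nat.zero_le (mM I * k)]
    obtain ⟨l, hl1, hl2⟩ := en_spec (N := I.1) (W := wf I X)
      (θ := mM I * I.2.2.1 - (im I + 1)) (lam := mM I * ((toLP I).K - 2))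
      (fun i j _ _ => wf_symm i j) (Nat.mul_pos (by omega) (by omega))
      (by change 2 * (mM I * (toLP I).K - _) ≤ _; omega)
      (fun U hU hne hU' => by
        by_cases h0 : 0 ∈ U
        · have := hlow (range I.1 \ U) ⟨sdiff_subset, by simp [h0],
            sdiff_nonempty.2 fun h => hU' (Subset.antisymm hU h)⟩
          refine this.trans (le_of_eq ?_)
          unfold dcut
          rw [Finset.sdiff_sdiff_eq_self hU, sum_comm]
          exact sum_congr rfl fun u _ => sum_congr rfl fun v _ => wf_symm _ _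
        · exact hlow U ⟨hU, h0, hne⟩)
      hS.1 hS.2.1 (by change _ < mM I * (toLP I).K - _; omega)
    subst hl2
    exact hlt (hl l (List.mem_append_right _ hl1) hS ha)
  · intro p hp ha
    have := hb' (tab (im I) fun i => ia I i == p || ib I i == p, nat1 I.2.2.2.2.1 p, 5)
      (List.mem_append_right _ (List.mem_append_left _
        (List.mem_map.2 ⟨p, List.mem_range.2 hp, rfl⟩)))
    rw [Bool.eq_false_iff] at this
    simp only [viol, ne_eq, Bool.and_eq_true, Nat.ble_eq, Nat.blt_eq] at this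
    rw [cnt_eq _ (starRow_iff p), wsum_eq _ (starRow_iff p), split_one hV] at this
    by_contra h
    exact this ⟨ha, not_le.1 h⟩
  · intro p hp ha
    have := hb' (tab (im I) fun i => iu I i == p || iv I i == p, nat1 I.2.2.2.2.2 p, 7)
      (List.mem_append_right _ (List.mem_append_right _
        (List.mem_map.2 ⟨p, List.mem_range.2 hp, rfl⟩)))
    rw [Bool.eq_false_iff] at this
    simp only [viol, ne_eq, Bool.and_eq_true, Nat.ble_eq, Nat.blt_eq] at this
    rw [cnt_eq _ (fineRow_iff p), wsum_eq _ (fineRow_iff p), split_one hV] at this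
    by_contra h
    exact this ⟨ha, not_le.1 h⟩

theorem val_x0 (I : In) (st : List ℕ) : Val I st (x0 I st) := by
  intro i hi
  unfold x0
  rw [nat1_tab _ hi]
  by_cases h : nat1 st i = 1 <;> simp [h, Bool.cond_eq_ite]

theorem val_step (hV : Val I st X) (W : ℕ) : Val I st (step I st W X) := by
  intro i hi
  obtain ⟨h1, h2, h3⟩ := hV i hi
  unfold step
  rw [nat1_tab _ hi]
  refine ⟨min_le_left _ _, fun h => ?_, fun h h' => ?_⟩
  · simp [h, h2 h]
  · simp [Bool.cond_eq_ite, h', h3 h h']

theorem val_iter (I : In) (st : List ℕ) (W j : ℕ) : Val I st ((step I st W)^[j] (x0 I st)) := by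
  induction j with
  | zero => exact val_x0 I st
  | succ j ih => rw [Function.iterate_succ_apply']; exact val_step ih W

theorem sum_ic_lt (I : In) : ∑ i ∈ range (im I), ic I i < cm I := by
  unfold cm; rw [sum_tab]; omega

theorem scale_row {A : Finset ℕ} {M G g D : ℕ} {X : ℕ → ℕ} (hM : 2 * G < M)
    (hX : ∀ i ∈ A, X i ≤ M) (h : M * D ≤ M * g + ∑ i ∈ A, X i + G) :
    (D : ℝ) ≤ g + ∑ i ∈ A, min 1 ((1 + 2 * G / M : ℝ) * X i / M) := by
  classical
  have hM0 : (0 : ℝ) < M := by exact_mod_cast (by omega : 0 < M)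
  have hG : (2 * G : ℝ) < M := by exact_mod_cast hM
  set η : ℝ := 2 * G / M with hη
  have hη0 : 0 ≤ η := by positivity
  have hη1 : η ≤ 1 := by rw [hη, div_le_one hM0]; exact hG.le
  have hηM : η * M = 2 * G := by rw [hη]; field_simp
  rw [← sum_filter_add_sum_filter_not A fun i => 1 ≤ (1 + η) * X i / M]
  rw [← sum_filter_add_sum_filter_not A fun i => 1 ≤ (1 + η) * X i / M] at h
  set T := A.filter fun i => 1 ≤ (1 + η) * X i / M
  set T' := A.filter fun i => ¬ 1 ≤ (1 + η) * X i / M
  have e1 : ∑ i ∈ T, min 1 ((1 + η) * X i / M) = T.card := by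
    rw [sum_congr (s₁ := T) rfl fun i hi => min_eq_left (mem_filter.1 hi).2]
    simp
  have e2 : ∑ i ∈ T', min 1 ((1 + η) * X i / M) = (1 + η) * (∑ i ∈ T', X i : ℕ) / M := by
    rw [sum_congr rfl fun i hi => min_eq_right (not_le.1 (mem_filter.1 hi).2).le]
    push_cast
    rw [mul_sum, sum_div]
  have e3 : ∑ i ∈ T, X i ≤ M * T.card := by
    rw [mul_comm]
    exact sum_le_card_nsmul T X M fun i hi => hX i (mem_filter.1 hi).1
  rw [e1, e2]
  generalize ∑ i ∈ T', X i = Y at *
  have hY : (0 : ℝ) ≤ (1 + η) * Y / M := by positivity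
  by_cases hc : D ≤ g + T.card
  · have : (D : ℝ) ≤ g + T.card := by exact_mod_cast hc
    linarith
  obtain ⟨e, he⟩ : ∃ e, D = g + T.card + e + 1 := ⟨D - (g + T.card) - 1, by omega⟩
  have h1 : M * (e + 1) ≤ Y + G := by
    rw [he] at h
    nlinarith
  have h2 : (M : ℝ) * (e + 1) ≤ Y + G := by exact_mod_cast h1
  have h3 : (e + 1 : ℝ) ≤ (1 + η) * Y / M := by
    rw [le_div_iff₀ hM0]
    have he0 : (0 : ℝ) ≤ e := Nat.cast_nonneg _
    have hG0 : (0 : ℝ) ≤ G := Nat.cast_nonneg _
    nlinarith [mul_le_mul_of_nonneg_left h2 hη0, mul_nonneg he0 hG0, mul_nonneg hη0 hG0,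
      mul_le_mul_of_nonneg_right hη1 hG0]
  rw [he]
  push_cast
  linarith

/-- A feasible point of bounded cost exists. -/
def Good (I : In) (st : List ℕ) (W : ℕ) : Prop :=
  ∃ x : ℕ → ℝ, (toLP I).Feas (On I st) (Fr I st) x ∧
    (mM I : ℝ) * (∑ i ∈ On I st, (ic I i : ℝ) + ∑ i ∈ Fr I st, (ic I i : ℝ) * x i) ≤ W

theorem solve_sound (hP : (toLP I).Ok) {W : ℕ} (h : solve I st W = true) :
    Good I st (W + dD I) := by
  unfold solve at h
  have hV := val_iter I st W (im I * mM I ^ 2 + 1)
  generalize (step I st W)^[im I * mM I ^ 2 + 1] (x0 I st) = X at h hV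
  simp only [ok, Bool.and_eq_true, List.isEmpty_iff, Nat.ble_eq] at h
  obtain ⟨b1, b2, b3⟩ := bad_complete hP hV h.1
  have hM := mM_big I
  have hM0 : (0 : ℝ) < mM I := by exact_mod_cast (by omega : 0 < mM I)
  have hX : ∀ (q : ℕ → Prop) [DecidablePred q], ∀ i ∈ (Fr I st).filter q, nat1 X i ≤ mM I :=
    fun q _ i hi => (hV i (mem_range.1 (mem_filter.1 (mem_filter.1 hi).1).1)).1
  refine ⟨fun i => min 1 ((1 + 2 * (im I + 1 : ℕ) / mM I : ℝ) * nat1 X i / mM I),
    ⟨fun i _ => ⟨le_min zero_le_one (by positivity), min_le_left _ _⟩,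
      fun S h1 h2 => scale_row hM (hX _) (b1 S h1 h2),
      fun p h1 h2 => scale_row hM (hX _) (b2 p h1 h2),
      fun p h1 h2 => scale_row hM (hX _) (b3 p h1 h2)⟩, ?_⟩
  have h1 := h.2
  rw [cst_eq hV] at h1
  have h2 : ∑ i ∈ Fr I st, ic I i * nat1 X i ≤ cm I * mM I := by
    refine le_trans (sum_le_sum fun i hi => Nat.mul_le_mul_left _
      (hV i (mem_range.1 (mem_filter.1 hi).1)).1) ?_
    rw [← sum_mul]
    exact Nat.mul_le_mul_right _ ((sum_le_sum_of_subset (filter_subset _ _)).trans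
      (sum_ic_lt I).le)
  have h3 : ∑ i ∈ Fr I st, (ic I i : ℝ) *
      min 1 ((1 + 2 * (im I + 1 : ℕ) / mM I : ℝ) * nat1 X i / mM I) ≤
      (1 + 2 * (im I + 1 : ℕ) / mM I : ℝ) * (∑ i ∈ Fr I st, ic I i * nat1 X i : ℕ) / mM I := by
    push_cast
    rw [mul_sum, sum_div]
    refine sum_le_sum fun i _ => le_trans
      (mul_le_mul_of_nonneg_left (min_le_right _ _) (Nat.cast_nonneg _)) (le_of_eq (by ring))
  generalize ∑ i ∈ Fr I st, ic I i * nat1 X i = Y at *
  have h4 : (mM I : ℝ) * ((1 + 2 * (im I + 1 : ℕ) / mM I : ℝ) * Y / mM I) =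
      Y + 2 * (im I + 1 : ℕ) * (Y / mM I) := by field_simp
  have h5 : (Y : ℝ) / mM I ≤ cm I := by
    rw [div_le_iff₀ hM0]; exact_mod_cast h2
  have h6 : ((mM I * ∑ i ∈ On I st, ic I i + Y : ℕ) : ℝ) ≤ (W + cm I ^ 2 : ℕ) := by
    exact_mod_cast h1
  have h7 := mul_le_mul_of_nonneg_left h3 hM0.le
  have h8 := mul_le_mul_of_nonneg_left h5 (show (0 : ℝ) ≤ 2 * (im I + 1 : ℕ) by positivity)
  unfold dD
  push_cast at *
  nlinarith

theorem step_dec (hP : (toLP I).Ok) (hV : Val I st X) {W : ℕ} {x : ℕ → ℝ}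
    (hx : (toLP I).Feas (On I st) (Fr I st) x)
    (hW : (mM I : ℝ) * (∑ i ∈ On I st, (ic I i : ℝ) + ∑ i ∈ Fr I st, (ic I i : ℝ) * x i) ≤ W)
    (hn : ok I st W X = false) :
    ∑ i ∈ Fr I st, ((nat1 (step I st W X) i : ℝ) - mM I * x i) ^ 2 + 1 ≤
      ∑ i ∈ Fr I st, ((nat1 X i : ℝ) - mM I * x i) ^ 2 := by
  have hM0 : (0 : ℝ) ≤ mM I := Nat.cast_nonneg _
  have hb : ∀ i ∈ Fr I st, 0 ≤ (mM I : ℝ) * x i ∧ (mM I : ℝ) * x i ≤ mM I := fun i hi =>
    ⟨mul_nonneg hM0 (hx.box i hi).1, mul_le_of_le_one_right hM0 (hx.box i hi).2⟩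
  have clip : ∀ (y : ℕ) (t : ℝ), t ≤ mM I → (((min (mM I) y : ℕ) : ℝ) - t) ^ 2 ≤ (y - t) ^ 2 := by
    intro y t ht
    rcases le_total (mM I) y with h | h
    · rw [min_eq_left h]
      have : (mM I : ℝ) ≤ y := by exact_mod_cast h
      nlinarith
    · rw [min_eq_right h]
  have hF : ∀ i ∈ Fr I st, i < im I ∧ (nat1 st i == 2) = true := fun i hi =>
    ⟨mem_range.1 (mem_filter.1 hi).1, by simpa using (mem_filter.1 hi).2⟩
  rcases hB : bad I st X with _ | ⟨r, L⟩
  · have hc : W + cm I ^ 2 < cst I X := by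
      simp only [ok, hB, List.isEmpty_nil, Bool.true_and] at hn
      rw [Bool.eq_false_iff] at hn
      simpa using hn
    have h1 : ∀ i ∈ Fr I st, ((nat1 (step I st W X) i : ℝ) - mM I * x i) ^ 2 ≤
        ((nat1 X i : ℝ) - mM I * x i) ^ 2 - 2 * (ic I i * nat1 X i - mM I * (ic I i * x i)) +
          ic I i * cm I := by
      intro i hi
      obtain ⟨f1, f2⟩ := hF i hi
      have hc' : Nat.blt (W + cm I ^ 2) (cst I X) = true := by simpa [Nat.blt_eq] using hc
      unfold step
      rw [nat1_tab _ f1]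
      simp only [f2, hB, hc', List.isEmpty_nil, cond_true]
      refine (clip _ _ (hb i hi).2).trans ?_
      have h2 : (ic I i : ℝ) ≤ cm I := by
        exact_mod_cast (single_le_sum (f := ic I) (fun _ _ => Nat.zero_le _)
          (mem_range.2 f1)).trans (sum_ic_lt I).le
      have h3 : (0 : ℝ) ≤ ic I i := Nat.cast_nonneg _
      have h4 := (hb i hi).1
      rcases le_total (ic I i) (nat1 X i) with h | h
      · rw [Nat.cast_sub h]
        nlinarith [mul_le_mul_of_nonneg_left h2 h3]
      · rw [Nat.sub_eq_zero_of_le h]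
        have h5 : (nat1 X i : ℝ) ≤ ic I i := by exact_mod_cast h
        push_cast
        nlinarith [mul_le_mul_of_nonneg_left h2 h3, mul_nonneg h4 (sub_nonneg.2 h5),
          sq_nonneg ((ic I i : ℝ) - nat1 X i)]
    have h2 := sum_le_sum h1
    rw [sum_add_distrib, sum_sub_distrib, ← mul_sum, sum_sub_distrib, ← mul_sum, ← sum_mul] at h2
    rw [cst_eq hV] at hc
    have h3 : ((W + cm I ^ 2 : ℕ) : ℝ) ≤
        (mM I * ∑ i ∈ On I st, ic I i + ∑ i ∈ Fr I st, ic I i * nat1 X i : ℕ) := by
      exact_mod_cast hc.le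
    have h4 : ∑ i ∈ Fr I st, (ic I i : ℝ) ≤ cm I := by
      exact_mod_cast (sum_le_sum_of_subset (filter_subset _ _)).trans (sum_ic_lt I).le
    have h5 : (1 : ℝ) ≤ cm I := by exact_mod_cast (by unfold cm; omega : 1 ≤ cm I)
    push_cast at h3
    nlinarith [mul_le_mul_of_nonneg_right h4 (zero_le_one.trans h5)]
  · have h0 := bad_sound hP hV (r := r) (by rw [hB]; simp) hx
    have h1 : ∀ i ∈ Fr I st, ((nat1 (step I st W X) i : ℝ) - mM I * x i) ^ 2 ≤
        ((nat1 X i : ℝ) - mM I * x i) ^ 2 +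
          2 * (if bit1 r.1 i = true then (nat1 X i : ℝ) - mM I * x i else 0) + 1 := by
      intro i hi
      obtain ⟨f1, f2⟩ := hF i hi
      unfold step
      rw [nat1_tab _ f1]
      simp only [f2, hB, List.isEmpty_cons, cond_true, cond_false, List.headD_cons]
      refine (clip _ _ (hb i hi).2).trans ?_
      cases bit1 r.1 i
      · simp
      · simp only [cond_true, if_true]
        push_cast
        nlinarith
    have h2 := sum_le_sum h1
    rw [sum_add_distrib, sum_add_distrib, ← mul_sum, ← sum_filter, sum_const, nsmul_eq_mul] at h2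
    have h3 : ((Fr I st).card : ℝ) ≤ im I := by
      exact_mod_cast (card_filter_le _ _).trans (card_range _).le
    have h4 : (0 : ℝ) ≤ im I := Nat.cast_nonneg _
    linarith

theorem solve_complete (hP : (toLP I).Ok) {W : ℕ} (h : Good I st W) : solve I st W = true := by
  obtain ⟨x, hx, hW⟩ := h
  have hM0 : (0 : ℝ) ≤ mM I := Nat.cast_nonneg _
  have key : ∀ j, ok I st W ((step I st W)^[j] (x0 I st)) = true ∨
      ∑ i ∈ Fr I st, ((nat1 ((step I st W)^[j] (x0 I st)) i : ℝ) - mM I * x i) ^ 2 + j ≤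
        im I * mM I ^ 2 := by
    intro j
    induction j with
    | zero =>
      right
      have h1 : ∀ i ∈ Fr I st, ((nat1 (x0 I st) i : ℝ) - mM I * x i) ^ 2 ≤ mM I ^ 2 := by
        intro i hi
        obtain ⟨f1, f2⟩ := mem_filter.1 hi
        obtain ⟨b1, b2⟩ := hx.box i hi
        unfold x0
        rw [nat1_tab _ (mem_range.1 f1), f2]
        have := mul_le_of_le_one_right hM0 b2
        have := mul_nonneg hM0 b1
        simp only [Nat.reduceBEq, cond_false]
        push_cast
        nlinarith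
      have h2 := sum_le_card_nsmul _ _ _ h1
      have h3 : ((Fr I st).card : ℝ) ≤ im I := by
        exact_mod_cast (card_filter_le _ _).trans (card_range _).le
      rw [nsmul_eq_mul] at h2
      have := mul_le_mul_of_nonneg_right h3 (sq_nonneg (mM I : ℝ))
      simp only [Function.iterate_zero, id]
      push_cast
      linarith
    | succ j ih =>
      rw [Function.iterate_succ_apply']
      have hV := val_iter I st W j
      generalize (step I st W)^[j] (x0 I st) = X at *
      by_cases hok : ok I st W X = true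
      · left
        have e : ∀ i, i < im I → nat1 (step I st W X) i = nat1 X i := by
          intro i hi
          simp only [ok, Bool.and_eq_true, Nat.ble_eq] at hok
          have hc : Nat.blt (W + cm I ^ 2) (cst I X) = false := by
            rw [Bool.eq_false_iff]; simpa [Nat.blt_eq] using hok.2
          unfold step
          rw [nat1_tab _ hi]
          simp [hok.1, hc, (hV i hi).1]
        have e1 : wf I (step I st W X) = wf I X := by
          funext u v
          unfold wf
          simp only [sum_tab]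
          exact sum_congr rfl fun i hi => by rw [e i (mem_range.1 hi)]
        have e2 : wsum I (step I st W X) = wsum I X := by
          funext u
          unfold wsum
          simp only [sum_tab]
          exact sum_congr rfl fun i hi => by rw [e i (mem_range.1 hi)]
        have e3 : cst I (step I st W X) = cst I X := by
          unfold cst
          simp only [sum_tab]
          exact sum_congr rfl fun i hi => by rw [e i (mem_range.1 hi)]
        rw [← hok]
        simp only [ok, bad, rows, cands, viol, e1, e2, e3]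
      · right
        have := step_dec hP hV hx hW (by simpa using hok)
        have h2 := ih.resolve_left hok
        push_cast
        linarith
  refine (key _).resolve_right fun h => ?_
  have : 0 ≤ ∑ i ∈ Fr I st, ((nat1 ((step I st W)^[im I * mM I ^ 2 + 1] (x0 I st)) i : ℝ) -
    mM I * x i) ^ 2 := sum_nonneg fun _ _ => sq_nonneg _
  push_cast at h
  linarith

theorem feas_transfer {P : LP} {A B A' B' : Finset ℕ} {y : ℕ → ℝ} (h : P.Feas A B y)
    (h1 : A ⊆ A') (h2 : B' ⊆ B)
    (h3 : ∀ (q : ℕ → Prop) [DecidablePred q], ((A.filter q).card : ℝ) + ∑ i ∈ B.filter q, y i =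
      (A'.filter q).card + ∑ i ∈ B'.filter q, y i) : P.Feas A' B' y := by
  refine ⟨fun i hi => h.box i (h2 hi), fun S a b => ?_, fun p a b => ?_, fun p a b => ?_⟩
  · rw [← h3]
    exact h.cut S a (le_trans (Nat.add_le_add_right (card_le_card (filter_subset_filter _ h1)) _) b)
  · rw [← h3]
    exact h.star p a
      (le_trans (Nat.add_le_add_right (card_le_card (filter_subset_filter _ h1)) _) b)
  · rw [← h3]
    exact h.fine p a
      (le_trans (Nat.add_le_add_right (card_le_card (filter_subset_filter _ h1)) _) b)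

theorem fr_upd (h2 : ∀ i, i < im I → nat1 st i ≤ 2) (j : ℕ) :
    Fr I (upd I st j) = (Fr I st).erase (j / 2) := by
  ext i
  simp only [Fr, mem_erase, mem_filter, mem_range]
  by_cases hi : i < im I
  · have := h2 i hi
    unfold upd
    rw [nat1_tab _ hi]
    by_cases e : i = j / 2 <;> simp [e, hi, Bool.cond_eq_ite] <;> omega
  · simp [hi]

theorem upd_le (j i : ℕ) (hi : i < im I) : nat1 (upd I st j) i ≤ 2 := by
  unfold upd
  rw [nat1_tab _ hi]
  cases (i == _) <;> simp only [cond_true, cond_false] <;> omega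

theorem good_fix (hP : (toLP I).Ok) (h2 : ∀ i, i < im I → nat1 st i ≤ 2) {W : ℕ}
    (h : Good I st W) (hne : (Fr I st).Nonempty) :
    ∃ j, j < 2 * im I ∧ nat1 st (j / 2) = 2 ∧ Good I (upd I st j) W := by
  obtain ⟨x, hx, hW⟩ := h
  obtain ⟨y, hy, hc, i, hi, h01⟩ := LP.purify hP hx (filter_subset _ _) hne
  obtain ⟨f1, f2⟩ := mem_filter.1 hi
  have f1' := mem_range.1 f1
  have hM0 : (0 : ℝ) ≤ mM I := Nat.cast_nonneg _
  have hc' : ∑ i ∈ Fr I st, (ic I i : ℝ) * y i ≤ ∑ i ∈ Fr I st, (ic I i : ℝ) * x i := hc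
  have hiO : i ∉ On I st := fun h => by have := (mem_filter.1 h).2; omega
  have hs := add_sum_erase (Fr I st) (fun i => (ic I i : ℝ) * y i) hi
  have hq : ∀ (q : ℕ → Prop) [DecidablePred q], ∑ k ∈ (Fr I st).filter q, y k =
      (if q i then y i else 0) + ∑ k ∈ ((Fr I st).erase i).filter q, y k := by
    intro q _
    rw [sum_filter, sum_filter, add_sum_erase (Fr I st) (fun k => if q k then y k else 0) hi]
  rcases h01 with h0 | h0
  · have e1 : On I (upd I st (2 * i)) = On I st := by
      ext k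
      simp only [On, mem_filter, mem_range]
      refine and_congr_right fun hk => ?_
      have := h2 k hk
      unfold upd
      rw [nat1_tab _ hk]
      by_cases e : k = i <;> simp [e, Bool.cond_eq_ite] <;> omega
    have e2 : Fr I (upd I st (2 * i)) = (Fr I st).erase i := by rw [fr_upd h2]; simp
    refine ⟨2 * i, by omega, by simpa using f2, y, ?_, ?_⟩
    · rw [e1, e2]
      exact feas_transfer hy (Subset.refl _) (erase_subset _ _) fun q _ => by simp [hq q, h0]
    · rw [e1, e2]
      simp only [h0] at hs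
      exact le_trans (mul_le_mul_of_nonneg_left (by linarith) hM0) hW
  · have e0 : (2 * i + 1) / 2 = i := by omega
    have e1 : On I (upd I st (2 * i + 1)) = insert i (On I st) := by
      ext k
      simp only [On, mem_filter, mem_range, mem_insert]
      by_cases hk : k < im I
      · have := h2 k hk
        unfold upd
        rw [nat1_tab _ hk, e0]
        by_cases e : k = i <;> simp [e, hk, Bool.cond_eq_ite] <;> omega
      · simp [hk]; omega
    have e2 : Fr I (upd I st (2 * i + 1)) = (Fr I st).erase i := by rw [fr_upd h2, e0]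
    refine ⟨2 * i + 1, by omega, by rwa [e0], y, ?_, ?_⟩
    · rw [e1, e2]
      refine feas_transfer hy (subset_insert _ _) (erase_subset _ _) fun q _ => ?_
      rw [hq q, filter_insert, h0]
      split_ifs
      · rw [card_insert_of_notMem fun h => hiO (mem_filter.1 h).1]
        push_cast
        ring
      · ring
    · rw [e1, e2, sum_insert hiO]
      simp only [h0] at hs
      exact le_trans (mul_le_mul_of_nonneg_left (by linarith) hM0) hW

theorem round_inv (hP : (toLP I).Ok) (h0 : Good I (tab (im I) fun _ => 2) (w0 I + dD I))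
    (j : ℕ) (hj : j ≤ im I) :
    ((round I)^[j] (0, tab (im I) fun _ => 2)).1 = j ∧
    (∀ i, i < im I → nat1 ((round I)^[j] (0, tab (im I) fun _ => 2)).2 i ≤ 2) ∧
    (Fr I ((round I)^[j] (0, tab (im I) fun _ => 2)).2).card + j = im I ∧
    Good I ((round I)^[j] (0, tab (im I) fun _ => 2)).2 (w0 I + (j + 1) * dD I) := by
  induction j with
  | zero =>
    refine ⟨rfl, fun i hi => (nat1_tab _ hi).le, ?_, by simpa using h0⟩
    have : Fr I (tab (im I) fun _ => 2) = range (im I) :=
      filter_true_of_mem fun i hi => nat1_tab _ (mem_range.1 hi)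
    simp [this]
  | succ j ih =>
    rw [Function.iterate_succ_apply']
    have ih' := ih (by omega)
    generalize (round I)^[j] (0, tab (im I) fun _ => 2) = q at ih' ⊢
    obtain ⟨k, st⟩ := q
    obtain ⟨i1, i2, i3, i4⟩ := ih'
    simp only at i1 i2 i3 i4
    subst i1
    obtain ⟨l, l1, l2, l3⟩ := good_fix hP i2 i4 (card_pos.1 (by omega))
    obtain ⟨p1, p2, _⟩ := first_spec (N := 2 * im I) (p := fun j => nat1 st (j / 2) == 2 &&
      solve I (upd I st j) (w0 I + (k + 1) * dD I)) ⟨l, l1, by simp [l2, solve_complete hP l3]⟩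
    simp only [Bool.and_eq_true, beq_iff_eq] at p2
    refine ⟨min_eq_left hj, fun i hi => upd_le _ i hi, ?_, ?_⟩
    · simp only [round, pick]
      rw [fr_upd i2, card_erase_of_mem (s := Fr I st)
        (mem_filter.2 ⟨mem_range.2 (by omega), p2.1⟩)]
      omega
    · have := solve_sound hP p2.2
      rwa [add_assoc, ← add_one_mul] at this

theorem out_spec (hP : (toLP I).Ok) {F : Finset ℕ} (hF : F ⊆ range (im I))
    (h1 : ∀ S, (toLP I).IsCut S → (toLP I).K ≤ (F.filter ((toLP I).cr S)).card)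
    (h2 : ∀ p, p < (toLP I).N → (toLP I).dem p ≤ (F.filter ((toLP I).hasEnd p)).card)
    (h2' : ∀ p, p < (toLP I).N2 → (toLP I).dem2 p ≤ (F.filter ((toLP I).hasFine p)).card) :
    (∀ S, (toLP I).IsCut S →
      (toLP I).K ≤ ((setOf1 (im I) (out I)).filter ((toLP I).cr S)).card + 2) ∧
    (∀ p, p < (toLP I).N →
      (toLP I).dem p ≤ ((setOf1 (im I) (out I)).filter ((toLP I).hasEnd p)).card + 4) ∧
    (∀ p, p < (toLP I).N2 →
      (toLP I).dem2 p ≤ ((setOf1 (im I) (out I)).filter ((toLP I).hasFine p)).card + 6) ∧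
    ∑ i ∈ setOf1 (im I) (out I), ic I i ≤ ∑ i ∈ F, ic I i + 1 := by
  classical
  have eF : Fr I (tab (im I) fun _ => 2) = range (im I) :=
    filter_true_of_mem fun i hi => nat1_tab _ (mem_range.1 hi)
  have eO : On I (tab (im I) fun _ => 2) = ∅ :=
    filter_false_of_mem fun i hi => by rw [nat1_tab _ (mem_range.1 hi)]; norm_num
  have hind : ∀ (q : ℕ → Prop) [DecidablePred q],
      ∑ i ∈ (range (im I)).filter q, (if i ∈ F then (1 : ℝ) else 0) = (F.filter q).card := by
    intro q _
    rw [← sum_filter, sum_const, nsmul_eq_mul, mul_one]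
    congr 2
    ext i
    have := @hF i
    simp only [mem_filter]
    tauto
  have g0 : Good I (tab (im I) fun _ => 2) (mM I * ∑ i ∈ F, ic I i) := by
    refine ⟨fun i => if i ∈ F then 1 else 0, ?_, ?_⟩
    · rw [eF, eO]
      refine ⟨fun i _ => by split_ifs <;> simp, fun S a _ => ?_, fun p a _ => ?_,
        fun p a _ => ?_⟩
      · rw [hind]; simpa using h1 S a
      · rw [hind]; simpa using h2 p a
      · rw [hind]; simpa using h2' p a
    · rw [eF, eO]
      simp only [mul_ite, mul_one, mul_zero, sum_empty, zero_add]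
      rw [← sum_filter, filter_mem_eq_inter, inter_eq_right.2 hF]
      simp
  have hB : ∑ i ∈ F, ic I i < cm I := (sum_le_sum_of_subset hF).trans_lt (sum_ic_lt I)
  obtain ⟨_, p2, p3⟩ := first_spec (N := cm I)
    (p := fun B => solve I (tab (im I) fun _ => 2) (mM I * B)) ⟨_, hB, solve_complete hP g0⟩
  have hw : w0 I ≤ mM I * ∑ i ∈ F, ic I i := by
    refine Nat.mul_le_mul_left _ ?_
    by_contra hc
    have := p3 _ (not_le.1 hc)
    rw [solve_complete hP g0] at this
    simp at this
  obtain ⟨_, _, r3, x, hx, hW⟩ := round_inv hP (solve_sound hP p2) (im I) le_rfl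
  have eO' : setOf1 (im I) (out I) = On I (fin I).2 := by
    unfold out On
    rw [setOf1_tab]
    simp
  have eF' : Fr I (fin I).2 = ∅ := card_eq_zero.1 (by unfold fin; omega)
  change (toLP I).Feas (On I (fin I).2) (Fr I (fin I).2) x at hx
  change (mM I : ℝ) * (∑ i ∈ On I (fin I).2, (ic I i : ℝ) +
    ∑ i ∈ Fr I (fin I).2, (ic I i : ℝ) * x i) ≤ _ at hW
  rw [eF'] at hx hW
  rw [eO']
  refine ⟨fun S a => ?_, fun p a => ?_, fun p a => ?_, ?_⟩
  · by_contra hc
    have := hx.cut S a (by omega)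
    simp only [filter_empty, sum_empty, add_zero, Nat.cast_le] at this
    omega
  · by_contra hc
    have := hx.star p a (by omega)
    simp only [filter_empty, sum_empty, add_zero, Nat.cast_le] at this
    omega
  · by_contra hc
    have := hx.fine p a (by omega)
    simp only [filter_empty, sum_empty, add_zero, Nat.cast_le] at this
    omega
  · rw [sum_empty, add_zero] at hW
    have h3 : mM I * ∑ i ∈ On I (fin I).2, ic I i ≤ w0 I + (im I + 1) * dD I := by
      exact_mod_cast hW
    have h4 : (im I + 1) * dD I ≤ mM I := by unfold mM; omega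
    have h5 : mM I * ∑ i ∈ On I (fin I).2, ic I i ≤ mM I * (∑ i ∈ F, ic I i + 1) := by
      rw [mul_add]; omega
    exact Nat.le_of_mul_le_mul_left h5 (by have := mM_big I; omega)

/-- The input describing a program. -/
def LP.code (P : LP) : In :=
  (P.n', P.N, P.K, tab P.m fun i => (P.a i, P.b i, P.cn i, P.c i, P.u i, P.v i), tab P.N P.dem,
    tab P.N2 P.dem2)

/-- The rounding theorem: connectivity loss two, star loss four, cost at most the cost of any
integral solution plus one. -/
theorem round_spec {P : LP} (hP : P.Ok) {F : Finset ℕ} (hF : F ⊆ range P.m)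
    (h1 : ∀ S, P.IsCut S → P.K ≤ (F.filter (P.cr S)).card)
    (h2 : ∀ p, p < P.N → P.dem p ≤ (F.filter (P.hasEnd p)).card)
    (h2' : ∀ p, p < P.N2 → P.dem2 p ≤ (F.filter (P.hasFine p)).card) :
    (∀ S, P.IsCut S → P.K ≤ ((setOf1 P.m (out P.code)).filter (P.cr S)).card + 2) ∧
    (∀ p, p < P.N → P.dem p ≤ ((setOf1 P.m (out P.code)).filter (P.hasEnd p)).card + 4) ∧
    (∀ p, p < P.N2 → P.dem2 p ≤ ((setOf1 P.m (out P.code)).filter (P.hasFine p)).card + 6) ∧
    ∑ i ∈ setOf1 P.m (out P.code), P.c i ≤ ∑ i ∈ F, P.c i + 1 := by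
  have em : im P.code = P.m := by simp [im, LP.code]
  have ee : ∀ i, i < P.m → ie P.code i = (P.a i, P.b i, P.cn i, P.c i, P.u i, P.v i) := fun i hi =>
    getD_tab _ _ hi
  have ea : ∀ i, i < P.m → (toLP P.code).a i = P.a i := fun i hi => by simp [toLP, ia, ee i hi]
  have eb : ∀ i, i < P.m → (toLP P.code).b i = P.b i := fun i hi => by simp [toLP, ib, ee i hi]
  have en : ∀ i, i < P.m → (toLP P.code).cn i = P.cn i := fun i hi => by simp [toLP, icn, ee i hi]
  have ec : ∀ i, i < P.m → ic P.code i = P.c i := fun i hi => by simp [ic, ee i hi]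
  have ed : ∀ p, p < P.N → (toLP P.code).dem p = P.dem p := fun p hp => nat1_tab _ hp
  have eu : ∀ i, i < P.m → (toLP P.code).u i = P.u i := fun i hi => by simp [toLP, iu, ee i hi]
  have ev : ∀ i, i < P.m → (toLP P.code).v i = P.v i := fun i hi => by simp [toLP, iv, ee i hi]
  have ed2 : ∀ p, p < P.N2 → (toLP P.code).dem2 p = P.dem2 p := fun p hp => nat1_tab _ hp
  have eN : (toLP P.code).N2 = P.N2 := length_tab _ _
  have em' : (toLP P.code).m = P.m := em
  obtain ⟨π, hπ1, hπ2⟩ := hP.fine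
  have hP' : (toLP P.code).Ok :=
    ⟨hP.six, hP.even, hP.le, fun i hi => by rw [em'] at hi; rw [ea i hi, eb i hi]; exact hP.ne i hi,
      fun i hi => by rw [em'] at hi; rw [ea i hi]; exact hP.alt i hi,
      fun i hi => by rw [em'] at hi; rw [eb i hi]; exact hP.blt i hi,
      fun i hi => by rw [em'] at hi; rw [ea i hi, en i hi]; exact hP.cna i hi,
      fun i hi => by rw [em'] at hi; rw [eb i hi, en i hi]; exact hP.cnb i hi,
      π, fun q hq => hπ1 q (eN ▸ hq), fun i hi => by
        rw [em'] at hi; rw [ea i hi, eb i hi, eu i hi, ev i hi]; exact hπ2 i hi⟩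
  have f1 : ∀ A : Finset ℕ, A ⊆ range P.m → ∀ S,
      A.filter ((toLP P.code).cr S) = A.filter (P.cr S) := fun A hA S =>
    filter_congr fun i hi => by
      have := mem_range.1 (hA hi)
      simp only [LP.cr, ea i this, eb i this, en i this]
  have f2 : ∀ A : Finset ℕ, A ⊆ range P.m → ∀ p,
      A.filter ((toLP P.code).hasEnd p) = A.filter (P.hasEnd p) := fun A hA p =>
    filter_congr fun i hi => by
      have := mem_range.1 (hA hi)
      simp only [LP.hasEnd, ea i this, eb i this]
  have f2' : ∀ A : Finset ℕ, A ⊆ range P.m → ∀ p,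
      A.filter ((toLP P.code).hasFine p) = A.filter (P.hasFine p) := fun A hA p =>
    filter_congr fun i hi => by
      have := mem_range.1 (hA hi)
      simp only [LP.hasFine, eu i this, ev i this]
  have f3 : ∀ A : Finset ℕ, A ⊆ range P.m → ∑ i ∈ A, ic P.code i = ∑ i ∈ A, P.c i :=
    fun A hA => sum_congr rfl fun i hi => ec i (mem_range.1 (hA hi))
  obtain ⟨o1, o2, o2', o3⟩ := out_spec hP' (F := F) (em ▸ hF)
    (fun S a => by rw [f1 F hF]; exact h1 S a) (fun p a => by rw [f2 F hF, ed p a]; exact h2 p a)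
    (fun p a => by rw [eN] at a; rw [f2' F hF, ed2 p a]; exact h2' p a)
  rw [em] at o1 o2 o2' o3
  refine ⟨fun S a => ?_, fun p a => ?_, fun p a => ?_, ?_⟩
  · rw [← f1 _ (setOf1_subset _ _)]; exact o1 S a
  · rw [← f2 _ (setOf1_subset _ _), ← ed p a]; exact o2 p a
  · rw [← f2' _ (setOf1_subset _ _), ← ed2 p a]; exact o2' p (eN ▸ a)
  · rwa [f3 _ hF, f3 _ (setOf1_subset _ _)] at o3

end Pool.Agent.Lib.MP_959bb6_lc.Rnd
end

-- part Pool.Agent.Lib.MP_959bb6_lc.Frac
section

/-!
The rounding theorem for fractional solutions.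
-/

set_option autoImplicit false

namespace Pool.Agent.Lib.MP_959bb6_lc.Rnd

open Pool.Agent.Shared.PolyTime Finset

theorem out_frac {I : In} (hP : (toLP I).Ok) {μ : ℕ} {X : ℕ → ℕ} (hμ : 0 < μ)
    (hX : ∀ i, X i ≤ μ)
    (h1 : ∀ S, (toLP I).IsCut S →
      μ * (toLP I).K ≤ ∑ i ∈ (range (im I)).filter ((toLP I).cr S), X i)
    (h2 : ∀ p, p < (toLP I).N →
      μ * (toLP I).dem p ≤ ∑ i ∈ (range (im I)).filter ((toLP I).hasEnd p), X i)
    (h2' : ∀ p, p < (toLP I).N2 →
      μ * (toLP I).dem2 p ≤ ∑ i ∈ (range (im I)).filter ((toLP I).hasFine p), X i) :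
    (∀ S, (toLP I).IsCut S →
      (toLP I).K ≤ ((setOf1 (im I) (out I)).filter ((toLP I).cr S)).card + 2) ∧
    (∀ p, p < (toLP I).N →
      (toLP I).dem p ≤ ((setOf1 (im I) (out I)).filter ((toLP I).hasEnd p)).card + 4) ∧
    (∀ p, p < (toLP I).N2 →
      (toLP I).dem2 p ≤ ((setOf1 (im I) (out I)).filter ((toLP I).hasFine p)).card + 6) ∧
    μ * ∑ i ∈ setOf1 (im I) (out I), ic I i ≤ ∑ i ∈ range (im I), ic I i * X i + 2 * μ := by
  classical
  have eF : Fr I (tab (im I) fun _ => 2) = range (im I) :=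
    filter_true_of_mem fun i hi => nat1_tab _ (mem_range.1 hi)
  have eO : On I (tab (im I) fun _ => 2) = ∅ :=
    filter_false_of_mem fun i hi => by rw [nat1_tab _ (mem_range.1 hi)]; norm_num
  have hμ' : (0 : ℝ) < μ := by exact_mod_cast hμ
  have hind : ∀ (q : ℕ → Prop) [DecidablePred q] (D : ℕ),
      μ * D ≤ ∑ i ∈ (range (im I)).filter q, X i →
      (D : ℝ) ≤ ∑ i ∈ (range (im I)).filter q, (X i : ℝ) / μ := by
    intro q _ D h
    rw [← sum_div, le_div_iff₀' hμ']
    exact_mod_cast h
  obtain ⟨B, hB1, hB2, hB⟩ : ∃ B, ∑ i ∈ range (im I), ic I i * X i ≤ μ * B ∧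
      μ * B ≤ ∑ i ∈ range (im I), ic I i * X i + μ ∧ B < cm I := by
    have e : ∑ i ∈ range (im I), ic I i * X i ≤ μ * ∑ i ∈ range (im I), ic I i := by
      rw [mul_sum]
      exact sum_le_sum fun i _ => by rw [mul_comm μ]; exact Nat.mul_le_mul_left _ (hX i)
    have e1 := Nat.div_add_mod (∑ i ∈ range (im I), ic I i * X i + (μ - 1)) μ
    have e2 := Nat.mod_lt (∑ i ∈ range (im I), ic I i * X i + (μ - 1)) hμ
    refine ⟨(∑ i ∈ range (im I), ic I i * X i + (μ - 1)) / μ, by omega, by omega,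
      lt_of_le_of_lt (Nat.le_of_lt_succ (Nat.div_lt_of_lt_mul ?_)) (sum_ic_lt I)⟩
    rw [Nat.mul_succ]
    omega
  have g0 : Good I (tab (im I) fun _ => 2) (mM I * B) := by
    refine ⟨fun i => (X i : ℝ) / μ, ?_, ?_⟩
    · rw [eF, eO]
      refine ⟨fun i _ => ⟨by positivity, (div_le_one hμ').2 (by exact_mod_cast hX i)⟩,
        fun S a _ => ?_, fun p a _ => ?_, fun p a _ => ?_⟩
      · simpa using hind _ _ (h1 S a)
      · simpa using hind _ _ (h2 p a)
      · simpa using hind _ _ (h2' p a)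
    · rw [eF, eO, sum_empty, zero_add]
      push_cast
      refine mul_le_mul_of_nonneg_left ?_ (Nat.cast_nonneg _)
      simp only [← mul_div_assoc]
      rw [← sum_div, div_le_iff₀' hμ']
      exact_mod_cast hB1
  obtain ⟨_, p2, p3⟩ := first_spec (N := cm I)
    (p := fun B => solve I (tab (im I) fun _ => 2) (mM I * B)) ⟨_, hB, solve_complete hP g0⟩
  have hw : w0 I ≤ mM I * B := by
    refine Nat.mul_le_mul_left _ ?_
    by_contra hc
    have := p3 _ (not_le.1 hc)
    rw [solve_complete hP g0] at this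
    simp at this
  obtain ⟨_, _, r3, x, hx, hW⟩ := round_inv hP (solve_sound hP p2) (im I) le_rfl
  have eO' : setOf1 (im I) (out I) = On I (fin I).2 := by
    unfold out On
    rw [setOf1_tab]
    simp
  have eF' : Fr I (fin I).2 = ∅ := card_eq_zero.1 (by unfold fin; omega)
  change (toLP I).Feas (On I (fin I).2) (Fr I (fin I).2) x at hx
  change (mM I : ℝ) * (∑ i ∈ On I (fin I).2, (ic I i : ℝ) +
    ∑ i ∈ Fr I (fin I).2, (ic I i : ℝ) * x i) ≤ _ at hW
  rw [eF'] at hx hW
  rw [eO']
  refine ⟨fun S a => ?_, fun p a => ?_, fun p a => ?_, ?_⟩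
  · by_contra hc
    have := hx.cut S a (by omega)
    simp only [filter_empty, sum_empty, add_zero, Nat.cast_le] at this
    omega
  · by_contra hc
    have := hx.star p a (by omega)
    simp only [filter_empty, sum_empty, add_zero, Nat.cast_le] at this
    omega
  · by_contra hc
    have := hx.fine p a (by omega)
    simp only [filter_empty, sum_empty, add_zero, Nat.cast_le] at this
    omega
  · rw [sum_empty, add_zero] at hW
    have h3 : mM I * ∑ i ∈ On I (fin I).2, ic I i ≤ w0 I + (im I + 1) * dD I := by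
      exact_mod_cast hW
    have h4 : (im I + 1) * dD I ≤ mM I := by unfold mM; omega
    have h5 : mM I * ∑ i ∈ On I (fin I).2, ic I i ≤ mM I * (B + 1) := by
      rw [mul_add]; omega
    have h6 := Nat.mul_le_mul_left μ (Nat.le_of_mul_le_mul_left h5 (by have := mM_big I; omega))
    rw [mul_add] at h6
    omega

theorem round_frac {P : LP} (hP : P.Ok) {μ : ℕ} {X : ℕ → ℕ} (hμ : 0 < μ) (hX : ∀ i, X i ≤ μ)
    (h1 : ∀ S, P.IsCut S → μ * P.K ≤ ∑ i ∈ (range P.m).filter (P.cr S), X i)
    (h2 : ∀ p, p < P.N → μ * P.dem p ≤ ∑ i ∈ (range P.m).filter (P.hasEnd p), X i)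
    (h2' : ∀ p, p < P.N2 → μ * P.dem2 p ≤ ∑ i ∈ (range P.m).filter (P.hasFine p), X i) :
    (∀ S, P.IsCut S → P.K ≤ ((setOf1 P.m (out P.code)).filter (P.cr S)).card + 2) ∧
    (∀ p, p < P.N → P.dem p ≤ ((setOf1 P.m (out P.code)).filter (P.hasEnd p)).card + 4) ∧
    (∀ p, p < P.N2 → P.dem2 p ≤ ((setOf1 P.m (out P.code)).filter (P.hasFine p)).card + 6) ∧
    μ * ∑ i ∈ setOf1 P.m (out P.code), P.c i ≤ ∑ i ∈ range P.m, P.c i * X i + 2 * μ := by
  have em : im P.code = P.m := by simp [im, LP.code]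
  have ee : ∀ i, i < P.m → ie P.code i = (P.a i, P.b i, P.cn i, P.c i, P.u i, P.v i) := fun i hi =>
    getD_tab _ _ hi
  have ea : ∀ i, i < P.m → (toLP P.code).a i = P.a i := fun i hi => by simp [toLP, ia, ee i hi]
  have eb : ∀ i, i < P.m → (toLP P.code).b i = P.b i := fun i hi => by simp [toLP, ib, ee i hi]
  have en : ∀ i, i < P.m → (toLP P.code).cn i = P.cn i := fun i hi => by simp [toLP, icn, ee i hi]
  have ec : ∀ i, i < P.m → ic P.code i = P.c i := fun i hi => by simp [ic, ee i hi]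
  have ed : ∀ p, p < P.N → (toLP P.code).dem p = P.dem p := fun p hp => nat1_tab _ hp
  have eu : ∀ i, i < P.m → (toLP P.code).u i = P.u i := fun i hi => by simp [toLP, iu, ee i hi]
  have ev : ∀ i, i < P.m → (toLP P.code).v i = P.v i := fun i hi => by simp [toLP, iv, ee i hi]
  have ed2 : ∀ p, p < P.N2 → (toLP P.code).dem2 p = P.dem2 p := fun p hp => nat1_tab _ hp
  have eN : (toLP P.code).N2 = P.N2 := length_tab _ _
  have em' : (toLP P.code).m = P.m := em
  obtain ⟨π, hπ1, hπ2⟩ := hP.fine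
  have hP' : (toLP P.code).Ok :=
    ⟨hP.six, hP.even, hP.le, fun i hi => by rw [em'] at hi; rw [ea i hi, eb i hi]; exact hP.ne i hi,
      fun i hi => by rw [em'] at hi; rw [ea i hi]; exact hP.alt i hi,
      fun i hi => by rw [em'] at hi; rw [eb i hi]; exact hP.blt i hi,
      fun i hi => by rw [em'] at hi; rw [ea i hi, en i hi]; exact hP.cna i hi,
      fun i hi => by rw [em'] at hi; rw [eb i hi, en i hi]; exact hP.cnb i hi,
      π, fun q hq => hπ1 q (eN ▸ hq), fun i hi => by
        rw [em'] at hi; rw [ea i hi, eb i hi, eu i hi, ev i hi]; exact hπ2 i hi⟩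
  have f1 : ∀ A : Finset ℕ, A ⊆ range P.m → ∀ S,
      A.filter ((toLP P.code).cr S) = A.filter (P.cr S) := fun A hA S =>
    filter_congr fun i hi => by
      have := mem_range.1 (hA hi)
      simp only [LP.cr, ea i this, eb i this, en i this]
  have f2 : ∀ A : Finset ℕ, A ⊆ range P.m → ∀ p,
      A.filter ((toLP P.code).hasEnd p) = A.filter (P.hasEnd p) := fun A hA p =>
    filter_congr fun i hi => by
      have := mem_range.1 (hA hi)
      simp only [LP.hasEnd, ea i this, eb i this]
  have f2' : ∀ A : Finset ℕ, A ⊆ range P.m → ∀ p,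
      A.filter ((toLP P.code).hasFine p) = A.filter (P.hasFine p) := fun A hA p =>
    filter_congr fun i hi => by
      have := mem_range.1 (hA hi)
      simp only [LP.hasFine, eu i this, ev i this]
  have f3 : ∀ A : Finset ℕ, A ⊆ range P.m → ∑ i ∈ A, ic P.code i = ∑ i ∈ A, P.c i :=
    fun A hA => sum_congr rfl fun i hi => ec i (mem_range.1 (hA hi))
  obtain ⟨o1, o2, o2', o3⟩ := out_frac hP' hμ hX
    (fun S a => by rw [em, f1 _ (Subset.refl _)]; exact h1 S a)
    (fun p a => by rw [em, f2 _ (Subset.refl _), ed p a]; exact h2 p a)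
    (fun p a => by rw [eN] at a; rw [em, f2' _ (Subset.refl _), ed2 p a]; exact h2' p a)
  rw [em] at o1 o2 o2' o3
  refine ⟨fun S a => ?_, fun p a => ?_, fun p a => ?_, ?_⟩
  · rw [← f1 _ (setOf1_subset _ _)]; exact o1 S a
  · rw [← f2 _ (setOf1_subset _ _), ← ed p a]; exact o2 p a
  · rw [← f2' _ (setOf1_subset _ _), ← ed2 p a]; exact o2' p (eN ▸ a)
  · rwa [f3 _ (setOf1_subset _ _), sum_congr (s₁ := range P.m) rfl fun i hi => by
      rw [ec i (mem_range.1 hi)]] at o3

end Pool.Agent.Lib.MP_959bb6_lc.Rnd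
end
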