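import Mathlib

/-!
Counting lemmas for the vertex cuts.
-/

set_option autoImplicit false

namespace Pool.Agent.Lib.MP_959bb6_lc

open Finset Pointwise

/-- A cyclic permutation of `range N`. -/
structure Cyc (N : ℕ) (nx : ℕ → ℕ) : Prop where
  lt : ∀ p, p < N → nx p < N
  inj : ∀ p q, p < N → q < N → nx p = nx q → p = q
  conn : ∀ X : Finset ℕ, X ⊆ range N → X.Nonempty → (∀ p ∈ X, nx p ∈ X) → X = range N

theorem Cyc.exit {N : ℕ} {nx : ℕ → ℕ} (h : Cyc N nx) {X : Finset ℕ} (h1 : X ⊆ range N)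
    (h2 : X.Nonempty) (h3 : X.card < N) : ∃ p ∈ X, nx p ∉ X := by
  by_contra hc
  push Not at hc
  rw [h.conn X h1 h2 hc, card_range] at h3
  omega

theorem Cyc.ne {N : ℕ} {nx : ℕ → ℕ} (h : Cyc N nx) (hN : 2 ≤ N) {p : ℕ} (hp : p < N) :
    nx p ≠ p := by
  simpa using h.exit (X := {p}) (by simpa using hp) (singleton_nonempty _) (by rw [card_singleton]; omega)

theorem Cyc.ne2 {N : ℕ} {nx : ℕ → ℕ} (h : Cyc N nx) (hN : 3 ≤ N) {p : ℕ} (hp : p < N) :
    nx (nx p) ≠ p := by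
  obtain ⟨q, a, b⟩ := h.exit (X := {p, nx p}) (by simp [insert_subset_iff, hp, h.lt p hp])
    (insert_nonempty _ _) (card_le_two.trans_lt hN)
  simp only [mem_insert, mem_singleton] at a b
  grind

theorem Cyc.sum {N : ℕ} {nx : ℕ → ℕ} (h : Cyc N nx) (f : ℕ → ℕ) :
    ∑ p ∈ range N, f (nx p) = ∑ p ∈ range N, f p := by
  have hi : Set.InjOn nx (range N) := fun p hp q hq =>
    h.inj p q (mem_range.1 (mem_coe.1 hp)) (mem_range.1 (mem_coe.1 hq))
  rw [← sum_image hi, eq_of_subset_of_card_le (t := range N) (fun q hq => by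
    obtain ⟨p, hp, rfl⟩ := mem_image.1 hq
    exact mem_range.2 (h.lt p (mem_range.1 hp))) (card_image_of_injOn hi).ge]

theorem Cyc.pairs {N : ℕ} {nx : ℕ → ℕ} (h : Cyc N nx) {X : Finset ℕ} (hX : X ⊆ range N)
    (h1 : 2 ≤ X.card) (h2 : X.card + 2 ≤ N) : ∃ p q, p < N ∧ q < N ∧ p ≠ q ∧ nx p ≠ q ∧
      nx q ≠ p ∧ ¬ (p ∈ X ↔ nx p ∈ X) ∧ ¬ (q ∈ X ↔ nx q ∈ X) := by
  have hc := card_sdiff_of_subset hX
  rw [card_range] at hc
  obtain ⟨p, p1, p2⟩ := h.exit hX (card_pos.1 (by omega)) (by omega)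
  obtain ⟨q, q1, q2⟩ := h.exit (X := range N \ X) sdiff_subset (card_pos.1 (by omega)) (by omega)
  have p0 := mem_range.1 (hX p1)
  obtain ⟨q0, q1⟩ := mem_sdiff.1 q1
  rw [mem_range] at q0
  have q3 : nx q ∈ X := by simpa [h.lt q q0] using q2
  by_cases c1 : nx p = q
  · obtain ⟨r, r1, r2⟩ := h.exit (X := insert q X) (insert_subset (mem_range.2 q0) hX)
      (insert_nonempty _ _) (by have := card_insert_le q X; omega)
    simp only [mem_insert] at r1 r2
    have r3 : r ∈ X := by grind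
    exact ⟨p, r, p0, mem_range.1 (hX r3), by grind, by grind, by grind, by grind, by grind⟩
  by_cases c2 : nx q = p
  · obtain ⟨r, r1, r2⟩ := h.exit (X := insert p (range N \ X))
      (insert_subset (mem_range.2 p0) sdiff_subset)
      (insert_nonempty _ _) (by have := card_insert_le p (range N \ X); omega)
    simp only [mem_insert, mem_sdiff, mem_range] at r1 r2
    have r3 : r < N ∧ r ∉ X := by have := h.lt p p0; grind
    have := h.lt r r3.1
    exact ⟨q, r, q0, r3.1, by grind, by grind, by grind, by grind, by grind⟩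
  exact ⟨p, q, p0, q0, by grind, c1, c2, by grind, by grind⟩

theorem cnt_par {A S D E : Finset ℕ} (par : ℕ → ℕ) (hD : ∀ d ∈ D, d ∉ A → d ∈ S)
    (inj : ∀ d ∈ D, ∀ e ∈ D, d ∈ A → e ∈ A → par d = par e → d = e)
    (h1 : ∀ d ∈ D, d ∈ A → par d ∉ D) (h2 : ∀ d ∈ D, d ∈ A → par d ∈ S ∨ par d ∈ E) :
    D.card ≤ S.card + E.card := by
  refine le_trans (card_le_card_of_injOn (fun d => if d ∈ A then par d else d) (fun d hd => ?_)
    fun d hd e he h => ?_) (card_union_le S E)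
  · simp only [coe_union, Set.mem_union, mem_coe]
    split_ifs with c
    · exact h2 d hd c
    · exact Or.inl (hD d hd c)
  · simp only at h
    split_ifs at h with c1 c2 c2
    · exact inj d hd e he c1 c2 h
    · exact absurd (h ▸ he) (h1 d hd c1)
    · exact absurd (h ▸ hd) (h1 e he c2)
    · exact h

theorem lift_cover {m M μ : ℕ} (s : ℕ → ℕ) (side : ℕ → Prop) (rel : ℕ → ℕ → Prop)
    (cov : ∀ T : Finset ℕ, (∀ a b, rel a b → a ∈ T ∨ b ∈ T) → M ≤ T.card)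
    (h : ∀ a b, rel a b → side a ∧ ¬ side b ∧ a < m ∧ b < m ∧ μ ≤ s a + s b) :
    M * μ ≤ ∑ e ∈ range m, s e := by
  classical
  have e1 : (range μ).card • M ≤ ∑ θ ∈ range μ,
      ((range m).filter fun e => if side e then θ < s e else μ ≤ s e + θ).card :=
    card_nsmul_le_sum _ _ _ fun θ _ => cov _ fun a b hab => by
      obtain ⟨a1, a2, a3, a4, a5⟩ := h a b hab
      simp only [mem_filter, mem_range, a1, a2, a3, a4, if_true, if_false, true_and]
      omega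
  rw [card_range, smul_eq_mul, mul_comm] at e1
  refine e1.trans ?_
  simp only [card_filter]
  rw [sum_comm]
  refine sum_le_sum fun e _ => ?_
  rw [← card_filter]
  split_ifs
  · exact (card_le_card (t := range (s e)) fun θ hθ => mem_range.2 (mem_filter.1 hθ).2).trans
      (card_range _).le
  · refine (card_le_card (t := Ico (μ - s e) μ) fun θ hθ => ?_).trans (by simp; omega)
    simp only [mem_filter, mem_range] at hθ
    exact mem_Ico.2 (by omega)

/-- A system of bundles with distinct targets, one at each block. -/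
def Sel (M : ℕ) (F : ℕ → Finset ℕ) (τ e : ℕ → ℕ) : Prop :=
  (∀ β, β < M → e β ∈ F β) ∧ ∀ β γ, β < M → γ < M → τ (e β) = τ (e γ) → β = γ

/-- Some block has many neighbours that are not partners. -/
def Many (M l : ℕ) (F : ℕ → Finset ℕ) (τ sh e : ℕ → ℕ) : Prop :=
  ∀ A : ℕ → Finset ℕ, (∃ β, β < M ∧ (A β).Nonempty) → ∃ β, β < M ∧ (A β).Nonempty ∧
    ∃ W : Finset (ℕ × ℕ), (F β).card ≤ W.card + l ∧ ∀ w ∈ W,
      (∃ f ∈ F β, ∃ i ∈ A β, w = (τ f, i + sh f)) ∧
        ∀ γ, γ < M → ∀ j ∈ A γ, w ≠ (τ (e γ), j + sh (e γ))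

theorem exists_sel {M : ℕ} {F : ℕ → Finset ℕ} {τ : ℕ → ℕ}
    (h : ∀ X : Finset ℕ, X ⊆ range M → X.card ≤ (X.biUnion fun β => (F β).image τ).card) :
    ∃ e, Sel M F τ e := by
  obtain ⟨g, g1, g2⟩ := (all_card_le_biUnion_card_iff_exists_injective
    fun β : Fin M => (F β).image τ).1 fun s => by
      have := h (s.map Fin.valEmbedding) fun x hx => by
        obtain ⟨i, _, rfl⟩ := mem_map.1 hx
        exact mem_range.2 i.2
      rw [card_map] at this
      refine this.trans (card_le_card fun x hx => ?_)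
      simpa using hx
  simp only [mem_image] at g2
  choose e e1 e2 using g2
  refine ⟨fun β => if h : β < M then e ⟨β, h⟩ else 0, fun β hβ => by simpa [hβ] using e1 ⟨β, hβ⟩,
    fun β γ hβ hγ h => ?_⟩
  simp only [hβ, hγ, dif_pos, e2] at h
  exact congrArg Fin.val (g1 h)

theorem many_big {M : ℕ} {F : ℕ → Finset ℕ} {τ sh e : ℕ → ℕ} (he : Sel M F τ e)
    (hinj : ∀ β, β < M → ∀ f ∈ F β, ∀ g ∈ F β, τ f = τ g → sh f = sh g → f = g) :
    Many M M F τ sh e := by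
  rintro A ⟨β0, b1, b2⟩
  obtain ⟨β, hβ, hmax⟩ := exists_max_image (range M) (fun β => (A β).card) ⟨β0, mem_range.2 b1⟩
  rw [mem_range] at hβ
  have hne : (A β).Nonempty := card_pos.1 ((card_pos.2 b2).trans_le (hmax β0 (mem_range.2 b1)))
  let Z : ℕ → Finset ℕ := fun t => (A β + ((F β).filter fun f => τ f = t).image sh) \
    ((range M).filter fun γ => τ (e γ) = t).biUnion fun γ => (A γ).image (· + sh (e γ))
  refine ⟨β, hβ, hne, ((F β).image τ).biUnion fun t => (Z t).image (Prod.mk t), ?_, fun w hw => ?_⟩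
  · rw [card_biUnion fun t _ u _ htu => by
      simp only [Function.onFun, Finset.disjoint_left, mem_image]
      rintro _ ⟨_, _, rfl⟩ ⟨_, _, e⟩
      exact htu (Prod.mk.inj e).1.symm,
      card_eq_sum_card_fiberwise (f := τ) (t := (F β).image τ) fun f hf => mem_image_of_mem _ hf]
    have e1 : ∑ t ∈ (F β).image τ, ((range M).filter fun γ => τ (e γ) = t).card ≤ M := by
      rw [sum_card_fiberwise_eq_card_filter]
      exact (card_filter_le _ _).trans (card_range M).le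
    refine le_trans ?_ (Nat.add_le_add_left e1 _)
    rw [← sum_add_distrib]
    refine sum_le_sum fun t ht => ?_
    obtain ⟨f, hf, rfl⟩ := mem_image.1 ht
    rw [card_image_of_injective _ (Prod.mk_right_injective _)]
    have a1 := cauchy_davenport_add_of_linearOrder_isCancelAdd hne
      (t := ((F β).filter fun g => τ g = τ f).image sh) ⟨_, mem_image_of_mem _ (mem_filter.2 ⟨hf, rfl⟩)⟩
    rw [card_image_of_injOn fun g hg g' hg' e => by
      simp only [coe_filter, Set.mem_ofPred_eq] at hg hg'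
      exact hinj β hβ g hg.1 g' hg'.1 (hg.2.trans hg'.2.symm) e] at a1
    have a2 := le_card_sdiff (((range M).filter fun γ => τ (e γ) = τ f).biUnion
      fun γ => (A γ).image (· + sh (e γ))) (A β + ((F β).filter fun g => τ g = τ f).image sh)
    have a3 := card_biUnion_le_card_mul ((range M).filter fun γ => τ (e γ) = τ f)
      (fun γ => (A γ).image (· + sh (e γ))) (A β).card
      fun γ hγ => card_image_le.trans (hmax γ (mem_filter.1 hγ).1)
    have a4 : ((range M).filter fun γ => τ (e γ) = τ f).card ≤ 1 := card_le_one.2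
      fun γ hγ δ hδ => by
        simp only [mem_filter, mem_range] at hγ hδ
        exact he.2 γ δ hγ.1 hδ.1 (hγ.2.trans hδ.2.symm)
    have a5 := card_pos.2 hne
    change _ ≤ (Z (τ f)).card at a2
    rcases Nat.le_one_iff_eq_zero_or_eq_one.1 a4 with c | c <;> rw [c] at a3 ⊢ <;> omega
  · obtain ⟨t, _, hw⟩ := mem_biUnion.1 hw
    obtain ⟨x, hx, rfl⟩ := mem_image.1 hw
    obtain ⟨x1, x2⟩ := mem_sdiff.1 hx
    obtain ⟨i, hi, y, hy, rfl⟩ := mem_add.1 x1
    obtain ⟨f, hf, rfl⟩ := mem_image.1 hy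
    obtain ⟨f1, rfl⟩ := mem_filter.1 hf
    refine ⟨⟨f, f1, i, hi, rfl⟩, fun γ hγ j hj e => x2 (mem_biUnion.2 ⟨γ, mem_filter.2
      ⟨mem_range.2 hγ, (Prod.mk.inj e).1.symm⟩, mem_image.2 ⟨j, hj, (Prod.mk.inj e).2.symm⟩⟩)⟩

theorem pow_sum_ne {C : Finset ℕ} (hC : C.Nonempty) {f e sh col : ℕ → ℕ} {Λ : ℕ}
    (h1 : ∀ β ∈ C, ∀ γ ∈ C, col (f β) ≠ col (e γ))
    (h2 : ∀ β ∈ C, ∀ γ ∈ C, col (f β) = col (f γ) → β = γ)
    (h3 : ∀ β ∈ C, ∀ γ ∈ C, col (e β) = col (e γ) → β = γ)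
    (hs : ∀ β ∈ C, ∀ g, g = f β ∨ g = e β → sh g = Λ + 2 ^ col g ∨ sh g + 2 ^ col g = Λ) :
    ∑ β ∈ C, sh (f β) ≠ ∑ β ∈ C, sh (e β) := by
  have key : ∀ f e : ℕ → ℕ, (∀ β ∈ C, ∀ γ ∈ C, col (f β) ≠ col (e γ)) →
      (∀ β ∈ C, ∀ γ ∈ C, col (f β) = col (f γ) → β = γ) →
      (∀ β ∈ C, ∀ g, g = f β ∨ g = e β → sh g = Λ + 2 ^ col g ∨ sh g + 2 ^ col g = Λ) →
      ∀ β ∈ C, (∀ γ ∈ C, col (f β) ≤ col (f γ) ∧ col (f β) ≤ col (e γ)) →
      ∑ β ∈ C, sh (f β) ≠ ∑ β ∈ C, sh (e β) := by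
    intro f e h1 h2 hs β hβ hmin h
    have dv : ∀ g, (sh g = Λ + 2 ^ col g ∨ sh g + 2 ^ col g = Λ) → col (f β) < col g →
        (2 : ℤ) ^ (col (f β) + 1) ∣ (sh g : ℤ) - Λ := fun g hg hc => by
      have : (2 : ℤ) ^ (col (f β) + 1) ∣ 2 ^ col g := pow_dvd_pow _ hc
      rcases hg with hg | hg
      · rw [hg]; simpa using this
      · rw [← hg]; simpa using this
    have d1 := dvd_sum (s := C) fun γ hγ => dv (e γ) (hs γ hγ _ (Or.inr rfl))
      (lt_of_le_of_ne (hmin γ hγ).2 (h1 β hβ γ hγ))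
    have d2 := dvd_sum (s := C.erase β) fun γ hγ => dv (f γ)
      (hs γ (mem_of_mem_erase hγ) _ (Or.inl rfl)) (lt_of_le_of_ne (hmin γ (mem_of_mem_erase hγ)).1
        fun e => ne_of_mem_erase hγ (h2 β hβ γ (mem_of_mem_erase hγ) e).symm)
    have e1 : ∑ γ ∈ C, ((sh (e γ) : ℤ) - Λ) = ∑ γ ∈ C, ((sh (f γ) : ℤ) - Λ) := by
      rw [sum_sub_distrib, sum_sub_distrib]
      congr 1
      exact_mod_cast h.symm
    rw [e1, ← add_sum_erase _ _ hβ] at d1
    have d3 := (dvd_add_left d2).1 d1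
    have d4 : (2 : ℤ) ^ (col (f β) + 1) ∣ 2 ^ col (f β) := by
      rcases hs β hβ _ (Or.inl rfl) with hg | hg
      · rw [hg] at d3; simpa using d3
      · rw [← hg] at d3; simpa using d3
    have := Int.le_of_dvd (by positivity) d4
    have : (0 : ℤ) < 2 ^ col (f β) := by positivity
    omega
  obtain ⟨β, hβ, hmin⟩ := exists_min_image C (fun β => min (col (f β)) (col (e β))) hC
  rcases le_total (col (f β)) (col (e β)) with c | c
  · exact key f e h1 h2 hs β hβ fun γ hγ => by have := hmin γ hγ; omega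
  · exact (key e f (fun β hβ γ hγ => (h1 γ hγ β hβ).symm) h3
      (fun β hβ g hg => hs β hβ g hg.symm) β hβ fun γ hγ => by have := hmin γ hγ; omega).symm

theorem many_gen {M Λ : ℕ} {F : ℕ → Finset ℕ} {τ sh col e0 : ℕ → ℕ} (he : Sel M F τ e0)
    (hcol : ∀ β γ, β < M → γ < M → ∀ f ∈ F β, ∀ g ∈ F γ, col f = col g → β = γ ∧ f = g)
    (hs : ∀ β, β < M → ∀ g ∈ F β, sh g = Λ + 2 ^ col g ∨ sh g + 2 ^ col g = Λ) :
    ∃ e, Sel M F τ e ∧ Many M 1 F τ sh e := by
  classical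
  obtain ⟨e, he, hmax⟩ : ∃ e, Sel M F τ e ∧ ∀ e', Sel M F τ e' →
      ∑ β ∈ range M, sh (e' β) ≤ ∑ β ∈ range M, sh (e β) := by
    have hb : ∀ e', Sel M F τ e' → ∑ β ∈ range M, sh (e' β) ≤
        ∑ β ∈ range M, ∑ g ∈ F β, sh g := fun e' h => sum_le_sum fun β hβ =>
      single_le_sum (fun _ _ => Nat.zero_le _) (h.1 β (mem_range.1 hβ))
    obtain ⟨e, h1, h2⟩ := Nat.findGreatest_spec
      (P := fun w => ∃ e, Sel M F τ e ∧ ∑ β ∈ range M, sh (e β) = w) (hb e0 he) ⟨e0, he, rfl⟩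
    exact ⟨e, h1, fun e' h => h2 ▸ Nat.le_findGreatest (hb e' h) ⟨e', h, rfl⟩⟩
  refine ⟨e, he, fun A hA => ?_⟩
  by_contra hc
  let B := (range M).filter fun β => (A β).Nonempty
  have step : ∀ β, ∃ a f γ : ℕ, β ∈ B → (∀ i ∈ A β, a ≤ i) ∧ f ∈ F β ∧ f ≠ e β ∧ γ ∈ B ∧
      τ f = τ (e γ) ∧ ∃ j ∈ A γ, a + sh f = j + sh (e γ) := by
    intro β
    by_cases hβ : β ∈ B
    swap
    · exact ⟨0, 0, 0, fun h => absurd h hβ⟩
    obtain ⟨b1, b2⟩ := mem_filter.1 hβ
    rw [mem_range] at b1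
    by_contra hn
    refine hc ⟨β, b1, b2, ((F β).erase (e β)).image fun f => (τ f, (A β).min' b2 + sh f), ?_,
      fun w hw => ?_⟩
    · rw [card_image_of_injOn, card_erase_add_one (he.1 β b1)]
      intro f hf g hg h
      have hf := mem_of_mem_erase (mem_coe.1 hf)
      have hg := mem_of_mem_erase (mem_coe.1 hg)
      have h := Nat.add_left_cancel (Prod.mk.inj h).2
      refine (hcol β β b1 b1 f hf g hg (Nat.pow_right_injective le_rfl ?_)).2
      have := hs β b1 f hf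
      have := hs β b1 g hg
      have := Nat.two_pow_pos (col f)
      have := Nat.two_pow_pos (col g)
      simp only
      omega
    · obtain ⟨f, hf, rfl⟩ := mem_image.1 hw
      refine ⟨⟨f, mem_of_mem_erase hf, _, min'_mem _ _, rfl⟩, fun γ hγ j hj h =>
        hn ⟨(A β).min' b2, f, γ, fun _ => ⟨fun i hi => min'_le _ _ hi, mem_of_mem_erase hf,
          ne_of_mem_erase hf, mem_filter.2 ⟨mem_range.2 hγ, j, hj⟩, (Prod.mk.inj h).1, j, hj,
          (Prod.mk.inj h).2⟩⟩⟩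
  choose a f g hst using step
  obtain ⟨C, hC, hmin⟩ := exists_min_image (B.powerset.filter fun C => C.Nonempty ∧ C.image g ⊆ C)
    card ⟨B, by
      obtain ⟨β, b1, b2⟩ := hA
      exact mem_filter.2 ⟨mem_powerset_self _, ⟨β, mem_filter.2 ⟨mem_range.2 b1, b2⟩⟩,
        image_subset_iff.2 fun β hβ => (hst β hβ).2.2.2.1⟩⟩
  simp only [mem_filter, mem_powerset] at hC hmin
  obtain ⟨c1, c2, c3⟩ := hC
  have c4 := hmin (C.image g) ⟨c3.trans c1, c2.image _, image_subset_image c3⟩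
  have c5 : C.image g = C := eq_of_subset_of_card_le c3 c4
  have c6 : Set.InjOn g C := card_image_iff.1 (by rw [c5])
  have cM : ∀ β ∈ C, β < M := fun β hβ => mem_range.1 (mem_filter.1 (c1 hβ)).1
  have cg : ∀ β ∈ C, g β ∈ C := fun β hβ => c3 (mem_image_of_mem _ hβ)
  have s1 : ∀ h : ℕ → ℕ, ∑ β ∈ C, h (g β) = ∑ β ∈ C, h β := fun h => by
    rw [← sum_image c6, c5]
  have s2 : ∑ β ∈ C, (a (g β) + sh (e (g β))) ≤ ∑ β ∈ C, (a β + sh (f β)) :=
    sum_le_sum fun β hβ => by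
      obtain ⟨j, j1, j2⟩ := (hst β (c1 hβ)).2.2.2.2.2
      have := (hst _ (c1 (cg β hβ))).1 j j1
      omega
  rw [s1 fun β => a β + sh (e β), sum_add_distrib, sum_add_distrib] at s2
  have s3 := hmax (fun β => if β ∈ C then f β else e β) ⟨fun β hβ => by
    simp only
    split_ifs with c
    · exact (hst β (c1 c)).2.1
    · exact he.1 β hβ, fun β γ hβ hγ h => by
      simp only at h
      split_ifs at h with d1 d2 d2
      · rw [(hst β (c1 d1)).2.2.2.2.1, (hst γ (c1 d2)).2.2.2.2.1] at h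
        exact c6 d1 d2 (he.2 _ _ (cM _ (cg β d1)) (cM _ (cg γ d2)) h)
      · rw [(hst β (c1 d1)).2.2.2.2.1] at h
        exact absurd (he.2 _ _ (cM _ (cg β d1)) hγ h ▸ cg β d1) d2
      · rw [(hst γ (c1 d2)).2.2.2.2.1] at h
        exact absurd (he.2 _ _ hβ (cM _ (cg γ d2)) h ▸ cg γ d2) d1
      · exact he.2 β γ hβ hγ h⟩
  have cs : C ⊆ range M := fun β hβ => mem_range.2 (cM β hβ)
  rw [← sum_sdiff cs, ← sum_sdiff cs, sum_congr (s₁ := range M \ C) rfl fun β hβ => by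
    rw [if_neg (mem_sdiff.1 hβ).2], sum_congr (s₁ := C) rfl fun β hβ => by rw [if_pos hβ]] at s3
  refine pow_sum_ne c2 (f := f) (e := e) (sh := sh) (col := col) (Λ := Λ) (fun β hβ γ hγ h => ?_)
    (fun β hβ γ hγ h => (hcol β γ (cM β hβ) (cM γ hγ) _ (hst β (c1 hβ)).2.1 _
      (hst γ (c1 hγ)).2.1 h).1) (fun β hβ γ hγ h => (hcol β γ (cM β hβ) (cM γ hγ) _
        (he.1 β (cM β hβ)) _ (he.1 γ (cM γ hγ)) h).1) (fun β hβ x hx => hs β (cM β hβ) x ?_)
    (by omega)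
  · obtain ⟨rfl, h⟩ := hcol β γ (cM β hβ) (cM γ hγ) _ (hst β (c1 hβ)).2.1 _ (he.1 γ (cM γ hγ)) h
    exact (hst β (c1 hβ)).2.2.1 h
  · rcases hx with rfl | rfl
    · exact (hst β (c1 hβ)).2.1
    · exact he.1 β (cM β hβ)

end Pool.Agent.Lib.MP_959bb6_lc
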