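import Mathlib
import Pool.Agent.Lib.MP_959bb6_lc.Dense

-- part Pool.Agent.Lib.MP_959bb6_lc.Bin
section

/-!
Arithmetic on numbers written in binary is polynomial-time.
-/

set_option autoImplicit false

namespace Pool.Agent.Lib.MP_959bb6_lc

open Pool.Agent.Shared.PolyTime Enc

/-- Natural numbers encoded in binary. -/
structure Bin : Type where
  v : ℕ

instance encBinInst : Enc Bin := ⟨fun b => enc (Nat.bits b.v)⟩

namespace Bin

/-- The value of a list of binary digits. -/
def bv (l : List Bool) : ℕ := l.foldr Nat.bit 0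

theorem bv_cons (b : Bool) (l : List Bool) : bv (b :: l) = 2 * bv l + b.toNat := by
  simp [bv, Nat.bit_val]

theorem bv_head_tail (l : List Bool) : bv l = 2 * bv l.tail + (l.headD false).toNat := by
  cases l with
  | nil => rfl
  | cons b l => exact bv_cons b l

theorem bv_concat (l : List Bool) (b : Bool) : bv (l ++ [b]) = bv l + 2 ^ l.length * b.toNat := by
  induction l with
  | nil => simp [bv, Nat.bit_val]
  | cons a l ih => rw [List.cons_append, bv_cons, bv_cons, ih, List.length_cons]; ring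

theorem bv_bits (n : ℕ) : bv (Nat.bits n) = n := by
  induction n using Nat.binaryRec' with
  | zero => rfl
  | bit b n h ih => rw [Nat.bits_append_bit n b h, bv_cons, ih, Nat.bit_val]

def norm (l : List Bool) : List Bool :=
  l.reverse.foldl (fun acc b => bif acc.isEmpty && !b then [] else b :: acc) []

theorem norm_eq (l : List Bool) : norm l = Nat.bits (bv l) := by
  unfold norm
  rw [List.foldl_reverse]
  induction l with
  | nil => rfl
  | cons b l ih =>
    rw [List.foldr_cons, ih]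
    by_cases h : bv l = 0 → b = true
    · have : bv (b :: l) = Nat.bit b (bv l) := rfl
      rw [this, Nat.bits_append_bit _ _ h]
      by_cases h0 : bv l = 0
      · simp [h h0]
      · have : (Nat.bits (bv l)).isEmpty = false := by
          rw [List.isEmpty_eq_false_iff]
          intro e
          have := bv_bits (bv l)
          rw [e] at this
          exact h0 this.symm
        simp [this]
    · push Not at h
      have hb : b = false := by simpa using h.2
      simp [bv_cons, h.1, hb]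

def addStep (s : List Bool × List Bool × Bool × List Bool) :
    List Bool × List Bool × Bool × List Bool :=
  (s.1.tail, s.2.1.tail,
    (s.1.headD false && s.2.1.headD false) || (s.2.2.1 && (s.1.headD false || s.2.1.headD false)),
    s.2.2.2 ++ [(s.1.headD false == s.2.1.headD false) == s.2.2.1])

def addRun (x y : List Bool) : List Bool × List Bool × Bool × List Bool :=
  addStep^[x.length + y.length] (x, y, false, [])

def addL (x y : List Bool) : List Bool := (addRun x y).2.2.2 ++ [(addRun x y).2.2.1]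

theorem addStep_iter (x y : List Bool) (j : ℕ) :
    (addStep^[j] (x, y, false, [])).1 = x.drop j ∧ (addStep^[j] (x, y, false, [])).2.1 = y.drop j ∧
    (addStep^[j] (x, y, false, [])).2.2.2.length = j ∧
    bv (addStep^[j] (x, y, false, [])).2.2.2 + 2 ^ j * (bv (x.drop j) + bv (y.drop j) +
      (addStep^[j] (x, y, false, [])).2.2.1.toNat) = bv x + bv y := by
  induction j with
  | zero => simp [bv]
  | succ j ih =>
    rw [Function.iterate_succ_apply']
    generalize addStep^[j] (x, y, false, []) = s at ih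
    obtain ⟨a, b, c, o⟩ := s
    obtain ⟨rfl, rfl, h3, h4⟩ := ih
    simp only at h3 h4
    refine ⟨by simp [addStep], by simp [addStep], by simp [addStep, h3], ?_⟩
    simp only [addStep, bv_concat, h3, ← h4, ← List.tail_drop]
    rw [bv_head_tail (x.drop j), bv_head_tail (y.drop j)]
    cases (x.drop j).headD false <;> cases (y.drop j).headD false <;> cases c <;> simp <;> ring

theorem bv_addL (x y : List Bool) : bv (addL x y) = bv x + bv y := by
  obtain ⟨_, _, h3, h4⟩ := addStep_iter x y (x.length + y.length)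
  unfold addL addRun
  rw [bv_concat, h3, ← h4, List.drop_of_length_le (by omega), List.drop_of_length_le (by omega)]
  simp [bv]

theorem length_addL (x y : List Bool) : (addL x y).length = x.length + y.length + 1 := by
  unfold addL addRun
  rw [List.length_append, (addStep_iter x y _).2.2.1]
  rfl

def mulL (x y : List Bool) : List Bool :=
  x.reverse.foldl (fun acc b => addL (false :: acc) (bif b then y else [])) []

theorem bv_mulL (x y : List Bool) : bv (mulL x y) = bv x * bv y := by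
  unfold mulL
  rw [List.foldl_reverse]
  induction x with
  | nil => simp [bv]
  | cons b x ih =>
    rw [List.foldr_cons, bv_addL, bv_cons, ih, bv_cons]
    cases b
    · simp [bv]; ring
    · simp; ring

def leStep (s : List Bool × List Bool × Bool) : List Bool × List Bool × Bool :=
  (s.1.tail, s.2.1.tail, bif s.1.headD false == s.2.1.headD false then s.2.2 else s.2.1.headD false)

def leL (x y : List Bool) : Bool := (leStep^[x.length + y.length] (x, y, true)).2.2

theorem leStep_iter (x y : List Bool) (j : ℕ) :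
    (leStep^[j] (x, y, true)).1 = x.drop j ∧ (leStep^[j] (x, y, true)).2.1 = y.drop j ∧
    (bv x ≤ bv y ↔ bv (x.drop j) < bv (y.drop j) ∨
      (bv (x.drop j) = bv (y.drop j) ∧ (leStep^[j] (x, y, true)).2.2 = true)) := by
  induction j with
  | zero => simp; omega
  | succ j ih =>
    rw [Function.iterate_succ_apply']
    generalize leStep^[j] (x, y, true) = s at ih
    obtain ⟨a, b, c⟩ := s
    obtain ⟨rfl, rfl, h3⟩ := ih
    refine ⟨by simp [leStep], by simp [leStep], ?_⟩
    simp only [leStep, h3, ← List.tail_drop]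
    rw [bv_head_tail (x.drop j), bv_head_tail (y.drop j)]
    cases (x.drop j).headD false <;> cases (y.drop j).headD false <;> cases c <;> simp <;> omega

theorem leL_iff (x y : List Bool) : leL x y = true ↔ bv x ≤ bv y := by
  rw [(leStep_iter x y (x.length + y.length)).2.2, List.drop_of_length_le (by omega),
    List.drop_of_length_le (by omega)]
  simp [leL]

theorem len_bools (l : List Bool) : (enc l).length = 3 * l.length := by
  induction l with
  | nil => rfl
  | cons b l ih => rw [len_cons, ih, len_bool, List.length_cons]; ring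

theorem len_bin (b : Bin) : (enc b).length = 3 * b.v.size := by
  rw [← Nat.size_eq_bits_len]
  exact len_bools _

/-- Sum. -/
def add (a b : Bin) : Bin := ⟨a.v + b.v⟩
/-- Product. -/
def mul (a b : Bin) : Bin := ⟨a.v * b.v⟩
/-- Comparison. -/
def lt (a b : Bin) : Bool := decide (a.v < b.v)
/-- Sum of a list. -/
def sumL (l : List Bin) : Bin := ⟨(l.map Bin.v).sum⟩
/-- Product of a list. -/
def prodL (l : List Bin) : Bin := ⟨(l.map Bin.v).prod⟩

theorem size_add (a b : ℕ) : (a + b).size ≤ a.size + b.size + 1 := by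
  rw [Nat.size_le]
  have h1 := Nat.lt_size_self a
  have h2 := Nat.lt_size_self b
  have h3 : 2 ^ a.size ≤ 2 ^ (a.size + b.size) := Nat.pow_le_pow_right (by norm_num) (by omega)
  have h4 : 2 ^ b.size ≤ 2 ^ (a.size + b.size) := Nat.pow_le_pow_right (by norm_num) (by omega)
  rw [pow_succ]
  omega

theorem size_mul (a b : ℕ) : (a * b).size ≤ a.size + b.size := by
  rw [Nat.size_le, pow_add]
  exact Nat.mul_lt_mul'' (Nat.lt_size_self a) (Nat.lt_size_self b)

section
variable {α : Type} [Enc α]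

theorem pf_bits {f : α → Bin} (h : PF f) : PF fun a => Nat.bits (f a).v := h

theorem pf_norm {l : α → List Bool} (h : PF l) : PF fun a => norm (l a) := by
  unfold norm
  refine PF.foldl_add (st := fun _ acc b => bif acc.isEmpty && !b then [] else b :: acc)
    h.reverse (PF.const []) (by fun_prop) ⟨3, fun a b c _ => ?_⟩
  cases (b.isEmpty && !c) <;> simp
  omega

theorem pf_ofL {l : α → List Bool} (h : PF l) : PF fun a => (⟨bv (l a)⟩ : Bin) :=
  (pf_norm h).of_eq fun a => norm_eq (l a)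

@[fun_prop] theorem pf_addL {x y : α → List Bool} (hx : PF x) (hy : PF y) :
    PF fun a => addL (x a) (y a) := by
  have : PF fun a => addRun (x a) (y a) := by
    unfold addRun
    refine pf_iter_add (st := fun _ => addStep) (fun _ => 3) (by fun_prop) (by fun_prop)
      (by unfold addStep; fun_prop) (by fun_prop) fun a b => ?_
    obtain ⟨p, q, c, o⟩ := b
    simp only [addStep, len_prod, len_bools, len_bool, List.length_tail, List.length_append,
      List.length_singleton]
    omega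
  unfold addL
  exact PF.append this.snd.snd.snd (PF.cons this.snd.snd.fst (PF.const []))

theorem pf_mulL {x y : α → List Bool} (hx : PF x) (hy : PF y) : PF fun a => mulL (x a) (y a) := by
  unfold mulL
  obtain ⟨p, hp⟩ := hy.size
  refine PF.foldl_add (st := fun a acc b => addL (false :: acc) (bif b then y a else []))
    hx.reverse (PF.const []) (by fun_prop) ⟨p + 6, fun a b c _ => ?_⟩
  have := hp a _ le_rfl
  simp only [len_bools, length_addL, List.length_cons, Polynomial.eval_add,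
    Polynomial.eval_ofNat] at this ⊢
  cases c <;> simp <;> omega

theorem pf_leL {x y : α → List Bool} (hx : PF x) (hy : PF y) : PF fun a => leL (x a) (y a) := by
  unfold leL
  refine PF.snd (PF.snd (pf_iter_add (st := fun _ => leStep) (fun _ => 0) (by fun_prop)
    (by fun_prop) (by unfold leStep; fun_prop) (by fun_prop) fun a b => ?_))
  obtain ⟨p, q, c⟩ := b
  simp only [leStep, len_prod, len_bools, len_bool, List.length_tail]
  omega

@[fun_prop] theorem pf_add {x y : α → Bin} (hx : PF x) (hy : PF y) :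
    PF fun a => add (x a) (y a) :=
  (pf_ofL (pf_addL (pf_bits hx) (pf_bits hy))).of_eq fun a => by
    simp [add, bv_addL, bv_bits]

@[fun_prop] theorem pf_mul {x y : α → Bin} (hx : PF x) (hy : PF y) :
    PF fun a => mul (x a) (y a) :=
  (pf_ofL (pf_mulL (pf_bits hx) (pf_bits hy))).of_eq fun a => by
    simp [mul, bv_mulL, bv_bits]

@[fun_prop] theorem pf_lt {x y : α → Bin} (hx : PF x) (hy : PF y) :
    PF fun a => lt (x a) (y a) :=
  (pf_leL (pf_bits hy) (pf_bits hx)).not'.of_eq fun a => by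
    rw [Bool.eq_iff_iff, Bool.not_eq_true', Bool.eq_false_iff, ne_eq, leL_iff]
    simp [lt, bv_bits]

@[fun_prop] theorem pf_mk {n : α → ℕ} (hn : PF n) : PF fun a => (⟨n a⟩ : Bin) := by
  have key : ∀ j : ℕ, (fun b : Bin => add b ⟨1⟩)^[j] ⟨0⟩ = ⟨j⟩ := by
    intro j
    induction j with
    | zero => rfl
    | succ j ih => rw [Function.iterate_succ_apply', ih]; rfl
  obtain ⟨p, hp⟩ := hn.size
  refine (PF.iterate (st := fun _ (b : Bin) => add b ⟨1⟩) hn (PF.const ⟨0⟩)
    (pf_add (by fun_prop) (PF.const (⟨1⟩ : Bin))) ⟨3 * p, fun a j hj => ?_⟩).of_eq fun a => key _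
  have h1 := hp a _ le_rfl
  have h2 : j.size ≤ j := Nat.size_le.2 Nat.lt_two_pow_self
  rw [key, len_bin]
  simp only [len_nat, Polynomial.eval_mul, Polynomial.eval_ofNat] at h1 ⊢
  omega

@[fun_prop] theorem pf_sumL {l : α → List Bin} (hl : PF l) : PF fun a => sumL (l a) := by
  obtain ⟨p, hp⟩ := hl.size
  refine (PF.foldl_add (st := fun _ b c => add b c) hl (PF.const ⟨0⟩) (by fun_prop)
    ⟨p + 3, fun a b c hc => ?_⟩).of_eq fun a => ?_
  · have h1 := (len_le_of_mem hc).trans (hp a _ le_rfl)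
    have h2 := size_add b.v c.v
    simp only [len_bin, add, Polynomial.eval_add, Polynomial.eval_ofNat] at h1 ⊢
    omega
  · have : ∀ (m : List Bin) (b : Bin), m.foldl add b = ⟨b.v + (m.map Bin.v).sum⟩ := by
      intro m
      induction m with
      | nil => simp
      | cons c m ih => intro b; simp [ih, add, add_assoc]
    simpa [sumL] using this (l a) ⟨0⟩

@[fun_prop] theorem pf_prodL {l : α → List Bin} (hl : PF l) : PF fun a => prodL (l a) := by
  obtain ⟨p, hp⟩ := hl.size
  refine (PF.foldl_add (st := fun _ b c => mul b c) hl (PF.const ⟨1⟩) (by fun_prop)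
    ⟨p, fun a b c hc => ?_⟩).of_eq fun a => ?_
  · have h1 := (len_le_of_mem hc).trans (hp a _ le_rfl)
    have h2 := size_mul b.v c.v
    simp only [len_bin, mul] at h1 ⊢
    omega
  · have : ∀ (m : List Bin) (b : Bin), m.foldl mul b = ⟨b.v * (m.map Bin.v).prod⟩ := by
      intro m
      induction m with
      | nil => simp
      | cons c m ih => intro b; simp [ih, mul, mul_assoc]
    simpa [prodL] using this (l a) ⟨1⟩

end

end Bin

end Pool.Agent.Lib.MP_959bb6_lc
end

-- part Pool.Agent.Lib.MP_959bb6_lc.Metric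
section

/-!
Rounding a Euclidean instance to an integer metric with a packing bound.
-/

set_option autoImplicit false

namespace Pool.Agent.Lib.MP_959bb6_lc

open Pool.Agent.Shared.PolyTime Enc Finset

namespace Rd

/-- Encoded point lists. -/
abbrev Pts : Type := List (List (Bool × Bin × Bin))

def co (P : Pts) (i j : ℕ) : Bool × Bin × Bin := (P.getD i []).getD j (false, ⟨0⟩, ⟨1⟩)

def sc (d : ℕ) (P : Pts) (i j : ℕ) : Bin :=
  Bin.prodL (tab P.length fun i' => tab d fun j' =>
    bif i' == i && j' == j then (co P i j).2.1 else (co P i' j').2.2).flatten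

def two (d : ℕ) (P : Pts) (u v j : ℕ) : Bin := Bin.mul ⟨2⟩ (Bin.mul (sc d P u j) (sc d P v j))

def pp (d : ℕ) (P : Pts) (u v : ℕ) : Bin :=
  Bin.sumL (tab d fun j => Bin.add (Bin.add (Bin.mul (sc d P u j) (sc d P u j))
    (Bin.mul (sc d P v j) (sc d P v j)))
      (bif (co P u j).1 == (co P v j).1 then ⟨0⟩ else two d P u v j))

def nn (d : ℕ) (P : Pts) (u v : ℕ) : Bin :=
  Bin.sumL (tab d fun j => bif (co P u j).1 == (co P v j).1 then two d P u v j else ⟨0⟩)

def cmp (d L : ℕ) (P : Pts) (u v j a b : ℕ) : Bool :=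
  Bin.lt (Bin.add (Bin.mul ⟨j * j⟩ (pp d P a b)) (Bin.mul ⟨L * L⟩ (nn d P u v)))
    (Bin.add (Bin.mul ⟨L * L⟩ (pp d P u v)) (Bin.mul ⟨j * j⟩ (nn d P a b)))

def cA (d L : ℕ) (P : Pts) (u v : ℕ) : ℕ :=
  (cntB L fun j => !(anyB P.length fun a => anyB P.length fun b => !(cmp d L P u v j a b))) +
    (u - v) + (v - u)

def kA (k : Bin) (n : ℕ) : ℕ := cntB n fun j => Bin.lt ⟨j⟩ k

section
variable {α : Type} [Enc α]

@[fun_prop] theorem pf_co {P : α → Pts} {i j : α → ℕ} (h1 : PF P) (h2 : PF i) (h3 : PF j) :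
    PF fun a => co (P a) (i a) (j a) := by unfold co; fun_prop
@[fun_prop] theorem pf_sc (d : ℕ) {P : α → Pts} {i j : α → ℕ} (h1 : PF P) (h2 : PF i)
    (h3 : PF j) : PF fun a => sc d (P a) (i a) (j a) := by unfold sc; fun_prop
@[fun_prop] theorem pf_two (d : ℕ) {P : α → Pts} {u v j : α → ℕ} (h1 : PF P) (h2 : PF u)
    (h3 : PF v) (h4 : PF j) : PF fun a => two d (P a) (u a) (v a) (j a) := by
  unfold two; fun_prop
@[fun_prop] theorem pf_pp (d : ℕ) {P : α → Pts} {u v : α → ℕ} (h1 : PF P) (h2 : PF u)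
    (h3 : PF v) : PF fun a => pp d (P a) (u a) (v a) := by unfold pp; fun_prop
@[fun_prop] theorem pf_nn (d : ℕ) {P : α → Pts} {u v : α → ℕ} (h1 : PF P) (h2 : PF u)
    (h3 : PF v) : PF fun a => nn d (P a) (u a) (v a) := by unfold nn; fun_prop
@[fun_prop] theorem pf_cmp (d : ℕ) {P : α → Pts} {L u v j x y : α → ℕ} (h0 : PF L) (h1 : PF P)
    (h2 : PF u) (h3 : PF v) (h4 : PF j) (h5 : PF x) (h6 : PF y) :
    PF fun a => cmp d (L a) (P a) (u a) (v a) (j a) (x a) (y a) := by unfold cmp; fun_prop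
@[fun_prop] theorem pf_cA (d : ℕ) {P : α → Pts} {L u v : α → ℕ} (h0 : PF L) (h1 : PF P)
    (h2 : PF u) (h3 : PF v) : PF fun a => cA d (L a) (P a) (u a) (v a) := by unfold cA; fun_prop
@[fun_prop] theorem pf_kA {k : α → Bin} {n : α → ℕ} (h0 : PF k) (h1 : PF n) :
    PF fun a => kA (k a) (n a) := by unfold kA; fun_prop

end

theorem kA_eq {k n : ℕ} (h : k ≤ n) : kA ⟨k⟩ n = k := by
  unfold kA
  rw [cntB_eq]
  have : (range n).filter (fun j => Bin.lt ⟨j⟩ ⟨k⟩ = true) = range k := by
    ext j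
    simp only [mem_filter, mem_range, Bin.lt, decide_eq_true_eq]
    omega
  rw [this, card_range]

variable {d : ℕ}

/-- The encoded points of an instance. -/
def pts (I : Inst d) : Pts := List.ofFn fun i => List.ofFn fun j =>
  (decide ((I.pt i j).num < 0), ⟨(I.pt i j).num.natAbs⟩, ⟨(I.pt i j).den⟩)

theorem encList_map {A B : Type} (e : B → List Bool) (f : A → B) (l : List A) :
    encList e (l.map f) = encList (fun a => e (f a)) l := by
  induction l with
  | nil => rfl
  | cons a l ih => simp [encList, ih]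

theorem code_eq (I : Inst d) : I.code = enc ((⟨I.k⟩ : Bin), pts I) := by
  unfold Inst.code pts
  rw [enc_prod, enc_list]
  congr 1
  simp only [List.ofFn_eq_map, encList_map, enc_list]
  rfl

theorem length_pts (I : Inst d) : (pts I).length = I.n := by simp [pts]

theorem co_pts (I : Inst d) (i : Fin I.n) (j : Fin d) : co (pts I) i j =
    (decide ((I.pt i j).num < 0), ⟨(I.pt i j).num.natAbs⟩, ⟨(I.pt i j).den⟩) := by
  simp [co, pts, List.getD_eq_getElem?_getD]

/-- The common denominator. -/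
def den (I : Inst d) : ℕ := ∏ p ∈ range I.n ×ˢ range d, (co (pts I) p.1 p.2).2.2.v

theorem den_pos (I : Inst d) : 0 < den I := by
  refine prod_pos fun p hp => ?_
  obtain ⟨h1, h2⟩ := mem_product.1 hp
  have := co_pts I ⟨p.1, mem_range.1 h1⟩ ⟨p.2, mem_range.1 h2⟩
  simp only at this
  rw [this]
  exact (I.pt _ _).den_pos

theorem prod_tab (N : ℕ) (f : ℕ → ℕ) : (tab N f).prod = ∏ i ∈ range N, f i := by
  induction N with
  | zero => simp [tab]
  | succ N ih =>
    rw [prod_range_succ, ← ih]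
    simp [tab, List.range_succ]

theorem map_tab {A B : Type} (g : A → B) (N : ℕ) (f : ℕ → A) :
    (tab N f).map g = tab N fun i => g (f i) := by simp [tab]

theorem sc_eq (I : Inst d) (i : Fin I.n) (j : Fin d) :
    ((sc d (pts I) i j).v : ℝ) = |(I.pt i j : ℝ)| * den I := by
  have h1 : (sc d (pts I) i j).v = ∏ p ∈ range I.n ×ˢ range d,
      if p = (i.1, j.1) then (I.pt i j).num.natAbs else (co (pts I) p.1 p.2).2.2.v := by
    simp only [sc, Bin.prodL, List.map_flatten, List.prod_flatten, map_tab, prod_tab, length_pts]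
    rw [prod_product]
    refine prod_congr rfl fun a _ => prod_congr rfl fun b _ => ?_
    by_cases h : (a, b) = (i.1, j.1)
    · obtain ⟨rfl, rfl⟩ := Prod.mk.inj h
      simp [co_pts]
    · have : (a == i.1 && b == j.1) = false := by
        rw [Bool.eq_false_iff]
        simpa using h
      simp [this, h]
  have hm : (i.1, j.1) ∈ range I.n ×ˢ range d := by simp
  have h2 := mul_prod_erase _ (fun p : ℕ × ℕ => (co (pts I) p.1 p.2).2.2.v) hm
  rw [← mul_prod_erase _ _ hm, if_pos rfl, prod_congr rfl fun p hp => if_neg (mem_erase.1 hp).1]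
    at h1
  simp only [co_pts] at h2
  unfold den
  rw [h1, ← h2]
  push_cast
  have h3 : |(I.pt i j : ℝ)| * (I.pt i j).den = |((I.pt i j).num : ℝ)| := by
    rw [Rat.cast_def, abs_div, abs_of_pos (a := ((I.pt i j).den : ℝ))
      (by exact_mod_cast (I.pt i j).den_pos)]
    have : ((I.pt i j).den : ℝ) ≠ 0 := by exact_mod_cast (I.pt i j).den_nz
    field_simp
  rw [← mul_assoc, h3, Nat.cast_natAbs]
  simp

theorem pp_nn (I : Inst d) (u v : Fin I.n) :
    ((pp d (pts I) u v).v : ℝ) =
      (nn d (pts I) u v).v + (den I : ℝ) ^ 2 * dist (I.point u) (I.point v) ^ 2 := by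
  simp only [pp, nn, Bin.sumL, map_tab, sum_tab]
  rw [EuclideanSpace.dist_sq_eq, mul_sum, sum_range, sum_range]
  push_cast
  rw [← sum_add_distrib]
  refine sum_congr rfl fun j _ => ?_
  have h1 := sc_eq I u j
  have h2 := sc_eq I v j
  have s1 : ∀ w : Fin I.n, (I.pt w j : ℝ) =
      if (I.pt w j).num < 0 then -|(I.pt w j : ℝ)| else |(I.pt w j : ℝ)| := by
    intro w
    split_ifs with h
    · rw [abs_of_neg (by exact_mod_cast Rat.num_neg.1 h), neg_neg]
    · rw [abs_of_nonneg (by exact_mod_cast Rat.num_nonneg.1 (not_lt.1 h))]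
  have e1 := s1 u
  have e2 := s1 v
  simp only [co_pts, Inst.point, Real.dist_eq, sq_abs, Bin.add, Bin.mul, two]
  generalize |(I.pt u j : ℝ)| = A at *
  generalize |(I.pt v j : ℝ)| = B at *
  rw [e1, e2]
  by_cases c1 : (I.pt u j).num < 0 <;> by_cases c2 : (I.pt v j).num < 0 <;>
    simp [c1, c2, h1, h2] <;> ring

/-- Rounded distances for a scale `lam`. -/
noncomputable def cM (I : Inst d) (lam : ℝ) (u v : ℕ) : ℕ :=
  (if h : u < I.n ∧ v < I.n then ⌈lam * dist (I.point ⟨u, h.1⟩) (I.point ⟨v, h.2⟩)⌉₊ else 0) +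
    (u - v) + (v - u)

theorem cM_eq (I : Inst d) (lam : ℝ) (u v : Fin I.n) :
    cM I lam u v = ⌈lam * dist (I.point u) (I.point v)⌉₊ + (u - v : ℕ) + (v - u : ℕ) := by
  simp [cM]

theorem cA_eq (I : Inst d) {L : ℕ} {Δ : ℝ} (hΔ : 0 < Δ)
    (h1 : ∀ a b, dist (I.point a) (I.point b) ≤ Δ) (h2 : ∃ a b, dist (I.point a) (I.point b) = Δ)
    (u v : Fin I.n) : cA d L (pts I) u v = cM I (L / Δ) u v := by
  rw [cM_eq, cA, cntB_eq, length_pts]
  congr 2
  have hD : (0 : ℝ) < (den I : ℝ) ^ 2 := by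
    have : (0 : ℝ) < den I := by exact_mod_cast den_pos I
    positivity
  have key : ∀ (j : ℕ) (a b : Fin I.n), cmp d L (pts I) u v j a b = true ↔
      j * dist (I.point a) (I.point b) < L * dist (I.point u) (I.point v) := by
    intro j a b
    unfold cmp Bin.lt
    rw [decide_eq_true_eq]
    simp only [Bin.add, Bin.mul]
    rw [← Nat.cast_lt (α := ℝ)]
    push_cast
    have e := (mul_lt_mul_iff_right₀ hD).trans (sq_lt_sq₀
      (a := j * dist (I.point a) (I.point b)) (b := L * dist (I.point u) (I.point v))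
      (by positivity) (by positivity))
    rw [pp_nn, pp_nn, ← e]
    constructor <;> intro h <;> linarith
  have hy : L / Δ * dist (I.point u) (I.point v) ≤ L := by
    rw [div_mul_eq_mul_div, div_le_iff₀ hΔ]
    exact mul_le_mul_of_nonneg_left (h1 u v) (Nat.cast_nonneg _)
  have hc := Nat.ceil_le.2 hy
  rw [← card_range ⌈_⌉₊]
  congr 1
  ext j
  simp only [mem_filter, mem_range, Bool.not_eq_true', Bool.eq_false_iff, ne_eq, anyB_iff,
    not_exists, not_and, not_not]
  have e : j < ⌈L / Δ * dist (I.point u) (I.point v)⌉₊ ↔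
      j * Δ < L * dist (I.point u) (I.point v) := by
    rw [Nat.lt_ceil, div_mul_eq_mul_div, lt_div_iff₀ hΔ]
  constructor
  · rintro ⟨_, h⟩
    obtain ⟨a, b, hab⟩ := h2
    rw [e, ← hab]
    exact (key j a b).1 (h a a.2 b b.2)
  · intro h
    refine ⟨by omega, fun a ha b hb => (key j ⟨a, ha⟩ ⟨b, hb⟩).2 ?_⟩
    exact lt_of_le_of_lt (mul_le_mul_of_nonneg_left (h1 _ _) (Nat.cast_nonneg _)) (e.1 h)

theorem isMet_cM (I : Inst d) {lam : ℝ} (h : 0 ≤ lam) : IsMet I.n (cM I lam) := by
  refine ⟨fun u hu => by simp [cM, hu], fun u v hu hv => ?_, fun u v w hu hv hw => ?_,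
    fun u v _ _ huv => by unfold cM; omega⟩
  · simp only [cM, hu, hv, and_self, dif_pos, dist_comm (I.point ⟨u, hu⟩)]
    omega
  · simp only [cM, hu, hv, hw, and_self, dif_pos]
    have h1 := mul_le_mul_of_nonneg_left
      (dist_triangle (I.point ⟨u, hu⟩) (I.point ⟨v, hv⟩) (I.point ⟨w, hw⟩)) h
    rw [mul_add] at h1
    have := (Nat.ceil_mono h1).trans (Nat.ceil_add_le _ _)
    omega

/-- The packing bound in dimension `d`. -/
def JJ (d M : ℕ) : ℕ := (8 * M * (d + 2) + 1) ^ (d + 1) + 8 * M + 1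

theorem floor_close {a b h : ℝ} (hh : 0 < h) (ha : 0 ≤ a) (hb : 0 ≤ b)
    (e : ⌊a / h⌋₊ = ⌊b / h⌋₊) : |a - b| ≤ h := by
  have h1 := Nat.floor_le (div_nonneg ha hh.le)
  have h2 := Nat.floor_le (div_nonneg hb hh.le)
  have h3 := Nat.lt_floor_add_one (a / h)
  have h4 := Nat.lt_floor_add_one (b / h)
  rw [e] at h1 h3
  rw [le_div_iff₀ hh] at h1 h2
  rw [div_lt_iff₀ hh] at h3 h4
  rw [abs_le]
  constructor <;> nlinarith

theorem doubling_cM (I : Inst d) {lam : ℝ} (hl : 0 ≤ lam) : Doubling (JJ d) I.n (cM I lam) := by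
  classical
  intro M u ρ P hu hP h1 h2
  have hidx : P.card ≤ 2 * ρ + 1 := by
    refine le_trans (card_le_card (t := Icc (u - ρ) (u + ρ)) fun p hp => ?_) ?_
    · have := h1 p hp
      unfold cM at this
      rw [mem_Icc]
      omega
    · rw [Nat.card_Icc]; omega
  unfold JJ
  by_cases hs : ρ < 4 * M ∨ ρ = 0
  · omega
  push Not at hs
  rcases Nat.eq_zero_or_pos M with rfl | hM
  · have : P.card ≤ 1 := card_le_one.2 fun p hp q hq => by
      by_contra hne
      have := h2 p hp q hq hne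
      omega
    omega
  refine le_trans ?_ (Nat.le_add_right_of_le (Nat.le_add_right _ _))
  have hM' : (1 : ℝ) ≤ M := by exact_mod_cast hM
  have hρ : (4 * M : ℝ) ≤ ρ := by exact_mod_cast hs.1
  set h : ℝ := ρ / (4 * M * (d + 2)) with hh
  have hpos : 0 < h := by apply div_pos <;> [linarith; positivity]
  have hhρ : h * (4 * M * (d + 2)) = ρ := by rw [hh]; field_simp
  set X : ℕ → EuclideanSpace ℝ (Fin d) := fun p =>
    if hp : p < I.n then I.point ⟨p, hp⟩ else 0 with hX
  have hc : ∀ p q, p < I.n → q < I.n →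
      cM I lam p q = ⌈lam * dist (X p) (X q)⌉₊ + (p - q) + (q - p) := by
    intro p q hp hq
    simp [cM, hX, hp, hq]
  have habs : ∀ p q : ℕ, (((p - q : ℕ) : ℝ) + (q - p : ℕ)) = |(p : ℝ) - q| := by
    intro p q
    rcases le_total p q with h | h
    · rw [Nat.sub_eq_zero_of_le h, Nat.cast_sub h, abs_sub_comm,
        abs_of_nonneg (sub_nonneg.2 (by exact_mod_cast h))]
      simp
    · rw [Nat.sub_eq_zero_of_le h, Nat.cast_sub h,
        abs_of_nonneg (sub_nonneg.2 (by exact_mod_cast h))]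
      simp
  have hb : ∀ p ∈ P, (∀ j, |lam * X p j - lam * X u j| ≤ ρ) ∧ |(p : ℝ) - u| ≤ ρ := by
    intro p hp
    have e1 := h1 p hp
    rw [hc u p hu (mem_range.1 (hP hp))] at e1
    refine ⟨fun j => ?_, ?_⟩
    · have e2 : lam * dist (X u) (X p) ≤ ρ := Nat.ceil_le.1 (by omega)
      rw [← mul_sub, abs_mul, abs_of_nonneg hl, abs_sub_comm, ← Real.dist_eq]
      exact le_trans (mul_le_mul_of_nonneg_left (PiLp.dist_apply_le _ _ j) hl) e2
    · rw [← habs]
      exact_mod_cast (by omega : p - u + (u - p) ≤ ρ)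
  have hfl : ∀ a : ℝ, |a| ≤ ρ → ⌊(a + ρ) / h⌋₊ ∈ range (8 * M * (d + 2) + 1) := by
    intro a ha
    rw [mem_range, Nat.lt_succ_iff]
    refine Nat.floor_le_of_le ?_
    rw [div_le_iff₀ hpos]
    push_cast
    have := (abs_le.1 ha).2
    linarith
  refine le_trans (card_le_card_of_injOn (t := (Fintype.piFinset fun _ : Fin d =>
      range (8 * M * (d + 2) + 1)) ×ˢ range (8 * M * (d + 2) + 1))
    (fun p => (fun j => ⌊(lam * X p j - lam * X u j + ρ) / h⌋₊, ⌊((p : ℝ) - u + ρ) / h⌋₊))
    (fun p hp => ?_) fun p hp q hq e => ?_) (le_of_eq (by simp [pow_succ]))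
  · obtain ⟨b1, b2⟩ := hb p hp
    exact mem_coe.2 (mem_product.2 ⟨Fintype.mem_piFinset.2 fun j => hfl _ (b1 j), hfl _ b2⟩)
  · by_contra hne
    obtain ⟨b1, b2⟩ := hb p hp
    obtain ⟨b3, b4⟩ := hb q hq
    obtain ⟨e1, e2⟩ := Prod.mk.inj e
    have nn : ∀ a : ℝ, |a| ≤ ρ → 0 ≤ a + ρ := fun a ha => by linarith [(abs_le.1 ha).1]
    have f1 : ∀ j, |lam * X p j - lam * X q j| ≤ h := fun j => by
      have := floor_close hpos (nn _ (b1 j)) (nn _ (b3 j)) (congrFun e1 j)
      convert this using 2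
      ring
    have f2 : |(p : ℝ) - q| ≤ h := by
      have := floor_close hpos (nn _ b2) (nn _ b4) e2
      convert this using 2
      ring
    have f3 : lam * dist (X p) (X q) ≤ (d + 1) * h := by
      refine (sq_le_sq₀ (by positivity) (by positivity)).1 ?_
      rw [mul_pow, EuclideanSpace.dist_sq_eq, mul_sum]
      refine le_trans (sum_le_card_nsmul _ _ (h ^ 2) fun j _ => ?_) ?_
      · rw [Real.dist_eq, sq_abs, ← mul_pow, mul_sub]
        exact sq_le_sq' (abs_le.1 (f1 j)).1 (abs_le.1 (f1 j)).2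
      · simp only [card_univ, Fintype.card_fin, nsmul_eq_mul]
        have : (0 : ℝ) ≤ d := Nat.cast_nonneg _
        nlinarith [sq_nonneg h, mul_nonneg this (sq_nonneg h),
          mul_nonneg (mul_nonneg this this) (sq_nonneg h)]
    have f4 := h2 p hp q hq hne
    rw [hc p q (mem_range.1 (hP hp)) (mem_range.1 (hP hq))] at f4
    have f5 := Nat.ceil_lt_add_one (mul_nonneg hl (dist_nonneg (x := X p) (y := X q)))
    have f6 : (ρ : ℝ) ≤ M * (⌈lam * dist (X p) (X q)⌉₊ + (((p - q : ℕ) : ℝ) + (q - p : ℕ))) := by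
      rw [← add_assoc]; exact_mod_cast f4
    rw [habs] at f6
    have f7 : (⌈lam * dist (X p) (X q)⌉₊ : ℝ) + |(p : ℝ) - q| ≤ (d + 2) * h + 1 := by linarith
    have f8 := mul_le_mul_of_nonneg_left f7 (zero_le_one.trans hM')
    nlinarith

end Rd

end Pool.Agent.Lib.MP_959bb6_lc
end

-- part Pool.Agent.Lib.MP_959bb6_lc.Reduce
section

/-!
From the combinatorial core on integer metrics to Euclidean instances.
-/

set_option autoImplicit false

namespace Pool.Agent.Lib.MP_959bb6_lc

open Pool.Agent.Shared.PolyTime Enc Finset Filter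

theorem tab_congr {β : Type} {n : ℕ} {f g : ℕ → β} (h : ∀ i, i < n → f i = g i) :
    tab n f = tab n g := List.map_congr_left fun i hi => h i (List.mem_range.1 hi)

theorem tab2_congr {β : Type} {n : ℕ} {f g : ℕ → ℕ → β}
    (h : ∀ i j, i < n → j < n → f i j = g i j) : tab2 n f = tab2 n g :=
  List.map_congr_left fun i hi => List.map_congr_left fun j hj =>
    h i j (List.mem_range.1 hi) (List.mem_range.1 hj)

namespace Rd

/-- The guarantee of a core algorithm on a range of parameters. -/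
def CoreOn (P : (n k : ℕ) → SimpleGraph (Fin n) → Prop) (J : ℕ → ℕ) (δ : ℕ) (R : ℕ → ℕ → Prop)
    (alg : ℕ × List (List ℕ) → List (List Bool)) : Prop :=
  ∀ (n k : ℕ) (c : ℕ → ℕ → ℕ), IsMet n c → Doubling J n c → R n k → k < n →
    ∀ G : SimpleGraph (Fin n), P n k G →
      P n k (graphOf n (alg (k, tab2 n c))) ∧
        δ * costN n c (graphOf n (alg (k, tab2 n c))) ≤ (δ + 1) * costN n c G

variable {d : ℕ}

open Classical in
/-- Twice the cost. -/
noncomputable def cost2 (I : Inst d) (G : SimpleGraph (Fin I.n)) : ℝ :=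
  ∑ i, ∑ j, if G.Adj i j then dist (I.point i) (I.point j) else 0

theorem cost2_eq (I : Inst d) (G : SimpleGraph (Fin I.n)) : cost2 I G = 2 * I.cost G := by
  classical
  unfold cost2 Inst.cost
  rw [two_mul]
  nth_rewrite 2 [sum_comm]
  simp only [← sum_add_distrib]
  refine sum_congr rfl fun i _ => sum_congr rfl fun j _ => ?_
  rcases lt_trichotomy i j with h | h | h
  · simp [h, h.not_gt]
  · simp [h]
  · simp [h, h.not_gt, G.adj_comm, dist_comm]

theorem cost2_nonneg (I : Inst d) (G : SimpleGraph (Fin I.n)) : 0 ≤ cost2 I G :=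
  sum_nonneg fun _ _ => sum_nonneg fun _ _ => by split_ifs <;> simp

theorem dist_le_cost2 (I : Inst d) {G : SimpleGraph (Fin I.n)} (h : G.Preconnected)
    (a b : Fin I.n) : dist (I.point a) (I.point b) ≤ cost2 I G := by
  classical
  obtain ⟨p⟩ := h a b
  have h1 : ∀ {a b : Fin I.n} (p : G.Walk a b), dist (I.point a) (I.point b) ≤
      (p.darts.map fun e => dist (I.point e.fst) (I.point e.snd)).sum := by
    intro a b p
    induction p with
    | nil => simp
    | cons _ p ih =>
      simp only [SimpleGraph.Walk.darts_cons, List.map_cons, List.sum_cons]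
      exact (dist_triangle _ _ _).trans (add_le_add_right ih _)
  refine (h1 p.bypass).trans ?_
  rw [← List.sum_toFinset _ (SimpleGraph.Walk.darts_nodup_of_support_nodup
    p.bypass_isPath.support_nodup)]
  unfold cost2
  rw [← sum_product', ← sum_filter, ← sum_image (s := p.bypass.darts.toFinset)
    (g := fun e : G.Dart => e.toProd) (f := fun x => dist (I.point x.1) (I.point x.2))
    fun x _ y _ e => SimpleGraph.Dart.ext _ _ e]
  refine sum_le_sum_of_subset_of_nonneg (fun x hx => ?_) fun _ _ _ => dist_nonneg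
  obtain ⟨e, _, rfl⟩ := mem_image.1 hx
  exact mem_filter.2 ⟨by simp, e.adj⟩

theorem costN_ge (I : Inst d) (lam : ℝ) (G : SimpleGraph (Fin I.n)) :
    lam * cost2 I G ≤ costN I.n (cM I lam) G := by
  classical
  unfold cost2 costN
  push_cast
  simp only [mul_sum]
  refine sum_le_sum fun i _ => sum_le_sum fun j _ => ?_
  split_ifs
  · rw [cM_eq]
    push_cast
    have := Nat.le_ceil (lam * dist (I.point i) (I.point j))
    have h1 : (0 : ℝ) ≤ ((i - j : ℕ) : ℝ) := Nat.cast_nonneg _
    have h2 : (0 : ℝ) ≤ ((j - i : ℕ) : ℝ) := Nat.cast_nonneg _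
    linarith
  · simp

theorem costN_le (I : Inst d) {lam : ℝ} (h : 0 ≤ lam) (G : SimpleGraph (Fin I.n)) :
    (costN I.n (cM I lam) G : ℝ) ≤ lam * cost2 I G + (I.n ^ 2 * (I.n + 1) : ℕ) := by
  classical
  have : ((I.n ^ 2 * (I.n + 1) : ℕ) : ℝ) = ∑ _i : Fin I.n, ∑ _j : Fin I.n, (I.n + 1 : ℝ) := by
    simp; ring
  unfold cost2 costN
  rw [this]
  push_cast
  simp only [mul_sum, ← sum_add_distrib]
  refine sum_le_sum fun i _ => sum_le_sum fun j _ => ?_
  split_ifs
  · rw [cM_eq]
    have h1 := Nat.ceil_lt_add_one (mul_nonneg h (dist_nonneg (x := I.point i) (y := I.point j)))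
    have h2 : (((i - j : ℕ) + (j - i : ℕ) : ℕ) : ℝ) ≤ I.n := by
      exact_mod_cast (by omega : (i - j : ℕ) + (j - i : ℕ) ≤ I.n)
    push_cast at h2 ⊢
    linarith
  · simp only [mul_zero, zero_add]
    positivity

theorem transfer {P : (n k : ℕ) → SimpleGraph (Fin n) → Prop}
    (hlt : ∀ n k G, P n k G → 2 ≤ n → k < n)
    (hcon : ∀ n k G, P n k G → 1 ≤ k → G.Preconnected)
    (hsmall : ∀ n k G G', n ≤ 1 → P n k G → P n k G')
    (hzero : ∀ n G, P n 0 G) {δ : ℕ} {R : ℕ → ℕ → Prop}
    {alg : ℕ × List (List ℕ) → List (List Bool)} (hpf : PF alg) (h : CoreOn P (JJ d) δ R alg)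
    {ε : ℝ} (hδ : 0 < δ) (hε : ((δ : ℝ) + 1) ^ 2 ≤ (1 + ε) * δ ^ 2) :
    Approximable d P (fun I => R I.n I.k) ε := by
  classical
  set run : Bin × Pts → List (List Bool) := fun x => alg (kA x.1 x.2.length,
    tab2 x.2.length (cA d (δ * (x.2.length ^ 2 * (x.2.length + 1))) x.2)) with hrun
  have h1 : PF run := hpf.comp (by fun_prop)
  have h2 : PF fun x : Bin × Pts => tab2 x.2.length fun i j =>
      !(i == j) && (entry (run x) i j || entry (run x) j i) :=
    pf_tab2 (by fun_prop) (PF.and' (by fun_prop) (PF.or'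
      (PF.entry (h1.comp (by fun_prop)) (by fun_prop) (by fun_prop))
      (PF.entry (h1.comp (by fun_prop)) (by fun_prop) (by fun_prop))))
  refine ⟨fun I => graphOf I.n (run (⟨I.k⟩, pts I)),
    PF.tm2 h2 _ _ _ (fun I => (⟨I.k⟩, pts I)) code_eq fun I => ?_, fun I hR G hG => ?_⟩
  · rw [encGraph_eq, adjMatrix_eq _ fun i j =>
      !(i == j) && (entry (run (⟨I.k⟩, pts I)) i j || entry (run (⟨I.k⟩, pts I)) j i)]
    · simp only [length_pts]; rfl
    · intro i j
      simp [graphOf, Fin.ext_iff]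
  have hδ' : (0 : ℝ) < δ := by exact_mod_cast hδ
  have hε0 : 0 ≤ 1 + ε := by
    by_contra hc
    have := mul_neg_of_neg_of_pos (not_le.1 hc) (pow_pos hδ' 2)
    nlinarith [sq_nonneg ((δ : ℝ) + 1)]
  rcases lt_or_ge I.n 2 with hn | hn
  · refine ⟨hsmall _ _ _ _ (by omega) hG, ?_⟩
    have z : ∀ G : SimpleGraph (Fin I.n), I.cost G = 0 := fun G =>
      sum_eq_zero fun i _ => sum_eq_zero fun j _ => if_neg fun h => by
        have := h.1; omega
    simp [z]
  have hk := hlt _ _ _ hG hn
  obtain ⟨⟨a, b⟩, _, hab⟩ := exists_max_image (univ : Finset (Fin I.n × Fin I.n))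
    (fun x => dist (I.point x.1) (I.point x.2)) ⟨(⟨0, by omega⟩, ⟨0, by omega⟩), mem_univ _⟩
  set Δ := dist (I.point a) (I.point b) with hΔ
  have hΔ0 : 0 < Δ := by
    refine lt_of_lt_of_le (dist_pos.2 fun e => ?_) (hab (⟨0, by omega⟩, ⟨1, by omega⟩) (mem_univ _))
    have : I.pt ⟨0, by omega⟩ = I.pt ⟨1, by omega⟩ := by
      funext j
      have := congrArg (fun x : EuclideanSpace ℝ (Fin d) => x j) e
      simpa [Inst.point] using this
    simpa using I.inj this
  set L := δ * (I.n ^ 2 * (I.n + 1)) with hL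
  have hL0 : (0 : ℝ) < L := by
    have : 0 < L := by positivity
    exact_mod_cast this
  have hl : 0 < (L : ℝ) / Δ := div_pos hL0 hΔ0
  have e : run (⟨I.k⟩, pts I) = alg (I.k, tab2 I.n (cM I (L / Δ))) := by
    simp only [hrun, length_pts, kA_eq hk.le]
    congr 2
    exact tab2_congr fun i j hi hj => cA_eq I hΔ0 (fun a b => hab (a, b) (mem_univ _))
      ⟨a, b, rfl⟩ ⟨i, hi⟩ ⟨j, hj⟩
  have hs := h I.n I.k _ (isMet_cM I hl.le) (doubling_cM I hl.le) hR hk
  simp only [e]
  refine ⟨(hs G hG).1, ?_⟩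
  generalize graphOf I.n (alg (I.k, tab2 I.n (cM I (L / Δ)))) = A at hs
  have g1 := costN_ge I (L / Δ) A
  have g0 := cost2_nonneg I G
  suffices cost2 I A ≤ (1 + ε) * cost2 I G by
    rw [cost2_eq, cost2_eq] at this
    linarith
  rcases Nat.eq_zero_or_pos I.k with h0 | h0
  · have g2 := (hs ⊥ (h0 ▸ hzero _ _)).2
    have g3 : costN I.n (cM I (L / Δ)) ⊥ = 0 := by simp [costN]
    rw [g3, mul_zero, Nat.le_zero, mul_eq_zero] at g2
    rw [g2.resolve_left hδ.ne', Nat.cast_zero] at g1
    have := le_of_mul_le_mul_left (g1.trans_eq (mul_zero _).symm) hl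
    exact this.trans (mul_nonneg hε0 g0)
  have g2 : (δ : ℝ) * costN I.n (cM I (L / Δ)) A ≤ (δ + 1) * costN I.n (cM I (L / Δ)) G := by
    exact_mod_cast (hs G hG).2
  have g3 := costN_le I hl.le G
  have g4 : (L : ℝ) ≤ L / Δ * cost2 I G := by
    rw [div_mul_eq_mul_div, le_div_iff₀ hΔ0]
    exact mul_le_mul_of_nonneg_left (dist_le_cost2 I (hcon _ _ _ hG h0) a b) hL0.le
  have g5 : (L : ℝ) = δ * (I.n ^ 2 * (I.n + 1) : ℕ) := by rw [hL]; push_cast; ring
  have g6 : (δ : ℝ) * costN I.n (cM I (L / Δ)) G ≤ (δ + 1) * (L / Δ * cost2 I G) := by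
    nlinarith [mul_le_mul_of_nonneg_left g3 hδ'.le]
  have g7 : (δ : ℝ) ^ 2 * (L / Δ * cost2 I A) ≤ (δ + 1) ^ 2 * (L / Δ * cost2 I G) := by
    nlinarith [mul_le_mul_of_nonneg_left g1 (sq_nonneg (δ : ℝ)),
      mul_le_mul_of_nonneg_left g2 hδ'.le,
      mul_le_mul_of_nonneg_left g6 (show (0 : ℝ) ≤ δ + 1 by positivity)]
  have g8 := mul_le_mul_of_nonneg_right hε (mul_nonneg hl.le g0)
  have g9 : (δ : ℝ) ^ 2 * (L / Δ) * cost2 I A ≤ δ ^ 2 * (L / Δ) * ((1 + ε) * cost2 I G) := by
    nlinarith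
  exact le_of_mul_le_mul_left g9 (by positivity)

def mcost (C : List (List ℕ)) (M : List (List Bool)) : ℕ :=
  sumB C.length fun i => sumB C.length fun j => bif entry M i j then nat2 C i j else 0

def best (C : List (List ℕ)) (T : List (List (List Bool))) : List (List Bool) :=
  T.getD (first T.length fun l => !(anyB T.length fun l' =>
    Nat.blt (mcost C (T.getD l' [])) (mcost C (T.getD l [])))) []

@[fun_prop] theorem pf_mcost {α : Type} [Enc α] {C : α → List (List ℕ)}
    {M : α → List (List Bool)} (h1 : PF C) (h2 : PF M) : PF fun a => mcost (C a) (M a) := by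
  unfold mcost; fun_prop

@[fun_prop] theorem pf_best {α : Type} [Enc α] {C : α → List (List ℕ)}
    {T : α → List (List (List Bool))} (h1 : PF C) (h2 : PF T) :
    PF fun a => best (C a) (T a) := by unfold best; fun_prop

theorem best_spec (C : List (List ℕ)) {T : List (List (List Bool))} {M : List (List Bool)}
    (h : M ∈ T) : best C T ∈ T ∧ mcost C (best C T) ≤ mcost C M := by
  obtain ⟨i, hi, rfl⟩ := List.getElem_of_mem h
  obtain ⟨l, hl, hmin⟩ := exists_min_image (range T.length) (fun l => mcost C (T.getD l []))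
    ⟨i, mem_range.2 hi⟩
  obtain ⟨p1, p2, _⟩ := first_spec (N := T.length) (p := fun l => !(anyB T.length fun l' =>
    Nat.blt (mcost C (T.getD l' [])) (mcost C (T.getD l [])))) ⟨l, mem_range.1 hl, by
      simp only [Bool.not_eq_true', Bool.eq_false_iff, ne_eq, anyB_iff, Nat.blt_eq, not_exists,
        not_and, not_lt]
      exact fun x hx => hmin x (mem_range.2 hx)⟩
  simp only [Bool.not_eq_true', Bool.eq_false_iff, ne_eq, anyB_iff, Nat.blt_eq, not_exists,
    not_and, not_lt] at p2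
  refine ⟨?_, ?_⟩
  · unfold best
    rw [List.getD_eq_getElem _ _ p1]
    exact List.getElem_mem _
  · have := p2 i hi
    rwa [List.getD_eq_getElem _ _ hi] at this

theorem mcost_adj {n : ℕ} (c : ℕ → ℕ → ℕ) (G : SimpleGraph (Fin n)) :
    mcost (tab2 n c) (adjMatrix G) = costN n c G := by
  classical
  simp only [mcost, costN, sumB_eq, length_tab2, sum_range]
  refine sum_congr rfl fun i _ => sum_congr rfl fun j _ => ?_
  rw [nat2_tab2 _ i.2 j.2, Bool.cond_eq_ite]
  simp [entry_adjMatrix]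

theorem graphOf_adj {n : ℕ} (G : SimpleGraph (Fin n)) : graphOf n (adjMatrix G) = G := by
  ext i j
  simp only [graphOf, SimpleGraph.fromRel_adj, entry_adjMatrix, Fin.is_lt, Fin.eta, exists_const]
  exact ⟨fun h => h.2.elim id fun h => h.symm, fun h => ⟨h.ne, Or.inl h⟩⟩

theorem brute (P : (n k : ℕ) → SimpleGraph (Fin n) → Prop) (J : ℕ → ℕ) (δ N : ℕ) :
    ∃ alg : ℕ × List (List ℕ) → List (List Bool), PF alg ∧
      CoreOn P J δ (fun n _ => n < N) alg := by
  classical
  set T : List (List (List (List (List Bool)))) := tab2 N fun n k =>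
    ((univ : Finset (SimpleGraph (Fin n))).filter (P n k)).toList.map adjMatrix with hT
  refine ⟨fun x => best x.2 ((T.getD x.2.length []).getD x.1 []), by fun_prop,
    fun n k c _ _ hn hk G hG => ?_⟩
  simp only [length_tab2, hT, getD_tab2 _ _ hn (hk.trans hn)]
  obtain ⟨h1, h2⟩ := best_spec (tab2 n c) (T := ((univ : Finset (SimpleGraph (Fin n))).filter
    (P n k)).toList.map adjMatrix) (M := adjMatrix G) (List.mem_map_of_mem (by simpa using hG))
  obtain ⟨G', h3, h4⟩ := List.mem_map.1 h1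
  rw [← h4] at h2 ⊢
  rw [mcost_adj, mcost_adj] at h2
  rw [graphOf_adj]
  exact ⟨by simpa using h3, Nat.mul_le_mul (Nat.le_succ _) h2⟩

end Rd

theorem reduce (P : (n k : ℕ) → SimpleGraph (Fin n) → Prop)
    (hlt : ∀ n k G, P n k G → 2 ≤ n → k < n)
    (hcon : ∀ n k G, P n k G → 1 ≤ k → G.Preconnected)
    (hsmall : ∀ n k G G', n ≤ 1 → P n k G → P n k G')
    (hzero : ∀ n G, P n 0 G)
    (hcore : Core P) (d : ℕ) :
    (∀ ε : ℝ, 0 < ε → ∃ K : ℕ, Approximable d P (fun I => K ≤ I.k) ε) ∧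
    (∀ f : ℕ → ℝ, Tendsto f atTop atTop → ∀ ε : ℝ, 0 < ε →
      Approximable d P (fun I => f I.n ≤ I.k) ε) := by
  have hδ : ∀ ε : ℝ, 0 < ε → ∃ δ : ℕ, 0 < δ ∧ ((δ : ℝ) + 1) ^ 2 ≤ (1 + ε) * δ ^ 2 := by
    intro ε hε
    obtain ⟨δ, hδ⟩ := exists_nat_ge (3 / ε + 1)
    have h0 : 0 < 3 / ε := by positivity
    have h1 : (1 : ℝ) ≤ δ := by linarith
    have h2 : 3 ≤ ε * δ := by
      have : 3 / ε ≤ δ := by linarith
      rwa [div_le_iff₀' hε] at this
    exact ⟨δ, by exact_mod_cast (zero_lt_one.trans_le h1), by nlinarith⟩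
  constructor
  · intro ε hε
    obtain ⟨δ, h1, h2⟩ := hδ ε hε
    obtain ⟨K, alg, h3, h4⟩ := hcore (Rd.JJ d) δ
    exact ⟨K, Rd.transfer hlt hcon hsmall hzero (R := fun _ k => K ≤ k) h3 h4 h1 h2⟩
  · intro f hf ε hε
    obtain ⟨δ, h1, h2⟩ := hδ ε hε
    obtain ⟨K, alg, h3, h4⟩ := hcore (Rd.JJ d) δ
    obtain ⟨N, hN⟩ := eventually_atTop.1 (hf.eventually_ge_atTop K)
    obtain ⟨alg', h5, h6⟩ := Rd.brute P (Rd.JJ d) δ N
    refine Rd.transfer hlt hcon hsmall hzero (R := fun n k => f n ≤ k)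
      (alg := fun x => bif Nat.blt x.2.length N then alg' x else alg x)
      (PF.cond' (by fun_prop) h5 h3) (fun n k c m1 m2 m3 m4 G hG => ?_) h1 h2
    simp only [length_tab2]
    by_cases hn : n < N
    · rw [show Nat.blt n N = true by simpa [Nat.blt_eq] using hn, cond_true]
      exact h6 n k c m1 m2 hn m4 G hG
    · have : Nat.blt n N = false := by rw [Bool.eq_false_iff]; simpa [Nat.blt_eq] using hn
      rw [this, cond_false]
      exact h4 n k c m1 m2 (by exact_mod_cast (hN n (by omega)).trans m3) m4 G hG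

end Pool.Agent.Lib.MP_959bb6_lc
end

-- part Pool.Agent.Lib.MP_959bb6_lc.Mat
section

/-!
Graphs as matrices of bits.
-/

set_option autoImplicit false

namespace Pool.Agent.Lib.MP_959bb6_lc

open Pool.Agent.Shared.PolyTime Enc Finset

/-- Matrices of bits. -/
abbrev Mat : Type := List (List Bool)

/-- Indicator of an entry. -/
def ind (M : Mat) (u v : ℕ) : ℕ := bif entry M u v then 1 else 0

/-- Symmetric matrices with zero diagonal. -/
structure Sym (n : ℕ) (M : Mat) : Prop where
  symm : ∀ u v, u < n → v < n → entry M u v = entry M v u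
  irr : ∀ u, u < n → entry M u u = false

/-- Degree. -/
def deg (n : ℕ) (M : Mat) (u : ℕ) : ℕ := sumB n fun v => ind M u v

/-- Cost of the edges at a vertex. -/
def cstAt (n : ℕ) (c : ℕ → ℕ → ℕ) (M : Mat) (u : ℕ) : ℕ := ∑ v ∈ range n, ind M u v * c u v

/-- Twice the cost. -/
def cst2 (n : ℕ) (c : ℕ → ℕ → ℕ) (M : Mat) : ℕ := ∑ u ∈ range n, cstAt n c M u

/-- All cuts have at least `l` edges. -/
def Cuts (n : ℕ) (M : Mat) (l : ℕ) : Prop :=
  ∀ U : Finset ℕ, U ⊆ range n → U.Nonempty → U ≠ range n → l ≤ dcut n (ind M) U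

/-- Adding an edge. -/
def addE (n : ℕ) (M : Mat) (u v : ℕ) : Mat :=
  tab2 n fun x y => entry M x y || (x == u && y == v) || (x == v && y == u)

/-- Deleting an edge. -/
def delE (n : ℕ) (M : Mat) (u v : ℕ) : Mat :=
  tab2 n fun x y => entry M x y && !(x == u && y == v) && !(x == v && y == u)

/-- An index below `N` with property `p` and least value of `f`. -/
def argmin (N : ℕ) (p : ℕ → Bool) (f : ℕ → ℕ) : ℕ :=
  first N fun i => p i && !(anyB N fun j => p j && Nat.blt (f j) (f i))

section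
variable {α : Type} [Enc α]

@[fun_prop] theorem pf_ind {M : α → Mat} {u v : α → ℕ} (h1 : PF M) (h2 : PF u) (h3 : PF v) :
    PF fun a => ind (M a) (u a) (v a) := by unfold ind; fun_prop
@[fun_prop] theorem pf_deg {M : α → Mat} {n u : α → ℕ} (h0 : PF n) (h1 : PF M) (h2 : PF u) :
    PF fun a => deg (n a) (M a) (u a) := by unfold deg; fun_prop
@[fun_prop] theorem pf_addE {M : α → Mat} {n u v : α → ℕ} (h0 : PF n) (h1 : PF M) (h2 : PF u)
    (h3 : PF v) : PF fun a => addE (n a) (M a) (u a) (v a) := by unfold addE; fun_prop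
@[fun_prop] theorem pf_delE {M : α → Mat} {n u v : α → ℕ} (h0 : PF n) (h1 : PF M) (h2 : PF u)
    (h3 : PF v) : PF fun a => delE (n a) (M a) (u a) (v a) := by unfold delE; fun_prop
@[fun_prop] theorem pf_argmin {N : α → ℕ} {p : α → ℕ → Bool} {f : α → ℕ → ℕ} (hN : PF N)
    (hp : PF fun q : α × ℕ => p q.1 q.2) (hf : PF fun q : α × ℕ => f q.1 q.2) :
    PF fun a => argmin (N a) (p a) (f a) := by
  unfold argmin
  refine pf_first (p := fun a i => p a i && !(anyB (N a) fun j =>
    p a j && Nat.blt (f a j) (f a i))) hN (PF.and' hp (PF.not' (pf_anyB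
      (N := fun q : α × ℕ => N q.1)
      (p := fun q j => p q.1 j && Nat.blt (f q.1 j) (f q.1 q.2)) (hN.comp (by fun_prop))
      (PF.and' (hp.comp (g := fun q : (α × ℕ) × ℕ => (q.1.1, q.2)) (by fun_prop))
        (PF.blt (hf.comp (g := fun q : (α × ℕ) × ℕ => (q.1.1, q.2)) (by fun_prop))
          (hf.comp (g := fun q : (α × ℕ) × ℕ => q.1) (by fun_prop)))))))

theorem len_mat (n : ℕ) (f : ℕ → ℕ → Bool) :
    (enc (tab2 n f)).length ≤ n * (2 * (n * 3) + 1) := len_tab2 n 1 f fun _ _ _ _ => by simp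

end

theorem argmin_spec {N : ℕ} {p : ℕ → Bool} (f : ℕ → ℕ) (h : ∃ i, i < N ∧ p i = true) :
    argmin N p f < N ∧ p (argmin N p f) = true ∧
      ∀ j, j < N → p j = true → f (argmin N p f) ≤ f j := by
  obtain ⟨i, hi, hp⟩ := h
  obtain ⟨l, hl, hmin⟩ := exists_min_image ((range N).filter fun i => p i = true) f
    ⟨i, mem_filter.2 ⟨mem_range.2 hi, hp⟩⟩
  obtain ⟨l1, l2⟩ := mem_filter.1 hl
  obtain ⟨p1, p2, _⟩ := first_spec (N := N)
    (p := fun i => p i && !(anyB N fun j => p j && Nat.blt (f j) (f i))) ⟨l, mem_range.1 l1, by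
      simp only [l2, Bool.true_and, Bool.not_eq_true', Bool.eq_false_iff, ne_eq, anyB_iff,
        Bool.and_eq_true, Nat.blt_eq, not_exists, not_and, not_lt]
      exact fun x hx hp => hmin x (mem_filter.2 ⟨mem_range.2 hx, hp⟩)⟩
  simp only [Bool.not_eq_true', Bool.eq_false_iff, ne_eq, anyB_iff,
    Bool.and_eq_true, Nat.blt_eq, not_exists, not_and, not_lt] at p2
  exact ⟨p1, p2.1, p2.2⟩

theorem argmin_lt_iff {N : ℕ} {p : ℕ → Bool} (f : ℕ → ℕ) :
    argmin N p f < N ↔ ∃ i, i < N ∧ p i = true := by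
  refine ⟨fun h => ?_, fun h => (argmin_spec f h).1⟩
  obtain ⟨i, hi, hp⟩ := first_lt_iff.1 h
  exact ⟨i, hi, (Bool.and_eq_true_iff.1 hp).1⟩

theorem ind_le (M : Mat) (u v : ℕ) : ind M u v ≤ 1 := by
  unfold ind; cases entry M u v <;> simp

theorem ind_eq (M : Mat) (u v : ℕ) : ind M u v = if entry M u v = true then 1 else 0 := by
  unfold ind; cases entry M u v <;> simp

theorem ind_true {M : Mat} {u v : ℕ} (h : entry M u v = true) : ind M u v = 1 := by
  simp [ind, h]

theorem ind_false {M : Mat} {u v : ℕ} (h : entry M u v = false) : ind M u v = 0 := by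
  simp [ind, h]

theorem Sym.ind {n : ℕ} {M : Mat} (h : Sym n M) {u v : ℕ} (hu : u < n) (hv : v < n) :
    ind M u v = ind M v u := by unfold MP_959bb6_lc.ind; rw [h.symm u v hu hv]

theorem deg_eq (n : ℕ) (M : Mat) (u : ℕ) :
    deg n M u = ((range n).filter fun v => entry M u v = true).card := by
  rw [deg, sumB_eq, card_filter]
  exact sum_congr rfl fun v _ => ind_eq M u v

theorem deg_sum (n : ℕ) (M : Mat) (u : ℕ) : deg n M u = ∑ v ∈ range n, ind M u v := sumB_eq _ _

theorem entry_addE {n : ℕ} (M : Mat) (u v : ℕ) {x y : ℕ} (hx : x < n) (hy : y < n) :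
    entry (addE n M u v) x y = true ↔ entry M x y = true ∨ (x = u ∧ y = v) ∨ (x = v ∧ y = u) := by
  simp [addE, entry_tab2 _ hx hy, or_assoc]

theorem entry_delE {n : ℕ} (M : Mat) (u v : ℕ) {x y : ℕ} (hx : x < n) (hy : y < n) :
    entry (delE n M u v) x y = true ↔
      entry M x y = true ∧ ¬ (x = u ∧ y = v) ∧ ¬ (x = v ∧ y = u) := by
  simp only [delE, entry_tab2 _ hx hy, Bool.and_eq_true, Bool.not_eq_true', Bool.eq_false_iff,
    ne_eq, beq_iff_eq, and_assoc]

theorem Sym.addE {n : ℕ} {M : Mat} (h : Sym n M) {u v : ℕ} (huv : u ≠ v) :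
    Sym n (addE n M u v) := by
  refine ⟨fun x y hx hy => ?_, fun x hx => ?_⟩
  · rw [Bool.eq_iff_iff, entry_addE _ _ _ hx hy, entry_addE _ _ _ hy hx, h.symm x y hx hy]
    tauto
  · rw [Bool.eq_false_iff, ne_eq, entry_addE _ _ _ hx hx, h.irr x hx]
    simp; omega

theorem Sym.delE {n : ℕ} {M : Mat} (h : Sym n M) (u v : ℕ) : Sym n (delE n M u v) := by
  refine ⟨fun x y hx hy => ?_, fun x hx => ?_⟩
  · rw [Bool.eq_iff_iff, entry_delE _ _ _ hx hy, entry_delE _ _ _ hy hx, h.symm x y hx hy]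
    tauto
  · rw [Bool.eq_false_iff, ne_eq, entry_delE _ _ _ hx hx, h.irr x hx]
    simp

theorem sum_pt {A B : Finset ℕ} {F G : ℕ → ℕ → ℕ} (f : ℕ → ℕ → ℕ) (u v : ℕ)
    (h : ∀ x ∈ A, ∀ y ∈ B, F x y = G x y + (if x = u ∧ y = v then 1 else 0) +
      if x = v ∧ y = u then 1 else 0) :
    ∑ x ∈ A, ∑ y ∈ B, F x y * f x y = ∑ x ∈ A, ∑ y ∈ B, G x y * f x y +
      (if u ∈ A ∧ v ∈ B then f u v else 0) + if v ∈ A ∧ u ∈ B then f v u else 0 := by
  have e : ∀ p q : ℕ, (if p ∈ A ∧ q ∈ B then f p q else 0) =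
      ∑ x ∈ A, ∑ y ∈ B, (if x = p ∧ y = q then 1 else 0) * f x y := by
    intro p q
    simp only [ite_and, ite_mul, one_mul, zero_mul, sum_ite_irrel, sum_const_zero, sum_ite_eq']
  rw [e, e]
  simp only [← sum_add_distrib]
  exact sum_congr rfl fun x hx => sum_congr rfl fun y hy => by rw [h x hx y hy]; ring

theorem ind_addE {n : ℕ} {M : Mat} (h : Sym n M) {u v : ℕ} (hu : u < n) (hv : v < n)
    (huv : u ≠ v) (he : entry M u v = false) {x y : ℕ} (hx : x < n) (hy : y < n) :
    ind (addE n M u v) x y = ind M x y + (if x = u ∧ y = v then 1 else 0) +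
      if x = v ∧ y = u then 1 else 0 := by
  have := h.symm u v hu hv
  simp only [ind_eq, entry_addE _ _ _ hx hy]
  grind

theorem ind_delE {n : ℕ} {M : Mat} (h : Sym n M) {u v : ℕ} (hu : u < n) (hv : v < n)
    (he : entry M u v = true) {x y : ℕ} (hx : x < n) (hy : y < n) :
    ind M x y = ind (delE n M u v) x y + (if x = u ∧ y = v then 1 else 0) +
      if x = v ∧ y = u then 1 else 0 := by
  have := h.symm u v hu hv
  have := h.irr u hu
  simp only [ind_eq, entry_delE _ _ _ hx hy]
  grind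

theorem sum_addE {n : ℕ} {M : Mat} (h : Sym n M) {u v : ℕ} (hu : u < n) (hv : v < n)
    (huv : u ≠ v) (he : entry M u v = false) {A B : Finset ℕ} (hA : A ⊆ range n)
    (hB : B ⊆ range n) (f : ℕ → ℕ → ℕ) :
    ∑ x ∈ A, ∑ y ∈ B, ind (addE n M u v) x y * f x y = ∑ x ∈ A, ∑ y ∈ B, ind M x y * f x y +
      (if u ∈ A ∧ v ∈ B then f u v else 0) + if v ∈ A ∧ u ∈ B then f v u else 0 :=
  sum_pt f u v fun _ hx _ hy =>
    ind_addE h hu hv huv he (mem_range.1 (hA hx)) (mem_range.1 (hB hy))

theorem sum_delE {n : ℕ} {M : Mat} (h : Sym n M) {u v : ℕ} (hu : u < n) (hv : v < n)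
    (he : entry M u v = true) {A B : Finset ℕ} (hA : A ⊆ range n)
    (hB : B ⊆ range n) (f : ℕ → ℕ → ℕ) :
    ∑ x ∈ A, ∑ y ∈ B, ind M x y * f x y = ∑ x ∈ A, ∑ y ∈ B, ind (delE n M u v) x y * f x y +
      (if u ∈ A ∧ v ∈ B then f u v else 0) + if v ∈ A ∧ u ∈ B then f v u else 0 :=
  sum_pt f u v fun _ hx _ hy => ind_delE h hu hv he (mem_range.1 (hA hx)) (mem_range.1 (hB hy))

theorem deg_addE {n : ℕ} {M : Mat} (h : Sym n M) {u v : ℕ} (hu : u < n) (hv : v < n)
    (huv : u ≠ v) (he : entry M u v = false) {x : ℕ} (hx : x < n) :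
    deg n (addE n M u v) x = deg n M x + (if x = u then 1 else 0) + if x = v then 1 else 0 := by
  have := sum_addE h hu hv huv he (A := {x}) (B := range n) (by simpa using hx) (Subset.refl _)
    fun _ _ => 1
  simpa [deg_sum, hu, hv, eq_comm] using this

theorem deg_delE {n : ℕ} {M : Mat} (h : Sym n M) {u v : ℕ} (hu : u < n) (hv : v < n)
    (he : entry M u v = true) {x : ℕ} (hx : x < n) :
    deg n M x = deg n (delE n M u v) x + (if x = u then 1 else 0) + if x = v then 1 else 0 := by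
  have := sum_delE h hu hv he (A := {x}) (B := range n) (by simpa using hx) (Subset.refl _)
    fun _ _ => 1
  simpa [deg_sum, hu, hv, eq_comm] using this

theorem cst2_addE {n : ℕ} {M : Mat} (h : Sym n M) {u v : ℕ} (hu : u < n) (hv : v < n)
    (huv : u ≠ v) (he : entry M u v = false) (c : ℕ → ℕ → ℕ) :
    cst2 n c (addE n M u v) = cst2 n c M + c u v + c v u := by
  simpa [cst2, cstAt, hu, hv] using sum_addE h hu hv huv he (Subset.refl _) (Subset.refl _) c

theorem cst2_delE {n : ℕ} {M : Mat} (h : Sym n M) {u v : ℕ} (hu : u < n) (hv : v < n)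
    (he : entry M u v = true) (c : ℕ → ℕ → ℕ) :
    cst2 n c M = cst2 n c (delE n M u v) + c u v + c v u := by
  simpa [cst2, cstAt, hu, hv] using sum_delE h hu hv he (Subset.refl _) (Subset.refl _) c

theorem dcut_addE {n : ℕ} {M : Mat} (h : Sym n M) {u v : ℕ} (hu : u < n) (hv : v < n)
    (huv : u ≠ v) (he : entry M u v = false) {U : Finset ℕ} (hU : U ⊆ range n) :
    dcut n (ind (addE n M u v)) U = dcut n (ind M) U + (if u ∈ U ∧ v ∉ U then 1 else 0) +
      if v ∈ U ∧ u ∉ U then 1 else 0 := by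
  simpa [dcut, hu, hv] using sum_addE h hu hv huv he hU (B := range n \ U) sdiff_subset
    fun _ _ => 1

theorem dcut_delE {n : ℕ} {M : Mat} (h : Sym n M) {u v : ℕ} (hu : u < n) (hv : v < n)
    (he : entry M u v = true) {U : Finset ℕ} (hU : U ⊆ range n) :
    dcut n (ind M) U = dcut n (ind (delE n M u v)) U + (if u ∈ U ∧ v ∉ U then 1 else 0) +
      if v ∈ U ∧ u ∉ U then 1 else 0 := by
  simpa [dcut, hu, hv] using sum_delE h hu hv he hU (B := range n \ U) sdiff_subset
    fun _ _ => 1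

/-- A matrix cut to size. -/
def nrm (n : ℕ) (M : Mat) : Mat := tab2 n fun x y => entry M x y

@[fun_prop] theorem pf_nrm {α : Type} [Enc α] {M : α → Mat} {n : α → ℕ} (h0 : PF n) (h1 : PF M) :
    PF fun a => nrm (n a) (M a) := by unfold nrm; fun_prop

theorem nrm_tab2 (n : ℕ) (f : ℕ → ℕ → Bool) : nrm n (tab2 n f) = tab2 n f :=
  tab2_congr fun _ _ hx hy => entry_tab2 _ hx hy

theorem exists_new {n : ℕ} {M : Mat} {B : Finset ℕ} (w : ℕ) (hB : B ⊆ range n)
    (h : deg n M w + 1 < B.card) : ∃ z ∈ B, entry M w z = false ∧ z ≠ w := by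
  by_contra hc
  push Not at hc
  have := card_le_card (s := B) (t := insert w ((range n).filter fun v => entry M w v = true))
    fun z hz => by
      by_cases e : z = w
      · simp [e]
      · refine mem_insert_of_mem (mem_filter.2 ⟨hB hz, ?_⟩)
        by_contra e'
        exact e (hc z hz (by simpa using e'))
  have := card_insert_le w ((range n).filter fun v => entry M w v = true)
  rw [deg_eq] at h
  omega

theorem dcut_mono {n : ℕ} {W W' : ℕ → ℕ → ℕ} (h : ∀ x y, x < n → y < n → W x y ≤ W' x y)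
    {U : Finset ℕ} (hU : U ⊆ range n) : dcut n W U ≤ dcut n W' U :=
  sum_le_sum fun x hx => sum_le_sum fun y hy =>
    h x y (mem_range.1 (hU hx)) (mem_range.1 (mem_sdiff.1 hy).1)

theorem dcut_compl {n : ℕ} {W : ℕ → ℕ → ℕ} (h : ∀ x y, x < n → y < n → W x y = W y x)
    {U : Finset ℕ} (hU : U ⊆ range n) : dcut n W (range n \ U) = dcut n W U := by
  unfold dcut
  rw [Finset.sdiff_sdiff_eq_self hU, sum_comm]
  exact sum_congr rfl fun x hx => sum_congr rfl fun y hy =>
    h y x (mem_range.1 (mem_sdiff.1 hy).1) (mem_range.1 (hU hx))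

theorem dcut_eq {n : ℕ} (W : ℕ → ℕ → ℕ) {U : Finset ℕ} (hU : U ⊆ range n) :
    dcut n W U = ∑ x ∈ range n, ∑ y ∈ range n, if x ∈ U ∧ y ∉ U then W x y else 0 := by
  unfold dcut
  rw [← sum_subset hU fun x _ hx => by simp [hx]]
  refine sum_congr rfl fun x hx => ?_
  rw [← sum_filter]
  exact sum_congr (by ext y; simp [hx]) fun _ _ => rfl

theorem dcut_submod {n : ℕ} (W : ℕ → ℕ → ℕ) {U V : Finset ℕ} (hU : U ⊆ range n)
    (hV : V ⊆ range n) : dcut n W (U ∩ V) + dcut n W (U ∪ V) ≤ dcut n W U + dcut n W V := by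
  rw [dcut_eq W hU, dcut_eq W hV, dcut_eq W (union_subset hU hV),
    dcut_eq W (inter_subset_left.trans hU)]
  simp only [← sum_add_distrib]
  refine sum_le_sum fun x _ => sum_le_sum fun y _ => ?_
  by_cases c1 : x ∈ U <;> by_cases c2 : x ∈ V <;> by_cases c3 : y ∈ U <;> by_cases c4 : y ∈ V <;>
    simp [c1, c2, c3, c4]

theorem Cuts.deg {n l : ℕ} {M : Mat} (h : Cuts n M l) (hn : 2 ≤ n) {u : ℕ}
    (hu : u < n) : l ≤ deg n M u := by
  have := h {u} (by simpa using hu) (singleton_nonempty _) fun e => by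
    have := congrArg card e
    simp at this
    omega
  rw [dcut, sum_singleton] at this
  rw [deg_sum]
  exact this.trans (sum_le_sum_of_subset sdiff_subset)

theorem sum_pairs {n : ℕ} (f : ℕ → ℕ → ℕ) (h : ∀ x y, x < n → y < n → f x y = f y x)
    (h0 : ∀ x, x < n → f x x = 0) :
    ∑ x ∈ range n, ∑ y ∈ range n, f x y =
      2 * ∑ i ∈ range (n * n), if i / n < i % n then f (i / n) (i % n) else 0 := by
  have e : ∀ g : ℕ → ℕ → ℕ, ∑ i ∈ range (n * n), g (i / n) (i % n) =
      ∑ x ∈ range n, ∑ y ∈ range n, g x y := by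
    intro g
    rw [← sum_product']
    refine sum_bij' (fun i _ => (i / n, i % n)) (fun p _ => p.1 * n + p.2) ?_ ?_ ?_ ?_
      fun _ _ => rfl
    · intro i hi
      have hn : 0 < n := Nat.pos_of_ne_zero fun e => by simp [e] at hi
      exact mem_product.2 ⟨mem_range.2 (Nat.div_lt_of_lt_mul (mem_range.1 hi)),
        mem_range.2 (Nat.mod_lt _ hn)⟩
    · intro p hp
      obtain ⟨h1, h2⟩ := mem_product.1 hp
      have := Nat.mul_le_mul_right n (mem_range.1 h1 : p.1 + 1 ≤ n)
      have := mem_range.1 h2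
      rw [mem_range]
      nlinarith
    · intro i _
      exact Nat.div_add_mod' i n
    · intro p hp
      have h2 := mem_range.1 (mem_product.1 hp).2
      have h3 : (p.1 * n + p.2) / n = p.1 := by
        rw [add_comm, Nat.add_mul_div_right _ _ (by omega), Nat.div_eq_of_lt h2, zero_add]
      have h4 : (p.1 * n + p.2) % n = p.2 := by
        rw [add_comm, Nat.add_mul_mod_self_right, Nat.mod_eq_of_lt h2]
      rw [h3, h4]
  rw [e fun x y => if x < y then f x y else 0, two_mul]
  nth_rewrite 3 [sum_comm]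
  simp only [← sum_add_distrib]
  refine sum_congr rfl fun x hx => sum_congr rfl fun y hy => ?_
  rcases lt_trichotomy x y with c | c | c
  · simp [c, c.not_gt]
  · subst c; simp [h0 x (mem_range.1 hx)]
  · simp [c, c.not_gt, h x y (mem_range.1 hx) (mem_range.1 hy)]

theorem sym_adj {n : ℕ} (G : SimpleGraph (Fin n)) : Sym n (adjMatrix G) := by
  refine ⟨fun u v hu hv => ?_, fun u hu => ?_⟩
  · rw [Bool.eq_iff_iff, entry_adjMatrix, entry_adjMatrix]
    simp [hu, hv, G.adj_comm]
  · rw [Bool.eq_false_iff, ne_eq, entry_adjMatrix]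
    simp

theorem Sym.adj {n : ℕ} {M : Mat} (h : Sym n M) (i j : Fin n) :
    (graphOf n M).Adj i j ↔ entry M i j = true := by
  simp only [graphOf, SimpleGraph.fromRel_adj, ← h.symm i j i.2 j.2, or_self]
  refine and_iff_right_of_imp fun e e' => ?_
  rw [e', h.irr j j.2] at e
  simp at e

theorem Sym.costN {n : ℕ} {M : Mat} (h : Sym n M) (c : ℕ → ℕ → ℕ) :
    costN n c (graphOf n M) = cst2 n (nat2 (tab2 n c)) M := by
  classical
  simp only [MP_959bb6_lc.costN, cst2, cstAt, sum_range]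
  refine sum_congr rfl fun i _ => sum_congr rfl fun j _ => ?_
  rw [nat2_tab2 _ i.2 j.2, ind_eq]
  simp [h.adj]

theorem exists_fin {n : ℕ} {U : Finset ℕ} (hU : U ⊆ range n) :
    ∃ S : Finset (Fin n), U = S.map Fin.valEmbedding := by
  refine ⟨univ.filter fun i => i.1 ∈ U, ?_⟩
  ext x
  simp only [mem_map, mem_filter, mem_univ, true_and, Fin.valEmbedding_apply]
  exact ⟨fun h => ⟨⟨x, mem_range.1 (hU h)⟩, h, rfl⟩, fun ⟨i, h, e⟩ => e ▸ h⟩

theorem map_val_subset {n : ℕ} (S : Finset (Fin n)) : S.map Fin.valEmbedding ⊆ range n := by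
  intro x hx
  obtain ⟨i, _, rfl⟩ := mem_map.1 hx
  exact mem_range.2 i.2

theorem Sym.ecut {n k : ℕ} {M : Mat} (h : Sym n M) : ECut n k (graphOf n M) ↔ Cuts n M k := by
  classical
  have e0 : (univ : Finset (Fin n)).map Fin.valEmbedding = range n := by
    ext x
    simp
  have e1 : ∀ S : Finset (Fin n), dcut n (MP_959bb6_lc.ind M) (S.map Fin.valEmbedding) =
      ∑ i ∈ S, ∑ j ∈ Sᶜ, if (graphOf n M).Adj i j then 1 else 0 := by
    intro S
    unfold dcut
    rw [← e0, ← Finset.map_sdiff, sum_map]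
    refine sum_congr rfl fun i _ => ?_
    rw [sum_map, compl_eq_univ_sdiff]
    exact sum_congr rfl fun j _ => by simp [ind_eq, h.adj]
  constructor
  · intro hc U hU hne hU'
    obtain ⟨S, rfl⟩ := exists_fin hU
    rw [e1]
    convert hc S (by simpa using hne) fun e => hU' (e ▸ e0)
  · intro hc S hne hS
    have := hc _ (map_val_subset S) (by simpa using hne) fun e =>
      hS (map_injective _ (e.trans e0.symm))
    rw [e1] at this
    convert this

theorem IsMet.tab {n : ℕ} {c : ℕ → ℕ → ℕ} (h : IsMet n c) : IsMet n (nat2 (tab2 n c)) :=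
  ⟨fun u hu => by rw [nat2_tab2 _ hu hu, h.self u hu],
    fun u v hu hv => by rw [nat2_tab2 _ hu hv, nat2_tab2 _ hv hu, h.symm u v hu hv],
    fun u v w hu hv hw => by
      rw [nat2_tab2 _ hu hv, nat2_tab2 _ hv hw, nat2_tab2 _ hu hw]; exact h.tri u v w hu hv hw,
    fun u v hu hv e => by rw [nat2_tab2 _ hu hv]; exact h.pos u v hu hv e⟩

end Pool.Agent.Lib.MP_959bb6_lc
end
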