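import Mathlib
import Pool.Agent.Lib.MP_959bb6_lc.Frac
import Pool.Agent.Lib.MP_959bb6_lc.Mat
import Pool.Agent.Lib.MP_959bb6_lc.Hall

-- part Pool.Agent.Lib.MP_959bb6_lc.ML
section

/-!
The rounding theorem for multigraphs, and a short tour.
-/

set_option autoImplicit false

namespace Pool.Agent.Lib.MP_959bb6_lc

open Pool.Agent.Shared.PolyTime Enc Finset

namespace ML

/-- Input: nodes, connectivity, copies, capacities, ends, costs, demands. -/
abbrev In : Type := ℕ × ℕ × ℕ × List (List ℕ) × List ℕ × List (List ℕ) × List ℕ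

def nn (I : In) : ℕ := I.2.2.2.2.1.length
def xx (I : In) (i : ℕ) : ℕ := i % (nn I * nn I) / nn I
def yy (I : In) (i : ℕ) : ℕ := i % (nn I * nn I) % nn I
def vld (I : In) (i : ℕ) : Bool := Nat.blt (xx I i) (yy I i) &&
  Nat.blt (i / (nn I * nn I)) (nat2 I.2.2.2.1 (xx I i) (yy I i))

def lp (I : In) : Rnd.LP where
  m := I.2.2.1 * (nn I * nn I)
  n' := I.1
  N := nn I + 2
  K := I.2.1
  a i := bif vld I i then nat1 I.2.2.2.2.1 (xx I i) else nn I
  b i := bif vld I i then nat1 I.2.2.2.2.1 (yy I i) else nn I + 1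
  cn i := vld I i && Nat.blt (yy I i) I.1
  c i := bif vld I i then nat2 I.2.2.2.2.2.1 (xx I i) (yy I i) else 0
  dem p := bif Nat.blt p (nn I) then nat1 I.2.2.2.2.2.2 p else 0
  N2 := 0
  u i := bif vld I i then nat1 I.2.2.2.2.1 (xx I i) else nn I
  v i := bif vld I i then nat1 I.2.2.2.2.1 (yy I i) else nn I + 1
  dem2 _ := 0

def sol (I : In) : List Bool := Rnd.out (lp I).code
def idx (I : In) (j x y : ℕ) : ℕ := j * (nn I * nn I) + (min x y * nn I + max x y)
def out (I : In) (x y : ℕ) : ℕ :=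
  sumB I.2.2.1 fun j => bif vld I (idx I j x y) && bit1 (sol I) (idx I j x y) then 1 else 0

section
variable {α : Type} [Enc α]

@[fun_prop] theorem pf_nn {I : α → In} (h : PF I) : PF fun a => nn (I a) := by
  unfold nn; fun_prop
@[fun_prop] theorem pf_xx {I : α → In} {u : α → ℕ} (h : PF I) (h1 : PF u) :
    PF fun a => xx (I a) (u a) := by unfold xx; fun_prop
@[fun_prop] theorem pf_yy {I : α → In} {u : α → ℕ} (h : PF I) (h1 : PF u) :
    PF fun a => yy (I a) (u a) := by unfold yy; fun_prop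
@[fun_prop] theorem pf_vld {I : α → In} {u : α → ℕ} (h : PF I) (h1 : PF u) :
    PF fun a => vld (I a) (u a) := by unfold vld; fun_prop
@[fun_prop] theorem pf_sol {I : α → In} (h : PF I) : PF fun a => sol (I a) := by
  unfold sol
  apply Rnd.pf_out
  simp only [Rnd.LP.code, lp]
  fun_prop
@[fun_prop] theorem pf_idx {I : α → In} {j u v : α → ℕ} (h : PF I) (h0 : PF j) (h1 : PF u)
    (h2 : PF v) : PF fun a => idx (I a) (j a) (u a) (v a) := by unfold idx; fun_prop
@[fun_prop] theorem pf_out {I : α → In} {u v : α → ℕ} (h : PF I) (h1 : PF u) (h2 : PF v) :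
    PF fun a => out (I a) (u a) (v a) := by unfold out; fun_prop

end

theorem sum_block (f : ℕ → ℕ) (B L : ℕ) :
    ∑ i ∈ range (B * L), f i = ∑ j ∈ range B, ∑ r ∈ range L, f (j * L + r) := by
  induction B with
  | zero => simp
  | succ B ih => rw [add_one_mul, sum_range_add, ih, sum_range_succ]

variable {I : In}

theorem idx_spec (j : ℕ) {x y : ℕ} (hx : x < nn I) (hy : y < nn I) :
    idx I j x y / (nn I * nn I) = j ∧ xx I (idx I j x y) = min x y ∧
      yy I (idx I j x y) = max x y := by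
  have h1 : min x y < nn I := by omega
  have h2 : max x y < nn I := by omega
  have h3 : min x y * nn I + max x y < nn I * nn I := by nlinarith
  unfold xx yy idx
  rw [add_comm, Nat.add_mul_div_right _ _ (by omega), Nat.add_mul_mod_self_right,
    Nat.div_eq_of_lt h3, Nat.mod_eq_of_lt h3, add_comm (min x y * nn I),
    Nat.add_mul_div_right _ _ (by omega), Nat.add_mul_mod_self_right, Nat.div_eq_of_lt h2,
    Nat.mod_eq_of_lt h2]
  omega

theorem idx_comm (j x y : ℕ) : idx I j x y = idx I j y x := by rw [idx, idx, min_comm, max_comm]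

theorem key (Z : ℕ → ℕ) (ψ : ℕ → ℕ → ℕ) :
    ∑ i ∈ range (lp I).m, (if vld I i = true then Z i else 0) *
      (ψ (xx I i) (yy I i) + ψ (yy I i) (xx I i)) = ∑ x ∈ range (nn I), ∑ y ∈ range (nn I),
      (∑ j ∈ range I.2.2.1, if vld I (idx I j x y) = true then Z (idx I j x y) else 0) * ψ x y := by
  simp only [sum_mul]
  rw [sum_congr rfl fun _ _ => sum_comm, sum_comm]
  simp only [lp]
  rw [sum_block]
  refine sum_congr rfl fun j _ => ?_
  obtain ⟨w, hw⟩ : ∃ w : ℕ → ℕ → ℕ, ∀ x y,
    w x y = if vld I (idx I j x y) = true then Z (idx I j x y) else 0 := ⟨_, fun _ _ => rfl⟩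
  have ws : ∀ x y, w x y = w y x := fun x y => by rw [hw, hw, idx_comm]
  have e := sum_pairs (n := nn I) (fun u v => w u v * (ψ u v + ψ v u))
    (fun x y _ _ => by rw [ws, add_comm]) fun x hx => by
      simp [hw, vld, idx_spec j hx hx]
  have e2 : ∑ u ∈ range (nn I), ∑ v ∈ range (nn I), w u v * ψ v u =
      ∑ u ∈ range (nn I), ∑ v ∈ range (nn I), w u v * ψ u v := by
    rw [sum_comm]
    exact sum_congr rfl fun x _ => sum_congr rfl fun y _ => by rw [ws]
  simp only [mul_add, sum_add_distrib] at e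
  rw [e2, ← two_mul] at e
  simp only [← hw]
  rw [Nat.eq_of_mul_eq_mul_left two_pos e]
  refine sum_congr rfl fun r hr => ?_
  have hn : 0 < nn I := Nat.pos_of_ne_zero fun e => by simp [e] at hr
  rw [mem_range] at hr
  have a1 : xx I (j * (nn I * nn I) + r) = r / nn I := by
    rw [xx, add_comm, Nat.add_mul_mod_self_right, Nat.mod_eq_of_lt hr]
  have a2 : yy I (j * (nn I * nn I) + r) = r % nn I := by
    rw [yy, add_comm, Nat.add_mul_mod_self_right, Nat.mod_eq_of_lt hr]
  rw [a1, a2]
  split_ifs with c1 c2 c2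
  · rw [hw, idx, min_eq_left c2.le, max_eq_right c2.le, Nat.div_add_mod', if_pos c1, mul_add]
  · simp [vld, a1, a2, c2] at c1
  · rw [hw, idx, min_eq_left c2.le, max_eq_right c2.le, Nat.div_add_mod', if_neg c1]
    simp
  · simp

theorem sum_trunc (μ Y B : ℕ) : ∑ j ∈ range B, min μ (Y - j * μ) = min Y (B * μ) := by
  induction B with
  | zero => simp
  | succ B ih => rw [sum_range_succ, ih, add_one_mul]; omega

theorem spec {N K B n μ : ℕ} {cap c Y : ℕ → ℕ → ℕ} {e dem : ℕ → ℕ}
    (hI : I = (N, K, B, tab2 n cap, tab n e, tab2 n c, tab n dem)) (h6 : 6 ≤ K) (h2 : K % 2 = 0)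
    (hN : N ≤ n) (hμ : 0 < μ) (e1 : ∀ x, x < n → e x < n) (e2 : ∀ x, x < N → e x = x)
    (e3 : ∀ x y, x < n → y < n → x ≠ y → 0 < cap x y → e x ≠ e y)
    (c1 : ∀ x y, x < n → y < n → cap x y = cap y x ∧ cap x y ≤ B ∧ c x y = c y x ∧
      Y x y = Y y x ∧ Y x y ≤ cap x y * μ) (y0 : ∀ x, x < n → Y x x = 0)
    (hc : ∀ X, X ⊆ range N → X.Nonempty → X ≠ range N → μ * K ≤ dcut N Y X)
    (hd : ∀ p, p < n →
      μ * dem p ≤ ∑ x ∈ range n, ∑ y ∈ range n, Y x y * if e x = p then 1 else 0) :
    (∀ x y, x < n → y < n → out I x y = out I y x ∧ out I x y ≤ cap x y) ∧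
    (∀ x, x < n → out I x x = 0) ∧
    (∀ X, X ⊆ range N → X.Nonempty → X ≠ range N → K ≤ dcut N (out I) X + 2) ∧
    (∀ p, p < n →
      dem p ≤ ∑ x ∈ range n, ∑ y ∈ range n, out I x y * (if e x = p then 1 else 0) + 4) ∧
    μ * ∑ x ∈ range n, ∑ y ∈ range n, out I x y * c x y ≤
      ∑ x ∈ range n, ∑ y ∈ range n, Y x y * c x y + 4 * μ := by
  have i0 : nn I = n := by simp [hI, nn]
  have i1 : I.1 = N := by rw [hI]
  have i2 : I.2.2.1 = B := by rw [hI]
  have vl : ∀ i, vld I i = true → xx I i < yy I i ∧ yy I i < n ∧ 0 < cap (xx I i) (yy I i) ∧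
      (lp I).a i = e (xx I i) ∧ (lp I).b i = e (yy I i) ∧
      (lp I).c i = c (xx I i) (yy I i) ∧ ((lp I).cn i = true ↔ yy I i < N) := fun i hi => by
    have a := hi
    simp only [vld, Bool.and_eq_true, Nat.blt_eq] at a
    have hn : 0 < n := Nat.pos_of_ne_zero fun e => by simp [hI, e, nat2, tab2] at a
    have b : yy I i < n := by rw [yy, i0]; exact Nat.mod_lt _ hn
    have b' := a.1.trans b
    simp only [lp, hi, cond_true, Bool.true_and, Nat.blt_eq, i1]
    generalize xx I i = x at *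
    generalize yy I i = y at *
    generalize i / (nn I * nn I) = j at a
    rw [hI] at a ⊢
    rw [nat2_tab2 _ b' b] at a
    exact ⟨a.1, b, Nat.zero_lt_of_lt a.2, nat1_tab _ b', nat1_tab _ b, nat2_tab2 _ b' b, trivial⟩
  have vn : ∀ i, ¬ vld I i = true → (lp I).a i = n ∧ (lp I).b i = n + 1 ∧ (lp I).c i = 0 ∧
      ¬ (lp I).cn i = true := fun i hi => by simp [lp, hi, i0]
  have vi : ∀ j x y, x < n → y < n → (vld I (idx I j x y) = true ↔ x ≠ y ∧ j < cap x y) :=
    fun j x y hx hy => by
    obtain ⟨a, b, d⟩ := idx_spec (I := I) j (i0 ▸ hx) (i0 ▸ hy)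
    simp only [vld, a, b, d, Bool.and_eq_true, Nat.blt_eq]
    rw [hI, nat2_tab2 _ (by omega) (by omega)]
    have := (c1 x y hx hy).1
    rcases le_total x y with c | c <;> simp [c, this] <;> omega
  have ok : (lp I).Ok := by
    refine ⟨by rw [hI]; exact h6, by rw [hI]; exact h2, by simp only [lp]; omega, fun i _ => ?_,
      fun i _ => ?_, fun i _ => ?_, fun i _ hi => ?_, fun i _ hi => ?_,
      id, fun q hq => absurd hq (Nat.not_lt_zero _), fun i _ => ⟨rfl, rfl⟩⟩ <;>
      by_cases d : vld I i = true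
    all_goals first
      | (have := vn i d; simp only [lp] at *; omega)
      | exact absurd hi (vn i d).2.2.2
      | skip
    all_goals
      obtain ⟨a1, a2, a3, a4, a5, _, a7⟩ := vl i d
      have := e1 _ a2
      have := e1 _ (a1.trans a2)
      have := e2 (xx I i)
      have := e2 (yy I i)
      have := e3 _ _ (a1.trans a2) a2 a1.ne a3
      simp only [a4, a5]
      simp only [lp] at *
      grind
  have gen : ∀ (Z : ℕ → ℕ) (W : ℕ → ℕ → ℕ), (∀ x y, x < n → y < n → W x y =
      ∑ j ∈ range B, if vld I (idx I j x y) = true then Z (idx I j x y) else 0) →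
      (∀ S, S ⊆ range N → ∑ i ∈ (range (lp I).m).filter ((lp I).cr S), Z i = dcut N W S) ∧
      (∀ p, p < n → ∑ i ∈ (range (lp I).m).filter ((lp I).hasEnd p), Z i =
        ∑ x ∈ range n, ∑ y ∈ range n, W x y * if e x = p then 1 else 0) ∧
      2 * ∑ i ∈ range (lp I).m, (lp I).c i * Z i = ∑ x ∈ range n, ∑ y ∈ range n, W x y * c x y := by
    intro Z W hW
    have k : ∀ ψ : ℕ → ℕ → ℕ, ∑ i ∈ range (lp I).m, (if vld I i = true then Z i else 0) *
        (ψ (xx I i) (yy I i) + ψ (yy I i) (xx I i)) =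
        ∑ x ∈ range n, ∑ y ∈ range n, W x y * ψ x y := fun ψ => by
      rw [key, i0, i2]
      exact sum_congr rfl fun x hx => sum_congr rfl fun y hy => by
        rw [hW x y (mem_range.1 hx) (mem_range.1 hy)]
    refine ⟨fun S hS => ?_, fun p hp => ?_, ?_⟩
    · rw [sum_filter]
      refine (sum_congr rfl fun i _ => ?_).trans
        ((k fun x y => if x ∈ S ∧ y ∈ range N \ S then 1 else 0).trans ?_)
      · by_cases d : vld I i = true
        · obtain ⟨a1, a2, a3, a4, a5, _, a7⟩ := vl i d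
          have := e2 (xx I i)
          have := e2 (yy I i)
          have := @hS (xx I i)
          have := @hS (yy I i)
          simp only [Rnd.LP.cr, a4, a5, a7, d, if_true, mem_sdiff, mem_range] at *
          grind
        · simp [Rnd.LP.cr, d, vn i d]
      · have hr : range N ⊆ range n := range_mono hN
        simp only [ite_and, mul_ite, mul_one, mul_zero, sum_ite_irrel, sum_const_zero, sum_ite_mem,
          inter_eq_right.2 (hS.trans hr), inter_eq_right.2 (sdiff_subset.trans hr), dcut]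
    · rw [sum_filter]
      refine (sum_congr rfl fun i _ => ?_).trans (k fun x _ => if e x = p then 1 else 0)
      by_cases d : vld I i = true
      · obtain ⟨a1, a2, a3, a4, a5, _⟩ := vl i d
        have := e3 _ _ (a1.trans a2) a2 a1.ne a3
        simp only [Rnd.LP.hasEnd, a4, a5, d, if_true]
        grind
      · have := vn i d
        simp only [Rnd.LP.hasEnd, d]
        grind
    · rw [mul_sum]
      refine (sum_congr rfl fun i _ => ?_).trans (k c)
      by_cases d : vld I i = true
      · obtain ⟨a1, a2, _, _, _, a6, _⟩ := vl i d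
        rw [a6, if_pos d, ← (c1 _ _ (a1.trans a2) a2).2.2.1]
        ring
      · simp [d, vn i d]
  obtain ⟨g1, g2, g3⟩ := gen (fun i => min μ (Y (xx I i) (yy I i) - i / (nn I * nn I) * μ)) Y
    fun x y hx hy => by
      have a := c1 x y hx hy
      rcases eq_or_ne x y with rfl | d
      · simp [vi _ _ _ hx hx, y0 x hx]
      · simp only [vi _ _ _ hx hy, idx_spec _ (i0 ▸ hx) (i0 ▸ hy), ne_eq, d, not_false_eq_true,
          true_and]
        rw [← sum_filter, show (range B).filter (· < cap x y) = range (cap x y) by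
          ext j; simp only [mem_filter, mem_range]; omega, sum_trunc]
        rcases le_total x y with c | c <;> simp only [c, min_eq_left, max_eq_right, min_eq_right,
          max_eq_left] <;> omega
  obtain ⟨f1, f2, f3⟩ := gen (fun i => if bit1 (sol I) i = true then 1 else 0) (out I)
    fun x y _ _ => by simp [out, sumB_eq, i2, Bool.cond_eq_ite, ite_and]
  obtain ⟨o1, o2, _, o3⟩ := Rnd.round_frac ok hμ
    (X := fun i => min μ (Y (xx I i) (yy I i) - i / (nn I * nn I) * μ)) (fun _ => min_le_left _ _)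
    (fun S a => by
      have a1 : S ⊆ range N := i1 ▸ a.1
      rw [g1 S a1]
      refine le_trans (le_of_eq (by rw [hI]; rfl)) (hc S a1 a.2.2 fun d => a.2.1 ?_)
      obtain ⟨x, hx⟩ := a.2.2
      have := mem_range.1 (a1 hx)
      exact d ▸ mem_range.2 (by omega))
    (fun p _ => by
      by_cases d : p < n
      · rw [g2 p d]
        refine le_trans (le_of_eq ?_) (hd p d)
        simp only [lp, i0, Bool.cond_eq_ite, Nat.blt_eq, d, if_true]
        rw [hI, nat1_tab _ d]
      · simp [lp, i0, Bool.cond_eq_ite, d]) fun p a => absurd a (Nat.not_lt_zero _)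
  have cv : ∀ (q : ℕ → Prop) [DecidablePred q],
      ((setOf1 (lp I).m (Rnd.out (lp I).code)).filter q).card =
      ∑ i ∈ (range (lp I).m).filter q, if bit1 (sol I) i = true then 1 else 0 := fun q _ => by
    rw [← card_filter, setOf1, filter_comm]
    rfl
  have sy : ∀ x y, out I x y = out I y x := fun x y => by
    simp only [out, idx_comm _ x y]
  have cut : ∀ X, X ⊆ range N → X.Nonempty → 0 ∉ X → K ≤ dcut N (out I) X + 2 :=
    fun X a b d => by
      have := o1 X ⟨(i1 ▸ a : X ⊆ range I.1), d, b⟩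
      rw [cv, f1 X a] at this
      exact le_trans (le_of_eq (by rw [hI]; rfl)) this
  refine ⟨fun x y hx hy => ⟨sy x y, ?_⟩, fun x hx => ?_, fun X a b d => ?_, fun p hp => ?_, ?_⟩
  · rw [out, sumB_eq]
    simp only [Bool.cond_eq_ite]
    rw [← card_filter]
    refine (card_le_card (t := range (cap x y)) fun j hj => ?_).trans (card_range _).le
    simp only [mem_filter, Bool.and_eq_true, vi _ _ _ hx hy] at hj
    exact mem_range.2 hj.2.1.2
  · simp [out, sumB_eq, Bool.cond_eq_ite, vi _ _ _ hx hx]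
  · by_cases d0 : 0 ∈ X
    · rw [← dcut_compl (fun x y _ _ => sy x y) a]
      exact cut _ sdiff_subset (sdiff_nonempty.2 fun e => d (Subset.antisymm a e)) (by simp [d0])
    · exact cut X a b d0
  · have := o2 p (by simp only [lp]; omega)
    rw [cv, f2 p hp] at this
    refine le_trans (le_of_eq ?_) this
    simp only [lp, i0, Bool.cond_eq_ite, Nat.blt_eq, hp, if_true]
    rw [hI, nat1_tab _ hp]
  · rw [← f3, ← g3]
    have : ∑ i ∈ setOf1 (lp I).m (Rnd.out (lp I).code), (lp I).c i =
        ∑ i ∈ range (lp I).m, (lp I).c i * if bit1 (sol I) i = true then 1 else 0 := by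
      rw [setOf1, sum_filter]
      exact sum_congr rfl fun i _ => by unfold sol; split_ifs <;> simp
    rw [this] at o3
    rw [mul_left_comm]
    omega

end ML

namespace Tour

def pk (C : List (List ℕ)) (L : List ℕ) : ℕ := argmin (C.length * C.length)
  (fun i => Nat.blt (nat1 L (i / C.length)) C.length && !(Nat.blt (nat1 L (i % C.length)) C.length))
  fun i => nat2 C (i / C.length) (i % C.length)
def step (C : List (List ℕ)) (L : List ℕ) : List ℕ := tab C.length fun p => min C.length
  (bif Nat.blt (pk C L) (C.length * C.length) then (bif p == pk C L / C.length then pk C L % C.length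
    else bif p == pk C L % C.length then nat1 L (pk C L / C.length) else nat1 L p) else nat1 L p)
def out (C : List (List ℕ)) : List ℕ :=
  (step C)^[C.length] (tab C.length fun p => bif p == 0 then 0 else C.length)

section
variable {α : Type} [Enc α]

@[fun_prop] theorem pf_pk {C : α → List (List ℕ)} {L : α → List ℕ} (h : PF C) (h1 : PF L) :
    PF fun a => pk (C a) (L a) := by unfold pk; fun_prop
@[fun_prop] theorem pf_step {C : α → List (List ℕ)} {L : α → List ℕ} (h : PF C) (h1 : PF L) :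
    PF fun a => step (C a) (L a) := by unfold step; fun_prop
@[fun_prop] theorem pf_out {C : α → List (List ℕ)} (h : PF C) : PF fun a => out (C a) :=
  pf_iter (st := fun a L => step (C a) L) (fun a => (C a).length * (2 * (C a).length + 1))
    (by fun_prop) (by fun_prop) (by fun_prop) (by fun_prop)
    fun _ _ => len_tab _ _ _ fun i _ => by simp

end

/-- The invariant of the insertion. -/
structure Inv (N j : ℕ) (c : ℕ → ℕ → ℕ) (V : Finset ℕ) (f : ℕ → ℕ) : Prop where
  mem : ∀ p, p ∈ V ↔ p < N ∧ f p < N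
  le : ∀ p, p < N → f p ≤ N
  map : ∀ p ∈ V, f p ∈ V
  inj : ∀ p ∈ V, ∀ q ∈ V, f p = f q → p = q
  conn : ∀ X, X ⊆ V → X.Nonempty → (∀ p ∈ X, f p ∈ X) → X = V
  ne : V.Nonempty
  card : min N (j + 1) ≤ V.card
  cost : ∀ L, (∀ p q, p < N → q < N → c p q ≤ L) → ∃ m : ℕ → ℕ,
    ∑ p ∈ V, c p (f p) ≤ 2 * ∑ θ ∈ range L, m θ ∧ ∀ θ, ∃ lab : ℕ → ℕ,
      (∀ p q, p < N → q < N → lab p ≠ lab q → θ < c p q) ∧ (∀ p, p ∉ V → lab p = m θ) ∧
      ∀ l, l ≤ m θ → ∃ p ∈ V, lab p = l

theorem step_spec {N j : ℕ} {c : ℕ → ℕ → ℕ} (hs : ∀ p q, p < N → q < N → c p q = c q p)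
    (ht : ∀ p q r, p < N → q < N → r < N → c p r ≤ c p q + c q r) {V : Finset ℕ} {L : List ℕ}
    (h : Inv N j c V (nat1 L)) : ∃ V', Inv N (j + 1) c V' (nat1 (step (tab2 N c) L)) := by
  have sub : V ⊆ range N := fun p hp => mem_range.2 ((h.mem p).1 hp).1
  by_cases a : pk (tab2 N c) L < N * N
  swap
  · have e : ∀ p, p < N → nat1 (step (tab2 N c) L) p = nat1 L p := fun p hp => by
      simp [step, nat1_tab _ hp, Bool.cond_eq_ite, a, h.le p hp]
    have eV : V = range N := Subset.antisymm sub fun q hq => by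
      by_contra d
      obtain ⟨p, hp⟩ := h.ne
      rw [mem_range] at hq
      rw [pk, length_tab2, argmin_lt_iff] at a
      refine a ⟨q + p * N, ?_, ?_⟩
      · have := mem_range.1 (sub hp)
        nlinarith
      · have := (h.mem p).1 hp
        have := h.mem q
        rw [Nat.add_mul_div_right _ _ (by omega), Nat.div_eq_of_lt hq, zero_add,
          Nat.add_mul_mod_self_right, Nat.mod_eq_of_lt hq]
        simp only [Bool.and_eq_true, Bool.not_eq_true', Bool.eq_false_iff, ne_eq, Nat.blt_eq]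
        tauto
    have e' := fun p (hp : p ∈ V) => e p (mem_range.1 (sub hp))
    refine ⟨V, fun p => (h.mem p).trans (and_congr_right fun hp => by rw [e p hp]),
      fun p hp => e p hp ▸ h.le p hp, fun p hp => e' p hp ▸ h.map p hp,
      fun p hp q hq d => h.inj p hp q hq (by rwa [e' p hp, e' q hq] at d),
      fun X a b d => h.conn X a b fun p hp => e' p (a hp) ▸ d p hp, h.ne,
      by rw [eV, card_range]; omega, fun L hL => ?_⟩
    rw [sum_congr rfl fun p hp => by rw [e' p hp]]
    exact h.cost L hL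
  have hn : 0 < N := Nat.pos_of_ne_zero fun e => by simp [e] at a
  obtain ⟨_, b1, b2⟩ := argmin_spec (fun i => nat2 (tab2 N c) (i / (tab2 N c).length)
    (i % (tab2 N c).length)) ((argmin_lt_iff _).1 ((length_tab2 N c).symm ▸ a :
      pk (tab2 N c) L < (tab2 N c).length * (tab2 N c).length))
  change (Nat.blt (nat1 L (pk (tab2 N c) L / _)) _ &&
    !(Nat.blt (nat1 L (pk (tab2 N c) L % _)) _)) = true at b1
  change ∀ j, _ → _ → nat2 _ (pk (tab2 N c) L / _) (pk (tab2 N c) L % _) ≤ _ at b2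
  have hu := Nat.div_lt_of_lt_mul a
  have hv := Nat.mod_lt (pk (tab2 N c) L) hn
  have e : ∀ p, p < N → nat1 (step (tab2 N c) L) p = if p = pk (tab2 N c) L / N then
      pk (tab2 N c) L % N else if p = pk (tab2 N c) L % N then nat1 L (pk (tab2 N c) L / N)
      else nat1 L p := fun p hp => by
    have := h.le p hp
    have := h.le _ hu
    simp only [step, length_tab2, nat1_tab _ hp, Bool.cond_eq_ite, Nat.blt_eq, a, if_true,
      beq_iff_eq]
    split_ifs <;> omega
  simp only [length_tab2, Bool.and_eq_true, Bool.not_eq_true', Bool.eq_false_iff, ne_eq,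
    Nat.blt_eq, nat2_tab2 _ hu hv] at b1 b2
  generalize pk (tab2 N c) L / N = u at *
  generalize pk (tab2 N c) L % N = v at *
  generalize nat1 (step (tab2 N c) L) = g at *
  generalize nat1 L = f at *
  have uV : u ∈ V := (h.mem u).2 ⟨hu, b1.1⟩
  have vV : v ∉ V := fun d => b1.2 ((h.mem v).1 d).2
  have mn : ∀ p ∈ V, ∀ q, q < N → q ∉ V → c u v ≤ c p q := fun p hp q hq d => by
    have p1 := (h.mem p).1 hp
    have := b2 (q + p * N) (by nlinarith)
    rw [Nat.add_mul_div_right _ _ hn, Nat.div_eq_of_lt hq, zero_add,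
      Nat.add_mul_mod_self_right, Nat.mod_eq_of_lt hq, nat2_tab2 _ p1.1 hq] at this
    exact this ⟨p1.2, fun e => d ((h.mem q).2 ⟨hq, e⟩)⟩
  have gu : g u = v := by rw [e u hu, if_pos rfl]
  have gv : g v = f u := by rw [e v hv, if_neg fun d : v = u => vV (d ▸ uV), if_pos rfl]
  have gp : ∀ p ∈ V, p ≠ u → g p = f p := fun p hp d => by
    rw [e p (mem_range.1 (sub hp)), if_neg d, if_neg fun d : p = v => vV (d ▸ hp)]
  have hm := h.map
  have hi := h.inj
  have tr := ht v u _ hv hu (mem_range.1 (sub (hm u uV)))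
  clear ht b2
  refine ⟨insert v V, fun p => ?_, fun p hp => ?_, fun p hp => ?_, fun p hp q hq d => ?_,
    fun X a b d => ?_, insert_nonempty _ _, ?_, fun L hL => ?_⟩
  · have := h.mem p
    have := e p
    rw [mem_insert]
    grind
  · have := h.le p hp
    have := e p hp
    grind
  · grind
  · grind
  · clear mn hs e
    have a' : ∀ p ∈ X, p ≠ v → p ∈ V := fun p hp d => (mem_insert.1 (a hp)).resolve_left d
    have := h.conn (X.erase v) (fun p hp => a' p (mem_erase.1 hp).2 (mem_erase.1 hp).1) (by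
      obtain ⟨p, hp⟩ := b
      by_cases d' : p = v
      · exact ⟨f u, by grind⟩
      · exact ⟨p, mem_erase.2 ⟨d', hp⟩⟩) fun p hp => by
        have := d v
        have := d p
        grind
    rw [← this, insert_erase (gu ▸ d u (mem_of_mem_erase (this ▸ uV)))]
  · have := h.card
    rw [card_insert_of_notMem vV]
    omega
  · obtain ⟨m, m1, m2⟩ := h.cost L hL
    refine ⟨fun θ => m θ + if θ < c u v then 1 else 0, ?_, fun θ => ?_⟩
    · have := hs u v hu hv
      rw [sum_insert vV, ← add_sum_erase _ _ uV, gu, gv, sum_congr rfl fun p hp => by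
        rw [gp p (mem_of_mem_erase hp) (ne_of_mem_erase hp)], sum_add_distrib, ← card_filter,
        show (range L).filter (· < c u v) = range (c u v) by
          have := hL u v hu hv
          ext θ; simp only [mem_filter, mem_range]; omega, card_range]
      rw [← add_sum_erase _ _ uV] at m1
      omega
    · obtain ⟨lab, l1, l2, l3⟩ := m2 θ
      by_cases d : θ < c u v
      · refine ⟨fun p => if p ∈ V then lab p else m θ + 1, fun p q hp hq d' => ?_,
          fun p hp => by grind, fun l hl => ?_⟩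
        · have := mn p
          have := mn q
          have := hs p q hp hq
          have := l1 p q hp hq
          grind
        · rcases Nat.lt_or_ge (m θ) l with d' | d'
          · exact ⟨v, mem_insert_self _ _, by grind⟩
          · obtain ⟨p, p1, p2⟩ := l3 l d'
            exact ⟨p, mem_insert_of_mem p1, by grind⟩
      · refine ⟨lab, l1, fun p hp => by grind, fun l hl => ?_⟩
        obtain ⟨p, p1, p2⟩ := l3 l (by grind)
        exact ⟨p, mem_insert_of_mem p1, p2⟩

theorem spec {N : ℕ} {c : ℕ → ℕ → ℕ} (hN : 0 < N) (h0 : c 0 0 = 0)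
    (hs : ∀ p q, p < N → q < N → c p q = c q p)
    (ht : ∀ p q r, p < N → q < N → r < N → c p r ≤ c p q + c q r) :
    Cyc N (nat1 (out (tab2 N c))) ∧ ∀ (K : ℕ) (m : ℕ → ℕ → ℕ),
      (∀ X, X ⊆ range N → X.Nonempty → X ≠ range N → K ≤ dcut N m X) →
      K * ∑ p ∈ range N, c p (nat1 (out (tab2 N c)) p) ≤
        2 * ∑ p ∈ range N, ∑ q ∈ range N, m p q * c p q := by
  have key : ∀ j, ∃ V, Inv N j c V
      (nat1 ((step (tab2 N c))^[j] (tab N fun p => bif p == 0 then 0 else N))) := by
    intro j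
    induction j with
    | zero =>
      have e : ∀ p, p < N → nat1 (tab N fun p => bif p == 0 then 0 else N) p =
          if p = 0 then 0 else N := fun p hp => by simp [nat1_tab _ hp, Bool.cond_eq_ite]
      have e0 := e 0 hN
      simp only [Function.iterate_zero, id]
      generalize nat1 (tab N fun p => bif p == 0 then 0 else N) = f at *
      refine ⟨{0}, fun p => by grind, fun p hp => by grind, by grind, by grind,
        fun X a b _ => b.subset_singleton_iff.1 a, singleton_nonempty _, by simp,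
        fun L _ => ⟨fun _ => 0, by simp [e0, h0], fun _ => ⟨fun _ => 0, by simp, by simp, by simp⟩⟩⟩
    | succ j ih =>
      obtain ⟨V, hV⟩ := ih
      rw [Function.iterate_succ_apply']
      exact step_spec hs ht hV
  obtain ⟨V, h⟩ := key N
  rw [show (step (tab2 N c))^[N] (tab N fun p => bif p == 0 then 0 else N) = out (tab2 N c) by
    simp [out]] at h
  generalize nat1 (out (tab2 N c)) = f at *
  obtain rfl : V = range N := eq_of_subset_of_card_le
    (fun p hp => mem_range.2 ((h.mem p).1 hp).1) (by have := h.card; rw [card_range]; omega)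
  refine ⟨⟨fun p hp => mem_range.1 (h.map p (mem_range.2 hp)), fun p q hp hq =>
    h.inj p (mem_range.2 hp) q (mem_range.2 hq), h.conn⟩, fun K m hm => ?_⟩
  obtain ⟨L, hL⟩ : ∃ L, ∀ x y, x < N → y < N → c x y ≤ L :=
    ⟨(range N ×ˢ range N).sup fun p => c p.1 p.2, fun x y hx hy =>
      le_sup (f := fun p : ℕ × ℕ => c p.1 p.2) (b := (x, y)) (by simp [hx, hy])⟩
  obtain ⟨l, l1, l2⟩ := h.cost L hL
  refine (Nat.mul_le_mul_left K l1).trans ?_
  rw [mul_left_comm, mul_sum]
  refine Nat.mul_le_mul_left 2 (le_trans (sum_le_sum (g := fun θ => ∑ p ∈ range N, ∑ q ∈ range N,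
    m p q * if θ < c p q then 1 else 0) fun θ _ => ?_) ?_)
  · obtain ⟨lab, a1, _, a3⟩ := l2 θ
    rw [mul_comm, ← card_range (l θ), ← smul_eq_mul]
    refine le_trans (card_nsmul_le_sum _ (fun i => ∑ p ∈ (range N).filter (lab · = i),
      ∑ q ∈ range N, m p q * if θ < c p q then 1 else 0) _ fun i hi => ?_) ?_
    · rw [mem_range] at hi
      obtain ⟨p, p1, p2⟩ := a3 i hi.le
      obtain ⟨q, q1, q2⟩ := a3 _ le_rfl
      refine (hm _ (filter_subset (lab · = i) _) ⟨p, mem_filter.2 ⟨p1, p2⟩⟩ fun e => ?_).trans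
        (sum_le_sum fun x hx => (sum_le_sum fun y hy => ?_).trans
          (sum_le_sum_of_subset sdiff_subset))
      · rw [← e, mem_filter] at q1
        omega
      · simp only [mem_sdiff, mem_filter, mem_range] at hx hy
        rw [if_pos (a1 x y hx.1 hy.1 (by omega)), mul_one]
    · rw [sum_fiberwise_eq_sum_filter]
      exact sum_le_sum_of_subset (filter_subset _ _)
  · rw [sum_comm]
    refine sum_le_sum fun p _ => ?_
    rw [sum_comm]
    refine sum_le_sum fun q _ => ?_
    rw [← mul_sum, ← card_filter]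
    exact Nat.mul_le_mul_left _ ((card_le_card (t := range (c p q)) fun θ hθ =>
      mem_range.2 (mem_filter.1 hθ).2).trans (card_range _).le)

end Tour

end Pool.Agent.Lib.MP_959bb6_lc
end

-- part Pool.Agent.Lib.MP_959bb6_lc.Rank
section

/-!
Rankings, greedy selections and lists of edges.
-/

set_option autoImplicit false

namespace Pool.Agent.Lib.MP_959bb6_lc

open Pool.Agent.Shared.PolyTime Enc Finset

/-- Position of `v` when `range n` is sorted by `key`. -/
def rank (n : ℕ) (key : ℕ → ℕ) (v : ℕ) : ℕ :=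
  cntB n fun w => Nat.blt (key w) (key v) || (key w == key v && Nat.blt w v)

/-- The index at position `j` when `range n` is sorted by `key`. -/
def atk (n : ℕ) (key : ℕ → ℕ) (j : ℕ) : ℕ := first n fun v => rank n key v == j

/-- A list whose entries are computed from the earlier entries. -/
def seqN (N B : ℕ) (f : ℕ → List ℕ → ℕ) : List ℕ :=
  (fun L => L ++ [min B (f L.length L)])^[N] []

/-- Greedy independent set. -/
def grd (N : ℕ) (ok : ℕ → Bool) (cf : ℕ → ℕ → Bool) : List ℕ :=
  seqN N 1 fun i L => bif ok i && !(anyB i fun j => nat1 L j == 1 && cf j i) then 1 else 0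

/-- Greedy colouring. -/
def ffc (N C : ℕ) (cf : ℕ → ℕ → Bool) : List ℕ :=
  seqN N C fun i L => first C fun c => !(anyB i fun j => nat1 L j == c && cf j i)

/-- Lists of edges. -/
abbrev EL : Type := List (ℕ × ℕ)

/-- The matrix of a list of edges. -/
def matOf (n : ℕ) (L : EL) : Mat := tab2 n fun u v =>
  !(u == v) && L.any fun p => (p.1 == u && p.2 == v) || (p.1 == v && p.2 == u)

/-- Concatenation of a family of lists. -/
def cat {β : Type} (a : ℕ) (f : ℕ → List β) : List β := (List.range a).flatMap fun i => f i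

/-- A single edge under a condition. -/
def opt (b : Bool) (u v : ℕ) : EL := bif b then [(u, v)] else []

/-- Sum over a list. -/
def ls {β : Type} (φ : β → ℕ) (L : List β) : ℕ := (L.map φ).sum

/-- Cost of a list of edges. -/
def lc (c : ℕ → ℕ → ℕ) (L : EL) : ℕ := ls (fun p => c p.1 p.2) L

section
variable {α : Type} [Enc α]

@[fun_prop] theorem pf_rank {n v : α → ℕ} {key : α → ℕ → ℕ} (hn : PF n)
    (hk : PF fun q : α × ℕ => key q.1 q.2) (hv : PF v) :
    PF fun a => rank (n a) (key a) (v a) := by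
  have h2 : PF fun q : α × ℕ => key q.1 (v q.1) :=
    hk.comp (g := fun q : α × ℕ => (q.1, v q.1)) (by fun_prop)
  exact pf_cntB (p := fun a w => Nat.blt (key a w) (key a (v a)) ||
    (key a w == key a (v a) && Nat.blt w (v a))) hn
    (PF.or' (PF.blt hk h2) (PF.and' (PF.beq hk h2) (by fun_prop)))

@[fun_prop] theorem pf_atk {n j : α → ℕ} {key : α → ℕ → ℕ} (hn : PF n)
    (hk : PF fun q : α × ℕ => key q.1 q.2) (hj : PF j) :
    PF fun a => atk (n a) (key a) (j a) :=
  pf_first (p := fun a v => rank (n a) (key a) v == j a) hn (PF.beq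
    (pf_rank (n := fun q : α × ℕ => n q.1) (key := fun q w => key q.1 w) (hn.comp (by fun_prop))
      (hk.comp (g := fun q : (α × ℕ) × ℕ => (q.1.1, q.2)) (by fun_prop)) (by fun_prop))
    (hj.comp (by fun_prop)))

theorem pf_seqN {N B : α → ℕ} {f : α → ℕ → List ℕ → ℕ} (hN : PF N) (hB : PF B)
    (hf : PF fun q : α × List ℕ => f q.1 q.2.length q.2) :
    PF fun a => seqN (N a) (B a) (f a) :=
  pf_iter_add (st := fun a L => L ++ [min (B a) (f a L.length L)]) (fun a => 2 * B a + 1) hN
    (PF.const _) (PF.append (by fun_prop) (PF.cons (PF.min' (hB.comp (by fun_prop)) hf)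
      (PF.const _))) (by fun_prop) fun a b => by simp

@[fun_prop] theorem pf_grd {N : α → ℕ} {ok : α → ℕ → Bool} {cf : α → ℕ → ℕ → Bool} (hN : PF N)
    (h1 : PF fun q : α × ℕ => ok q.1 q.2)
    (h2 : PF fun p : (α × ℕ) × ℕ => cf p.1.1 p.1.2 p.2) :
    PF fun a => grd (N a) (ok a) (cf a) :=
  pf_seqN (f := fun a i L => bif ok a i && !(anyB i fun j => nat1 L j == 1 && cf a j i) then 1
    else 0) hN (PF.const _) (PF.cond' (PF.and'
      (h1.comp (g := fun q : α × List ℕ => (q.1, q.2.length)) (by fun_prop))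
      (PF.not' (pf_anyB (N := fun q : α × List ℕ => q.2.length)
        (p := fun q j => nat1 q.2 j == 1 && cf q.1 j q.2.length) (by fun_prop)
        (PF.and' (by fun_prop) (h2.comp
          (g := fun q : (α × List ℕ) × ℕ => ((q.1.1, q.2), q.1.2.length)) (by fun_prop))))))
      (PF.const _) (PF.const _))

@[fun_prop] theorem pf_ffc {N C : α → ℕ} {cf : α → ℕ → ℕ → Bool} (hN : PF N) (hC : PF C)
    (h2 : PF fun p : (α × ℕ) × ℕ => cf p.1.1 p.1.2 p.2) :
    PF fun a => ffc (N a) (C a) (cf a) :=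
  pf_seqN (f := fun a i L => first (C a) fun c => !(anyB i fun j => nat1 L j == c && cf a j i))
    hN hC (pf_first (N := fun q : α × List ℕ => C q.1)
      (p := fun q c => !(anyB q.2.length fun j => nat1 q.2 j == c && cf q.1 j q.2.length))
      (hC.comp (by fun_prop)) (PF.not' (pf_anyB (N := fun q : (α × List ℕ) × ℕ => q.1.2.length)
        (p := fun q j => nat1 q.1.2 j == q.2 && cf q.1.1 j q.1.2.length) (by fun_prop)
        (PF.and' (by fun_prop) (h2.comp
          (g := fun q : ((α × List ℕ) × ℕ) × ℕ => ((q.1.1.1, q.2), q.1.1.2.length))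
            (by fun_prop))))))

@[fun_prop] theorem pf_matOf {n : α → ℕ} {L : α → EL} (hn : PF n) (hL : PF L) :
    PF fun a => matOf (n a) (L a) := by unfold matOf; fun_prop

@[fun_prop] theorem pf_cat {β : Type} [Enc β] {n : α → ℕ} {f : α → ℕ → List β} (hn : PF n)
    (hf : PF fun q : α × ℕ => f q.1 q.2) : PF fun a => cat (n a) (f a) :=
  PF.flatMap (f := fun a i => f a i) hn.range hf

@[fun_prop] theorem pf_opt {b : α → Bool} {u v : α → ℕ} (hb : PF b) (hu : PF u) (hv : PF v) :
    PF fun a => opt (b a) (u a) (v a) := by unfold opt; fun_prop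

end

section
variable {n : ℕ} {key : ℕ → ℕ}

theorem rank_eq (n : ℕ) (key : ℕ → ℕ) (v : ℕ) : rank n key v =
    ((range n).filter fun w => key w < key v ∨ (key w = key v ∧ w < v)).card := by
  simp [rank, cntB_eq]

theorem rank_lt_rank {v w : ℕ} (hv : v < n) (h : key v < key w ∨ (key v = key w ∧ v < w)) :
    rank n key v < rank n key w := by
  rw [rank_eq, rank_eq]
  refine card_lt_card (Finset.ssubset_iff_subset_ne.2 ⟨fun x hx => ?_, fun e => ?_⟩)
  · simp only [mem_filter] at hx ⊢
    exact ⟨hx.1, by omega⟩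
  · have : v ∈ (range n).filter fun x => key x < key w ∨ (key x = key w ∧ x < w) := by
      simp [hv, h]
    rw [← e] at this
    simp at this

theorem rank_lt {v : ℕ} (hv : v < n) : rank n key v < n := by
  rw [rank_eq]
  refine (card_lt_card (Finset.ssubset_iff_subset_ne.2 ⟨filter_subset _ _, fun e => ?_⟩)).trans_eq
    (card_range n)
  have := mem_range.2 hv
  rw [← e] at this
  simp at this

theorem rank_inj {v w : ℕ} (hv : v < n) (hw : w < n) (h : rank n key v = rank n key w) :
    v = w := by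
  by_contra e
  by_cases c : key v < key w ∨ (key v = key w ∧ v < w)
  · exact (rank_lt_rank hv c).ne h
  · exact (rank_lt_rank hw (by omega)).ne' h

theorem key_le {v w : ℕ} (hw : w < n) (h : rank n key v ≤ rank n key w) : key v ≤ key w := by
  by_contra c
  exact absurd (rank_lt_rank (key := key) (w := v) hw (by omega)) (by omega)

theorem atk_spec (key : ℕ → ℕ) {j : ℕ} (hj : j < n) :
    atk n key j < n ∧ rank n key (atk n key j) = j := by
  have e : (range n).image (rank n key) = range n :=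
    eq_of_subset_of_card_le (fun q hq => by
      obtain ⟨v, hv, rfl⟩ := mem_image.1 hq
      exact mem_range.2 (rank_lt (mem_range.1 hv))) (by
      rw [card_image_of_injOn fun u hu v hv e =>
        rank_inj (mem_range.1 (mem_coe.1 hu)) (mem_range.1 (mem_coe.1 hv)) e])
  obtain ⟨v, hv, e'⟩ := mem_image.1 (e ▸ mem_range.2 hj)
  obtain ⟨a, b, _⟩ := first_spec (N := n) (p := fun v => rank n key v == j)
    ⟨v, mem_range.1 hv, by simp [e']⟩
  exact ⟨a, beq_iff_eq.1 b⟩

theorem atk_rank {v : ℕ} (hv : v < n) : atk n key (rank n key v) = v :=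
  rank_inj (atk_spec key (rank_lt hv)).1 hv (atk_spec key (rank_lt hv)).2

theorem card_rank (key : ℕ → ℕ) {q : ℕ} (hq : q ≤ n) :
    ((range n).filter fun v => rank n key v < q).card = q := by
  refine (card_bij (t := range q) (fun v _ => rank n key v)
    (fun v hv => mem_range.2 (mem_filter.1 hv).2) (fun u hu v hv e =>
      rank_inj (mem_range.1 (mem_filter.1 hu).1) (mem_range.1 (mem_filter.1 hv).1) e)
    fun j hj => ?_).trans (card_range q)
  obtain ⟨a, b⟩ := atk_spec key ((mem_range.1 hj).trans_le hq)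
  exact ⟨_, mem_filter.2 ⟨mem_range.2 a, by rw [b]; exact mem_range.1 hj⟩, b⟩

theorem rank_lt_iff (p : ℕ → Prop) [DecidablePred p] (hp : ∀ a b, a ≤ b → p b → p a) {v : ℕ}
    (hv : v < n) : rank n key v < ((range n).filter fun w => p (key w)).card ↔ p (key v) := by
  constructor
  · intro h
    by_contra c
    refine absurd h (not_lt.2 ?_)
    rw [rank_eq]
    refine card_le_card fun x hx => ?_
    simp only [mem_filter] at hx ⊢
    exact ⟨hx.1, Or.inl (not_le.1 fun e => c (hp _ _ e hx.2))⟩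
  · intro h
    rw [rank_eq]
    refine card_lt_card (Finset.ssubset_iff_subset_ne.2 ⟨fun x hx => ?_, fun e => ?_⟩)
    · simp only [mem_filter] at hx ⊢
      exact ⟨hx.1, hp _ _ (by omega) h⟩
    · have : v ∈ (range n).filter fun w => p (key w) := by simp [hv, h]
      rw [← e] at this
      simp at this

end

theorem seqN_succ (N B : ℕ) (f : ℕ → List ℕ → ℕ) : seqN (N + 1) B f =
    seqN N B f ++ [min B (f (seqN N B f).length (seqN N B f))] :=
  Function.iterate_succ_apply' _ _ _

theorem seqN_length (N B : ℕ) (f : ℕ → List ℕ → ℕ) : (seqN N B f).length = N := by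
  induction N with
  | zero => rfl
  | succ N ih => rw [seqN_succ, List.length_append, ih]; rfl

theorem seqN_spec (B : ℕ) (f : ℕ → List ℕ → ℕ) {N i : ℕ} (h : i < N) :
    nat1 (seqN N B f) i = min B (f i (seqN i B f)) := by
  induction N with
  | zero => omega
  | succ N ih =>
    rw [seqN_succ, seqN_length]
    rcases Nat.lt_succ_iff_lt_or_eq.1 h with c | c
    · rw [← ih c, nat1, nat1, List.getD_append _ _ _ _ (by rw [seqN_length]; exact c)]
    · subst c
      rw [nat1, List.getD_append_right _ _ _ _ (by rw [seqN_length]), seqN_length]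
      simp

theorem grd_iff {N i : ℕ} (ok : ℕ → Bool) (cf : ℕ → ℕ → Bool) (h : i < N) :
    nat1 (grd N ok cf) i = 1 ↔
      ok i = true ∧ ∀ j, j < i → nat1 (grd N ok cf) j = 1 → ¬ cf j i = true := by
  have e : ∀ j, j < i → nat1 (grd i ok cf) j = nat1 (grd N ok cf) j := fun j hj => by
    rw [grd, grd, seqN_spec _ _ hj, seqN_spec _ _ (hj.trans h)]
  conv_lhs => rw [grd, seqN_spec _ _ h]
  change min 1 (bif ok i && !(anyB i fun j => nat1 (grd i ok cf) j == 1 && cf j i) then 1
    else 0) = 1 ↔ _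
  rw [Bool.cond_eq_ite]
  split_ifs with c
  · simp only [Bool.and_eq_true, Bool.not_eq_true', Bool.eq_false_iff, ne_eq, anyB_iff,
      beq_iff_eq, not_exists, not_and] at c
    exact iff_of_true rfl ⟨c.1, fun j hj a => c.2 j hj (e j hj ▸ a)⟩
  · refine iff_of_false (by simp) fun a => c ?_
    simp only [Bool.and_eq_true, Bool.not_eq_true', Bool.eq_false_iff, ne_eq, anyB_iff,
      beq_iff_eq, not_exists, not_and]
    exact ⟨a.1, fun j hj b => a.2 j hj (e j hj ▸ b)⟩

theorem ffc_spec {N C : ℕ} (cf : ℕ → ℕ → Bool) {i : ℕ} (h : i < N)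
    (hd : ((range i).filter fun j => cf j i = true).card < C) :
    nat1 (ffc N C cf) i < C ∧
      ∀ j, j < i → cf j i = true → nat1 (ffc N C cf) j ≠ nat1 (ffc N C cf) i := by
  have e : ∀ j, j < i → nat1 (ffc i C cf) j = nat1 (ffc N C cf) j := fun j hj => by
    rw [ffc, ffc, seqN_spec _ _ hj, seqN_spec _ _ (hj.trans h)]
  obtain ⟨c, c1, c2⟩ := exists_mem_notMem_of_card_lt_card (s := ((range i).filter
    fun j => cf j i = true).image (nat1 (ffc i C cf))) (t := range C)
    (card_image_le.trans_lt (by simpa using hd))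
  obtain ⟨a, b, _⟩ := first_spec (N := C)
    (p := fun c => !(anyB i fun j => nat1 (ffc i C cf) j == c && cf j i)) ⟨c, mem_range.1 c1, by
      simp only [Bool.not_eq_true', Bool.eq_false_iff, ne_eq, anyB_iff, Bool.and_eq_true,
        beq_iff_eq, not_exists, not_and]
      exact fun j hj a b => c2 (mem_image.2 ⟨j, mem_filter.2 ⟨mem_range.2 hj, b⟩, a⟩)⟩
  have e2 : nat1 (ffc N C cf) i =
      first C fun c => !(anyB i fun j => nat1 (ffc i C cf) j == c && cf j i) := by
    rw [ffc, seqN_spec _ _ h]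
    exact min_eq_right a.le
  rw [← e2] at a b
  simp only [Bool.not_eq_true', Bool.eq_false_iff, ne_eq, anyB_iff, Bool.and_eq_true,
    beq_iff_eq, not_exists, not_and] at b
  exact ⟨a, fun j hj c d => b j hj (e j hj ▸ d) c⟩

theorem entry_matOf {n : ℕ} (L : EL) {u v : ℕ} (hu : u < n) (hv : v < n) :
    entry (matOf n L) u v = true ↔ u ≠ v ∧ ((u, v) ∈ L ∨ (v, u) ∈ L) := by
  rw [matOf, entry_tab2 _ hu hv]
  simp only [Bool.and_eq_true, Bool.not_eq_true', beq_eq_false_iff_ne, List.any_eq_true,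
    Bool.or_eq_true, beq_iff_eq]
  refine and_congr_right fun _ => ⟨?_, fun h => h.elim (fun h => ⟨_, h, Or.inl ⟨rfl, rfl⟩⟩)
    fun h => ⟨_, h, Or.inr ⟨rfl, rfl⟩⟩⟩
  rintro ⟨⟨a, b⟩, h, ⟨rfl, rfl⟩ | ⟨rfl, rfl⟩⟩
  · exact Or.inl h
  · exact Or.inr h

theorem sym_matOf (n : ℕ) (L : EL) : Sym n (matOf n L) :=
  ⟨fun u v hu hv => by
    rw [Bool.eq_iff_iff, entry_matOf _ hu hv, entry_matOf _ hv hu, or_comm, ne_comm],
    fun u hu => Bool.eq_false_iff.2 fun e => ((entry_matOf _ hu hu).1 e).1 rfl⟩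

theorem mem_cat {β : Type} {a : ℕ} {f : ℕ → List β} {p : β} :
    p ∈ cat a f ↔ ∃ i, i < a ∧ p ∈ f i := by
  simp [cat]

theorem mem_opt {b : Bool} {u v : ℕ} {p : ℕ × ℕ} : p ∈ opt b u v ↔ b = true ∧ p = (u, v) := by
  cases b <;> simp [opt]

theorem ls_append {β : Type} (φ : β → ℕ) (L L' : List β) :
    ls φ (L ++ L') = ls φ L + ls φ L' := by simp [ls]

theorem ls_cat {β : Type} (φ : β → ℕ) (a : ℕ) (f : ℕ → List β) :
    ls φ (cat a f) = ∑ i ∈ range a, ls φ (f i) := by
  induction a with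
  | zero => rfl
  | succ a ih =>
    rw [sum_range_succ, ← ih, cat, List.range_succ, List.flatMap_append, ls_append]
    simp [cat]

theorem ls_tab {β : Type} (φ : β → ℕ) (a : ℕ) (f : ℕ → β) :
    ls φ (tab a f) = ∑ i ∈ range a, φ (f i) := by
  rw [← sum_tab, ls, tab, tab, List.map_map]
  rfl

theorem tab_getD {β : Type} (L : List β) (d : β) : tab L.length (fun i => L.getD i d) = L := by
  refine List.ext_getElem (by simp) fun i h1 h2 => ?_
  simp [tab, List.getD_eq_getElem?_getD, h2]

theorem ls_getD {β : Type} (φ : β → ℕ) (L : List β) (d : β) :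
    ls φ L = ∑ i ∈ range L.length, φ (L.getD i d) := by
  rw [← ls_tab, tab_getD]

theorem mem_tab {β : Type} {a : ℕ} {f : ℕ → β} {p : β} : p ∈ tab a f ↔ ∃ i, i < a ∧ f i = p := by
  simp [tab]

theorem getD_mem {β : Type} {L : List β} (d : β) {i : ℕ} (h : i < L.length) : L.getD i d ∈ L := by
  simp [List.getD_eq_getElem?_getD, h]

theorem lc_append (c : ℕ → ℕ → ℕ) (L L' : EL) : lc c (L ++ L') = lc c L + lc c L' :=
  ls_append _ _ _

theorem lc_cat (c : ℕ → ℕ → ℕ) (a : ℕ) (f : ℕ → EL) :
    lc c (cat a f) = ∑ i ∈ range a, lc c (f i) := ls_cat _ _ _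

theorem lc_tab (c : ℕ → ℕ → ℕ) (a : ℕ) (f : ℕ → ℕ × ℕ) :
    lc c (tab a f) = ∑ i ∈ range a, c (f i).1 (f i).2 := ls_tab _ _ _

theorem lc_opt (c : ℕ → ℕ → ℕ) (b : Bool) (u v : ℕ) :
    lc c (opt b u v) = if b = true then c u v else 0 := by
  cases b <;> simp [opt, lc, ls]

theorem sum_matOf {n : ℕ} (c : ℕ → ℕ → ℕ) (L : EL) :
    cst2 n c (matOf n L) ≤ lc c L + lc (fun u v => c v u) L := by
  have key : ∀ (c : ℕ → ℕ → ℕ) (L : EL), ∑ u ∈ range n, ∑ v ∈ range n,
      (if (u, v) ∈ L then c u v else 0) ≤ lc c L := by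
    intro c L
    induction L with
    | nil => simp [lc, ls]
    | cons p L ih =>
      have e : ∑ u ∈ range n, ∑ v ∈ range n, (if (u, v) = p then c u v else 0) ≤ c p.1 p.2 := by
        rw [← sum_product', ← sum_filter]
        refine (sum_le_sum_of_subset (t := {p}) fun x hx => ?_).trans (sum_singleton _ _).le
        exact mem_singleton.2 (mem_filter.1 hx).2
      refine le_trans ?_ (Nat.add_le_add e ih)
      simp only [← sum_add_distrib]
      refine sum_le_sum fun u _ => sum_le_sum fun v _ => ?_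
      simp only [List.mem_cons]
      split_ifs <;> first | omega | tauto
  refine le_trans ?_ (Nat.add_le_add (key c L) (key _ L))
  rw [sum_comm (f := fun u v => if (u, v) ∈ L then c v u else 0)]
  simp only [cst2, cstAt, ← sum_add_distrib]
  refine sum_le_sum fun u hu => sum_le_sum fun v hv => ?_
  rw [ind_eq]
  simp only [entry_matOf _ (mem_range.1 hu) (mem_range.1 hv)]
  split_ifs <;> first | omega | tauto

end Pool.Agent.Lib.MP_959bb6_lc
end

-- part Pool.Agent.Lib.MP_959bb6_lc.Class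
section

/-!
One colour class of a balanced supermodular colouring.
-/

set_option autoImplicit false

namespace Pool.Agent.Lib.MP_959bb6_lc.Cl

open Pool.Agent.Shared.PolyTime Enc Finset

/-- Input: capacities, tails, ground set, sink, demand and number of colours. -/
abbrev In : Type := List (List ℕ) × List ℕ × List Bool × ℕ × ℕ × ℕ

def nh (K : In) : ℕ := K.1.length
def mm (K : In) : ℕ := K.2.1.length
def tl (K : In) (f : ℕ) : ℕ := nat1 K.2.1 f
def ee (K : In) (f : ℕ) : Bool := bit1 K.2.2.1 f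
def sk (K : In) : ℕ := K.2.2.2.1
def dm (K : In) : ℕ := K.2.2.2.2.1
def pp (K : In) : ℕ := K.2.2.2.2.2

def crit (K : In) (C : List Bool) (e x : ℕ) : Bool :=
  (Fl.mc (tab2 (nh K) fun u v => nat2 K.1 u v, tab (nh K) fun v => v == tl K e,
    tab (nh K) fun v => v == sk K || anyB (mm K) fun f => (bit1 C f || f == x) && tl K f == v,
    dm K - pp K + 1)).1
def csz (K : In) (C : List Bool) (e : ℕ) : ℕ := cntB (mm K) fun x => ee K x && !(crit K C e x)
def dep (K : In) (C : List Bool) (e : ℕ) : Bool :=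
  (Fl.mc (tab2 (nh K) fun u v => nat2 K.1 u v + bif v == sk K then
      cntB (mm K) fun f => ee K f && !(bit1 C f) && !(f == e) && tl K f == u else 0,
    tab (nh K) fun v => v == tl K e, tab (nh K) fun v => v == sk K, dm K - 1)).1
def e1 (K : In) (C : List Bool) : ℕ :=
  argmin (mm K) (fun e => ee K e && crit K C e (mm K)) fun e => csz K C e
def e2 (K : In) (C : List Bool) : ℕ :=
  first (mm K) fun e => ee K e && !(bit1 C e) && !(dep K C e)
def tg (K : In) : ℕ := (cntB (mm K) fun f => ee K f) / pp K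
def step (K : In) (C : List Bool) : List Bool := tab (mm K) fun f => bit1 C f ||
  bif Nat.blt (e1 K C) (mm K) then f == e1 K C else
    Nat.blt (cntB (mm K) fun g => bit1 C g) (tg K) && f == e2 K C
def out (K : In) : List Bool := (step K)^[mm K + 1] (tab (mm K) fun _ => false)

section
variable {α : Type} [Enc α]

@[fun_prop] theorem pf_nh {K : α → In} (h : PF K) : PF fun a => nh (K a) := by unfold nh; fun_prop
@[fun_prop] theorem pf_mm {K : α → In} (h : PF K) : PF fun a => mm (K a) := by unfold mm; fun_prop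
@[fun_prop] theorem pf_sk {K : α → In} (h : PF K) : PF fun a => sk (K a) := by unfold sk; fun_prop
@[fun_prop] theorem pf_dm {K : α → In} (h : PF K) : PF fun a => dm (K a) := by unfold dm; fun_prop
@[fun_prop] theorem pf_pp {K : α → In} (h : PF K) : PF fun a => pp (K a) := by unfold pp; fun_prop
@[fun_prop] theorem pf_tl {K : α → In} {f : α → ℕ} (h : PF K) (h1 : PF f) :
    PF fun a => tl (K a) (f a) := by unfold tl; fun_prop
@[fun_prop] theorem pf_ee {K : α → In} {f : α → ℕ} (h : PF K) (h1 : PF f) :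
    PF fun a => ee (K a) (f a) := by unfold ee; fun_prop
@[fun_prop] theorem pf_crit {K : α → In} {C : α → List Bool} {e x : α → ℕ} (h : PF K) (h1 : PF C)
    (h2 : PF e) (h3 : PF x) : PF fun a => crit (K a) (C a) (e a) (x a) := by
  unfold crit; fun_prop
@[fun_prop] theorem pf_csz {K : α → In} {C : α → List Bool} {e : α → ℕ} (h : PF K) (h1 : PF C)
    (h2 : PF e) : PF fun a => csz (K a) (C a) (e a) := by unfold csz; fun_prop
@[fun_prop] theorem pf_dep {K : α → In} {C : α → List Bool} {e : α → ℕ} (h : PF K) (h1 : PF C)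
    (h2 : PF e) : PF fun a => dep (K a) (C a) (e a) := by unfold dep; fun_prop
@[fun_prop] theorem pf_e1 {K : α → In} {C : α → List Bool} (h : PF K) (h1 : PF C) :
    PF fun a => e1 (K a) (C a) := by unfold e1; fun_prop
@[fun_prop] theorem pf_e2 {K : α → In} {C : α → List Bool} (h : PF K) (h1 : PF C) :
    PF fun a => e2 (K a) (C a) := by unfold e2; fun_prop
@[fun_prop] theorem pf_tg {K : α → In} (h : PF K) : PF fun a => tg (K a) := by unfold tg; fun_prop
@[fun_prop] theorem pf_step {K : α → In} {C : α → List Bool} (h : PF K) (h1 : PF C) :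
    PF fun a => step (K a) (C a) := by unfold step; fun_prop
@[fun_prop] theorem pf_out {K : α → In} (h : PF K) : PF fun a => out (K a) :=
  pf_iter (st := fun a C => step (K a) C) (fun a => mm (K a) * (2 * 1 + 1))
    (by fun_prop) (by fun_prop) (by fun_prop) (by fun_prop) fun _ _ =>
      len_tab _ _ _ fun _ _ => by simp

end

/-- The ground set. -/
def EE (K : In) : Finset ℕ := (range (mm K)).filter fun f => ee K f = true
/-- Elements whose tail is in `W`. -/
def XX (K : In) (W : Finset ℕ) : Finset ℕ := (EE K).filter fun f => tl K f ∈ W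
/-- Value of a cut without the ground set. -/
def ta (K : In) (W : Finset ℕ) : ℕ := dcut (nh K) (fun u v => nat2 K.1 u v) W
/-- Relevant cuts. -/
def Gd (K : In) (N : ℕ) (W : Finset ℕ) : Prop :=
  W ⊆ range (nh K) ∧ sk K ∉ W ∧ ∃ u ∈ W, u < N

/-- Admissible input. -/
structure Ok (K : In) (N : ℕ) (o : ℕ → ℕ) : Prop where
  tlt : ∀ f ∈ EE K, tl K f < nh K
  slt : sk K < nh K
  pos : 0 < pp K
  ple : pp K ≤ dm K
  nor : ∀ W, W ⊆ range (nh K) → ta K W < dm K → ∀ f ∈ XX K W, o f ∈ W ∧ o f < N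
  c1 : ∀ W, Gd K N W → dm K ≤ ta K W + (XX K W).card
  c2 : ∀ W, Gd K N W → dm K ≤ ta K W + pp K

variable {K : In} {N : ℕ} {o : ℕ → ℕ}

theorem mem_XX {W : Finset ℕ} {f : ℕ} : f ∈ XX K W ↔ f ∈ EE K ∧ tl K f ∈ W := mem_filter

theorem XX_inter (W V : Finset ℕ) : XX K (W ∩ V) = XX K W ∩ XX K V := by
  ext f; simp only [mem_XX, mem_inter]; tauto

theorem XX_union (W V : Finset ℕ) : XX K (W ∪ V) = XX K W ∪ XX K V := by
  ext f; simp only [mem_XX, mem_union]; tauto

/-- Small cuts that contain a given tail. -/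
def Sm (K : In) (e : ℕ) (W : Finset ℕ) : Prop := W ⊆ range (nh K) ∧ sk K ∉ W ∧ e ∈ XX K W

theorem Sm.gd (h : Ok K N o) {e : ℕ} {W : Finset ℕ} (a : Sm K e W) (b : ta K W < dm K) :
    Gd K N W := ⟨a.1, a.2.1, _, h.nor W a.1 b e a.2.2⟩

theorem Sm.both (h : Ok K N o) {e : ℕ} {W V : Finset ℕ} (a : Sm K e W) (a' : Sm K e V)
    (b : ta K W < dm K) (b' : ta K V < dm K) : Gd K N (W ∩ V) ∧ Gd K N (W ∪ V) ∧
      Sm K e (W ∩ V) ∧ ta K (W ∩ V) + ta K (W ∪ V) ≤ ta K W + ta K V := by
  have c := h.nor W a.1 b e a.2.2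
  have c' := h.nor V a'.1 b' e a'.2.2
  exact ⟨⟨inter_subset_left.trans a.1, by simp [a.2.1], _, mem_inter.2 ⟨c.1, c'.1⟩, c.2⟩,
    ⟨union_subset a.1 a'.1, by simp [a.2.1, a'.2.1], _, mem_union_left _ c.1, c.2⟩,
    ⟨inter_subset_left.trans a.1, by simp [a.2.1], by simp [XX_inter, a.2.2, a'.2.2]⟩,
    dcut_submod _ a.1 a'.1⟩

theorem crit_iff (h : Ok K N o) {C : List Bool} (hC : setOf1 (mm K) C ⊆ EE K) {e x : ℕ}
    (he : e ∈ EE K) (hx : x ∈ EE K ∨ x = mm K) : crit K C e x = true ↔ ∃ W, Sm K e W ∧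
      ta K W + pp K ≤ dm K ∧ Disjoint (XX K W) (setOf1 (mm K) C) ∧ x ∉ XX K W := by
  have := h.ple
  rw [crit, mc_iff]
  refine exists_congr fun W => ?_
  simp only [beq_iff_eq, Bool.or_eq_true, anyB_iff, Bool.and_eq_true, Sm, mem_XX, he, true_and,
    Finset.disjoint_left, mem_setOf1]
  constructor
  · rintro ⟨a, b, c, d⟩
    exact ⟨⟨a, c _ h.slt (Or.inl rfl), b _ (h.tlt e he) rfl⟩, by unfold ta; omega,
      fun f hf g => c _ (h.tlt f hf.1) (Or.inr ⟨f, g.1, Or.inl g.2, rfl⟩) hf.2,
      fun g => c _ (h.tlt x g.1) (Or.inr ⟨x, mem_range.1 (mem_filter.1 g.1).1, Or.inr rfl, rfl⟩) g.2⟩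
  · rintro ⟨⟨a, b, c⟩, d, f, g⟩
    refine ⟨a, fun _ _ e => e ▸ c, ?_, by unfold ta at d; omega⟩
    rintro i _ (rfl | ⟨y, y1, y2 | rfl, rfl⟩)
    · exact b
    · exact fun z => f ⟨hC (mem_setOf1.2 ⟨y1, y2⟩), z⟩ ⟨y1, y2⟩
    · exact fun z => g ⟨hx.resolve_right y1.ne, z⟩

theorem dep_iff (h : Ok K N o) {C : List Bool} {e : ℕ} (he : e ∈ EE K)
    (heC : e ∉ setOf1 (mm K) C) : dep K C e = true ↔
      ∃ W, Sm K e W ∧ ta K W + (XX K W \ setOf1 (mm K) C).card < dm K := by
  rw [dep, mc_iff]
  refine exists_congr fun W => ?_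
  have key : W ⊆ range (nh K) → sk K ∉ W → e ∈ XX K W →
      dcut (nh K) (fun u v => nat2 K.1 u v + bif v == sk K then cntB (mm K) fun f =>
        ee K f && !(bit1 C f) && !(f == e) && tl K f == u else 0) W + 1 =
        ta K W + (XX K W \ setOf1 (mm K) C).card := by
    intro a b c
    rw [← card_erase_add_one (mem_sdiff.2 ⟨c, heC⟩), card_eq_sum_card_fiberwise (f := tl K) (t := W)
      fun f hf => (mem_XX.1 (mem_sdiff.1 (mem_of_mem_erase hf)).1).2]
    simp only [ta, dcut, sum_add_distrib, add_assoc, Bool.cond_eq_ite, beq_iff_eq, sum_ite_eq',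
      mem_sdiff, mem_range, h.slt, b, not_false_eq_true, and_self, if_true]
    congr 2
    refine sum_congr rfl fun u hu => ?_
    rw [cntB_eq]
    congr 1
    ext f
    simp only [mem_filter, mem_range, Bool.and_eq_true, Bool.not_eq_true', beq_eq_false_iff_ne,
      beq_iff_eq, mem_erase, mem_sdiff, mem_XX, EE, mem_setOf1]
    grind
  simp only [beq_iff_eq]
  constructor
  · rintro ⟨a, b, c, d⟩
    have c' := c _ h.slt rfl
    have b' := mem_XX.2 ⟨he, b _ (h.tlt e he) rfl⟩
    exact ⟨⟨a, c', b'⟩, by have := key a c' b'; omega⟩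
  · rintro ⟨⟨a, b, c⟩, d⟩
    exact ⟨a, fun _ _ e => e ▸ (mem_XX.1 c).2, fun _ _ e => e ▸ b, by have := key a b c; omega⟩

/-- A minimal critical set. -/
def MinC (K : In) (e : ℕ) (W : Finset ℕ) : Prop := Sm K e W ∧ ta K W + pp K ≤ dm K ∧
  ∀ x V, Sm K x V → ta K V + pp K ≤ dm K → XX K V ⊆ XX K W → XX K V = XX K W

/-- The invariant. -/
structure Inv (K : In) (N : ℕ) (C : Finset ℕ) : Prop where
  sub : C ⊆ EE K
  ind : ∀ W, Gd K N W → dm K ≤ ta K W + (XX K W \ C).card + 1
  le : C.card ≤ tg K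
  fam : (∀ e W, Sm K e W → ta K W + pp K ≤ dm K → ¬ Disjoint (XX K W) C) ∨
    ∃ V : ℕ → Finset ℕ, (∀ c ∈ C, MinC K c (V c)) ∧
      ∀ c ∈ C, ∀ d ∈ C, c ≠ d → Disjoint (XX K (V c)) (XX K (V d))

theorem tg_eq : tg K = (EE K).card / pp K := by rw [tg, cntB_eq, EE]

theorem ind_insert {C : Finset ℕ} (hC : Inv K N C) {e : ℕ}
    (hn : ∀ W, Sm K e W → dm K ≤ ta K W + (XX K W \ C).card) (W : Finset ℕ) (hW : Gd K N W) :
    dm K ≤ ta K W + (XX K W \ insert e C).card + 1 := by
  rw [sdiff_insert]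
  by_cases c : e ∈ XX K W
  · have := hn W ⟨hW.1, hW.2.1, c⟩
    have := pred_card_le_card_erase (s := XX K W \ C) (a := e)
    omega
  · rw [erase_eq_of_notMem fun a => c (mem_sdiff.1 a).1]
    exact hC.ind W hW

theorem step_spec (h : Ok K N o) {C : List Bool} (hC : Inv K N (setOf1 (mm K) C)) :
    Inv K N (setOf1 (mm K) (step K C)) ∧
      ((setOf1 (mm K) (step K C)).card = (setOf1 (mm K) C).card + 1 ∨
        setOf1 (mm K) (step K C) = setOf1 (mm K) C ∧ (setOf1 (mm K) C).card = tg K ∧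
        ∀ e W, Sm K e W → ta K W + pp K ≤ dm K → ¬ Disjoint (XX K W) (setOf1 (mm K) C)) := by
  classical
  have hp := h.pos
  have hm : ∀ W, mm K ∉ XX K W := fun W a => by simp [mem_XX, EE] at a
  have mE : ∀ {e}, e ∈ EE K ↔ e < mm K ∧ ee K e = true := by simp [EE]
  have ins : ∀ e, e < mm K → setOf1 (mm K) (tab (mm K) fun f => bit1 C f || f == e) =
      insert e (setOf1 (mm K) C) := fun e he => by
    ext f
    simp only [setOf1_tab, mem_filter, mem_range, Bool.or_eq_true, beq_iff_eq, mem_insert,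
      mem_setOf1]
    grind
  by_cases c1 : e1 K C < mm K
  · obtain ⟨_, a2, a3⟩ := argmin_spec (fun e => csz K C e) ((argmin_lt_iff _).1 c1)
    have es : setOf1 (mm K) (step K C) = insert (e1 K C) (setOf1 (mm K) C) := by
      rw [← ins _ c1, step, show Nat.blt (e1 K C) (mm K) = true from Nat.blt_eq.symm ▸ c1]
      rfl
    change (ee K (e1 K C) && crit K C (e1 K C) (mm K)) = true at a2
    change ∀ j, _ → _ → csz K C (e1 K C) ≤ _ at a3
    rw [es]
    generalize e1 K C = e at *
    rw [Bool.and_eq_true] at a2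
    have he := mE.2 ⟨c1, a2.1⟩
    have least : ∀ x ∈ EE K, (∃ W, Sm K x W ∧ ta K W + pp K ≤ dm K ∧
        Disjoint (XX K W) (setOf1 (mm K) C)) → ∃ W, (Sm K x W ∧ ta K W + pp K ≤ dm K ∧
        Disjoint (XX K W) (setOf1 (mm K) C)) ∧ csz K C x = (XX K W).card ∧ ∀ V, Sm K x V →
          ta K V + pp K ≤ dm K → Disjoint (XX K V) (setOf1 (mm K) C) → XX K W ⊆ XX K V := by
      rintro x hx ⟨W0, w⟩
      obtain ⟨W, hW, hmin⟩ := exists_min_image ((range (nh K)).powerset.filter fun W =>
        Sm K x W ∧ ta K W + pp K ≤ dm K ∧ Disjoint (XX K W) (setOf1 (mm K) C))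
        (fun W => (XX K W).card) ⟨W0, mem_filter.2 ⟨mem_powerset.2 w.1.1, w⟩⟩
      have hW := (mem_filter.1 hW).2
      have sub : ∀ V, Sm K x V → ta K V + pp K ≤ dm K →
          Disjoint (XX K V) (setOf1 (mm K) C) → XX K W ⊆ XX K V := fun V v1 v2 v3 => by
        obtain ⟨g1, g2, g3, g4⟩ := hW.1.both h v1 (by omega) (by omega)
        have := h.c2 _ g2
        have := hmin (W ∩ V) (mem_filter.2 ⟨mem_powerset.2 g3.1, g3, by omega,
          by rw [XX_inter]; exact v3.mono_left inter_subset_right⟩)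
        rw [XX_inter] at this
        exact inter_eq_left.1 (eq_of_subset_of_card_le inter_subset_left this)
      refine ⟨W, hW, ?_, sub⟩
      rw [csz, cntB_eq]
      congr 1
      ext y
      simp only [mem_filter, mem_range, Bool.and_eq_true, ← and_assoc, ← mE, Bool.not_eq_true',
        Bool.eq_false_iff]
      constructor
      · rintro ⟨y1, y2⟩
        by_contra y3
        exact y2 ((crit_iff h hC.sub hx (Or.inl y1)).2 ⟨W, hW.1, hW.2.1, hW.2.2, y3⟩)
      · intro y1
        refine ⟨(mem_XX.1 y1).1, fun y2 => ?_⟩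
        obtain ⟨V, v1, v2, v3, v4⟩ := (crit_iff h hC.sub hx (Or.inl (mem_XX.1 y1).1)).1 y2
        exact v4 (sub V v1 v2 v3 y1)
    obtain ⟨W0, w1, w2, w3, _⟩ := (crit_iff h hC.sub he (Or.inr rfl)).1 a2.2
    obtain ⟨W, ⟨w1, w2, w3⟩, w4, _⟩ := least e he ⟨W0, w1, w2, w3⟩
    have heC : e ∉ setOf1 (mm K) C := Finset.disjoint_left.1 w3 w1.2.2
    have wmin : MinC K e W := ⟨w1, w2, fun x V v1 v2 v3 => by
      have hx := (mem_XX.1 v1.2.2).1
      have v4 := w3.mono_left v3
      obtain ⟨V', _, v5, v6⟩ := least x hx ⟨V, v1, v2, v4⟩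
      have := a3 x (mE.1 hx).1 (by
        rw [Bool.and_eq_true]
        exact ⟨(mE.1 hx).2, (crit_iff h hC.sub hx (Or.inr rfl)).2 ⟨V, v1, v2, v4, hm V⟩⟩)
      have := card_le_card (v6 V v1 v2 v4)
      exact eq_of_subset_of_card_le v3 (by omega)⟩
    obtain ⟨V, v1, v2⟩ := hC.fam.resolve_left fun a => a e W w1 w2 w3
    have dj : ∀ c ∈ setOf1 (mm K) C, Disjoint (XX K W) (XX K (V c)) := fun c hc => by
      rw [Finset.disjoint_left]
      intro x x1 x2
      obtain ⟨b1, b2, b3⟩ := v1 c hc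
      obtain ⟨g1, g2, g3, g4⟩ := Sm.both h (e := x) ⟨w1.1, w1.2.1, x1⟩ ⟨b1.1, b1.2.1, x2⟩
        (by omega) (by omega)
      have := h.c2 _ g2
      have := b3 x _ g3 (by omega) (by rw [XX_inter]; exact inter_subset_right)
      rw [XX_inter, inter_eq_right] at this
      exact Finset.disjoint_left.1 w3 (this b1.2.2) hc
    have f1 : ∀ c ∈ insert e (setOf1 (mm K) C), MinC K c (Function.update V e W c) := by
      intro c hc
      rcases mem_insert.1 hc with rfl | hc
      · simpa using wmin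
      · rw [Function.update_of_ne (ne_of_mem_of_not_mem hc heC)]; exact v1 c hc
    have f2 : ∀ c ∈ insert e (setOf1 (mm K) C), ∀ d ∈ insert e (setOf1 (mm K) C), c ≠ d →
        Disjoint (XX K (Function.update V e W c)) (XX K (Function.update V e W d)) := by
      intro c hc d hd hcd
      rcases mem_insert.1 hc with hc | hc <;> rcases mem_insert.1 hd with hd | hd
      · exact absurd (hc.trans hd.symm) hcd
      · rw [hc, Function.update_self, Function.update_of_ne (ne_of_mem_of_not_mem hd heC)]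
        exact dj d hd
      · rw [hd, Function.update_self, Function.update_of_ne (ne_of_mem_of_not_mem hc heC)]
        exact (dj c hc).symm
      · rw [Function.update_of_ne (ne_of_mem_of_not_mem hc heC),
          Function.update_of_ne (ne_of_mem_of_not_mem hd heC)]
        exact v2 c hc d hd hcd
    refine ⟨⟨insert_subset he hC.sub, ind_insert hC fun T hT => ?_, ?_, Or.inr ⟨_, f1, f2⟩⟩,
      Or.inl (card_insert_of_notMem heC)⟩
    · by_contra hc
      obtain ⟨g1, g2, g3, g4⟩ := hT.both h w1 (by omega) (by omega)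
      have := h.c2 _ g2
      have := h.c1 _ g1
      have := card_le_card (s := XX K (T ∩ W)) (t := XX K T \ setOf1 (mm K) C) fun x hx => by
        rw [XX_inter, mem_inter] at hx
        exact mem_sdiff.2 ⟨hx.1, Finset.disjoint_left.1 w3 hx.2⟩
      omega
    · rw [tg_eq, Nat.le_div_iff_mul_le hp, ← smul_eq_mul]
      refine le_trans (card_nsmul_le_sum _ (fun c => (XX K (Function.update V e W c)).card) _
        fun c hc => ?_) ?_
      · obtain ⟨b1, b2, _⟩ := f1 c hc
        have := h.c1 _ (b1.gd h (by omega))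
        have := h.c2 _ (b1.gd h (by omega))
        omega
      · rw [← card_biUnion f2]
        exact card_le_card (biUnion_subset.2 fun _ _ => filter_subset _ _)
  have nc : ∀ e W, Sm K e W → ta K W + pp K ≤ dm K → ¬ Disjoint (XX K W) (setOf1 (mm K) C) :=
    fun e W w1 w2 w3 => by
      have he := (mem_XX.1 w1.2.2).1
      exact c1 ((argmin_lt_iff _).2 ⟨e, (mE.1 he).1, by
        rw [Bool.and_eq_true]
        exact ⟨(mE.1 he).2, (crit_iff h hC.sub he (Or.inr rfl)).2 ⟨W, w1, w2, w3, hm W⟩⟩⟩)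
  have eb : Nat.blt (e1 K C) (mm K) = false := Bool.eq_false_iff.2 fun a => c1 (Nat.blt_eq ▸ a)
  have ec : (cntB (mm K) fun g => bit1 C g) = (setOf1 (mm K) C).card := cntB_eq _ _
  by_cases c2 : (setOf1 (mm K) C).card < tg K
  swap
  · have es : setOf1 (mm K) (step K C) = setOf1 (mm K) C := by
      rw [step, eb, ec, show Nat.blt _ (tg K) = false from
        Bool.eq_false_iff.2 fun a => c2 (Nat.blt_eq ▸ a), setOf1_tab]
      simp [setOf1]
    rw [es]
    exact ⟨hC, Or.inr ⟨rfl, le_antisymm hC.le (not_lt.1 c2), nc⟩⟩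
  obtain ⟨a1, a2, _⟩ := first_spec (N := mm K) (p := fun e => ee K e && !(bit1 C e) &&
      !(dep K C e)) (by
    by_contra hc
    have all : ∀ e, ∃ W c, e ∈ EE K \ setOf1 (mm K) C → (Sm K e W ∧
        ta K W + (XX K W \ setOf1 (mm K) C).card < dm K) ∧ c ∈ XX K W ∧ c ∈ setOf1 (mm K) C ∧
        ∀ V, Sm K e V → ta K V + (XX K V \ setOf1 (mm K) C).card < dm K →
          (XX K V).card ≤ (XX K W).card := by
      intro e
      by_cases he : e ∈ EE K \ setOf1 (mm K) C
      swap
      · exact ⟨∅, 0, fun a => absurd a he⟩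
      obtain ⟨b1, b2⟩ := mem_sdiff.1 he
      obtain ⟨W0, w⟩ := (dep_iff h b1 b2).1 (by
        by_contra b3
        refine hc ⟨e, (mE.1 b1).1, ?_⟩
        simp only [mem_setOf1, (mE.1 b1).1, true_and] at b2
        simp [(mE.1 b1).2, b2, Bool.eq_false_iff.2 b3])
      obtain ⟨W, hW, hmax⟩ := exists_max_image ((range (nh K)).powerset.filter fun W =>
        Sm K e W ∧ ta K W + (XX K W \ setOf1 (mm K) C).card < dm K)
        (fun W => (XX K W).card) ⟨W0, mem_filter.2 ⟨mem_powerset.2 w.1.1, w⟩⟩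
      have hW := (mem_filter.1 hW).2
      have := h.c1 _ (hW.1.gd h (by omega))
      obtain ⟨c, b3, b4⟩ := exists_mem_notMem_of_card_lt_card
        (s := XX K W \ setOf1 (mm K) C) (t := XX K W) (by omega)
      exact ⟨W, c, fun _ => ⟨hW, b3, by simpa [b3] using b4, fun V v1 v2 =>
        hmax V (mem_filter.2 ⟨mem_powerset.2 v1.1, v1, v2⟩)⟩⟩
    choose W c hW using all
    have b1 := card_le_mul_card_image_of_maps_to (s := EE K \ setOf1 (mm K) C)
      (t := setOf1 (mm K) C) (f := c) (fun e he => (hW e he).2.2.1) (pp K - 1) fun d _ => by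
        rcases ((EE K \ setOf1 (mm K) C).filter fun e => c e = d).eq_empty_or_nonempty with
          z | ⟨e, he⟩
        · simp [z]
        obtain ⟨he', rfl⟩ := mem_filter.1 he
        obtain ⟨⟨u1, u2⟩, u3, _, u5⟩ := hW e he'
        have := h.c2 _ (u1.gd h (by omega))
        refine (card_le_card (t := XX K (W e) \ setOf1 (mm K) C) fun x hx => ?_).trans (by omega)
        replace hx := mem_filter.1 hx
        obtain ⟨hx, x1⟩ := hx
        obtain ⟨⟨y1, y2⟩, y3, _, _⟩ := hW x hx
        obtain ⟨g1, g2, _, g4⟩ := Sm.both h (e := c e) ⟨u1.1, u1.2.1, u3⟩ ⟨y1.1, y1.2.1, x1 ▸ y3⟩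
          (by omega) (by omega)
        have i1 := hC.ind _ g1
        have i2 := card_union_add_card_inter (XX K (W e) \ setOf1 (mm K) C)
          (XX K (W x) \ setOf1 (mm K) C)
        rw [← union_sdiff_distrib, ← XX_union, show (XX K (W e) \ setOf1 (mm K) C) ∩
          (XX K (W x) \ setOf1 (mm K) C) = XX K (W e ∩ W x) \ setOf1 (mm K) C by
            ext y; simp only [XX_inter, mem_inter, mem_sdiff]; tauto] at i2
        have := u5 (W e ∪ W x) ⟨g2.1, g2.2.1, by simp [XX_union, u1.2.2]⟩ (by omega)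
        rw [XX_union] at this
        exact mem_sdiff.2 ⟨eq_of_subset_of_card_le subset_union_left this ▸
          mem_union_right _ y1.2.2, (mem_sdiff.1 hx).2⟩
    have b2 := card_sdiff_add_card_eq_card hC.sub
    rw [tg_eq, Nat.lt_iff_add_one_le, Nat.le_div_iff_mul_le hp] at c2
    obtain ⟨p, hp'⟩ := Nat.exists_eq_add_of_lt hp
    rw [hp'] at b1 c2
    simp only [zero_add, add_tsub_cancel_right] at b1 c2
    nlinarith)
  have es : setOf1 (mm K) (step K C) = insert (e2 K C) (setOf1 (mm K) C) := by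
    rw [← ins (e2 K C) a1, step, eb, ec, show Nat.blt _ (tg K) = true from Nat.blt_eq.symm ▸ c2]
    rfl
  change (ee K (e2 K C) && !(bit1 C (e2 K C)) && !(dep K C (e2 K C))) = true at a2
  change e2 K C < _ at a1
  rw [es]
  generalize e2 K C = e at *
  simp only [Bool.and_eq_true, Bool.not_eq_true', Bool.eq_false_iff] at a2
  have he := mE.2 ⟨a1, a2.1.1⟩
  have heC : e ∉ setOf1 (mm K) C := fun a => a2.1.2 (mem_setOf1.1 a).2
  refine ⟨⟨insert_subset he hC.sub, ind_insert hC fun T hT => ?_,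
    by rw [card_insert_of_notMem heC]; omega,
    Or.inl fun x W w1 w2 w3 => nc x W w1 w2 (w3.mono_right (subset_insert _ _))⟩,
    Or.inl (card_insert_of_notMem heC)⟩
  by_contra hc
  exact a2.2 ((dep_iff h he heC).2 ⟨T, hT, by omega⟩)

theorem out_spec (h : Ok K N o) : setOf1 (mm K) (out K) ⊆ EE K ∧
    (setOf1 (mm K) (out K)).card = (EE K).card / pp K ∧ ∀ W, Gd K N W →
      dm K ≤ ta K W + (XX K W \ setOf1 (mm K) (out K)).card + 1 ∧
      dm K + 1 ≤ ta K W + (XX K W ∩ setOf1 (mm K) (out K)).card + pp K := by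
  have key : ∀ j C, C = (step K)^[j] (tab (mm K) fun _ => false) → Inv K N (setOf1 (mm K) C) ∧
      ((setOf1 (mm K) C).card = j ∨ (setOf1 (mm K) C).card = tg K ∧ ∀ e W, Sm K e W →
        ta K W + pp K ≤ dm K → ¬ Disjoint (XX K W) (setOf1 (mm K) C)) := by
    intro j
    induction j with
    | zero =>
      rintro _ rfl
      have e : setOf1 (mm K) (tab (mm K) fun _ => false) = ∅ := by simp [setOf1_tab]
      rw [Function.iterate_zero, id, e]
      exact ⟨⟨empty_subset _, fun W hW => by have := h.c1 W hW; simp; omega, Nat.zero_le _,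
        Or.inr ⟨fun _ => ∅, by simp, by simp⟩⟩, Or.inl rfl⟩
    | succ j ih =>
      rintro _ rfl
      obtain ⟨a, b⟩ := ih _ rfl
      rw [Function.iterate_succ_apply']
      obtain ⟨c, d⟩ := step_spec h a
      refine ⟨c, ?_⟩
      rcases d with d | d
      · rcases b with b | b
        · exact Or.inl (by omega)
        · have := c.le; omega
      · rw [d.1]; exact Or.inr d.2
  obtain ⟨a, b⟩ := key _ (out K) rfl
  have := card_le_card (setOf1_subset (mm K) (out K))
  rw [card_range] at this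
  obtain ⟨b1, b2⟩ := b.resolve_left (by omega)
  refine ⟨a.sub, b1.trans tg_eq, fun W hW => ⟨a.ind W hW, ?_⟩⟩
  have c1 := h.c1 W hW
  have c2 := h.c2 W hW
  have := h.pos
  by_contra hc
  obtain ⟨e, he⟩ : (XX K W).Nonempty := card_pos.1 (by omega)
  exact b2 e W ⟨hW.1, hW.2.1, he⟩ (by omega) (disjoint_iff_inter_eq_empty.2
    (card_eq_zero.1 (by omega)))

end Pool.Agent.Lib.MP_959bb6_lc.Cl
end
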