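import Mathlib
import Pool.Agent.Lib.MP_959bb6_lc.Class
import Pool.Agent.Lib.MP_959bb6_lc.Hall

-- part Pool.Agent.Lib.MP_959bb6_lc.Colour
section

/-!
Balanced assignment of ports that keeps all covers of cuts large.
-/

set_option autoImplicit false

namespace Pool.Agent.Lib.MP_959bb6_lc

open Pool.Agent.Shared.PolyTime Enc Finset

/-- Capacities given by a family of arcs. -/
def arc (m : ℕ) (t h cap : ℕ → ℕ) (u v : ℕ) : ℕ :=
  sumB m fun i => bif t i == u && h i == v then cap i else 0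

@[fun_prop] theorem pf_arc {α : Type} [Enc α] {m u v : α → ℕ} {t h cap : α → ℕ → ℕ} (h0 : PF m)
    (h1 : PF fun q : α × ℕ => t q.1 q.2) (h2 : PF fun q : α × ℕ => h q.1 q.2)
    (h3 : PF fun q : α × ℕ => cap q.1 q.2) (h4 : PF u) (h5 : PF v) :
    PF fun a => arc (m a) (t a) (h a) (cap a) (u a) (v a) :=
  pf_sumB (f := fun a i => bif t a i == u a && h a i == v a then cap a i else 0) h0
    (PF.cond' (PF.and' (PF.beq h1 (h4.comp (by fun_prop))) (PF.beq h2 (h5.comp (by fun_prop))))
      h3 (PF.const _))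

theorem dcut_arc {N m : ℕ} {t h cap : ℕ → ℕ} (hh : ∀ i, i < m → h i < N) (W : Finset ℕ) :
    dcut N (arc m t h cap) W = ∑ i ∈ range m, if t i ∈ W ∧ h i ∉ W then cap i else 0 := by
  simp only [dcut, arc, sumB_eq]
  rw [sum_congr rfl fun _ _ => sum_comm, sum_comm]
  refine sum_congr rfl fun i hi => ?_
  simp [Bool.cond_eq_ite, ite_and, hh i (mem_range.1 hi)]

namespace Co

/-- Input: the number of nodes, the number of ports and the edges. -/
abbrev In : Type := ℕ × ℕ × EL

def mm (I : In) : ℕ := 2 * I.2.2.length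
def nd (E : EL) (h : ℕ) : ℕ :=
  bif h % 2 == 0 then (E.getD (h / 2) (0, 0)).1 else (E.getD (h / 2) (0, 0)).2
def op (h : ℕ) : ℕ := bif h % 2 == 0 then h + 1 else h - 1
def el (I : In) (L : List ℕ) (h : ℕ) : ℕ := nd I.2.2 h * I.2.1 + nat1 L h
def tl (I : In) (L : List ℕ) (h : ℕ) : ℕ :=
  bif Nat.blt (nat1 L h) I.2.1 then I.1 + el I L h else nd I.2.2 h
def hd (I : In) (L : List ℕ) (h : ℕ) : ℕ :=
  bif Nat.blt (nat1 L h) I.2.1 then I.1 + I.1 * I.2.1 + el I L h else nd I.2.2 h
def ee (I : In) (L : List ℕ) (Q h : ℕ) : Bool := nd I.2.2 h == Q && nat1 L h == I.2.1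
def w0 (I : In) (L : List ℕ) (Q u v : ℕ) : ℕ :=
  arc (I.1 * I.2.1) (fun e => e / I.2.1) (fun e => I.1 + e) (fun _ => 1) u v +
  arc (I.1 * I.2.1) (fun e => I.1 + e) (fun e => e / I.2.1) (fun _ => I.2.1) u v +
  arc (I.1 * I.2.1) (fun e => I.1 + I.1 * I.2.1 + e) (fun e => e / I.2.1) (fun _ => 1) u v +
  arc (mm I) (fun h => tl I L h) (fun h => hd I L (op h))
    (fun h => bif ee I L Q h || ee I L Q (op h) then 0 else 1) u v
def cin (I : In) (L : List ℕ) (t : ℕ) : Cl.In :=
  (tab2 (I.1 + I.1 * I.2.1 + I.1 * I.2.1) fun u v => w0 I L (t / I.2.1) u v,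
    tab (mm I) fun h => tl I L (op h), tab (mm I) fun h => ee I L (t / I.2.1) h,
    t / I.2.1, I.2.1, I.2.1 - t % I.2.1)
def nxt (I : In) (L : List ℕ) (t : ℕ) : List ℕ := tab (mm I) fun h =>
  min I.2.1 (bif bit1 (Cl.out (cin I L t)) h then t % I.2.1 else nat1 L h)
def step (I : In) (s : ℕ × List ℕ) : ℕ × List ℕ := (min (I.1 * I.2.1) (s.1 + 1), nxt I s.2 s.1)
def out (I : In) : List ℕ := ((step I)^[I.1 * I.2.1] (0, tab (mm I) fun _ => I.2.1)).2

section
variable {α : Type} [Enc α]

@[fun_prop] theorem pf_mm {K : α → In} (h : PF K) : PF fun a => mm (K a) := by unfold mm; fun_prop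
@[fun_prop] theorem pf_nd {E : α → EL} {f : α → ℕ} (h : PF E) (h1 : PF f) :
    PF fun a => nd (E a) (f a) := by unfold nd; fun_prop
@[fun_prop] theorem pf_op {f : α → ℕ} (h1 : PF f) : PF fun a => op (f a) := by
  unfold op; fun_prop
@[fun_prop] theorem pf_el {K : α → In} {L : α → List ℕ} {f : α → ℕ} (h : PF K) (h0 : PF L)
    (h1 : PF f) : PF fun a => el (K a) (L a) (f a) := by unfold el; fun_prop
@[fun_prop] theorem pf_tl {K : α → In} {L : α → List ℕ} {f : α → ℕ} (h : PF K) (h0 : PF L)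
    (h1 : PF f) : PF fun a => tl (K a) (L a) (f a) := by unfold tl; fun_prop
@[fun_prop] theorem pf_hd {K : α → In} {L : α → List ℕ} {f : α → ℕ} (h : PF K) (h0 : PF L)
    (h1 : PF f) : PF fun a => hd (K a) (L a) (f a) := by unfold hd; fun_prop
@[fun_prop] theorem pf_ee {K : α → In} {L : α → List ℕ} {Q f : α → ℕ} (h : PF K) (h0 : PF L)
    (h2 : PF Q) (h1 : PF f) : PF fun a => ee (K a) (L a) (Q a) (f a) := by unfold ee; fun_prop
@[fun_prop] theorem pf_w0 {K : α → In} {L : α → List ℕ} {Q u v : α → ℕ} (h : PF K) (h0 : PF L)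
    (h2 : PF Q) (h1 : PF u) (h3 : PF v) : PF fun a => w0 (K a) (L a) (Q a) (u a) (v a) := by
  unfold w0; fun_prop
@[fun_prop] theorem pf_cin {K : α → In} {L : α → List ℕ} {f : α → ℕ} (h : PF K) (h0 : PF L)
    (h1 : PF f) : PF fun a => cin (K a) (L a) (f a) := by unfold cin; fun_prop
@[fun_prop] theorem pf_nxt {K : α → In} {L : α → List ℕ} {f : α → ℕ} (h : PF K) (h0 : PF L)
    (h1 : PF f) : PF fun a => nxt (K a) (L a) (f a) := by unfold nxt; fun_prop
@[fun_prop] theorem pf_step {K : α → In} {s : α → ℕ × List ℕ} (h : PF K) (h0 : PF s) :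
    PF fun a => step (K a) (s a) := by unfold step; fun_prop
@[fun_prop] theorem pf_out {K : α → In} (h : PF K) : PF fun a => out (K a) := by
  have : PF fun a => (step (K a))^[(K a).1 * (K a).2.1] (0, tab (mm (K a)) fun _ => (K a).2.1) := by
    refine pf_iter (st := fun a p => step (K a) p)
      (fun a => 2 * ((K a).1 * (K a).2.1) + mm (K a) * (2 * (K a).2.1 + 1) + 1)
      (by fun_prop) (by fun_prop) (by fun_prop) (by fun_prop) fun a b => ?_
    unfold step nxt
    rw [len_prod, len_nat]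
    exact Nat.add_le_add_right (Nat.add_le_add (by omega) (len_tab _ _ _ fun i _ => by simp)) 1
  unfold out
  fun_prop

end

variable {I : In} {L : List ℕ}

theorem op_op (h : ℕ) : op (op h) = h := by
  simp only [op, Bool.cond_eq_ite, beq_iff_eq]
  split_ifs <;> omega

theorem op_lt {m h : ℕ} (hh : h < 2 * m) : op h < 2 * m := by
  simp only [op, Bool.cond_eq_ite, beq_iff_eq]
  split_ifs <;> omega

theorem nd_spec {E : EL} {N : ℕ} (hE : ∀ e ∈ E, e.1 < N ∧ e.2 < N ∧ e.1 ≠ e.2) {h : ℕ}
    (hh : h < 2 * E.length) : nd E h < N ∧ nd E (op h) ≠ nd E h := by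
  have := hE _ (getD_mem (L := E) (0, 0) (i := h / 2) (by omega))
  rcases Nat.mod_two_eq_zero_or_one h with c | c
  · have e1 : (h + 1) % 2 = 1 := by omega
    have e2 : (h + 1) / 2 = h / 2 := by omega
    simp only [nd, op, c, e1, e2, beq_self_eq_true, cond_true, Nat.reduceBEq, cond_false]
    exact ⟨this.1, this.2.2.symm⟩
  · have e1 : (h - 1) % 2 = 0 := by omega
    have e2 : (h - 1) / 2 = h / 2 := by omega
    simp only [nd, op, c, e1, e2, beq_self_eq_true, cond_true, Nat.reduceBEq, cond_false]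
    exact ⟨this.2.1, this.2.2⟩

/-- The end `h` is covered by `S`. -/
def Cv (I : In) (L : List ℕ) (S : Finset ℕ) (h : ℕ) : Prop := nat1 L h < I.2.1 ∧ el I L h ∈ S

instance (S : Finset ℕ) : DecidablePred (Cv I L S) := fun h => by unfold Cv; infer_instance

/-- Uncovered edges of a cut. -/
def unc (I : In) (L : List ℕ) (X S : Finset ℕ) : Finset ℕ := (range (mm I)).filter fun h =>
  nd I.2.2 h ∈ X ∧ nd I.2.2 (op h) ∉ X ∧ ¬ Cv I L S h ∧ ¬ Cv I L S (op h)

theorem mem_unc {X S : Finset ℕ} {h : ℕ} : h ∈ unc I L X S ↔ h < mm I ∧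
    nd I.2.2 h ∈ X ∧ nd I.2.2 (op h) ∉ X ∧ ¬ Cv I L S h ∧ ¬ Cv I L S (op h) := by simp [unc]

/-- The ends at a node. -/
def at1 (E : EL) (p : ℕ) : Finset ℕ := (range (2 * E.length)).filter fun h => nd E h = p

/-- The invariant. -/
structure Inv (I : In) (L : List ℕ) (t : ℕ) : Prop where
  le : ∀ h, h < mm I → nat1 L h ≤ I.2.1
  old : ∀ h, h < mm I → nat1 L h < I.2.1 → el I L h < t
  new : ∀ h, h < mm I → nat1 L h = I.2.1 → t < el I L h
  load : ∀ p γ, γ < I.2.1 → p * I.2.1 + γ < t →
    ((at1 I.2.2 p).filter fun h => nat1 L h = γ).card = ((at1 I.2.2 p).card + γ) / I.2.1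
  rest : 0 < t % I.2.1 → ((at1 I.2.2 (t / I.2.1)).filter fun h => nat1 L h = I.2.1).card =
    (at1 I.2.2 (t / I.2.1)).card / I.2.1 * (I.2.1 - t % I.2.1) +
      min ((at1 I.2.2 (t / I.2.1)).card % I.2.1) (I.2.1 - t % I.2.1)
  cov : ∀ X S, X ⊆ range I.1 → X.Nonempty → X ≠ range I.1 → I.2.1 ≤ S.card + (unc I L X S).card
  few : ∀ X S, X ⊆ range I.1 → X.Nonempty → t / I.2.1 ∉ X → I.2.1 ≤ S.card +
    ((unc I L X S).filter fun h => ¬ ee I L (t / I.2.1) (op h) = true).card + (I.2.1 - t % I.2.1)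

theorem card_op {m : ℕ} (p : ℕ → Prop) [DecidablePred p] :
    ((range (2 * m)).filter fun h => p (op h)).card = ((range (2 * m)).filter p).card :=
  card_bij (fun h _ => op h) (fun h hh => by
    simp only [mem_filter, mem_range] at hh ⊢
    exact ⟨op_lt hh.1, hh.2⟩) (fun a _ b _ e => by rw [← op_op a, e, op_op])
    fun h hh => ⟨op h, by
      simp only [mem_filter, mem_range, op_op] at hh ⊢
      exact ⟨op_lt hh.1, hh.2⟩, op_op h⟩

theorem div_num {D M β : ℕ} (hβ : β < M) :
    (D / M * (M - β) + min (D % M) (M - β)) / (M - β) = (D + β) / M ∧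
    D / M * (M - β) + min (D % M) (M - β) =
      (D + β) / M + (D / M * (M - (β + 1)) + min (D % M) (M - (β + 1))) := by
  have h1 := Nat.mod_lt D (show 0 < M by omega)
  have e : (D + β) / M = D / M + if M ≤ D % M + β then 1 else 0 := by
    rw [Nat.add_div (by omega), Nat.div_eq_of_lt hβ, Nat.mod_eq_of_lt hβ, add_zero]
  rw [e, show M - β = M - (β + 1) + 1 by omega, mul_add, mul_one]
  refine ⟨?_, by split_ifs <;> omega⟩
  rw [← mul_add_one, add_comm, Nat.add_mul_div_right _ _ (by omega), add_comm]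
  congr 1
  split_ifs
  · rw [min_eq_right (by omega), Nat.div_self (by omega)]
  · exact Nat.div_eq_of_lt (by omega)

theorem step_spec (hE : ∀ e ∈ I.2.2, e.1 < I.1 ∧ e.2 < I.1 ∧ e.1 ≠ e.2) {t : ℕ}
    (ht : t < I.1 * I.2.1) (h : Inv I L t) : Inv I (nxt I L t) (t + 1) := by
  classical
  obtain ⟨N, M, E⟩ := I
  simp only at hE ht
  have hM : 0 < M := Nat.pos_of_ne_zero fun e => by simp [e] at ht
  have hn := fun x (hx : x < mm (N, M, E)) => nd_spec hE hx
  have ho := fun x (hx : x < mm (N, M, E)) => (op_lt hx : op x < mm (N, M, E))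
  obtain ⟨Q, hQ⟩ : ∃ Q, Q = t / M := ⟨_, rfl⟩
  obtain ⟨β, hβ⟩ : ∃ β, β = t % M := ⟨_, rfl⟩
  have tQ : t = Q * M + β := by rw [hQ, hβ, Nat.div_add_mod']
  have βM : β < M := hβ ▸ Nat.mod_lt _ hM
  have QN : Q < N := hQ ▸ Nat.div_lt_of_lt_mul (mul_comm N M ▸ ht)
  have eld : ∀ x, nat1 L x < M → el (N, M, E) L x / M = nd E x := fun x hx => by
    simp only [el]
    rw [add_comm, Nat.add_mul_div_right _ _ hM, Nat.div_eq_of_lt hx, zero_add]
  have elt : ∀ x, x < mm (N, M, E) → nat1 L x < M → el (N, M, E) L x < N * M :=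
    fun x hx c => (h.old x hx c).trans ht
  have NM : N ≤ N * M := Nat.le_mul_of_pos_right _ hM
  have dv : ∀ e, e < N * M → e / M < N := fun e he => Nat.div_lt_of_lt_mul (mul_comm N M ▸ he)
  have tlc : ∀ x, tl (N, M, E) L x = if nat1 L x < M then N + el (N, M, E) L x else nd E x :=
    fun x => by simp [tl, Bool.cond_eq_ite]
  have hdc : ∀ x, hd (N, M, E) L x = if nat1 L x < M then N + N * M + el (N, M, E) L x
    else nd E x := fun x => by simp [hd, Bool.cond_eq_ite]
  have eec : ∀ x, ee (N, M, E) L Q x = true ↔ nd E x = Q ∧ nat1 L x = M := fun x => by simp [ee]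
  obtain ⟨K, hK⟩ : ∃ K, K = cin (N, M, E) L t := ⟨_, rfl⟩
  have k1 : Cl.nh K = N + N * M + N * M := by simp [hK, Cl.nh, cin]
  have k2 : Cl.mm K = mm (N, M, E) := by simp [hK, Cl.mm, cin]
  have k3 : Cl.sk K = Q := by rw [hK, hQ]; rfl
  have k4 : Cl.dm K = M := by rw [hK]; rfl
  have k5 : Cl.pp K = M - β := by rw [hK, hβ]; rfl
  have k6 : ∀ x, x ∈ Cl.EE K ↔ x < mm (N, M, E) ∧ nd E x = Q ∧ nat1 L x = M := fun x => by
    rw [Cl.EE, k2, mem_filter, mem_range, ← eec]
    exact and_congr_right fun hx => by rw [hK, hQ, Cl.ee, cin, bit1_tab _ hx]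
  have k7 : ∀ x, x < mm (N, M, E) → Cl.tl K x = tl (N, M, E) L (op x) := fun x hx => by
    rw [hK, Cl.tl, cin, nat1_tab _ hx]
  have k8 : ∀ W, W ⊆ range (N + N * M + N * M) → Cl.ta K W =
      ((range (N * M)).filter fun e => e / M ∈ W ∧ N + e ∉ W).card +
      ((range (N * M)).filter fun e => N + e ∈ W ∧ e / M ∉ W).card * M +
      ((range (N * M)).filter fun e => N + N * M + e ∈ W ∧ e / M ∉ W).card +
      ((range (mm (N, M, E))).filter fun x => (tl (N, M, E) L x ∈ W ∧ hd (N, M, E) L (op x) ∉ W) ∧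
        ¬ (ee (N, M, E) L Q x = true ∨ ee (N, M, E) L Q (op x) = true)).card := by
    intro W hW
    have a : Cl.ta K W = dcut (N + N * M + N * M) (w0 (N, M, E) L Q) W := by
      rw [Cl.ta, k1, hK, hQ]
      exact le_antisymm (dcut_mono (fun x y hx hy => (nat2_tab2 _ hx hy).le) hW)
        (dcut_mono (fun x y hx hy => (nat2_tab2 _ hx hy).ge) hW)
    have b : ∀ f g : ℕ → ℕ → ℕ, dcut (N + N * M + N * M) (fun u v => f u v + g u v) W =
        dcut (N + N * M + N * M) f W + dcut (N + N * M + N * M) g W := fun f g => by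
      simp only [dcut, sum_add_distrib]
    rw [a]
    unfold w0
    rw [b, b, b, dcut_arc fun e he => by simp only at he ⊢; omega,
      dcut_arc fun e he => by have := dv e he; simp only at he ⊢; omega,
      dcut_arc fun e he => by have := dv e he; simp only at he ⊢; omega,
      dcut_arc fun x hx => by
        have := hn _ (ho x hx)
        have := elt _ (ho x hx)
        rw [hdc]
        split_ifs <;> omega]
    simp only [card_filter, sum_mul, ite_mul, one_mul, zero_mul, ite_and, Bool.cond_eq_ite,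
      Bool.or_eq_true, ite_not]
  have toW : ∀ X S : Finset ℕ, X ⊆ range N → X.Nonempty → Q ∉ X → ∃ W, Cl.Gd K N W ∧
      Cl.ta K W ≤ S.card + ((unc (N, M, E) L X S).filter
        fun x => ¬ ee (N, M, E) L Q (op x) = true).card ∧ ∀ x, x ∈ Cl.XX K W ↔
          op x ∈ unc (N, M, E) L X S ∧ ee (N, M, E) L Q x = true := by
    rintro X S hX ⟨u, hu⟩ hQX
    obtain ⟨W, hW⟩ : ∃ W : Finset ℕ, ∀ x, x ∈ W ↔ x < N + N * M + N * M ∧ if x < N then x ∈ X
        else if x < N + N * M then (x - N) / M ∈ X ∧ x - N ∉ S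
        else (x - (N + N * M)) / M ∈ X ∨ x - (N + N * M) ∈ S :=
      ⟨(range (N + N * M + N * M)).filter fun x => if x < N then x ∈ X
        else if x < N + N * M then (x - N) / M ∈ X ∧ x - N ∉ S
        else (x - (N + N * M)) / M ∈ X ∨ x - (N + N * M) ∈ S,
        fun x => by rw [mem_filter, mem_range]⟩
    have w0 : W ⊆ range (N + N * M + N * M) := fun x hx => mem_range.2 ((hW x).1 hx).1
    have w1 : ∀ x, x < N → (x ∈ W ↔ x ∈ X) := fun x hx => by
      rw [hW, if_pos hx]; exact and_iff_right (by omega)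
    have w2 : ∀ e, e < N * M → (N + e ∈ W ↔ e / M ∈ X ∧ e ∉ S) := fun e he => by
      rw [hW, if_neg (by omega), if_pos (by omega), Nat.add_sub_cancel_left]
      exact and_iff_right (by omega)
    have w3 : ∀ e, e < N * M → (N + N * M + e ∈ W ↔ e / M ∈ X ∨ e ∈ S) := fun e he => by
      rw [hW, if_neg (by omega), if_neg (by omega), Nat.add_sub_cancel_left]
      exact and_iff_right (by omega)
    have w4 : ∀ x, x < mm (N, M, E) →
        (tl (N, M, E) L x ∈ W ↔ nd E x ∈ X ∧ ¬ Cv (N, M, E) L S x) := fun x hx => by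
      rw [tlc, Cv]
      split_ifs with c
      · simp [w2 _ (elt x hx c), eld x c, c]
      · simp [w1 _ (hn x hx).1, c]
    have w5 : ∀ x, x < mm (N, M, E) →
        (hd (N, M, E) L x ∉ W ↔ nd E x ∉ X ∧ ¬ Cv (N, M, E) L S x) := fun x hx => by
      rw [hdc, Cv]
      split_ifs with c
      · simp [w3 _ (elt x hx c), eld x c, c]
      · simp [w1 _ (hn x hx).1, c]
    have hu' := mem_range.1 (hX hu)
    refine ⟨W, ⟨k1 ▸ w0, by rwa [k3, w1 _ QN], u, (w1 u hu').2 hu, hu'⟩, ?_, fun x => ?_⟩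
    · rw [k8 W w0, filter_false_of_mem (p := fun e => N + e ∈ W ∧ e / M ∉ W) fun e he => by
        simp +contextual [w2 e (mem_range.1 he), w1 _ (dv e (mem_range.1 he))], card_empty,
        zero_mul, add_zero, ← card_union_of_disjoint (disjoint_filter.2 fun e _ a b => b.2 a.1)]
      refine Nat.add_le_add (card_le_card fun e he => ?_) (card_le_card fun x hx => ?_)
      · simp only [mem_union, mem_filter, mem_range] at he
        have := w1 _ (dv e (he.elim And.left And.left))
        have := w2 _ (he.elim And.left And.left)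
        have := w3 _ (he.elim And.left And.left)
        tauto
      · simp only [mem_filter, mem_range, mem_unc] at hx ⊢
        have := w4 x hx.1
        have := w5 _ (ho x hx.1)
        tauto
    · rw [Cl.mem_XX, k6, mem_unc, eec, op_op]
      constructor
      · rintro ⟨a, b⟩
        rw [k7 x a.1, w4 _ (ho x a.1)] at b
        exact ⟨⟨ho x a.1, b.1, a.2.1 ▸ hQX, b.2, fun c => absurd c.1 (by simp [a.2.2])⟩, a.2⟩
      · rintro ⟨a, b⟩
        have hx := op_op x ▸ ho _ a.1
        exact ⟨⟨hx, b⟩, by rw [k7 x hx, w4 _ a.1]; exact ⟨a.2.1, a.2.2.2.1⟩⟩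
  have ofW : ∀ W, Cl.Gd K N W → ∃ X S : Finset ℕ, X ⊆ range N ∧ X.Nonempty ∧ Q ∉ X ∧
      S.card + ((unc (N, M, E) L X S).filter fun x => ¬ ee (N, M, E) L Q (op x) = true).card ≤
        Cl.ta K W ∧ ((unc (N, M, E) L X S).filter
          fun x => ee (N, M, E) L Q (op x) = true).card ≤ (Cl.XX K W).card := by
    rintro W ⟨a, b, u, c, d⟩
    rw [k1] at a
    rw [k3] at b
    obtain ⟨S, hS⟩ : ∃ S, S = ((range (N * M)).filter fun e => e / M ∈ W ∧ N + e ∉ W) ∪
      (range (N * M)).filter fun e => N + N * M + e ∈ W ∧ e / M ∉ W := ⟨_, rfl⟩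
    have key : ∀ x ∈ unc (N, M, E) L (W.filter (· < N)) S, tl (N, M, E) L x ∈ W ∧
        hd (N, M, E) L (op x) ∉ W ∧ nd E x ≠ Q := fun x hx => by
      simp only [mem_unc, mem_filter, Cv, hS, mem_union, mem_range, (hn _ (ho x (mem_unc.1 hx).1)).1,
        and_true] at hx
      have := elt x hx.1
      have := elt _ (ho x hx.1)
      have := eld x
      have := eld (op x)
      rw [tlc, hdc]
      grind
    refine ⟨W.filter (· < N), S, fun x hx => mem_range.2 (mem_filter.1 hx).2,
      ⟨u, mem_filter.2 ⟨c, d⟩⟩, fun e => b (mem_filter.1 e).1, ?_, ?_⟩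
    · have := card_union_le ((range (N * M)).filter fun e => e / M ∈ W ∧ N + e ∉ W)
        ((range (N * M)).filter fun e => N + N * M + e ∈ W ∧ e / M ∉ W)
      rw [← hS] at this
      rw [k8 W a]
      refine Nat.add_le_add (by omega) (card_le_card fun x hx => ?_)
      obtain ⟨x1, x2⟩ := mem_filter.1 hx
      have := key x x1
      exact mem_filter.2 ⟨mem_range.2 (mem_unc.1 x1).1, ⟨this.1, this.2.1⟩,
        fun e => e.elim (fun e => this.2.2 ((eec x).1 e).1) x2⟩
    · refine card_le_card_of_injOn op (fun x hx => ?_) fun a _ b _ e => by rw [← op_op a, e, op_op]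
      obtain ⟨x1, x2⟩ := mem_filter.1 (mem_coe.1 hx)
      have hx := ho x (mem_unc.1 x1).1
      exact mem_coe.2 (Cl.mem_XX.2 ⟨(k6 _).2 ⟨hx, (eec _).1 x2⟩, by
        rw [k7 _ hx, op_op]; exact (key x x1).1⟩)
  have ok : Cl.Ok K N fun x => nd E (op x) := by
    refine ⟨fun x hx => ?_, by omega, by omega, by omega, fun W a b x hx => ?_, fun W hW => ?_,
      fun W hW => ?_⟩
    · have := ho x ((k6 x).1 hx).1
      have := hn _ this
      have := elt _ ‹_›
      rw [k7 x ((k6 x).1 hx).1, tlc]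
      split_ifs <;> omega
    · obtain ⟨x1, x2⟩ := Cl.mem_XX.1 hx
      have hx := ((k6 x).1 x1).1
      refine ⟨?_, (hn _ (ho x hx)).1⟩
      rw [k7 x hx, tlc] at x2
      split_ifs at x2 with c
      · by_contra d
        rw [k8 W (k1 ▸ a), k4] at b
        have := Nat.le_mul_of_pos_left M (card_pos.2 ⟨_, mem_filter.2
          ⟨mem_range.2 (elt _ (ho x hx) c), x2, (eld _ c).symm ▸ d⟩⟩ :
          0 < ((range (N * M)).filter fun e => N + e ∈ W ∧ e / M ∉ W).card)
        omega
      · exact x2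
    · obtain ⟨X, S, a, b, c, d, e⟩ := ofW W hW
      have := h.cov X S a b fun e => c (e ▸ mem_range.2 QN)
      have := card_filter_add_card_filter_not (s := unc (N, M, E) L X S)
        fun x => ee (N, M, E) L Q (op x) = true
      simp only at *
      omega
    · obtain ⟨X, S, a, b, c, d, _⟩ := ofW W hW
      have := h.few X S a b (hQ ▸ c)
      simp only [← hQ, ← hβ] at this
      omega
  obtain ⟨o1, o2, o3⟩ := Cl.out_spec ok
  obtain ⟨C, hC⟩ : ∃ C, C = setOf1 (Cl.mm K) (Cl.out K) := ⟨_, rfl⟩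
  rw [← hC] at o1 o2 o3
  rw [k4, k5] at o3
  have nl : ∀ x, x < mm (N, M, E) →
      nat1 (nxt (N, M, E) L t) x = if x ∈ C then β else nat1 L x := fun x hx => by
    have := h.le x hx
    rw [nxt, nat1_tab _ hx, ← hK, ← hβ, Bool.cond_eq_ite]
    simp only [hC, mem_setOf1, k2, hx, true_and] at this ⊢
    split_ifs <;> omega
  generalize nxt (N, M, E) L t = L' at nl ⊢
  have hC := fun x hx => (k6 x).1 (o1 hx)
  have hR : (Cl.EE K).card = (at1 E Q).card / M * (M - β) + min ((at1 E Q).card % M) (M - β) := by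
    have e : Cl.EE K = (at1 E Q).filter fun x => nat1 L x = M := by
      ext x; simp [k6, at1, mm, and_assoc]
    rw [e]
    rcases Nat.eq_zero_or_pos β with c | c
    · rw [filter_true_of_mem fun x hx => by
        simp only [at1, mem_filter, mem_range] at hx
        have := h.le x hx.1
        have := h.old x hx.1
        simp only [el, hx.2] at *
        omega, c, Nat.sub_zero, min_eq_left (Nat.mod_lt _ hM).le, Nat.div_add_mod']
    · simpa only [← hQ, ← hβ] using h.rest (hβ ▸ c)
  rw [k5, hR, (div_num βM).1] at o2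
  have cvn : ∀ S x, x < mm (N, M, E) → (Cv (N, M, E) L' S x ↔
      if x ∈ C then t ∈ S else Cv (N, M, E) L (S.erase t) x) := fun S x hx => by
    have := h.old x hx
    simp only [Cv, el, nl x hx, mem_erase] at this ⊢
    split_ifs with c
    · simp [(hC x c).2.1, βM, tQ]
    · grind
  have uncn : ∀ X S x, Q ∉ X → (x ∈ unc (N, M, E) L' X S ↔
      x ∈ unc (N, M, E) L X (S.erase t) ∧ ¬ (op x ∈ C ∧ t ∈ S)) := fun X S x hX => by
    simp only [mem_unc]
    by_cases hx : x < mm (N, M, E)
    · have a := hC x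
      have b := hC (op x)
      have c : op x ∈ C → ¬ Cv (N, M, E) L (S.erase t) (op x) :=
        fun c d => absurd d.1 (by simp [(b c).2.2])
      rw [cvn S x hx, cvn S _ (ho x hx)]
      grind
    · simp [hx]
  have main : ∀ X S, X ⊆ range N → X.Nonempty → Q ∉ X →
      M ≤ S.card + (unc (N, M, E) L' X S).card ∧ M + 1 ≤ S.card + ((unc (N, M, E) L' X S).filter
        fun x => ¬ ee (N, M, E) L' Q (op x) = true).card + (M - β) := by
    intro X S a b c
    obtain ⟨W, w1, w2, w3⟩ := toW X (S.erase t) a b c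
    obtain ⟨p1, p2⟩ := o3 W w1
    have q1 : ((unc (N, M, E) L X (S.erase t)).filter
        fun x => ¬ ee (N, M, E) L Q (op x) = true) ⊆ unc (N, M, E) L' X S := fun x hx => by
      obtain ⟨x1, x2⟩ := mem_filter.1 hx
      exact (uncn X S x c).2 ⟨x1, fun d => x2 ((eec _).2 (hC _ d.1).2)⟩
    have een : ∀ x ∈ unc (N, M, E) L X (S.erase t), ee (N, M, E) L' Q (op x) = true →
        ee (N, M, E) L Q (op x) = true ∧ op x ∉ C := fun x hx d => by
      simp only [ee, Bool.and_eq_true, beq_iff_eq, nl _ (ho x (mem_unc.1 hx).1)] at d ⊢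
      grind
    have inj : ∀ Y Z : Finset ℕ, Y ⊆ Cl.XX K W → (∀ x ∈ Y, op x ∈ Z) →
        ((unc (N, M, E) L X (S.erase t)).filter fun x => ¬ ee (N, M, E) L Q (op x) = true) ⊆ Z →
        ((unc (N, M, E) L X (S.erase t)).filter
          fun x => ¬ ee (N, M, E) L Q (op x) = true).card + Y.card ≤ Z.card := by
      intro Y Z y1 y2 y3
      rw [← card_image_of_injective Y (f := op) fun a b e => by rw [← op_op a, e, op_op],
        ← card_union_of_disjoint (Finset.disjoint_left.2 fun x x1 x2 => by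
          obtain ⟨y, z, rfl⟩ := mem_image.1 x2
          exact (mem_filter.1 x1).2 (by rw [op_op]; exact ((w3 y).1 (y1 z)).2))]
      exact card_le_card (union_subset y3 (image_subset_iff.2 y2))
    have q2 : ((unc (N, M, E) L X (S.erase t)).filter
        fun x => ¬ ee (N, M, E) L Q (op x) = true) ⊆ (unc (N, M, E) L' X S).filter
        fun x => ¬ ee (N, M, E) L' Q (op x) = true := fun x hx =>
      mem_filter.2 ⟨q1 hx, fun d => (mem_filter.1 hx).2 (een x (mem_filter.1 hx).1 d).1⟩
    by_cases d : t ∈ S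
    · have := card_erase_add_one d
      have := inj (Cl.XX K W \ C) _ sdiff_subset (fun x hx => (uncn X S _ c).2
        ⟨((w3 x).1 (mem_sdiff.1 hx).1).1, by simp [op_op, (mem_sdiff.1 hx).2]⟩) q1
      have := card_le_card q2
      have := h.few X (S.erase t) a b (hQ ▸ c)
      simp only [← hQ, ← hβ] at this
      omega
    · have e := erase_eq_of_notMem d
      have := inj (Cl.XX K W ∩ C) _ inter_subset_left (fun x hx => by
        have y := ((w3 x).1 (mem_inter.1 hx).1).1
        exact mem_filter.2 ⟨(uncn X S _ c).2 ⟨y, by simp [d]⟩,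
          fun z => (een _ y z).2 (by simp [op_op, (mem_inter.1 hx).2])⟩) q2
      have := h.cov X (S.erase t) a b fun e => c (e ▸ mem_range.2 QN)
      have := card_le_card (s := unc (N, M, E) L X (S.erase t)) (t := unc (N, M, E) L' X S)
        fun x hx => (uncn X S x c).2 ⟨hx, by simp [d]⟩
      simp only [e] at *
      omega
  have nq : 0 < (t + 1) % M → (t + 1) / M = Q ∧ (t + 1) % M = β + 1 := fun c => by
    have : β + 1 < M := by
      by_contra d
      rw [tQ, add_assoc, show β + 1 = M by omega, ← add_one_mul, Nat.mul_mod_left] at c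
      omega
    rw [tQ, add_assoc, add_comm, Nat.add_mul_div_right _ _ hM, Nat.add_mul_mod_self_right,
      Nat.div_eq_of_lt this, Nat.mod_eq_of_lt this, zero_add]
    exact ⟨rfl, rfl⟩
  refine ⟨fun x hx => ?_, fun x hx => ?_, fun x hx => ?_, fun p γ a b => ?_, fun c => ?_,
    fun X S a b c => ?_, fun X S a b c => ?_⟩
  · have := h.le x hx
    rw [nl x hx]
    split_ifs
    · exact βM.le
    · exact this
  · have := h.old x hx
    have := hC x
    simp only [el, nl x hx] at *
    grind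
  · have a := h.new x hx
    simp only [el, nl x hx] at a ⊢
    intro c
    have xC : x ∉ C := fun d => by rw [if_pos d] at c; omega
    rw [if_neg xC] at c ⊢
    by_contra d
    have a := a c
    have e1 : nd E x = Q := by
      have : (nd E x + 1) * M = Q * M + (β + 1) := by rw [add_one_mul]; omega
      have e1 : nd E x + 1 ≤ Q + 1 := Nat.le_of_mul_le_mul_right (by rw [add_one_mul Q]; omega) hM
      have e2 : Q < nd E x + 1 := Nat.lt_of_mul_lt_mul_right (a := M) (by omega)
      omega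
    have e2 : M - β = 1 := by rw [e1] at d a; omega
    have := (div_num (D := (at1 E Q).card) βM).1
    rw [e2, Nat.div_one, ← e2, ← hR] at this
    exact xC (eq_of_subset_of_card_le o1 (by omega) ▸ (k6 x).2 ⟨hx, e1, c⟩)
  · simp only at a b ⊢
    rcases Nat.lt_succ_iff_lt_or_eq.1 b with c | c
    · rw [← h.load p γ a c]
      refine congrArg card (filter_congr fun x hx => ?_)
      simp only [at1, mem_filter, mem_range] at hx
      have := hC x
      rw [nl x hx.1]
      grind
    · obtain ⟨rfl, rfl⟩ : p = Q ∧ γ = β := by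
        rw [hQ, hβ, ← c, add_comm, Nat.add_mul_div_right _ _ hM, Nat.add_mul_mod_self_right,
          Nat.div_eq_of_lt a, Nat.mod_eq_of_lt a, zero_add]
        exact ⟨rfl, rfl⟩
      rw [← o2]
      congr 1
      ext x
      simp only [at1, mem_filter, mem_range]
      have := hC x
      have := h.old x
      have := nl x
      simp only [el, mm] at *
      grind
  · simp only [nq c]
    have e : (at1 E Q).filter (fun x => nat1 L' x = M) = Cl.EE K \ C := by
      ext x
      simp only [at1, mem_filter, mem_range, mem_sdiff, k6]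
      have := nl x
      simp only [mm] at *
      grind
    have := (div_num (D := (at1 E Q).card) βM).2
    rw [e, card_sdiff_of_subset o1]
    omega
  · by_cases d : Q ∈ X
    · have := (main (range N \ X) S sdiff_subset
        (sdiff_nonempty.2 fun e => c (Subset.antisymm a e)) (by simp [d])).1
      rw [unc, mm, ← card_op] at this
      refine this.trans (Nat.add_le_add_left (card_le_card fun x hx => ?_) _)
      simp only [mem_filter, mem_range, mem_unc, op_op, mem_sdiff] at hx ⊢
      have := hn x hx.1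
      exact ⟨hx.1, by tauto⟩
    · exact (main X S a b d).1
  · simp only at c ⊢
    rcases Nat.eq_zero_or_pos ((t + 1) % M) with d | d
    · omega
    · rw [(nq d).1] at c ⊢
      have := (main X S a b c).2
      rw [(nq d).2]
      omega

theorem out_spec (hE : ∀ e ∈ I.2.2, e.1 < I.1 ∧ e.2 < I.1 ∧ e.1 ≠ e.2) (hM : 0 < I.2.1)
    (hc : ∀ X, X ⊆ range I.1 → X.Nonempty → X ≠ range I.1 → I.2.1 ≤ ((range (mm I)).filter
      fun h => nd I.2.2 h ∈ X ∧ nd I.2.2 (op h) ∉ X).card) :
    (∀ h, h < mm I → nat1 (out I) h < I.2.1) ∧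
    (∀ p γ, p < I.1 → γ < I.2.1 → ((at1 I.2.2 p).filter fun h => nat1 (out I) h = γ).card =
      ((at1 I.2.2 p).card + γ) / I.2.1) ∧
    ∀ X S : Finset ℕ, X ⊆ range I.1 → X.Nonempty → X ≠ range I.1 → (∀ h, h < mm I →
      nd I.2.2 h ∈ X → nd I.2.2 (op h) ∉ X → el I (out I) h ∈ S ∨ el I (out I) (op h) ∈ S) →
      I.2.1 ≤ S.card := by
  have key : ∀ j, j ≤ I.1 * I.2.1 → ∀ s, s = (step I)^[j] (0, tab (mm I) fun _ => I.2.1) →
      s.1 = j ∧ Inv I s.2 j := by
    intro j
    induction j with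
    | zero =>
      rintro _ _ rfl
      have e := fun h (hh : h < mm I) => nat1_tab (fun _ => I.2.1) hh
      refine ⟨rfl, fun h hh => (e h hh).le, fun h hh c => absurd (e h hh) c.ne,
        fun h hh c => by rw [el, c]; omega, fun _ _ _ c => by omega, by simp, fun X S a b c => ?_,
        fun X S _ _ _ => by simp only [Nat.zero_mod]; omega⟩
      refine (hc X a b c).trans (le_add_left (card_le_card fun h hh => ?_))
      simp only [mem_filter, mem_range] at hh
      exact mem_unc.2 ⟨hh.1, hh.2.1, hh.2.2, fun d => absurd (e h hh.1) d.1.ne,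
        fun d => absurd (e _ (op_lt hh.1)) d.1.ne⟩
    | succ j ih =>
      rintro hj _ rfl
      obtain ⟨a, b⟩ := ih (by omega) _ rfl
      rw [Function.iterate_succ_apply']
      generalize (step I)^[j] (0, tab (mm I) fun _ => I.2.1) = s at a b
      simp only [step, a]
      exact ⟨min_eq_right hj, step_spec hE hj b⟩
  obtain ⟨_, a⟩ := key _ le_rfl _ rfl
  change Inv I (out I) _ at a
  have lt : ∀ h, h < mm I → nat1 (out I) h < I.2.1 := fun h hh => by
    by_contra c
    have e := le_antisymm (a.le h hh) (not_lt.1 c)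
    have := a.new h hh e
    have := Nat.mul_le_mul_right I.2.1 (nd_spec hE hh).1
    rw [el, e] at *
    rw [Nat.succ_mul] at this
    omega
  refine ⟨lt, fun p γ b c => a.load p γ c ?_, fun X S b c d e => ?_⟩
  · have := Nat.mul_le_mul_right I.2.1 b
    rw [Nat.succ_mul] at this
    omega
  · have := a.cov X S b c d
    rwa [unc, filter_false_of_mem fun h hh f => (e h (mem_range.1 hh) f.1 f.2.1).elim
      (fun g => f.2.2.1 ⟨lt h (mem_range.1 hh), g⟩)
      fun g => f.2.2.2 ⟨lt _ (op_lt (mem_range.1 hh)), g⟩] at this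

end Co

end Pool.Agent.Lib.MP_959bb6_lc
end

-- part Pool.Agent.Lib.MP_959bb6_lc.Bun
section

/-!
Bundles between blocks and their shifts.
-/

set_option autoImplicit false

namespace Pool.Agent.Lib.MP_959bb6_lc

open Pool.Agent.Shared.PolyTime Enc Finset

/-- Concatenation over increasing pairs. -/
def prs {β : Type} (N : ℕ) (f : ℕ → ℕ → List β) : List β :=
  cat N fun p => cat N fun q => bif Nat.blt p q then f p q else []

@[fun_prop] theorem pf_prs {α β : Type} [Enc α] [Enc β] {n : α → ℕ} {f : α → ℕ → ℕ → List β}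
    (hn : PF n) (hf : PF fun p : (α × ℕ) × ℕ => f p.1.1 p.1.2 p.2) :
    PF fun a => prs (n a) (f a) :=
  pf_cat (f := fun a p => cat (n a) fun q => bif Nat.blt p q then f a p q else []) hn
    (pf_cat (n := fun p : α × ℕ => n p.1)
      (f := fun p q => bif Nat.blt p.2 q then f p.1 p.2 q else []) (hn.comp (by fun_prop))
      (PF.cond' (by fun_prop) hf (PF.const _)))

theorem mem_prs {β : Type} {N : ℕ} {f : ℕ → ℕ → List β} {x : β} :
    x ∈ prs N f ↔ ∃ p q, p < q ∧ q < N ∧ x ∈ f p q := by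
  simp only [prs, mem_cat, Bool.cond_eq_ite, Nat.blt_eq]
  constructor
  · rintro ⟨p, _, q, b, c⟩
    split_ifs at c with d
    · exact ⟨p, q, d, b, c⟩
    · simp at c
  · rintro ⟨p, q, a, b, c⟩
    exact ⟨p, a.trans b, q, b, by rwa [if_pos a]⟩

theorem ls_prs {β : Type} (φ : β → ℕ) {N : ℕ} (f : ℕ → ℕ → List β) (g : ℕ → ℕ → ℕ)
    (h : ∀ p q, p < q → q < N → ls φ (f p q) = g p q + g q p) (h0 : ∀ p, p < N → g p p = 0) :
    ls φ (prs N f) = ∑ p ∈ range N, ∑ q ∈ range N, g p q := by
  have e : ls φ (prs N f) = ∑ p ∈ range N, ∑ q ∈ range N,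
      ((if p < q then g p q else 0) + if p < q then g q p else 0) := by
    simp only [prs, ls_cat]
    refine sum_congr rfl fun p _ => sum_congr rfl fun q hq => ?_
    by_cases c : p < q
    · simp [c, Bool.cond_eq_ite, h p q c (mem_range.1 hq)]
    · simp [c, Bool.cond_eq_ite, ls]
  simp only [e, sum_add_distrib]
  rw [sum_comm (f := fun p q => if p < q then g q p else 0)]
  simp only [← sum_add_distrib]
  refine sum_congr rfl fun x hx => sum_congr rfl fun y _ => ?_
  rcases lt_trichotomy x y with c | c | c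
  · simp [c, c.not_gt]
  · subst c; simp [h0 x (mem_range.1 hx)]
  · simp [c, c.not_gt]

theorem cnt_arc {P i : ℕ} (hi : i < P) (o s : ℕ) :
    ((range s).filter fun j => (o + j) % P = i).card + (o + (P - 1 - i)) / P =
      (o + s + (P - 1 - i)) / P := by
  induction s with
  | zero => simp
  | succ s ih =>
    rw [card_filter, sum_range_succ, ← card_filter, show o + (s + 1) + (P - 1 - i) =
      o + s + (P - 1 - i) + 1 by omega, Nat.succ_div, ← ih]
    have : P ∣ o + s + (P - 1 - i) + 1 ↔ (o + s) % P = i := by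
      rw [Nat.dvd_iff_mod_eq_zero, add_assoc, Nat.add_mod]
      have := Nat.mod_lt (o + s) (show 0 < P by omega)
      generalize (o + s) % P = r at *
      rcases Nat.eq_zero_or_pos i with c | c
      · rw [show P - 1 - i + 1 = P by omega, Nat.mod_self, add_zero, Nat.mod_eq_of_lt this, c]
      · rw [Nat.mod_eq_of_lt (show P - 1 - i + 1 < P by omega)]
        rcases Nat.lt_or_ge (r + (P - 1 - i + 1)) P with d | d
        · rw [Nat.mod_eq_of_lt d]; omega
        · rw [Nat.mod_eq_sub_mod d, Nat.mod_eq_of_lt (by omega)]; omega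
    simp only [this]
    omega

theorem cnt_arc_le {P i : ℕ} (hi : i < P) (o s : ℕ) :
    ((range s).filter fun j => (o + j) % P = i).card ≤ s / P + 1 := by
  have := cnt_arc hi o s
  rw [add_right_comm o s, Nat.add_div (a := o + (P - 1 - i)) (by omega)] at this
  split_ifs at this <;> omega

theorem cnt_arc_one {P i : ℕ} (hi : i < P) (o : ℕ) :
    ((range P).filter fun j => (o + j) % P = i).card = 1 := by
  have := cnt_arc hi o P
  rw [add_right_comm, Nat.add_div_right _ (by omega)] at this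
  omega

theorem sum_half (E : EL) (φ : ℕ → ℕ → ℕ) :
    ∑ h ∈ range (2 * E.length), φ (Co.nd E h) (Co.nd E (Co.op h)) =
      ls (fun x => φ x.1 x.2 + φ x.2 x.1) E := by
  rw [ls_getD _ _ (0, 0), mul_comm]
  generalize E.length = m
  induction m with
  | zero => simp
  | succ m ih =>
    rw [add_one_mul, sum_range_succ, sum_range_succ, sum_range_succ, ih, add_assoc]
    have e1 : m * 2 % 2 = 0 := by omega
    have e2 : (m * 2 + 1) % 2 = 1 := by omega
    have e3 : m * 2 / 2 = m := by omega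
    have e4 : (m * 2 + 1) / 2 = m := by omega
    simp only [Co.nd, Co.op, e1, e2, e3, e4, beq_self_eq_true, cond_true, Nat.reduceBEq, cond_false,
      Nat.add_sub_cancel]

theorem card_at1 (E : EL) (e : ℕ) : (Co.at1 E e).card =
    ls (fun x => (if x.1 = e then 1 else 0) + if x.2 = e then 1 else 0) E := by
  rw [← sum_half E fun a _ => if a = e then 1 else 0, Co.at1, card_filter]

theorem blk_eq {M p q β γ : ℕ} (hβ : β < M) (hγ : γ < M) :
    p * M + β = q * M + γ ↔ p = q ∧ β = γ := by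
  refine ⟨fun h => ?_, fun h => by rw [h.1, h.2]⟩
  have a := congrArg (· / M) h
  have b := congrArg (· % M) h
  simp only [add_comm (_ * M), Nat.add_mul_div_right _ _ (show 0 < M by omega),
    Nat.add_mul_mod_self_right, Nat.div_eq_of_lt, Nat.mod_eq_of_lt, hβ, hγ, zero_add] at a b
  exact ⟨a, b⟩

theorem blk_div {M p β : ℕ} (hβ : β < M) : (p * M + β) / M = p := by
  rw [add_comm, Nat.add_mul_div_right _ _ (by omega), Nat.div_eq_of_lt hβ, zero_add]

theorem blk_mod {M p β : ℕ} (hβ : β < M) : (p * M + β) % M = β := by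
  rw [add_comm, Nat.add_mul_mod_self_right, Nat.mod_eq_of_lt hβ]

namespace Bu

open Co (nd op at1)

/-- Input: nodes, blocks, multiplicities, the threshold and the powers of two. -/
abbrev In : Type := ℕ × ℕ × List (List ℕ) × ℕ × List ℕ

def ww (I : In) (p q : ℕ) : ℕ := (nat2 I.2.2.1 p q - I.2.1) / I.2.1
def m0 (I : In) (p q : ℕ) : ℕ := nat2 I.2.2.1 p q - ww I p q * I.2.1
def e0 (I : In) : EL := prs I.1 fun p q => tab (m0 I p q) fun _ => (p, q)
def ci (I : In) : Co.In := (I.1, I.2.1, e0 I)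
def b0 (I : In) : EL := tab (e0 I).length fun i =>
  (Co.el (ci I) (Co.out (ci I)) (2 * i), Co.el (ci I) (Co.out (ci I)) (2 * i + 1))
def b1 (I : In) : EL := prs I.1 fun p q => cat (ww I p q) fun L => tab I.2.1 fun β =>
  (p * I.2.1 + β, q * I.2.1 + (L + β) % I.2.1)
def bl (I : In) : EL := b0 I ++ b1 I
def gn (I : In) (p : ℕ) : Bool := Nat.blt (sumB I.1 fun q => nat2 I.2.2.1 p q) I.2.2.2.1
def n1 (I : In) (i : ℕ) : ℕ := nd (bl I) (2 * i) / I.2.1
def n2 (I : In) (i : ℕ) : ℕ := nd (bl I) (2 * i + 1) / I.2.1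
def cf (I : In) (j i : ℕ) : Bool := (gn I (n1 I i) && (n1 I j == n1 I i || n2 I j == n1 I i)) ||
  (gn I (n2 I i) && (n1 I j == n2 I i || n2 I j == n2 I i))
def col (I : In) (i : ℕ) : ℕ := nat1 (ffc (bl I).length (2 * I.2.2.2.1) fun j i => cf I j i) i
def sf (I : In) (i : ℕ) : ℕ := bif gn I (n1 I i) || gn I (n2 I i) then nat1 I.2.2.2.2 (col I i)
  else cntB i fun j => nd (bl I) (2 * j) == nd (bl I) (2 * i) &&
    nd (bl I) (2 * j + 1) == nd (bl I) (2 * i + 1)

section
variable {α : Type} [Enc α]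

@[fun_prop] theorem pf_ww {I : α → In} {u v : α → ℕ} (h : PF I) (h1 : PF u) (h2 : PF v) :
    PF fun a => ww (I a) (u a) (v a) := by unfold ww; fun_prop
@[fun_prop] theorem pf_m0 {I : α → In} {u v : α → ℕ} (h : PF I) (h1 : PF u) (h2 : PF v) :
    PF fun a => m0 (I a) (u a) (v a) := by unfold m0; fun_prop
@[fun_prop] theorem pf_e0 {I : α → In} (h : PF I) : PF fun a => e0 (I a) := by
  unfold e0; fun_prop
@[fun_prop] theorem pf_ci {I : α → In} (h : PF I) : PF fun a => ci (I a) := by
  unfold ci; fun_prop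
@[fun_prop] theorem pf_b0 {I : α → In} (h : PF I) : PF fun a => b0 (I a) := by
  unfold b0; fun_prop
@[fun_prop] theorem pf_b1 {I : α → In} (h : PF I) : PF fun a => b1 (I a) := by
  unfold b1; fun_prop
@[fun_prop] theorem pf_bl {I : α → In} (h : PF I) : PF fun a => bl (I a) := by
  unfold bl; fun_prop
@[fun_prop] theorem pf_gn {I : α → In} {u : α → ℕ} (h : PF I) (h1 : PF u) :
    PF fun a => gn (I a) (u a) := by unfold gn; fun_prop
@[fun_prop] theorem pf_n1 {I : α → In} {u : α → ℕ} (h : PF I) (h1 : PF u) :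
    PF fun a => n1 (I a) (u a) := by unfold n1; fun_prop
@[fun_prop] theorem pf_n2 {I : α → In} {u : α → ℕ} (h : PF I) (h1 : PF u) :
    PF fun a => n2 (I a) (u a) := by unfold n2; fun_prop
@[fun_prop] theorem pf_cf {I : α → In} {u v : α → ℕ} (h : PF I) (h1 : PF u) (h2 : PF v) :
    PF fun a => cf (I a) (u a) (v a) := by unfold cf; fun_prop
@[fun_prop] theorem pf_col {I : α → In} {u : α → ℕ} (h : PF I) (h1 : PF u) :
    PF fun a => col (I a) (u a) := by unfold col; fun_prop
@[fun_prop] theorem pf_sf {I : α → In} {u : α → ℕ} (h : PF I) (h1 : PF u) :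
    PF fun a => sf (I a) (u a) := by unfold sf; fun_prop

end

/-- The shift seen from one end. -/
def sh (I : In) (Λ h : ℕ) : ℕ := if h % 2 = 0 then Λ + sf I (h / 2) else Λ - sf I (h / 2)

/-- Admissible inputs. -/
structure Ok (I : In) (N M C w Λ : ℕ) (m : ℕ → ℕ → ℕ) : Prop where
  e1 : I.1 = N
  e2 : I.2.1 = M
  e3 : ∀ p q, p < N → q < N → nat2 I.2.2.1 p q = m p q
  e4 : I.2.2.2.1 = C
  pw : ∀ i, i < 2 * C → nat1 I.2.2.2.2 i = 2 ^ i
  pos : 0 < M
  sym : ∀ p q, p < N → q < N → m p q = m q p ∧ m p q ≤ w * M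
  zero : ∀ p, p < N → m p p = 0
  cut : ∀ X, X ⊆ range N → X.Nonempty → X ≠ range N → M ≤ dcut N m X
  l1 : 2 ^ (2 * C) ≤ Λ
  l2 : 2 * M + w / M + 1 ≤ Λ

variable {I : In} {N M C w Λ : ℕ} {m : ℕ → ℕ → ℕ}

theorem Ok.split (h : Ok I N M C w Λ m) {p q : ℕ} (hp : p < N) (hq : q < N) :
    m p q = ww I p q * M + m0 I p q ∧ m0 I p q < 2 * M ∧ min (m p q) M ≤ m0 I p q ∧
      ww I p q ≤ w ∧ ww I p q = ww I q p ∧ m0 I p q = m0 I q p := by
  have a := Nat.div_add_mod' (m p q - M) M
  have b := Nat.mod_lt (m p q - M) h.pos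
  have c := h.sym p q hp hq
  simp only [m0, ww, h.e2, h.e3 p q hp hq, h.e3 q p hq hp, ← c.1, and_true]
  exact ⟨by omega, by omega, by omega, Nat.div_le_of_le_mul (by rw [mul_comm]; omega)⟩

theorem Ok.ls0 (h : Ok I N M C w Λ m) (ψ : ℕ → ℕ → ℕ) :
    ls (fun x => ψ x.1 x.2 + ψ x.2 x.1) (e0 I) =
      ∑ p ∈ range N, ∑ q ∈ range N, m0 I p q * ψ p q := by
  rw [e0, h.e1]
  refine ls_prs _ _ _ (fun p q a b => ?_) fun p hp => ?_
  · rw [ls_tab, sum_const, card_range, ← (h.split (a.trans b) b).2.2.2.2.2, smul_eq_mul, mul_add]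
  · have := (h.split hp hp).1
    have := h.zero p hp
    rw [show m0 I p p = 0 by omega, zero_mul]

theorem Ok.mem0 (h : Ok I N M C w Λ m) : ∀ e ∈ e0 I, e.1 < e.2 ∧ e.2 < N := fun e he => by
  obtain ⟨p, q, a, b, c⟩ := mem_prs.1 he
  obtain ⟨_, _, rfl⟩ := mem_tab.1 c
  exact ⟨a, h.e1 ▸ b⟩

theorem Ok.co (h : Ok I N M C w Λ m) :
    (∀ x, x < 2 * (e0 I).length → nd (b0 I) x / M = nd (e0 I) x) ∧
    (∀ p γ, p < N → γ < M → (at1 (b0 I) (p * M + γ)).card = (∑ q ∈ range N, m0 I p q + γ) / M) ∧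
    ∀ X S : Finset ℕ, X ⊆ range N → X.Nonempty → X ≠ range N → (∀ x, x < 2 * (e0 I).length →
      nd (e0 I) x ∈ X → nd (e0 I) (op x) ∉ X → nd (b0 I) x ∈ S ∨ nd (b0 I) (op x) ∈ S) →
      M ≤ S.card := by
  have k1 : (ci I).1 = N := h.e1
  have k2 : (ci I).2.1 = M := h.e2
  obtain ⟨o1, o2, o3⟩ := Co.out_spec (I := ci I) (fun e he => by
    have := h.mem0 e he
    omega) (k2 ▸ h.pos) fun X a b c => by
      rw [k1] at a c
      have := sum_half (e0 I) fun u v => if u ∈ X ∧ v ∉ X then 1 else 0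
      rw [h.ls0 fun u v => if u ∈ X ∧ v ∉ X then 1 else 0, ← card_filter] at this
      rw [k2, Co.mm]
      refine le_trans ?_ this.ge
      simp only [mul_ite, mul_one, mul_zero]
      rw [← dcut_eq _ a]
      by_contra d
      refine absurd (h.cut X a b c) (not_le.2 (lt_of_le_of_lt (sum_le_sum fun p hp => sum_le_sum fun q hq => ?_) (not_le.1 d)))
      have := h.split (mem_range.1 (a hp)) (mem_range.1 (mem_sdiff.1 hq).1)
      have : m0 I p q ≤ dcut N (m0 I) X := (single_le_sum (f := fun q => m0 I p q)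
        (fun _ _ => Nat.zero_le _) hq).trans (single_le_sum
          (f := fun p => ∑ q ∈ range N \ X, m0 I p q) (fun _ _ => Nat.zero_le _) hp)
      omega
  have e : ∀ x, x < 2 * (e0 I).length → nd (b0 I) x = nd (e0 I) x * M + nat1 (Co.out (ci I)) x :=
    fun x hx => by
    rw [nd, b0, getD_tab _ _ (by omega)]
    rcases Nat.mod_two_eq_zero_or_one x with c | c
    · simp only [c, beq_self_eq_true, cond_true, show 2 * (x / 2) = x by omega, Co.el, k2]; rfl
    · simp only [c, Nat.reduceBEq, cond_false, show 2 * (x / 2) + 1 = x by omega, Co.el, k2]; rfl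
  simp only [k1, k2] at o1 o2 o3
  refine ⟨fun x hx => by rw [e x hx, blk_div (o1 x hx)], fun p γ a b => ?_,
    fun X S a b c d => o3 X S a b c fun x hx => ?_⟩
  · have := h.ls0 fun u _ => if u = p then 1 else 0
    rw [← card_at1, sum_eq_single_of_mem p (mem_range.2 a) fun u _ hu => by simp [hu]] at this
    simp only [if_true, mul_one] at this
    rw [← this]
    refine Eq.trans ?_ (o2 p γ a b)
    congr 1
    ext x
    simp only [at1, mem_filter, mem_range, b0, length_tab, and_assoc]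
    exact and_congr_right fun hx => by rw [← b0, e x hx, blk_eq (o1 x hx) b]; rfl
  · have := d x hx
    rwa [e x hx, e _ (Co.op_lt hx), ← k2] at this

theorem len0 (I : In) : (b0 I).length = (e0 I).length := length_tab _ _

theorem nd_bl {x : ℕ} (hx : x < 2 * (e0 I).length) : nd (bl I) x = nd (b0 I) x := by
  rw [nd, nd, bl, List.getD_append _ _ _ _ (by rw [len0]; omega)]

theorem Ok.ls_b0 (h : Ok I N M C w Λ m) (ψ : ℕ → ℕ → ℕ) :
    ls (fun x => ψ (x.1 / M) (x.2 / M) + ψ (x.2 / M) (x.1 / M)) (b0 I) =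
      ∑ p ∈ range N, ∑ q ∈ range N, m0 I p q * ψ p q := by
  rw [← sum_half (b0 I) fun a b => ψ (a / M) (b / M), ← h.ls0, ← sum_half, len0]
  exact sum_congr rfl fun x hx => by
    rw [h.co.1 x (mem_range.1 hx), h.co.1 _ (Co.op_lt (mem_range.1 hx))]

theorem Ok.w0 (h : Ok I N M C w Λ m) {p : ℕ} (hp : p < N) : ww I p p = 0 := by
  simp [ww, h.e3 p p hp hp, h.zero p hp]

theorem Ok.cost (h : Ok I N M C w Λ m) (ψ : ℕ → ℕ → ℕ) :
    ls (fun x => ψ (x.1 / M) (x.2 / M) + ψ (x.2 / M) (x.1 / M)) (bl I) =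
      ∑ p ∈ range N, ∑ q ∈ range N, m p q * ψ p q := by
  rw [bl, ls_append, h.ls_b0, b1, h.e1, h.e2,
    ls_prs _ _ (fun p q => ww I p q * M * ψ p q) (fun p q a b => ?_) fun p hp => by simp [h.w0 hp]]
  · simp only [← sum_add_distrib]
    exact sum_congr rfl fun p hp => sum_congr rfl fun q hq => by
      rw [(h.split (mem_range.1 hp) (mem_range.1 hq)).1]; ring
  · rw [ls_cat, sum_congr rfl fun L _ => (ls_tab _ _ _).trans (sum_congr rfl fun β hβ => by
      rw [blk_div (mem_range.1 hβ), blk_div (Nat.mod_lt _ h.pos)])]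
    simp only [sum_const, card_range, smul_eq_mul, ← (h.split (a.trans b) b).2.2.2.2.1]
    ring

theorem Ok.load (h : Ok I N M C w Λ m) {p β : ℕ} (hp : p < N) (hβ : β < M) :
    (at1 (bl I) (p * M + β)).card = (∑ q ∈ range N, m p q + β) / M := by
  rw [card_at1, bl, ls_append, ← card_at1, h.co.2.1 p β hp hβ, b1, h.e1, h.e2,
    ls_prs _ _ (fun x y => if x = p then ww I x y else 0) (fun x y a b => ?_)
      fun x hx => by simp [h.w0 hx], sum_eq_single_of_mem (f := fun x => ∑ y ∈ range N,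
        if x = p then ww I x y else 0) p (mem_range.2 hp)
      fun u _ hu => by simp [hu], ← Nat.add_mul_div_right _ _ h.pos]
  · simp only [if_true, sum_mul]
    rw [add_right_comm, ← sum_add_distrib]
    exact congrArg (fun x => (x + β) / M) (sum_congr rfl fun q hq => by
      rw [(h.split hp (mem_range.1 hq)).1, add_comm])
  · rw [ls_cat, sum_congr rfl (g := fun _ => (if x = p then 1 else 0) + if y = p then 1 else 0)
      fun L _ => ?_, ← (h.split (a.trans b) b).2.2.2.2.1]
    · simp [mul_add]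
    · rw [ls_tab, sum_congr rfl (g := fun γ => (if x = p ∧ γ = β then 1 else 0) +
        if y = p ∧ (L + γ) % M = β then 1 else 0) fun γ hγ => by
          simp only [blk_eq (mem_range.1 hγ) hβ, blk_eq (Nat.mod_lt _ h.pos) hβ], sum_add_distrib]
      have := cnt_arc_one hβ L
      rw [card_filter] at this
      simp [ite_and, hβ, this]

theorem Ok.mem (h : Ok I N M C w Λ m) : ∀ e ∈ bl I, e.1 / M < e.2 / M ∧ e.2 / M < N := by
  intro e he
  rcases List.mem_append.1 he with he | he
  · obtain ⟨i, hi, rfl⟩ := List.getElem_of_mem he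
    have a := h.co.1 (2 * i) (by rw [len0] at hi; omega)
    have b := h.co.1 (2 * i + 1) (by rw [len0] at hi; omega)
    have := h.mem0 _ (getD_mem (0, 0) (len0 I ▸ hi))
    simp only [nd, Nat.mul_mod_right, Nat.mul_add_mod, Nat.one_mod, beq_self_eq_true, cond_true,
      Nat.reduceBEq, cond_false, show 2 * i / 2 = i by omega, show (2 * i + 1) / 2 = i by omega,
      List.getD_eq_getElem _ _ hi] at a b
    rwa [a, b]
  · obtain ⟨p, q, a, b, c⟩ := mem_prs.1 he
    obtain ⟨L, _, c⟩ := mem_cat.1 c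
    obtain ⟨β, d, rfl⟩ := mem_tab.1 c
    rw [h.e2] at d ⊢
    rw [blk_div d, blk_div (Nat.mod_lt _ h.pos)]
    exact ⟨a, h.e1 ▸ b⟩

theorem Ok.half (h : Ok I N M C w Λ m) {x : ℕ} (hx : x < 2 * (bl I).length) :
    n1 I (x / 2) < n2 I (x / 2) ∧ n2 I (x / 2) < N ∧
      (x % 2 = 0 → nd (bl I) x / M = n1 I (x / 2) ∧ nd (bl I) (op x) / M = n2 I (x / 2) ∧
        x = 2 * (x / 2) ∧ op x = 2 * (x / 2) + 1) ∧
      (x % 2 ≠ 0 → nd (bl I) x / M = n2 I (x / 2) ∧ nd (bl I) (op x) / M = n1 I (x / 2) ∧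
        x = 2 * (x / 2) + 1 ∧ op x = 2 * (x / 2)) := by
  have := h.mem _ (getD_mem (L := bl I) (0, 0) (i := x / 2) (by omega))
  refine ⟨?_, ?_, fun c => ?_, fun c => ?_⟩
  · simpa [n1, n2, nd, h.e2, show (2 * (x / 2) + 1) / 2 = x / 2 by omega] using this.1
  · simpa [n2, nd, h.e2, show (2 * (x / 2) + 1) / 2 = x / 2 by omega] using this.2
  · have e : op x = 2 * (x / 2) + 1 := by simp [op, c]; omega
    rw [n1, n2, ← e, h.e2, show 2 * (x / 2) = x by omega]
    exact ⟨rfl, rfl, rfl, by omega⟩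
  · have e : op x = 2 * (x / 2) := by simp [op, Bool.cond_eq_ite, c]; omega
    rw [n1, n2, ← e, h.e2, show op x + 1 = x by omega]
    exact ⟨rfl, rfl, by omega, rfl⟩

theorem Ok.cover (h : Ok I N M C w Λ m) (X S : Finset ℕ) (a : X ⊆ range N) (b : X.Nonempty)
    (c : X ≠ range N) (d : ∀ x, x < 2 * (bl I).length → nd (bl I) x / M ∈ X →
      nd (bl I) (op x) / M ∉ X → nd (bl I) x ∈ S ∨ nd (bl I) (op x) ∈ S) : M ≤ S.card :=
  h.co.2.2 X S a b c fun x hx => by
    have := d x (by rw [bl, List.length_append, len0]; omega)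
    rwa [nd_bl hx, nd_bl (Co.op_lt hx), h.co.1 x hx, h.co.1 _ (Co.op_lt hx)] at this

theorem Ok.gn_iff (h : Ok I N M C w Λ m) {p : ℕ} (hp : p < N) :
    gn I p = true ↔ ∑ q ∈ range N, m p q < C := by
  rw [gn, Nat.blt_eq, sumB_eq, h.e1, h.e4, sum_congr rfl fun q hq => h.e3 p q hp (mem_range.1 hq)]

theorem ls_nd (E : EL) (φ : ℕ × ℕ → ℕ) :
    ls φ E = ∑ i ∈ range E.length, φ (nd E (2 * i), nd E (2 * i + 1)) := by
  rw [ls_getD _ _ (0, 0)]
  exact sum_congr rfl fun i _ => by simp [nd, show (2 * i + 1) / 2 = i by omega]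

theorem Ok.col_spec (h : Ok I N M C w Λ m) {i : ℕ} (hi : i < (bl I).length)
    (hg : gn I (n1 I i) = true ∨ gn I (n2 I i) = true) : sf I i = 2 ^ col I i ∧ col I i < 2 * C ∧
      ∀ j, j < i → cf I j i = true → col I j ≠ col I i := by
  have a := h.half (x := 2 * i) (by omega)
  rw [show 2 * i / 2 = i by omega] at a
  have key : ∀ p, p < N → ((range i).filter fun j => gn I p = true ∧
      (n1 I j = p ∨ n2 I j = p)).card + 1 ≤ C ∨ ¬ gn I p = true := fun p hp => by
    refine or_not.imp_left fun d => ?_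
    rw [h.gn_iff hp] at d
    have := h.cost fun u _ => if u = p then 1 else 0
    rw [sum_eq_single_of_mem p (mem_range.2 hp) fun u _ hu => by simp [hu], ls_nd] at this
    simp only [if_true, mul_one] at this
    refine le_trans (Nat.succ_le_succ ?_) (this ▸ d)
    rw [card_filter]
    refine le_trans (sum_le_sum fun j _ => ?_) (sum_le_sum_of_subset (range_mono hi.le))
    simp only [n1, n2, h.e2]
    split_ifs <;> omega
  have hd : ((range i).filter fun j => cf I j i = true).card < 2 * C := by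
    refine lt_of_le_of_lt (card_le_card (t := ((range i).filter fun j => gn I (n1 I i) = true ∧
      (n1 I j = n1 I i ∨ n2 I j = n1 I i)) ∪ (range i).filter fun j => gn I (n2 I i) = true ∧
      (n1 I j = n2 I i ∨ n2 I j = n2 I i)) fun j hj => by
        simpa [cf, ← and_or_left] using hj) (lt_of_le_of_lt (card_union_le _ _) ?_)
    rcases key _ (a.1.trans a.2.1) with b | b <;> rcases key _ a.2.1 with c | c
    · omega
    · simp only [c, false_and, filter_false, card_empty, Bool.false_eq_true]; omega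
    · simp only [b, false_and, filter_false, card_empty, Bool.false_eq_true]; omega
    · tauto
  obtain ⟨b, c⟩ := ffc_spec (fun j i => cf I j i) hi hd
  rw [← h.e4] at b c
  change col I i < _ at b
  rw [h.e4] at b
  exact ⟨by rw [sf, Bool.or_eq_true_iff.2 hg, cond_true, h.pw _ b], b, c⟩

theorem Ok.sf_le (h : Ok I N M C w Λ m) {i : ℕ} (hi : i < (bl I).length) : sf I i ≤ Λ := by
  by_cases hg : gn I (n1 I i) = true ∨ gn I (n2 I i) = true
  · obtain ⟨a, b, _⟩ := h.col_spec hi hg
    exact a ▸ (Nat.pow_le_pow_right two_pos b.le).trans h.l1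
  have a := h.half (x := 2 * i) (by omega)
  rw [show 2 * i / 2 = i by omega] at a
  rw [sf, Bool.eq_false_iff.2 fun e => hg (Bool.or_eq_true_iff.1 e), cond_false, cntB_eq]
  refine le_trans ?_ h.l2
  rw [n1, n2, h.e2] at a
  generalize nd (bl I) (2 * i) = x at *
  generalize nd (bl I) (2 * i + 1) = y at *
  have b := h.split (a.1.trans a.2.1) a.2.1
  have e : ((range i).filter fun j => (nd (bl I) (2 * j) == x &&
      nd (bl I) (2 * j + 1) == y) = true).card ≤ ls (fun e => if e = (x, y) then 1 else 0) (bl I) := by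
    rw [ls_nd, ← card_filter]
    exact card_le_card fun j hj => by
      simp only [mem_filter, mem_range, Bool.and_eq_true, beq_iff_eq] at hj ⊢
      exact ⟨hj.1.trans hi, by rw [hj.2.1, hj.2.2]⟩
  refine e.trans ?_
  rw [bl, ls_append, add_assoc]
  refine Nat.add_le_add (le_trans ?_ b.2.1.le) ?_
  · have := h.ls_b0 fun u v => if u = x / M ∧ v = y / M then 1 else 0
    simp only [ite_and, mul_ite, mul_one, mul_zero, sum_ite_irrel, sum_const_zero, sum_ite_eq',
      mem_range, a.1.trans a.2.1, a.2.1, if_true] at this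
    rw [← this]
    refine List.sum_le_sum fun e _ => ?_
    split_ifs <;> simp_all
  · rw [b1, h.e1, h.e2, ls_prs _ _ (fun p q => if p < q then ls (fun e => if e = (x, y) then 1
      else 0) (cat (ww I p q) fun L => tab M fun β => (p * M + β, q * M + (L + β) % M)) else 0)
      (fun p q c _ => by simp [c, c.not_gt]) fun p _ => by simp,
      sum_eq_single (x / M), sum_eq_single (y / M), if_pos a.1, ls_cat]
    · refine le_trans (sum_le_sum (g := fun L => if (x % M + L) % M = y % M then 1 else 0)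
        fun L _ => ?_) ?_
      · rw [ls_tab, sum_eq_single (x % M)]
        · split_ifs with c d
          · rfl
          · have := congrArg (· % M) (Prod.mk.inj c).2
            simp only [blk_mod (Nat.mod_lt _ h.pos), add_comm L] at this
            exact absurd this d
          all_goals omega
        · exact fun β hβ c => if_neg fun d => c (by
            rw [← (Prod.mk.inj d).1, blk_mod (mem_range.1 hβ)])
        · exact fun c => absurd (mem_range.2 (Nat.mod_lt _ h.pos)) c
      · rw [← card_filter]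
        exact (cnt_arc_le (Nat.mod_lt _ h.pos) _ _).trans
          (Nat.succ_le_succ (Nat.div_le_div_right b.2.2.2.1))
    · intro q _ c
      split_ifs
      · rw [ls_cat]
        refine sum_eq_zero fun L _ => (ls_tab _ _ _).trans (sum_eq_zero fun β _ => if_neg fun d =>
          c ?_)
        rw [← (Prod.mk.inj d).2, blk_div (Nat.mod_lt _ h.pos)]
      · rfl
    · exact fun c => absurd (mem_range.2 a.2.1) c
    · intro p _ c
      refine sum_eq_zero fun q _ => ?_
      split_ifs
      · rw [ls_cat]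
        refine sum_eq_zero fun L _ => (ls_tab _ _ _).trans (sum_eq_zero fun β hβ => if_neg fun d =>
          c ?_)
        rw [← (Prod.mk.inj d).1, blk_div (mem_range.1 hβ)]
      · rfl
    · exact fun c => absurd (mem_range.2 (a.1.trans a.2.1)) c

theorem Ok.col_inj (h : Ok I N M C w Λ m) {p f g : ℕ} (hp : gn I p = true)
    (hf : f < 2 * (bl I).length) (hg : g < 2 * (bl I).length) (e1 : nd (bl I) f / M = p)
    (e2 : nd (bl I) g / M = p) (e : col I (f / 2) = col I (g / 2)) : f = g := by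
  have a := h.half hf
  have b := h.half hg
  have key : ∀ f g, f < 2 * (bl I).length → g < 2 * (bl I).length → nd (bl I) f / M = p →
      nd (bl I) g / M = p → f / 2 < g / 2 → col I (f / 2) ≠ col I (g / 2) :=
    fun f g hf hg e1 e2 c => by
    have a := h.half hf
    have b := h.half hg
    refine (h.col_spec (by omega) (by grind)).2.2 _ c ?_
    simp only [cf, Bool.or_eq_true, Bool.and_eq_true, beq_iff_eq]
    grind
  rcases lt_trichotomy (f / 2) (g / 2) with c | c | c
  · exact absurd e (key f g hf hg e1 e2 c)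
  · grind
  · exact absurd e.symm (key g f hg hf e2 e1 c)

theorem Ok.inj (h : Ok I N M C w Λ m) {f g : ℕ} (hf : f < 2 * (bl I).length)
    (hg : g < 2 * (bl I).length) (e1 : nd (bl I) f = nd (bl I) g)
    (e2 : nd (bl I) (op f) = nd (bl I) (op g)) (e : sh I Λ f = sh I Λ g) : f = g := by
  have a := h.half hf
  have b := h.half hg
  have c1 := h.sf_le (i := f / 2) (by omega)
  have c2 := h.sf_le (i := g / 2) (by omega)
  have d : f % 2 = g % 2 := by grind
  have e' : sf I (f / 2) = sf I (g / 2) := by unfold sh at e; split_ifs at e <;> omega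
  have d1 : n1 I (f / 2) = n1 I (g / 2) ∧ n2 I (f / 2) = n2 I (g / 2) := by grind
  by_cases hn : gn I (n1 I (f / 2)) = true ∨ gn I (n2 I (f / 2)) = true
  · rw [(h.col_spec (by omega) hn).1, (h.col_spec (by omega) (d1.1 ▸ d1.2 ▸ hn)).1] at e'
    have e' := Nat.pow_right_injective le_rfl e'
    by_cases c : gn I (nd (bl I) f / M) = true
    · exact h.col_inj c hf hg rfl (by rw [e1]) e'
    · have := h.col_inj (p := nd (bl I) (op f) / M) (by grind) (Co.op_lt hf) (Co.op_lt hg) rfl
        (by rw [e2]) (by grind)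
      rw [← Co.op_op f, this, Co.op_op]
  · have hn' := hn
    rw [d1.1, d1.2] at hn'
    rw [sf, sf, Bool.eq_false_iff.2 fun e => hn (Bool.or_eq_true_iff.1 e),
      Bool.eq_false_iff.2 fun e => hn' (Bool.or_eq_true_iff.1 e), cond_false, cond_false,
      cntB_eq, cntB_eq] at e'
    have d2 : nd (bl I) (2 * (f / 2)) = nd (bl I) (2 * (g / 2)) ∧
        nd (bl I) (2 * (f / 2) + 1) = nd (bl I) (2 * (g / 2) + 1) := by grind
    rw [d2.1, d2.2] at e'
    have key : ∀ (q : ℕ → Prop) [DecidablePred q] (i j : ℕ), q i → i < j →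
        ((range i).filter q).card < ((range j).filter q).card := fun q _ i j a b =>
      card_lt_card (Finset.ssubset_iff_subset_ne.2 ⟨filter_subset_filter _ (range_mono b.le),
        fun e => by
          have : i ∈ (range j).filter q := mem_filter.2 ⟨mem_range.2 b, a⟩
          simp [← e] at this⟩)
    rcases lt_trichotomy (f / 2) (g / 2) with c | c | c
    · exact absurd e' (key _ _ _ (by simp [d2]) c).ne
    · omega
    · exact absurd e' (key _ _ _ (by simp) c).ne'

theorem Ok.many (h : Ok I N M C w Λ m) (hN : 2 ≤ N) {p : ℕ} (hp : p < N) : ∃ e l,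
    Sel M (fun β => at1 (bl I) (p * M + β)) (fun x => nd (bl I) (op x)) e ∧
    Many M l (fun β => at1 (bl I) (p * M + β)) (fun x => nd (bl I) (op x)) (sh I Λ) e ∧
      (l = 1 ∨ (l = M ∧ C ≤ ∑ q ∈ range N, m p q)) := by
  have mm : ∀ β x, x ∈ at1 (bl I) (p * M + β) ↔ x < 2 * (bl I).length ∧ nd (bl I) x = p * M + β :=
    fun β x => by simp [at1]
  obtain ⟨e, he⟩ := exists_sel (M := M) (F := fun β => at1 (bl I) (p * M + β))
    (τ := fun x => nd (bl I) (op x)) fun X hX => by
      have := h.cover {p} (((range M \ X).image (p * M + ·)) ∪ X.biUnion fun β =>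
        (at1 (bl I) (p * M + β)).image fun x => nd (bl I) (op x)) (by simpa using hp)
        (singleton_nonempty _) (fun e => by
          have := congrArg card e
          simp at this
          omega) fun x hx a _ => by
          have b := Nat.div_add_mod' (nd (bl I) x) M
          rw [mem_singleton.1 a] at b
          by_cases c : nd (bl I) x % M ∈ X
          · exact Or.inr (mem_union_right _ (mem_biUnion.2 ⟨_, c, mem_image_of_mem _
              ((mm _ x).2 ⟨hx, b.symm⟩)⟩))
          · exact Or.inl (mem_union_left _ (mem_image.2 ⟨_, mem_sdiff.2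
              ⟨mem_range.2 (Nat.mod_lt _ h.pos), c⟩, b⟩))
      have a := card_union_le ((range M \ X).image (p * M + ·)) (X.biUnion fun β =>
        (at1 (bl I) (p * M + β)).image fun x => nd (bl I) (op x))
      have b := card_image_le (s := range M \ X) (f := (p * M + ·))
      have c := card_le_card hX
      rw [card_sdiff_of_subset hX] at b
      rw [card_range] at b c
      omega
  by_cases hg : gn I p = true
  · obtain ⟨e, a, b⟩ := many_gen (Λ := Λ) (sh := sh I Λ) (col := fun x => col I (x / 2)) he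
      (fun β γ hβ hγ f hf g hg' c => by
        obtain ⟨f1, f2⟩ := (mm β f).1 hf
        obtain ⟨g1, g2⟩ := (mm γ g).1 hg'
        obtain rfl := h.col_inj hg f1 g1 (by rw [f2, blk_div hβ]) (by rw [g2, blk_div hγ]) c
        exact ⟨by omega, rfl⟩) fun β hβ g hg' => by
        obtain ⟨g1, g2⟩ := (mm β g).1 hg'
        have a := h.half g1
        rw [g2, blk_div hβ] at a
        have := h.sf_le (i := g / 2) (by omega)
        rw [sh, ← (h.col_spec (i := g / 2) (by omega) (by grind)).1]
        split_ifs <;> omega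
    exact ⟨e, 1, a, b, Or.inl rfl⟩
  · refine ⟨e, M, he, many_big he fun β _ f hf g hg' a b => ?_,
      Or.inr ⟨rfl, not_lt.1 fun c => hg ((h.gn_iff hp).2 c)⟩⟩
    obtain ⟨f1, f2⟩ := (mm β f).1 hf
    obtain ⟨g1, g2⟩ := (mm β g).1 hg'
    exact h.inj f1 g1 (f2.trans g2.symm) a b

end Bu

end Pool.Agent.Lib.MP_959bb6_lc
end
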