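import Mathlib
import Pool.Agent.Lib.MP_959bb6_lc.Bun
import Pool.Agent.Lib.MP_959bb6_lc.Class
import Pool.Agent.Lib.MP_959bb6_lc.Dense

-- part Pool.Agent.Lib.MP_959bb6_lc.VDef
section

/-!
The algorithm for vertex connectivity: definitions.
-/

set_option autoImplicit false

namespace Pool.Agent.Lib.MP_959bb6_lc.Vx

open Pool.Agent.Shared.PolyTime Enc Finset

/-- Input: the connectivity, the distances, a sparse joining table, powers of two, constants. -/
abbrev In : Type := ℕ × List (List ℕ) × List (List ℕ) × List ℕ × List ℕ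

def kk (I : In) : ℕ := I.1
def nn (I : In) : ℕ := I.2.1.length
def cc (I : In) (u v : ℕ) : ℕ := nat2 I.2.1 u v
def sg (I : In) : ℕ := nat1 I.2.2.2.2 0
def jj (I : In) : ℕ := nat1 I.2.2.2.2 1
def gG (I : In) : ℕ := nat1 I.2.2.2.2 2
def dd (I : In) : ℕ := nat1 I.2.2.2.2 3
def mm (I : In) : ℕ := nat1 I.2.2.2.2 6
def gg (I : In) : ℕ := kk I / (mm I * gG I)
def et (I : In) : ℕ := gG I * gg I
def je (I : In) : ℕ := jj I * et I
def tt (I : In) : ℕ := nat1 I.2.2.2.2 4 * et I
def t0 (I : In) : ℕ := nat1 I.2.2.2.2 5 * et I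
def mu (I : In) : ℕ := (kk I + 1 - 8 * t0 I) / mm I
def pp (I : In) : ℕ := mm I * mu I
def pf (I : In) : ℕ := pp I + 5 * t0 I
def b0 (I : In) : ℕ := sg I * sg I * mm I
def b1 (I : In) : ℕ := (sg I * sg I + 1) * je I
def c0 (I : In) : ℕ := mm I * (b0 I + mm I)
def lam (I : In) : ℕ := nat1 I.2.2.2.2 7 + (2 * mm I + t0 I / mm I + 1)
def kt (I : In) : ℕ := kk I + tt I
def rk (I : In) (x v : ℕ) : ℕ := rank (nn I) (fun w => cc I x w) v
def av (I : In) (x j : ℕ) : ℕ := atk (nn I) (fun w => cc I x w) j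
def rr (I : In) (x : ℕ) : ℕ := cc I x (av I x (kt I))
def clus (I : In) (x : ℕ) : Bool := Nat.ble (sg I * sg I * cc I x (av I x (kk I - t0 I))) (rr I x)
def cen (I : In) (x : ℕ) : Bool := nat1 (grd (nn I) (fun y => clus I y) fun y z =>
  Nat.ble (2 * cc I y z) (rr I y) || Nat.ble (2 * cc I y z) (rr I z)) x == 1
def near (I : In) (x v : ℕ) : Bool := Nat.ble (sg I * cc I x v) (rr I x)
def lo (I : In) (v : ℕ) : Bool := !(anyB (nn I) fun x => cen I x && near I x v)
def ord (I : In) (j : ℕ) : ℕ := atk (nn I) (fun w => rr I w) j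
def cand (I : In) (w : ℕ) : Bool := lo I w &&
  !(anyB (nn I) fun x => cen I x && Nat.ble (cc I w x) (20 * (sg I * rr I w)))
def cor (I : In) (x : ℕ) : Bool := nat1 (grd (nn I) (fun j => cand I (ord I j)) fun i j =>
  Nat.ble (cc I (ord I j) (ord I i)) (20 * (sg I * rr I (ord I j))))
    (rank (nn I) (fun w => rr I w) x) == 1
def nk (I : In) (x : ℕ) : ℕ := bif cen I x || cor I x then 0 else 1
def nN (I : In) : ℕ := cntB (nn I) fun x => cen I x || cor I x
def ctr (I : In) (p : ℕ) : ℕ := atk (nn I) (fun w => nk I w) p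
def gp (I : In) (p : ℕ) : Bool := cen I (ctr I p)
def qq (I : In) (p : ℕ) : ℕ := bif gp I p then cntB (nn I) fun v => near I (ctr I p) v else kt I
def nt (I : In) (y : ℕ) : Bool := nat1 (grd (nn I) (fun w => lo I w) fun y w =>
  Nat.blt (2 * cc I y w) (rr I y)) y == 1
def yy (I : In) (w : ℕ) : ℕ := first (nn I) fun y => nt I y && Nat.blt (2 * cc I y w) (rr I y)
def pi (I : In) (v : ℕ) : ℕ := bif lo I v then
  argmin (nN I) (fun _ => true) fun p => cc I (yy I v) (ctr I p)
  else first (nN I) fun p => gp I p && near I (ctr I p) v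
def vx (I : In) (p j : ℕ) : ℕ := av I (ctr I p) j
def rp (I : In) (p v : ℕ) : ℕ := rk I (ctr I p) v
def rN (I : In) (p : ℕ) : ℕ := rr I (ctr I p)
def cN (I : In) (p q : ℕ) : ℕ := cc I (ctr I p) (ctr I q)
def cv (I : In) (p v : ℕ) : ℕ := cc I (ctr I p) v
def mt0 (I : In) (p : ℕ) : ℕ := first (nN I) fun q => !(q == p) && Nat.ble (cN I p q) (6 * rN I p)
def ta (I : In) (p : ℕ) : Bool := gp I p && Nat.blt (mt0 I p) (nN I)
def mt (I : In) (p : ℕ) : ℕ := bif ta I p then mt0 I p else p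
def inn (I : In) (v : ℕ) : Bool := Nat.blt (rp I (pi I v) v) (qq I (pi I v))
def hh (I : In) (p : ℕ) : ℕ := kt I - qq I p
def bb (I : In) (p : ℕ) : ℕ := kk I + 1 - qq I p
def hv (I : In) (p j : ℕ) : ℕ := vx I (mt I p) ((bif ta I p then pf I else qq I p) + j)
def ue (I : In) (p : ℕ) : ℕ := bif ta I p then qq I p else kt I
def twin (I : In) : Bool := nN I == 2 && ta I 0 && ta I 1
def nl (I : In) : ℕ := cntB (nn I) fun v => lo I v
def poor (I : In) : Bool := twin I && Nat.blt (nl I) (tt I)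
def rich (I : In) (p : ℕ) : Bool := Nat.ble (tt I) (2 * hh I p) && (!(ta I p) || twin I)
def breq (I : In) (p : ℕ) : ℕ := bif poor I || !(gp I p) then 0 else bb I p +
  (bif Nat.blt (b0 I) (bb I p) then mm I else 0) +
  (bif Nat.blt (b1 I) (bb I p + je I) then je I else 0) + (bif rich I p then je I + et I else 0)
def sho (I : In) (u v : ℕ) : Bool := lo I u && Nat.ble (cc I u v) (20 * (sg I * sg I * rr I u)) &&
  (bif lo I v then Nat.ble (rr I v) (rr I u) else !(inn I u))
def sht (I : In) (u v : ℕ) : Bool := !(u == v) && (sho I u v || sho I v u)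
def blk (I : In) (v : ℕ) : Bool := !(lo I v) && Nat.blt (rp I (pi I v) v) (pp I)
def cap1 (I : In) (x y : ℕ) : ℕ := bif Nat.blt x (nN I) then
  (bif Nat.blt y (nN I) then pp I * t0 I else 0) else bif Nat.blt y (nN I) then 0 else
    bif sht I (x - nN I) (y - nN I) then 1 else 0
def end1 (I : In) (x : ℕ) : ℕ := bif Nat.blt x (nN I) then x else
  bif blk I (x - nN I) then pi I (x - nN I) else x
def cst1 (I : In) (x y : ℕ) : ℕ := bif Nat.blt x (nN I) then
  (bif Nat.blt y (nN I) then cN I x y else 0) else bif Nat.blt y (nN I) then 0 else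
    cc I (x - nN I) (y - nN I)
def dem1 (I : In) (x : ℕ) : ℕ := bif Nat.blt x (nN I) then pp I * bb I x else
  bif lo I (x - nN I) then kk I else 0
def l1 (I : In) : ML.In := (nN I, (kk I - t0 I) / 2 * 2, pp I * t0 I,
  tab2 (nN I + nn I) fun x y => cap1 I x y, tab (nN I + nn I) fun x => end1 I x,
  tab2 (nN I + nn I) fun x y => cst1 I x y, tab (nN I + nn I) fun x => dem1 I x)
def m1 (I : In) (p q : ℕ) : ℕ := ML.out (l1 I) p q
def oo (I : In) (u v : ℕ) : Bool := ML.out (l1 I) (nN I + u) (nN I + v) == 1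
def l2 (I : In) : ML.In := (nN I, mm I + 2, t0 I * mm I,
  tab2 (nN I) fun _ _ => t0 I * mm I, tab (nN I) fun x => x,
  tab2 (nN I) fun x y => cN I x y, tab (nN I) fun x => (sumB (nN I) fun q => m1 I x q) / mu I)
def m2 (I : In) (p q : ℕ) : ℕ := ML.out (l2 I) p q
def bu (I : In) : Bu.In := (nN I, mm I, tab2 (nN I) fun p q => m2 I p q, c0 I, I.2.2.2.1)
def bl (I : In) : EL := Bu.bl (bu I)
def nx (I : In) (p : ℕ) : ℕ := nat1 (Tour.out (tab2 (nN I) fun p q => cN I p q)) p
def ev (I : In) (e i : ℕ) : ℕ := vx I (e / mm I) (e % mm I * mu I + i)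
def nr (I : In) (p z : ℕ) : Bool := poor I || Nat.ble (cv I p z) (sg I * rN I p)
def sc (I : In) (p z : ℕ) : ℕ := bif nr I p z then
  cntB (nn I) fun u => oo I z u && blk I u && pi I u == p else 0
def so (I : In) (p z : ℕ) : ℕ := sumB z fun w => sc I p w
def st (I : In) (p i z : ℕ) : Bool := anyB (sc I p z) fun j => (so I p z + j) % pp I == i
def kp (I : In) (u v : ℕ) : Bool := oo I u v && !(blk I v && nr I (pi I v) u) &&
  !(blk I u && nr I (pi I u) v)
def sng (I : In) : EL := (prs (nn I) fun u v => opt (kp I u v) u v) ++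
  cat (nN I) fun p => cat (nn I) fun z => tab (sc I p z) fun j => (z, vx I p ((so I p z + j) % pp I))
def ms (I : In) (u v : ℕ) : Bool := entry (matOf (nn I) (sng I)) u v
def good (I : In) (z : ℕ) : ℕ := cntB (nn I) fun v => ms I z v && Nat.ble (cc I z v) (sg I * rr I z)
def itr (I : In) (i : ℕ) : Bool := Nat.blt i (pp I) && Nat.ble (lam I) (i % mu I) &&
  Nat.blt (i % mu I + lam I) (mu I)
def db (I : In) (p i : ℕ) : ℕ := bif itr I i then
  ((sumB (nN I) fun q => m2 I p q) + i / mu I) / mm I else 0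
def need (I : In) (p i : ℕ) : ℕ := breq I p - (cntB (nn I) fun z => st I p i z) - db I p i
def ovl (I : In) (w l p : ℕ) : EL := cat (dd I) fun d => cat (gg I) fun j =>
  opt (Nat.blt (nat2 I.2.2.1 (l / gg I) d * gg I + j) (kt I)) w
    (vx I p (nat2 I.2.2.1 (l / gg I) d * gg I + j))
def pL (I : In) : ℕ := bif Nat.ble (qq I 1) (qq I 0) then 0 else 1
def gm (I : In) : ℕ := m1 I 0 1 + 2 * t0 I
def gl (I : In) (u : ℕ) : ℕ := bif Nat.blt u (pp I) then
  gm I / pp I + (bif Nat.ble (pp I) (u + gm I % pp I) then 1 else 0)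
  else max (gm I / pp I + 1) (bb I (1 - pL I))
def eQ (I : In) : EL := prs (nn I) fun u v => opt (!(lo I u) && !(lo I v) && pi I u == pi I v) u v
def eB (I : In) : EL := cat (bl I).length fun i => tab (mu I) fun j =>
  (ev I (Co.nd (bl I) (2 * i)) j, ev I (Co.nd (bl I) (2 * i + 1)) ((j + Bu.sf (bu I) i) % mu I))
def eG (I : In) : EL := cat (qq I (1 - pL I)) fun u => tab (gl I u) fun j =>
  (vx I (1 - pL I) u, vx I (pL I) ((u + j) % qq I (pL I)))
def eP (I : In) : EL := (prs (nn I) fun u v => opt (lo I u && lo I v) u v) ++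
  cat (nn I) fun z => cat (qq I (pL I)) fun j =>
    opt (lo I z && (Nat.ble j (gm I / pp I) || Nat.ble (pp I) j)) z (vx I (pL I) j)
def eL1 (I : In) (z : ℕ) : EL := (((List.range (kt I)).filter fun j =>
  !(ms I z (av I z (j + 1)))).take (kt I - good I z)).map fun j => (z, av I z (j + 1))
def eL2 (I : In) (z p : ℕ) : EL := ovl I z (rk I (yy I z) z) p ++
  tab (b1 I) fun j => (z, vx I p (pf I + j))
def eL (I : In) : EL := cat (nn I) fun z => bif lo I z then
  eL1 I z ++ (eL2 I z (pi I z) ++ eL2 I z (mt I (pi I z))) else []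
def eR1 (I : In) (p i : ℕ) : EL := (((List.range (hh I p)).filter fun j =>
  !(st I p i (hv I p j))).take (need I p i)).map fun j => (vx I p i, hv I p j)
def eR (I : In) : EL := cat (nN I) fun p => cat (qq I p) fun i =>
  eR1 I p i ++ bif twin I && !(poor I) then ovl I (vx I p i) i (mt I p) else []
def z2 (I : In) (p j : ℕ) : ℕ := bif nN I == 2 then
  vx I (nx I p) (j + bif ta I p then hh I p else 0) else vx I (nx I (nx I p)) (j - 5 * t0 I)
def eZ (I : In) : EL := cat (bif nN I == 1 then 0 else nN I) fun p =>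
  (tab (5 * t0 I) fun j => (vx I p (pp I + j), vx I (nx I p) (pp I + j))) ++
  ((tab (ue I p - pf I) fun j => (vx I p (pf I + j), z2 I p (pf I + j))) ++
  tab (ue I p - qq I p) fun j => (vx I p (qq I p + j), vx I (nx I p) j))
def el (I : In) : EL := eQ I ++ ((bif poor I then eG I ++ eP I else eB I) ++
  (sng I ++ (eL I ++ (eR I ++ eZ I))))
def alg (I : In) : Mat := bif Nat.blt (kt I) (nn I) then matOf (nn I) (el I) else
  tab2 (nn I) fun u v => !(u == v)

section
variable {α : Type} [Enc α]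

@[fun_prop] theorem pf_kk {I : α → In} (h : PF I)
    : PF fun a => kk (I a) := by
  unfold kk; fun_prop
@[fun_prop] theorem pf_nn {I : α → In} (h : PF I)
    : PF fun a => nn (I a) := by
  unfold nn; fun_prop
@[fun_prop] theorem pf_cc {I : α → In} {x0 : α → ℕ} {x1 : α → ℕ} (h : PF I)
    (h0 : PF x0) (h1 : PF x1) : PF fun a => cc (I a) (x0 a) (x1 a) := by
  unfold cc; fun_prop
@[fun_prop] theorem pf_sg {I : α → In} (h : PF I)
    : PF fun a => sg (I a) := by
  unfold sg; fun_prop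
@[fun_prop] theorem pf_jj {I : α → In} (h : PF I)
    : PF fun a => jj (I a) := by
  unfold jj; fun_prop
@[fun_prop] theorem pf_gG {I : α → In} (h : PF I)
    : PF fun a => gG (I a) := by
  unfold gG; fun_prop
@[fun_prop] theorem pf_dd {I : α → In} (h : PF I)
    : PF fun a => dd (I a) := by
  unfold dd; fun_prop
@[fun_prop] theorem pf_mm {I : α → In} (h : PF I)
    : PF fun a => mm (I a) := by
  unfold mm; fun_prop
@[fun_prop] theorem pf_gg {I : α → In} (h : PF I)
    : PF fun a => gg (I a) := by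
  unfold gg; fun_prop
@[fun_prop] theorem pf_et {I : α → In} (h : PF I)
    : PF fun a => et (I a) := by
  unfold et; fun_prop
@[fun_prop] theorem pf_je {I : α → In} (h : PF I)
    : PF fun a => je (I a) := by
  unfold je; fun_prop
@[fun_prop] theorem pf_tt {I : α → In} (h : PF I)
    : PF fun a => tt (I a) := by
  unfold tt; fun_prop
@[fun_prop] theorem pf_t0 {I : α → In} (h : PF I)
    : PF fun a => t0 (I a) := by
  unfold t0; fun_prop
@[fun_prop] theorem pf_mu {I : α → In} (h : PF I)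
    : PF fun a => mu (I a) := by
  unfold mu; fun_prop
@[fun_prop] theorem pf_pp {I : α → In} (h : PF I)
    : PF fun a => pp (I a) := by
  unfold pp; fun_prop
@[fun_prop] theorem pf_pf {I : α → In} (h : PF I)
    : PF fun a => pf (I a) := by
  unfold pf; fun_prop
@[fun_prop] theorem pf_b0 {I : α → In} (h : PF I)
    : PF fun a => b0 (I a) := by
  unfold b0; fun_prop
@[fun_prop] theorem pf_b1 {I : α → In} (h : PF I)
    : PF fun a => b1 (I a) := by
  unfold b1; fun_prop
@[fun_prop] theorem pf_c0 {I : α → In} (h : PF I)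
    : PF fun a => c0 (I a) := by
  unfold c0; fun_prop
@[fun_prop] theorem pf_lam {I : α → In} (h : PF I)
    : PF fun a => lam (I a) := by
  unfold lam; fun_prop
@[fun_prop] theorem pf_kt {I : α → In} (h : PF I)
    : PF fun a => kt (I a) := by
  unfold kt; fun_prop
@[fun_prop] theorem pf_rk {I : α → In} {x0 : α → ℕ} {x1 : α → ℕ} (h : PF I)
    (h0 : PF x0) (h1 : PF x1) : PF fun a => rk (I a) (x0 a) (x1 a) := by
  unfold rk; fun_prop
@[fun_prop] theorem pf_av {I : α → In} {x0 : α → ℕ} {x1 : α → ℕ} (h : PF I)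
    (h0 : PF x0) (h1 : PF x1) : PF fun a => av (I a) (x0 a) (x1 a) := by
  unfold av; fun_prop
@[fun_prop] theorem pf_rr {I : α → In} {x0 : α → ℕ} (h : PF I)
    (h0 : PF x0) : PF fun a => rr (I a) (x0 a) := by
  unfold rr; fun_prop
@[fun_prop] theorem pf_clus {I : α → In} {x0 : α → ℕ} (h : PF I)
    (h0 : PF x0) : PF fun a => clus (I a) (x0 a) := by
  unfold clus; fun_prop
@[fun_prop] theorem pf_cen {I : α → In} {x0 : α → ℕ} (h : PF I)
    (h0 : PF x0) : PF fun a => cen (I a) (x0 a) := by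
  unfold cen; fun_prop
@[fun_prop] theorem pf_near {I : α → In} {x0 : α → ℕ} {x1 : α → ℕ} (h : PF I)
    (h0 : PF x0) (h1 : PF x1) : PF fun a => near (I a) (x0 a) (x1 a) := by
  unfold near; fun_prop
@[fun_prop] theorem pf_lo {I : α → In} {x0 : α → ℕ} (h : PF I)
    (h0 : PF x0) : PF fun a => lo (I a) (x0 a) := by
  unfold lo; fun_prop
@[fun_prop] theorem pf_ord {I : α → In} {x0 : α → ℕ} (h : PF I)
    (h0 : PF x0) : PF fun a => ord (I a) (x0 a) := by
  unfold ord; fun_prop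
@[fun_prop] theorem pf_cand {I : α → In} {x0 : α → ℕ} (h : PF I)
    (h0 : PF x0) : PF fun a => cand (I a) (x0 a) := by
  unfold cand; fun_prop
@[fun_prop] theorem pf_cor {I : α → In} {x0 : α → ℕ} (h : PF I)
    (h0 : PF x0) : PF fun a => cor (I a) (x0 a) := by
  unfold cor; fun_prop
@[fun_prop] theorem pf_nk {I : α → In} {x0 : α → ℕ} (h : PF I)
    (h0 : PF x0) : PF fun a => nk (I a) (x0 a) := by
  unfold nk; fun_prop
@[fun_prop] theorem pf_nN {I : α → In} (h : PF I)
    : PF fun a => nN (I a) := by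
  unfold nN; fun_prop
@[fun_prop] theorem pf_ctr {I : α → In} {x0 : α → ℕ} (h : PF I)
    (h0 : PF x0) : PF fun a => ctr (I a) (x0 a) := by
  unfold ctr; fun_prop
@[fun_prop] theorem pf_gp {I : α → In} {x0 : α → ℕ} (h : PF I)
    (h0 : PF x0) : PF fun a => gp (I a) (x0 a) := by
  unfold gp; fun_prop
@[fun_prop] theorem pf_qq {I : α → In} {x0 : α → ℕ} (h : PF I)
    (h0 : PF x0) : PF fun a => qq (I a) (x0 a) := by
  unfold qq; fun_prop
@[fun_prop] theorem pf_nt {I : α → In} {x0 : α → ℕ} (h : PF I)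
    (h0 : PF x0) : PF fun a => nt (I a) (x0 a) := by
  unfold nt; fun_prop
@[fun_prop] theorem pf_yy {I : α → In} {x0 : α → ℕ} (h : PF I)
    (h0 : PF x0) : PF fun a => yy (I a) (x0 a) := by
  unfold yy; fun_prop
@[fun_prop] theorem pf_pi {I : α → In} {x0 : α → ℕ} (h : PF I)
    (h0 : PF x0) : PF fun a => pi (I a) (x0 a) := by
  unfold pi; fun_prop
@[fun_prop] theorem pf_vx {I : α → In} {x0 : α → ℕ} {x1 : α → ℕ} (h : PF I)
    (h0 : PF x0) (h1 : PF x1) : PF fun a => vx (I a) (x0 a) (x1 a) := by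
  unfold vx; fun_prop
@[fun_prop] theorem pf_rp {I : α → In} {x0 : α → ℕ} {x1 : α → ℕ} (h : PF I)
    (h0 : PF x0) (h1 : PF x1) : PF fun a => rp (I a) (x0 a) (x1 a) := by
  unfold rp; fun_prop
@[fun_prop] theorem pf_rN {I : α → In} {x0 : α → ℕ} (h : PF I)
    (h0 : PF x0) : PF fun a => rN (I a) (x0 a) := by
  unfold rN; fun_prop
@[fun_prop] theorem pf_cN {I : α → In} {x0 : α → ℕ} {x1 : α → ℕ} (h : PF I)
    (h0 : PF x0) (h1 : PF x1) : PF fun a => cN (I a) (x0 a) (x1 a) := by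
  unfold cN; fun_prop
@[fun_prop] theorem pf_cv {I : α → In} {x0 : α → ℕ} {x1 : α → ℕ} (h : PF I)
    (h0 : PF x0) (h1 : PF x1) : PF fun a => cv (I a) (x0 a) (x1 a) := by
  unfold cv; fun_prop
@[fun_prop] theorem pf_mt0 {I : α → In} {x0 : α → ℕ} (h : PF I)
    (h0 : PF x0) : PF fun a => mt0 (I a) (x0 a) := by
  unfold mt0; fun_prop
@[fun_prop] theorem pf_ta {I : α → In} {x0 : α → ℕ} (h : PF I)
    (h0 : PF x0) : PF fun a => ta (I a) (x0 a) := by
  unfold ta; fun_prop
@[fun_prop] theorem pf_mt {I : α → In} {x0 : α → ℕ} (h : PF I)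
    (h0 : PF x0) : PF fun a => mt (I a) (x0 a) := by
  unfold mt; fun_prop
@[fun_prop] theorem pf_inn {I : α → In} {x0 : α → ℕ} (h : PF I)
    (h0 : PF x0) : PF fun a => inn (I a) (x0 a) := by
  unfold inn; fun_prop
@[fun_prop] theorem pf_hh {I : α → In} {x0 : α → ℕ} (h : PF I)
    (h0 : PF x0) : PF fun a => hh (I a) (x0 a) := by
  unfold hh; fun_prop
@[fun_prop] theorem pf_bb {I : α → In} {x0 : α → ℕ} (h : PF I)
    (h0 : PF x0) : PF fun a => bb (I a) (x0 a) := by
  unfold bb; fun_prop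
@[fun_prop] theorem pf_hv {I : α → In} {x0 : α → ℕ} {x1 : α → ℕ} (h : PF I)
    (h0 : PF x0) (h1 : PF x1) : PF fun a => hv (I a) (x0 a) (x1 a) := by
  unfold hv; fun_prop
@[fun_prop] theorem pf_ue {I : α → In} {x0 : α → ℕ} (h : PF I)
    (h0 : PF x0) : PF fun a => ue (I a) (x0 a) := by
  unfold ue; fun_prop
@[fun_prop] theorem pf_twin {I : α → In} (h : PF I)
    : PF fun a => twin (I a) := by
  unfold twin; fun_prop
@[fun_prop] theorem pf_nl {I : α → In} (h : PF I)
    : PF fun a => nl (I a) := by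
  unfold nl; fun_prop
@[fun_prop] theorem pf_poor {I : α → In} (h : PF I)
    : PF fun a => poor (I a) := by
  unfold poor; fun_prop
@[fun_prop] theorem pf_rich {I : α → In} {x0 : α → ℕ} (h : PF I)
    (h0 : PF x0) : PF fun a => rich (I a) (x0 a) := by
  unfold rich; fun_prop
@[fun_prop] theorem pf_breq {I : α → In} {x0 : α → ℕ} (h : PF I)
    (h0 : PF x0) : PF fun a => breq (I a) (x0 a) := by
  unfold breq; fun_prop
@[fun_prop] theorem pf_sho {I : α → In} {x0 : α → ℕ} {x1 : α → ℕ} (h : PF I)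
    (h0 : PF x0) (h1 : PF x1) : PF fun a => sho (I a) (x0 a) (x1 a) := by
  unfold sho; fun_prop
@[fun_prop] theorem pf_sht {I : α → In} {x0 : α → ℕ} {x1 : α → ℕ} (h : PF I)
    (h0 : PF x0) (h1 : PF x1) : PF fun a => sht (I a) (x0 a) (x1 a) := by
  unfold sht; fun_prop
@[fun_prop] theorem pf_blk {I : α → In} {x0 : α → ℕ} (h : PF I)
    (h0 : PF x0) : PF fun a => blk (I a) (x0 a) := by
  unfold blk; fun_prop
@[fun_prop] theorem pf_cap1 {I : α → In} {x0 : α → ℕ} {x1 : α → ℕ} (h : PF I)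
    (h0 : PF x0) (h1 : PF x1) : PF fun a => cap1 (I a) (x0 a) (x1 a) := by
  unfold cap1; fun_prop
@[fun_prop] theorem pf_end1 {I : α → In} {x0 : α → ℕ} (h : PF I)
    (h0 : PF x0) : PF fun a => end1 (I a) (x0 a) := by
  unfold end1; fun_prop
@[fun_prop] theorem pf_cst1 {I : α → In} {x0 : α → ℕ} {x1 : α → ℕ} (h : PF I)
    (h0 : PF x0) (h1 : PF x1) : PF fun a => cst1 (I a) (x0 a) (x1 a) := by
  unfold cst1; fun_prop
@[fun_prop] theorem pf_dem1 {I : α → In} {x0 : α → ℕ} (h : PF I)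
    (h0 : PF x0) : PF fun a => dem1 (I a) (x0 a) := by
  unfold dem1; fun_prop
@[fun_prop] theorem pf_l1 {I : α → In} (h : PF I)
    : PF fun a => l1 (I a) := by
  unfold l1; fun_prop
@[fun_prop] theorem pf_m1 {I : α → In} {x0 : α → ℕ} {x1 : α → ℕ} (h : PF I)
    (h0 : PF x0) (h1 : PF x1) : PF fun a => m1 (I a) (x0 a) (x1 a) := by
  unfold m1; fun_prop
@[fun_prop] theorem pf_oo {I : α → In} {x0 : α → ℕ} {x1 : α → ℕ} (h : PF I)
    (h0 : PF x0) (h1 : PF x1) : PF fun a => oo (I a) (x0 a) (x1 a) := by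
  unfold oo; fun_prop
@[fun_prop] theorem pf_l2 {I : α → In} (h : PF I)
    : PF fun a => l2 (I a) := by
  unfold l2; fun_prop
@[fun_prop] theorem pf_m2 {I : α → In} {x0 : α → ℕ} {x1 : α → ℕ} (h : PF I)
    (h0 : PF x0) (h1 : PF x1) : PF fun a => m2 (I a) (x0 a) (x1 a) := by
  unfold m2; fun_prop
@[fun_prop] theorem pf_bu {I : α → In} (h : PF I)
    : PF fun a => bu (I a) := by
  unfold bu; fun_prop
@[fun_prop] theorem pf_bl {I : α → In} (h : PF I)
    : PF fun a => bl (I a) := by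
  unfold bl; fun_prop
@[fun_prop] theorem pf_nx {I : α → In} {x0 : α → ℕ} (h : PF I)
    (h0 : PF x0) : PF fun a => nx (I a) (x0 a) := by
  unfold nx; fun_prop
@[fun_prop] theorem pf_ev {I : α → In} {x0 : α → ℕ} {x1 : α → ℕ} (h : PF I)
    (h0 : PF x0) (h1 : PF x1) : PF fun a => ev (I a) (x0 a) (x1 a) := by
  unfold ev; fun_prop
@[fun_prop] theorem pf_nr {I : α → In} {x0 : α → ℕ} {x1 : α → ℕ} (h : PF I)
    (h0 : PF x0) (h1 : PF x1) : PF fun a => nr (I a) (x0 a) (x1 a) := by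
  unfold nr; fun_prop
@[fun_prop] theorem pf_sc {I : α → In} {x0 : α → ℕ} {x1 : α → ℕ} (h : PF I)
    (h0 : PF x0) (h1 : PF x1) : PF fun a => sc (I a) (x0 a) (x1 a) := by
  unfold sc; fun_prop
@[fun_prop] theorem pf_so {I : α → In} {x0 : α → ℕ} {x1 : α → ℕ} (h : PF I)
    (h0 : PF x0) (h1 : PF x1) : PF fun a => so (I a) (x0 a) (x1 a) := by
  unfold so; fun_prop
@[fun_prop] theorem pf_st {I : α → In} {x0 : α → ℕ} {x1 : α → ℕ} {x2 : α → ℕ} (h : PF I)
    (h0 : PF x0) (h1 : PF x1) (h2 : PF x2) : PF fun a => st (I a) (x0 a) (x1 a) (x2 a) := by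
  unfold st; fun_prop
@[fun_prop] theorem pf_kp {I : α → In} {x0 : α → ℕ} {x1 : α → ℕ} (h : PF I)
    (h0 : PF x0) (h1 : PF x1) : PF fun a => kp (I a) (x0 a) (x1 a) := by
  unfold kp; fun_prop
@[fun_prop] theorem pf_sng {I : α → In} (h : PF I)
    : PF fun a => sng (I a) := by
  unfold sng; fun_prop
@[fun_prop] theorem pf_ms {I : α → In} {x0 : α → ℕ} {x1 : α → ℕ} (h : PF I)
    (h0 : PF x0) (h1 : PF x1) : PF fun a => ms (I a) (x0 a) (x1 a) := by
  unfold ms; fun_prop
@[fun_prop] theorem pf_good {I : α → In} {x0 : α → ℕ} (h : PF I)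
    (h0 : PF x0) : PF fun a => good (I a) (x0 a) := by
  unfold good; fun_prop
@[fun_prop] theorem pf_itr {I : α → In} {x0 : α → ℕ} (h : PF I)
    (h0 : PF x0) : PF fun a => itr (I a) (x0 a) := by
  unfold itr; fun_prop
@[fun_prop] theorem pf_db {I : α → In} {x0 : α → ℕ} {x1 : α → ℕ} (h : PF I)
    (h0 : PF x0) (h1 : PF x1) : PF fun a => db (I a) (x0 a) (x1 a) := by
  unfold db; fun_prop
@[fun_prop] theorem pf_need {I : α → In} {x0 : α → ℕ} {x1 : α → ℕ} (h : PF I)
    (h0 : PF x0) (h1 : PF x1) : PF fun a => need (I a) (x0 a) (x1 a) := by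
  unfold need; fun_prop
@[fun_prop] theorem pf_ovl {I : α → In} {x0 : α → ℕ} {x1 : α → ℕ} {x2 : α → ℕ} (h : PF I)
    (h0 : PF x0) (h1 : PF x1) (h2 : PF x2) : PF fun a => ovl (I a) (x0 a) (x1 a) (x2 a) := by
  unfold ovl; fun_prop
@[fun_prop] theorem pf_pL {I : α → In} (h : PF I)
    : PF fun a => pL (I a) := by
  unfold pL; fun_prop
@[fun_prop] theorem pf_gm {I : α → In} (h : PF I)
    : PF fun a => gm (I a) := by
  unfold gm; fun_prop
@[fun_prop] theorem pf_gl {I : α → In} {x0 : α → ℕ} (h : PF I)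
    (h0 : PF x0) : PF fun a => gl (I a) (x0 a) := by
  unfold gl; fun_prop
@[fun_prop] theorem pf_eQ {I : α → In} (h : PF I)
    : PF fun a => eQ (I a) := by
  unfold eQ; fun_prop
@[fun_prop] theorem pf_eB {I : α → In} (h : PF I)
    : PF fun a => eB (I a) := by
  unfold eB; fun_prop
@[fun_prop] theorem pf_eG {I : α → In} (h : PF I)
    : PF fun a => eG (I a) := by
  unfold eG; fun_prop
@[fun_prop] theorem pf_eP {I : α → In} (h : PF I)
    : PF fun a => eP (I a) := by
  unfold eP; fun_prop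
@[fun_prop] theorem pf_eL1 {I : α → In} {x0 : α → ℕ} (h : PF I)
    (h0 : PF x0) : PF fun a => eL1 (I a) (x0 a) := by
  unfold eL1; fun_prop
@[fun_prop] theorem pf_eL2 {I : α → In} {x0 : α → ℕ} {x1 : α → ℕ} (h : PF I)
    (h0 : PF x0) (h1 : PF x1) : PF fun a => eL2 (I a) (x0 a) (x1 a) := by
  unfold eL2; fun_prop
@[fun_prop] theorem pf_eL {I : α → In} (h : PF I)
    : PF fun a => eL (I a) := by
  unfold eL; fun_prop
@[fun_prop] theorem pf_eR1 {I : α → In} {x0 : α → ℕ} {x1 : α → ℕ} (h : PF I)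
    (h0 : PF x0) (h1 : PF x1) : PF fun a => eR1 (I a) (x0 a) (x1 a) := by
  unfold eR1; fun_prop
@[fun_prop] theorem pf_eR {I : α → In} (h : PF I)
    : PF fun a => eR (I a) := by
  unfold eR; fun_prop
@[fun_prop] theorem pf_z2 {I : α → In} {x0 : α → ℕ} {x1 : α → ℕ} (h : PF I)
    (h0 : PF x0) (h1 : PF x1) : PF fun a => z2 (I a) (x0 a) (x1 a) := by
  unfold z2; fun_prop
@[fun_prop] theorem pf_eZ {I : α → In} (h : PF I)
    : PF fun a => eZ (I a) := by
  unfold eZ; fun_prop
@[fun_prop] theorem pf_el {I : α → In} (h : PF I)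
    : PF fun a => el (I a) := by
  unfold el; fun_prop
@[fun_prop] theorem pf_alg {I : α → In} (h : PF I)
    : PF fun a => alg (I a) := by
  unfold alg; fun_prop

end

end Pool.Agent.Lib.MP_959bb6_lc.Vx
end

-- part Pool.Agent.Lib.MP_959bb6_lc.VGeo
section

/-!
Groups, cores and boxes in a finite metric space.
-/

set_option autoImplicit false

namespace Pool.Agent.Lib.MP_959bb6_lc.Vx

open Pool.Agent.Shared.PolyTime Enc Finset

/-- Packing bound for one ratio. -/
def Pack (n : ℕ) (c : ℕ → ℕ → ℕ) (M J : ℕ) : Prop :=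
  ∀ (u ρ : ℕ) (P : Finset ℕ), u < n → P ⊆ range n → (∀ p ∈ P, c u p ≤ ρ) →
    (∀ p ∈ P, ∀ q ∈ P, p ≠ q → ρ ≤ M * c p q) → P.card ≤ J

/-- Admissible inputs. -/
structure Ok (I : In) : Prop where
  met : IsMet (nn I) (cc I)
  sy : ∀ u v, cc I u v = cc I v u
  pk1 : Pack (nn I) (cc I) (360 * sg I ^ 4) (jj I)
  pk2 : ∃ M J, Pack (nn I) (cc I) M J ∧ sg I ^ 5 * J ≤ t0 I ∧
    sg I ^ 5 * (kt I + t0 I) ≤ M * t0 I
  ten : 10 ≤ sg I
  lt : kt I < nn I
  dense : ∃ m, Dense m (dd I) (gG I) I.2.2.1 ∧ kt I ≤ m * gg I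
  gpos : 0 < gg I
  epos : 0 < et I
  dg : dd I * gg I ≤ et I
  n1 : mm I + 2 * je I + 2 * et I + 1 ≤ tt I
  n2 : b1 I ≤ tt I
  n3 : 100 * sg I ^ 4 * tt I ≤ t0 I
  n4 : 14 * sg I ^ 2 * t0 I ≤ pp I
  n5 : sg I ^ 4 * kk I * (je I + 2 * et I) ≤ tt I * t0 I
  n6 : mm I * lam I ≤ 2 * t0 I
  n7 : mu I ≤ t0 I
  n8 : sg I ^ 2 ≤ mm I
  even : mm I % 2 = 0
  pw : ∀ i, i < 2 * c0 I → nat1 I.2.2.2.1 i = 2 ^ i
  pw2 : 2 ^ (2 * c0 I) ≤ nat1 I.2.2.2.2 7

variable {I : In}

theorem Ok.s10 (h : Ok I) (x : ℕ) : 10 * x ≤ sg I * x := Nat.mul_le_mul_right _ h.ten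

theorem Ok.ss (h : Ok I) (x : ℕ) : 10 * (sg I * x) ≤ sg I * sg I * x := by
  rw [mul_assoc]; exact h.s10 _

theorem Ok.tri (h : Ok I) (s : ℕ) {u v w : ℕ} (hu : u < nn I) (hv : v < nn I) (hw : w < nn I) :
    s * cc I u w ≤ s * cc I u v + s * cc I v w := by
  rw [← mul_add]
  exact Nat.mul_le_mul_left _ (h.met.tri u v w hu hv hw)

theorem Ok.num (h : Ok I) : 100 ≤ mm I ∧ 1000000 * tt I ≤ t0 I ∧ 1400 * t0 I ≤ pp I ∧
    pp I + 8 * t0 I ≤ kk I + 1 ∧ kk I + 1 < pp I + 8 * t0 I + mm I ∧ 0 < mu I ∧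
    pf I = pp I + 5 * t0 I ∧ kt I = kk I + tt I ∧ mm I + 2 * je I + 2 * et I + 1 ≤ tt I ∧
    0 < et I ∧ je I ≤ b1 I ∧ b1 I ≤ tt I := by
  have a := h.ten
  have a2 : 10 ^ 2 ≤ sg I ^ 2 := Nat.pow_le_pow_left a 2
  have a4 : 10 ^ 4 ≤ sg I ^ 4 := Nat.pow_le_pow_left a 4
  have b := h.n8
  have c : 1000000 * tt I ≤ t0 I := le_trans (Nat.mul_le_mul_right _ (by omega)) h.n3
  have d : 1400 * t0 I ≤ pp I := le_trans (Nat.mul_le_mul_right _ (by omega)) h.n4
  have e := h.n1
  have f := Nat.div_add_mod (kk I + 1 - 8 * t0 I) (mm I)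
  have g := Nat.mod_lt (kk I + 1 - 8 * t0 I) (show 0 < mm I by omega)
  change pp I + _ = _ at f
  refine ⟨by omega, c, d, by omega, by omega, Nat.pos_of_ne_zero fun e => ?_, rfl, rfl, e,
    h.epos, Nat.le_mul_of_pos_left _ (by omega), h.n2⟩
  rw [pp, e] at d
  omega

theorem av_lt {x j : ℕ} (hj : j < nn I) : av I x j < nn I := (atk_spec _ hj).1

theorem rk_av {x j : ℕ} (hj : j < nn I) : rk I x (av I x j) = j := (atk_spec _ hj).2

theorem av_rk {x v : ℕ} (hv : v < nn I) : av I x (rk I x v) = v := atk_rank hv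

theorem av_inj {x i j : ℕ} (hi : i < nn I) (hj : j < nn I) (e : av I x i = av I x j) : i = j := by
  rw [← rk_av (x := x) hi, e, rk_av hj]

theorem rk_le {x v w : ℕ} (hw : w < nn I) (e : rk I x v ≤ rk I x w) : cc I x v ≤ cc I x w :=
  key_le (key := fun w => cc I x w) hw e

theorem le_rr (h : Ok I) {x v : ℕ} (e : rk I x v ≤ kt I) : cc I x v ≤ rr I x :=
  rk_le (av_lt h.lt) (by rwa [rk_av h.lt])

theorem av_le (h : Ok I) {x j : ℕ} (e : j ≤ kt I) : cc I x (av I x j) ≤ rr I x :=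
  le_rr h (by rwa [rk_av (e.trans_lt h.lt)])

theorem rr_le (h : Ok I) {x v : ℕ} (hv : v < nn I) (e : kt I ≤ rk I x v) : rr I x ≤ cc I x v :=
  rk_le hv (by rwa [rk_av h.lt])

theorem rk_lt_kt (h : Ok I) {x v : ℕ} (hv : v < nn I) (e : cc I x v < rr I x) : rk I x v < kt I :=
  not_le.1 fun c => absurd (rr_le h hv c) (not_le.2 e)

theorem rk_self (h : Ok I) {x : ℕ} (hx : x < nn I) : rk I x x = 0 := by
  rw [rk, rank_eq, card_eq_zero, filter_eq_empty_iff]
  intro w hw
  have := h.met.self x hx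
  have := h.met.pos x w hx (mem_range.1 hw)
  omega

theorem av_ne (h : Ok I) {x j : ℕ} (hx : x < nn I) (hj : j < nn I) (e : 0 < j) : av I x j ≠ x :=
  fun c => by
  have := rk_av (x := x) hj
  rw [c, rk_self h hx] at this
  omega

theorem rr_pos (h : Ok I) {x : ℕ} (hx : x < nn I) : 0 < rr I x :=
  h.met.pos _ _ hx (av_lt h.lt) (av_ne h hx h.lt (by have := h.num; omega)).symm

/-- The points of small rank. -/
def ball (I : In) (x j : ℕ) : Finset ℕ := (range (nn I)).filter fun v => rk I x v < j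

theorem mem_ball {x j v : ℕ} : v ∈ ball I x j ↔ v < nn I ∧ rk I x v < j := by simp [ball]

theorem card_ball (x : ℕ) {j : ℕ} (hj : j ≤ nn I) : (ball I x j).card = j := card_rank _ hj

theorem rr_lip (h : Ok I) {u w : ℕ} (hu : u < nn I) (hw : w < nn I) :
    rr I w ≤ rr I u + cc I u w := by
  by_contra c
  have := card_le_card (s := ball I u (kt I + 1)) (t := ball I w (kt I)) fun v hv => by
    rw [mem_ball] at hv ⊢
    have := le_rr h (Nat.le_of_lt_succ hv.2)
    have := h.met.tri w u v hw hu hv.1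
    have := h.sy u w
    exact ⟨hv.1, rk_lt_kt h hv.1 (by omega)⟩
  rw [card_ball _ h.lt, card_ball _ h.lt.le] at this
  omega

theorem near_iff {x v : ℕ} : near I x v = true ↔ sg I * cc I x v ≤ rr I x := by simp [near]

theorem inner (h : Ok I) {x v : ℕ} (c : clus I x = true) (e : rk I x v + t0 I ≤ kk I) :
    sg I * sg I * cc I x v ≤ rr I x := by
  have a : kk I - t0 I < nn I := by have := h.lt; have := h.num; omega
  exact (Nat.mul_le_mul_left _ (rk_le (av_lt a) (by rw [rk_av a]; omega))).trans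
    (Nat.le_of_ble_eq_true c)

theorem key (h : Ok I) {x y : ℕ} (hx : x < nn I) (hy : y < nn I) (cx : clus I x = true)
    (cy : clus I y = true) (e : 2 * cc I x y ≤ rr I x) : near I x y = true ∧ near I y x = true := by
  have n := h.num
  have l := h.lt
  have l1 := rr_lip h hx hy
  have l2 := rr_lip h hy hx
  have l3 := h.sy x y
  have l4 := rr_pos h hx
  obtain ⟨v, a, b⟩ : ∃ v, v ∈ ball I x (kk I - t0 I + 1) ∧ v ∈ ball I y (kk I - t0 I + 1) := by
    rw [← Finset.not_disjoint_iff]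
    intro d
    have := card_le_card (s := ball I x (kk I - t0 I + 1) ∪ ball I y (kk I - t0 I + 1))
      (t := ball I x (kt I)) fun v hv => by
      simp only [mem_union, mem_ball] at hv ⊢
      rcases hv with hv | hv
      · exact ⟨hv.1, by omega⟩
      · have := inner h cy (v := v) (by omega)
        have := h.ss (cc I y v)
        have := h.s10 (cc I y v)
        have := h.met.tri x y v hx hy hv.1
        exact ⟨hv.1, rk_lt_kt h hv.1 (by omega)⟩
    rw [card_union_of_disjoint d, card_ball _ (by omega), card_ball _ (by omega),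
      card_ball _ l.le] at this
    omega
  rw [mem_ball] at a b
  have := inner h cx (v := v) (by omega)
  have := inner h cy (v := v) (by omega)
  have := h.tri (sg I * sg I) hx a.1 hy
  have := h.ss (cc I x y)
  rw [near_iff, near_iff, ← l3]
  rw [h.sy v y] at *
  omega

theorem cen_iff {x : ℕ} (hx : x < nn I) : cen I x = true ↔ clus I x = true ∧ ∀ y, y < x →
    cen I y = true → rr I y < 2 * cc I y x ∧ rr I x < 2 * cc I y x := by
  simp only [cen, beq_iff_eq, grd_iff _ _ hx, Bool.or_eq_true, Nat.ble_eq, not_or, not_le]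

theorem cen_sep (h : Ok I) {x y : ℕ} (hx : x < nn I) (hy : y < nn I) (cx : cen I x = true)
    (cy : cen I y = true) (e : x ≠ y) : rr I x < 2 * cc I x y := by
  rcases lt_or_gt_of_ne e with c | c
  · exact (((cen_iff hy).1 cy).2 x c cx).1
  · exact h.sy x y ▸ (((cen_iff hx).1 cx).2 y c cy).2

theorem lo_iff {v : ℕ} : lo I v = true ↔ ∀ x, x < nn I → cen I x = true → rr I x < sg I * cc I x v := by
  simp only [lo, Bool.not_eq_true', Bool.eq_false_iff, ne_eq, anyB_iff, Bool.and_eq_true, near_iff,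
    not_exists, not_and, not_le]

theorem lo_clus (h : Ok I) {u : ℕ} (hu : u < nn I) (l : lo I u = true) : ¬ clus I u = true := by
  intro c
  rw [lo_iff] at l
  by_cases d : cen I u = true
  · have := l u hu d
    simp [h.met.self u hu] at this
  · rw [cen_iff hu] at d
    push Not at d
    obtain ⟨y, a, b, e⟩ := d c
    have hy := a.trans hu
    have cy := ((cen_iff hy).1 b).1
    refine absurd (near_iff.1 ?_) (not_le.2 (l y hy b))
    by_cases f : 2 * cc I y u ≤ rr I y
    · exact (key h hy hu cy c f).1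
    · exact (key h hu hy c cy (h.sy u y ▸ e (by omega))).2

theorem cor_iff {x : ℕ} (hx : x < nn I) : cor I x = true ↔ cand I x = true ∧ ∀ y, y < nn I →
    rank (nn I) (fun w => rr I w) y < rank (nn I) (fun w => rr I w) x → cor I y = true →
      20 * (sg I * rr I x) < cc I x y := by
  have e : ord I (rank (nn I) (fun w => rr I w) x) = x := atk_rank hx
  rw [cor, beq_iff_eq, grd_iff _ _ (rank_lt hx), e]
  refine and_congr_right fun _ => ⟨fun a y hy b c => ?_, fun a j b c => ?_⟩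
  · have := a _ b (beq_iff_eq.1 c)
    rwa [show ord I (rank (nn I) (fun w => rr I w) y) = y from atk_rank hy, Nat.ble_eq,
      not_le] at this
  · obtain ⟨d, e⟩ := atk_spec (fun w => rr I w) (b.trans (rank_lt hx))
    rw [Nat.ble_eq, not_le]
    exact a _ d (e.symm ▸ b) (by rw [cor, beq_iff_eq]; exact e.symm ▸ c)

theorem cand_iff {w : ℕ} : cand I w = true ↔ lo I w = true ∧
    ∀ x, x < nn I → cen I x = true → 20 * (sg I * rr I w) < cc I w x := by
  simp only [cand, Bool.and_eq_true, Bool.not_eq_true', Bool.eq_false_iff, ne_eq, anyB_iff,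
    Nat.ble_eq, not_exists, not_and, not_le]

theorem ctr_spec {p : ℕ} (hp : p < nN I) : ctr I p < nn I ∧
    rank (nn I) (fun w => nk I w) (ctr I p) = p ∧ (cen I (ctr I p) || cor I (ctr I p)) = true := by
  have e : nN I = ((range (nn I)).filter fun w => nk I w ≤ 0).card := by
    rw [nN, cntB_eq]
    exact congrArg card (filter_congr fun x _ => by
      simp [nk, Bool.cond_eq_ite, or_iff_not_imp_left])
  obtain ⟨a, b⟩ := atk_spec (fun w => nk I w) (hp.trans_le
    (e ▸ (card_filter_le _ _).trans (card_range _).le))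
  have := (rank_lt_iff (key := fun w => nk I w) (· ≤ 0) (fun _ _ => le_trans) a).1 (by
    rw [b, ← e]; exact hp)
  exact ⟨a, b, by simpa [nk, Bool.cond_eq_ite, ctr, or_iff_not_imp_left] using this⟩

theorem ctr_lt {p : ℕ} (hp : p < nN I) : ctr I p < nn I := (ctr_spec hp).1

theorem ctr_inj {p q : ℕ} (hp : p < nN I) (hq : q < nN I) (e : ctr I p = ctr I q) : p = q := by
  rw [← (ctr_spec hp).2.1, e, (ctr_spec hq).2.1]

theorem exists_ctr {x : ℕ} (hx : x < nn I) (c : (cen I x || cor I x) = true) :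
    ∃ p, p < nN I ∧ ctr I p = x := by
  refine ⟨rank (nn I) (fun w => nk I w) x, ?_, atk_rank hx⟩
  have e : nN I = ((range (nn I)).filter fun w => nk I w ≤ 0).card := by
    rw [nN, cntB_eq]
    exact congrArg card (filter_congr fun x _ => by
      simp [nk, Bool.cond_eq_ite, or_iff_not_imp_left])
  exact e ▸ (rank_lt_iff (key := fun w => nk I w) (· ≤ 0) (fun _ _ => le_trans) hx).2
    (by simp [nk, c])

theorem cor_of {p : ℕ} (hp : p < nN I) (g : ¬ gp I p = true) : cor I (ctr I p) = true :=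
  (Bool.or_eq_true_iff.1 (ctr_spec hp).2.2).resolve_left g

theorem rN_lip (h : Ok I) {p v : ℕ} (hp : p < nN I) (hv : v < nn I) :
    rr I v ≤ rN I p + cv I p v ∧ rN I p ≤ rr I v + cv I p v :=
  ⟨rr_lip h (ctr_lt hp) hv, (rr_lip h hv (ctr_lt hp)).trans (by rw [h.sy]; rfl)⟩

theorem rN_pos (h : Ok I) {p : ℕ} (hp : p < nN I) : 0 < rN I p := rr_pos h (ctr_lt hp)

theorem cN_sy (h : Ok I) (p q : ℕ) : cN I p q = cN I q p := h.sy _ _

theorem triN (h : Ok I) (s : ℕ) {p q v : ℕ} (hp : p < nN I) (hq : q < nN I) (hv : v < nn I) :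
    s * cN I p q ≤ s * cv I p v + s * cv I q v ∧ s * cv I p v ≤ s * cN I p q + s * cv I q v :=
  ⟨by rw [cv, cv, h.sy (ctr I q)]; exact h.tri s (ctr_lt hp) hv (ctr_lt hq),
    h.tri s (ctr_lt hp) (ctr_lt hq) hv⟩

theorem triV (h : Ok I) (s : ℕ) {p u v : ℕ} (hp : p < nN I) (hu : u < nn I) (hv : v < nn I) :
    s * cc I u v ≤ s * cv I p u + s * cv I p v ∧ s * cv I p v ≤ s * cv I p u + s * cc I u v :=
  ⟨by rw [cv, h.sy (ctr I p)]; exact h.tri s hu (ctr_lt hp) hv, h.tri s (ctr_lt hp) hu hv⟩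

theorem core_sep (h : Ok I) {p q : ℕ} (hp : p < nN I) (hq : q < nN I) (e : p ≠ q)
    (g : ¬ gp I p = true) : 20 * (sg I * rN I p) < cN I p q := by
  have a := (cor_iff (ctr_lt hp)).1 (cor_of hp g)
  by_cases g' : gp I q = true
  · exact (cand_iff.1 a.1).2 _ (ctr_lt hq) g'
  rcases lt_trichotomy (rank (nn I) (fun w => rr I w) (ctr I q))
    (rank (nn I) (fun w => rr I w) (ctr I p)) with c | c | c
  · exact a.2 _ (ctr_lt hq) c (cor_of hq g')
  · exact absurd (ctr_inj hq hp (rank_inj (ctr_lt hq) (ctr_lt hp) c)) e.symm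
  · have := ((cor_iff (ctr_lt hq)).1 (cor_of hq g')).2 _ (ctr_lt hp) c (cor_of hp g)
    have := Nat.mul_le_mul_left (sg I) (key_le (key := fun w => rr I w) (ctr_lt hq) c.le)
    rw [cN, h.sy, rN]
    omega

theorem sep (h : Ok I) {p q : ℕ} (hp : p < nN I) (hq : q < nN I) (e : p ≠ q) :
    rN I p < 2 * cN I p q := by
  by_cases g : gp I p = true
  · by_cases g' : gp I q = true
    · exact cen_sep h (ctr_lt hp) (ctr_lt hq) g g' fun c => e (ctr_inj hp hq c)
    · have := core_sep h hq hp e.symm g'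
      have := h.s10 (rN I q)
      have : rN I p ≤ rN I q + cN I q p := rr_lip h (ctr_lt hq) (ctr_lt hp)
      rw [cN_sy h p q]
      omega
  · have := core_sep h hp hq e g
    have := h.s10 (rN I p)
    omega

theorem exists_node (h : Ok I) {w : ℕ} (hw : w < nn I) (l : lo I w = true) :
    ∃ p, p < nN I ∧ cv I p w ≤ 20 * (sg I * rr I w) := by
  suffices ∃ x, x < nn I ∧ (cen I x || cor I x) = true ∧ cc I w x ≤ 20 * (sg I * rr I w) by
    obtain ⟨x, a, b, c⟩ := this
    obtain ⟨p, d, rfl⟩ := exists_ctr a b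
    exact ⟨p, d, by rwa [cv, h.sy]⟩
  by_contra c
  push Not at c
  have := c w hw (by
    rw [(cor_iff hw).2 ⟨cand_iff.2 ⟨l, fun x hx d => c x hx (by simp [d])⟩,
      fun y hy _ d => c y hy (by simp [d])⟩, Bool.or_true])
  simp [h.met.self w hw] at this

theorem gp_mem (_ : Ok I) {p v : ℕ} (hv : v < nn I) (g : gp I p = true) :
    rp I p v < qq I p ↔ sg I * cv I p v ≤ rN I p := by
  rw [qq, g, cond_true, cntB_eq]
  simp only [near_iff]
  exact rank_lt_iff (key := fun w => cc I (ctr I p) w) (fun c => sg I * c ≤ rr I (ctr I p))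
    (fun _ _ a b => (Nat.mul_le_mul_left _ a).trans b) hv

theorem gp_inner (h : Ok I) {p v : ℕ} (hp : p < nN I) (g : gp I p = true)
    (e : rp I p v + t0 I ≤ kk I) : sg I * sg I * cv I p v ≤ rN I p :=
  inner h ((cen_iff (ctr_lt hp)).1 g).1 e

theorem qq_core {p : ℕ} (g : ¬ gp I p = true) : qq I p = kt I := by simp [qq, g]

theorem vx_lt {p j : ℕ} (hj : j < nn I) : vx I p j < nn I := av_lt hj

theorem rp_vx {p j : ℕ} (hj : j < nn I) : rp I p (vx I p j) = j := rk_av hj

theorem vx_rp {p v : ℕ} (hv : v < nn I) : vx I p (rp I p v) = v := av_rk hv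

theorem cv_le (h : Ok I) {p v : ℕ} (e : rp I p v ≤ kt I) : cv I p v ≤ rN I p := le_rr h e

theorem qq_bd (h : Ok I) {p : ℕ} (hp : p < nN I) : kk I + 1 ≤ qq I p + t0 I ∧ qq I p ≤ kt I := by
  have n := h.num
  have l := h.lt
  by_cases g : gp I p = true
  · constructor
    · have a : kk I - t0 I < nn I := by omega
      have b := gp_inner h hp g (v := vx I p (kk I - t0 I)) (by rw [rp_vx a]; omega)
      have := h.ss (cv I p (vx I p (kk I - t0 I)))
      have := (gp_mem h (vx_lt (p := p) a) g).2 (by omega)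
      rw [rp_vx a] at this
      omega
    · by_contra c
      have := (gp_mem h (vx_lt l) g).1 (by rw [rp_vx l]; omega)
      have := h.s10 (rN I p)
      have := rN_pos h hp
      change sg I * rN I p ≤ _ at *
      omega
  · rw [qq_core g]; omega

theorem lo_node {v : ℕ} : lo I v = true ↔
    ∀ p, p < nN I → gp I p = true → rN I p < sg I * cv I p v := by
  rw [lo_iff]
  refine ⟨fun a p hp g => a _ (ctr_lt hp) g, fun a x hx c => ?_⟩
  obtain ⟨p, d, rfl⟩ := exists_ctr hx (by simp [c])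
  exact a p d c

theorem nt_iff {y : ℕ} (hy : y < nn I) : nt I y = true ↔ lo I y = true ∧ ∀ z, z < y →
    nt I z = true → rr I z ≤ 2 * cc I z y := by
  simp only [nt, beq_iff_eq, grd_iff _ _ hy, Nat.blt_eq, not_lt]

theorem yy_spec (h : Ok I) {w : ℕ} (hw : w < nn I) (l : lo I w = true) : yy I w < nn I ∧
    nt I (yy I w) = true ∧ 2 * cc I (yy I w) w < rr I (yy I w) ∧ rr I (yy I w) < 2 * rr I w ∧
      2 * rr I w < 3 * rr I (yy I w) := by
  obtain ⟨a, b, _⟩ := first_spec (N := nn I)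
    (p := fun y => nt I y && Nat.blt (2 * cc I y w) (rr I y)) (by
      by_cases c : nt I w = true
      · exact ⟨w, hw, by simp [c, h.met.self w hw, rr_pos h hw]⟩
      · rw [nt_iff hw] at c
        push Not at c
        obtain ⟨z, a, b, d⟩ := c l
        exact ⟨z, a.trans hw, by simp [b, d]⟩)
  change yy I w < _ at a
  change (nt I (yy I w) && Nat.blt (2 * cc I (yy I w) w) (rr I (yy I w))) = true at b
  rw [Bool.and_eq_true, Nat.blt_eq] at b
  have := rr_lip h hw a
  have := rr_lip h a hw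
  have := h.sy w (yy I w)
  exact ⟨a, b.1, b.2, by omega, by omega⟩

theorem pi_lo (h : Ok I) {w : ℕ} (hw : w < nn I) (l : lo I w = true) : pi I w < nN I ∧
    cv I (pi I w) w ≤ 60 * (sg I * rr I w) ∧
      ∀ p, p < nN I → cv I (pi I w) (yy I w) ≤ cv I p (yy I w) := by
  obtain ⟨a, b, c, d, _⟩ := yy_spec h hw l
  obtain ⟨p, e, f⟩ := exists_node h a ((nt_iff a).1 b).1
  obtain ⟨g, _, i⟩ := argmin_spec (N := nN I) (p := fun _ => true)
    (fun p => cc I (yy I w) (ctr I p)) ⟨p, e, rfl⟩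
  have k : pi I w = argmin (nN I) (fun _ => true) fun p => cc I (yy I w) (ctr I p) := by
    rw [pi, l, cond_true]
  rw [← k] at g i
  have m : ∀ p, p < nN I → cv I (pi I w) (yy I w) ≤ cv I p (yy I w) := fun p hp => by
    rw [cv, cv, h.sy, h.sy (ctr I p)]; exact i p hp rfl
  have := m p e
  have := (triV h 1 g a hw).2
  have := Nat.mul_le_mul_left (sg I) d.le
  have := h.s10 (rr I w)
  rw [mul_left_comm (sg I)] at *
  exact ⟨g, by omega, m⟩

theorem pi_yy {v w : ℕ} (a : lo I v = true) (b : lo I w = true) (e : yy I v = yy I w) :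
    pi I v = pi I w := by simp only [pi, a, b, e, cond_true]

theorem pi_gp (h : Ok I) {v : ℕ} (hv : v < nn I) (l : ¬ lo I v = true) : pi I v < nN I ∧
    gp I (pi I v) = true ∧ rp I (pi I v) v < qq I (pi I v) := by
  obtain ⟨a, b, _⟩ := first_spec (N := nN I) (p := fun p => gp I p && near I (ctr I p) v) (by
    rw [lo_node] at l
    push Not at l
    obtain ⟨p, a, b, c⟩ := l
    exact ⟨p, a, by rw [b, near_iff.2 c]; rfl⟩)
  have k : pi I v = first (nN I) fun p => gp I p && near I (ctr I p) v := by simp [pi, l]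
  rw [← k] at a b
  rw [Bool.and_eq_true] at b
  exact ⟨a, b.1, (gp_mem h hv b.1).2 (near_iff.1 b.2)⟩

theorem pi_lt (h : Ok I) {v : ℕ} (hv : v < nn I) : pi I v < nN I := by
  by_cases l : lo I v = true
  · exact (pi_lo h hv l).1
  · exact (pi_gp h hv l).1

theorem core_near (h : Ok I) {p v : ℕ} (hp : p < nN I) (hv : v < nn I) (g : ¬ gp I p = true)
    (e : cv I p v ≤ 3 * (sg I * rN I p)) :
    lo I v = true ∧ pi I v = p ∧ rN I p ≤ 21 * (sg I * rr I v) := by
  have r := h.s10 (rN I p)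
  have r2 := rN_lip h hp hv
  have l : lo I v = true := lo_node.2 fun q hq g' => by
    have := core_sep h hp hq (fun c => g (c ▸ g')) g
    have := (triN h 1 hp hq hv).1
    have := h.s10 (cv I q v)
    have : rN I q ≤ rN I p + cN I p q := rr_lip h (ctr_lt hp) (ctr_lt hq)
    omega
  refine ⟨l, ?_, ?_⟩
  · by_contra c
    obtain ⟨a, _, b⟩ := pi_lo h hv l
    obtain ⟨d, _, f, _⟩ := yy_spec h hv l
    have := core_sep h hp a (Ne.symm c) g
    have := (triN h 1 hp a d).1
    have := b p hp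
    have := (triV h 1 hp hv d).2
    have := h.sy v (yy I v)
    omega
  · obtain ⟨q, a, b⟩ := exists_node h hv l
    have := h.s10 (rr I v)
    rcases eq_or_ne p q with rfl | c
    · omega
    · have := core_sep h hp a c g
      have := (triN h 1 hp a hv).1
      omega

theorem pi_mem (h : Ok I) {p v : ℕ} (hp : p < nN I) (hv : v < nn I) (e : rp I p v < qq I p) :
    pi I v = p ∧ (lo I v = true ↔ ¬ gp I p = true) := by
  by_cases g : gp I p = true
  · have a := (gp_mem h hv g).1 e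
    have l : ¬ lo I v = true := fun l => absurd (lo_node.1 l p hp g) (not_lt.2 a)
    refine ⟨?_, by simp [l, g]⟩
    by_contra c
    obtain ⟨b, d, f⟩ := pi_gp h hv l
    have := (gp_mem h hv d).1 f
    have := sep h hp b (Ne.symm c)
    have := sep h b hp c
    have := (triN h (sg I) hp b hv).1
    have := h.s10 (cN I p (pi I v))
    rw [cN_sy h (pi I v)] at *
    omega
  · have := cv_le h (e.le.trans (qq_bd h hp).2)
    have := h.s10 (rN I p)
    have := core_near h hp hv g (by omega)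
    exact ⟨this.2.1, by simp [this.1, g]⟩

theorem inn_iff {v : ℕ} : inn I v = true ↔ rp I (pi I v) v < qq I (pi I v) := by simp [inn]

theorem mt_spec {p : ℕ} (hp : p < nN I) : mt I p < nN I ∧ (ta I p = true → gp I p = true ∧
    mt I p ≠ p ∧ cN I p (mt I p) ≤ 6 * rN I p) ∧ (¬ ta I p = true → mt I p = p ∧ (gp I p = true →
      ∀ q, q < nN I → q ≠ p → 6 * rN I p < cN I p q)) := by
  by_cases a : ta I p = true
  · have b := a
    rw [ta, Bool.and_eq_true, Nat.blt_eq] at b
    obtain ⟨c, d, _⟩ := first_spec (first_lt_iff.1 b.2)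
    have e : mt I p = mt0 I p := by rw [mt, a, cond_true]
    change (!(mt0 I p == p) && Nat.ble (cN I p (mt0 I p)) (6 * rN I p)) = true at d
    rw [e]
    exact ⟨b.2, fun _ => ⟨b.1, by simpa using d⟩, fun c => absurd a c⟩
  · have e : mt I p = p := by simp [mt, a]
    refine ⟨e.symm ▸ hp, fun c => absurd c a, fun _ => ⟨e, fun g q hq c => not_le.1 fun d => a ?_⟩⟩
    rw [ta, g, Bool.true_and, Nat.blt_eq]
    exact first_lt_iff.2 ⟨q, hq, by simp [c, d]⟩

theorem tb_near (h : Ok I) {p v : ℕ} (hp : p < nN I) (hv : v < nn I) (g : gp I p = true)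
    (a : ¬ ta I p = true) (e : rp I p v < kt I) (e' : qq I p ≤ rp I p v) :
    lo I v = true ∧ pi I v = p ∧ rN I p ≤ 21 * (sg I * rr I v) := by
  have s := ((mt_spec hp).2.2 a).2 g
  have r := cv_le h e.le
  have r2 := rN_lip h hp hv
  have l : lo I v = true := by
    by_contra l
    obtain ⟨b, d, f⟩ := pi_gp h hv l
    have := (gp_mem h hv d).1 f
    have := s _ b fun c => by rw [c] at f; omega
    have := (triN h 1 hp b hv).1
    have := h.s10 (cv I (pi I v) v)
    have : rN I (pi I v) ≤ rN I p + cN I p (pi I v) := rr_lip h (ctr_lt hp) (ctr_lt b)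
    omega
  refine ⟨l, ?_, ?_⟩
  · by_contra c
    obtain ⟨a, _, b⟩ := pi_lo h hv l
    obtain ⟨d, _, f, _⟩ := yy_spec h hv l
    have := s _ a c
    have := (triN h 1 hp a d).1
    have := b p hp
    have := (triV h 1 hp hv d).2
    have := h.sy v (yy I v)
    omega
  · obtain ⟨q, a, b⟩ := exists_node h hv l
    have := h.s10 (rr I v)
    rcases eq_or_ne q p with rfl | c
    · omega
    · have := s q a c
      have := (triN h 1 hp a hv).1
      omega

theorem pigeon (h : Ok I) {x ρ : ℕ} {T : Finset ℕ} (hx : x < nn I) (r : rr I x ≤ ρ)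
    (hT : ∀ w ∈ T, w < nn I ∧ lo I w = true ∧ cc I x w ≤ ρ ∧ ρ ≤ 40 * (sg I ^ 4 * rr I w))
    (c : je I ≤ T.card) (c0 : T.Nonempty) :
    ∃ w ∈ T, et I ≤ (T.filter fun v => yy I v = yy I w).card := by
  by_contra d
  push Not at d
  have a := h.pk1 x (3 * ρ) (T.image (yy I)) hx (fun y hy => by
    obtain ⟨w, hw, rfl⟩ := mem_image.1 hy
    exact mem_range.2 (yy_spec h (hT w hw).1 (hT w hw).2.1).1) (fun y hy => by
    obtain ⟨w, hw, rfl⟩ := mem_image.1 hy
    obtain ⟨a, b, c, _⟩ := hT w hw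
    obtain ⟨e, _, f, g, _⟩ := yy_spec h a b
    have := h.met.tri x w _ hx a e
    have := rr_lip h hx a
    have := h.sy w (yy I w)
    omega) (by
    have key : ∀ p ∈ T.image (yy I), ∀ q ∈ T.image (yy I), p < q →
        3 * ρ ≤ 360 * sg I ^ 4 * cc I p q := fun y hy z hz c => by
      obtain ⟨w, hw, rfl⟩ := mem_image.1 hy
      obtain ⟨v, hv, rfl⟩ := mem_image.1 hz
      obtain ⟨a, b, _, d⟩ := hT w hw
      obtain ⟨_, e, _, _, g⟩ := yy_spec h a b
      obtain ⟨i, j, _⟩ := yy_spec h (hT v hv).1 (hT v hv).2.1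
      have := ((nt_iff i).1 j).2 _ c e
      have := Nat.mul_le_mul_left (sg I ^ 4) (show rr I w ≤ 3 * cc I (yy I w) (yy I v) by omega)
      rw [mul_left_comm] at this
      rw [mul_assoc]
      omega
    intro p hp q hq c
    rcases lt_or_gt_of_ne c with c | c
    · exact key p hp q hq c
    · exact h.sy p q ▸ key q hq p hp c)
  have b := card_le_mul_card_image (f := yy I) T (et I - 1) fun y hy => by
    obtain ⟨w, hw, rfl⟩ := mem_image.1 hy
    exact Nat.le_sub_one_of_lt (d w hw)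
  have e := card_pos.2 (c0.image (yy I))
  have f := Nat.mul_le_mul_left (et I) a
  have g := h.epos
  rw [Nat.sub_mul] at b
  have := Nat.le_mul_of_pos_left (T.image (yy I)).card g
  rw [je, mul_comm] at c
  omega

end Pool.Agent.Lib.MP_959bb6_lc.Vx
end
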