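import Mathlib
import Pool.Agent.Lib.MP_959bb6_lc.VGeo

-- part Pool.Agent.Lib.MP_959bb6_lc.VLP
section

/-!
The two programs: feasibility and cost.
-/

set_option autoImplicit false

namespace Pool.Agent.Lib.MP_959bb6_lc

open Pool.Agent.Shared.PolyTime Enc Finset

/-- Cut form of vertex connectivity for a matrix. -/
def VC (n k : ℕ) (M : Mat) : Prop := ∀ A B : Finset ℕ, A ⊆ range n → B ⊆ range n → A.Nonempty →
  B.Nonempty → Disjoint A B → (∀ a ∈ A, ∀ b ∈ B, ¬ entry M a b = true) → k + A.card + B.card ≤ n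

theorem Sym.vcut {n k : ℕ} {M : Mat} (h : Sym n M) : VCut n k (graphOf n M) ↔ VC n k M := by
  constructor
  · intro hc A B hA hB a b c d
    obtain ⟨S, rfl⟩ := exists_fin hA
    obtain ⟨T, rfl⟩ := exists_fin hB
    simpa using hc S T (by simpa using a) (by simpa using b) ((disjoint_map _).1 c)
      fun x hx y hy e => d _ (mem_map_of_mem _ hx) _ (mem_map_of_mem _ hy) ((h.adj x y).1 e)
  · intro hc S T a b c d
    simpa using hc _ _ (map_val_subset S) (map_val_subset T) (by simpa using a) (by simpa using b)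
      ((disjoint_map _).2 c) fun x hx y hy e => by
        obtain ⟨x, x1, rfl⟩ := mem_map.1 hx
        obtain ⟨y, y1, rfl⟩ := mem_map.1 hy
        exact d x x1 y y1 ((h.adj x y).2 e)

theorem VC.deg {n k : ℕ} {M : Mat} (h : VC n k M) (hk : k < n) {u : ℕ} (hu : u < n) :
    k ≤ deg n M u := by
  have a := card_filter_add_card_filter_not (s := range n) fun v => entry M u v = true
  have b := pred_card_le_card_erase (s := (range n).filter fun v => ¬ entry M u v = true) (a := u)
  rw [card_range, ← deg_eq] at a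
  rcases (((range n).filter fun v => ¬ entry M u v = true).erase u).eq_empty_or_nonempty with c | c
  · rw [c, card_empty] at b
    omega
  · have := h {u} _ (by simpa using hu) ((erase_subset _ _).trans (filter_subset _ _))
      (singleton_nonempty _) c (by simp) fun x hx y hy => by
        rw [mem_singleton.1 hx]; exact (mem_filter.1 (mem_of_mem_erase hy)).2
    rw [card_singleton] at this
    omega

theorem far_cost {n s ρ u : ℕ} {c : ℕ → ℕ → ℕ} (M : Mat) (X : Finset ℕ)
    (h : ∀ v, v < n → v ∉ X → ρ ≤ s * c u v) :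
    deg n M u * ρ ≤ s * cstAt n c M u + (X.filter fun v => entry M u v = true).card * ρ := by
  rw [deg_sum, cstAt, sum_mul, mul_sum]
  refine le_trans (sum_le_sum (g := fun v => s * (ind M u v * c u v) +
    if v ∈ X.filter fun v => entry M u v = true then ρ else 0) fun v hv => ?_) ?_
  · have := h v (mem_range.1 hv)
    simp only [ind_eq, mem_filter]
    split_ifs <;> simp_all
  · rw [sum_add_distrib, ← sum_filter, sum_const, smul_eq_mul]
    exact Nat.add_le_add_left (Nat.mul_le_mul_right _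
      (card_le_card fun v hv => (mem_filter.1 hv).2)) _

theorem le_dcut {N : ℕ} (W : ℕ → ℕ → ℕ) {X : Finset ℕ} {p q : ℕ} (hp : p ∈ X) (hq : q < N)
    (e : q ∉ X) : W p q ≤ dcut N W X :=
  (single_le_sum (f := fun q => W p q) (fun _ _ => Nat.zero_le _)
    (mem_sdiff.2 ⟨mem_range.2 hq, e⟩)).trans (single_le_sum
      (f := fun p => ∑ q ∈ range N \ X, W p q) (fun _ _ => Nat.zero_le _) hp)

theorem sum_min {ι : Type} (s : Finset ι) (f : ι → ℕ) (c : ℕ) :
    min c (∑ i ∈ s, f i) ≤ ∑ i ∈ s, min c (f i) := by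
  classical
  induction s using Finset.induction_on with
  | empty => simp
  | insert i s hi ih => rw [sum_insert hi, sum_insert hi]; omega

theorem sum_split {N n : ℕ} (W : ℕ → ℕ → ℕ) (h : ∀ x v, x < N → v < n → W x (N + v) = 0 ∧
    W (N + v) x = 0) : ∑ x ∈ range (N + n), ∑ y ∈ range (N + n), W x y =
      ∑ x ∈ range N, ∑ y ∈ range N, W x y + ∑ u ∈ range n, ∑ v ∈ range n, W (N + u) (N + v) := by
  simp only [sum_range_add]
  congr 1
  · exact sum_congr rfl fun x hx => by
      rw [sum_eq_zero fun v hv => (h x v (mem_range.1 hx) (mem_range.1 hv)).1, add_zero]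
  · exact sum_congr rfl fun v hv => by
      rw [sum_eq_zero fun x hx => (h x v (mem_range.1 hx) (mem_range.1 hv)).2, zero_add]

theorem sum_push {N n : ℕ} {π : ℕ → ℕ} (hπ : ∀ v, v < n → π v < N) (a : ℕ → ℕ → ℕ)
    (ψ : ℕ → ℕ → ℕ) : ∑ p ∈ range N, ∑ q ∈ range N, (∑ u ∈ range n, ∑ v ∈ range n,
      if π u = p ∧ π v = q then a u v else 0) * ψ p q =
      ∑ u ∈ range n, ∑ v ∈ range n, a u v * ψ (π u) (π v) := by
  simp only [sum_mul]
  rw [sum_congr rfl fun _ _ => sum_comm, sum_comm]
  refine sum_congr rfl fun u hu => ?_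
  rw [sum_congr rfl fun _ _ => sum_comm, sum_comm]
  refine sum_congr rfl fun v hv => ?_
  simp [ite_and, hπ u (mem_range.1 hu), hπ v (mem_range.1 hv)]

namespace Vx

variable {I : In} {G : Mat}

/-- The cost of the edges at a point. -/
def cg (I : In) (G : Mat) (u : ℕ) : ℕ := cstAt (nn I) (cc I) G u

/-- Both points lie in one group. -/
def intra (I : In) (u v : ℕ) : Prop := ¬ lo I u = true ∧ ¬ lo I v = true ∧ pi I u = pi I v

instance (u v : ℕ) : Decidable (intra I u v) := by unfold intra; infer_instance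

theorem Ok.deg (h : Ok I) (hG : VC (nn I) (kk I) G) {u : ℕ} (hu : u < nn I) :
    kk I ≤ deg (nn I) G u := hG.deg (by have := h.lt; have := h.num; omega) hu

theorem bud_lo (h : Ok I) (hG : VC (nn I) (kk I) G) {z : ℕ} (hz : z < nn I) (l : lo I z = true) :
    t0 I * rr I z ≤ sg I * sg I * cg I G z := by
  have n := h.num
  have a : kk I - t0 I < nn I := by have := h.lt; omega
  have := far_cost (n := nn I) (s := sg I * sg I) (ρ := rr I z) (u := z) (c := cc I) G
    (ball I z (kk I - t0 I)) fun v hv c => by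
      have b := lo_clus h hz l
      rw [clus, Nat.ble_eq, not_le] at b
      exact b.le.trans (Nat.mul_le_mul_left _ (rk_le hv (by
        rw [rk_av a]; exact not_lt.1 fun d => c (mem_ball.2 ⟨hv, d⟩))))
  have b := Nat.mul_le_mul_right (rr I z) ((card_filter_le _ fun v => entry G z v = true).trans
    (card_ball z a.le).le)
  have c := Nat.mul_le_mul_right (rr I z) (h.deg hG hz)
  have d := Nat.mul_le_mul_right (rr I z) (show t0 I ≤ kk I by omega)
  rw [Nat.sub_mul] at b
  unfold cg
  omega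

theorem sho_iff {u v : ℕ} : sho I u v = true ↔ lo I u = true ∧
    cc I u v ≤ 20 * (sg I * sg I * rr I u) ∧
      if lo I v = true then rr I v ≤ rr I u else ¬ inn I u = true := by
  by_cases c : lo I v = true <;> simp [sho, c, and_assoc]

theorem sht_iff {u v : ℕ} : sht I u v = true ↔ u ≠ v ∧ (sho I u v = true ∨ sho I v u = true) := by
  simp [sht]

theorem sht_comm (u v : ℕ) : sht I u v = sht I v u := by
  rw [Bool.eq_iff_iff, sht_iff, sht_iff, or_comm, ne_comm]

theorem blk_iff {v : ℕ} : blk I v = true ↔ ¬ lo I v = true ∧ rp I (pi I v) v < pp I := by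
  simp [blk]

theorem core_gp (h : Ok I) {u v : ℕ} (hu : u < nn I) (hv : v < nn I) (l : lo I u = true)
    (i : inn I u = true) (l' : ¬ lo I v = true) : 5 * (sg I * rr I u) ≤ cc I u v ∧
      10 * (sg I * cv I (pi I u) u) ≤ cc I u v ∧ rN I (pi I v) ≤ 4 * cc I u v := by
  have a := pi_lt h hu
  have b := inn_iff.1 i
  have g := (pi_mem h a hu b).2.1 l
  obtain ⟨c, d, e⟩ := pi_gp h hv l'
  have f : pi I u ≠ pi I v := fun e => g (e ▸ d)
  have := core_sep h a c f g
  have := sep h c a f.symm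
  have := (gp_mem h hv d).1 e
  have := h.s10 (cv I (pi I v) v)
  have := h.s10 (rN I (pi I u))
  have k := cv_le h (b.le.trans (qq_bd h a).2)
  have := Nat.mul_le_mul_left (sg I) k
  have := Nat.mul_le_mul_left (sg I) (show rr I u ≤ 2 * rN I (pi I u) by
    have := rN_lip h a hu; omega)
  have := (triN h 1 a c hv).1
  have := (triV h 1 a hu hv).2
  rw [mul_left_comm (sg I), cN_sy h (pi I v)] at *
  omega

theorem long (h : Ok I) {u v : ℕ} (hu : u < nn I) (hv : v < nn I) (e : u ≠ v)
    (a : ¬ intra I u v) (b : ¬ sht I u v = true) :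
    sg I * cv I (pi I u) u ≤ 4 * cc I u v ∧ (lo I u = true → sg I * rr I u ≤ cc I u v) := by
  simp only [sht_iff, sho_iff, intra, not_and, not_or, h.sy v u] at a b
  have b := b e
  have s1 := h.ss (rr I u)
  have s2 := h.ss (rr I v)
  have s3 := h.s10 (rr I v)
  by_cases l : lo I u = true
  · have k : 20 * (sg I * sg I * rr I u) < cc I u v → sg I * cv I (pi I u) u ≤ 4 * cc I u v ∧
        (lo I u = true → sg I * rr I u ≤ cc I u v) := fun c => by
      have := Nat.mul_le_mul_left (sg I) (pi_lo h hu l).2.1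
      rw [mul_left_comm, ← mul_assoc (sg I)] at this
      exact ⟨by omega, fun _ => by omega⟩
    by_cases l' : lo I v = true
    · simp only [l, l', if_true, forall_true_left] at b
      have := @Nat.mul_le_mul_left (rr I u) (rr I v) (sg I * sg I)
      exact k (by omega)
    · by_cases i : inn I u = true
      · have := core_gp h hu hv l i l'
        exact ⟨by omega, fun _ => by omega⟩
      · exact k (not_le.1 fun c => b.1 l c (by rwa [if_neg l']))
  · refine ⟨?_, fun c => absurd c l⟩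
    obtain ⟨c, d, f⟩ := pi_gp h hu l
    have := (gp_mem h hu d).1 f
    have := h.s10 (cv I (pi I u) u)
    by_cases l' : lo I v = true
    · by_cases i : inn I v = true
      · have := core_gp h hv hu l' i l
        rw [h.sy v u] at this
        omega
      · have := not_le.1 fun c => b.2 l' c (by rwa [if_neg l])
        have := rN_lip h c hv
        have := (triV h 1 c hu hv).2
        omega
    · obtain ⟨c', d', f'⟩ := pi_gp h hv l'
      have := (gp_mem h hv d').1 f'
      have := h.s10 (cv I (pi I v) v)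
      have := sep h c c' (a l l')
      have := sep h c' c (Ne.symm (a l l'))
      have := (triN h 1 c c' hv).1
      have := (triV h 1 c hu hv).2
      rw [cN_sy h (pi I v)] at *
      omega

theorem intra_comm {u v : ℕ} : intra I u v ↔ intra I v u := by unfold intra; tauto

theorem long2 (h : Ok I) {u v : ℕ} (hu : u < nn I) (hv : v < nn I) (e : u ≠ v)
    (a : ¬ intra I u v) (b : ¬ sht I u v = true) : pi I u ≠ pi I v ∧
      sg I * cN I (pi I u) (pi I v) ≤ sg I * cc I u v + 8 * cc I u v := by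
  have c := (long h hu hv e a b).1
  have d := (long h hv hu e.symm (fun c => a (intra_comm.1 c)) (sht_comm u v ▸ b)).1
  rw [h.sy v u] at d
  have := (triN h (sg I) (pi_lt h hu) (pi_lt h hv) hv).1
  have := triV h (sg I) (pi_lt h hu) hu hv
  have := h.s10 (cc I u v)
  have := h.met.pos u v hu hv e
  exact ⟨fun e => by rw [← e] at d; omega, by omega⟩

theorem sho_near (h : Ok I) {z v : ℕ} (hz : z < nn I) (hv : v < nn I) (a : sho I z v = true) :
    cv I (pi I v) z ≤ 41 * (sg I * sg I * rr I z) := by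
  obtain ⟨_, b, c⟩ := sho_iff.1 a
  have := (triV h 1 (pi_lt h hv) hv hz).2
  have := h.ss (rr I z)
  have := h.s10 (rr I z)
  rw [h.sy v z] at *
  split_ifs at c with l
  · have := (pi_lo h hv l).2.1
    have := Nat.mul_le_mul_left (sg I) c
    omega
  · obtain ⟨c, d, f⟩ := pi_gp h hv l
    have := (gp_mem h hv d).1 f
    have := h.s10 (cv I (pi I v) v)
    have := rN_lip h c hz
    omega

theorem exists_priv (h : Ok I) (hG : VC (nn I) (kk I) G) (z : ℕ) : ∃ W : ℕ → ℕ → ℕ,
    (∀ p q, W p q = W q p) ∧ (z < nn I → ∀ X v, X ⊆ range (nN I) → v < nn I → entry G z v = true →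
      sho I z v = true → ¬ (pi I z ∈ X ↔ pi I v ∈ X) → 1 ≤ dcut (nN I) W X) ∧
    sg I * ∑ p ∈ range (nN I), ∑ q ∈ range (nN I), W p q * cN I p q ≤ 246 * cg I G z := by
  by_cases hz : z < nn I ∧ lo I z = true
  swap
  · exact ⟨fun _ _ => 0, fun _ _ => rfl, fun a _ _ _ _ _ b => absurd ⟨a, (sho_iff.1 b).1⟩ hz,
      by simp⟩
  obtain ⟨hz, l⟩ := hz
  obtain ⟨M, J, pk, n1, n2⟩ := h.pk2
  obtain ⟨ρ, hρ⟩ : ∃ ρ, ρ = 41 * (sg I * sg I * rr I z) := ⟨_, rfl⟩
  obtain ⟨T, hT⟩ : ∃ T, T = ((range (nn I)).filter fun v => entry G z v = true ∧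
    sho I z v = true).image (pi I) := ⟨_, rfl⟩
  have t1 : ∀ p ∈ T, p < nN I ∧ cv I p z ≤ ρ := fun p hp => by
    rw [hT] at hp
    obtain ⟨v, hv, rfl⟩ := mem_image.1 hp
    simp only [mem_filter, mem_range] at hv
    exact ⟨pi_lt h hv.1, hρ ▸ sho_near h hz hv.1 hv.2.2⟩
  obtain ⟨Y, y1, y2⟩ := exists_max_image (T.powerset.filter fun Y => ∀ p ∈ Y, ∀ q ∈ Y, p ≠ q →
    ρ ≤ M * cN I p q) card ⟨∅, by simp⟩
  simp only [mem_filter, mem_powerset] at y1 y2
  have y3 : Y.card ≤ J := by
    rw [← card_image_of_injOn (f := ctr I) fun p hp q hq =>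
      ctr_inj (t1 p (y1.1 hp)).1 (t1 q (y1.1 hq)).1]
    refine pk z ρ _ hz (fun x hx => ?_) (fun x hx => ?_) fun x hx y hy c => ?_
    · obtain ⟨p, hp, rfl⟩ := mem_image.1 hx
      exact mem_range.2 (ctr_lt (t1 p (y1.1 hp)).1)
    · obtain ⟨p, hp, rfl⟩ := mem_image.1 hx
      exact h.sy _ _ ▸ (t1 p (y1.1 hp)).2
    · obtain ⟨p, hp, rfl⟩ := mem_image.1 hx
      obtain ⟨q, hq, rfl⟩ := mem_image.1 hy
      exact y1.2 p hp q hq fun e => c (e ▸ rfl)
  have y4 : ∀ p, ∃ y, p ∈ T → y ∈ Y ∧ M * cN I p y ≤ ρ := fun p => by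
    by_contra c
    push Not at c
    have hp := (c 0).1
    have d : p ∉ Y := fun d => by
      have := (c p).2 d
      simp [cN, h.met.self _ (ctr_lt (t1 p hp).1)] at this
    have := y2 (insert p Y) ⟨insert_subset hp y1.1, fun x hx y hy e => by
      have := (c x).2
      have := (c y).2
      have := y1.2 x
      have := cN_sy h x y
      grind⟩
    rw [card_insert_of_notMem d] at this
    omega
  choose f hf using y4
  obtain ⟨a, ha⟩ : ∃ a : ℕ → ℕ → ℕ, ∀ p q, a p q = (if p = pi I z ∧ q ∈ Y then 1 else 0) +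
    if p ∈ T ∧ q = f p then 1 else 0 := ⟨_, fun _ _ => rfl⟩
  have pz := pi_lt h hz
  refine ⟨fun p q => a p q + a q p, fun p q => add_comm _ _, fun _ X v hX hv b c d => ?_, ?_⟩
  · have e : pi I v ∈ T := hT ▸ mem_image_of_mem _ (mem_filter.2 ⟨mem_range.2 hv, b, c⟩)
    have e1 := (hf _ e).1
    have e2 := (t1 _ (y1.1 e1)).1
    have e3 := pi_lt h hv
    have k := fun p q (hp : p ∈ X) (hq : q < nN I) (e : q ∉ X) =>
      le_dcut (fun p q => a p q + a q p) hp hq e
    have := k (pi I z) (f (pi I v))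
    have := k (f (pi I v)) (pi I z)
    have := k (pi I v) (f (pi I v))
    have := k (f (pi I v)) (pi I v)
    have a1 : 1 ≤ a (pi I z) (f (pi I v)) := by rw [ha, if_pos ⟨rfl, e1⟩]; omega
    have a2 : 1 ≤ a (pi I v) (f (pi I v)) := by
      rw [ha, if_pos (c := _ ∈ T ∧ _) ⟨e, rfl⟩]; omega
    by_cases c1 : pi I z ∈ X <;> by_cases c2 : pi I v ∈ X <;> by_cases c3 : f (pi I v) ∈ X <;>
      simp only [c1, c2, c3, pz, e2, e3, not_true_eq_false, not_false_eq_true, forall_const,
        iff_self] at * <;> omega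
  · have e1 : ∑ p ∈ range (nN I), ∑ q ∈ range (nN I), a p q * cN I p q =
        ∑ q ∈ Y, cN I (pi I z) q + ∑ p ∈ T, cN I p (f p) := by
      have s1 : Y ⊆ range (nN I) := fun p hp => mem_range.2 (t1 p (y1.1 hp)).1
      have s2 : T ⊆ range (nN I) := fun p hp => mem_range.2 (t1 p hp).1
      simp only [ha, add_mul, sum_add_distrib, ite_and, ite_mul, one_mul, zero_mul, sum_ite_irrel,
        sum_const_zero, sum_ite_eq', mem_range, pz, if_true, sum_ite_mem, inter_eq_right.2 s1,
        inter_eq_right.2 s2]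
      exact congrArg _ (sum_congr rfl fun p hp => if_pos (t1 _ (y1.1 (hf p hp).1)).1)
    have e2 : ∑ p ∈ range (nN I), ∑ q ∈ range (nN I), a q p * cN I p q =
        ∑ p ∈ range (nN I), ∑ q ∈ range (nN I), a p q * cN I p q := by
      rw [sum_comm]
      simp only [cN_sy h]
    simp only [add_mul, sum_add_distrib]
    rw [e2, e1]
    have b1 := bud_lo h hG hz l
    have b2 : ∑ q ∈ Y, cN I (pi I z) q ≤ J * (2 * ρ) :=
      (sum_le_card_nsmul _ _ (2 * ρ) fun q hq => by
        have := t1 q (y1.1 hq)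
        have := (triN h 1 pz this.1 hz).1
        have := (pi_lo h hz l).2.1
        have := h.ss (rr I z)
        omega).trans (Nat.mul_le_mul_right _ y3)
    have b3 : M * ∑ p ∈ T, cN I p (f p) ≤ deg (nn I) G z * ρ := by
      rw [mul_sum]
      refine (sum_le_card_nsmul _ _ ρ fun p hp => (hf p hp).2).trans (Nat.mul_le_mul_right _ ?_)
      rw [hT, deg_eq]
      exact card_image_le.trans (card_le_card (monotone_filter_right _ fun _ _ a => a.1))
    have b4 := far_cost (n := nn I) (s := 1) (ρ := rr I z) (u := z) (c := cc I) G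
      (ball I z (kt I)) fun v hv c => by
        rw [one_mul]; exact rr_le h hv (not_lt.1 fun d => c (mem_ball.2 ⟨hv, d⟩))
    have b5 := Nat.mul_le_mul_right (rr I z) ((card_filter_le _ fun v => entry G z v = true).trans
      (card_ball z h.lt.le).le)
    change _ ≤ 1 * cg I G z + _ at b4
    have n := h.num
    have s := h.ten
    have c1 : sg I * ∑ q ∈ Y, cN I (pi I z) q ≤ 82 * cg I G z := by
      refine Nat.le_of_mul_le_mul_left ?_ (show 0 < sg I * sg I by positivity)
      calc _ ≤ sg I * sg I * (sg I * (J * (2 * ρ))) := by gcongr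
        _ = 82 * (sg I ^ 5 * J * rr I z) := by rw [hρ]; ring
        _ ≤ 82 * (t0 I * rr I z) := by gcongr
        _ ≤ 82 * (sg I * sg I * cg I G z) := by gcongr
        _ = _ := by ring
    have c2 : sg I * ∑ p ∈ T, cN I p (f p) ≤ 41 * cg I G z := by
      refine Nat.le_of_mul_le_mul_left ?_ (show 0 < M * t0 I from
        lt_of_lt_of_le (Nat.mul_pos (by positivity) (by omega)) n2)
      calc _ = sg I * t0 I * (M * ∑ p ∈ T, cN I p (f p)) := by ring
        _ ≤ sg I * t0 I * (deg (nn I) G z * ρ) := by gcongr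
        _ = 41 * sg I ^ 3 * (t0 I * (deg (nn I) G z * rr I z)) := by rw [hρ]; ring
        _ ≤ 41 * sg I ^ 3 * (t0 I * (cg I G z + kt I * rr I z)) := by gcongr; omega
        _ = 41 * sg I ^ 3 * (t0 I * (1 * cg I G z) + kt I * (t0 I * rr I z)) := by ring
        _ ≤ 41 * sg I ^ 3 * (t0 I * (sg I * sg I * cg I G z) + kt I * (sg I * sg I * cg I G z)) := by
          gcongr; nlinarith
        _ = 41 * (sg I ^ 5 * (kt I + t0 I)) * cg I G z := by ring
        _ ≤ 41 * (M * t0 I) * cg I G z := by gcongr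
        _ = _ := by ring
    rw [mul_add, mul_add]
    omega

theorem exists_rep (h : Ok I) (hs : Sym (nn I) G) (hG : VC (nn I) (kk I) G) (z : ℕ) :
    ∃ R : Finset ℕ, (∀ v ∈ R, z < nn I ∧ v < nn I ∧ lo I z = true ∧ sht I z v = true) ∧
      (z < nn I → lo I z = true → kk I ≤ ((range (nn I)).filter fun v =>
        (entry G z v = true ∧ sht I z v = true) ∨ v ∈ R).card) ∧
      sg I * ∑ v ∈ R, cc I z v ≤ cg I G z := by
  by_cases hz : z < nn I ∧ lo I z = true
  swap
  · exact ⟨∅, by simp, fun a b => absurd ⟨a, b⟩ hz, by simp⟩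
  obtain ⟨hz, l⟩ := hz
  have n := h.num
  have lt := h.lt
  obtain ⟨S, hS⟩ : ∃ S, S = (range (nn I)).filter fun v => entry G z v = true ∧ sht I z v = true :=
    ⟨_, rfl⟩
  obtain ⟨R, r1, r2⟩ := exists_subset_card_eq (s := (ball I z (kk I + 1)).erase z \ S)
    (n := kk I - S.card) (by
      have := le_card_sdiff S ((ball I z (kk I + 1)).erase z)
      have := pred_card_le_card_erase (s := ball I z (kk I + 1)) (a := z)
      rw [card_ball _ (by omega)] at this
      omega)
  have r3 : ∀ v ∈ R, v ≠ z ∧ v < nn I ∧ cc I z v ≤ rr I z ∧ v ∉ S := fun v hv => by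
    have := r1 hv
    simp only [mem_sdiff, mem_erase, mem_ball] at this
    exact ⟨this.1.1, this.1.2.1, le_rr h (by omega), this.2⟩
  refine ⟨R, fun v hv => ?_, fun _ _ => ?_, ?_⟩
  · obtain ⟨a, b, c, _⟩ := r3 v hv
    refine ⟨hz, b, l, ?_⟩
    by_contra d
    have := (long h hz b a.symm (fun e => e.1 l) d).2 l
    have := h.s10 (rr I z)
    have := rr_pos h hz
    omega
  · rw [filter_or, ← hS, filter_mem_eq_inter, inter_eq_right.2 fun v hv =>
      mem_range.2 (r3 v hv).2.1, card_union_of_disjoint (Finset.disjoint_right.2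
        fun v hv => (r3 v hv).2.2.2)]
    omega
  · have a := far_cost (n := nn I) (s := 1) (ρ := sg I * rr I z) (u := z) (c := cc I) G
      ((range (nn I)).filter fun v => v = z ∨ sht I z v = true) fun v hv c => by
        simp only [mem_filter, mem_range, hv, true_and, not_or] at c
        rw [one_mul]
        exact (long h hz hv (Ne.symm c.1) (fun e => e.1 l) c.2).2 l
    have b : (((range (nn I)).filter fun v => v = z ∨ sht I z v = true).filter
        fun v => entry G z v = true) ⊆ S := fun v hv => by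
      simp only [hS, mem_filter] at hv ⊢
      exact ⟨hv.1.1, hv.2, hv.1.2.resolve_left fun e => by simp [e, hs.irr z hz] at hv⟩
    have c := Nat.mul_le_mul_right (sg I * rr I z) (card_le_card b)
    have d := Nat.mul_le_mul_right (sg I * rr I z) (h.deg hG hz)
    have e := Nat.mul_le_mul_left (sg I) (sum_le_card_nsmul R (fun v => cc I z v) _
      fun v hv => (r3 v hv).2.2.1)
    rw [r2, smul_eq_mul, mul_left_comm, Nat.sub_mul] at e
    unfold cg
    omega

/-- Twice the cost of the edges that do not lie in a group. -/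
def ex (I : In) (G : Mat) : ℕ := ∑ u ∈ range (nn I), ∑ v ∈ range (nn I),
  ind G u v * if intra I u v then 0 else cc I u v

/-- Cost of the first multigraph. -/
def x1 (I : In) : ℕ := ∑ p ∈ range (nN I), ∑ q ∈ range (nN I), m1 I p q * cN I p q

/-- Cost of the single edges. -/
def xo (I : In) : ℕ := ∑ u ∈ range (nn I), ∑ v ∈ range (nn I), if oo I u v = true then cc I u v else 0

/-- Properties of the first solution. -/
structure Fe1 (I : In) : Prop where
  sym : ∀ p q, p < nN I → q < nN I → m1 I p q = m1 I q p ∧ m1 I p q ≤ pp I * t0 I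
  zero : ∀ p, p < nN I → m1 I p p = 0
  cut : ∀ X, X ⊆ range (nN I) → X.Nonempty → X ≠ range (nN I) →
    kk I ≤ dcut (nN I) (m1 I) X + t0 I + 3
  osym : ∀ u v, u < nn I → v < nn I → oo I u v = oo I v u
  osht : ∀ u v, u < nn I → v < nn I → oo I u v = true → sht I u v = true
  deg : ∀ z, z < nn I → lo I z = true →
    kk I ≤ ((range (nn I)).filter fun v => oo I z v = true).card + 4
  dem : ∀ p, p < nN I → pp I * bb I p ≤ ∑ q ∈ range (nN I), m1 I p q + ∑ z ∈ range (nn I),
    ((range (nn I)).filter fun u => oo I z u = true ∧ blk I u = true ∧ pi I u = p).card + 4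

theorem kk_le_cg (h : Ok I) (hs : Sym (nn I) G) (hG : VC (nn I) (kk I) G) {u : ℕ}
    (hu : u < nn I) : kk I ≤ cg I G u := by
  have := far_cost (n := nn I) (s := 1) (ρ := 1) (u := u) (c := cc I) G {u} fun v hv c =>
    (one_mul (cc I u v)).symm ▸ h.met.pos u v hu hv fun e => c (by simp [e])
  rw [filter_singleton, if_neg (by simp [hs.irr u hu])] at this
  have := h.deg hG hu
  simp only [card_empty, cg] at *
  omega

theorem card_node (h : Ok I) {p j : ℕ} (hp : p < nN I) (hj : j ≤ qq I p) :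
    ((range (nn I)).filter fun v => pi I v = p ∧ rp I p v < j).card = j := by
  refine Eq.trans ?_ (card_ball (ctr I p) (hj.trans ((qq_bd h hp).2.trans h.lt.le)))
  congr 1
  ext v
  rw [mem_filter, mem_ball, mem_range]
  exact and_congr_right fun hv => and_iff_right_of_imp fun a =>
    (pi_mem h hp hv (lt_of_lt_of_le a hj)).1

theorem sht_lo {u v : ℕ} (a : sht I u v = true) : lo I u = true ∨ lo I v = true :=
  (sht_iff.1 a).2.imp (fun a => (sho_iff.1 a).1) fun a => (sho_iff.1 a).1

/-- Indicator of the long edges. -/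
def lng (I : In) (G : Mat) (u v : ℕ) : ℕ :=
  if entry G u v = true ∧ ¬ intra I u v ∧ ¬ sht I u v = true then 1 else 0

/-- The multigraph on the nodes obtained from a graph. -/
def yc (I : In) (G : Mat) (W : ℕ → ℕ → ℕ → ℕ) (p q : ℕ) : ℕ :=
  (∑ u ∈ range (nn I), ∑ v ∈ range (nn I), if pi I u = p ∧ pi I v = q then lng I G u v else 0) +
    ∑ z ∈ range (nn I), W z p q

/-- The single edges obtained from a graph. -/
def fs (I : In) (G : Mat) (R : ℕ → Finset ℕ) (u v : ℕ) : ℕ :=
  if (entry G u v = true ∧ sht I u v = true) ∨ v ∈ R u ∨ u ∈ R v then 1 else 0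

theorem ne_of_adj (hs : Sym (nn I) G) {u v : ℕ} (hu : u < nn I) (e : entry G u v = true) : u ≠ v :=
  fun c => by simp [← c, hs.irr u hu] at e

theorem yc_cut (h : Ok I) (hs : Sym (nn I) G) (hG : VC (nn I) (kk I) G) {W : ℕ → ℕ → ℕ → ℕ}
    (w2 : ∀ z, z < nn I → ∀ X v, X ⊆ range (nN I) → v < nn I → entry G z v = true →
      sho I z v = true → ¬ (pi I z ∈ X ↔ pi I v ∈ X) → 1 ≤ dcut (nN I) (W z) X) {X : Finset ℕ}
    (hX : X ⊆ range (nN I)) (b : X.Nonempty) (c : X ≠ range (nN I)) :
    kk I + 1 ≤ dcut (nN I) (yc I G W) X + t0 I := by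
  have n := h.num
  by_contra d
  obtain ⟨C, hC⟩ : ∃ C, C = ((range (nn I)).filter fun u => 1 ≤ ∑ v ∈ range (nn I),
    lng I G u v * if pi I u ∈ X ∧ pi I v ∉ X then 1 else 0) ∪
      (range (nn I)).filter fun z => 1 ≤ dcut (nN I) (W z) X := ⟨_, rfl⟩
  have e2 : C.card ≤ dcut (nN I) (yc I G W) X := by
    have k := sum_push (fun v hv => pi_lt h hv) (lng I G) fun p q => if p ∈ X ∧ q ∉ X then 1 else 0
    have k2 : ∀ f : ℕ → ℕ, ((range (nn I)).filter fun u => 1 ≤ f u).card ≤
        ∑ u ∈ range (nn I), f u := fun f => by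
      rw [card_filter]
      exact sum_le_sum fun u _ => by split_ifs <;> omega
    refine (hC ▸ card_union_le _ _).trans ((Nat.add_le_add (k2 _) (k2 _)).trans (le_of_eq ?_))
    rw [← k]
    simp only [dcut_eq _ hX, yc, mul_ite, mul_one, mul_zero]
    rw [sum_comm (s := range (nn I)), ← sum_add_distrib]
    refine sum_congr rfl fun p _ => ?_
    rw [sum_comm (s := range (nn I)), ← sum_add_distrib]
    exact sum_congr rfl fun q _ => by split_ifs <;> simp
  have e3 : ∀ p, p < nN I → ∃ v, v < nn I ∧ pi I v = p ∧ v ∉ C := fun p hp => by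
    obtain ⟨v, b, c⟩ := exists_mem_notMem_of_card_lt_card (s := C) (t := (range (nn I)).filter
      fun v => pi I v = p ∧ rp I p v < qq I p) (by
        have := qq_bd h hp
        rw [card_node h hp le_rfl]; omega)
    simp only [mem_filter, mem_range] at b
    exact ⟨v, b.1, b.2.1, c⟩
  obtain ⟨p, hp⟩ := b
  obtain ⟨q, hq⟩ := sdiff_nonempty.2 fun e => c (Subset.antisymm hX e)
  rw [mem_sdiff, mem_range] at hq
  obtain ⟨u, u1, u2, u3⟩ := e3 p (mem_range.1 (hX hp))
  obtain ⟨v, v1, v2, v3⟩ := e3 q hq.1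
  have e4 := hG ((range (nn I) \ C).filter fun u => pi I u ∈ X)
    ((range (nn I) \ C).filter fun u => ¬ pi I u ∈ X)
    ((filter_subset _ _).trans sdiff_subset) ((filter_subset _ _).trans sdiff_subset)
    ⟨u, by simp [u1, u2, u3, hp]⟩ ⟨v, by simp [v1, v2, v3, hq]⟩
    (disjoint_filter_filter_not _ _ _) fun x hx y hy e => by
      simp only [mem_filter, mem_sdiff, mem_range, hC, mem_union, not_or, not_and] at hx hy
      by_cases s : sht I x y = true
      · rcases (sht_iff.1 s).2 with s | s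
        · exact hx.1.2.2 hx.1.1 (w2 x hx.1.1 X y hX hy.1.1 e s (by simp [hx.2, hy.2]))
        · exact hy.1.2.2 hy.1.1 (w2 y hy.1.1 X x hX hx.1.1
            (hs.symm x y hx.1.1 hy.1.1 ▸ e) s (by simp [hx.2, hy.2]))
      · refine hx.1.2.1 hx.1.1 (le_trans ?_ (single_le_sum (fun _ _ => Nat.zero_le _)
          (mem_range.2 hy.1.1)))
        rw [lng, if_pos ⟨e, fun c => hy.2 (c.2.2 ▸ hx.2), s⟩, if_pos ⟨hx.2, hy.2⟩]
  have := le_card_sdiff C (range (nn I))
  rw [add_assoc, card_filter_add_card_filter_not] at e4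
  rw [card_range] at this
  omega

theorem yc_dem (h : Ok I) (hs : Sym (nn I) G) (hG : VC (nn I) (kk I) G) (W : ℕ → ℕ → ℕ → ℕ)
    (R : ℕ → Finset ℕ) {x : ℕ} (hp : x < nN I) : pp I * bb I x ≤
      ∑ q ∈ (range (nN I)).erase x, yc I G W x q + ∑ u ∈ range (nn I), ∑ v ∈ range (nn I),
        if blk I u = true ∧ pi I u = x then fs I G R u v else 0 := by
  have n := h.num
  by_cases g : gp I x = true
  swap
  · simp [bb, qq_core g, show kk I + 1 - kt I = 0 by omega]
  have q := qq_bd h hp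
  have e2 : ∑ u ∈ range (nn I), ∑ v ∈ range (nn I), lng I G u v * (if pi I u = x ∧ pi I v ≠ x
      then 1 else 0) ≤ ∑ q ∈ (range (nN I)).erase x, yc I G W x q := by
    rw [← sum_push (fun v hv => pi_lt h hv) (lng I G) fun p q => if p = x ∧ q ≠ x then 1 else 0,
      sum_eq_single_of_mem x (mem_range.2 hp) fun p _ c => by simp [c], ← filter_ne', sum_filter]
    exact sum_le_sum fun q _ => by by_cases c : q = x <;> simp [yc, c]
  refine le_trans ?_ (Nat.add_le_add_right e2 _)
  rw [← sum_add_distrib, ← card_node h hp (j := pp I) (by omega), ← smul_eq_mul]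
  refine (card_nsmul_le_sum _ _ _ fun u hu => ?_).trans (sum_le_sum_of_subset (filter_subset _ _))
  simp only [mem_filter, mem_range] at hu
  have l : ¬ lo I u = true := fun l => (pi_mem h hp hu.1 (by omega)).2.1 l g
  have b : blk I u = true := blk_iff.2 ⟨l, hu.2.1.symm ▸ hu.2.2⟩
  have d := h.deg hG hu.1
  have e := card_erase_add_one (s := (range (nn I)).filter
    fun v => pi I v = x ∧ rp I x v < qq I x) (a := u) (by simp [hu]; omega)
  rw [card_node h hp le_rfl, ← filter_ne', filter_filter, card_filter] at e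
  rw [bb, Nat.sub_le_iff_le_add, ← e, ← add_assoc]
  refine Nat.succ_le_succ (d.trans ?_)
  rw [deg_sum, ← sum_add_distrib, ← sum_add_distrib]
  refine sum_le_sum fun v hv => ?_
  rw [mem_range] at hv
  rw [ind_eq, lng, fs, if_pos (c := blk I u = true ∧ _) ⟨b, hu.2.1⟩]
  by_cases c : entry G u v = true
  · have a := ne_of_adj hs hu.1 c
    by_cases c1 : sht I u v = true
    · rw [if_pos c, if_pos (c := _ ∨ _) (Or.inl ⟨c, c1⟩)]; omega
    by_cases c2 : intra I u v
    · rw [if_pos c, if_pos (c := _ ∧ v ≠ u) ⟨⟨c2.2.2 ▸ hu.2.1, by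
        have := (pi_gp h hv c2.2.1).2.2
        rwa [← c2.2.2, hu.2.1] at this⟩, a.symm⟩]
      omega
    · rw [if_pos c, if_pos ⟨c, c2, c1⟩, if_pos ⟨hu.2.1, hu.2.1 ▸ (long2 h hu.1 hv a c2 c1).1.symm⟩]
      omega
  · simp [c]

theorem yc_cost (h : Ok I) (hs : Sym (nn I) G) {W : ℕ → ℕ → ℕ → ℕ} {R : ℕ → Finset ℕ}
    (w3 : ∀ z, sg I * ∑ p ∈ range (nN I), ∑ q ∈ range (nN I), W z p q * cN I p q ≤ 246 * cg I G z)
    (r1 : ∀ z, ∀ v ∈ R z, v < nn I) (r3 : ∀ z, sg I * ∑ v ∈ R z, cc I z v ≤ cg I G z) :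
    sg I * (∑ p ∈ range (nN I), ∑ q ∈ range (nN I), yc I G W p q * cN I p q +
      ∑ u ∈ range (nn I), ∑ v ∈ range (nn I), fs I G R u v * cc I u v) ≤
        sg I * ex I G + 256 * cst2 (nn I) (cc I) G := by
  have b1 : ∑ p ∈ range (nN I), ∑ q ∈ range (nN I), yc I G W p q * cN I p q =
      ∑ u ∈ range (nn I), ∑ v ∈ range (nn I), lng I G u v * cN I (pi I u) (pi I v) +
      ∑ z ∈ range (nn I), ∑ p ∈ range (nN I), ∑ q ∈ range (nN I), W z p q * cN I p q := by
    rw [← sum_push fun v hv => pi_lt h hv, sum_comm (s := range (nn I)) (t := range (nN I)),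
      ← sum_add_distrib]
    refine sum_congr rfl fun p hp => ?_
    rw [sum_comm (s := range (nn I)) (t := range (nN I)), ← sum_add_distrib]
    exact sum_congr rfl fun q hq => by rw [← sum_mul, ← add_mul, yc]
  have b2 : ∑ u ∈ range (nn I), ∑ v ∈ range (nn I), fs I G R u v * cc I u v ≤
      ∑ u ∈ range (nn I), ∑ v ∈ range (nn I), (if entry G u v = true ∧ sht I u v = true then
        cc I u v else 0) + 2 * ∑ u ∈ range (nn I), ∑ v ∈ R u, cc I u v := by
    have e : ∑ u ∈ range (nn I), ∑ v ∈ R u, cc I u v = ∑ u ∈ range (nn I), ∑ v ∈ range (nn I),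
        if v ∈ R u then cc I u v else 0 := sum_congr rfl fun u _ => by
      rw [sum_ite_mem, inter_eq_right.2 fun v hv => mem_range.2 (r1 u v hv)]
    rw [e, two_mul]
    nth_rewrite 4 [sum_comm]
    simp only [← sum_add_distrib]
    refine sum_le_sum fun u _ => sum_le_sum fun v _ => ?_
    rw [fs, h.sy v u]
    split_ifs <;> first | omega | tauto
  have b3 : sg I * (∑ u ∈ range (nn I), ∑ v ∈ range (nn I), lng I G u v * cN I (pi I u) (pi I v) +
      ∑ u ∈ range (nn I), ∑ v ∈ range (nn I), (if entry G u v = true ∧ sht I u v = true then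
        cc I u v else 0)) ≤ sg I * ex I G + 8 * cst2 (nn I) (cc I) G := by
    simp only [ex, cst2, cstAt, mul_sum, ← sum_add_distrib]
    refine sum_le_sum fun u hu => sum_le_sum fun v hv => ?_
    rw [lng, ind_eq]
    by_cases c : entry G u v = true
    · have a := long2 h (mem_range.1 hu) (mem_range.1 hv) (ne_of_adj hs (mem_range.1 hu) c)
      by_cases c2 : sht I u v = true
      · have : ¬ intra I u v := fun d => (sht_lo c2).elim d.1 d.2.1
        simp [c, c2, this]
      · by_cases c1 : intra I u v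
        · simp [c, c1, c2]
        · simpa [c, c1, c2] using (a c1 c2).2
    · simp [c]
  have b4 : sg I * ∑ z ∈ range (nn I), ∑ p ∈ range (nN I), ∑ q ∈ range (nN I),
      W z p q * cN I p q ≤ 246 * cst2 (nn I) (cc I) G := by
    rw [mul_sum, cst2, mul_sum]
    exact sum_le_sum fun z _ => w3 z
  have b5 : sg I * ∑ u ∈ range (nn I), ∑ v ∈ R u, cc I u v ≤ cst2 (nn I) (cc I) G := by
    rw [mul_sum]
    exact sum_le_sum fun z _ => r3 z
  have := Nat.mul_le_mul_left (sg I) b2
  simp only [b1, mul_add, mul_left_comm (sg I) 2] at *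
  omega

theorem end1_hi (u : ℕ) : end1 I (nN I + u) = if blk I u = true then pi I u else nN I + u := by
  simp [end1, Bool.cond_eq_ite]

theorem end1_lo {x : ℕ} (hx : x < nN I) : end1 I x = x := by simp [end1, Bool.cond_eq_ite, hx]

theorem l1_sums (h : Ok I) (Z : ℕ → ℕ → ℕ) (hZ : ∀ x v, x < nN I → v < nn I →
    Z x (nN I + v) = 0 ∧ Z (nN I + v) x = 0) :
    (∀ p, p < nN I → ∑ x ∈ range (nN I + nn I), ∑ y ∈ range (nN I + nn I),
      Z x y * (if end1 I x = p then 1 else 0) = ∑ q ∈ range (nN I), Z p q + ∑ u ∈ range (nn I),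
        ∑ v ∈ range (nn I), if blk I u = true ∧ pi I u = p then Z (nN I + u) (nN I + v) else 0) ∧
    (∀ z, z < nn I → lo I z = true → ∑ x ∈ range (nN I + nn I), ∑ y ∈ range (nN I + nn I),
      Z x y * (if end1 I x = nN I + z then 1 else 0) =
        ∑ v ∈ range (nn I), Z (nN I + z) (nN I + v)) ∧
    ∑ x ∈ range (nN I + nn I), ∑ y ∈ range (nN I + nn I), Z x y * cst1 I x y =
      ∑ p ∈ range (nN I), ∑ q ∈ range (nN I), Z p q * cN I p q +
        ∑ u ∈ range (nn I), ∑ v ∈ range (nn I), Z (nN I + u) (nN I + v) * cc I u v := by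
  refine ⟨fun p hp => ?_, fun z hz l => ?_, ?_⟩ <;>
    rw [sum_split _ fun x v hx hv => by simp [hZ x v hx hv]]
  · rw [sum_eq_single_of_mem p (mem_range.2 hp) fun x hx c => by
      simp [end1_lo (mem_range.1 hx), c]]
    simp only [end1_lo hp, if_true, mul_one, end1_hi]
    refine congrArg _ (sum_congr rfl fun u _ => sum_congr rfl fun v _ => ?_)
    by_cases c : blk I u = true
    · simp [c]
    · simp [c, show nN I + u ≠ p by omega]
  · rw [sum_eq_zero fun x hx => sum_eq_zero fun y _ => by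
      have := mem_range.1 hx
      rw [end1_lo this, if_neg (by omega), mul_zero], zero_add,
      sum_eq_single_of_mem z (mem_range.2 hz) fun u hu c => sum_eq_zero fun v _ => by
        have := pi_lt h (mem_range.1 hu)
        rw [end1_hi, if_neg (by split_ifs <;> omega), mul_zero]]
    simp [end1_hi, blk_iff, l]
  · exact congrArg₂ _ (sum_congr rfl fun p hp => sum_congr rfl fun q hq => by
      simp [cst1, Bool.cond_eq_ite, mem_range.1 hp, mem_range.1 hq])
      (sum_congr rfl fun u _ => sum_congr rfl fun v _ => by simp [cst1, Bool.cond_eq_ite])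

theorem lp1_of (h : Ok I) {Yc F : ℕ → ℕ → ℕ} (ys : ∀ p q, Yc p q = Yc q p)
    (f1 : ∀ u v, u < nn I → v < nn I → F u v = F v u ∧ F u v ≤ if sht I u v = true then 1 else 0)
    (yc : ∀ X, X ⊆ range (nN I) → X.Nonempty → X ≠ range (nN I) →
      kk I + 1 ≤ dcut (nN I) Yc X + t0 I)
    (yd : ∀ x, x < nN I → pp I * bb I x ≤ ∑ q ∈ (range (nN I)).erase x, Yc x q +
      ∑ u ∈ range (nn I), ∑ v ∈ range (nn I), if blk I u = true ∧ pi I u = x then F u v else 0)
    (fd : ∀ z, z < nn I → lo I z = true → kk I ≤ ∑ v ∈ range (nn I), F z v) : Fe1 I ∧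
    x1 I + xo I ≤ ∑ p ∈ range (nN I), ∑ q ∈ range (nN I), Yc p q * cN I p q +
      ∑ u ∈ range (nn I), ∑ v ∈ range (nn I), F u v * cc I u v + 4 := by
  have n := h.num
  obtain ⟨Y, hY⟩ : ∃ Y : ℕ → ℕ → ℕ, ∀ x y, Y x y = if x < nN I then (if y < nN I then
    (if x = y then 0 else min (pp I * t0 I) (Yc x y)) else 0) else if y < nN I then 0 else
      F (x - nN I) (y - nN I) := ⟨_, fun _ _ => rfl⟩
  have yN : ∀ u v, Y (nN I + u) (nN I + v) = F u v := fun u v => by simp [hY]
  have ym : ∀ x v, x < nN I → Y x (nN I + v) = 0 ∧ Y (nN I + v) x = 0 := fun x v hx => by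
    simp [hY, hx]
  have cm : ∀ x v, x < nN I → cap1 I x (nN I + v) = 0 ∧ cap1 I (nN I + v) x = 0 := fun x v hx => by
    simp [cap1, Bool.cond_eq_ite, hx]
  have ch : ∀ u v, cap1 I (nN I + u) (nN I + v) = if sht I u v = true then 1 else 0 :=
    fun u v => by simp [cap1, Bool.cond_eq_ite]
  have dl : ∀ x, x < nN I → dem1 I x = pp I * bb I x := fun x hx => by
    simp [dem1, Bool.cond_eq_ite, hx]
  have dh : ∀ z, dem1 I (nN I + z) = if lo I z = true then kk I else 0 := fun z => by
    simp [dem1, Bool.cond_eq_ite]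
  have cs : ∀ x, x < nN I + nn I → x < nN I ∨ ∃ u, u < nn I ∧ x = nN I + u := fun x hx =>
    (Nat.lt_or_ge x (nN I)).imp_right fun c => ⟨x - nN I, by omega, by omega⟩
  have cap : pp I * 2 ≤ pp I * t0 I := Nat.mul_le_mul_left _ (by omega)
  obtain ⟨g1, g2, g3⟩ := l1_sums h Y fun x v hx _ => ym x v hx
  obtain ⟨o1, o2, o3, o4, o5⟩ := ML.spec (I := l1 I) (μ := 1) (Y := Y) rfl (by omega) (by omega)
    (Nat.le_add_right _ _) one_pos (fun x hx => by
      rcases cs x hx with c | ⟨u, hu, rfl⟩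
      · rwa [end1_lo c]
      · have := pi_lt h hu
        rw [end1_hi]; split_ifs <;> omega) (fun _ => end1_lo) (fun x y hx hy c d => by
      rcases cs x hx with c1 | ⟨u, hu, rfl⟩ <;> rcases cs y hy with c2 | ⟨v, hv, rfl⟩
      · rwa [end1_lo c1, end1_lo c2]
      · simp [cm x v c1] at d
      · simp [cm y u c2] at d
      · have := pi_lt h hu
        have := pi_lt h hv
        rw [ch] at d
        rcases sht_lo (I := I) (u := u) (v := v) (by split_ifs at d <;> omega) with l | l <;>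
          simp only [end1_hi, blk_iff, l, not_true_eq_false, false_and, if_false] <;>
          split_ifs <;> omega) (fun x y hx hy => by
      rcases cs x hx with c1 | ⟨u, hu, rfl⟩ <;> rcases cs y hy with c2 | ⟨v, hv, rfl⟩
      · simp only [cap1, cst1, hY, Bool.cond_eq_ite, Nat.blt_eq, c1, c2, if_true, cN_sy h x y,
          ys x y, eq_comm (a := x), le_refl, true_and]
        split_ifs <;> omega
      · simp [cm x v c1, ym x v c1, cst1, Bool.cond_eq_ite, c1]
      · simp [cm y u c2, ym y u c2, cst1, Bool.cond_eq_ite, c2]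
      · have := f1 u v hu hv
        simp only [yN, ch, cst1, Bool.cond_eq_ite, Nat.blt_eq, add_lt_iff_neg_left, not_lt_zero,
          if_false, add_tsub_cancel_left, sht_comm v u, h.sy u v, true_and, mul_one]
        exact ⟨by split_ifs <;> omega, this⟩) (fun x hx => by
      rcases cs x hx with c1 | ⟨u, hu, rfl⟩
      · simp [hY, c1]
      · simpa [yN, sht] using (f1 u u hu hu).2) (fun X hX b c => by
      have e1 : min (pp I * t0 I) (dcut (nN I) Yc X) ≤ dcut (nN I) Y X :=
        (sum_min _ _ _).trans (sum_le_sum fun p hp => (sum_min _ _ _).trans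
          (sum_le_sum fun q hq => by
            rw [mem_sdiff, mem_range] at hq
            rw [hY, if_pos (mem_range.1 (hX hp)), if_pos hq.1,
              if_neg fun e : p = q => hq.2 (e ▸ hp)]))
      have := yc X hX b c
      omega) (fun x hx => by
      rcases cs x hx with hp | ⟨z, hz, rfl⟩
      · have e1 : min (pp I * t0 I) (∑ q ∈ (range (nN I)).erase x, Yc x q) ≤
            ∑ q ∈ range (nN I), Y x q := (sum_min _ _ _).trans ((sum_le_sum fun q hq => by
          rw [mem_erase, mem_range] at hq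
          rw [hY, if_pos hp, if_pos hq.2, if_neg hq.1.symm]).trans
            (sum_le_sum_of_subset (erase_subset _ _)))
        have e3 := Nat.mul_le_mul_left (pp I) (show bb I x ≤ t0 I by
          have := qq_bd h hp; rw [bb]; omega)
        have := yd x hp
        rw [g1 x hp, one_mul, dl x hp]
        simp only [yN]
        omega
      · rw [dh]
        split_ifs with l
        · simpa only [g2 z hz l, yN, one_mul] using fd z hz l
        · omega)
  have oN : ∀ u v, u < nn I → v < nn I → ML.out (l1 I) (nN I + u) (nN I + v) =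
      (if oo I u v = true then 1 else 0) ∧ (oo I u v = true → sht I u v = true) := fun u v hu hv => by
    have := (o1 (nN I + u) (nN I + v) (by omega) (by omega)).2
    simp only [ch, oo, beq_iff_eq] at this ⊢
    refine ⟨by split_ifs at this ⊢ <;> omega, fun c => ?_⟩
    by_contra d
    rw [if_neg d] at this
    omega
  obtain ⟨k1, k2, k3⟩ := l1_sums h (ML.out (l1 I)) fun x v hx hv => by
    have := (o1 x (nN I + v) (by omega) (by omega))
    have := cm x v hx
    omega
  refine ⟨⟨fun p q hp hq => ?_, fun p hp => o2 p (by omega), fun X a b c => ?_,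
    fun u v hu hv => ?_, fun u v hu hv => (oN u v hu hv).2, fun z hz l => ?_, fun p hp => ?_⟩, ?_⟩
  · simpa [cap1, Bool.cond_eq_ite, hp, hq, m1] using o1 p q (by omega) (by omega)
  · have := o3 X a b c
    change _ ≤ dcut (nN I) (m1 I) X + 2 at this
    omega
  · rw [oo, oo, (o1 (nN I + u) (nN I + v) (by omega) (by omega)).1]
  · have := o4 (nN I + z) (by omega)
    rwa [k2 z hz l, sum_congr rfl fun v hv => (oN z v hz (mem_range.1 hv)).1, ← card_filter, dh,
      if_pos l] at this
  · have := o4 p (by omega)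
    rw [k1 p hp, dl p hp, sum_comm (s := range (nn I))] at this
    refine this.trans (le_of_eq (congrArg (_ + · + 4) (sum_congr rfl fun z hz => ?_)))
    rw [card_filter]
    refine sum_congr rfl fun u hu => ?_
    rw [(o1 _ _ (by have := mem_range.1 hu; omega) (by have := mem_range.1 hz; omega)).1,
      (oN z u (mem_range.1 hz) (mem_range.1 hu)).1]
    by_cases c : oo I z u = true <;> simp [c]
  · rw [k3, g3, one_mul, sum_congr (s₁ := range (nn I)) rfl fun u hu => sum_congr rfl fun v hv => by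
      rw [(oN u v (mem_range.1 hu) (mem_range.1 hv)).1, ite_mul, one_mul, zero_mul]] at o5
    simp only [yN] at o5
    refine o5.trans (Nat.add_le_add_right (Nat.add_le_add_right
      (sum_le_sum fun p hp => sum_le_sum fun q hq => ?_) _) _)
    rw [hY, if_pos (mem_range.1 hp), if_pos (mem_range.1 hq)]
    exact Nat.mul_le_mul_right _ (by split_ifs <;> omega)

theorem kk_le_cst (h : Ok I) (hs : Sym (nn I) G) (hG : VC (nn I) (kk I) G) :
    kk I * kk I ≤ cst2 (nn I) (cc I) G := by
  have := card_nsmul_le_sum (range (nn I)) (cg I G) _ fun u hu => kk_le_cg h hs hG (mem_range.1 hu)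
  rw [card_range, smul_eq_mul] at this
  exact (Nat.mul_le_mul_right _ (by have := h.lt; have := h.num; omega)).trans this

theorem lp1 (h : Ok I) (hs : Sym (nn I) G) (hG : VC (nn I) (kk I) G) : Fe1 I ∧
    sg I * (x1 I + xo I) ≤ sg I * ex I G + 257 * cst2 (nn I) (cc I) G := by
  have n := h.num
  choose W w1 w2 w3 using exists_priv h hG
  choose R r1 r2 r3 using exists_rep h hs hG
  obtain ⟨a, b⟩ := lp1_of h (Yc := yc I G W) (F := fs I G R) (fun p q => by
    rw [yc, yc, sum_comm]
    refine congrArg₂ _ (sum_congr rfl fun u hu => sum_congr rfl fun v hv => ?_)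
      (sum_congr rfl fun z _ => w1 z p q)
    simp only [lng, and_comm (a := pi I v = p), hs.symm v u (mem_range.1 hv) (mem_range.1 hu),
      sht_comm v u, intra_comm (u := v)]) (fun u v hu hv => by
    have a := r1 u v
    have b := r1 v u
    simp only [fs, hs.symm v u hv hu, sht_comm v u, or_comm (a := u ∈ R v), true_and] at b ⊢
    split_ifs with c d
    · rfl
    · exact absurd (c.elim And.right fun c => c.elim (fun c => (a c).2.2.2) fun c => (b c).2.2.2) d
    all_goals omega) (fun X => yc_cut h hs hG w2) (fun x => yc_dem h hs hG W R) fun z hz l => by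
    refine (r2 z hz l).trans ?_
    rw [card_filter]
    exact sum_le_sum fun v _ => by rw [fs]; split_ifs <;> first | omega | tauto
  have c := yc_cost h hs w3 (fun z v hv => (r1 z v hv).2.1) r3
  have d := kk_le_cst h hs hG
  have b7 := h.n8
  have b8 := h.s10 (sg I)
  have := Nat.mul_le_mul_left (sg I) b
  have := Nat.le_mul_self (kk I)
  simp only [mul_add, sq] at *
  exact ⟨a, by omega⟩

/-- Properties of the second solution and of the tour. -/
structure Fe (I : In) : Prop extends Fe1 I where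
  bu : Bu.Ok (bu I) (nN I) (mm I) (c0 I) (t0 I) (lam I) (m2 I)
  d2 : ∀ p, p < nN I → ∑ q ∈ range (nN I), m1 I p q ≤ mu I * ∑ q ∈ range (nN I), m2 I p q + 5 * mu I
  c2 : mu I * ∑ p ∈ range (nN I), ∑ q ∈ range (nN I), m2 I p q * cN I p q ≤ x1 I + 4 * mu I
  cyc : Cyc (nN I) (nx I)
  c3 : (kk I - t0 I - 3) * ∑ p ∈ range (nN I), cN I p (nx I p) ≤ 2 * x1 I

theorem nN_pos (h : Ok I) : 0 < nN I :=
  Nat.zero_lt_of_lt (pi_lt h (v := 0) (by have := h.lt; omega))

theorem lp2 (h : Ok I) (f : Fe1 I) : Fe I := by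
  have n := h.num
  have n7 := h.n7
  obtain ⟨o1, o2, o3, o4, o5⟩ := ML.spec (I := l2 I) (μ := mu I) (Y := m1 I) rfl (by omega)
    (by have := h.even; omega) le_rfl n.2.2.2.2.2.1 (fun _ hx => hx) (fun _ _ => rfl)
    (fun _ _ _ _ c _ => c) (fun x y hx hy => ⟨rfl, le_rfl, cN_sy h x y, (f.sym x y hx hy).1,
      (f.sym x y hx hy).2.trans (le_of_eq (by rw [pp]; ring))⟩) f.zero (fun X a b c => by
        have := f.cut X a b c
        rw [mul_add, mul_comm (mu I), ← pp]
        omega) fun p hp => by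
      rw [sum_eq_single_of_mem p (mem_range.2 hp) fun x _ c => by simp [c], sumB_eq]
      simpa using Nat.mul_div_le _ _
  obtain ⟨t1, t2⟩ := Tour.spec (c := cN I) (nN_pos h) (h.met.self _ (ctr_lt (nN_pos h)))
    (fun p q _ _ => cN_sy h p q) fun p q r a b c => h.met.tri _ _ _ (ctr_lt a) (ctr_lt b) (ctr_lt c)
  refine ⟨f, ⟨rfl, rfl, fun p q a b => nat2_tab2 _ a b, rfl, h.pw, by omega, o1, o2,
    fun X a b c => ?_, h.pw2.trans (Nat.le_add_right _ _), Nat.le_add_left _ _⟩, fun p hp => ?_, o5,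
    t1, t2 _ (m1 I) fun X a b c => by have := f.cut X a b c; omega⟩
  · have := o3 X a b c
    change _ ≤ dcut (nN I) (m2 I) X + 2 at this
    omega
  · have := o4 p hp
    rw [sum_eq_single_of_mem p (mem_range.2 hp) fun x _ c => by simp [c], sumB_eq] at this
    simp only [if_true, mul_one] at this
    have a := Nat.mul_le_mul_left (mu I) this
    have b := Nat.div_add_mod (∑ q ∈ range (nN I), m1 I p q) (mu I)
    have c := Nat.mod_lt (∑ q ∈ range (nN I), m1 I p q) n.2.2.2.2.2.1
    rw [mul_add] at a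
    change _ ≤ mu I * ∑ q ∈ range (nN I), m2 I p q + _ at a
    omega

end Vx

end Pool.Agent.Lib.MP_959bb6_lc
end

-- part Pool.Agent.Lib.MP_959bb6_lc.VAdj
section

/-!
The edges of the output and first consequences for vertex cuts.
-/

set_option autoImplicit false

namespace Pool.Agent.Lib.MP_959bb6_lc

open Pool.Agent.Shared.PolyTime Enc Finset

theorem take_spec (m r : ℕ) (q : ℕ → Bool) : ∃ T : Finset ℕ,
    (∀ j, j ∈ T ↔ j ∈ ((List.range m).filter fun j => q j).take r) ∧
    (∀ j ∈ T, j < m ∧ q j = true) ∧ T.card = min r ((range m).filter fun j => q j = true).card := by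
  have a : ((List.range m).filter fun j => q j).Nodup := List.nodup_range.filter _
  refine ⟨(((List.range m).filter fun j => q j).take r).toFinset, fun j => List.mem_toFinset,
    fun j hj => by simpa using List.mem_of_mem_take (List.mem_toFinset.1 hj), ?_⟩
  rw [List.toFinset_card_of_nodup (a.sublist (List.take_sublist _ _)), List.length_take,
    ← List.toFinset_card_of_nodup a]
  congr 2
  ext j
  simp

theorem shift_inj {μ s i j : ℕ} (hi : i < μ) (hj : j < μ) (e : (i + s) % μ = (j + s) % μ) : i = j :=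
  Nat.ModEq.eq_of_lt_of_lt (Nat.ModEq.add_right_cancel' s e) hi hj

namespace Vx

open Co (nd op at1)

variable {I : In}

/-- Adjacency in the output. -/
def Adj (I : In) (u v : ℕ) : Prop := (u, v) ∈ el I ∨ (v, u) ∈ el I

theorem Adj.symm {u v : ℕ} (h : Adj I u v) : Adj I v u := Or.symm h

theorem adj_clq {u v : ℕ} (hu : u < nn I) (hv : v < nn I) (e : u ≠ v) (a : intra I u v) :
    Adj I u v := by
  have k : ∀ u v, u < v → v < nn I → intra I u v → (u, v) ∈ el I := fun u v a b c =>
    List.mem_append_left _ (mem_prs.2 ⟨u, v, a, b, mem_opt.2 ⟨by simpa [intra, and_assoc] using c,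
      rfl⟩⟩)
  rcases lt_or_gt_of_ne e with c | c
  · exact Or.inl (k u v c hv a)
  · exact Or.inr (k v u c hu (intra_comm.1 a))

theorem el_B {x : ℕ × ℕ} (a : ¬ poor I = true) (b : x ∈ eB I) : x ∈ el I := by simp [el, a, b]
theorem el_G {x : ℕ × ℕ} (a : poor I = true) (b : x ∈ eG I) : x ∈ el I := by simp [el, a, b]
theorem el_P {x : ℕ × ℕ} (a : poor I = true) (b : x ∈ eP I) : x ∈ el I := by simp [el, a, b]
theorem el_S {x : ℕ × ℕ} (b : x ∈ sng I) : x ∈ el I := by simp [el, b]
theorem el_L {x : ℕ × ℕ} (b : x ∈ eL I) : x ∈ el I := by simp [el, b]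
theorem el_R {x : ℕ × ℕ} (b : x ∈ eR I) : x ∈ el I := by simp [el, b]
theorem el_Z {x : ℕ × ℕ} (b : x ∈ eZ I) : x ∈ el I := by simp [el, b]

/-- The position reached along a bundle. -/
def mv (I : In) (x i : ℕ) : ℕ := (i + if x % 2 = 0 then Bu.sf (bu I) (x / 2) else
  mu I - Bu.sf (bu I) (x / 2) % mu I) % mu I

theorem mv_lt (h : Ok I) (x i : ℕ) : mv I x i < mu I := Nat.mod_lt _ h.num.2.2.2.2.2.1

theorem adj_bun (h : Ok I) (f : Fe I) (a : ¬ poor I = true) {x i : ℕ} (hx : x < 2 * (bl I).length)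
    (hi : i < mu I) : Adj I (ev I (nd (bl I) x) i) (ev I (nd (bl I) (op x)) (mv I x i)) := by
  have b := f.bu.half hx
  by_cases c : x % 2 = 0
  · refine Or.inl (el_B a (mem_cat.2 ⟨x / 2, by omega, mem_tab.2 ⟨i, hi, ?_⟩⟩))
    rw [mv, if_pos c, ← (b.2.2.1 c).2.2.2, ← (b.2.2.1 c).2.2.1]
  · refine Or.inr (el_B a (mem_cat.2 ⟨x / 2, by omega, mem_tab.2 ⟨_, mv_lt h x i, ?_⟩⟩))
    have := Nat.mod_lt (Bu.sf (bu I) (x / 2)) h.num.2.2.2.2.2.1
    rw [← (b.2.2.2 c).2.2.1, ← (b.2.2.2 c).2.2.2, show (mv I x i + Bu.sf (bu I) (x / 2)) % mu I = i by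
      rw [mv, if_neg c, Nat.mod_add_mod, ← Nat.add_mod_mod, add_assoc, Nat.sub_add_cancel this.le,
        Nat.add_mod_right, Nat.mod_eq_of_lt hi]]

theorem mv_int (f : Fe I) {x i : ℕ} (hx : x < 2 * (bl I).length)
    (hi : lam I + i + lam I < mu I) : mv I x (lam I + i) = i + Bu.sh (bu I) (lam I) x := by
  have := f.bu.sf_le (i := x / 2) (by change _ < (bl I).length; omega)
  rw [mv, Bu.sh]
  split_ifs
  · rw [Nat.mod_eq_of_lt (by omega)]; omega
  · rw [Nat.mod_eq_of_lt (a := Bu.sf _ _) (by omega), Nat.mod_eq_sub_mod (by omega),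
      Nat.mod_eq_of_lt (by omega)]
    omega

theorem blk_lt (h : Ok I) (e : ℕ) {r : ℕ} (hr : r < mu I) : e % mm I * mu I + r < pp I := by
  have := Nat.mul_le_mul_right (mu I) (Nat.mod_lt e (show 0 < mm I by have := h.num; omega))
  rw [Nat.succ_mul] at this
  rw [pp]
  omega

theorem bun_nd (f : Fe I) {x : ℕ} (hx : x < 2 * (bl I).length) : nd (bl I) x / mm I < nN I ∧
    nd (bl I) (op x) / mm I < nN I ∧ nd (bl I) (op x) / mm I ≠ nd (bl I) x / mm I := by
  have b := f.bu.half hx
  change _ ∧ _ ∧ (_ → nd (bl I) x / _ = _ ∧ nd (bl I) (op x) / _ = _ ∧ _) ∧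
    (_ → nd (bl I) x / _ = _ ∧ nd (bl I) (op x) / _ = _ ∧ _) at b
  omega

theorem vx_mem (h : Ok I) {p j : ℕ} (hp : p < nN I) (hj : j < qq I p) : vx I p j < nn I ∧
    rp I p (vx I p j) = j ∧ pi I (vx I p j) = p ∧ inn I (vx I p j) = true ∧
      (lo I (vx I p j) = true ↔ ¬ gp I p = true) := by
  have a : j < nn I := hj.trans_le ((qq_bd h hp).2.trans h.lt.le)
  have b := pi_mem h hp (vx_lt a) ((rp_vx a).symm ▸ hj)
  exact ⟨vx_lt a, rp_vx a, b.1, inn_iff.2 (by rwa [b.1, rp_vx a]), b.2⟩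

theorem ue_bd (h : Ok I) {p : ℕ} (hp : p < nN I) : qq I p ≤ ue I p ∧ ue I p ≤ kt I := by
  have := qq_bd h hp
  rw [ue, Bool.cond_eq_ite]
  split_ifs <;> omega

theorem pi_ue (h : Ok I) {p v : ℕ} (hp : p < nN I) (hv : v < nn I) (e : rp I p v < ue I p) :
    pi I v = p := by
  by_cases c : rp I p v < qq I p
  · exact (pi_mem h hp hv c).1
  · have a : ¬ ta I p = true := fun a => c (by simpa [ue, a] using e)
    have b := (ue_bd h hp).2
    exact (tb_near h hp hv (by by_contra g; rw [qq_core g] at c; omega) a (by omega)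
      (not_lt.1 c)).2.1

theorem vx_eq (h : Ok I) {p q i j : ℕ} (hp : p < nN I) (hq : q < nN I) (hi : i < ue I p)
    (hj : j < ue I q) (e : vx I p i = vx I q j) : p = q ∧ i = j := by
  have a : i < nn I := hi.trans_le ((ue_bd h hp).2.trans h.lt.le)
  have b : j < nn I := hj.trans_le ((ue_bd h hq).2.trans h.lt.le)
  obtain rfl : p = q := by
    rw [← pi_ue h hp (vx_lt a) ((rp_vx a).symm ▸ hi), e, pi_ue h hq (vx_lt b) ((rp_vx b).symm ▸ hj)]
  exact ⟨rfl, av_inj a b e⟩

theorem ev_eq (h : Ok I) {e e' r r' : ℕ} (a : e / mm I < nN I) (a' : e' / mm I < nN I)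
    (b : r < mu I) (b' : r' < mu I) (c : ev I e r = ev I e' r') : e = e' ∧ r = r' := by
  have n := h.num
  have q := qq_bd h a
  have q' := qq_bd h a'
  have := ue_bd h a
  have := ue_bd h a'
  have := blk_lt h e b
  have := blk_lt h e' b'
  obtain ⟨d, f⟩ := vx_eq h a a' (by omega) (by omega) c
  rw [blk_eq b b'] at f
  exact ⟨by rw [← Nat.div_add_mod e (mm I), d, f.1, Nat.div_add_mod], f.2⟩

theorem ms_iff {u v : ℕ} (hu : u < nn I) (hv : v < nn I) :
    ms I u v = true ↔ u ≠ v ∧ ((u, v) ∈ sng I ∨ (v, u) ∈ sng I) := entry_matOf _ hu hv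

theorem st_iff {p i z : ℕ} : st I p i z = true ↔
    ∃ j, j < sc I p z ∧ (so I p z + j) % pp I = i := by simp [st, anyB_iff]

theorem st_sng {p i z : ℕ} (hp : p < nN I) (hz : z < nn I) (a : st I p i z = true) :
    (z, vx I p i) ∈ sng I := by
  obtain ⟨j, b, rfl⟩ := st_iff.1 a
  exact List.mem_append_right _ (mem_cat.2 ⟨p, hp, mem_cat.2 ⟨z, hz, mem_tab.2 ⟨j, b, rfl⟩⟩⟩)

theorem sc_eq (I : In) (p z : ℕ) : sc I p z = if nr I p z = true then ((range (nn I)).filter
    fun u => oo I z u = true ∧ blk I u = true ∧ pi I u = p).card else 0 := by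
  simp [sc, Bool.cond_eq_ite, cntB_eq, and_assoc]

theorem sc_pos (h : Ok I) (f : Fe1 I) {p z : ℕ} (hz : z < nn I) (a : 0 < sc I p z) :
    nr I p z = true ∧ lo I z = true ∧ ¬ inn I z = true ∧ gp I p = true ∧
      sg I * rN I p ≤ 40 * (sg I ^ 4 * rr I z) := by
  rw [sc_eq] at a
  split_ifs at a with b
  swap
  · omega
  obtain ⟨u, hu⟩ := card_pos.1 a
  simp only [mem_filter, mem_range, blk_iff] at hu
  obtain ⟨c, d, ⟨e, g⟩, rfl⟩ := hu
  obtain ⟨i, j, k⟩ := sho_iff.1 ((sht_iff.1 (f.osht z u hz c d)).2.resolve_right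
    fun a => e (sho_iff.1 a).1)
  obtain ⟨l, m, _⟩ := pi_gp h c e
  have n := h.num
  have := gp_inner h l m (v := u) (by omega)
  have := lo_node.1 i _ l m
  have := (triV h (sg I) l c hz).2
  have := h.ss (cv I (pi I u) u)
  have := Nat.mul_le_mul_left (sg I) (show rN I (pi I u) ≤ 2 * (sg I * cc I u z) by omega)
  have := Nat.mul_le_mul_left (sg I * sg I) j
  rw [h.sy u z] at *
  exact ⟨b, i, by rwa [if_neg e] at k, m, by nlinarith⟩

theorem sc_le (h : Ok I) {p : ℕ} (hp : p < nN I) (z : ℕ) : sc I p z ≤ pp I := by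
  have n := h.num
  have q := qq_bd h hp
  rw [sc_eq]
  split_ifs
  · refine le_trans (card_le_card fun u hu => ?_) (card_node h hp (j := pp I) (by omega)).le
    simp only [mem_filter, blk_iff] at hu ⊢
    exact ⟨hu.1, hu.2.2.2, hu.2.2.2 ▸ hu.2.2.1.2⟩
  · omega

/-- Centres of the stars at a position. -/
def stars (I : In) (p i : ℕ) : Finset ℕ := (range (nn I)).filter fun z => st I p i z = true

theorem card_stars (h : Ok I) {p i : ℕ} (hp : p < nN I) (hi : i < pp I) :
    (stars I p i).card = (so I p (nn I) + (pp I - 1 - i)) / pp I := by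
  rw [stars, card_filter]
  generalize nn I = m
  induction m with
  | zero => simp [so, sumB_eq, Nat.div_eq_of_lt (show pp I - 1 - i < pp I by omega)]
  | succ m ih =>
    rw [sum_range_succ, ih, show so I p (m + 1) = so I p m + sc I p m by
      simp [so, sumB_eq, sum_range_succ], ← cnt_arc hi, add_comm]
    congr 1
    have a := cnt_arc_one hi (so I p m)
    have b := card_le_card (filter_subset_filter (fun j => (so I p m + j) % pp I = i)
      (range_mono (sc_le h hp m)))
    split_ifs with c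
    · obtain ⟨j, c, d⟩ := st_iff.1 c
      have := card_pos.2 (⟨j, mem_filter.2 ⟨mem_range.2 c, d⟩⟩ : ((range (sc I p m)).filter
        fun j => (so I p m + j) % pp I = i).Nonempty)
      omega
    · exact (card_eq_zero.2 (filter_eq_empty_iff.2 fun j hj d =>
        c (st_iff.2 ⟨j, mem_range.1 hj, d⟩))).symm

theorem mem_stars (h : Ok I) (f : Fe1 I) {p i z : ℕ} (hp : p < nN I) (a : z ∈ stars I p i) :
    z < nn I ∧ i < pp I ∧ Adj I (vx I p i) z ∧ nr I p z = true ∧ lo I z = true ∧
      ¬ inn I z = true ∧ sg I * rN I p ≤ 40 * (sg I ^ 4 * rr I z) := by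
  rw [stars, mem_filter, mem_range] at a
  obtain ⟨j, b, c⟩ := st_iff.1 a.2
  obtain ⟨d, e, g, _, k⟩ := sc_pos h f a.1 (Nat.zero_lt_of_lt b)
  exact ⟨a.1, c ▸ Nat.mod_lt _ (by have := h.num; omega), Or.inr (el_S (st_sng hp a.1 a.2)),
    d, e, g, k⟩

theorem eL_mem {z : ℕ} {x : ℕ × ℕ} (hz : z < nn I) (l : lo I z = true)
    (a : x ∈ eL1 I z ∨ x ∈ eL2 I z (pi I z) ∨ x ∈ eL2 I z (mt I (pi I z))) : x ∈ el I :=
  el_L (mem_cat.2 ⟨z, hz, by simpa [l] using a⟩)

theorem adj_rep (h : Ok I) {z : ℕ} (hz : z < nn I) (l : lo I z = true) : ∃ T : Finset ℕ,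
    kt I ≤ T.card ∧ ∀ v ∈ T, v < nn I ∧ Adj I z v ∧ cc I z v ≤ sg I * rr I z := by
  obtain ⟨T, t1, t2, t3⟩ := take_spec (kt I) (kt I - good I z) fun j => !(ms I z (av I z (j + 1)))
  have lt := h.lt
  have s := h.s10 (rr I z)
  have g : good I z = ((range (nn I)).filter fun v => ms I z v = true ∧
      cc I z v ≤ sg I * rr I z).card := by simp [good, cntB_eq]
  have inj : ∀ S : Finset ℕ, S ⊆ range (kt I) → (S.image fun j => av I z (j + 1)).card = S.card :=
    fun S hS => card_image_of_injOn fun i hi j hj e => by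
      have := mem_range.1 (hS hi)
      have := mem_range.1 (hS hj)
      exact Nat.succ_injective (av_inj (by omega) (by omega) e)
  have a := card_filter_add_card_filter_not (s := range (kt I))
    fun j => (!(ms I z (av I z (j + 1)))) = true
  have b : ((range (kt I)).filter fun j => ¬ (!(ms I z (av I z (j + 1)))) = true).card ≤
      good I z := by
    rw [g, ← inj _ (filter_subset _ _)]
    refine card_le_card fun v hv => ?_
    obtain ⟨j, hj, rfl⟩ := mem_image.1 hv
    simp only [mem_filter, mem_range, Bool.not_eq_true', Bool.not_eq_false] at hj ⊢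
    have := av_le h (x := z) (j := j + 1) (by omega)
    exact ⟨av_lt (by omega), hj.2, by omega⟩
  refine ⟨((range (nn I)).filter fun v => ms I z v = true ∧ cc I z v ≤ sg I * rr I z) ∪
    T.image fun j => av I z (j + 1), ?_, fun v hv => ?_⟩
  · rw [card_union_of_disjoint (Finset.disjoint_right.2 fun v hv c => by
      obtain ⟨j, hj, rfl⟩ := mem_image.1 hv
      simpa [(mem_filter.1 c).2.1] using (t2 j hj).2), ← g,
      inj T fun j hj => mem_range.2 (t2 j hj).1]
    rw [card_range] at a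
    omega
  · rcases mem_union.1 hv with hv | hv
    · simp only [mem_filter, mem_range] at hv
      exact ⟨hv.1, ((ms_iff hz hv.1).1 hv.2.1).2.imp el_S el_S, hv.2.2⟩
    · obtain ⟨j, hj, rfl⟩ := mem_image.1 hv
      have := (t2 j hj).1
      have := av_le h (x := z) (j := j + 1) (by omega)
      exact ⟨av_lt (by omega), Or.inl (eL_mem hz l (Or.inl
        (List.mem_map.2 ⟨j, (t1 j).1 hj, rfl⟩))), by omega⟩

theorem adj_dir {z p j : ℕ} (hz : z < nn I) (l : lo I z = true)
    (a : p = pi I z ∨ p = mt I (pi I z)) (hj : j < b1 I) : Adj I z (vx I p (pf I + j)) :=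
  Or.inl (eL_mem hz l (Or.inr (by
    rcases a with rfl | rfl
    · exact Or.inl (List.mem_append_right _ (mem_tab.2 ⟨j, hj, rfl⟩))
    · exact Or.inr (List.mem_append_right _ (mem_tab.2 ⟨j, hj, rfl⟩)))))

theorem breq_le (h : Ok I) {p : ℕ} (hp : p < nN I) : breq I p ≤ hh I p := by
  have n := h.num
  have q := qq_bd h hp
  simp only [breq, Bool.cond_eq_ite, Nat.blt_eq, rich, Bool.and_eq_true, Nat.ble_eq, bb, hh]
  split_ifs <;> omega

theorem hv_spec (h : Ok I) {p j : ℕ} (hp : p < nN I) (hj : j < hh I p) : ∃ r, hv I p j =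
    vx I (mt I p) r ∧ r < ue I (mt I p) ∧ (ta I p = true → r = pf I + j ∧ r < qq I (mt I p)) ∧
      (¬ ta I p = true → r = qq I p + j) := by
  have n := h.num
  have q := qq_bd h hp
  have m := mt_spec hp
  have q' := qq_bd h m.1
  have := ue_bd h m.1
  rw [hh] at hj
  refine ⟨_, rfl, ?_⟩
  by_cases c : ta I p = true
  · simp only [c, cond_true, not_true_eq_false, false_imp_iff, and_true, forall_const, true_and]
    omega
  · simp only [(m.2.2 c).1, ue, c, cond_false, Bool.false_eq_true, false_imp_iff,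
      not_false_eq_true, forall_const, and_true]
    omega

theorem hv_inj (h : Ok I) {p i j : ℕ} (hp : p < nN I) (hi : i < hh I p) (hj : j < hh I p)
    (e : hv I p i = hv I p j) : i = j := by
  obtain ⟨r, a, b, c, d⟩ := hv_spec h hp hi
  obtain ⟨s, a', b', c', d'⟩ := hv_spec h hp hj
  have := (vx_eq h (mt_spec hp).1 (mt_spec hp).1 b b' (a ▸ a' ▸ e)).2
  by_cases t : ta I p = true
  · have := c t; have := c' t; omega
  · have := d t; have := d' t; omega

theorem adj_grp (h : Ok I) {p i : ℕ} (hp : p < nN I) (hi : i < qq I p) : ∃ T : Finset ℕ,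
    breq I p ≤ db I p i + (stars I p i).card + T.card ∧ ∀ w ∈ T, w ∉ stars I p i ∧
      Adj I (vx I p i) w ∧ ∃ j, j < hh I p ∧ w = hv I p j := by
  obtain ⟨T, t1, t2, t3⟩ := take_spec (hh I p) (need I p i) fun j => !(st I p i (hv I p j))
  have inj : ∀ S : Finset ℕ, S ⊆ range (hh I p) → (S.image (hv I p)).card = S.card :=
    fun S hS => card_image_of_injOn fun i hi j hj =>
      hv_inj h hp (mem_range.1 (hS hi)) (mem_range.1 (hS hj))
  have a := card_filter_add_card_filter_not (s := range (hh I p))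
    fun j => (!(st I p i (hv I p j))) = true
  have b : ((range (hh I p)).filter fun j => ¬ (!(st I p i (hv I p j))) = true).card ≤
      (stars I p i).card := by
    rw [← inj _ (filter_subset _ _)]
    refine card_le_card fun v hv => ?_
    obtain ⟨j, hj, rfl⟩ := mem_image.1 hv
    simp only [stars, mem_filter, mem_range, Bool.not_eq_true', Bool.not_eq_false] at hj ⊢
    obtain ⟨r, a, b, _⟩ := hv_spec h hp hj.1
    exact ⟨a ▸ vx_lt (b.trans_le ((ue_bd h (mt_spec hp).1).2.trans h.lt.le)), hj.2⟩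
  refine ⟨T.image (hv I p), ?_, fun w hw => ?_⟩
  · have := breq_le h hp
    rw [inj T fun j hj => mem_range.2 (t2 j hj).1, t3, need, cntB_eq, ← stars]
    rw [card_range] at a
    omega
  · obtain ⟨j, hj, rfl⟩ := mem_image.1 hw
    exact ⟨fun c => by simpa [(mem_filter.1 c).2] using (t2 j hj).2, Or.inl (el_R (mem_cat.2
      ⟨p, hp, mem_cat.2 ⟨i, hi, List.mem_append_left _ (List.mem_map.2 ⟨j, (t1 j).1 hj, rfl⟩)⟩⟩)),
      j, (t2 j hj).1, rfl⟩

theorem eZ_mem {p : ℕ} {x : ℕ × ℕ} (hN : 2 ≤ nN I) (hp : p < nN I)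
    (a : (∃ j, j < 5 * t0 I ∧ (vx I p (pp I + j), vx I (nx I p) (pp I + j)) = x) ∨
      (∃ j, j < ue I p - pf I ∧ (vx I p (pf I + j), z2 I p (pf I + j)) = x) ∨
      ∃ j, j < ue I p - qq I p ∧ (vx I p (qq I p + j), vx I (nx I p) j) = x) : x ∈ el I :=
  el_Z (mem_cat.2 ⟨p, by simpa [show nN I ≠ 1 by omega, Bool.cond_eq_ite] using hp, by
    simpa only [List.mem_append, mem_tab] using a⟩)

/-- A separation with a small separator. -/
structure Sp (I : In) (A B : Finset ℕ) : Prop where
  a : ∀ v ∈ A, v < nn I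
  b : ∀ v ∈ B, v < nn I
  dis : ∀ v ∈ A, v ∉ B
  no : ∀ u ∈ A, ∀ v ∈ B, ¬ Adj I u v
  small : (range (nn I) \ (A ∪ B)).card < kk I

variable {A B : Finset ℕ}

theorem Sp.symm (s : Sp I A B) : Sp I B A :=
  ⟨s.b, s.a, fun v a b => s.dis v b a, fun u a v b c => s.no v b u a c.symm,
    union_comm A B ▸ s.small⟩

theorem Sp.lt (s : Sp I A B) {D : Finset ℕ} (h : ∀ v ∈ D, v < nn I ∧ v ∉ A ∧ v ∉ B) :
    D.card < kk I := (card_le_card fun v hv => by simpa using h v hv).trans_lt s.small

theorem Sp.par (s : Sp I A B) {D E : Finset ℕ} (par : ℕ → ℕ) (h0 : ∀ d ∈ D, d < nn I ∧ d ∉ B)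
    (inj : ∀ d ∈ D, ∀ e ∈ D, d ∈ A → e ∈ A → par d = par e → d = e)
    (h1 : ∀ d ∈ D, d ∈ A → par d ∉ D ∧ par d < nn I ∧ Adj I d (par d) ∧ (par d ∈ A → par d ∈ E)) :
    D.card < kk I + E.card :=
  (cnt_par (S := range (nn I) \ (A ∪ B)) par (fun d hd a => by simp [h0 d hd, a]) inj
    (fun d hd a => (h1 d hd a).1) fun d hd a => by
      obtain ⟨_, b, c, e⟩ := h1 d hd a
      have := s.no d a (par d)
      simp only [mem_sdiff, mem_range, mem_union]
      tauto).trans_lt (Nat.add_lt_add_right s.small _)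

/-- Few points of the ball of a node lie in `B`. -/
def Thin (I : In) (B : Finset ℕ) (p : ℕ) : Prop :=
  ((ball I (ctr I p) (kt I)).filter (· ∈ B)).card < et I

theorem Sp.ovl (h : Ok I) (s : Sp I A B) {X : Finset ℕ} {l : ℕ → ℕ} {p : ℕ} (hX : X ⊆ A)
    (c : et I ≤ X.card) (inj : Set.InjOn l X) (h1 : ∀ w ∈ X, l w < kt I ∧
      ∀ x ∈ ovl I w (l w) p, x ∈ el I) : Thin I B p := by
  obtain ⟨m, d, e⟩ := h.dense
  by_contra t
  obtain ⟨i, hi, j, hj, r, a, b⟩ := d.lift h.gpos (X := X.image l)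
    (Y := ((ball I (ctr I p) (kt I)).filter (· ∈ B)).image (rp I p)) (fun i hi => by
      obtain ⟨w, hw, rfl⟩ := mem_image.1 hi
      exact mem_range.2 ((h1 w hw).1.trans_le e)) (fun i hi => by
      obtain ⟨w, hw, rfl⟩ := mem_image.1 hi
      exact mem_range.2 ((mem_ball.1 (mem_filter.1 hw).1).2.trans_le e))
    (by rwa [card_image_of_injOn inj]) (by
      rw [card_image_of_injOn fun u hu v hv c => by
        rw [← vx_rp (p := p) (s.b u (mem_filter.1 hu).2), c, vx_rp (s.b v (mem_filter.1 hv).2)]]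
      exact not_lt.1 t)
  obtain ⟨w, hw, rfl⟩ := mem_image.1 hi
  obtain ⟨v, hv, rfl⟩ := mem_image.1 hj
  rw [mem_filter, mem_ball] at hv
  refine s.no w (hX hw) v hv.2 (Or.inl ((h1 w hw).2 _ (mem_cat.2 ⟨r, a, mem_cat.2
    ⟨rp I p v % gg I, Nat.mod_lt _ h.gpos, mem_opt.2 ?_⟩⟩)))
  rw [b, Nat.div_add_mod', vx_rp hv.1.1, Nat.blt_eq]
  exact ⟨hv.1.2, rfl⟩

theorem Ok.ej (h : Ok I) : et I ≤ je I := Nat.le_mul_of_pos_left _ (by
  have : 0 < nn I := Nat.zero_lt_of_lt h.lt
  exact h.pk1 0 (cc I 0 0) {0} this (by simpa using this) (by simp) (by simp))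

theorem Sp.heavy (h : Ok I) (s : Sp I A B) {x ρ : ℕ} {T : Finset ℕ} (hx : x < nn I)
    (r : rr I x ≤ ρ) (hT : ∀ w ∈ T, w ∈ A ∧ lo I w = true ∧ cc I x w ≤ ρ ∧
      ρ ≤ 40 * (sg I ^ 4 * rr I w)) (c : je I ≤ T.card) :
    ∃ w ∈ T, Thin I B (pi I w) ∧ Thin I B (mt I (pi I w)) := by
  obtain ⟨w, hw, a⟩ := pigeon h hx r (fun w hw => ⟨s.a w (hT w hw).1, (hT w hw).2⟩) c
    (card_pos.1 (by have := h.ej; have := h.epos; omega))
  have k : ∀ p, (p = pi I w ∨ p = mt I (pi I w)) → Thin I B p := fun p hp =>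
    s.ovl h (l := rk I (yy I w)) (fun v hv => (hT v (mem_filter.1 hv).1).1) a
      (fun u hu v hv e => rank_inj (s.a u (hT u (mem_filter.1 hu).1).1)
        (s.a v (hT v (mem_filter.1 hv).1).1) e) fun v hv => by
      obtain ⟨b, e⟩ := mem_filter.1 hv
      have d := s.a v (hT v b).1
      have := (yy_spec h d (hT v b).2.1).2.2.1
      rw [← pi_yy (hT v b).2.1 (hT w hw).2.1 e] at hp
      rw [← e]
      refine ⟨rk_lt_kt h d (by omega), fun y hy => eL_mem d (hT v b).2.1 (Or.inr ?_)⟩
      rcases hp with rfl | rfl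
      · exact Or.inl (List.mem_append_left _ hy)
      · exact Or.inr (List.mem_append_left _ hy)
  exact ⟨w, hw, k _ (Or.inl rfl), k _ (Or.inr rfl)⟩

theorem Sp.nbr (h : Ok I) (s : Sp I A B) {z : ℕ} (hz : z ∈ A) (l : lo I z = true) :
    ∃ T : Finset ℕ, je I ≤ T.card ∧ ∀ v ∈ T, v ∈ A ∧ cc I z v ≤ sg I * rr I z := by
  obtain ⟨T, a, b⟩ := adj_rep h (s.a z hz) l
  have := s.lt (D := T.filter (· ∉ A)) fun v hv => by
    obtain ⟨c, d⟩ := mem_filter.1 hv
    exact ⟨(b v c).1, d, fun e => s.no z hz v e (b v c).2.1⟩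
  have := card_filter_add_card_filter_not (s := T) (· ∈ A)
  have := h.num
  exact ⟨T.filter (· ∈ A), by omega, fun v hv =>
    ⟨(mem_filter.1 hv).2, (b v (mem_filter.1 hv).1).2.2⟩⟩

theorem Ok.p4 (h : Ok I) (x : ℕ) : 100 * (sg I * sg I * x) ≤ sg I ^ 4 * x ∧
    1000 * (sg I * x) ≤ sg I ^ 4 * x := by
  have a := h.s10 (sg I * x)
  have b := h.s10 (sg I * (sg I * x))
  have c := h.s10 (sg I * (sg I * (sg I * x)))
  rw [show sg I ^ 4 * x = sg I * (sg I * (sg I * (sg I * x))) by ring, mul_assoc]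
  omega

/-- The node has a point in `A`. -/
def Mt (I : In) (A : Finset ℕ) (p : ℕ) : Prop := ∃ v ∈ A, rp I p v < qq I p

theorem Sp.two (h : Ok I) (s : Sp I A B) {p : ℕ} (a : Thin I A p) (b : Thin I B p) : False := by
  have := s.lt (D := ((ball I (ctr I p) (kt I)).filter (· ∉ A)).filter (· ∉ B)) fun v hv => by
    simp only [mem_filter, mem_ball] at hv
    tauto
  have := card_filter_add_card_filter_not (s := ball I (ctr I p) (kt I)) (· ∈ A)
  have := card_filter_add_card_filter_not (s := (ball I (ctr I p) (kt I)).filter (· ∉ A)) (· ∈ B)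
  have := card_le_card (filter_subset_filter (· ∈ B)
    (filter_subset (· ∉ A) (ball I (ctr I p) (kt I))))
  have := card_ball (I := I) (ctr I p) h.lt.le
  have := h.num
  unfold Thin at a b
  omega

theorem Sp.core (h : Ok I) (s : Sp I A B) {p : ℕ} (hp : p < nN I) (g : ¬ gp I p = true)
    (a : Mt I A p) : Thin I B p := by
  obtain ⟨u, hu, a⟩ := a
  have b := s.a u hu
  obtain ⟨T, c, d⟩ := s.nbr h hu ((pi_mem h hp b a).2.2 g)
  have e := cv_le h (a.le.trans (qq_bd h hp).2)
  have r := h.s10 (rN I p)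
  have k : ∀ v ∈ T, cv I p v ≤ 3 * (sg I * rN I p) := fun v hv => by
    have := (triV h 1 hp b (s.a v (d v hv).1)).2
    have := (d v hv).2
    have := Nat.mul_le_mul_left (sg I) (show rr I u ≤ 2 * rN I p by have := rN_lip h hp b; omega)
    rw [mul_left_comm] at this
    omega
  obtain ⟨w, hw, t, _⟩ := s.heavy h (ρ := 3 * (sg I * rN I p)) (ctr_lt hp)
    (by change rN I p ≤ _; omega) (fun v hv => by
      obtain ⟨l, _, m⟩ := core_near h hp (s.a v (d v hv).1) g (k v hv)
      have := Nat.mul_le_mul_left (sg I) m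
      rw [mul_left_comm, ← mul_assoc (sg I)] at this
      have := (h.p4 (rr I v)).1
      exact ⟨(d v hv).1, l, k v hv, by omega⟩) c
  rwa [(core_near h hp (s.a w (d w hw).1) g (k w hw)).2.1] at t

theorem Sp.both (h : Ok I) (s : Sp I A B) {p : ℕ} (hp : p < nN I) (a : Mt I A p) (b : Mt I B p) :
    False := by
  by_cases g : gp I p = true
  · obtain ⟨u, hu, a⟩ := a
    obtain ⟨v, hv, b⟩ := b
    have c := pi_mem h hp (s.a u hu) a
    have d := pi_mem h hp (s.b v hv) b
    exact s.no u hu v hv (adj_clq (s.a u hu) (s.b v hv) (fun e => s.dis u hu (e ▸ hv))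
      ⟨fun l => c.2.1 l g, fun l => d.2.1 l g, c.1.trans d.1.symm⟩)
  · exact s.two h (s.symm.core h hp g b) (s.core h hp g a)

end Vx

end Pool.Agent.Lib.MP_959bb6_lc
end
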