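import Mathlib
import Pool.Agent.Lib.MP_959bb6_lc.VAdj

-- part Pool.Agent.Lib.MP_959bb6_lc.Mix
section

/-!
Mixed cuts, moving edges to hubs.
-/

set_option autoImplicit false

namespace Pool.Agent.Lib.MP_959bb6_lc

open Pool.Agent.Shared.PolyTime Enc Finset

/-- The value of a mixed cut described by labels. -/
def val (w : ℕ) (V : Finset ℕ) (M : Mat) (l : ℕ → Fin 3) : ℕ :=
  (∑ u ∈ V, if l u = 1 then w else 0) +
    ∑ u ∈ V, ∑ v ∈ V, ind M u v * if l u = 0 ∧ l v = 2 then 1 else 0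

/-- All mixed cuts have value at least `k`. -/
def MC (w n k : ℕ) (M : Mat) : Prop := ∀ l : ℕ → Fin 3, (∃ u, u < n ∧ l u = 0) →
  (∃ v, v < n ∧ l v = 2) → k ≤ val w (range n) M l

variable {w n k : ℕ} {M : Mat}

theorem val_eq (w n : ℕ) (M : Mat) (l : ℕ → Fin 3) : val w (range n) M l =
    ((range n).filter fun u => l u = 1).card * w + ∑ u ∈ (range n).filter fun u => l u = 0,
      ∑ v ∈ (range n).filter fun u => l u = 2, ind M u v := by
  rw [val, ← sum_filter, sum_const, smul_eq_mul]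
  simp only [sum_filter]
  exact congrArg _ (sum_congr rfl fun u _ => by split_ifs with c <;> simp [c])

theorem lab_sets {A B : Finset ℕ} (hA : A ⊆ range n) (hB : B ⊆ range n) (d : Disjoint A B) :
    ∃ l : ℕ → Fin 3, (range n).filter (fun u => l u = 0) = A ∧
      (range n).filter (fun u => l u = 2) = B ∧
      (range n).filter (fun u => l u = 1) = range n \ (A ∪ B) := by
  have d := Finset.disjoint_left.1 d
  refine ⟨fun u => if u ∈ A then 0 else if u ∈ B then 2 else 1, ?_, ?_, ?_⟩ <;> ext u <;>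
    have := @hA u <;> have := @hB u <;> have := @d u <;> by_cases a : u ∈ A <;>
    by_cases b : u ∈ B <;> simp_all

theorem card_lab (n : ℕ) (l : ℕ → Fin 3) : ((range n).filter fun u => l u = 0).card +
    ((range n).filter fun u => l u = 2).card + ((range n).filter fun u => l u = 1).card = n := by
  simp only [card_filter, ← sum_add_distrib]
  rw [sum_congr rfl (g := fun _ => 1) fun u _ => by generalize l u = x; revert x; decide]
  simp

theorem mc_edge : MC (k + 1) n k M ↔ Cuts n M k := by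
  constructor
  · intro h U hU ⟨u, a⟩ b
    obtain ⟨v, c⟩ := sdiff_nonempty.2 fun e => b (Subset.antisymm hU e)
    obtain ⟨l, l1, l2, l3⟩ := lab_sets hU (B := range n \ U) sdiff_subset disjoint_sdiff
    have := h l ⟨u, by simpa [← l1] using a⟩ ⟨v, by rw [← l2] at c; simpa using c⟩
    rwa [val_eq, l1, l2, l3, union_sdiff_of_subset hU, Finset.sdiff_self, card_empty, zero_mul,
      zero_add] at this
  · intro h l ⟨u, a⟩ ⟨v, b⟩
    rw [val_eq]
    rcases Nat.eq_zero_or_pos ((range n).filter fun u => l u = 1).card with c | c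
    · have := h _ (filter_subset (fun u => l u = 0) _) ⟨u, by simpa using a⟩ fun e => by
        have := (mem_filter.1 (e ▸ mem_range.2 b.1 : v ∈ _)).2
        simp [b.2] at this
      refine this.trans (le_add_left (sum_le_sum fun x _ => sum_le_sum_of_subset fun y hy => ?_))
      have := filter_eq_empty_iff.1 (card_eq_zero.1 c) (mem_sdiff.1 hy).1
      simp only [mem_sdiff, mem_filter, not_and] at hy ⊢
      have := hy.2 hy.1
      exact ⟨hy.1, by omega⟩
    · nlinarith [Nat.zero_le (∑ u ∈ (range n).filter fun u => l u = 0,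
        ∑ v ∈ (range n).filter fun u => l u = 2, ind M u v)]

theorem mc_vert (hk : k < n) : MC 1 n k M ↔ VC n k M := by
  constructor
  · intro h A B hA hB ⟨u, a⟩ ⟨v, b⟩ d e
    obtain ⟨l, l1, l2, l3⟩ := lab_sets hA hB d
    have := h l ⟨u, by simpa [← l1] using a⟩ ⟨v, by simpa [← l2] using b⟩
    have c := card_lab n l
    rw [val_eq, l1, l2, sum_eq_zero fun x hx => sum_eq_zero fun y hy => by
      simp [ind_eq, e x hx y hy]] at this
    rw [l1, l2] at c
    omega
  · intro h l ⟨u, a⟩ ⟨v, b⟩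
    have key : ∀ m, ∀ A B : Finset ℕ, A.card + B.card = m → A ⊆ range n → B ⊆ range n →
        A.Nonempty → B.Nonempty → Disjoint A B →
        k + A.card + B.card ≤ n + ∑ u ∈ A, ∑ v ∈ B, ind M u v := by
      intro m
      induction m using Nat.strong_induction_on with
      | _ m ih =>
        intro A B e hA hB a b d
        by_cases c : ∀ x ∈ A, ∀ y ∈ B, ¬ entry M x y = true
        · exact (h A B hA hB a b d c).trans (Nat.le_add_right _ _)
        push Not at c
        obtain ⟨x, hx, y, hy, c⟩ := c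
        have a1 := card_erase_add_one hx
        have b1 := card_erase_add_one hy
        have c1 : 1 ≤ ∑ v ∈ B, ind M x v :=
          (ind_true c).ge.trans (single_le_sum (f := ind M x) (fun _ _ => Nat.zero_le _) hy)
        have c2 : 1 ≤ ∑ u ∈ A, ind M u y := (ind_true c).ge.trans
          (single_le_sum (f := fun u => ind M u y) (fun _ _ => Nat.zero_le _) hx)
        have c3 := add_sum_erase A (fun u => ∑ v ∈ B, ind M u v) hx
        rcases (A.erase x).eq_empty_or_nonempty with f | f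
        · rcases (B.erase y).eq_empty_or_nonempty with g | g
          · rw [f, card_empty] at a1
            rw [g, card_empty] at b1
            omega
          · have := ih _ (by omega) A (B.erase y) rfl hA ((erase_subset _ _).trans hB) a g
              (d.mono_right (erase_subset _ _))
            rw [sum_comm] at this ⊢
            have := add_sum_erase B (fun v => ∑ u ∈ A, ind M u v) hy
            omega
        · have := ih _ (by omega) (A.erase x) B rfl ((erase_subset _ _).trans hA) hB f b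
            (d.mono_left (erase_subset _ _))
          omega
    have := key _ _ _ rfl (filter_subset (fun u => l u = 0) _) (filter_subset (fun u => l u = 2) _)
      ⟨u, by simpa using a⟩ ⟨v, by simpa using b⟩
      (disjoint_filter.2 fun x _ c d => by simp [c] at d)
    have := card_lab n l
    rw [val_eq]
    omega

theorem val_rev (hs : Sym n M) (l : ℕ → Fin 3) :
    val w (range n) M (fun u => (l u).rev) = val w (range n) M l := by
  have a : ∀ x : Fin 3, (x.rev = 1 ↔ x = 1) ∧ (x.rev = 0 ↔ x = 2) ∧ (x.rev = 2 ↔ x = 0) := by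
    decide
  simp only [val, a]
  rw [sum_comm]
  exact congrArg _ (sum_congr rfl fun u hu => sum_congr rfl fun v hv => by
    simp only [hs.ind (mem_range.1 hv) (mem_range.1 hu), and_comm])

theorem val_sub (V : Finset ℕ) (l l' : ℕ → Fin 3) : val w V M (fun u => max (l u) (l' u)) +
    val w V M (fun u => min (l u) (l' u)) ≤ val w V M l + val w V M l' := by
  have a : ∀ x y : Fin 3, ((if max x y = 1 then 1 else 0) + if min x y = 1 then 1 else 0) ≤
    (if x = 1 then 1 else 0) + if y = 1 then 1 else 0 := by decide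
  have b : ∀ x y x' y' : Fin 3, ((if max x x' = 0 ∧ max y y' = 2 then 1 else 0) +
    if min x x' = 0 ∧ min y y' = 2 then 1 else 0) ≤ (if x = 0 ∧ y = 2 then 1 else 0) +
      if x' = 0 ∧ y' = 2 then 1 else 0 := by decide
  simp only [val]
  rw [add_add_add_comm, add_add_add_comm (∑ u ∈ V, if l u = 1 then w else 0)]
  simp only [← sum_add_distrib, ← mul_add]
  refine sum_le_sum fun u _ => Nat.add_le_add ?_
    (sum_le_sum fun v _ => Nat.mul_le_mul_left _ (b _ _ _ _))
  simpa [mul_add] using Nat.mul_le_mul_left w (a (l u) (l' u))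

theorem MC.mono {M' : Mat} (h : MC w n k M) (e : ∀ u v, u < n → v < n → entry M u v = true →
    entry M' u v = true) : MC w n k M' := fun l a b => (h l a b).trans
  (Nat.add_le_add_left (sum_le_sum fun u hu => sum_le_sum fun v hv => Nat.mul_le_mul_right _ (by
    have := e u v (mem_range.1 hu) (mem_range.1 hv)
    simp only [ind_eq]
    split_ifs <;> first | omega | tauto)) _)

theorem move (hs : Sym n M) (h : MC w n k M) (hw : 0 < w) {u v : ℕ} (hu : u < n) (hv : v < n)
    (e : entry M u v = true) {H : Finset ℕ} (hk : k ≤ H.card)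
    (hH : ∀ x ∈ H, x < n ∧ x ≠ v ∧ entry M u x = true) : MC w n k (delE n M u v) ∨
      ∃ x ∈ H, entry (delE n M u v) x v = false ∧ MC w n k (addE n (delE n M u v) x v) := by
  refine or_iff_not_imp_left.2 fun c => ?_
  have s := hs.delE u v
  have d : ∀ l : ℕ → Fin 3, val w (range n) M l = val w (range n) (delE n M u v) l +
      (if l u = 0 ∧ l v = 2 then 1 else 0) + if l v = 0 ∧ l u = 2 then 1 else 0 := fun l => by
    rw [val, val, sum_delE hs hu hv e (Subset.refl _) (Subset.refl _)]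
    simp [hu, hv, add_assoc]
  have lo : ∀ l : ℕ → Fin 3, l u = 0 → l v = 2 → k ≤ val w (range n) (delE n M u v) l + 1 :=
    fun l a b => by simpa [d, a, b] using h l ⟨u, hu, a⟩ ⟨v, hv, b⟩
  have ori : ∀ l : ℕ → Fin 3, (∃ u, u < n ∧ l u = 0) → (∃ v, v < n ∧ l v = 2) →
      val w (range n) (delE n M u v) l < k → (l u = 0 ∧ l v = 2) ∨
        ((l u).rev = 0 ∧ (l v).rev = 2) := fun l a b c => by
    have := h l a b
    rw [d] at this
    by_cases f : l u = 0 ∧ l v = 2
    · exact Or.inl f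
    · have g : l v = 0 ∧ l u = 2 := by by_contra g; simp [f, g] at this; omega
      exact Or.inr (by rw [g.1, g.2]; decide)
  obtain ⟨l, ⟨l1, l2, l3⟩, l5⟩ := (measure fun l : ℕ → Fin 3 =>
    ((range n).filter fun x => l x = 0).card).wf.has_min
      {l | l u = 0 ∧ l v = 2 ∧ val w (range n) (delE n M u v) l < k} (by
        simp only [MC, not_forall, not_le] at c
        obtain ⟨l, a, b, c⟩ := c
        rcases ori l a b c with f | f
        · exact ⟨l, f.1, f.2, c⟩
        · exact ⟨fun x => (l x).rev, f.1, f.2, by rwa [val_rev s]⟩)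
  have sub : ∀ l' : ℕ → Fin 3, l' u = 0 → l' v = 2 → val w (range n) (delE n M u v) l' < k →
      ∀ x, x < n → l x = 0 → l' x = 0 := fun l' a b c x hx f => by
    have g := val_sub (w := w) (M := delE n M u v) (range n) l l'
    have := lo (fun u => min (l u) (l' u)) (by simp [a]) (by simp [b, l2])
    have := lo l l1 l2
    have := eq_of_subset_of_card_le (s := (range n).filter fun x => max (l x) (l' x) = 0)
      (t := (range n).filter fun x => l x = 0) (monotone_filter_right _ fun x _ a => by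
        simpa using (max_le_iff.1 a.le).1) (not_lt.1 (l5 (fun x => max (l x) (l' x))
          ⟨by simp [a, l1], by simp [b, l2], by omega⟩))
    have i : x ∈ (range n).filter fun x => l x = 0 := mem_filter.2 ⟨mem_range.2 hx, f⟩
    rw [← this] at i
    simpa using (max_le_iff.1 (mem_filter.1 i).2.le).2
  obtain ⟨x, hx, x1, x2⟩ : ∃ x ∈ H, l x = 0 ∧ entry (delE n M u v) x v = false := by
    by_contra f
    push Not at f
    refine absurd l3 (not_lt.2 (hk.trans ?_))
    have u1 : u ∉ H := fun a => by simpa [hs.irr u hu] using (hH u a).2.2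
    have a : H ⊆ range n := fun x hx => mem_range.2 (hH x hx).1
    refine le_trans ?_ (Nat.add_le_add (sum_le_sum_of_subset a) (sum_le_sum_of_subset
      (insert_subset (mem_range.2 hu) a)))
    rw [sum_insert u1]
    refine le_trans ?_ (Nat.add_le_add_left (Nat.add_le_add (sum_le_sum_of_subset a)
      (sum_le_sum fun x _ => single_le_sum (fun _ _ => Nat.zero_le _) (mem_range.2 hv))) _)
    rw [card_eq_sum_ones, ← sum_add_distrib, ← sum_add_distrib]
    refine sum_le_sum fun x hx => ?_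
    obtain ⟨b1, b2, b3⟩ := hH x hx
    rcases (by omega : l x = 0 ∨ l x = 1 ∨ l x = 2) with g | g | g
    · simp [ind_eq, Bool.of_not_eq_false (f x hx g), g, l2]
    · simp [g]; omega
    · have : entry (delE n M u v) u x = true := (entry_delE _ _ _ hu b1).2
        ⟨b3, fun a => b2 a.2, fun a => u1 (a.2 ▸ hx)⟩
      simp [ind_eq, this, g, l1]
  refine ⟨x, hx, x2, fun l' a b => ?_⟩
  obtain ⟨b1, b2, _⟩ := hH x hx
  rw [val, sum_addE s b1 hv b2 x2 (Subset.refl _) (Subset.refl _), ← add_assoc, ← add_assoc, ← val]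
  by_contra f
  rcases ori l' a b (by omega) with g | g
  · have := lo l' g.1 g.2
    simp [b1, hv, sub l' g.1 g.2 (by omega) x b1 x1, g.2] at f
    omega
  · have i := lo (fun x => (l' x).rev) g.1 g.2
    have j := sub (fun x => (l' x).rev) g.1 g.2 (by rw [val_rev s]; omega) x b1 x1
    rw [val_rev s] at i
    have a : ∀ x : Fin 3, (x.rev = 0 → x = 2) ∧ (x.rev = 2 → x = 0) := by decide
    simp [b1, hv, (a _).1 j, (a _).2 g.2] at f
    omega

/-- The new edges join points of `I`. -/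
def Ext (n : ℕ) (G : Mat) (I : Finset ℕ) (G' : Mat) : Prop :=
  ∀ u v, u < n → v < n → entry G' u v = true → entry G u v = true ∨ (u ∈ I ∧ v ∈ I)

/-- Sum of a weight over the edges. -/
def sw (n : ℕ) (G : Mat) (f : ℕ → ℕ → ℕ) : ℕ := ∑ u ∈ range n, ∑ v ∈ range n, ind G u v * f u v

theorem one_move {c : ℕ → ℕ → ℕ} (hm : IsMet n c) (hs : Sym n M) (h : MC w n k M) (hw : 0 < w)
    {u v ρ : ℕ} (hu : u < n) (hv : v < n) (e : entry M u v = true) {H : Finset ℕ} (hk : H.card = k)
    (hH : ∀ x ∈ H, x < n ∧ x ≠ v ∧ x ≠ u ∧ c u x ≤ ρ) : ∃ M', Sym n M' ∧ MC w n k M' ∧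
      Ext n M (insert u (insert v H)) M' ∧ cst2 n c M' ≤ cst2 n c M + 2 * (k + 1) * ρ ∧
      ∀ f : ℕ → ℕ → ℕ, (∀ x ∈ H, f u x = 0 ∧ f x u = 0) → ∀ y, (∀ x ∈ H, f x v + f v x + y ≤
        f u v + f v u) → y ≤ f u v + f v u → sw n M' f + y ≤ sw n M f := by
  obtain ⟨N, hN⟩ : ∃ N, N = tab2 n fun x y => entry M x y ||
    decide ((x = u ∧ y ∈ H) ∨ (y = u ∧ x ∈ H)) := ⟨_, rfl⟩
  have n1 : ∀ x y, x < n → y < n → (entry N x y = true ↔ entry M x y = true ∨
      (x = u ∧ y ∈ H) ∨ (y = u ∧ x ∈ H)) := fun x y hx hy => by simp [hN, entry_tab2 _ hx hy]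
  have n2 : Sym n N := ⟨fun x y hx hy => by
    rw [Bool.eq_iff_iff, n1 x y hx hy, n1 y x hy hx, hs.symm x y hx hy, or_comm (a := x = u ∧ _)],
    fun x hx => by
      rw [Bool.eq_false_iff, ne_eq, n1 x x hx hx, hs.irr x hx]
      simpa using fun a b => (hH x b).2.2.1 a⟩
  have n3 : ∀ f : ℕ → ℕ → ℕ, sw n N f ≤ sw n M f + ∑ x ∈ H, (f u x + f x u) := fun f => by
    have a : ∀ g : ℕ → ℕ → ℕ, ∑ x ∈ H, g u x = ∑ x ∈ range n, ∑ y ∈ range n,
        if x = u ∧ y ∈ H then g x y else 0 := fun g => by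
      simp [ite_and, hu, inter_eq_right.2 fun x hx => mem_range.2 (hH x hx).1]
    rw [sum_add_distrib, a f, a fun x y => f y x, sum_comm (f := fun x y => if x = u ∧ y ∈ H
      then f y x else 0), sw, sw]
    simp only [← sum_add_distrib]
    refine sum_le_sum fun x hx => sum_le_sum fun y hy => ?_
    simp only [ind_eq, n1 x y (mem_range.1 hx) (mem_range.1 hy)]
    split_ifs <;> first | omega | tauto
  have n4 := (n1 u v hu hv).2 (Or.inl e)
  have n5 : ∀ f : ℕ → ℕ → ℕ, sw n N f = sw n (delE n N u v) f + f u v + f v u := fun f => by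
    simpa [hu, hv, sw] using sum_delE n2 hu hv n4 (Subset.refl _) (Subset.refl _) f
  have n6 : Ext n M (insert u (insert v H)) (delE n N u v) := fun x y hx hy a =>
    ((n1 x y hx hy).1 ((entry_delE _ _ _ hx hy).1 a).1).imp_right fun b => by
      rcases b with ⟨rfl, b⟩ | ⟨rfl, b⟩ <;> simp [b]
  have n7 := (n3 c).trans (Nat.add_le_add_left (sum_le_card_nsmul _ _ (2 * ρ) fun x hx => by
    have := hH x hx
    rw [hm.symm x u this.1 hu]
    omega) _)
  rw [hk, n5, smul_eq_mul] at n7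
  rcases move n2 (h.mono fun x y hx hy a => (n1 x y hx hy).2 (Or.inl a)) hw hu hv n4 hk.ge
    (fun x hx => ⟨(hH x hx).1, (hH x hx).2.1, (n1 u x hu (hH x hx).1).2
      (Or.inr (Or.inl ⟨rfl, hx⟩))⟩) with a | ⟨x, hx, a, b⟩
  · refine ⟨_, n2.delE u v, a, n6, ?_, fun f f1 y _ f2 => ?_⟩
    · change sw n _ c ≤ sw n _ c + _
      nlinarith [Nat.zero_le (c u v), Nat.zero_le (c v u)]
    · have := n3 f
      rw [sum_eq_zero fun x hx => by simp [f1 x hx], n5] at this
      omega
  · obtain ⟨x1, x2, x3, x4⟩ := hH x hx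
    have n8 : ∀ f : ℕ → ℕ → ℕ, sw n (addE n (delE n N u v) x v) f =
        sw n (delE n N u v) f + f x v + f v x := fun f => by
      simpa [x1, hv, sw] using sum_addE (n2.delE u v) x1 hv x2 a (Subset.refl _) (Subset.refl _) f
    refine ⟨_, (n2.delE u v).addE x2, b, fun y z hy hz a => ?_, ?_, fun f f1 y f2 _ => ?_⟩
    · rcases (entry_addE _ _ _ hy hz).1 a with a | ⟨rfl, rfl⟩ | ⟨rfl, rfl⟩
      · exact n6 y z hy hz a
      all_goals simp [hx]
    · change sw n _ c ≤ sw n _ c + _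
      have := hm.tri x u v x1 hu hv
      rw [n8, hm.symm v x hv x1]
      rw [hm.symm v u hv hu] at n7
      rw [hm.symm x u x1 hu] at this
      nlinarith
    · have := n3 f
      have := f2 x hx
      rw [sum_eq_zero fun x hx => by simp [f1 x hx], n5] at *
      rw [n8]
      omega

theorem patch {c : ℕ → ℕ → ℕ} (hm : IsMet n c) (hw : 0 < w) {τ : ℕ → ℕ} {T : ℕ → ℕ → Prop}
    [∀ p q, Decidable (T p q)] (hT : ∀ p, ¬ T p p) {ρ : ℕ}
    (hρ : ∀ u v, u < n → v < n → τ u = τ v → c u v ≤ ρ) {I : Finset ℕ} (hI : I ⊆ range n) :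
    ∃ H : Finset ℕ, (∀ p, (H.filter fun u => τ u = p).card ≤ k) ∧ ∀ M, Sym n M → MC w n k M →
      (∀ u v, u < n → v < n → entry M u v = true → T (τ u) (τ v) → u ∈ I ∧ v ∈ I) →
      ∃ M', Sym n M' ∧ MC w n k M' ∧ Ext n M I M' ∧
        (∀ u v, u < n → v < n → entry M' u v = true → T (τ u) (τ v) → u ∈ H) ∧
        cst2 n c M' ≤ cst2 n c M + 2 * (k + 1) * ρ *
          sw n M (fun u v => if T (τ u) (τ v) then 1 else 0) ∧
        ∀ ψ : ℕ → ℕ → ℕ, (∀ p, ψ p p = 0) →
          sw n M' (fun u v => ψ (τ u) (τ v)) ≤ sw n M fun u v => ψ (τ u) (τ v) := by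
  choose g g1 g2 using fun p => exists_subset_card_eq (s := I.filter fun u => τ u = p)
    (min_le_right k _)
  obtain ⟨H, hH⟩ : ∃ H, H = I.filter fun u => u ∈ g (τ u) := ⟨_, rfl⟩
  have h1 : ∀ p, H.filter (fun u => τ u = p) = g p := fun p => by
    ext x
    simp only [hH, mem_filter]
    exact ⟨fun a => a.2 ▸ a.1.2, fun a => by
      have := mem_filter.1 (g1 p a)
      exact ⟨⟨this.1, this.2 ▸ a⟩, this.2⟩⟩
  refine ⟨H, fun p => by rw [h1, g2]; omega, ?_⟩
  suffices ∀ m M, Sym n M → MC w n k M → (∀ u v, u < n → v < n → entry M u v = true →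
      T (τ u) (τ v) → u ∈ I ∧ v ∈ I) →
      sw n M (fun u v => if T (τ u) (τ v) ∧ u ∉ H then 1 else 0) ≤ m →
      ∃ M', Sym n M' ∧ MC w n k M' ∧ Ext n M I M' ∧
        (∀ u v, u < n → v < n → entry M' u v = true → T (τ u) (τ v) → u ∈ H) ∧
        cst2 n c M' ≤ cst2 n c M + 2 * (k + 1) * ρ * m ∧
        ∀ ψ : ℕ → ℕ → ℕ, (∀ p, ψ p p = 0) →
          sw n M' (fun u v => ψ (τ u) (τ v)) ≤ sw n M fun u v => ψ (τ u) (τ v) from
    fun M a b d => this _ M a b d (sum_le_sum fun u _ => sum_le_sum fun v _ =>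
      Nat.mul_le_mul_left _ (by beta_reduce; split_ifs <;> first | omega | tauto))
  intro m
  induction m with
  | zero =>
    refine fun M a b _ e => ⟨M, a, b, fun _ _ _ _ => Or.inl, fun u v hu hv f g => ?_, le_rfl,
      fun _ _ => le_rfl⟩
    by_contra i
    have := sum_eq_zero_iff.1 (sum_eq_zero_iff.1 (Nat.le_zero.1 e) u (mem_range.2 hu)) v
      (mem_range.2 hv)
    simp [ind_true f, g, i] at this
  | succ m ih =>
    intro M a b d e
    by_cases f : ∀ u v, u < n → v < n → entry M u v = true → T (τ u) (τ v) → u ∈ H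
    · exact ⟨M, a, b, fun _ _ _ _ => Or.inl, f, Nat.le_add_right _ _, fun _ _ => le_rfl⟩
    push Not at f
    obtain ⟨u, v, hu, hv, f1, f2, f3⟩ := f
    obtain ⟨d1, d2⟩ := d u v hu hv f1 f2
    have h2 : ∀ x ∈ g (τ u), x ∈ I ∧ τ x = τ u ∧ x ∈ H := fun x hx =>
      ⟨(mem_filter.1 (g1 _ hx)).1, (mem_filter.1 (g1 _ hx)).2, (mem_filter.1 (h1 _ ▸ hx :
        x ∈ H.filter fun y => τ y = τ u)).1⟩
    obtain ⟨N, n1, n2, n3, n4, n5⟩ := one_move hm a b hw hu hv f1 (H := g (τ u)) (ρ := ρ) (by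
      have := card_lt_card (Finset.ssubset_iff_of_subset (g1 (τ u)) |>.2
        ⟨u, by simp [d1], fun c => f3 (h2 u c).2.2⟩)
      have := g2 (τ u)
      omega) fun x hx => by
        obtain ⟨a1, a2, a3⟩ := h2 x hx
        have := mem_range.1 (hI a1)
        exact ⟨this, fun c => hT _ (by rwa [← c, a2] at f2), fun c => f3 (c ▸ a3),
          hρ u x hu this a2.symm⟩
    have n6 : Ext n M I N := fun x y hx hy c => (n3 x y hx hy c).imp_right fun c => by
      have : insert u (insert v (g (τ u))) ⊆ I :=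
        insert_subset d1 (insert_subset d2 fun x hx => (h2 x hx).1)
      exact ⟨this c.1, this c.2⟩
    obtain ⟨M', m1, m2, m3, m4, m5, m6⟩ := ih N n1 n2 (fun x y hx hy c t =>
      (n6 x y hx hy c).elim (fun c => d x y hx hy c t) id) (by
        have := n5 (fun u v => if T (τ u) (τ v) ∧ u ∉ H then 1 else 0) (fun x hx => by
          simp [(h2 x hx).2.1, hT]) 1 (fun x hx => by
            simp [(h2 x hx).2.1, (h2 x hx).2.2, f2, f3, add_comm]) (by simp [f2, f3])
        omega)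
    refine ⟨M', m1, m2, fun x y hx hy c => (m3 x y hx hy c).elim (n6 x y hx hy) Or.inr, m4, ?_,
      fun ψ z => (m6 ψ z).trans (n5 (fun u v => ψ (τ u) (τ v))
        (fun x hx => by simp [(h2 x hx).2.1, z]) 0 (fun x hx => by simp [(h2 x hx).2.1])
        (Nat.zero_le _))⟩
    rw [mul_add]
    omega

end Pool.Agent.Lib.MP_959bb6_lc
end

-- part Pool.Agent.Lib.MP_959bb6_lc.Quad
section

/-!
A near-optimal graph with small boundaries along a shifted dissection.
-/

set_option autoImplicit false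

namespace Pool.Agent.Lib.MP_959bb6_lc

open Pool.Agent.Shared.PolyTime Enc Finset

/-- The metric is comparable with the maximum norm of integer coordinates. -/
structure Geo (D n : ℕ) (c x : ℕ → ℕ → ℕ) : Prop where
  lo : ∀ u v i, u < n → v < n → i < D → x u i ≤ x v i + c u v
  hi : ∀ u v ρ, u < n → v < n → (∀ i, i < D → x u i ≤ x v i + ρ ∧ x v i ≤ x u i + ρ) →
    c u v ≤ 2 * D * ρ

/-- The points of a set with a neighbour outside. -/
def bd (n : ℕ) (G : Mat) (V : Finset ℕ) : Finset ℕ :=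
  V.filter fun u => ∃ v ∈ range n \ V, entry G u v = true

/-- The set contains all points of its bounding box. -/
def Box (D n : ℕ) (x : ℕ → ℕ → ℕ) (V : Finset ℕ) : Prop := ∀ u, u < n →
  (∀ i, i < D → ∃ a ∈ V, ∃ b ∈ V, x a i ≤ x u i ∧ x u i ≤ x b i) → u ∈ V

/-- Recursive decomposition into singletons through sets with a property. -/
inductive Dec (P : Finset ℕ → Prop) : Finset ℕ → Prop
  | base (u : ℕ) : P {u} → Dec P {u}
  | split (V W : Finset ℕ) : Disjoint V W → V.Nonempty → W.Nonempty → Dec P V → Dec P W →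
      P (V ∪ W) → Dec P (V ∪ W)

/-- Boxes with a small boundary. -/
def Sm (D n R : ℕ) (x : ℕ → ℕ → ℕ) (G : Mat) (V : Finset ℕ) : Prop :=
  V ⊆ range n ∧ Box D n x V ∧ (bd n G V).card ≤ R

/-- The points with the same cell. -/
def cls (D n : ℕ) (Y : ℕ → ℕ → ℕ) (u : ℕ) : Finset ℕ :=
  (range n).filter fun v => ∀ i, i < D → Y v i = Y u i

/-- The points lie in different cells. -/
def Cr (D : ℕ) (Y : ℕ → ℕ → ℕ) (u v : ℕ) : Prop := ∃ i, i < D ∧ Y u i ≠ Y v i

instance (D : ℕ) (Y : ℕ → ℕ → ℕ) (u v : ℕ) : Decidable (Cr D Y u v) := by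
  unfold Cr; infer_instance

variable {D n R k w : ℕ} {c x Y : ℕ → ℕ → ℕ} {G : Mat}

theorem mem_cls {u v : ℕ} : v ∈ cls D n Y u ↔ v < n ∧ ∀ i, i < D → Y v i = Y u i := by simp [cls]

theorem dec_step {b : ℕ → ℕ} {I : Finset ℕ} (hY : ∀ u v i, x u i ≤ x v i → Y u i ≤ Y v i)
    (h1 : ∀ u v, u < n → v < n → entry G u v = true → Cr D Y u v → u ∈ I)
    (h2 : ∀ U : Finset ℕ, U ⊆ I → (∀ u ∈ U, ∀ v ∈ U, ∀ i, i < D → Y u i ≤ Y v i + 1) → U.card ≤ R)
    (h3 : ∀ u, u < n → Dec (Sm D n R x G) (cls D n Y u)) (u : ℕ) (hu : u < n) :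
    Dec (Sm D n R x G) (cls D n (fun u i => (Y u i + b i) / 2) u) := by
  have key : ∀ m u, u < n → Dec (Sm D n R x G)
      (cls D n (fun u i => if i < m then (Y u i + b i) / 2 else Y u i) u) := by
    intro m
    induction m with
    | zero => simpa using h3
    | succ m ih =>
      intro u hu
      obtain ⟨V, hV⟩ : ∃ V, V = cls D n
        (fun u i => if i < m + 1 then (Y u i + b i) / 2 else Y u i) u := ⟨_, rfl⟩
      obtain ⟨Z, hZ⟩ : ∃ Z : ℕ → ℕ → ℕ, Z = fun u i => if i < m then (Y u i + b i) / 2 else Y u i :=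
        ⟨_, rfl⟩
      rw [← hZ] at ih
      have a : cls D n Z u ⊆ V := fun v hv => by
        simp only [hV, hZ, mem_cls] at hv ⊢
        exact ⟨hv.1, fun i hi => by have := hv.2 i hi; split_ifs at this ⊢ <;> omega⟩
      rw [← hV, ← union_sdiff_of_subset a]
      rcases (V \ cls D n Z u).eq_empty_or_nonempty with e | ⟨v, hv⟩
      · rw [e, union_empty]; exact ih u hu
      have d : ∀ v ∈ V \ cls D n Z u, m < D ∧ Y v m ≠ Y u m := fun v hv => by
        simp only [hV, hZ, mem_cls, mem_sdiff, not_and, not_forall] at hv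
        obtain ⟨i, hi, e⟩ := hv.2 hv.1.1
        have := hv.1.2 i hi
        obtain rfl : i = m := by split_ifs at this e <;> omega
        exact ⟨hi, by simpa using e⟩
      have e : V \ cls D n Z u = cls D n Z v := by
        ext y
        have a := d v hv
        have b := d y
        simp only [hV, hZ, mem_cls, mem_sdiff] at hv b ⊢
        refine ⟨fun f => ⟨f.1.1, fun i hi => ?_⟩, fun f => ⟨⟨f.1, fun i hi => ?_⟩, fun g => ?_⟩⟩
        · have := f.1.2 i hi
          have := hv.1.2 i hi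
          have := (b f).2
          rcases eq_or_ne i m with rfl | g <;> split_ifs at * <;> omega
        · have := f.2 i hi
          have := hv.1.2 i hi
          split_ifs at * <;> omega
        · have := f.2 m a.1
          have := g.2 m a.1
          simp only [lt_self_iff_false, if_false] at *
          omega
      refine Dec.split _ _ disjoint_sdiff ⟨u, mem_cls.2 ⟨hu, fun _ _ => rfl⟩⟩ ⟨v, hv⟩ (ih u hu)
        (e ▸ ih v (mem_cls.1 (hV ▸ (mem_sdiff.1 hv).1)).1) ?_
      rw [union_sdiff_of_subset a, hV]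
      refine ⟨filter_subset _ _, fun y hy f => mem_cls.2 ⟨hy, fun i hi => ?_⟩,
        h2 _ (fun y hy => ?_) fun y hy z hz i hi => ?_⟩
      · obtain ⟨p, p1, q, q1, f1, f2⟩ := f i hi
        have := (mem_cls.1 p1).2 i hi
        have := (mem_cls.1 q1).2 i hi
        have := hY _ _ _ f1
        have := hY _ _ _ f2
        split_ifs at * <;> omega
      · obtain ⟨f, z, hz, g⟩ := mem_filter.1 hy
        simp only [mem_sdiff, mem_cls, mem_range, not_and, not_forall] at f hz
        obtain ⟨i, hi, l⟩ := hz.2 hz.1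
        have := f.2 i hi
        exact h1 y z f.1 hz.1 g ⟨i, hi, fun e => l (by rwa [← e])⟩
      · have := (mem_cls.1 (mem_filter.1 hy).1).2 i hi
        have := (mem_cls.1 (mem_filter.1 hz).1).2 i hi
        split_ifs at * <;> omega
  refine (congrArg _ (Finset.ext fun v => ?_)).mp (key D u hu)
  simp only [mem_cls]
  exact and_congr_right fun _ => forall₂_congr fun i hi => by simp [hi]

/-- The potential of a pair of points. -/
def ph (D : ℕ) (Y : ℕ → ℕ → ℕ) (u v : ℕ) : ℕ :=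
  ∑ i ∈ range D, (2 * (Y u i - Y v i + (Y v i - Y u i)) - 1)

/-- The potential after a discount for distant cells. -/
def ph' (D : ℕ) (Y : ℕ → ℕ → ℕ) (u v : ℕ) : ℕ := ∑ i ∈ range D,
  (2 * (Y u i - Y v i + (Y v i - Y u i)) - min (Y u i - Y v i + (Y v i - Y u i)) 2)

theorem exists_bits (D n : ℕ) (G : Mat) (Y : ℕ → ℕ → ℕ) : ∃ b : ℕ → ℕ, (∀ i, b i ≤ 1) ∧
    2 * sw n G (ph D fun u i => (Y u i + b i) / 2) ≤ sw n G (ph' D Y) := by
  have key : ∀ i, ∃ b, b ≤ 1 ∧ 2 * sw n G (fun u v => 2 * ((Y u i + b) / 2 - (Y v i + b) / 2 +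
      ((Y v i + b) / 2 - (Y u i + b) / 2)) - 1) ≤ sw n G fun u v => 2 * (Y u i - Y v i +
        (Y v i - Y u i)) - min (Y u i - Y v i + (Y v i - Y u i)) 2 := fun i => by
    by_contra a
    push Not at a
    have a0 := a 0 (by omega)
    have a1 := a 1 le_rfl
    refine absurd (Nat.add_lt_add a0 a1) (not_lt.2 ?_)
    rw [← two_mul, ← mul_add]
    simp only [sw, ← sum_add_distrib, ← mul_add]
    exact Nat.mul_le_mul_left _ (sum_le_sum fun u _ => sum_le_sum fun v _ =>
      Nat.mul_le_mul_left _ (by omega))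
  choose b b1 b2 using key
  have e : ∀ f : ℕ → ℕ → ℕ → ℕ, sw n G (fun u v => ∑ i ∈ range D, f i u v) =
      ∑ i ∈ range D, sw n G (f i) := fun f => by
    simp only [sw, mul_sum]
    rw [sum_congr rfl fun _ _ => sum_comm, sum_comm]
  refine ⟨b, b1, ?_⟩
  unfold ph ph'
  rw [e, e, mul_sum]
  exact sum_le_sum fun i _ => b2 i

theorem level (hm : IsMet n c) (hw : 0 < w) {t : ℕ → ℕ → ℕ} {e A ρ : ℕ} (he : 0 < e) (hA : e ≤ A)
    (hY : ∀ u i, Y u i = t u i / e)
    (hρ : ∀ u v, u < n → v < n → (∀ i, i < D → t u i = t v i) → c u v ≤ ρ) {I : Finset ℕ}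
    (hI : I ⊆ range n) (hs : Sym n G) (h : MC w n k G)
    (h1 : ∀ u v, u < n → v < n → entry G u v = true → Cr D Y u v → u ∈ I) :
    ∃ G' N, ∃ J : Finset ℕ, J ⊆ I ∧ Sym n G' ∧ MC w n k G' ∧ Ext n G I G' ∧
      (∀ u v, u < n → v < n → entry G' u v = true → Cr D Y u v → u ∈ J) ∧
      (∀ U : Finset ℕ, U ⊆ J → (∀ u ∈ U, ∀ v ∈ U, ∀ i, i < D → Y u i ≤ Y v i + 1) →
        U.card ≤ k * (4 * A) ^ D + (4 * A) ^ D * ((4 * A) ^ D * (2 * (k * k)))) ∧
      cst2 n c G' ≤ cst2 n c G + 2 * (k + 1) * ρ * N ∧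
      N + 2 * sw n G' (ph' D Y) ≤ 2 * sw n G (ph D Y) := by
  obtain ⟨τ, t1, t2, t3⟩ : ∃ τ : ℕ → ℕ, (∀ u, τ u ≤ u) ∧ (∀ u i, i < D → t (τ u) i = t u i) ∧
      ∀ u v, (∀ i, i < D → t u i = t v i) → τ u = τ v := by
    refine ⟨fun u => Nat.find (p := fun v => ∀ i, i < D → t v i = t u i) ⟨u, fun _ _ => rfl⟩,
      fun u => Nat.find_min' _ fun _ _ => rfl, fun u => Nat.find_spec
        (p := fun v => ∀ i, i < D → t v i = t u i) _, fun u v a => ?_⟩
    exact Nat.find_congr' (forall₂_congr fun i hi => by rw [a i hi])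
  have t4 : ∀ u i, i < D → Y (τ u) i = Y u i := fun u i hi => by rw [hY, hY, t2 u i hi]
  have t5 : ∀ u v, Cr D Y (τ u) (τ v) ↔ Cr D Y u v := fun u v =>
    exists_congr fun i => and_congr_right fun hi => by rw [t4 u i hi, t4 v i hi]
  have t6 : ∀ U : Finset ℕ, (∀ u ∈ U, ∀ v ∈ U, ∀ i, i < D → Y u i ≤ Y v i + 3) →
      (U.image τ).card ≤ (4 * A) ^ D := fun U hU => by
    refine (card_le_card_of_injOn (fun p (i : Fin D) => t p i % (4 * A))
      (t := Fintype.piFinset fun _ => range (4 * A)) (fun p _ => by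
        simp [Nat.mod_lt _ (show 0 < 4 * A by omega)]) fun p hp q hq f => ?_).trans (by simp)
    obtain ⟨u, hu, rfl⟩ := mem_image.1 hp
    obtain ⟨v, hv, rfl⟩ := mem_image.1 hq
    refine t3 u v fun i hi => ?_
    have g := congrFun f ⟨i, hi⟩
    simp only [t2 _ i hi] at g
    have k : ∀ u ∈ U, ∀ v ∈ U, t u i < t v i + 4 * A := fun u hu v hv => by
      have a := Nat.mul_le_mul_left e (hU u hu v hv i hi)
      have := Nat.lt_mul_div_succ (t u i) he
      have := Nat.mul_div_le (t v i) e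
      simp only [hY, mul_add] at *
      omega
    have := k u hu v hv
    have := k v hv u hu
    exact Nat.ModEq.eq_of_abs_lt g (abs_lt.2 (by push_cast; omega))
  obtain ⟨cnt, hc⟩ : ∃ cnt : Mat → ℕ → ℕ → ℕ, ∀ M p q, cnt M p q = ∑ u ∈ range n, ∑ v ∈ range n,
    if τ u = p ∧ τ v = q then ind M u v else 0 := ⟨_, fun _ _ _ => rfl⟩
  have c1 : ∀ M (ψ : ℕ → ℕ → ℕ), sw n M (fun u v => ψ (τ u) (τ v)) =
      ∑ p ∈ range n, ∑ q ∈ range n, cnt M p q * ψ p q := fun M ψ => by
    simp only [hc]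
    exact (sum_push (fun v hv => (t1 v).trans_lt hv) _ _).symm
  obtain ⟨T, hT⟩ : ∃ T : ℕ → ℕ → Prop, ∀ p q, T p q ↔ Cr D Y p q ∧
    ((∃ i, i < D ∧ (Y p i + 2 ≤ Y q i ∨ Y q i + 2 ≤ Y p i)) ∨ 2 * (k * k) ≤ cnt G p q) :=
    ⟨_, fun _ _ => Iff.rfl⟩
  have sy : ∀ u v, Cr D Y u v → Cr D Y v u := fun u v ⟨i, a, b⟩ => ⟨i, a, b.symm⟩
  have T1 : ∀ p q, T p q → T q p := fun p q a => by
    rw [hT] at a ⊢
    refine ⟨sy _ _ a.1, a.2.imp (fun ⟨i, a, b⟩ => ⟨i, a, b.symm⟩) fun a => a.trans_eq ?_⟩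
    rw [hc, hc, sum_comm]
    exact sum_congr rfl fun u hu => sum_congr rfl fun v hv => by
      simp only [and_comm, hs.ind (mem_range.1 hu) (mem_range.1 hv)]
  classical
  obtain ⟨H, H1, H2⟩ := patch (k := k) hm hw (τ := τ) (T := T)
    (fun p a => ((hT p p).1 a).1.elim fun i a => a.2 rfl) (fun u v hu hv a => hρ u v hu hv
      fun i hi => by rw [← t2 u i hi, a, t2 v i hi]) hI
  have h2 : ∀ u v, u < n → v < n → entry G u v = true → Cr D Y u v → u ∈ I ∧ v ∈ I :=
    fun u v hu hv a b => ⟨h1 u v hu hv a b, h1 v u hv hu (hs.symm u v hu hv ▸ a) (sy _ _ b)⟩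
  obtain ⟨G', g1, g2, g3, g4, g5, g6⟩ := H2 G hs h fun u v hu hv a b =>
    h2 u v hu hv a ((t5 u v).1 ((hT _ _).1 b).1)
  have c2 : ∀ p q, Cr D Y p q → cnt G' p q ≤ cnt G p q := fun p q a => by
    have := g6 (fun p' q' => if p' = p ∧ q' = q then 1 else 0) fun r => if_neg fun b =>
      a.elim fun i a => a.2 (by rw [← b.1, ← b.2])
    simpa [sw, ← hc] using this
  refine ⟨G', _, I.filter fun u => ∃ v ∈ range n, entry G' u v = true ∧ Cr D Y u v,
    filter_subset _ _, g1, g2, g3, fun u v hu hv a b => mem_filter.2 ⟨(g3 u v hu hv a).elim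
      (fun a => h1 u v hu hv a b) And.left, v, mem_range.2 hv, a, b⟩, fun U hU sp => ?_, g5, ?_⟩
  · obtain ⟨W, hW⟩ : ∃ W, W = (range n).filter fun v => ∃ u ∈ U, ∀ i, i < D →
      Y u i ≤ Y v i + 1 ∧ Y v i ≤ Y u i + 1 := ⟨_, rfl⟩
    have a1 := t6 U fun u hu v hv i hi => by have := sp u hu v hv i hi; omega
    have a2 := t6 W fun u hu v hv i hi => by
      rw [hW] at hu hv
      obtain ⟨y, y1, y2⟩ := (mem_filter.1 hu).2
      obtain ⟨z, z1, z2⟩ := (mem_filter.1 hv).2
      have := y2 i hi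
      have := z2 i hi
      have := sp y y1 z z1 i hi
      omega
    rw [← card_filter_add_card_filter_not (s := U) (· ∈ H)]
    refine Nat.add_le_add ((card_le_mul_card_image (f := τ) _ k fun p _ => (card_le_card
      fun u hu => ?_).trans (H1 p)).trans (Nat.mul_le_mul_left _ ((card_le_card
        (image_subset_image (filter_subset _ _))).trans a1))) ?_
    · simp only [mem_filter] at hu ⊢
      exact ⟨hu.1.2, hu.2⟩
    refine le_trans ?_ ((c1 G' fun p q => if p ∈ U.image τ ∧ q ∈ W.image τ ∧ Cr D Y p q ∧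
      ¬ T p q then 1 else 0).trans_le ?_)
    · rw [card_eq_sum_ones]
      refine (sum_le_sum fun u hu => ?_).trans (sum_le_sum_of_subset fun u hu =>
        hI (mem_filter.1 (hU (mem_filter.1 hu).1)).1)
      obtain ⟨b1, b2⟩ := mem_filter.1 hu
      obtain ⟨b3, v, hv, b4, b5⟩ := mem_filter.1 (hU b1)
      have b6 : ¬ T (τ u) (τ v) := fun c =>
        b2 (g4 u v (mem_range.1 (hI b3)) (mem_range.1 hv) b4 c)
      refine le_trans ?_ (single_le_sum (fun _ _ => Nat.zero_le _) hv)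
      beta_reduce
      rw [ind_true b4, if_pos ⟨mem_image_of_mem _ b1, mem_image_of_mem _ (hW ▸ mem_filter.2
        ⟨hv, u, b1, fun i hi => by
          have : ¬ _ := fun c => b6 ((hT _ _).2 ⟨(t5 u v).2 b5, Or.inl ⟨i, hi, c⟩⟩)
          rw [t4 u i hi, t4 v i hi] at this
          omega⟩), (t5 u v).2 b5, b6⟩]
    · refine (sum_le_sum (g := fun p => if p ∈ U.image τ then (4 * A) ^ D * (2 * (k * k)) else 0)
        fun p _ => ?_).trans ?_
      · split_ifs with b
        · refine (sum_le_sum (g := fun q => if q ∈ W.image τ then 2 * (k * k) else 0)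
            fun q _ => ?_).trans ?_
          · split_ifs with d f f
            any_goals first | omega | tauto
            have := c2 p q d.2.2.1
            have : ¬ _ := fun c => d.2.2.2 ((hT p q).2 ⟨d.2.2.1, Or.inr c⟩)
            omega
          · rw [sum_ite_mem, sum_const, smul_eq_mul]
            exact Nat.mul_le_mul_right _ ((card_le_card inter_subset_right).trans a2)
        · simp [b]
      · rw [sum_ite_mem, sum_const, smul_eq_mul]
        exact Nat.mul_le_mul_right _ ((card_le_card inter_subset_right).trans a1)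
  · have e1 : ∀ M, sw n M (ph D Y) = sw n M fun u v => ph D Y (τ u) (τ v) := fun M =>
      congrArg _ (funext₂ fun u v => sum_congr rfl fun i hi => by
        rw [t4 u i (mem_range.1 hi), t4 v i (mem_range.1 hi)])
    have e2 : ∀ M, sw n M (ph' D Y) = sw n M fun u v => ph' D Y (τ u) (τ v) := fun M =>
      congrArg _ (funext₂ fun u v => sum_congr rfl fun i hi => by
        rw [t4 u i (mem_range.1 hi), t4 v i (mem_range.1 hi)])
    rw [e1, e2, c1, c1, c1 G fun p q => if T p q then 1 else 0]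
    simp only [mul_sum, ← sum_add_distrib]
    refine sum_le_sum fun p _ => sum_le_sum fun q _ => ?_
    by_cases a : Cr D Y p q
    swap
    · rw [if_neg fun b => a ((hT p q).1 b).1, ph', sum_eq_zero fun i hi => by
        simp [not_not.1 fun b => a ⟨i, mem_range.1 hi, b⟩]]
      omega
    have b1 := c2 p q a
    have b2 : ph' D Y p q ≤ ph D Y p q := sum_le_sum fun i _ => by omega
    split_ifs with b
    swap
    · nlinarith [Nat.mul_le_mul b1 b2]
    rcases ((hT p q).1 b).2 with ⟨i, hi, d⟩ | d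
    · have : ph' D Y p q < ph D Y p q :=
        sum_lt_sum (fun i _ => by omega) ⟨i, mem_range.2 hi, by omega⟩
      nlinarith [Nat.mul_le_mul b1 this]
    · obtain ⟨i, hi, f⟩ := a
      have b3 : 1 ≤ ph D Y p q := le_trans (by omega) (single_le_sum
        (f := fun i => 2 * (Y p i - Y q i + (Y q i - Y p i)) - 1) (fun _ _ => Nat.zero_le _)
        (mem_range.2 hi))
      have b4 : cnt G' p q ≤ k * k := by
        refine le_trans ?_ (Nat.mul_le_mul (H1 p) (H1 q))
        rw [hc, ← sum_product', ← sum_filter, ← card_product]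
        simp only [ind_eq]
        rw [← card_filter]
        refine card_le_card fun y hy => ?_
        simp only [mem_filter, mem_product, mem_range] at hy ⊢
        obtain ⟨⟨⟨y1, y2⟩, rfl, rfl⟩, y3⟩ := hy
        exact ⟨⟨g4 _ _ y1 y2 y3 b, rfl⟩, g4 _ _ y2 y1 (g1.symm _ _ y1 y2 ▸ y3) (T1 _ _ b), rfl⟩
      nlinarith [Nat.mul_le_mul (show 2 * cnt G' p q ≤ cnt G p q by omega) b2,
        Nat.mul_le_mul_left (cnt G p q) b3]

theorem exists_dec (D k s : ℕ) : ∃ R, ∀ {w n : ℕ} {c x : ℕ → ℕ → ℕ} {G : Mat}, 0 < w → 0 < n →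
    IsMet n c → Geo D n c x → Sym n G → MC w n k G → ∃ G', Sym n G' ∧ MC w n k G' ∧
      Dec (Sm D n (R + 1) x G') (range n) ∧ s * cst2 n c G' ≤ (s + 2 * D) * cst2 n c G := by
  obtain ⟨α, hα⟩ : ∃ α, 8 * s * (k + 1) * D ≤ 2 ^ α := ⟨_, Nat.lt_two_pow_self.le⟩
  refine ⟨k * (4 * 2 ^ α) ^ D + (4 * 2 ^ α) ^ D * ((4 * 2 ^ α) ^ D * (2 * (k * k))),
    fun {w n c x G} hw hn hm hg hs h => ?_⟩
  generalize hR : k * (4 * 2 ^ α) ^ D + (4 * 2 ^ α) ^ D * ((4 * 2 ^ α) ^ D * (2 * (k * k))) = R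
  have step : ∀ (j : ℕ) (a : ℕ → ℕ) (M : Mat) (I : Finset ℕ), I ⊆ range n → Sym n M → MC w n k M →
      (∀ u v, u < n → v < n → entry M u v = true → Cr D (fun u i => (x u i + a i) / 2 ^ j) u v →
        u ∈ I) → (∀ M', Ext n M I M' → ∀ u, u < n →
          Dec (Sm D n (R + 1) x M') (cls D n (fun u i => (x u i + a i) / 2 ^ j) u)) →
      ∃ M', ∃ J : Finset ℕ, J ⊆ range n ∧ Sym n M' ∧ MC w n k M' ∧ (∀ u v, u < n → v < n →
        entry M' u v = true → Cr D (fun u i => (x u i + a i) / 2 ^ j) u v → u ∈ J) ∧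
        (∀ b : ℕ → ℕ, ∀ M'', Ext n M' J M'' → ∀ u, u < n → Dec (Sm D n (R + 1) x M'')
          (cls D n (fun u i => ((x u i + a i) / 2 ^ j + b i) / 2) u)) ∧
        s * cst2 n c M' + 2 ^ j * sw n M' (ph' D fun u i => (x u i + a i) / 2 ^ j) ≤
          s * cst2 n c M + 2 ^ j * sw n M (ph D fun u i => (x u i + a i) / 2 ^ j) := by
    intro j a M I hI s1 s2 s3 s4
    obtain ⟨M', N, J, m1, m2, m3, m4, m5, m6, m7, m8⟩ := level (ρ := 2 * D * (2 ^ (j - α) - 1))
      (t := fun u i => (x u i + a i) / 2 ^ (j - α)) (e := 2 ^ (j - (j - α))) (A := 2 ^ α) hm hw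
      (by positivity) (Nat.pow_le_pow_right two_pos (by omega)) (fun u i => by
        rw [Nat.div_div_eq_div_mul, ← pow_add, Nat.add_sub_cancel' (Nat.sub_le _ _)])
      (fun u v hu hv e => hg.hi u v _ hu hv fun i hi => by
        have e := e i hi
        have p : 0 < 2 ^ (j - α) := by positivity
        have := Nat.lt_mul_div_succ (x u i + a i) p
        have := Nat.lt_mul_div_succ (x v i + a i) p
        have := Nat.mul_div_le (x u i + a i) (2 ^ (j - α))
        have := Nat.mul_div_le (x v i + a i) (2 ^ (j - α))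
        simp only [e, mul_add] at *
        omega) hI s1 s2 s3
    refine ⟨M', J, m1.trans hI, m2, m3, m5, fun b M'' e => dec_step (I := J)
      (fun u v i a => Nat.div_le_div_right (by omega)) (fun u v hu hv a b =>
        (e u v hu hv a).elim (fun a => m5 u v hu hv a b) And.left)
      (fun U a b => (m6 U a b).trans (by omega)) (s4 M'' fun u v hu hv a => (e u v hu hv a).elim
        (m4 u v hu hv) fun a => Or.inr ⟨m1 a.1, m1 a.2⟩), ?_⟩
    have p : 2 ^ α * (2 ^ (j - α) - 1) ≤ 2 ^ j := by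
      rcases le_total α j with c | c
      · exact (Nat.mul_le_mul_left _ (Nat.sub_le _ _)).trans
          (by rw [← pow_add, Nat.add_sub_cancel' c])
      · simp [Nat.sub_eq_zero_of_le c]
    have q := Nat.mul_le_mul_right N ((Nat.mul_le_mul_right _ hα).trans p)
    nlinarith [Nat.mul_le_mul_left s m7, Nat.mul_le_mul_left (2 ^ j) m8]
  have key : ∀ j, ∃ (a : ℕ → ℕ) (M : Mat) (I : Finset ℕ), (∀ i, a i < 2 ^ j) ∧ I ⊆ range n ∧
      Sym n M ∧ MC w n k M ∧ (∀ u v, u < n → v < n → entry M u v = true →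
        Cr D (fun u i => (x u i + a i) / 2 ^ j) u v → u ∈ I) ∧ (∀ M', Ext n M I M' → ∀ u, u < n →
          Dec (Sm D n (R + 1) x M') (cls D n (fun u i => (x u i + a i) / 2 ^ j) u)) ∧
      s * cst2 n c M + 2 ^ j * sw n M (ph D fun u i => (x u i + a i) / 2 ^ j) ≤
        (s + 2 * D) * cst2 n c G := by
    intro j
    induction j with
    | zero =>
      have inj : ∀ u v, u < n → v < n → (∀ i, i < D → x v i = x u i) → v = u :=
        fun u v hu hv e => by
        by_contra d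
        have := hm.pos v u hv hu d
        have := hg.hi v u 0 hv hu fun i hi => by simp [e i hi]
        omega
      refine ⟨fun _ => 0, G, range n, by simp, Subset.refl _, hs, h, fun u _ hu _ _ _ =>
        mem_range.2 hu, fun M' _ u hu => ?_, ?_⟩
      · rw [show cls D n (fun u i => (x u i + 0) / 2 ^ 0) u = {u} by
          ext v
          simp only [mem_cls, mem_singleton, add_zero, pow_zero, Nat.div_one]
          exact ⟨fun a => inj u v hu a.1 a.2, fun a => by simp [a, hu]⟩]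
        refine Dec.base u ⟨by simpa using hu, fun v hv a => mem_singleton.2 (inj u v hu hv
          fun i hi => ?_), (card_filter_le _ _).trans (by simp)⟩
        obtain ⟨y, y1, z, z1, f⟩ := a i hi
        rw [mem_singleton.1 y1, mem_singleton.1 z1] at f
        omega
      · rw [add_mul]
        refine Nat.add_le_add_left ?_ _
        simp only [pow_zero, one_mul, add_zero, Nat.div_one, cst2, cstAt, mul_sum, sw]
        refine sum_le_sum fun u hu => sum_le_sum fun v hv => ?_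
        rw [mul_left_comm]
        refine Nat.mul_le_mul_left _ ((sum_le_card_nsmul _ _ (2 * c u v) fun i hi => ?_).trans
          (by rw [card_range, smul_eq_mul, mul_left_comm, mul_assoc]))
        have := hg.lo u v i (mem_range.1 hu) (mem_range.1 hv) (mem_range.1 hi)
        have := hg.lo v u i (mem_range.1 hv) (mem_range.1 hu) (mem_range.1 hi)
        have := hm.symm u v (mem_range.1 hu) (mem_range.1 hv)
        beta_reduce
        omega
    | succ j ih =>
      obtain ⟨a, M, I, a1, a2, a3, a4, a5, a6, a7⟩ := ih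
      obtain ⟨M', J, b1, b2, b3, b4, b5, b6⟩ := step j a M I a2 a3 a4 a5 a6
      obtain ⟨b, c1, c2⟩ := exists_bits D n M' fun u i => (x u i + a i) / 2 ^ j
      have e : (fun u i => (x u i + (a i + b i * 2 ^ j)) / 2 ^ (j + 1)) =
          fun u i => ((x u i + a i) / 2 ^ j + b i) / 2 := funext₂ fun u i => by
        rw [pow_succ, ← Nat.div_div_eq_div_mul, ← add_assoc, Nat.add_mul_div_right _ _
          (by positivity)]
      refine ⟨fun i => a i + b i * 2 ^ j, M', J, fun i => ?_, b1, b2, b3, ?_⟩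
      · have := a1 i
        have := Nat.mul_le_mul_right (2 ^ j) (c1 i)
        beta_reduce
        omega
      · rw [e]
        exact ⟨fun u v hu hv f ⟨i, hi, g⟩ => b4 u v hu hv f ⟨i, hi, fun l => g (by
          simp only at l ⊢; rw [l])⟩, b5 b, by
            rw [pow_succ]; nlinarith [Nat.mul_le_mul_left (2 ^ j) c2]⟩
  obtain ⟨j, hj⟩ : ∃ j, ∀ u i, u < n → i < D → x u i < 2 ^ j :=
    ⟨(range n ×ˢ range D).sup fun p => x p.1 p.2, fun u i hu hi => lt_of_le_of_lt
      (le_sup (f := fun p : ℕ × ℕ => x p.1 p.2) (b := (u, i)) (by simp [hu, hi]))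
      Nat.lt_two_pow_self⟩
  obtain ⟨a, M, I, a1, a2, a3, a4, a5, a6, a7⟩ := key j
  obtain ⟨M', J, _, b2, b3, _, b5, b6⟩ := step j a M I a2 a3 a4 a5 a6
  refine ⟨M', b2, b3, ?_, by omega⟩
  refine (congrArg _ ?_).mp (b5 (fun _ => 0) M' (fun _ _ _ _ => Or.inl) 0 hn)
  have z : ∀ u i, u < n → i < D → ((x u i + a i) / 2 ^ j + 0) / 2 = 0 := fun u i hu hi => by
    have := hj u i hu hi
    have := a1 i
    exact Nat.div_eq_of_lt (Nat.div_lt_of_lt_mul (by omega))
  exact filter_true_of_mem fun v hv i hi => (z v i (mem_range.1 hv) hi).trans (z 0 i hn hi).symm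

end Pool.Agent.Lib.MP_959bb6_lc
end

-- part Pool.Agent.Lib.MP_959bb6_lc.DP
section

/-!
Dynamic programming over boxes with a bounded number of portals.
-/

set_option autoImplicit false

namespace Pool.Agent.Lib.MP_959bb6_lc.Dp

open Pool.Agent.Shared.PolyTime Enc Finset

/-- Labels of the portals, presence of the two sides, value. -/
abbrev Ty : Type := List (Fin 3) × Prop × Prop × ℕ

/-- The type of a labelling. -/
def sg (w R : ℕ) (V : Finset ℕ) (ι : ℕ → ℕ) (H : Mat) (l : ℕ → Fin 3) : Ty :=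
  (tab R fun i => l (ι i), ∃ u ∈ V, l u = 0, ∃ u ∈ V, l u = 2, val w V H l)

/-- The types of the labellings of small value. -/
def Sig (w R k : ℕ) (V : Finset ℕ) (ι : ℕ → ℕ) (H : Mat) : Set Ty :=
  {t | t.2.2.2 < k ∧ ∃ l, sg w R V ι H l = t}

/-- Contribution of an edge. -/
def cu (a b : Fin 3) : ℕ := (if a = 0 ∧ b = 2 then 1 else 0) + if b = 0 ∧ a = 2 then 1 else 0

/-- The type of a union. -/
def cmb (R : ℕ) (f : ℕ → ℕ → ℕ) (σ : ℕ → ℕ) (s t : Ty) : Ty :=
  (tab R fun i => if σ i < R then s.1.getD (σ i) 0 else t.1.getD (σ i - R) 0, s.2.1 ∨ t.2.1,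
    s.2.2.1 ∨ t.2.2.1, s.2.2.2 + t.2.2.2 +
      ∑ i ∈ range R, ∑ j ∈ range R, f i j * cu (s.1.getD i 0) (t.1.getD j 0))

variable {w R k D n : ℕ} {V W : Finset ℕ} {a b ι σ : ℕ → ℕ} {f : ℕ → ℕ → ℕ} {H H' : Mat}

theorem sg_congr {l l' : ℕ → Fin 3} (h1 : ∀ i, i < R → a i ∈ V) (h2 : ∀ u ∈ V, l u = l' u)
    (h3 : ∀ u ∈ V, ∀ v ∈ V, entry H u v = entry H' u v) : sg w R V a H l = sg w R V a H' l' := by
  have e : ∀ x, (∃ u ∈ V, l u = x) = ∃ u ∈ V, l' u = x := fun x =>
    propext (exists_congr fun u => and_congr_right fun hu => by rw [h2 u hu])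
  rw [sg, sg, e, e, tab_congr fun i hi => h2 _ (h1 i hi), val, val,
    sum_congr rfl fun u hu => by rw [h2 u hu], sum_congr (s₁ := V) rfl fun u hu =>
      sum_congr rfl fun v hv => by rw [h2 u hu, h2 v hv, ind, h3 u hu v hv, ← ind]]

theorem sg_union (d : Disjoint V W) (h1 : ∀ i, i < R → a i ∈ V) (h2 : ∀ i, i < R → b i ∈ W)
    (h3 : ∀ i, i < R → σ i < 2 * R ∧ ι i = if σ i < R then a (σ i) else b (σ i - R))
    (h4 : ∀ u ∈ V, ∀ v ∈ W, ind H v u = ind H u v ∧ ind H u v =
      ∑ i ∈ range R, ∑ j ∈ range R, if a i = u ∧ b j = v then f i j else 0) (l : ℕ → Fin 3) :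
    sg w R (V ∪ W) ι H l = cmb R f σ (sg w R V a H l) (sg w R W b H l) := by
  simp only [sg, cmb, mem_union, or_and_right, exists_or, Prod.mk.injEq, true_and]
  refine ⟨tab_congr fun i hi => ?_, ?_⟩
  · obtain ⟨c, e⟩ := h3 i hi
    rw [e]
    split_ifs with g
    · rw [getD_tab _ _ g]
    · rw [getD_tab _ _ (by omega)]
  have e : ∑ u ∈ V, ∑ v ∈ W, ind H u v * cu (l u) (l v) = ∑ i ∈ range R, ∑ j ∈ range R,
      f i j * cu ((tab R fun i => l (a i)).getD i 0) ((tab R fun i => l (b i)).getD j 0) := by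
    rw [sum_congr rfl fun u hu => sum_congr rfl fun v hv => by rw [(h4 u hu v hv).2]]
    simp only [sum_mul]
    rw [sum_congr rfl fun _ _ => sum_comm, sum_comm]
    refine sum_congr rfl fun i hi => ?_
    rw [sum_congr rfl fun _ _ => sum_comm, sum_comm]
    refine sum_congr rfl fun j hj => ?_
    rw [getD_tab _ _ (mem_range.1 hi), getD_tab _ _ (mem_range.1 hj)]
    simp [ite_and, h1 i (mem_range.1 hi), h2 j (mem_range.1 hj)]
  have g : ∑ v ∈ W, ∑ u ∈ V, ind H v u * (if l v = 0 ∧ l u = 2 then 1 else 0) =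
      ∑ u ∈ V, ∑ v ∈ W, ind H u v * if l v = 0 ∧ l u = 2 then 1 else 0 :=
    sum_comm.trans (sum_congr rfl fun u hu => sum_congr rfl fun v hv => by rw [(h4 u hu v hv).1])
  rw [← e]
  simp only [val, sum_union d, sum_add_distrib, g, cu, mul_add]
  omega

theorem exists_code (R k : ℕ) : ∃ (N : ℕ) (dec : ℕ → Set Ty), ∀ w V ι H,
    ∃ s, s < N ∧ dec s = Sig w R k V ι H := by
  have := (((List.finite_length_eq (Fin 3) R).prod (Set.finite_univ.prod (Set.finite_univ.prod
    (Set.finite_lt_nat k)) : (Set.univ ×ˢ Set.univ ×ˢ _ : Set (Prop × Prop × ℕ)).Finite))).finite_subsets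
  refine ⟨this.toFinset.toList.length, fun s => this.toFinset.toList.getD s ∅, fun w V ι H => ?_⟩
  obtain ⟨s, hs, e⟩ := List.getElem_of_mem (a := Sig w R k V ι H) (l := this.toFinset.toList) (by
    simp only [mem_toList, Set.Finite.mem_toFinset, Set.mem_ofPred_eq]
    rintro t ⟨c, l, rfl⟩
    exact ⟨length_tab _ _, trivial, trivial, c⟩)
  exact ⟨s, hs, (List.getD_eq_getElem _ _ hs).trans e⟩

/-- All lists of a given length over a list. -/
def allG {β : Type} (L : List β) : ℕ → List (List β)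
  | 0 => [[]]
  | m + 1 => L.flatMap fun x => (allG L m).map fun l => x :: l

@[fun_prop] theorem pf_allG {α β : Type} [Enc α] [Enc β] (m : ℕ) {L : α → List β} (h : PF L) :
    PF fun a => allG (L a) m := by
  induction m with
  | zero => exact PF.const _
  | succ m ih => exact PF.flatMap h (PF.map (ih.comp (by fun_prop)) (by fun_prop))

theorem tab_mem {β : Type} {L : List β} {m : ℕ} {g : ℕ → β} (h : ∀ i, i < m → g i ∈ L) :
    tab m g ∈ allG L m := by
  induction m generalizing g with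
  | zero => simp [tab, allG]
  | succ m ih =>
    rw [tab, List.range_succ_eq_map, List.map_cons, List.map_map]
    exact List.mem_flatMap.2 ⟨_, h 0 (by omega), List.mem_map_of_mem
      (ih (g := fun i => g (i + 1)) fun i hi => h _ (by omega))⟩

/-- Lower and upper corners, portals, state. -/
abbrev Key : Type := List ℕ × List ℕ × List ℕ × ℕ

/-- Edges between portals, selection of portals, states. -/
abbrev Rule : Type := List (List ℕ) × List ℕ × ℕ × ℕ × ℕ

/-- Costs and ranks. -/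
abbrev In : Type := List (List ℕ) × List (List ℕ)

def mem (D : ℕ) (I : In) (κ : Key) (u : ℕ) : Bool := !(anyB D fun i =>
  Nat.blt (nat2 I.2 u i) (nat1 κ.1 i) || Nat.blt (nat1 κ.2.1 i) (nat2 I.2 u i))

def keys (D R N n : ℕ) : List Key := (allG (List.range (n + 1)) D).flatMap fun a =>
  (allG (List.range (n + 1)) D).flatMap fun b => (allG (List.range n) R).flatMap fun c =>
    (List.range N).map fun s => (a, b, c, s)

def cn (R : ℕ) (ρ : Rule) (κ η : Key) (u v : ℕ) : ℕ := sumB R fun i => sumB R fun j =>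
  bif nat1 κ.2.2.1 i == u && nat1 η.2.2.1 j == v then nat2 ρ.1 i j else 0

def mrg (D R : ℕ) (I : In) (e g : Key × Mat) (ρ : Rule) : Mat := tab2 I.1.length fun u v =>
  bif mem D I e.1 u && mem D I e.1 v then entry e.2 u v else
    bif mem D I g.1 u && mem D I g.1 v then entry g.2 u v else
      Nat.blt 0 (cn R ρ e.1 g.1 u v + cn R ρ e.1 g.1 v u)

def vld (D R : ℕ) (I : In) (κ η θ : Key) (ρ : Rule) : Bool :=
  η.2.2.2 == ρ.2.2.1 && θ.2.2.2 == ρ.2.2.2.1 && κ.2.2.2 == ρ.2.2.2.2 &&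
  !(anyB I.1.length fun u => !(mem D I κ u == (mem D I η u || mem D I θ u)) ||
    (mem D I η u && mem D I θ u) || anyB I.1.length fun v => Nat.blt 1 (cn R ρ η θ u v)) &&
  !(anyB R fun i => !(nat1 κ.2.2.1 i == bif Nat.blt (nat1 ρ.2.1 i) R then
    nat1 η.2.2.1 (nat1 ρ.2.1 i) else nat1 θ.2.2.1 (nat1 ρ.2.1 i - R)))

def bas (D R s : ℕ) (I : In) (κ : Key) : Bool :=
  κ.2.2.2 == s && Nat.blt (nat1 κ.2.2.1 0) I.1.length &&
  !(anyB I.1.length fun u => !(mem D I κ u == (u == nat1 κ.2.2.1 0))) &&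
  !(anyB R fun i => !(nat1 κ.2.2.1 i == nat1 κ.2.2.1 0))

def cand (D R s : ℕ) (L : List Rule) (I : In) (T : List (Key × Mat)) (κ : Key) : List Mat :=
  (bif bas D R s I κ then [[]] else []) ++ T.flatMap fun e => T.flatMap fun g =>
    (L.filter fun ρ => vld D R I κ e.1 g.1 ρ).map fun ρ => mrg D R I e g ρ

def step (D R N s : ℕ) (L : List Rule) (I : In) (T : List (Key × Mat)) : List (Key × Mat) :=
  ((keys D R N I.1.length).filter fun κ => !(cand D R s L I T κ).isEmpty).map fun κ =>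
    (κ, nrm I.1.length (Rd.best I.1 (cand D R s L I T κ)))

def out (D R N s : ℕ) (L : List Rule) (A : List Bool) (I : In) : Mat :=
  Rd.best I.1 ((((step D R N s L I)^[I.1.length] []).filter fun e => bit1 A e.1.2.2.2 &&
    !(anyB I.1.length fun u => !(mem D I e.1 u))).map fun e => e.2)

section
variable {α : Type} [Enc α] {I : α → In} {κ η θ : α → Key} {ρ : α → Rule} {u v : α → ℕ}

@[fun_prop] theorem pf_mem (D : ℕ) (h1 : PF I) (h2 : PF κ) (h3 : PF u) :
    PF fun a => mem D (I a) (κ a) (u a) := by unfold mem; fun_prop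
@[fun_prop] theorem pf_keys (D R N : ℕ) (h1 : PF u) : PF fun a => keys D R N (u a) := by
  unfold keys; fun_prop
@[fun_prop] theorem pf_cn (R : ℕ) (h1 : PF ρ) (h2 : PF κ) (h3 : PF η) (h4 : PF u) (h5 : PF v) :
    PF fun a => cn R (ρ a) (κ a) (η a) (u a) (v a) := by unfold cn; fun_prop
@[fun_prop] theorem pf_mrg (D R : ℕ) {e g : α → Key × Mat} (h1 : PF I) (h2 : PF e) (h3 : PF g)
    (h4 : PF ρ) : PF fun a => mrg D R (I a) (e a) (g a) (ρ a) := by unfold mrg; fun_prop
@[fun_prop] theorem pf_vld (D R : ℕ) (h1 : PF I) (h2 : PF κ) (h3 : PF η) (h4 : PF θ) (h5 : PF ρ) :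
    PF fun a => vld D R (I a) (κ a) (η a) (θ a) (ρ a) := by unfold vld; fun_prop
@[fun_prop] theorem pf_bas (D R s : ℕ) (h1 : PF I) (h2 : PF κ) :
    PF fun a => bas D R s (I a) (κ a) := by unfold bas; fun_prop
@[fun_prop] theorem pf_cand (D R s : ℕ) (L : List Rule) {T : α → List (Key × Mat)} (h1 : PF I)
    (h2 : PF T) (h3 : PF κ) : PF fun a => cand D R s L (I a) (T a) (κ a) := by
  unfold cand; fun_prop
@[fun_prop] theorem pf_step (D R N s : ℕ) (L : List Rule) {T : α → List (Key × Mat)} (h1 : PF I)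
    (h2 : PF T) : PF fun a => step D R N s L (I a) (T a) := by unfold step; fun_prop

end

theorem pf_out (D R N s : ℕ) (L : List Rule) (A : List Bool) : PF (out D R N s L A) := by
  have h : PF fun I : In => (enc (keys D R N I.1.length)).length := PF.encLen (by fun_prop)
  have : PF fun I : In => (step D R N s L I)^[I.1.length] [] :=
    pf_iter (st := fun I : In => step D R N s L I) (fun I => (keys D R N I.1.length).length *
      (2 * (2 * (enc (keys D R N I.1.length)).length + 1 +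
        I.1.length * (2 * (I.1.length * 3) + 1)) + 1)) (by fun_prop) (by fun_prop) (by fun_prop)
      (by fun_prop) fun I T => (len_le_mul _ _ fun e he => by
        obtain ⟨κ, h1, rfl⟩ := List.mem_map.1 he
        have := len_le_of_mem (List.mem_filter.1 h1).1
        have := len_mat I.1.length fun x y => entry (Rd.best I.1 (cand D R s L I T κ)) x y
        rw [len_prod, nrm]
        omega).trans (Nat.mul_le_mul_right _ (by
          rw [step, List.length_map]; exact List.length_filter_le _ _))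
  unfold out
  fun_prop

/-- The points described by a key. -/
def vs (D : ℕ) (I : In) (κ : Key) : Finset ℕ := (range I.1.length).filter fun u => mem D I κ u

/-- Correct rules. -/
def Ok (R k : ℕ) (dec : ℕ → Set Ty) (ρ : Rule) : Prop := (∀ i, i < R → nat1 ρ.2.1 i < 2 * R) ∧
  ∀ s ∈ dec ρ.2.2.1, ∀ t ∈ dec ρ.2.2.2.1, (cmb R (nat2 ρ.1) (nat1 ρ.2.1) s t).2.2.2 < k →
    cmb R (nat2 ρ.1) (nat1 ρ.2.1) s t ∈ dec ρ.2.2.2.2

/-- Correct entries. -/
def Inv (w D R k : ℕ) (dec : ℕ → Set Ty) (I : In) (e : Key × Mat) : Prop :=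
  Sym I.1.length e.2 ∧ (∀ i, i < R → nat1 e.1.2.2.1 i ∈ vs D I e.1) ∧
    Sig w R k (vs D I e.1) (nat1 e.1.2.2.1) e.2 ⊆ dec e.1.2.2.2

variable {I : In} {κ η θ : Key} {ρ : Rule} {dec : ℕ → Set Ty} {N s : ℕ} {L : List Rule}
  {T : List (Key × Mat)}

theorem mem_vs {u : ℕ} : u ∈ vs D I κ ↔ u < I.1.length ∧ mem D I κ u = true := by simp [vs]

theorem cn_eq (u v : ℕ) : cn R ρ κ η u v = ∑ i ∈ range R, ∑ j ∈ range R,
    if nat1 κ.2.2.1 i = u ∧ nat1 η.2.2.1 j = v then nat2 ρ.1 i j else 0 := by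
  simp [cn, sumB_eq, Bool.cond_eq_ite]

theorem vld_iff : vld D R I κ η θ ρ = true ↔ (η.2.2.2 = ρ.2.2.1 ∧ θ.2.2.2 = ρ.2.2.2.1 ∧
    κ.2.2.2 = ρ.2.2.2.2) ∧ (vs D I κ = vs D I η ∪ vs D I θ ∧ Disjoint (vs D I η) (vs D I θ) ∧
      ∀ u v, u < I.1.length → v < I.1.length → cn R ρ η θ u v ≤ 1) ∧
    ∀ i, i < R → nat1 κ.2.2.1 i = if nat1 ρ.2.1 i < R then nat1 η.2.2.1 (nat1 ρ.2.1 i) else
      nat1 θ.2.2.1 (nat1 ρ.2.1 i - R) := by
  simp only [vld, Bool.and_eq_true, beq_iff_eq, Bool.not_eq_true', Bool.eq_false_iff, ne_eq,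
    anyB_iff, Bool.or_eq_true, Nat.blt_eq, not_exists, not_and, not_or, not_not, not_lt,
    Bool.cond_eq_ite, Finset.ext_iff, mem_union, mem_vs, Finset.disjoint_left, and_assoc]
  simp only [fun u b => Bool.eq_iff_iff (a := mem D I κ u) (b := b || mem D I θ u),
    Bool.or_eq_true]
  refine and_congr_right fun _ => and_congr_right fun _ => and_congr_right fun _ => ?_
  rw [← and_assoc, ← and_assoc, and_assoc (a := ∀ _, _ ↔ _)]
  refine and_congr_left' ⟨fun h => ⟨fun u => ?_, fun u c _ => (h u c.1).2.1 c.2,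
    fun u v hu hv => (h u hu).2.2 v hv⟩, fun h u hu => ⟨?_, fun c => h.2.1 ⟨hu, c⟩ hu,
      fun v hv => h.2.2 u v hu hv⟩⟩
  · have := h u
    tauto
  · have := h.1 u
    tauto

theorem bas_iff : bas D R s I κ = true ↔ κ.2.2.2 = s ∧ vs D I κ = {nat1 κ.2.2.1 0} ∧
    ∀ i, i < R → nat1 κ.2.2.1 i = nat1 κ.2.2.1 0 := by
  simp only [bas, Bool.and_eq_true, beq_iff_eq, Bool.not_eq_true', Bool.eq_false_iff, ne_eq,
    anyB_iff, Nat.blt_eq, not_exists, not_and, not_not, Finset.ext_iff, mem_vs, mem_singleton,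
    and_assoc]
  simp only [fun u => Bool.eq_iff_iff (a := mem D I κ u) (b := u == nat1 κ.2.2.1 0), beq_iff_eq]
  refine and_congr_right fun _ => ?_
  rw [← and_assoc]
  exact and_congr_left' ⟨fun h u => ⟨fun c => (h.2 u c.1).1 c.2, fun c => ⟨c ▸ h.1,
    (h.2 u (c ▸ h.1)).2 c⟩⟩, fun h => ⟨((h _).2 rfl).1, fun u hu => by rw [← h u]; simp [hu]⟩⟩

theorem sig_one {u : ℕ} (h1 : ∀ i, i < R → a i = u) (h2 : entry H u u = false) :
    Sig w R k {u} a H = Sig w R k {0} (fun _ => 0) [] := by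
  have e : ∀ l l' : ℕ → Fin 3, l u = l' 0 →
      sg w R {u} a H l = sg w R {0} (fun _ => 0) [] l' := fun l l' e => by
    rw [sg, sg, tab_congr fun i hi => congrArg l (h1 i hi)]
    simp [val, ind_false h2, e, ind_false (M := []) (u := 0) (v := 0) rfl]
  ext t
  exact and_congr_right fun _ => ⟨fun ⟨l, c⟩ => ⟨fun _ => l u, (e l _ rfl).symm.trans c⟩,
    fun ⟨l, c⟩ => ⟨fun _ => l 0, (e _ l rfl).trans c⟩⟩

theorem mrg_spec {e g : Key × Mat} (h : vld D R I κ e.1 g.1 ρ = true) (he : Inv w D R k dec I e)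
    (hg : Inv w D R k dec I g) : Sym I.1.length (mrg D R I e g ρ) ∧
      (∀ u ∈ vs D I e.1, ∀ v ∈ vs D I e.1, entry (mrg D R I e g ρ) u v = entry e.2 u v) ∧
      (∀ u ∈ vs D I g.1, ∀ v ∈ vs D I g.1, entry (mrg D R I e g ρ) u v = entry g.2 u v) ∧
      (∀ u ∈ vs D I e.1, ∀ v ∈ vs D I g.1, ind (mrg D R I e g ρ) u v = cn R ρ e.1 g.1 u v) ∧
      ∀ u v, u < I.1.length → v < I.1.length → ind (mrg D R I e g ρ) u v ≤
        ind e.2 u v + ind g.2 u v + (cn R ρ e.1 g.1 u v + cn R ρ e.1 g.1 v u) := by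
  obtain ⟨_, ⟨_, d, c⟩, _⟩ := vld_iff.1 h
  have d := fun u (hu : u < I.1.length) a b =>
    Finset.disjoint_left.1 d (mem_vs.2 ⟨hu, a⟩) (mem_vs.2 ⟨hu, b⟩)
  have z : ∀ u v, ¬ mem D I e.1 u = true → cn R ρ e.1 g.1 u v = 0 := fun u v a => by
    rw [cn_eq]
    exact sum_eq_zero fun i hi => sum_eq_zero fun j _ => if_neg fun b => a (by
      rw [← b.1]; exact (mem_vs.1 (he.2.1 i (mem_range.1 hi))).2)
  simp only [mem_vs, ind_eq]
  refine ⟨⟨fun u v hu hv => ?_, fun u hu => ?_⟩, fun u hu v hv => ?_, fun u hu v hv => ?_,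
    fun u hu v hv => ?_, fun u v hu hv => ?_⟩
  · rw [mrg, entry_tab2 _ hu hv, entry_tab2 _ hv hu, he.1.symm u v hu hv, hg.1.symm u v hu hv,
      Bool.and_comm, Bool.and_comm (mem D I g.1 u), add_comm]
  · rw [mrg, entry_tab2 _ hu hu, he.1.irr u hu, hg.1.irr u hu]
    by_cases a : mem D I e.1 u = true <;> simp [a, z u u, Nat.blt, Nat.ble]
  · simp [mrg, entry_tab2 _ hu.1 hv.1, hu.2, hv.2]
  · simp [mrg, entry_tab2 _ hu.1 hv.1, hu.2, hv.2, show ¬ _ from fun a => d u hu.1 a hu.2]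
  · have := c u v hu.1 hv.1
    have a : ¬ _ := fun a => d v hv.1 a hv.2
    simp only [mrg, entry_tab2 _ hu.1 hv.1, z v u a, Bool.of_not_eq_true a, Bool.of_not_eq_true
      (d u hu.1 hu.2), Bool.and_false, Bool.false_and, cond_false, Nat.blt_eq]
    split_ifs <;> omega
  · simp only [mrg, entry_tab2 _ hu hv, Bool.cond_eq_ite, apply_ite (· = true), Nat.blt_eq]
    split_ifs <;> omega

theorem inv_step (h0 : dec s = Sig w R k {0} (fun _ => 0) []) (hL : ∀ ρ ∈ L, Ok R k dec ρ)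
    (hT : ∀ e ∈ T, Inv w D R k dec I e) : ∀ e ∈ step D R N s L I T, Inv w D R k dec I e := by
  intro e he
  obtain ⟨κ, h1, rfl⟩ := List.mem_map.1 he
  obtain ⟨M, hM⟩ := List.exists_mem_of_ne_nil (cand D R s L I T κ)
    (by simpa using (List.mem_filter.1 h1).2)
  have hb := (Rd.best_spec I.1 hM).1
  generalize Rd.best I.1 (cand D R s L I T κ) = M at hb
  suffices Inv w D R k dec I (κ, M) from ⟨⟨fun u v hu hv => by
    simp only [nrm, entry_tab2 _ hu hv, entry_tab2 _ hv hu, this.1.symm u v hu hv], fun u hu => by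
      simp only [nrm, entry_tab2 _ hu hu, this.1.irr u hu]⟩, this.2.1, fun t ⟨c, l, e⟩ =>
        this.2.2 ⟨c, l, (sg_congr this.2.1 (fun _ _ => rfl) fun u hu v hv => by
          simp only [nrm, entry_tab2 _ (mem_vs.1 hu).1 (mem_vs.1 hv).1]).trans e⟩⟩
  simp only [cand, List.mem_append, List.mem_flatMap, List.mem_map, List.mem_filter,
    Bool.cond_eq_ite] at hb
  rcases hb with hb | ⟨e, he, g, hg, ρ, ⟨r1, r2⟩, rfl⟩
  · split_ifs at hb with c
    · obtain ⟨b1, b2, b3⟩ := bas_iff.1 c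
      rw [List.mem_singleton.1 hb]
      exact ⟨⟨fun _ _ _ _ => rfl, fun _ _ => rfl⟩, fun i hi => by simp [b2, b3 i hi],
        by simp only [b1, b2, h0, sig_one (H := []) b3 rfl, subset_refl]⟩
    · simp at hb
  obtain ⟨m1, m2, m3, m4, _⟩ := mrg_spec r2 (hT e he) (hT g hg)
  obtain ⟨⟨v1, v2, v3⟩, ⟨v4, v5, _⟩, v6⟩ := vld_iff.1 r2
  obtain ⟨o1, o2⟩ := hL ρ r1
  obtain ⟨_, e1, e2⟩ := hT e he
  obtain ⟨_, g1, g2⟩ := hT g hg
  refine ⟨m1, fun i hi => ?_, ?_⟩
  · have := o1 i hi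
    simp only [v4, v6 i hi, mem_union]
    split_ifs with c
    · exact Or.inl (e1 _ c)
    · exact Or.inr (g1 _ (by omega))
  rintro t ⟨c, l, rfl⟩
  simp only [v4, v3] at c ⊢
  rw [sg_union v5 e1 g1 (fun i hi => ⟨o1 i hi, v6 i hi⟩) (fun u hu v hv => ⟨m1.ind
    (mem_vs.1 hv).1 (mem_vs.1 hu).1, (m4 u hu v hv).trans (cn_eq u v)⟩),
    sg_congr e1 (fun _ _ => rfl) m2, sg_congr g1 (fun _ _ => rfl) m3] at c ⊢
  exact o2 _ (v1 ▸ e2 ⟨lt_of_le_of_lt (by simp only [cmb]; omega) c, l, rfl⟩) _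
    (v2 ▸ g2 ⟨lt_of_le_of_lt (by simp only [cmb]; omega) c, l, rfl⟩) c

theorem mcost_eq (C : List (List ℕ)) (M : Mat) : Rd.mcost C M = sw C.length M (nat2 C) := by
  simp [Rd.mcost, sumB_eq, sw, ind_eq, Bool.cond_eq_ite]

theorem step_of {M : Mat} (h1 : κ ∈ keys D R N I.1.length) (h2 : M ∈ cand D R s L I T κ) :
    ∃ M', (κ, M') ∈ step D R N s L I T ∧
      sw I.1.length M' (nat2 I.1) ≤ sw I.1.length M (nat2 I.1) := by
  refine ⟨_, List.mem_map_of_mem (List.mem_filter.2 ⟨h1, by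
    simpa using List.ne_nil_of_mem h2⟩), ?_⟩
  rw [← mcost_eq _ M]
  refine le_trans (le_of_eq ?_) (Rd.best_spec I.1 h2).2
  rw [mcost_eq]
  exact sum_congr rfl fun u hu => sum_congr rfl fun v hv => by
    rw [nrm, ind, entry_tab2 _ (mem_range.1 hu) (mem_range.1 hv), ← ind]

theorem key_of {x : ℕ → ℕ → ℕ} (r1 : ∀ u i, u < I.1.length → i < D → nat2 I.2 u i ≤ I.1.length)
    (r2 : ∀ u v i, u < I.1.length → v < I.1.length → i < D → x u i < x v i →
      nat2 I.2 u i < nat2 I.2 v i) (h1 : V ⊆ range I.1.length) (h2 : V.Nonempty)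
    (h3 : Box D I.1.length x V) (h4 : ∀ i, i < R → ι i ∈ V) (h5 : s < N) :
    ∃ κ ∈ keys D R N I.1.length, vs D I κ = V ∧ (∀ i, i < R → nat1 κ.2.2.1 i = ι i) ∧
      κ.2.2.2 = s := by
  choose p p1 p2 using fun i => exists_min_image V (fun u => nat2 I.2 u i) h2
  choose q q1 q2 using fun i => exists_max_image V (fun u => nat2 I.2 u i) h2
  have lt : ∀ u ∈ V, u < I.1.length := fun u hu => mem_range.1 (h1 hu)
  refine ⟨(tab D fun i => nat2 I.2 (p i) i, tab D fun i => nat2 I.2 (q i) i, tab R ι, s), ?_, ?_,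
    fun i hi => nat1_tab _ hi, rfl⟩
  · simp only [keys, List.mem_flatMap, List.mem_map, List.mem_range]
    exact ⟨_, tab_mem fun i hi => List.mem_range.2 (Nat.lt_succ_of_le (r1 _ i (lt _ (p1 i)) hi)),
      _, tab_mem fun i hi => List.mem_range.2 (Nat.lt_succ_of_le (r1 _ i (lt _ (q1 i)) hi)),
      _, tab_mem fun i hi => List.mem_range.2 (lt _ (h4 i hi)), s, h5, rfl⟩
  ext u
  simp only [mem_vs, mem, Bool.not_eq_true', Bool.eq_false_iff, ne_eq, anyB_iff, Bool.or_eq_true,
    Nat.blt_eq, not_exists, not_and, not_or, not_lt]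
  refine ⟨fun h => h3 u h.1 fun i hi => ⟨p i, p1 i, q i, q1 i, ?_⟩, fun h => ⟨lt u h,
    fun i hi => by rw [nat1_tab _ hi, nat1_tab _ hi]; exact ⟨p2 i u h, q2 i u h⟩⟩⟩
  have := h.2 i hi
  rw [nat1_tab _ hi, nat1_tab _ hi] at this
  have := r2 u (p i) i h.1 (lt _ (p1 i)) hi
  have := r2 (q i) u i (lt _ (q1 i)) h.1 hi
  omega

theorem exists_rules (R N : ℕ) (P : Rule → Prop) : ∃ L : List Rule, (∀ ρ ∈ L, P ρ) ∧
    ∀ (f : ℕ → ℕ → ℕ) (σ : ℕ → ℕ) a b c, (∀ i j, f i j ≤ 1) → (∀ i, σ i < 2 * R) → a < N →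
      b < N → c < N → P (tab2 R f, tab R σ, a, b, c) → (tab2 R f, tab R σ, a, b, c) ∈ L := by
  classical
  refine ⟨(allG (allG (List.range 2) R) R ×ˢ allG (List.range (2 * R)) R ×ˢ List.range N ×ˢ
    List.range N ×ˢ List.range N).filter fun ρ => decide (P ρ), fun ρ h => by
      simpa using (List.mem_filter.1 h).2, fun f σ a b c h1 h2 h3 h4 h5 h6 => ?_⟩
  simp only [List.mem_filter, List.mem_product, List.mem_range, decide_eq_true_eq]
  exact ⟨⟨tab_mem (g := fun i => tab R (f i)) fun i _ => tab_mem fun j _ => List.mem_range.2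
    (Nat.lt_succ_of_le (h1 i j)), tab_mem fun i _ => List.mem_range.2 (h2 i), h3, h4, h5⟩, h6⟩

theorem exists_edges (R : ℕ) (a b : ℕ → ℕ) (G : Mat) : ∃ f : ℕ → ℕ → ℕ, (∀ i j, f i j ≤ 1) ∧
    ∀ u v, (∑ i ∈ range R, ∑ j ∈ range R, if a i = u ∧ b j = v then nat2 (tab2 R f) i j else 0) =
      if (∃ i, i < R ∧ a i = u) ∧ ∃ j, j < R ∧ b j = v then ind G u v else 0 := by
  choose! p p1 p2 using fun u (h : ∃ i, i < R ∧ a i = u) => h
  choose! q q1 q2 using fun u (h : ∃ i, i < R ∧ b i = u) => h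
  refine ⟨fun i j => if i = p (a i) ∧ j = q (b j) then ind G (a i) (b j) else 0, fun i j => by
    beta_reduce; split_ifs; exacts [ind_le _ _ _, Nat.zero_le _], fun u v => ?_⟩
  rw [sum_congr rfl fun i hi => sum_congr rfl fun j hj => by
    rw [nat2_tab2 _ (mem_range.1 hi) (mem_range.1 hj)]]
  split_ifs with c
  · rw [sum_eq_single_of_mem (p u) (mem_range.2 (p1 u c.1)) fun i _ e => sum_eq_zero fun j _ =>
      ite_eq_right_iff.2 fun d => if_neg fun g => e (by rw [← d.1]; exact g.1),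
      sum_eq_single_of_mem (q v) (mem_range.2 (q1 v c.2)) fun j _ e =>
        ite_eq_right_iff.2 fun d => if_neg fun g => e (by rw [← d.2]; exact g.2)]
    simp [p2 u c.1, q2 v c.2]
  · exact sum_eq_zero fun i hi => sum_eq_zero fun j hj => if_neg fun d =>
      c ⟨⟨i, mem_range.1 hi, d.1⟩, j, mem_range.1 hj, d.2⟩

theorem ite_aux {u v : ℕ} (d : Disjoint V W) (x : ℕ) :
    ((if u ∈ V ∧ v ∈ W then x else 0) + (if v ∈ V ∧ u ∈ W then x else 0) ≤
      if u ∈ V ∧ v ∈ W ∨ v ∈ V ∧ u ∈ W then x else 0) ∧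
    (if u ∈ V ∧ v ∈ V then x else 0) + (if u ∈ W ∧ v ∈ W then x else 0) +
      (if u ∈ V ∧ v ∈ W ∨ v ∈ V ∧ u ∈ W then x else 0) ≤
        if u ∈ V ∪ W ∧ v ∈ V ∪ W then x else 0 := by
  have := @Finset.disjoint_left.1 d u
  have := @Finset.disjoint_left.1 d v
  by_cases u ∈ V <;> by_cases v ∈ V <;> by_cases u ∈ W <;> by_cases v ∈ W <;> simp_all

theorem dp (w D R k : ℕ) : ∃ alg : In → Mat, PF alg ∧ ∀ (I : In) (x : ℕ → ℕ → ℕ) (G : Mat),
    (∀ u i, u < I.1.length → i < D → nat2 I.2 u i ≤ I.1.length) →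
    (∀ u v i, u < I.1.length → v < I.1.length → i < D → x u i < x v i →
      nat2 I.2 u i < nat2 I.2 v i) → Sym I.1.length G → MC w I.1.length k G →
    Dec (Sm D I.1.length (R + 1) x G) (range I.1.length) → Sym I.1.length (alg I) ∧
      MC w I.1.length k (alg I) ∧
      cst2 I.1.length (nat2 I.1) (alg I) ≤ cst2 I.1.length (nat2 I.1) G := by
  classical
  generalize hR : R + 1 = R'
  obtain ⟨N, dec, hN⟩ := exists_code R' k
  obtain ⟨s, s1, s2⟩ := hN w {0} (fun _ => 0) []
  obtain ⟨L, L1, L2⟩ := exists_rules R' N (Ok R' k dec)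
  refine ⟨_, pf_out D R' N s L (tab N fun j => decide (∀ t ∈ dec j, ¬ (t.2.1 ∧ t.2.2.1))),
    fun I x G r1 r2 hs hm hd => ?_⟩
  have inv : ∀ t, ∀ e ∈ (step D R' N s L I)^[t] [], Inv w D R' k dec I e := fun t => by
    induction t with
    | zero => simp
    | succ t ih => rw [Function.iterate_succ_apply']; exact inv_step s2 L1 ih
  have key : ∀ V, Dec (Sm D I.1.length R' x G) V → ∀ t, V.card ≤ t →
      ∃ e ∈ (step D R' N s L I)^[t] [], vs D I e.1 = V ∧ e.1.2.2.2 < N ∧
        (∀ u ∈ bd I.1.length G V, ∃ i, i < R' ∧ nat1 e.1.2.2.1 i = u) ∧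
        dec e.1.2.2.2 = Sig w R' k V (nat1 e.1.2.2.1) G ∧ sw I.1.length e.2 (nat2 I.1) ≤
          sw I.1.length G fun u v => if u ∈ V ∧ v ∈ V then nat2 I.1 u v else 0 := by
    intro V hV
    induction hV with
    | base u h =>
      rintro (_ | t) ht
      · simp at ht
      obtain ⟨κ, k1, k2, k3, k4⟩ := key_of (R := R') (ι := fun _ => u) r1 r2 h.1
        (singleton_nonempty u) h.2.1 (fun _ _ => mem_singleton_self u) s1
      obtain ⟨M, m1, m2⟩ := step_of (L := L) (s := s) (T := (step D R' N s L I)^[t] []) (M := [])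
        k1 (List.mem_append_left _ (by
          rw [bas_iff.2 ⟨k4, by rw [k2, k3 0 (by omega)], fun i hi => by
            rw [k3 i hi, k3 0 (by omega)]⟩]
          simp))
      exact ⟨(κ, M), by rwa [Function.iterate_succ_apply'], k2, k4 ▸ s1, fun v hv =>
        ⟨0, by omega, by rw [k3 0 (by omega), mem_singleton.1 (mem_filter.1 hv).1]⟩, by
          rw [k4, s2, sig_one k3 (hs.irr u (by simpa using h.1))],
        m2.trans (by simp [sw, ind, entry])⟩
    | split V W d v1 w1 _ _ h ihV ihW =>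
      rintro (_ | t) ht
      · simp [v1.ne_empty] at ht
      rw [card_union_of_disjoint d] at ht
      obtain ⟨e, e1, rfl, e3, e4, e5, e6⟩ := ihV t (by have := w1.card_pos; omega)
      obtain ⟨g, g1, rfl, g3, g4, g5, g6⟩ := ihW t (by have := v1.card_pos; omega)
      have ie := inv t e e1
      have ig := inv t g g1
      have d' := Finset.disjoint_left.1 d
      obtain ⟨f, f1, f2⟩ := exists_edges R' (nat1 e.1.2.2.1) (nat1 g.1.2.2.1) G
      have f3 : ∀ u ∈ vs D I e.1, ∀ v ∈ vs D I g.1, ind G v u = ind G u v ∧ ind G u v = _ :=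
        fun u hu v hv => ⟨hs.ind (mem_vs.1 hv).1 (mem_vs.1 hu).1, ((f2 u v).trans (by
          split_ifs with c
          · rfl
          · exact (ind_false (Bool.of_not_eq_true fun a => c ⟨e4 u (mem_filter.2 ⟨hu, v,
              mem_sdiff.2 ⟨filter_subset _ _ hv, fun b => d' b hv⟩, a⟩), g4 v (mem_filter.2
                ⟨hv, u, mem_sdiff.2 ⟨filter_subset _ _ hu, d' hu⟩, hs.symm u v (mem_vs.1 hu).1
                  (mem_vs.1 hv).1 ▸ a⟩)⟩)).symm)).symm⟩
      have : ∀ u, ∃ j, j < 2 * R' ∧ (u ∈ bd I.1.length G (vs D I e.1 ∪ vs D I g.1) →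
          (if j < R' then nat1 e.1.2.2.1 j else nat1 g.1.2.2.1 (j - R')) = u) := fun u => by
        by_cases c : u ∈ bd I.1.length G (vs D I e.1 ∪ vs D I g.1)
        swap
        · exact ⟨0, by omega, fun a => absurd a c⟩
        obtain ⟨c, v, hv, a⟩ := mem_filter.1 c
        simp only [mem_sdiff, mem_union, not_or] at c hv
        rcases c with c | c
        · obtain ⟨i, i1, i2⟩ := e4 u (mem_filter.2 ⟨c, v, mem_sdiff.2 ⟨hv.1, hv.2.1⟩, a⟩)
          exact ⟨i, by omega, fun _ => by rw [if_pos i1, i2]⟩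
        · obtain ⟨i, i1, i2⟩ := g4 u (mem_filter.2 ⟨c, v, mem_sdiff.2 ⟨hv.1, hv.2.2⟩, a⟩)
          exact ⟨i + R', by omega, fun _ => by rw [if_neg (by omega), Nat.add_sub_cancel, i2]⟩
      choose m m1 m2 using this
      obtain ⟨σ, hσ⟩ : ∃ σ : ℕ → ℕ, σ = fun i =>
        m ((bd I.1.length G (vs D I e.1 ∪ vs D I g.1)).toList.getD i 0) := ⟨_, rfl⟩
      have σ1 : ∀ i, σ i < 2 * R' := fun i => hσ ▸ m1 _
      obtain ⟨ι, hι⟩ : ∃ ι : ℕ → ℕ, ∀ i, ι i = if σ i < R' then nat1 e.1.2.2.1 (σ i) else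
        nat1 g.1.2.2.1 (σ i - R') := ⟨_, fun _ => rfl⟩
      obtain ⟨j, j1, j2⟩ := hN w (vs D I e.1 ∪ vs D I g.1) (nat1 (tab R' ι)) G
      obtain ⟨κ, k1, k2, k3, k4⟩ := key_of (R := R') (ι := nat1 (tab R' ι)) r1 r2 h.1
        (v1.mono subset_union_left) h.2.1 (fun i hi => by
          have := σ1 i
          rw [nat1_tab _ hi, hι, mem_union]
          split_ifs with c
          · exact Or.inl (ie.2.1 _ c)
          · exact Or.inr (ig.2.1 _ (by omega))) j1
      have σ2 : ∀ i, i < R' → nat1 (tab R' σ) i < 2 * R' ∧ nat1 (tab R' ι) i =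
          if nat1 (tab R' σ) i < R' then nat1 e.1.2.2.1 (nat1 (tab R' σ) i) else
            nat1 g.1.2.2.1 (nat1 (tab R' σ) i - R') := fun i hi => by
        rw [nat1_tab _ hi, nat1_tab _ hi]
        exact ⟨σ1 i, hι i⟩
      have r := L2 f σ _ _ _ f1 σ1 e3 g3 j1 ⟨fun i hi => (σ2 i hi).1, by
        simp only [e5, g5, j2]
        rintro _ ⟨_, l, rfl⟩ _ ⟨_, l', rfl⟩ c
        refine ⟨c, (vs D I e.1).piecewise l l', ?_⟩
        rw [sg_union d ie.2.1 ig.2.1 σ2 f3, sg_congr (l' := l) ie.2.1 (fun u hu =>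
          (vs D I e.1).piecewise_eq_of_mem l l' hu) fun _ _ _ _ => rfl, sg_congr (l' := l') ig.2.1
            (fun u hu => (vs D I e.1).piecewise_eq_of_notMem l l' fun a => d' a hu)
              fun _ _ _ _ => rfl]⟩
      have f4 : ∀ u v, cn R' (tab2 R' f, tab R' σ, e.1.2.2.2, g.1.2.2.2, j) e.1 g.1 u v ≤
          if u ∈ vs D I e.1 ∧ v ∈ vs D I g.1 then ind G u v else 0 := fun u v => by
        rw [cn_eq, f2]
        split_ifs with a b
        any_goals omega
        obtain ⟨⟨i, i1, rfl⟩, j, j1, rfl⟩ := a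
        exact absurd ⟨ie.2.1 i i1, ig.2.1 j j1⟩ b
      have vl := (vld_iff (ρ := (tab2 R' f, tab R' σ, e.1.2.2.2, g.1.2.2.2, j))).2 ⟨⟨rfl, rfl, k4⟩, ⟨k2, d, fun u v _ _ => (f4 u v).trans (by
        split_ifs; exacts [ind_le _ _ _, Nat.zero_le _])⟩, fun i hi =>
          (k3 i hi).trans (σ2 i hi).2⟩
      obtain ⟨M, n1, n2⟩ := step_of (L := L) (s := s) (T := (step D R' N s L I)^[t] []) k1
        (List.mem_append_right _ (List.mem_flatMap.2 ⟨e, e1, List.mem_flatMap.2 ⟨g, g1,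
          List.mem_map_of_mem (List.mem_filter.2 ⟨r, vl⟩)⟩⟩))
      refine ⟨(κ, M), by rwa [Function.iterate_succ_apply'], k2, k4 ▸ j1, fun u hu => ?_, ?_,
        n2.trans ?_⟩
      · obtain ⟨i, i1, i2⟩ := List.getElem_of_mem (mem_toList.2 hu)
        have i3 : i < R' := i1.trans_le (by rw [length_toList]; exact h.2.2)
        refine ⟨i, i3, ?_⟩
        rw [k3 i i3, nat1_tab _ i3, hι, hσ]
        simp only [List.getD_eq_getElem _ _ i1, i2, m2 u hu]
      · simp only [k4, j2, Sig, sg, tab_congr fun i hi => congrArg _ (k3 i hi)]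
      refine le_trans ?_ ((Nat.add_le_add_right (Nat.add_le_add e6 g6) (sw I.1.length G fun u v =>
        if u ∈ vs D I e.1 ∧ v ∈ vs D I g.1 ∨ v ∈ vs D I e.1 ∧ u ∈ vs D I g.1 then nat2 I.1 u v
          else 0)).trans ?_)
      all_goals
        simp only [sw, ← sum_add_distrib]
        refine sum_le_sum fun u hu => sum_le_sum fun v hv => ?_
      · have a := (mrg_spec vl ie ig).2.2.2.2 u _ (mem_range.1 hu) (mem_range.1 hv)
        have b := f4 u v
        have c := f4 v u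
        rw [hs.ind (mem_range.1 hv) (mem_range.1 hu)] at c
        rw [mul_ite, mul_zero, ← ite_zero_mul, ← add_mul, ← add_mul]
        exact Nat.mul_le_mul_right _ (a.trans (Nat.add_le_add_left
          ((Nat.add_le_add b c).trans (ite_aux d _).1) _))
      · simp only [← mul_add]
        exact Nat.mul_le_mul_left _ (ite_aux d _).2
  obtain ⟨e, e1, e2, e3, _, e5, e6⟩ := key _ hd I.1.length (by simp)
  obtain ⟨b1, b2⟩ := Rd.best_spec I.1 (List.mem_map_of_mem (f := fun e : Key × Mat => e.2)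
    ((List.mem_filter (p := fun e : Key × Mat => bit1 (tab N fun j =>
      decide (∀ t ∈ dec j, ¬ (t.2.1 ∧ t.2.2.1))) e.1.2.2.2 &&
        !(anyB I.1.length fun u => !(mem D I e.1 u)))).2 ⟨e1, by
      simp only [bit1_tab _ e3, e5, Bool.and_eq_true, decide_eq_true_eq, Bool.not_eq_true',
        Bool.eq_false_iff, ne_eq, anyB_iff, not_exists, not_and, not_not]
      refine ⟨?_, fun u hu => (mem_vs.1 (e2 ▸ mem_range.2 hu)).2⟩
      rintro _ ⟨c, l, rfl⟩ ⟨u, hu, a⟩ ⟨v, hv, b⟩
      exact absurd (hm l ⟨u, mem_range.1 hu, a⟩ ⟨v, mem_range.1 hv, b⟩) (not_le.2 c)⟩))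
  rw [← out] at b1 b2
  obtain ⟨g, g1, g2⟩ := List.mem_map.1 b1
  obtain ⟨g3, g4⟩ := List.mem_filter.1 g1
  obtain ⟨i1, _, i3⟩ := inv _ g g3
  simp only [Bool.and_eq_true, Bool.not_eq_true', Bool.eq_false_iff, ne_eq, anyB_iff, not_exists,
    not_and, not_not] at g4
  rw [show vs D I g.1 = range I.1.length from filter_true_of_mem fun u hu =>
    g4.2 u (mem_range.1 hu), g2] at i3
  refine ⟨g2 ▸ i1, fun l ⟨u, hu, a⟩ ⟨v, hv, b⟩ => not_lt.1 fun c => ?_, ?_⟩
  · have z := g4.1
    rcases lt_or_ge g.1.2.2.2 N with y | y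
    · rw [bit1_tab _ y, decide_eq_true_eq] at z
      exact z _ (i3 ⟨c, l, rfl⟩) ⟨u, mem_range.2 hu, a⟩ ⟨v, mem_range.2 hv, b⟩
    · exact absurd (z.symm.trans (getD_tab_ge _ _ y)) (by decide)
  · rw [mcost_eq, mcost_eq] at b2
    exact b2.trans (e6.trans (sum_le_sum fun u _ => sum_le_sum fun v _ =>
      Nat.mul_le_mul_left _ (by beta_reduce; split_ifs <;> omega)))

end Pool.Agent.Lib.MP_959bb6_lc.Dp
end
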