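import Mathlib
import Pool.Agent.Lib.MP_959bb6_lc.Mat
import Pool.Agent.Lib.MP_959bb6_lc.Frac

-- part Pool.Agent.Lib.MP_959bb6_lc.EdgeGeo
section

/-!
Clusters of nearly `k + 1` points in a finite metric space.
-/

set_option autoImplicit false

namespace Pool.Agent.Lib.MP_959bb6_lc.Eg

open Pool.Agent.Shared.PolyTime Enc Finset

/-- Input: the scale, the connectivity and the distance matrix. -/
abbrev In : Type := ℕ × ℕ × List (List ℕ)

def nn (I : In) : ℕ := I.2.2.length
def cc (I : In) (u v : ℕ) : ℕ := nat2 I.2.2 u v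
def tt (I : In) : ℕ := I.2.1 / I.1
def nb (I : In) (s u j : ℕ) : ℕ := cntB (nn I) fun v => Nat.ble (s * cc I u v) j
def rad (I : In) (u : ℕ) : ℕ :=
  first (sumB (nn I) (fun v => cc I u v) + 1) fun j => Nat.blt I.2.1 (nb I 1 u j)
def clus (I : In) (u : ℕ) : Bool := Nat.blt I.2.1 (nb I I.1 u (rad I u) + tt I)
def near (I : In) (x v : ℕ) : Bool := Nat.ble (I.1 * cc I x v) (3 * rad I x)
def cen (I : In) (x : ℕ) : Bool := clus I x && !(anyB x fun y => clus I y && near I y x)
def lab0 (I : In) (v : ℕ) : ℕ := first (nn I) fun x => cen I x && near I x v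
def lab (I : In) (v : ℕ) : ℕ := bif Nat.blt (lab0 I v) (nn I) then lab0 I v else v

section
variable {α : Type} [Enc α]

@[fun_prop] theorem pf_nn {I : α → In} (h : PF I) : PF fun a => nn (I a) := by
  unfold nn; fun_prop
@[fun_prop] theorem pf_cc {I : α → In} {u v : α → ℕ} (h : PF I) (h1 : PF u) (h2 : PF v) :
    PF fun a => cc (I a) (u a) (v a) := by unfold cc; fun_prop
@[fun_prop] theorem pf_tt {I : α → In} (h : PF I) : PF fun a => tt (I a) := by
  unfold tt; fun_prop
@[fun_prop] theorem pf_nb {I : α → In} {s u v : α → ℕ} (h : PF I) (h0 : PF s) (h1 : PF u)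
    (h2 : PF v) : PF fun a => nb (I a) (s a) (u a) (v a) := by unfold nb; fun_prop
@[fun_prop] theorem pf_rad {I : α → In} {u : α → ℕ} (h : PF I) (h1 : PF u) :
    PF fun a => rad (I a) (u a) := by unfold rad; fun_prop
@[fun_prop] theorem pf_clus {I : α → In} {u : α → ℕ} (h : PF I) (h1 : PF u) :
    PF fun a => clus (I a) (u a) := by unfold clus; fun_prop
@[fun_prop] theorem pf_near {I : α → In} {u v : α → ℕ} (h : PF I) (h1 : PF u) (h2 : PF v) :
    PF fun a => near (I a) (u a) (v a) := by unfold near; fun_prop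
@[fun_prop] theorem pf_cen {I : α → In} {u : α → ℕ} (h : PF I) (h1 : PF u) :
    PF fun a => cen (I a) (u a) := by unfold cen; fun_prop
@[fun_prop] theorem pf_lab0 {I : α → In} {u : α → ℕ} (h : PF I) (h1 : PF u) :
    PF fun a => lab0 (I a) (u a) := by unfold lab0; fun_prop
@[fun_prop] theorem pf_lab {I : α → In} {u : α → ℕ} (h : PF I) (h1 : PF u) :
    PF fun a => lab (I a) (u a) := by unfold lab; fun_prop

end

/-- Admissible inputs. -/
structure Ok (I : In) : Prop where
  met : IsMet (nn I) (cc I)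
  ten : 10 ≤ I.1
  big : 64 * I.1 ^ 3 ≤ I.2.1
  lt : I.2.1 < nn I

variable {I : In}

theorem nb_eq (I : In) (s u j : ℕ) :
    nb I s u j = ((range (nn I)).filter fun v => s * cc I u v ≤ j).card := by
  simp [nb, cntB_eq]

theorem Ok.st (_ : Ok I) : I.1 * tt I ≤ I.2.1 := Nat.mul_div_le _ _

theorem Ok.tbig (h : Ok I) : 64 * I.1 ^ 2 ≤ tt I := by
  have := h.ten
  have := h.big
  rw [tt, Nat.le_div_iff_mul_le (by omega)]
  nlinarith

theorem Ok.t10 (h : Ok I) : 10 * tt I ≤ I.2.1 := (Nat.mul_le_mul_right _ h.ten).trans h.st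

theorem Ok.sq (h : Ok I) : 10 * I.1 ≤ I.1 ^ 2 := by have := h.ten; nlinarith

theorem rad_spec (h : Ok I) (u : ℕ) :
    I.2.1 < ((range (nn I)).filter fun v => cc I u v ≤ rad I u).card ∧
      ((range (nn I)).filter fun v => cc I u v < rad I u).card ≤ I.2.1 := by
  obtain ⟨_, h2, h3⟩ := first_spec (N := sumB (nn I) (fun v => cc I u v) + 1)
    (p := fun j => Nat.blt I.2.1 (nb I 1 u j)) ⟨sumB (nn I) fun v => cc I u v, by omega, by
      rw [Nat.blt_eq, nb_eq, filter_true_of_mem, card_range]
      · exact h.lt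
      · intro v hv
        rw [sumB_eq, one_mul]
        exact single_le_sum (f := fun v => cc I u v) (fun _ _ => Nat.zero_le _) hv⟩
  change Nat.blt I.2.1 (nb I 1 u (rad I u)) = true at h2
  change ∀ j, j < rad I u → _ at h3
  constructor
  · simpa [nb_eq] using h2
  · rcases Nat.eq_zero_or_pos (rad I u) with e | e
    · simp [e]
    · have := h3 (rad I u - 1) (by omega)
      rw [Bool.eq_false_iff, ne_eq, Nat.blt_eq, nb_eq, not_lt] at this
      exact (card_le_card fun v hv => by
        simp only [mem_filter] at hv ⊢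
        exact ⟨hv.1, by omega⟩).trans this

theorem rad_pos (h : Ok I) {u : ℕ} (hu : u < nn I) : 0 < rad I u := by
  by_contra hc
  have h1 := (rad_spec h u).1
  have : ((range (nn I)).filter fun v => cc I u v ≤ rad I u) ⊆ {u} := fun v hv => by
    simp only [mem_filter, mem_range] at hv
    rw [mem_singleton]
    by_contra e
    have := h.met.pos u v hu hv.1 (Ne.symm e)
    omega
  have := card_le_card this
  have := h.t10
  have := h.tbig
  have := h.sq
  have := h.ten
  simp only [card_singleton] at *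
  omega

theorem rad_lip (h : Ok I) {u w : ℕ} (hu : u < nn I) (hw : w < nn I) :
    rad I w ≤ rad I u + cc I u w := by
  by_contra hc
  have h1 := (rad_spec h u).1
  have h2 := (rad_spec h w).2
  have := card_le_card (s := (range (nn I)).filter fun v => cc I u v ≤ rad I u)
    (t := (range (nn I)).filter fun v => cc I w v < rad I w) fun v hv => by
      simp only [mem_filter, mem_range] at hv ⊢
      have := h.met.tri w u v hw hu hv.1
      have := h.met.symm u w hu hw
      exact ⟨hv.1, by omega⟩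
  omega

theorem Ok.ten_mul (h : Ok I) (x : ℕ) : 10 * x ≤ I.1 * x := Nat.mul_le_mul_right _ h.ten

theorem Ok.stri (h : Ok I) {u v w : ℕ} (hu : u < nn I) (hv : v < nn I) (hw : w < nn I) :
    I.1 * cc I u w ≤ I.1 * cc I u v + I.1 * cc I v w := by
  rw [← mul_add]
  exact Nat.mul_le_mul_left _ (h.met.tri u v w hu hv hw)

theorem near_iff {x v : ℕ} : near I x v = true ↔ I.1 * cc I x v ≤ 3 * rad I x := by simp [near]

theorem clus_iff {u : ℕ} : clus I u = true ↔
    I.2.1 < ((range (nn I)).filter fun v => I.1 * cc I u v ≤ rad I u).card + tt I := by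
  simp [clus, nb_eq]

theorem key (h : Ok I) {u w : ℕ} (hu : u < nn I) (hw : w < nn I) (cu : clus I u = true)
    (cw : clus I w = true) (hd : I.1 * cc I u w ≤ 7 * rad I u) :
    near I u w = true ∧ near I w u = true := by
  rw [clus_iff] at cu cw
  have l1 := rad_lip h hu hw
  have l2 := rad_lip h hw hu
  have l3 := h.met.symm u w hu hw
  have l4 := h.ten_mul (cc I u w)
  have l5 := rad_pos h hu
  have l6 := h.ten_mul (rad I u)
  obtain ⟨v, hv1, hv2⟩ : ∃ v, v ∈ ((range (nn I)).filter fun v => I.1 * cc I u v ≤ rad I u) ∧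
      v ∈ ((range (nn I)).filter fun v => I.1 * cc I w v ≤ rad I w) := by
    rw [← Finset.not_disjoint_iff]
    intro hdis
    have h1 := card_union_of_disjoint hdis
    have h2 := (rad_spec h u).2
    have h3 := card_le_card (t := (range (nn I)).filter fun v => cc I u v < rad I u)
      (union_subset (s := (range (nn I)).filter fun v => I.1 * cc I u v ≤ rad I u)
        (t := (range (nn I)).filter fun v => I.1 * cc I w v ≤ rad I w) (fun v hv => by
          simp only [mem_filter, mem_range] at hv ⊢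
          have := h.ten_mul (cc I u v)
          exact ⟨hv.1, by omega⟩) fun v hv => by
          simp only [mem_filter, mem_range] at hv ⊢
          have := h.stri hu hw hv.1
          have := h.ten_mul (cc I u v)
          exact ⟨hv.1, by omega⟩)
    have := h.t10
    omega
  simp only [mem_filter, mem_range] at hv1 hv2
  have := h.stri hu hv1.1 hw
  rw [h.met.symm v w hv1.1 hw] at this
  rw [near_iff, near_iff, ← l3]
  omega

theorem cen_iff {x : ℕ} : cen I x = true ↔
    clus I x = true ∧ ∀ y, y < x → clus I y = true → ¬ near I y x = true := by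
  simp only [cen, Bool.and_eq_true, Bool.not_eq_true', Bool.eq_false_iff, ne_eq, anyB_iff,
    not_exists, not_and]

theorem cen_uniq (h : Ok I) {x y v : ℕ} (hx : x < nn I) (hy : y < nn I) (hv : v < nn I)
    (cx : cen I x = true) (cy : cen I y = true) (nx : near I x v = true)
    (ny : near I y v = true) : x = y := by
  rw [cen_iff] at cx cy
  rw [near_iff] at nx ny
  have a1 := h.stri hx hv hy
  rw [h.met.symm v y hv hy] at a1
  have : near I x y = true ∧ near I y x = true := by
    rcases le_total (rad I x) (rad I y) with c | c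
    · exact (key h hy hx cy.1 cx.1 (by rw [h.met.symm y x hy hx]; omega)).symm
    · exact key h hx hy cx.1 cy.1 (by omega)
  rcases lt_trichotomy x y with c | c | c
  · exact absurd this.1 (cy.2 x c cx.1)
  · exact c
  · exact absurd this.2 (cx.2 y c cy.1)

theorem near_self (h : Ok I) {x : ℕ} (hx : x < nn I) : near I x x = true := by
  simp [near_iff, h.met.self x hx]

theorem exists_cen (h : Ok I) {u : ℕ} (hu : u < nn I) (cu : clus I u = true) :
    ∃ x, x < nn I ∧ cen I x = true ∧ near I x u = true := by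
  obtain ⟨h1, h2, h3⟩ := first_spec (N := nn I) (p := fun y => clus I y && near I y u)
    ⟨u, hu, by simp [cu, near_self h hu]⟩
  generalize first (nn I) (fun y => clus I y && near I y u) = x at h1 h2 h3
  rw [Bool.and_eq_true] at h2
  refine ⟨x, h1, cen_iff.2 ⟨h2.1, fun y hy cy ny => ?_⟩, h2.2⟩
  have a1 := h3 y hy
  have hy' : y < nn I := hy.trans h1
  have a2 := near_iff.1 h2.2
  rw [near_iff] at ny
  have a3 := h.stri hy' h1 hu
  have a4 := rad_lip h hy' h1
  have a5 := h.ten_mul (cc I y x)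
  simp [cy, (key h hy' hu cy cu (by omega)).1] at a1

theorem lab_cases (I : In) (v : ℕ) :
    (lab I v < nn I ∧ cen I (lab I v) = true ∧ near I (lab I v) v = true) ∨
      (lab I v = v ∧ ∀ x, x < nn I → cen I x = true → ¬ near I x v = true) := by
  by_cases hc : ∃ x, x < nn I ∧ (cen I x && near I x v) = true
  · obtain ⟨h1, h2, _⟩ := first_spec hc
    have : lab I v = lab0 I v := by
      rw [lab, show Nat.blt (lab0 I v) (nn I) = true from Nat.blt_eq.symm ▸ h1, cond_true]
    rw [this]
    exact Or.inl ⟨h1, Bool.and_eq_true_iff.1 h2⟩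
  · have e : lab0 I v = nn I := first_none fun i hi => by
      by_contra hc'
      exact hc ⟨i, hi, by simpa using hc'⟩
    refine Or.inr ⟨by simp [lab, e, Bool.cond_eq_ite], fun x hx cx nx => hc ⟨x, hx, by simp [cx, nx]⟩⟩

theorem lab_of_cen (h : Ok I) {x v : ℕ} (hx : x < nn I) (hv : v < nn I) (cx : cen I x = true)
    (nx : near I x v = true) : lab I v = x := by
  rcases lab_cases I v with ⟨a, b, c⟩ | ⟨_, b⟩
  · exact cen_uniq h a hx hv b cx c nx
  · exact absurd nx (b x hx cx)

theorem lab_lt {v : ℕ} (hv : v < nn I) : lab I v < nn I := by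
  rcases lab_cases I v with ⟨a, _⟩ | ⟨a, _⟩
  · exact a
  · rwa [a]

theorem lab_idem (h : Ok I) (v : ℕ) : lab I (lab I v) = lab I v := by
  rcases lab_cases I v with ⟨a, b, _⟩ | ⟨a, _⟩
  · exact lab_of_cen h a a b (near_self h a)
  · rw [a, a]

theorem lab_near (h : Ok I) {v : ℕ} (hv : v < nn I) :
    I.1 * cc I (lab I v) v ≤ 3 * rad I (lab I v) := by
  rcases lab_cases I v with ⟨_, _, a⟩ | ⟨a, _⟩
  · exact near_iff.1 a
  · rw [a]; exact near_iff.1 (near_self h hv)

/-- The class of a vertex. -/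
def fib (I : In) (x : ℕ) : Finset ℕ := (range (nn I)).filter fun v => lab I v = lab I x

theorem mem_fib {x v : ℕ} : v ∈ fib I x ↔ v < nn I ∧ lab I v = lab I x := by simp [fib]

theorem fib_subset (I : In) (x : ℕ) : fib I x ⊆ range (nn I) := filter_subset _ _

theorem fib_congr {x y : ℕ} (h : lab I x = lab I y) : fib I x = fib I y := by simp [fib, h]

theorem fib_open (h : Ok I) {x v : ℕ} (hx : x < nn I) (hv : v ∈ fib I x) :
    2 * cc I (lab I x) v < rad I (lab I x) := by
  obtain ⟨h1, h2⟩ := mem_fib.1 hv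
  have := lab_near h h1
  rw [h2] at this
  have := h.ten_mul (cc I (lab I x) v)
  have := rad_pos h (lab_lt hx)
  omega

theorem fib_le (h : Ok I) {x : ℕ} (hx : x < nn I) : (fib I x).card ≤ I.2.1 :=
  (card_le_card fun v hv => mem_filter.2 ⟨fib_subset I x hv, by
    have := fib_open h hx hv
    omega⟩).trans (rad_spec h (lab I x)).2

theorem fib_diam (h : Ok I) {x v : ℕ} (hx : x < nn I) (hv : v ∈ fib I x) :
    I.1 * cc I x v ≤ 6 * rad I (lab I x) := by
  obtain ⟨h1, h2⟩ := mem_fib.1 hv
  have a1 := lab_near h h1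
  have a2 := lab_near h hx
  rw [h2] at a1
  have := h.stri hx (lab_lt hx) h1
  rw [h.met.symm x _ hx (lab_lt hx)] at this
  omega

theorem fib_size (h : Ok I) {x : ℕ} (hx : x < nn I) : I.2.1 < (fib I x).card + tt I ∨
    (fib I x = {x} ∧ lab I x = x ∧
      ((range (nn I)).filter fun v => I.1 * cc I x v ≤ rad I x).card + tt I ≤ I.2.1) := by
  rcases lab_cases I x with ⟨a, b, _⟩ | ⟨a, b⟩
  · left
    have := clus_iff.1 (cen_iff.1 b).1
    refine this.trans_le (Nat.add_le_add_right (card_le_card fun v hv => ?_) _)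
    simp only [mem_filter, mem_range] at hv
    exact mem_fib.2 ⟨hv.1, lab_of_cen h a hv.1 b (near_iff.2 (by omega))⟩
  · refine Or.inr ⟨?_, a, ?_⟩
    · ext v
      rw [mem_fib, mem_singleton, a]
      refine ⟨fun hv => ?_, fun e => by rw [e]; exact ⟨hx, a⟩⟩
      rcases lab_cases I v with ⟨_, c, _⟩ | ⟨c, _⟩
      · rw [hv.2] at c
        exact absurd (near_self h hx) (b x hx c)
      · rw [← c, hv.2]
    · by_contra hc
      obtain ⟨y, y1, y2, y3⟩ := exists_cen h hx (clus_iff.2 (by omega))
      exact b y y1 y2 y3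

end Pool.Agent.Lib.MP_959bb6_lc.Eg
end

-- part Pool.Agent.Lib.MP_959bb6_lc.EdgeLP
section

/-!
The program on the clusters and the first graph.
-/

set_option autoImplicit false

namespace Pool.Agent.Lib.MP_959bb6_lc.Eg

open Pool.Agent.Shared.PolyTime Enc Finset

def rc (I : In) (j : ℕ) : ℕ := cntB j fun x => lab I x == x
def rk (I : In) (v : ℕ) : ℕ := rc I (lab I v)
def qq (I : In) (v : ℕ) : ℕ := cntB (nn I) fun w => lab I w == lab I v
def vld (I : In) (i : ℕ) : Bool :=
  Nat.blt (i / nn I) (i % nn I) && !(lab I (i / nn I) == lab I (i % nn I))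
def inv (I : In) (p : ℕ) : ℕ := first (nn I) fun v => rk I v == p

def lp (I : In) : Rnd.LP where
  m := nn I * nn I
  n' := rc I (nn I)
  N := rc I (nn I) + 2
  K := I.2.1 / 2 * 2
  a i := bif vld I i then rk I (i / nn I) else rc I (nn I)
  b i := bif vld I i then rk I (i % nn I) else rc I (nn I) + 1
  cn i := vld I i
  c i := bif vld I i then cc I (i / nn I) (i % nn I) else 0
  dem p := bif Nat.blt p (rc I (nn I)) then qq I (inv I p) * (I.2.1 + 1 - qq I (inv I p)) else 0
  N2 := nn I
  u i := bif vld I i then i / nn I else nn I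
  v i := bif vld I i then i % nn I else nn I + 1
  dem2 v := I.2.1 + 1 - qq I v

def sol (I : In) : List Bool := Rnd.out (lp I).code

def h0 (I : In) : Mat := tab2 (nn I) fun u v =>
  bif lab I u == lab I v then !(u == v) else bit1 (sol I) (min u v * nn I + max u v)

section
variable {α : Type} [Enc α]

@[fun_prop] theorem pf_rc {I : α → In} {u : α → ℕ} (h : PF I) (h1 : PF u) :
    PF fun a => rc (I a) (u a) := by unfold rc; fun_prop
@[fun_prop] theorem pf_rk {I : α → In} {u : α → ℕ} (h : PF I) (h1 : PF u) :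
    PF fun a => rk (I a) (u a) := by unfold rk; fun_prop
@[fun_prop] theorem pf_qq {I : α → In} {u : α → ℕ} (h : PF I) (h1 : PF u) :
    PF fun a => qq (I a) (u a) := by unfold qq; fun_prop
@[fun_prop] theorem pf_vld {I : α → In} {u : α → ℕ} (h : PF I) (h1 : PF u) :
    PF fun a => vld (I a) (u a) := by unfold vld; fun_prop
@[fun_prop] theorem pf_inv {I : α → In} {u : α → ℕ} (h : PF I) (h1 : PF u) :
    PF fun a => inv (I a) (u a) := by unfold inv; fun_prop
@[fun_prop] theorem pf_sol {I : α → In} (h : PF I) : PF fun a => sol (I a) := by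
  unfold sol
  apply Rnd.pf_out
  simp only [Rnd.LP.code, lp]
  fun_prop
@[fun_prop] theorem pf_h0 {I : α → In} (h : PF I) : PF fun a => h0 (I a) := by
  unfold h0; fun_prop

end

variable {I : In}

theorem qq_eq (I : In) (v : ℕ) : qq I v = (fib I v).card := by simp [qq, cntB_eq, fib]

theorem rc_lt {x y : ℕ} (hx : lab I x = x) (hxy : x < y) : rc I x < rc I y := by
  simp only [rc, cntB_eq]
  refine card_lt_card (Finset.ssubset_iff_subset_ne.2 ⟨filter_subset_filter _
    (range_mono hxy.le), fun e => ?_⟩)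
  have : x ∈ (range y).filter fun x => (lab I x == x) = true := by simp [hx, hxy]
  rw [← e] at this
  simp at this

theorem rk_lt (h : Ok I) {v : ℕ} (hv : v < nn I) : rk I v < rc I (nn I) :=
  rc_lt (lab_idem h v) (lab_lt hv)

theorem rk_inj (h : Ok I) {u v : ℕ} : rk I u = rk I v ↔ lab I u = lab I v := by
  refine ⟨fun e => ?_, fun e => by rw [rk, rk, e]⟩
  rcases lt_trichotomy (lab I u) (lab I v) with c | c | c
  · exact absurd e (rc_lt (lab_idem h u) c).ne
  · exact c
  · exact absurd e (rc_lt (lab_idem h v) c).ne'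

theorem rk_surj (h : Ok I) {p : ℕ} (hp : p < rc I (nn I)) :
    inv I p < nn I ∧ rk I (inv I p) = p := by
  have e : ((range (nn I)).filter fun x => (lab I x == x) = true).image (rk I) =
      range (rc I (nn I)) := by
    refine eq_of_subset_of_card_le (fun q hq => ?_) ?_
    · obtain ⟨v, hv, rfl⟩ := mem_image.1 hq
      exact mem_range.2 (rk_lt h (mem_range.1 (mem_filter.1 hv).1))
    · rw [card_image_of_injOn, card_range, rc, cntB_eq]
      intro u hu v hv e
      simp only [coe_filter, beq_iff_eq, Set.mem_ofPred_eq] at hu hv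
      rw [← hu.2, ← hv.2]
      exact (rk_inj h).1 e
  obtain ⟨v, hv, e'⟩ := mem_image.1 (e ▸ mem_range.2 hp)
  obtain ⟨a, b, _⟩ := first_spec (N := nn I) (p := fun v => rk I v == p)
    ⟨v, mem_range.1 (mem_filter.1 hv).1, by simp [e']⟩
  exact ⟨a, beq_iff_eq.1 b⟩

theorem vld_iff {i : ℕ} :
    vld I i = true ↔ i / nn I < i % nn I ∧ lab I (i / nn I) ≠ lab I (i % nn I) := by simp [vld]

theorem Ok.pos (h : Ok I) : 0 < nn I := by have := h.lt; omega

theorem vld_lt (h : Ok I) {i : ℕ} (hi : vld I i = true) : i / nn I < nn I ∧ i % nn I < nn I :=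
  ⟨(vld_iff.1 hi).1.trans (Nat.mod_lt _ h.pos), Nat.mod_lt _ h.pos⟩

theorem Ok.kbig (h : Ok I) : 640 * I.1 ^ 2 ≤ I.2.1 := by have := h.tbig; have := h.t10; omega

theorem lp_ok (h : Ok I) : (lp I).Ok := by
  have k1 := h.kbig
  have k2 := h.sq
  have k3 := h.ten
  refine ⟨by simp only [lp]; omega, by simp only [lp]; omega, by simp [lp], fun i _ => ?_,
    fun i _ => ?_, fun i _ => ?_, fun i _ hi => ?_, fun i _ hi => ?_,
    fun q => if q < nn I then rk I q else rc I (nn I) + (q - nn I), fun q hq => ?_,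
    fun i _ => ?_⟩
  · simp only [lp]
    cases hi : vld I i
    · simp
    · exact fun e => (vld_iff.1 hi).2 ((rk_inj h).1 e)
  · simp only [lp]
    cases hi : vld I i
    · simp
    · exact (rk_lt h (vld_lt h hi).1).trans (by omega)
  · simp only [lp]
    cases hi : vld I i
    · simp
    · exact (rk_lt h (vld_lt h hi).2).trans (by omega)
  · simp only [lp] at hi ⊢
    rw [hi]
    exact rk_lt h (vld_lt h hi).1
  · simp only [lp] at hi ⊢
    rw [hi]
    exact rk_lt h (vld_lt h hi).2
  · simp only [lp] at hq ⊢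
    rw [if_pos hq]
    exact (rk_lt h hq).trans (by omega)
  · simp only [lp]
    by_cases hi : vld I i = true
    · simp [vld_lt h hi, hi]
    · simp [hi]

/-- The edges of a graph between different classes. -/
def EE (I : In) (M : Mat) : Finset ℕ :=
  (range (nn I * nn I)).filter fun i => vld I i = true ∧ entry M (i / nn I) (i % nn I) = true

theorem sumE {M : Mat} (hs : Sym (nn I) M) (ψ : ℕ → ℕ → ℕ)
    (hψ : ∀ u v, u < nn I → v < nn I → lab I u = lab I v → ψ u v = 0) :
    ∑ i ∈ EE I M, (ψ (i / nn I) (i % nn I) + ψ (i % nn I) (i / nn I)) =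
      ∑ u ∈ range (nn I), ∑ v ∈ range (nn I), ind M u v * ψ u v := by
  have e := sum_pairs (n := nn I) (fun u v => ind M u v * (ψ u v + ψ v u))
    (fun x y hx hy => by rw [hs.ind hx hy, add_comm]) fun x hx => by simp [hψ x x hx hx rfl]
  have e2 : ∑ u ∈ range (nn I), ∑ v ∈ range (nn I), ind M u v * ψ v u =
      ∑ u ∈ range (nn I), ∑ v ∈ range (nn I), ind M u v * ψ u v := by
    rw [sum_comm]
    exact sum_congr rfl fun x hx => sum_congr rfl fun y hy => by
      rw [hs.ind (mem_range.1 hx) (mem_range.1 hy)]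
  simp only [mul_add, sum_add_distrib] at e
  rw [e2, ← two_mul] at e
  rw [Nat.eq_of_mul_eq_mul_left two_pos e, EE, sum_filter]
  refine sum_congr rfl fun i hi => ?_
  have hn : 0 < nn I := Nat.pos_of_ne_zero fun e => by simp [e] at hi
  have h1 := Nat.div_lt_of_lt_mul (mem_range.1 hi)
  have h2 := Nat.mod_lt i hn
  by_cases c : lab I (i / nn I) = lab I (i % nn I)
  · simp [hψ _ _ h1 h2 c, hψ _ _ h2 h1 c.symm]
  · simp only [vld_iff, ind_eq, ne_eq, c, not_false_eq_true, and_true]
    by_cases c1 : i / nn I < i % nn I <;> by_cases c2 : entry M (i / nn I) (i % nn I) = true <;>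
      simp [c1, c2]

/-- Edges leaving the class. -/
def od (I : In) (M : Mat) (u : ℕ) : ℕ :=
  ∑ v ∈ range (nn I), ind M u v * if lab I u = lab I v then 0 else 1

/-- Twice the cost of the edges between classes. -/
def oc (I : In) (M : Mat) : ℕ := ∑ u ∈ range (nn I), ∑ v ∈ range (nn I),
  ind M u v * if lab I u = lab I v then 0 else cc I u v

theorem cnt_cut (h : Ok I) {M : Mat} (hs : Sym (nn I) M) (S : Finset ℕ) :
    ((EE I M).filter ((lp I).cr S)).card =
      dcut (nn I) (ind M) ((range (nn I)).filter fun v => rk I v ∈ S) := by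
  have := sumE hs (fun u v => if rk I u ∈ S ∧ rk I v ∉ S then 1 else 0) fun u v _ _ e => by
    simp [(rk_inj h).2 e]
  rw [dcut_eq _ (filter_subset _ _), card_filter]
  refine (sum_congr rfl fun i hi => ?_).trans (this.trans (sum_congr rfl fun u hu =>
    sum_congr rfl fun v hv => ?_))
  · have := (mem_filter.1 hi).2.1
    simp only [Rnd.LP.cr, lp, this, cond_true, true_and]
    by_cases c1 : rk I (i / nn I) ∈ S <;> by_cases c2 : rk I (i % nn I) ∈ S <;> simp [c1, c2]
  · simp [hu, hv]

theorem dcut_fib (M : Mat) (x : ℕ) :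
    dcut (nn I) (ind M) (fib I x) = ∑ w ∈ fib I x, od I M w := by
  refine sum_congr rfl fun w hw => ?_
  rw [od, sdiff_eq_filter, sum_filter]
  refine sum_congr rfl fun v hv => ?_
  simp [mem_fib, mem_range.1 hv, (mem_fib.1 hw).2, eq_comm]

theorem cnt_star (h : Ok I) {M : Mat} (hs : Sym (nn I) M) (x : ℕ) :
    ((EE I M).filter ((lp I).hasEnd (rk I x))).card = ∑ w ∈ fib I x, od I M w := by
  have := cnt_cut h hs {rk I x}
  simp only [mem_singleton, rk_inj h] at this
  rw [← dcut_fib, fib, ← this]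
  refine congrArg card (filter_congr fun i hi => ?_)
  have := (mem_filter.1 hi).2.1
  have h2 := (vld_iff.1 this).2
  simp only [Rnd.LP.cr, Rnd.LP.hasEnd, lp, this, cond_true, true_and, mem_singleton, rk_inj h]
  grind

theorem cnt_fine {M : Mat} (hs : Sym (nn I) M) {x : ℕ} (hx : x < nn I) :
    ((EE I M).filter ((lp I).hasFine x)).card = od I M x := by
  have := sumE hs (fun u v => if u = x then (if lab I u = lab I v then 0 else 1) else 0)
    fun u v _ _ e => by simp [e]
  rw [card_filter]
  refine (sum_congr rfl fun i hi => ?_).trans (this.trans ?_)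
  · have := (mem_filter.1 hi).2.1
    have h2 := vld_iff.1 this
    simp only [Rnd.LP.hasFine, lp, this, cond_true]
    grind
  · rw [sum_eq_single_of_mem x (mem_range.2 hx) fun u _ hu => by simp [hu]]
    simp [od]

theorem cnt_cost (h : Ok I) {M : Mat} (hs : Sym (nn I) M) :
    2 * ∑ i ∈ EE I M, (lp I).c i = oc I M := by
  have := sumE hs (fun u v => if lab I u = lab I v then 0 else cc I u v)
    fun u v _ _ e => by simp [e]
  rw [mul_sum]
  refine (sum_congr rfl fun i hi => ?_).trans this
  have := (mem_filter.1 hi).2.1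
  have h2 := (vld_iff.1 this).2
  have h3 := vld_lt h this
  simp only [lp, this, cond_true, if_neg h2, if_neg h2.symm, h.met.symm _ _ h3.2 h3.1]
  omega

theorem deg_split (M : Mat) (u : ℕ) :
    deg (nn I) M u = od I M u + ∑ v ∈ fib I u, ind M u v := by
  rw [deg_sum, od, fib, sum_filter, ← sum_add_distrib]
  refine sum_congr rfl fun v _ => ?_
  by_cases c : lab I u = lab I v
  · simp [c]
  · simp [c, Ne.symm c]

theorem self_mem_fib {u : ℕ} (hu : u < nn I) : u ∈ fib I u := mem_fib.2 ⟨hu, rfl⟩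

theorem in_le {M : Mat} (hs : Sym (nn I) M) {u : ℕ} (hu : u < nn I) :
    ∑ v ∈ fib I u, ind M u v + 1 ≤ (fib I u).card := by
  rw [← add_sum_erase _ _ (self_mem_fib hu), ind_false (hs.irr u hu),
    ← card_erase_add_one (self_mem_fib hu), zero_add, card_eq_sum_ones]
  exact Nat.add_le_add_right (sum_le_sum fun v _ => ind_le _ _ _) _

/-- The classes are cliques. -/
def Clq (I : In) (M : Mat) : Prop :=
  ∀ u v, u < nn I → v < nn I → lab I u = lab I v → u ≠ v → entry M u v = true

theorem in_eq {M : Mat} (hs : Sym (nn I) M) (hc : Clq I M) {u : ℕ} (hu : u < nn I) :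
    ∑ v ∈ fib I u, ind M u v + 1 = (fib I u).card := by
  rw [← add_sum_erase _ _ (self_mem_fib hu), ind_false (hs.irr u hu),
    ← card_erase_add_one (self_mem_fib hu), zero_add, card_eq_sum_ones]
  refine congrArg (· + 1) (sum_congr rfl fun v hv => ind_true ?_)
  obtain ⟨a, b⟩ := mem_erase.1 hv
  exact hc u v hu (mem_fib.1 b).1 (mem_fib.1 b).2.symm a.symm

/-- Cuts that do not split a class have at least `l` edges. -/
def NCuts (I : In) (M : Mat) (l : ℕ) : Prop :=
  ∀ U : Finset ℕ, U ⊆ range (nn I) → U.Nonempty → U ≠ range (nn I) →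
    (∀ u ∈ U, fib I u ⊆ U) → l ≤ dcut (nn I) (ind M) U

theorem sym_h0 : Sym (nn I) (h0 I) := by
  refine ⟨fun u v hu hv => ?_, fun u hu => by simp [h0, entry_tab2 _ hu hu]⟩
  rw [h0, entry_tab2 _ hu hv, entry_tab2 _ hv hu, min_comm, max_comm, Bool.beq_comm,
    Bool.beq_comm (a := u)]

theorem clq_h0 : Clq I (h0 I) := fun u v hu hv e hne => by
  simp [h0, entry_tab2 _ hu hv, e, hne]

theorem EE_h0 (h : Ok I) : EE I (h0 I) =
    (setOf1 (lp I).m (sol I)).filter fun i => vld I i = true := by
  ext i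
  simp only [EE, mem_filter, mem_setOf1, mem_range, lp]
  by_cases hi : vld I i = true
  · obtain ⟨a, b⟩ := vld_iff.1 hi
    obtain ⟨c, d⟩ := vld_lt h hi
    rw [h0, entry_tab2 _ c d, min_eq_left a.le, max_eq_right a.le, Nat.div_add_mod',
      show (lab I (i / nn I) == lab I (i % nn I)) = false by simpa using b]
    simp [hi]
  · simp [hi]

theorem h0_spec (h : Ok I) {G : Mat} (hs : Sym (nn I) G) (hG : Cuts (nn I) G I.2.1) :
    NCuts I (h0 I) (I.2.1 - 3) ∧
    (∀ x, x < nn I → (fib I x).card * I.2.1 ≤ ∑ w ∈ fib I x, deg (nn I) (h0 I) w + 4) ∧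
    (∀ x, x < nn I → I.2.1 ≤ deg (nn I) (h0 I) x + 6) ∧ oc I (h0 I) ≤ oc I G + 2 := by
  have hn : 2 ≤ nn I := by
    have := h.lt; have := h.kbig; have := h.sq; have := h.ten; omega
  have hod : ∀ x, x < nn I → I.2.1 + 1 - (fib I x).card ≤ od I G x := fun x hx => by
    have := hG.deg hn hx
    have := deg_split (I := I) G x
    have := in_le hs hx
    omega
  obtain ⟨o1, o2, o3, o4⟩ := Rnd.round_spec (lp_ok h) (F := EE I G) (filter_subset _ _)
    (fun S ⟨s1, s2, p, s3⟩ => by
      rw [cnt_cut h hs]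
      refine (Nat.div_mul_le_self _ _).trans (hG _ (filter_subset _ _) ?_ fun e => ?_)
      · obtain ⟨a, b⟩ := rk_surj h (mem_range.1 (s1 s3))
        exact ⟨_, mem_filter.2 ⟨mem_range.2 a, b.symm ▸ s3⟩⟩
      · obtain ⟨a, b⟩ := rk_surj h (p := 0) (by have := mem_range.1 (s1 s3); simp only [lp] at this; omega)
        have := mem_range.2 a
        rw [← e, mem_filter, b] at this
        exact s2 this.2)
    (fun p _ => by
      by_cases c : p < rc I (nn I)
      · obtain ⟨a, b⟩ := rk_surj h c
        have := cnt_star h hs (inv I p)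
        rw [b] at this
        rw [this]
        simp only [lp, show Nat.blt p (rc I (nn I)) = true from Nat.blt_eq.symm ▸ c, cond_true,
          qq_eq]
        rw [← smul_eq_mul]
        refine card_nsmul_le_sum _ _ _ fun w hw => ?_
        rw [← fib_congr (mem_fib.1 hw).2]
        exact hod w (mem_fib.1 hw).1
      · simp [lp, Bool.cond_eq_ite, c])
    fun p hp => by
      rw [cnt_fine hs hp]
      simpa [lp, qq_eq] using hod p hp
  change ∀ S, _ → _ ≤ ((setOf1 (lp I).m (sol I)).filter _).card + 2 at o1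
  change ∀ S, _ → _ ≤ ((setOf1 (lp I).m (sol I)).filter _).card + 4 at o2
  change ∀ S, _ → _ ≤ ((setOf1 (lp I).m (sol I)).filter _).card + 6 at o3
  change ∑ i ∈ setOf1 (lp I).m (sol I), _ ≤ _ at o4
  have ff : ∀ (p : ℕ → Prop) [DecidablePred p], (∀ i, p i → vld I i = true) →
      (setOf1 (lp I).m (sol I)).filter p = (EE I (h0 I)).filter p := fun p _ hp => by
    rw [EE_h0 h, filter_filter]
    exact filter_congr fun i _ => ⟨fun a => ⟨hp i a, a⟩, fun a => a.2⟩
  refine ⟨?_, fun x hx => ?_, fun x hx => ?_, ?_⟩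
  · have aux : ∀ U : Finset ℕ, U ⊆ range (nn I) → U.Nonempty → inv I 0 ∉ U →
        (∀ u ∈ U, fib I u ⊆ U) → I.2.1 - 3 ≤ dcut (nn I) (ind (h0 I)) U := by
      intro U h1 h2 h3 h4
      obtain ⟨a, b⟩ := rk_surj h (p := 0) (by have := rk_lt h h.pos; omega)
      have e : (range (nn I)).filter (fun v => rk I v ∈ U.image (rk I)) = U := by
        ext v
        simp only [mem_filter, mem_image, mem_range]
        exact ⟨fun ⟨c, u, hu, e⟩ => h4 u hu (mem_fib.2 ⟨c, ((rk_inj h).1 e).symm⟩),
          fun c => ⟨mem_range.1 (h1 c), v, c, rfl⟩⟩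
      have := o1 (U.image (rk I)) ⟨fun p hp => by
        obtain ⟨u, hu, rfl⟩ := mem_image.1 hp
        exact mem_range.2 (rk_lt h (mem_range.1 (h1 hu))), fun c => h3 (by
          rw [← e]; exact mem_filter.2 ⟨mem_range.2 a, b.symm ▸ c⟩), h2.image _⟩
      rw [ff _ fun i hi => hi.1, cnt_cut h sym_h0, e] at this
      simp only [lp] at this
      omega
    intro U h1 h2 h3 h4
    by_cases c : inv I 0 ∈ U
    · rw [← dcut_compl (fun x y hx hy => sym_h0.ind hx hy) h1]
      refine aux _ sdiff_subset (sdiff_nonempty.2 fun e => h3 (Subset.antisymm h1 e))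
        (by simp [c]) fun u hu v hv => mem_sdiff.2 ⟨fib_subset _ _ hv, fun hv' => ?_⟩
      obtain ⟨a, b⟩ := mem_sdiff.1 hu
      exact b (h4 v hv' (mem_fib.2 ⟨mem_range.1 a, (mem_fib.1 hv).2.symm⟩))
    · exact aux U h1 h2 c h4
  · have c := rk_lt h hx
    obtain ⟨a, b⟩ := rk_surj h c
    have := o2 (rk I x) (c.trans (by simp [lp]))
    rw [ff _ fun i hi => by
      by_contra c'
      simp only [Rnd.LP.hasEnd, lp, Bool.eq_false_iff.2 c', cond_false] at hi
      omega, cnt_star h sym_h0] at this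
    simp only [lp, show Nat.blt (rk I x) (rc I (nn I)) = true from Nat.blt_eq.symm ▸ c, cond_true,
      qq_eq, fib_congr ((rk_inj h).1 b)] at this
    have e : ∑ w ∈ fib I x, deg (nn I) (h0 I) w + (fib I x).card =
        ∑ w ∈ fib I x, od I (h0 I) w + (fib I x).card * (fib I x).card := by
      rw [← smul_eq_mul, ← sum_const, ← sum_add_distrib, card_eq_sum_ones (fib I x),
        ← sum_add_distrib, ← card_eq_sum_ones]
      refine sum_congr rfl fun w hw => ?_
      rw [deg_split, add_assoc, in_eq sym_h0 clq_h0 (mem_fib.1 hw).1, fib_congr (mem_fib.1 hw).2]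
    have f := fib_le h hx
    obtain ⟨j, hj⟩ := Nat.exists_eq_add_of_le f
    rw [hj] at this ⊢
    rw [show (fib I x).card + j + 1 - (fib I x).card = j + 1 by omega] at this
    nlinarith
  · have := o3 x hx
    rw [ff _ fun i hi => by
      by_contra c'
      simp only [Rnd.LP.hasFine, lp, Bool.eq_false_iff.2 c', cond_false] at hi
      omega, cnt_fine sym_h0 hx] at this
    simp only [lp, qq_eq] at this
    have := deg_split (I := I) (h0 I) x
    have := in_eq sym_h0 clq_h0 hx
    omega
  · rw [← cnt_cost h hs, ← cnt_cost h sym_h0, EE_h0 h, sum_filter_of_ne fun i _ hi => by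
      by_contra c'
      simp [lp, Bool.eq_false_iff.2 c'] at hi]
    omega

end Pool.Agent.Lib.MP_959bb6_lc.Eg
end

-- part Pool.Agent.Lib.MP_959bb6_lc.EdgeRep
section

/-!
Repair of the degrees.
-/

set_option autoImplicit false

namespace Pool.Agent.Lib.MP_959bb6_lc.Eg

open Pool.Agent.Shared.PolyTime Enc Finset

def dw (I : In) (M : Mat) : ℕ := first (nn I) fun w => Nat.blt (deg (nn I) M w) I.2.1
def sw (I : In) (M : Mat) : ℕ :=
  first (nn I) fun y => lab I y == lab I (dw I M) && Nat.blt I.2.1 (deg (nn I) M y)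
def z1 (I : In) (M : Mat) : ℕ :=
  first (nn I) fun z => entry M (sw I M) z && !(entry M (dw I M) z) && !(z == dw I M)
def z2 (I : In) (M : Mat) : ℕ := first (nn I) fun z =>
  Nat.ble (cc I (dw I M) z) (rad I (dw I M)) && !(entry M (dw I M) z) && !(z == dw I M)
def rstep (I : In) (M : Mat) : Mat :=
  nrm (nn I) (bif Nat.blt (dw I M) (nn I) then
    bif Nat.blt (sw I M) (nn I) then
      addE (nn I) (delE (nn I) M (sw I M) (z1 I M)) (dw I M) (z1 I M)
    else addE (nn I) M (dw I M) (z2 I M) else M)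
def h1 (I : In) : Mat := (rstep I)^[nn I * nn I] (h0 I)

section
variable {α : Type} [Enc α]

@[fun_prop] theorem pf_dw {I : α → In} {M : α → Mat} (h : PF I) (h1 : PF M) :
    PF fun a => dw (I a) (M a) := by unfold dw; fun_prop
@[fun_prop] theorem pf_sw {I : α → In} {M : α → Mat} (h : PF I) (h1 : PF M) :
    PF fun a => sw (I a) (M a) := by unfold sw; fun_prop
@[fun_prop] theorem pf_z1 {I : α → In} {M : α → Mat} (h : PF I) (h1 : PF M) :
    PF fun a => z1 (I a) (M a) := by unfold z1; fun_prop
@[fun_prop] theorem pf_z2 {I : α → In} {M : α → Mat} (h : PF I) (h1 : PF M) :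
    PF fun a => z2 (I a) (M a) := by unfold z2; fun_prop
@[fun_prop] theorem pf_rstep {I : α → In} {M : α → Mat} (h : PF I) (h1 : PF M) :
    PF fun a => rstep (I a) (M a) := by unfold rstep; fun_prop
@[fun_prop] theorem pf_h1 {I : α → In} (h : PF I) : PF fun a => h1 (I a) :=
  pf_iter (st := fun a M => rstep (I a) M) (fun a => nn (I a) * (2 * (nn (I a) * 3) + 1))
    (by fun_prop) (by fun_prop) (by fun_prop) (by fun_prop) fun _ _ => len_mat _ _

end

variable {I : In}

/-- Total deficiency. -/
def dfc (I : In) (M : Mat) : ℕ := ∑ w ∈ range (nn I), (I.2.1 - deg (nn I) M w)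

/-- Representatives of the classes. -/
def reps (I : In) : Finset ℕ := (range (nn I)).filter fun x => lab I x = x

/-- The potential. -/
def pot (I : In) (M : Mat) : ℕ := I.1 * cst2 (nn I) (cc I) M +
  12 * ∑ w ∈ range (nn I), (I.2.1 - deg (nn I) M w) * rad I (lab I w) +
  4 * I.1 * ∑ x ∈ reps I, ((fib I x).card * I.2.1 - ∑ w ∈ fib I x, deg (nn I) M w) * rad I x

/-- The invariant of the repair. -/
structure RInv (I : In) (M : Mat) : Prop where
  tab : nrm (nn I) M = M
  sym : Sym (nn I) M
  clq : Clq I M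
  cut : NCuts I M (I.2.1 - 3)

theorem rstep_spec (h : Ok I) {M : Mat} (hM : RInv I M) : RInv I (rstep I M) ∧
    pot I (rstep I M) ≤ pot I M ∧ dfc I (rstep I M) ≤ dfc I M - 1 := by
  by_cases c1 : dw I M < nn I
  swap
  · have e : rstep I M = M := by simp [rstep, Bool.cond_eq_ite, c1, hM.tab]
    rw [e]
    refine ⟨hM, le_rfl, (sum_eq_zero fun w hw => ?_).le.trans (Nat.zero_le _)⟩
    by_contra hc
    exact c1 (first_lt_iff.2 ⟨w, mem_range.1 hw, by rw [Nat.blt_eq]; omega⟩)
  have w2 : deg (nn I) M (dw I M) < I.2.1 := by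
    simpa [dw] using (first_spec (first_lt_iff.1 c1)).2.1
  have hx := lab_lt c1
  have hxr : lab I (dw I M) ∈ reps I := mem_filter.2 ⟨mem_range.2 hx, lab_idem h _⟩
  have dd : ∀ (M' : Mat) (f : ℕ → ℕ), deg (nn I) M' (dw I M) = deg (nn I) M (dw I M) + 1 →
      (∀ v, v < nn I → I.2.1 - deg (nn I) M' v ≤ I.2.1 - deg (nn I) M v) →
      ∑ w ∈ range (nn I), (I.2.1 - deg (nn I) M' w) * f w + f (dw I M) ≤
        ∑ w ∈ range (nn I), (I.2.1 - deg (nn I) M w) * f w := by
    intro M' f a b
    rw [← add_sum_erase _ _ (mem_range.2 c1), ← add_sum_erase _ _ (mem_range.2 c1), a,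
      show I.2.1 - deg (nn I) M (dw I M) = I.2.1 - (deg (nn I) M (dw I M) + 1) + 1 by omega]
    have := sum_le_sum (s := (range (nn I)).erase (dw I M)) fun v hv =>
      Nat.mul_le_mul_right (f v) (b v (mem_range.1 (mem_of_mem_erase hv)))
    rw [add_mul]
    omega
  by_cases c2 : sw I M < nn I
  · obtain ⟨y1, y2⟩ : lab I (sw I M) = lab I (dw I M) ∧ I.2.1 < deg (nn I) M (sw I M) := by
      simpa [sw] using (first_spec (first_lt_iff.1 c2)).2.1
    obtain ⟨z, a1, a2, a3⟩ := exists_new (M := M) (dw I M) (filter_subset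
      (fun v => entry M (sw I M) v = true) (range (nn I))) (by rw [← deg_eq]; omega)
    obtain ⟨b1, b2, _⟩ := first_spec (N := nn I) (p := fun z =>
      entry M (sw I M) z && !(entry M (dw I M) z) && !(z == dw I M))
      ⟨z, mem_range.1 (mem_filter.1 a1).1, by simp [(mem_filter.1 a1).2, a2, a3]⟩
    have e : rstep I M = addE (nn I) (delE (nn I) M (sw I M) (z1 I M)) (dw I M) (z1 I M) := by
      simp only [rstep, Bool.cond_eq_ite, Nat.blt_eq, c1, c2, if_true]
      exact nrm_tab2 _ _
    change z1 I M < _ at b1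
    change (entry M (sw I M) (z1 I M) && !(entry M (dw I M) (z1 I M)) &&
      !(z1 I M == dw I M)) = true at b2
    simp only [Bool.and_eq_true, Bool.not_eq_true', beq_eq_false_iff_ne] at b2
    rw [e]
    generalize dw I M = w at *
    generalize sw I M = y at *
    clear a1 a2 a3 z
    generalize z1 I M = z at *
    obtain ⟨⟨b2, b3⟩, b4⟩ := b2
    have s1 := hM.sym.delE y z
    have n1 : entry (delE (nn I) M y z) w z = false := by
      rw [Bool.eq_false_iff, ne_eq, entry_delE _ _ _ c1 b1]; simp [b3]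
    have lz : lab I w ≠ lab I z := fun e => by
      have := hM.clq w z c1 b1 e b4.symm
      simp [b3] at this
    have yw : y ≠ w := fun e => by rw [e] at y2; omega
    have yz : y ≠ z := fun e => lz (e ▸ y1.symm)
    have hd : ∀ v, v < nn I → deg (nn I) (addE (nn I) (delE (nn I) M y z) w z) v +
        (if v = y then 1 else 0) = deg (nn I) M v + if v = w then 1 else 0 := fun v hv => by
      rw [deg_addE s1 c1 b1 b4.symm n1 hv, deg_delE hM.sym c2 b1 b2 hv]
      omega
    have hd1 := hd w c1
    simp only [if_neg yw.symm, if_true, add_zero] at hd1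
    have hd2 : ∀ v, v < nn I → I.2.1 - deg (nn I) (addE (nn I) (delE (nn I) M y z) w z) v ≤
        I.2.1 - deg (nn I) M v := fun v hv => by
      have := hd v hv
      by_cases e : v = y
      · subst e; simp only [if_true, if_neg yw] at this; omega
      · simp only [if_neg e] at this; omega
    refine ⟨⟨nrm_tab2 _ _, s1.addE b4.symm, fun u v hu hv e hne => ?_,
      fun U u1 u2 u3 u4 => ?_⟩, ?_, ?_⟩
    · rw [entry_addE _ _ _ hu hv, entry_delE _ _ _ hu hv]
      have := hM.clq u v hu hv e hne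
      grind
    · have := hM.cut U u1 u2 u3 u4
      rw [dcut_delE hM.sym c2 b1 b2 u1] at this
      rw [dcut_addE s1 c1 b1 b4.symm n1 u1]
      have : w ∈ U ↔ y ∈ U := ⟨fun a => u4 w a (mem_fib.2 ⟨c2, y1⟩),
        fun a => u4 y a (mem_fib.2 ⟨c1, y1.symm⟩)⟩
      simpa only [this]
    · have p1 := cst2_addE s1 c1 b1 b4.symm n1 (cc I)
      have p2 := cst2_delE hM.sym c2 b1 b2 (cc I)
      have p3 := dd _ (fun v => rad I (lab I v)) hd1 hd2
      have p4 : ∀ x ∈ reps I, ∑ v ∈ fib I x, deg (nn I) (addE (nn I) (delE (nn I) M y z) w z) v =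
          ∑ v ∈ fib I x, deg (nn I) M v := fun x _ => by
        have := sum_congr rfl fun v (hv : v ∈ fib I x) => hd v (mem_fib.1 hv).1
        simp only [sum_add_distrib, sum_ite_eq', mem_fib, c1, c2, y1] at this
        omega
      have p5 := fib_diam h c1 (mem_fib.2 ⟨c2, y1⟩)
      have p6 := h.stri c1 c2 b1
      rw [h.met.symm z w b1 c1] at p1
      rw [h.met.symm z y b1 c2] at p2
      simp only [pot]
      rw [sum_congr (s₁ := reps I) rfl fun x hx => by rw [p4 x hx], p1, p2]
      simp only [mul_add] at *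
      omega
    · have := dd _ (fun _ => 1) hd1 hd2
      simp only [mul_one] at this
      exact Nat.le_sub_one_of_lt this
  · have y1 : ∀ y ∈ fib I (dw I M), deg (nn I) M y ≤ I.2.1 := fun y hy => by
      by_contra hc
      exact c2 (first_lt_iff.2 ⟨y, (mem_fib.1 hy).1, by simp [(mem_fib.1 hy).2]; omega⟩)
    obtain ⟨z, a1, a2, a3⟩ := exists_new (M := M) (dw I M) (filter_subset
      (fun v => cc I (dw I M) v ≤ rad I (dw I M)) (range (nn I)))
      (by have := (rad_spec h (dw I M)).1; omega)
    obtain ⟨b1, b2, _⟩ := first_spec (N := nn I) (p := fun z =>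
      Nat.ble (cc I (dw I M) z) (rad I (dw I M)) && !(entry M (dw I M) z) && !(z == dw I M))
      ⟨z, mem_range.1 (mem_filter.1 a1).1, by simp [(mem_filter.1 a1).2, a2, a3]⟩
    have e : rstep I M = addE (nn I) M (dw I M) (z2 I M) := by
      simp only [rstep, Bool.cond_eq_ite, Nat.blt_eq, c1, c2, if_true, if_false]
      exact nrm_tab2 _ _
    change z2 I M < _ at b1
    change (Nat.ble (cc I (dw I M) (z2 I M)) (rad I (dw I M)) && !(entry M (dw I M) (z2 I M)) &&
      !(z2 I M == dw I M)) = true at b2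
    simp only [Bool.and_eq_true, Bool.not_eq_true', beq_eq_false_iff_ne, Nat.ble_eq] at b2
    rw [e]
    generalize dw I M = w at *
    clear a1 a2 a3 z
    generalize z2 I M = z at *
    obtain ⟨⟨b2, b3⟩, b4⟩ := b2
    have hd := fun v (hv : v < nn I) => deg_addE hM.sym c1 b1 b4.symm b3 hv
    have hd1 := hd w c1
    simp only [if_neg b4.symm, if_true, add_zero] at hd1
    have hd2 : ∀ v, v < nn I → deg (nn I) M v ≤ deg (nn I) (addE (nn I) M w z) v :=
      fun v hv => by have := hd v hv; omega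
    have hd3 := fun v hv => Nat.sub_le_sub_left (hd2 v hv) I.2.1
    refine ⟨⟨nrm_tab2 _ _, hM.sym.addE b4.symm, fun u v hu hv e hne => ?_,
      fun U u1 u2 u3 u4 => ?_⟩, ?_, ?_⟩
    · rw [entry_addE _ _ _ hu hv]
      exact Or.inl (hM.clq u v hu hv e hne)
    · have := hM.cut U u1 u2 u3 u4
      rw [dcut_addE hM.sym c1 b1 b4.symm b3 u1]
      omega
    · have p1 := cst2_addE hM.sym c1 b1 b4.symm b3 (cc I)
      have p3 := dd _ (fun v => rad I (lab I v)) hd1 hd3
      have p4 : ∀ x ∈ reps I, ∑ v ∈ fib I x, deg (nn I) M v ≤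
          ∑ v ∈ fib I x, deg (nn I) (addE (nn I) M w z) v := fun x _ =>
        sum_le_sum fun v hv => hd2 v (mem_fib.1 hv).1
      have p5 : ∑ v ∈ fib I w, deg (nn I) M v < ∑ v ∈ fib I w, deg (nn I) (addE (nn I) M w z) v :=
        sum_lt_sum (fun v hv => hd2 v (mem_fib.1 hv).1) ⟨w, self_mem_fib c1, by omega⟩
      have p6 : ∑ v ∈ fib I w, deg (nn I) M v < (fib I w).card * I.2.1 := by
        rw [← smul_eq_mul, ← sum_const]
        exact sum_lt_sum y1 ⟨w, self_mem_fib c1, w2⟩
      have p7 := sum_le_sum (s := (reps I).erase (lab I w)) fun x hx =>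
        Nat.mul_le_mul_right (rad I x) (Nat.sub_le_sub_left (p4 x (mem_of_mem_erase hx))
          ((fib I x).card * I.2.1))
      have p8 := fib_open h c1 (self_mem_fib c1)
      have p9 := rad_lip h hx c1
      have p10 := Nat.mul_le_mul_right (rad I (lab I w)) (show (fib I w).card * I.2.1 -
        ∑ v ∈ fib I w, deg (nn I) (addE (nn I) M w z) v + 1 ≤ (fib I w).card * I.2.1 -
          ∑ v ∈ fib I w, deg (nn I) M v by omega)
      rw [h.met.symm z w b1 c1] at p1
      simp only [pot]
      rw [← add_sum_erase _ _ hxr, ← add_sum_erase _ _ hxr, fib_congr (lab_idem h w), p1]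
      have p11 := Nat.mul_le_mul_left I.1 (show 2 * cc I w z ≤ 4 * rad I (lab I w) by omega)
      have p12 := Nat.mul_le_mul_left I.1 (Nat.add_le_add p10 p7)
      nlinarith
    · have := dd _ (fun _ => 1) hd1 hd3
      simp only [mul_one] at this
      exact Nat.le_sub_one_of_lt this

theorem charge (h : Ok I) {G : Mat} (hG : Cuts (nn I) G I.2.1) (hs : Sym (nn I) G) {w : ℕ}
    (hw : w < nn I) : (((fib I w).filter fun v => entry G w v = false ∧ v ≠ w).card + 1) *
      rad I (lab I w) ≤ 2 * cstAt (nn I) (cc I) G w := by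
  have hn : 2 ≤ nn I := by
    have := h.lt; have := h.kbig; have := h.sq; have := h.ten; omega
  have hx := lab_lt hw
  have a1 := hG.deg hn hw
  have a2 := (rad_spec h (lab I w)).2
  rw [deg_eq, ← card_filter_add_card_filter_not fun v => cc I (lab I w) v < rad I (lab I w)] at a1
  have a3 : (insert w (((fib I w).filter fun v => entry G w v = false ∧ v ≠ w) ∪
      ((range (nn I)).filter fun v => entry G w v = true).filter
        fun v => cc I (lab I w) v < rad I (lab I w))).card ≤ _ := card_le_card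
      (t := (range (nn I)).filter fun v => cc I (lab I w) v < rad I (lab I w)) fun v hv => by
    simp only [mem_insert, mem_union, mem_filter] at hv ⊢
    rcases hv with rfl | hv | hv
    · have := fib_open h hw (self_mem_fib hw)
      exact ⟨mem_range.2 hw, by omega⟩
    · have := fib_open h hw hv.1
      exact ⟨fib_subset _ _ hv.1, by omega⟩
    · exact ⟨hv.1.1, hv.2⟩
  rw [card_insert_of_notMem (by simp [hs.irr w hw]), card_union_of_disjoint (by
    rw [Finset.disjoint_left]
    intro v h1 h2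
    simp only [mem_filter] at h1 h2
    simp [h1.2.1] at h2)] at a3
  refine (Nat.mul_le_mul_right _ (show _ ≤ (((range (nn I)).filter fun v =>
    entry G w v = true).filter fun v => ¬ cc I (lab I w) v < rad I (lab I w)).card by
      omega)).trans ?_
  rw [cstAt, mul_sum, ← smul_eq_mul, ← sum_const, filter_filter, sum_filter]
  refine sum_le_sum fun v hv => ?_
  split_ifs with c
  · have := fib_open h hw (self_mem_fib hw)
    have := h.met.tri _ w v hx hw (mem_range.1 hv)
    rw [ind_true c.1]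
    omega
  · exact Nat.zero_le _

theorem charge2 (h : Ok I) {G : Mat} (hG : Cuts (nn I) G I.2.1) (hs : Sym (nn I) G) {x : ℕ}
    (hx : x ∈ reps I) : 16 * I.1 * rad I x ≤ ∑ w ∈ fib I x, cstAt (nn I) (cc I) G w := by
  obtain ⟨hx, hl⟩ := mem_filter.1 hx
  rw [mem_range] at hx
  have k1 := h.kbig
  have k2 := h.sq
  have k3 := h.t10
  have k4 := h.tbig
  rcases fib_size h hx with c | ⟨c1, _, c3⟩
  · have : (fib I x).card • rad I x ≤ ∑ w ∈ fib I x, 2 * cstAt (nn I) (cc I) G w :=
      card_nsmul_le_sum _ _ _ fun w hw => by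
        have := charge h hG hs (mem_fib.1 hw).1
        rw [(mem_fib.1 hw).2, hl, add_mul] at this
        omega
    rw [← mul_sum, smul_eq_mul] at this
    have := Nat.mul_le_mul_right (rad I x) (show 32 * I.1 ≤ (fib I x).card by omega)
    nlinarith
  · have hn : 2 ≤ nn I := by have := h.lt; have := h.ten; omega
    have a1 := hG.deg hn hx
    rw [deg_eq, ← card_filter_add_card_filter_not fun v => I.1 * cc I x v ≤ rad I x] at a1
    have a2 := card_le_card (filter_subset_filter (fun v => I.1 * cc I x v ≤ rad I x)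
      (filter_subset (fun v => entry G x v = true) (range (nn I))))
    have a3 : (((range (nn I)).filter fun v => entry G x v = true).filter
        fun v => ¬ I.1 * cc I x v ≤ rad I x).card * rad I x ≤ I.1 * cstAt (nn I) (cc I) G x := by
      rw [cstAt, mul_sum, ← smul_eq_mul, ← sum_const, filter_filter, sum_filter]
      refine sum_le_sum fun v _ => ?_
      split_ifs with c
      · rw [ind_true c.1, one_mul]; omega
      · exact Nat.zero_le _
    rw [c1, sum_singleton]
    have a4 := (Nat.mul_le_mul_right (rad I x) (show 16 * I.1 ^ 2 ≤ _ by omega)).trans a3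
    refine Nat.le_of_mul_le_mul_left ?_ (show 0 < I.1 by have := h.ten; omega)
    nlinarith

theorem sum_reps (h : Ok I) (f : ℕ → ℕ) :
    ∑ x ∈ reps I, ∑ w ∈ fib I x, f w = ∑ w ∈ range (nn I), f w := by
  rw [← sum_fiberwise_of_maps_to (s := range (nn I)) (t := reps I) (g := lab I) fun v hv =>
    mem_filter.2 ⟨mem_range.2 (lab_lt (mem_range.1 hv)), lab_idem h v⟩]
  exact sum_congr rfl fun x hx => by rw [fib, (mem_filter.1 hx).2]

theorem cst2_split (M : Mat) : cst2 (nn I) (cc I) M =
    oc I M + ∑ u ∈ range (nn I), ∑ v ∈ fib I u, ind M u v * cc I u v := by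
  rw [cst2, oc, ← sum_add_distrib]
  refine sum_congr rfl fun u _ => ?_
  rw [cstAt, fib, sum_filter, ← sum_add_distrib]
  refine sum_congr rfl fun v _ => ?_
  by_cases c : lab I u = lab I v
  · simp [c]
  · simp [c, Ne.symm c]

theorem h1_spec (h : Ok I) {G : Mat} (hs : Sym (nn I) G) (hG : Cuts (nn I) G I.2.1) :
    nrm (nn I) (h1 I) = h1 I ∧ Sym (nn I) (h1 I) ∧ Cuts (nn I) (h1 I) (I.2.1 - tt I) ∧
      (∀ w, w < nn I → I.2.1 ≤ deg (nn I) (h1 I) w) ∧
      I.1 * cst2 (nn I) (cc I) (h1 I) ≤ (I.1 + 158) * cst2 (nn I) (cc I) G := by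
  obtain ⟨o1, o2, o3, o4⟩ := h0_spec h hs hG
  have key : ∀ j, RInv I ((rstep I)^[j] (h0 I)) ∧ pot I ((rstep I)^[j] (h0 I)) ≤ pot I (h0 I) ∧
      dfc I ((rstep I)^[j] (h0 I)) ≤ dfc I (h0 I) - j := by
    intro j
    induction j with
    | zero => exact ⟨⟨nrm_tab2 _ _, sym_h0, clq_h0, o1⟩, le_rfl, le_rfl⟩
    | succ j ih =>
      rw [Function.iterate_succ_apply']
      obtain ⟨a, b, c⟩ := rstep_spec h ih.1
      exact ⟨a, b.trans ih.2.1, by omega⟩
  obtain ⟨a, b, c⟩ := key (nn I * nn I)
  change RInv I (h1 I) at a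
  change pot I (h1 I) ≤ _ at b
  change dfc I (h1 I) ≤ _ at c
  have k1 := h.tbig
  have k2 := h.sq
  have k3 := h.ten
  refine ⟨a.tab, a.sym, fun U u1 u2 u3 => ?_, fun w hw => ?_, ?_⟩
  · by_cases hc : ∀ u ∈ U, fib I u ⊆ U
    · have := a.cut U u1 u2 u3 hc
      omega
    push Not at hc
    obtain ⟨u, hu, hc⟩ := hc
    obtain ⟨v, v1, v2⟩ := not_subset.1 hc
    have hu' := mem_range.1 (u1 hu)
    have e1 : ((fib I u).filter (· ∈ U)).card * ((fib I u).filter (· ∉ U)).card ≤
        dcut (nn I) (ind (h1 I)) U := by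
      rw [← smul_eq_mul, ← sum_const]
      refine (sum_le_sum fun x hx => ?_).trans (sum_le_sum_of_subset fun x hx => (mem_filter.1 hx).2)
      rw [card_eq_sum_ones]
      refine (sum_le_sum fun y hy => ?_).trans (sum_le_sum_of_subset fun y hy =>
        mem_sdiff.2 ⟨fib_subset _ _ (mem_filter.1 hy).1, (mem_filter.1 hy).2⟩)
      simp only [mem_filter, mem_fib] at hx hy
      exact (ind_true (a.clq x y hx.1.1 hy.1.1 (hx.1.2.trans hy.1.2.symm)
        fun e => hy.2 (e ▸ hx.2))).ge
    have e2 := card_filter_add_card_filter_not (s := fib I u) (· ∈ U)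
    have e3 : 0 < ((fib I u).filter (· ∈ U)).card :=
      card_pos.2 ⟨u, mem_filter.2 ⟨self_mem_fib hu', hu⟩⟩
    have e4 : 0 < ((fib I u).filter (· ∉ U)).card := card_pos.2 ⟨v, mem_filter.2 ⟨v1, v2⟩⟩
    rcases fib_size h hu' with c | ⟨c, _⟩
    · have : (fib I u).card ≤ dcut (nn I) (ind (h1 I)) U + 1 := by nlinarith
      omega
    · rw [c, mem_singleton] at v1
      exact absurd (v1 ▸ hu) v2
  · have e1 : dfc I (h0 I) ≤ nn I * nn I := by
      have := sum_le_card_nsmul (range (nn I)) (fun w => I.2.1 - deg (nn I) (h0 I) w) (nn I)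
        fun w _ => by have := h.lt; omega
      simpa [dfc] using this
    have e2 := single_le_sum (f := fun w => I.2.1 - deg (nn I) (h1 I) w)
      (fun _ _ => Nat.zero_le _) (mem_range.2 hw)
    change _ ≤ dfc I (h1 I) at e2
    omega
  · have e1 : ∑ w ∈ range (nn I), (I.2.1 - deg (nn I) (h0 I) w) * rad I (lab I w) ≤
        12 * cst2 (nn I) (cc I) G := by
      rw [cst2, mul_sum]
      refine sum_le_sum fun w hw => ?_
      have := charge h hG hs (mem_range.1 hw)
      have := Nat.mul_le_mul_right (rad I (lab I w))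
        (show I.2.1 - deg (nn I) (h0 I) w ≤ 6 by have := o3 w (mem_range.1 hw); omega)
      rw [add_mul] at *
      omega
    have e2 : 4 * I.1 * ∑ x ∈ reps I, ((fib I x).card * I.2.1 -
        ∑ w ∈ fib I x, deg (nn I) (h0 I) w) * rad I x ≤ cst2 (nn I) (cc I) G := by
      rw [cst2, ← sum_reps h, mul_sum]
      refine sum_le_sum fun x hx => le_trans ?_ (charge2 h hG hs hx)
      have := o2 x (mem_range.1 (mem_filter.1 hx).1)
      have := Nat.mul_le_mul_left (4 * I.1) (Nat.mul_le_mul_right (rad I x)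
        (show (fib I x).card * I.2.1 - ∑ w ∈ fib I x, deg (nn I) (h0 I) w ≤ 4 by omega))
      nlinarith
    have e3 : 2 * I.1 ≤ cst2 (nn I) (cc I) G := by
      have hx : lab I 0 ∈ reps I := mem_filter.2 ⟨mem_range.2 (lab_lt h.pos), lab_idem h _⟩
      have := charge2 h hG hs hx
      have := rad_pos h (lab_lt h.pos)
      have := sum_le_sum_of_subset (f := cstAt (nn I) (cc I) G) (fib_subset I (lab I 0))
      rw [cst2]
      nlinarith
    have e4 : I.1 * ∑ u ∈ range (nn I), ∑ v ∈ fib I u, ind (h0 I) u v * cc I u v ≤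
        I.1 * ∑ u ∈ range (nn I), ∑ v ∈ fib I u, ind G u v * cc I u v +
          12 * cst2 (nn I) (cc I) G := by
      rw [cst2, mul_sum, mul_sum, mul_sum, ← sum_add_distrib]
      refine sum_le_sum fun w hw => ?_
      have f1 := charge h hG hs (mem_range.1 hw)
      have f2 : I.1 * ∑ v ∈ fib I w, ind (h0 I) w v * cc I w v ≤
          I.1 * ∑ v ∈ fib I w, ind G w v * cc I w v + ((fib I w).filter
            fun v => entry G w v = false ∧ v ≠ w).card * (6 * rad I (lab I w)) := by
        rw [← smul_eq_mul (card _), ← sum_const, sum_filter, mul_sum, mul_sum, ← sum_add_distrib]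
        refine sum_le_sum fun v hv => ?_
        have g1 := fib_diam h (mem_range.1 hw) hv
        have g2 := Nat.mul_le_mul_left I.1 (Nat.mul_le_mul_right (cc I w v) (ind_le (h0 I) w v))
        rw [one_mul] at g2
        by_cases c : entry G w v = true
        · rw [ind_true c, one_mul]; omega
        · by_cases c' : v = w
          · simp [c', h.met.self w (mem_range.1 hw)]
          · rw [if_pos ⟨by simpa using c, c'⟩]; omega
      nlinarith
    have e5 := cst2_split (I := I) (h0 I)
    have e6 := cst2_split (I := I) G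
    have e7 := Nat.mul_le_mul_left I.1 o4
    simp only [pot] at b
    rw [e5] at b
    have e8 : I.1 * cst2 (nn I) (cc I) G = _ := congrArg (I.1 * ·) e6
    simp only [mul_add, add_mul] at *
    omega

end Pool.Agent.Lib.MP_959bb6_lc.Eg
end
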