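import Mathlib
import Pool.Agent.Lib.MP_959bb6_lc.EdgeRep

/-!
Raising the edge connectivity by one at a small cost.
-/

set_option autoImplicit false

namespace Pool.Agent.Lib.MP_959bb6_lc.Eg

open Pool.Agent.Shared.PolyTime Enc Finset

def sep (n : ℕ) (M : Mat) (l u v : ℕ) : Bool :=
  (Fl.mc (tab2 n fun x y => ind M x y, tab n fun i => i == u, tab n fun i => i == v, l + 1)).1
def tset (n : ℕ) (M : Mat) (l : ℕ) : List Bool :=
  tab n fun u => !(anyB n fun v => entry M u v && sep n M l u v)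
def pk (I : In) (T : List Bool) (l : ℕ) (M : Mat) : ℕ := argmin (nn I * nn I)
  (fun i => bit1 T (i / nn I) && bit1 T (i % nn I) && sep (nn I) M l (i / nn I) (i % nn I))
  fun i => cc I (i / nn I) (i % nn I)
def astep (I : In) (T : List Bool) (l : ℕ) (M : Mat) : Mat :=
  nrm (nn I) (bif Nat.blt (pk I T l M) (nn I * nn I) then
    addE (nn I) M (pk I T l M / nn I) (pk I T l M % nn I) else M)
def run (I : In) (T : List Bool) (l : ℕ) (M : Mat) : Mat := (astep I T l)^[nn I] M
def lstep (I : In) (p : ℕ × Mat) : ℕ × Mat :=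
  (min I.2.1 (p.1 + 1), nrm (nn I) (run I (tset (nn I) p.2 p.1) p.1 p.2))
def alg (I : In) : Mat := ((lstep I)^[tt I] (I.2.1 - tt I, h1 I)).2

section
variable {α : Type} [Enc α]

@[fun_prop] theorem pf_sep {n l u v : α → ℕ} {M : α → Mat} (h0 : PF n) (h1 : PF M) (h2 : PF l)
    (h3 : PF u) (h4 : PF v) : PF fun a => sep (n a) (M a) (l a) (u a) (v a) := by
  unfold sep; fun_prop
@[fun_prop] theorem pf_tset {n l : α → ℕ} {M : α → Mat} (h0 : PF n) (h1 : PF M) (h2 : PF l) :
    PF fun a => tset (n a) (M a) (l a) := by unfold tset; fun_prop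
@[fun_prop] theorem pf_pk {I : α → In} {T : α → List Bool} {l : α → ℕ} {M : α → Mat} (h0 : PF I)
    (h1 : PF T) (h2 : PF l) (h3 : PF M) : PF fun a => pk (I a) (T a) (l a) (M a) := by
  unfold pk; fun_prop
@[fun_prop] theorem pf_astep {I : α → In} {T : α → List Bool} {l : α → ℕ} {M : α → Mat}
    (h0 : PF I) (h1 : PF T) (h2 : PF l) (h3 : PF M) :
    PF fun a => astep (I a) (T a) (l a) (M a) := by unfold astep; fun_prop
@[fun_prop] theorem pf_run {I : α → In} {T : α → List Bool} {l : α → ℕ} {M : α → Mat}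
    (h0 : PF I) (h1 : PF T) (h2 : PF l) (h3 : PF M) :
    PF fun a => run (I a) (T a) (l a) (M a) :=
  pf_iter (st := fun a M => astep (I a) (T a) (l a) M)
    (fun a => nn (I a) * (2 * (nn (I a) * 3) + 1))
    (by fun_prop) (by fun_prop) (by fun_prop) (by fun_prop) fun _ _ => len_mat _ _
@[fun_prop] theorem pf_lstep {I : α → In} {p : α → ℕ × Mat} (h0 : PF I) (h1 : PF p) :
    PF fun a => lstep (I a) (p a) := by unfold lstep; fun_prop
@[fun_prop] theorem pf_alg {I : α → In} (h0 : PF I) : PF fun a => alg (I a) := by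
  have : PF fun a => (lstep (I a))^[tt (I a)] ((I a).2.1 - tt (I a), h1 (I a)) := by
    refine pf_iter (st := fun a p => lstep (I a) p)
      (fun a => 2 * (I a).2.1 + nn (I a) * (2 * (nn (I a) * 3) + 1) + 1)
      (by fun_prop) (by fun_prop) (by fun_prop) (by fun_prop) fun a b => ?_
    unfold lstep
    rw [len_prod, len_nat]
    exact Nat.add_le_add_right (Nat.add_le_add (by omega) (len_mat _ _)) 1
  unfold alg
  fun_prop

end

/-- A cut with at most `l` edges separates the two vertices. -/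
def Sep (n : ℕ) (M : Mat) (l u v : ℕ) : Prop :=
  ∃ U : Finset ℕ, U ⊆ range n ∧ u ∈ U ∧ v ∉ U ∧ dcut n (ind M) U ≤ l

variable {n l : ℕ} {M : Mat}

theorem sep_iff {u v : ℕ} (hu : u < n) (hv : v < n) : sep n M l u v = true ↔ Sep n M l u v := by
  rw [sep, mc_iff]
  refine exists_congr fun U => and_congr_right fun _ => ?_
  simp only [beq_iff_eq, Nat.lt_succ_iff]
  exact ⟨fun ⟨a, b, c⟩ => ⟨a u hu rfl, b v hv rfl, c⟩,
    fun ⟨a, b, c⟩ => ⟨fun _ _ e => e ▸ a, fun _ _ e => e ▸ b, c⟩⟩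

theorem Sep.symm (hs : Sym n M) {u v : ℕ} (hv : v < n) (h : Sep n M l u v) : Sep n M l v u := by
  obtain ⟨U, a, b, c, d⟩ := h
  exact ⟨range n \ U, sdiff_subset, by simp [hv, c], by simp [b],
    by rwa [dcut_compl (fun x y hx hy => hs.ind hx hy) a]⟩

theorem Sep.via {u w : ℕ} (h : Sep n M l u w) (v : ℕ) : Sep n M l u v ∨ Sep n M l v w := by
  obtain ⟨U, a, b, c, d⟩ := h
  by_cases e : v ∈ U
  · exact Or.inr ⟨U, a, e, c, d⟩
  · exact Or.inl ⟨U, a, b, e, d⟩

theorem not_sep_self (u : ℕ) : ¬ Sep n M l u u := fun ⟨_, _, b, c, _⟩ => c b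

theorem Sep.mono {M' : Mat} (h : ∀ x y, x < n → y < n → entry M x y = true → entry M' x y = true)
    {u v : ℕ} (h' : Sep n M' l u v) : Sep n M l u v := by
  obtain ⟨U, a, b, c, d⟩ := h'
  refine ⟨U, a, b, c, (dcut_mono (fun x y hx hy => ?_) a).trans d⟩
  have := h x y hx hy
  simp only [ind_eq]
  grind

theorem tset_iff {u : ℕ} (hu : u < n) : bit1 (tset n M l) u = true ↔
    ∀ v, v < n → entry M u v = true → ¬ Sep n M l u v := by
  simp only [tset, bit1_tab _ hu, Bool.not_eq_true', Bool.eq_false_iff, ne_eq, anyB_iff,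
    Bool.and_eq_true, not_exists, not_and]
  exact forall_congr' fun v => forall_congr' fun hv => by rw [sep_iff hu hv]

theorem exists_term {k : ℕ} (hs : Sym n M) (hc : Cuts n M l) (hd : ∀ w, w < n → k ≤ deg n M w)
    (hl : l < k) {U : Finset ℕ} (h1 : U ⊆ range n) (h2 : U.Nonempty)
    (h3 : dcut n (ind M) U ≤ l) : ∃ u ∈ U, bit1 (tset n M l) u = true := by
  classical
  obtain ⟨S, hS, hmin⟩ := exists_min_image
    (U.powerset.filter fun S => S.Nonempty ∧ dcut n (ind M) S ≤ l) card ⟨U, by simp [h2, h3]⟩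
  simp only [mem_filter, mem_powerset] at hS hmin
  obtain ⟨s1, s2, s3⟩ := hS
  have s0 := s1.trans h1
  obtain ⟨u, hu, hin⟩ : ∃ u ∈ S, ∀ v, v < n → entry M u v = true → v ∈ S := by
    by_contra hc'
    push Not at hc'
    have e1 : S.card • 1 ≤ dcut n (ind M) S := card_nsmul_le_sum _ _ _ fun u hu => by
      obtain ⟨v, a, b, c⟩ := hc' u hu
      rw [← ind_true b]
      exact single_le_sum (f := fun v => ind M u v) (fun _ _ => Nat.zero_le _)
        (mem_sdiff.2 ⟨mem_range.2 a, c⟩)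
    have e2 : S.card • (k + 1 - S.card) ≤ dcut n (ind M) S := card_nsmul_le_sum _ _ _ fun u hu => by
      have a := hd u (mem_range.1 (s0 hu))
      rw [deg_sum, ← sum_sdiff s0, ← add_sum_erase _ _ hu,
        ind_false (hs.irr u (mem_range.1 (s0 hu)))] at a
      have b := sum_le_card_nsmul (S.erase u) (fun v => ind M u v) 1 fun v _ => ind_le _ _ _
      have c := card_erase_add_one hu
      simp only [smul_eq_mul, mul_one] at b
      omega
    have e3 := card_pos.2 s2
    simp only [smul_eq_mul, mul_one] at e1 e2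
    obtain ⟨j, hj⟩ := Nat.exists_eq_add_of_le (show S.card ≤ k by omega)
    rw [show k + 1 - S.card = j + 1 by omega] at e2
    nlinarith
  refine ⟨u, s1 hu, (tset_iff (mem_range.1 (s0 hu))).2 fun v hv he ⟨X, x1, x2, x3, x4⟩ => ?_⟩
  have hvS := hin v hv he
  by_cases e : S ∪ X = range n
  · have := hmin (range n \ X) ⟨fun y hy => s1 (by
      obtain ⟨a, b⟩ := mem_sdiff.1 hy
      rw [← e] at a
      exact (mem_union.1 a).resolve_right b), ⟨v, by simp [hv, x3]⟩,
      by rwa [dcut_compl (fun x y hx hy => hs.ind hx hy) x1]⟩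
    refine absurd (card_lt_card (Finset.ssubset_iff_subset_ne.2 ⟨fun y hy => ?_, fun e' => ?_⟩))
      (not_lt.2 this)
    · obtain ⟨a, b⟩ := mem_sdiff.1 hy
      rw [← e] at a
      exact (mem_union.1 a).resolve_right b
    · rw [← e'] at hu
      exact (mem_sdiff.1 hu).2 x2
  · have a1 := hc _ (union_subset s0 x1) (s2.mono subset_union_left) e
    have a2 := dcut_submod (ind M) s0 x1
    have := hmin (S ∩ X) ⟨inter_subset_left.trans s1, ⟨u, mem_inter.2 ⟨hu, x2⟩⟩, by omega⟩
    refine absurd (card_lt_card (Finset.ssubset_iff_subset_ne.2 ⟨inter_subset_left, fun e' => ?_⟩))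
      (not_lt.2 this)
    rw [← e'] at hvS
    exact x3 (mem_inter.1 hvS).2

open Classical in
/-- Least members of the classes of terminals. -/
noncomputable def cls (n : ℕ) (T : List Bool) (l : ℕ) (M : Mat) : Finset ℕ :=
  (range n).filter fun u => bit1 T u = true ∧ ∀ y, y < u → bit1 T y = true → Sep n M l y u

theorem mem_cls {T : List Bool} {u : ℕ} : u ∈ cls n T l M ↔
    u < n ∧ bit1 T u = true ∧ ∀ y, y < u → bit1 T y = true → Sep n M l y u := by simp [cls]

theorem exists_cls {T : List Bool} {a : ℕ} (ha : a < n) (hT : bit1 T a = true) :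
    ∃ x ∈ cls n T l M, ¬ Sep n M l x a := by
  classical
  have hex : ∃ x, bit1 T x = true ∧ ¬ Sep n M l x a := ⟨a, hT, not_sep_self a⟩
  have h1 := Nat.find_spec hex
  refine ⟨Nat.find hex, mem_cls.2 ⟨(Nat.find_min' hex ⟨hT, not_sep_self a⟩).trans_lt ha, h1.1,
    fun y hy ty => ?_⟩, h1.2⟩
  have := Nat.find_min hex hy
  exact ((not_not.1 fun c => this ⟨ty, c⟩).via _).resolve_right h1.2

variable {I : In}

/-- The nearest terminal. -/
def nt (I : In) (T : List Bool) (a : ℕ) : ℕ := argmin (nn I) (bit1 T) (cc I a)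

/-- Weight of the edges that cross the moats of a given width. -/
def aw (I : In) (T : List Bool) (G : Mat) (θ : ℕ) : ℕ :=
  ∑ a ∈ range (nn I), ∑ b ∈ range (nn I), ind G a b *
    if 2 * cc I a (nt I T a) ≤ θ ∧ θ < 2 * cc I a (nt I T a) + 2 * cc I a b then 1 else 0

theorem sum_aw (T : List Bool) (G : Mat) (L : ℕ) :
    ∑ θ ∈ range L, aw I T G θ ≤ 2 * cst2 (nn I) (cc I) G := by
  simp only [aw, cst2, cstAt, mul_sum]
  rw [sum_comm]
  refine sum_le_sum fun a _ => ?_
  rw [sum_comm]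
  refine sum_le_sum fun b _ => ?_
  rw [← mul_sum, mul_left_comm, ← card_filter]
  refine Nat.mul_le_mul_left _ ((card_le_card (t := Ico (2 * cc I a (nt I T a))
    (2 * cc I a (nt I T a) + 2 * cc I a b)) fun θ hθ => mem_Ico.2 (mem_filter.1 hθ).2).trans ?_)
  simp

theorem moat (hm : IsMet (nn I) (cc I)) {k θ : ℕ} {T : List Bool} {G : Mat}
    (hG : Cuts (nn I) G k) (hs : Sym (nn I) M) {u v : ℕ} (hu : u < nn I) (hv : v < nn I)
    (tu : bit1 T u = true) (tv : bit1 T v = true) (huv : Sep (nn I) M l u v)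
    (hθ : ∀ x y, x < nn I → y < nn I → bit1 T x = true → bit1 T y = true →
      Sep (nn I) M l x y → θ < cc I x y) : k * (cls (nn I) T l M).card ≤ aw I T G θ := by
  classical
  have hn := fun a => argmin_spec (N := nn I) (p := bit1 T) (cc I a) ⟨u, hu, tu⟩
  change ∀ a, nt I T a < _ ∧ bit1 T (nt I T a) = true ∧ ∀ j, _ → _ → cc I a (nt I T a) ≤ _ at hn
  have hself : ∀ a, a < nn I → bit1 T a = true → nt I T a = a := fun a ha ta => by
    by_contra e
    have := (hn a).2.2 a ha ta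
    have := hm.self a ha
    have := hm.pos a _ ha (hn a).1 (Ne.symm e)
    omega
  obtain ⟨Mo, hMo⟩ : ∃ Mo : ℕ → Finset ℕ, ∀ x a, a ∈ Mo x ↔ a < nn I ∧
      ¬ Sep (nn I) M l x (nt I T a) ∧ 2 * cc I a (nt I T a) ≤ θ :=
    ⟨fun x => (range (nn I)).filter fun a => ¬ Sep (nn I) M l x (nt I T a) ∧
      2 * cc I a (nt I T a) ≤ θ, by simp⟩
  have sub : ∀ x, Mo x ⊆ range (nn I) := fun x a ha => mem_range.2 ((hMo x a).1 ha).1
  rw [mul_comm, ← smul_eq_mul, aw]
  refine le_trans (card_nsmul_le_sum _ (fun x => ∑ a ∈ Mo x, ∑ b ∈ range (nn I), ind G a b *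
    if 2 * cc I a (nt I T a) ≤ θ ∧ θ < 2 * cc I a (nt I T a) + 2 * cc I a b then 1 else 0) _
      fun x hx => ?_) ?_
  · obtain ⟨x1, x2, _⟩ := mem_cls.1 hx
    refine (hG (Mo x) (sub x) ⟨x, (hMo x x).2 ⟨x1, ?_⟩⟩ fun e => ?_).trans
      (sum_le_sum fun a ha => (sum_le_sum fun b hb => ?_).trans
        (sum_le_sum_of_subset sdiff_subset))
    · rw [hself x x1 x2, hm.self x x1]
      exact ⟨not_sep_self x, Nat.zero_le _⟩
    · have a1 := ((hMo x u).1 (e ▸ mem_range.2 hu)).2.1
      have a2 := ((hMo x v).1 (e ▸ mem_range.2 hv)).2.1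
      rw [hself u hu tu] at a1
      rw [hself v hv tv] at a2
      exact (huv.via x).elim (fun c => a1 (c.symm hs x1)) a2
    · obtain ⟨a1, a2, a3⟩ := (hMo x a).1 ha
      obtain ⟨b1, b2⟩ := mem_sdiff.1 hb
      rw [mem_range] at b1
      suffices θ < 2 * cc I a (nt I T a) + 2 * cc I a b by rw [if_pos ⟨a3, this⟩, mul_one]
      by_contra hc
      have c1 := (hn b).2.2 _ (hn a).1 (hn a).2.1
      have c2 := hm.tri b a _ b1 a1 (hn a).1
      have c3 := hm.symm a b a1 b1
      have c4 := hm.tri _ b _ (hn a).1 b1 (hn b).1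
      have c5 := hm.symm _ b (hn a).1 b1
      refine b2 ((hMo x b).2 ⟨b1, fun c => ?_, by omega⟩)
      have := hθ _ _ (hn a).1 (hn b).1 (hn a).2.1 (hn b).2.1 ((c.via _).resolve_left a2)
      omega
  · rw [← sum_biUnion]
    · exact sum_le_sum_of_subset (biUnion_subset.2 fun x _ => sub x)
    · intro x hx y hy hxy
      rw [Function.onFun, Finset.disjoint_left]
      intro a ha hb
      obtain ⟨x1, x2, x3⟩ := mem_cls.1 hx
      obtain ⟨y1, y2, y3⟩ := mem_cls.1 hy
      have a1 := ((hMo x a).1 ha).2.1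
      have a2 := ((hMo y a).1 hb).2.1
      rcases lt_or_gt_of_ne hxy with c | c
      · exact ((y3 x c x2).via _).elim a1 fun c => a2 (c.symm hs y1)
      · exact ((x3 y c y2).via _).elim a2 fun c => a1 (c.symm hs x1)

theorem pk_iff {T : List Bool} : pk I T l M < nn I * nn I ↔ ∃ u v, u < nn I ∧ v < nn I ∧
    bit1 T u = true ∧ bit1 T v = true ∧ Sep (nn I) M l u v := by
  rw [pk, argmin_lt_iff]
  constructor
  · rintro ⟨i, hi, hp⟩
    have hn : 0 < nn I := Nat.pos_of_ne_zero fun e => by simp [e] at hi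
    have h1 := Nat.div_lt_of_lt_mul hi
    have h2 := Nat.mod_lt i hn
    simp only [Bool.and_eq_true, sep_iff h1 h2] at hp
    exact ⟨_, _, h1, h2, hp.1.1, hp.1.2, hp.2⟩
  · rintro ⟨u, v, a, b, c, d, e⟩
    refine ⟨v + u * nn I, by nlinarith, ?_⟩
    rw [Nat.add_mul_div_right _ _ (by omega), Nat.div_eq_of_lt b, zero_add,
      Nat.add_mul_mod_self_right, Nat.mod_eq_of_lt b]
    simp [c, d, sep_iff a b, e]

theorem pk_spec {T : List Bool} (h : pk I T l M < nn I * nn I) :
    ∃ u v, pk I T l M / nn I = u ∧ pk I T l M % nn I = v ∧ u < nn I ∧ v < nn I ∧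
      bit1 T u = true ∧ bit1 T v = true ∧ Sep (nn I) M l u v ∧ ∀ x y, x < nn I → y < nn I →
        bit1 T x = true → bit1 T y = true → Sep (nn I) M l x y → cc I u v ≤ cc I x y := by
  have hn : 0 < nn I := Nat.pos_of_ne_zero fun e => by simp [e] at h
  have h1 := Nat.div_lt_of_lt_mul h
  have h2 := Nat.mod_lt (pk I T l M) hn
  obtain ⟨_, a, b⟩ := argmin_spec (fun i => cc I (i / nn I) (i % nn I)) ((argmin_lt_iff _).1 h)
  change (bit1 T (pk I T l M / nn I) && bit1 T (pk I T l M % nn I) &&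
    sep (nn I) M l (pk I T l M / nn I) (pk I T l M % nn I)) = true at a
  simp only [Bool.and_eq_true, sep_iff h1 h2] at a
  refine ⟨_, _, rfl, rfl, h1, h2, a.1.1, a.1.2, a.2, fun x y hx hy c d e => ?_⟩
  have := b (y + x * nn I) (by nlinarith)
  simp only [Nat.add_mul_div_right _ _ hn, Nat.div_eq_of_lt hy, zero_add,
      Nat.add_mul_mod_self_right, Nat.mod_eq_of_lt hy] at this
  exact this (by simp [c, d, sep_iff hx hy, e])

/-- The invariant of one level. -/
structure AInv (I : In) (T : List Bool) (l k L : ℕ) (G M0 M : Mat) : Prop where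
  tab : nrm (nn I) M = M
  sym : Sym (nn I) M
  sup : ∀ x y, x < nn I → y < nn I → entry M0 x y = true → entry M x y = true
  cut : Cuts (nn I) M l
  adj : ∀ x y, x < nn I → y < nn I → bit1 T x = true → entry M x y = true → ¬ Sep (nn I) M l x y
  cost : ∃ N : ℕ → ℕ, cst2 (nn I) (cc I) M = cst2 (nn I) (cc I) M0 + 2 * ∑ θ ∈ range L, N θ ∧
    ∀ θ, N θ = 0 ∨ k * (N θ + (cls (nn I) T l M).card) ≤ aw I T G θ

theorem astep_spec (hm : IsMet (nn I) (cc I)) {k L : ℕ} {T : List Bool} {G M0 : Mat}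
    (hG : Cuts (nn I) G k) (hL : ∀ x y, x < nn I → y < nn I → cc I x y ≤ L)
    (h : AInv I T l k L G M0 M) : AInv I T l k L G M0 (astep I T l M) ∧
      (astep I T l M = M ∧ ¬ pk I T l M < nn I * nn I ∨
        (cls (nn I) T l (astep I T l M)).card < (cls (nn I) T l M).card) := by
  by_cases c : pk I T l M < nn I * nn I
  swap
  · have e : astep I T l M = M := by simp [astep, Bool.cond_eq_ite, c, h.tab]
    rw [e]
    exact ⟨h, Or.inl ⟨rfl, c⟩⟩
  obtain ⟨u, v, e1, e2, hu, hv, tu, tv, huv, hmin⟩ := pk_spec c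
  have e : astep I T l M = addE (nn I) M u v := by
    simp only [astep, Bool.cond_eq_ite, Nat.blt_eq, c, if_true, e1, e2]
    exact nrm_tab2 _ _
  rw [e]
  have ne : u ≠ v := fun e => not_sep_self v (e ▸ huv)
  have he : entry M u v = false := Bool.eq_false_iff.2 fun e => h.adj u v hu hv tu e huv
  have s1 := h.sym.addE ne
  have up : ∀ x y, x < nn I → y < nn I → entry M x y = true →
      entry (addE (nn I) M u v) x y = true := fun x y hx hy e =>
    (entry_addE _ _ _ hx hy).2 (Or.inl e)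
  have n1 : ¬ Sep (nn I) (addE (nn I) M u v) l u v := fun ⟨U, a, b, c, d⟩ => by
    rw [dcut_addE h.sym hu hv ne he a, if_pos ⟨b, c⟩] at d
    have := h.cut U a ⟨u, b⟩ fun e => c (e ▸ mem_range.2 hv)
    omega
  have lt : (cls (nn I) T l (addE (nn I) M u v)).card < (cls (nn I) T l M).card := by
    obtain ⟨x, x1, x2⟩ := exists_cls (l := l) (M := M) hu tu
    obtain ⟨y, y1, y2⟩ := exists_cls (l := l) (M := M) hv tv
    have x3 := mem_cls.1 x1
    have y3 := mem_cls.1 y1
    have nxy : ¬ Sep (nn I) (addE (nn I) M u v) l x y := fun c =>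
      (c.via u).elim (fun c => x2 (c.mono up)) fun c => (c.via v).elim n1 fun c =>
        y2 ((c.mono up).symm h.sym y3.1)
    refine card_lt_card (Finset.ssubset_iff_subset_ne.2 ⟨fun z hz => ?_, fun e => ?_⟩)
    · obtain ⟨a, b, c⟩ := mem_cls.1 hz
      exact mem_cls.2 ⟨a, b, fun y hy ty => (c y hy ty).mono up⟩
    · rw [← e] at x1 y1
      rcases lt_trichotomy x y with c | c | c
      · exact nxy ((mem_cls.1 y1).2.2 x c x3.2.1)
      · subst c
        exact (huv.via x).elim (fun c => x2 (c.symm h.sym x3.1)) y2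
      · exact nxy (((mem_cls.1 x1).2.2 y c y3.2.1).symm s1 x3.1)
  obtain ⟨N, c1, c2⟩ := h.cost
  refine ⟨⟨nrm_tab2 _ _, s1, fun x y hx hy e => up x y hx hy (h.sup x y hx hy e),
    fun U a b c => ?_, fun x y hx hy tx e => ?_,
    fun θ => N θ + if θ < cc I u v then 1 else 0, ?_, fun θ => ?_⟩, Or.inr lt⟩
  · have := h.cut U a b c
    rw [dcut_addE h.sym hu hv ne he a]
    omega
  · rcases (entry_addE _ _ _ hx hy).1 e with e | ⟨rfl, rfl⟩ | ⟨rfl, rfl⟩
    · exact fun c => h.adj x y hx hy tx e (c.mono up)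
    · exact n1
    · exact fun c => n1 (c.symm s1 hy)
  · rw [cst2_addE h.sym hu hv ne he, c1, sum_add_distrib, ← card_filter, hm.symm v u hv hu,
      show (range L).filter (· < cc I u v) = range (cc I u v) by
        have := hL u v hu hv
        ext θ; simp only [mem_filter, mem_range]; omega, card_range]
    omega
  · by_cases c3 : θ < cc I u v
    · right
      simp only [c3, if_true]
      rcases c2 θ with c4 | c4
      · exact (Nat.mul_le_mul_left k (by omega)).trans (moat hm hG h.sym hu hv tu tv huv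
          fun x y hx hy a b c => c3.trans_le (hmin x y hx hy a b c))
      · exact (Nat.mul_le_mul_left k (by omega)).trans c4
    · simp only [c3, if_false, add_zero]
      exact (c2 θ).imp_right fun c4 => (Nat.mul_le_mul_left k (by omega)).trans c4

theorem run_spec (hm : IsMet (nn I) (cc I)) {k : ℕ} {G : Mat} (hG : Cuts (nn I) G k)
    (h0 : nrm (nn I) M = M) (hs : Sym (nn I) M) (hc : Cuts (nn I) M l)
    (hd : ∀ w, w < nn I → k ≤ deg (nn I) M w) (hl : l < k) (M' : Mat)
    (hM : M' = run I (tset (nn I) M l) l M) :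
    nrm (nn I) M' = M' ∧ Sym (nn I) M' ∧ Cuts (nn I) M' (l + 1) ∧
      (∀ w, w < nn I → k ≤ deg (nn I) M' w) ∧
      k * cst2 (nn I) (cc I) M' ≤ k * cst2 (nn I) (cc I) M + 4 * cst2 (nn I) (cc I) G := by
  obtain ⟨L, hL⟩ : ∃ L, ∀ x y, x < nn I → y < nn I → cc I x y ≤ L :=
    ⟨(range (nn I) ×ˢ range (nn I)).sup fun p => cc I p.1 p.2, fun x y hx hy =>
      le_sup (f := fun p : ℕ × ℕ => cc I p.1 p.2) (b := (x, y)) (by simp [hx, hy])⟩
  generalize hT : tset (nn I) M l = T at hM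
  have key : ∀ j, AInv I T l k L G M ((astep I T l)^[j] M) ∧
      (¬ pk I T l ((astep I T l)^[j] M) < nn I * nn I ∨
        (cls (nn I) T l ((astep I T l)^[j] M)).card + j ≤ nn I) := by
    intro j
    induction j with
    | zero =>
      exact ⟨⟨h0, hs, fun _ _ _ _ e => e, hc, fun x y hx hy tx => (tset_iff hx).1 (hT ▸ tx) y hy,
        fun _ => 0, by simp, fun _ => Or.inl rfl⟩,
        Or.inr ((card_le_card fun x hx => mem_range.2 (mem_cls.1 hx).1).trans (card_range _).le)⟩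
    | succ j ih =>
      rw [Function.iterate_succ_apply']
      obtain ⟨a, b⟩ := astep_spec hm hG hL ih.1
      refine ⟨a, ?_⟩
      rcases b with ⟨b1, b2⟩ | b
      · rw [b1]; exact Or.inl b2
      · rcases ih.2 with c | c
        · have e : astep I T l ((astep I T l)^[j] M) = (astep I T l)^[j] M := by
            simp [astep, Bool.cond_eq_ite, c, ih.1.tab]
          rw [e]; exact Or.inl c
        · exact Or.inr (by omega)
  obtain ⟨a, b⟩ := key (nn I)
  rw [show (astep I T l)^[nn I] M = M' from hM.symm] at a b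
  have mono : ∀ x y, x < nn I → y < nn I → ind M x y ≤ ind M' x y := fun x y hx hy => by
    have := a.sup x y hx hy
    simp only [ind_eq]
    grind
  refine ⟨a.tab, a.sym, fun U u1 u2 u3 => ?_, fun w hw => (hd w hw).trans ?_, ?_⟩
  · by_contra hc'
    have d1 : dcut (nn I) (ind M) U ≤ l := (dcut_mono mono u1).trans (by omega)
    obtain ⟨u, hu, tu⟩ := exists_term hs hc hd hl u1 u2 d1
    obtain ⟨v, hv, tv⟩ := exists_term hs hc hd hl (U := range (nn I) \ U) sdiff_subset
      (sdiff_nonempty.2 fun e => u3 (Subset.antisymm u1 e))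
      (by rwa [dcut_compl (fun x y hx hy => hs.ind hx hy) u1])
    rw [hT] at tu tv
    have hu' := mem_range.1 (u1 hu)
    rcases b with b | b
    · exact b (pk_iff.2 ⟨u, v, hu', mem_range.1 (mem_sdiff.1 hv).1, tu, tv, U, u1, hu,
        (mem_sdiff.1 hv).2, by omega⟩)
    · obtain ⟨x, hx, _⟩ := exists_cls (l := l) (M := M') hu' tu
      have := card_pos.2 ⟨x, hx⟩
      omega
  · rw [deg_sum, deg_sum]
    exact sum_le_sum fun v hv => mono w v hw (mem_range.1 hv)
  · obtain ⟨N, c1, c2⟩ := a.cost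
    have e1 : k * ∑ θ ∈ range L, N θ ≤ ∑ θ ∈ range L, aw I T G θ := by
      rw [mul_sum]
      refine sum_le_sum fun θ _ => ?_
      rcases c2 θ with c | c
      · simp [c]
      · exact (Nat.mul_le_mul_left k (by omega)).trans c
    have e2 := sum_aw (I := I) T G L
    rw [c1]
    nlinarith

theorem alg_spec (h : Ok I) {G : Mat} (hs : Sym (nn I) G) (hG : Cuts (nn I) G I.2.1) :
    Sym (nn I) (alg I) ∧ Cuts (nn I) (alg I) I.2.1 ∧
      I.1 * cst2 (nn I) (cc I) (alg I) ≤ (I.1 + 162) * cst2 (nn I) (cc I) G := by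
  obtain ⟨o1, o2, o3, o4, o5⟩ := h1_spec h hs hG
  have k1 := h.t10
  have key : ∀ j, j ≤ tt I → ∀ p, p = (lstep I)^[j] (I.2.1 - tt I, h1 I) →
      p.1 = I.2.1 - tt I + j ∧ nrm (nn I) p.2 = p.2 ∧ Sym (nn I) p.2 ∧ Cuts (nn I) p.2 p.1 ∧
      (∀ w, w < nn I → I.2.1 ≤ deg (nn I) p.2 w) ∧ I.2.1 * cst2 (nn I) (cc I) p.2 ≤
        I.2.1 * cst2 (nn I) (cc I) (h1 I) + j * (4 * cst2 (nn I) (cc I) G) := by
    intro j
    induction j with
    | zero => rintro _ _ rfl; exact ⟨rfl, o1, o2, o3, o4, by simp⟩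
    | succ j ih =>
      rintro hj _ rfl
      obtain ⟨a1, a2, a3, a4, a5, a6⟩ := ih (by omega) _ rfl
      rw [Function.iterate_succ_apply']
      generalize (lstep I)^[j] (I.2.1 - tt I, h1 I) = p at *
      obtain ⟨b1, b2, b3, b4, b5⟩ := run_spec h.met hG a2 a3 a4 a5 (by omega) _ rfl
      simp only [lstep, b1]
      rw [min_eq_right (by omega)]
      exact ⟨by omega, trivial, b2, b3, b4, by rw [add_mul]; omega⟩
  obtain ⟨a1, _, a3, a4, _, a6⟩ := key (tt I) le_rfl _ rfl
  rw [a1, Nat.sub_add_cancel (by omega)] at a4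
  refine ⟨a3, a4, Nat.le_of_mul_le_mul_left ?_ (show 0 < I.2.1 by
    have := h.kbig; have := h.sq; have := h.ten; omega)⟩
  change I.2.1 * cst2 (nn I) (cc I) (alg I) ≤ _ at a6
  have e1 := Nat.mul_le_mul_left I.1 a6
  have e2 := Nat.mul_le_mul_left I.2.1 o5
  have e3 := Nat.mul_le_mul_right (4 * cst2 (nn I) (cc I) G) h.st
  nlinarith

theorem core : Core ECut := by
  intro _ δ
  refine ⟨64 * (162 * δ + 10) ^ 3, fun x => alg (162 * δ + 10, x.1, x.2), by fun_prop,
    fun n k c h1 _ h2 h3 G hG => ?_⟩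
  obtain ⟨I, hI⟩ : ∃ I : In, I = (162 * δ + 10, k, tab2 n c) := ⟨_, rfl⟩
  have e1 : nn I = n := by simp [hI, nn]
  have e2 : cc I = nat2 (tab2 n c) := by rw [hI]; rfl
  have e3 : I.1 = 162 * δ + 10 := by rw [hI]
  have e4 : I.2.1 = k := by rw [hI]
  have ok : Ok I := ⟨by rw [e1, e2]; exact h1.tab, by omega, by rwa [e3, e4], by omega⟩
  obtain ⟨a, b, d⟩ := alg_spec ok (G := adjMatrix G) (e1 ▸ sym_adj G) (by
    rw [e1, e4, ← (sym_adj G).ecut, Rd.graphOf_adj]; exact hG)
  rw [e1] at a b d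
  rw [e2, e3, ← a.costN, ← (sym_adj G).costN, Rd.graphOf_adj] at d
  rw [e4, ← a.ecut] at b
  simp only [← hI]
  refine ⟨b, Nat.le_of_mul_le_mul_left ?_ (show 0 < 162 * δ + 10 by omega)⟩
  nlinarith [Nat.mul_le_mul_left δ d]

end Pool.Agent.Lib.MP_959bb6_lc.Eg
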