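import Mathlib
import Pool.Agent.Lib.MP_959bb6_lc.Dense

/-!
Menger's theorem: path forms and cut forms of edge and vertex connectivity agree.
-/

set_option autoImplicit false

namespace Pool.Agent.Lib.MP_959bb6_lc

open Finset SimpleGraph

namespace Mg

variable {V : Type} [Fintype V] [DecidableEq V] {H : SimpleGraph V}

/-- Net flow out of a set. -/
def val (f : V → V → ℤ) (U : Finset V) : ℤ := ∑ x ∈ U, ∑ y ∈ Uᶜ, f x y

/-- The unit flow along a walk. -/
def phi : ∀ {a b : V}, H.Walk a b → V → V → ℤ
  | _, _, Walk.nil => fun _ _ => 0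
  | a, _, Walk.cons (v := c) _ p => fun x y =>
      phi p x y + (if x = a ∧ y = c then 1 else 0) - if x = c ∧ y = a then 1 else 0

omit [Fintype V] in
theorem phi_anti {a b : V} (p : H.Walk a b) (x y : V) : phi p y x = -phi p x y := by
  induction p with
  | nil => simp [phi]
  | cons h p ih =>
    simp only [phi, ih, and_comm]
    ring

theorem val_phi {a b : V} (p : H.Walk a b) (U : Finset V) :
    val (phi p) U = (if a ∈ U then 1 else 0) - if b ∈ U then 1 else 0 := by
  induction p with
  | nil => simp [phi, val]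
  | @cons a c b h p ih =>
    unfold val at ih ⊢
    simp only [phi, sum_sub_distrib, sum_add_distrib, ih, ite_and, sum_ite_irrel, sum_const_zero,
      sum_ite_eq', mem_compl]
    by_cases h1 : a ∈ U <;> by_cases h2 : c ∈ U <;> simp only [h1, h2, if_true, if_false,
      not_true, not_false_iff] <;> ring

omit [Fintype V] in
theorem phi_cases {a b : V} (p : H.Walk a b) (D : V → V → Prop) (hp : p.edges.Nodup)
    (hD : ∀ d ∈ p.darts, D d.fst d.snd) (x y : V) :
    (phi p x y = 0 ∧ s(x, y) ∉ p.edges) ∨ (phi p x y = 1 ∧ D x y) ∨ (phi p x y = -1 ∧ D y x) := by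
  induction p with
  | nil => simp [phi]
  | @cons a c b h p ih =>
    simp only [Walk.edges_cons, List.nodup_cons, Walk.darts_cons, List.mem_cons,
      forall_eq_or_imp] at hp hD
    have h0 := ih hp.2 hD.2
    have hne := h.ne
    have hz : ∀ {u v : V} (q : H.Walk u v) (x y : V), s(x, y) ∉ q.edges → phi q x y = 0 := by
      intro u v q x y
      induction q with
      | nil => simp [phi]
      | cons h q ih =>
        intro hn
        simp only [Walk.edges_cons, List.mem_cons, not_or, Sym2.eq_iff] at hn
        simp [phi, ih hn.2, hn.1.1, hn.1.2]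
    by_cases c1 : x = a ∧ y = c
    · obtain ⟨rfl, rfl⟩ := c1
      right; left
      exact ⟨by simp [phi, hz p _ _ hp.1, hne], hD.1⟩
    by_cases c2 : x = c ∧ y = a
    · obtain ⟨rfl, rfl⟩ := c2
      right; right
      exact ⟨by simp [phi, hz p _ _ (Sym2.eq_swap ▸ hp.1), hne.symm], hD.1⟩
    simp only [phi, c1, c2, if_false, add_zero, sub_zero, Walk.edges_cons, List.mem_cons,
      Sym2.eq_iff, or_self, false_or]
    exact h0

theorem path_or_cut (D : V → V → Prop) (hD : ∀ x y, D x y → H.Adj x y) (s t : V) :
    (∃ p : H.Walk s t, p.IsPath ∧ ∀ d ∈ p.darts, D d.fst d.snd) ∨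
      ∃ U : Finset V, s ∈ U ∧ t ∉ U ∧ ∀ x ∈ U, ∀ y, y ∉ U → ¬ D x y := by
  classical
  by_cases h : ∃ p : H.Walk s t, ∀ d ∈ p.darts, D d.fst d.snd
  · obtain ⟨p, hp⟩ := h
    exact Or.inl ⟨p.bypass, p.bypass_isPath, fun d hd => hp d (p.darts_bypass_subset_darts hd)⟩
  · right
    refine ⟨univ.filter fun v => ∃ p : H.Walk s v, ∀ d ∈ p.darts, D d.fst d.snd,
      mem_filter.2 ⟨mem_univ _, Walk.nil, by simp⟩, by simpa using h, fun x hx y hy hxy => hy ?_⟩
    obtain ⟨p, hp⟩ := (mem_filter.1 hx).2
    refine mem_filter.2 ⟨mem_univ _, p.concat (hD x y hxy), fun d hd => ?_⟩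
    simp only [Walk.darts_concat, List.concat_eq_append, List.mem_append, List.mem_singleton] at hd
    rcases hd with hd | rfl
    · exact hp d hd
    · exact hxy

theorem exists_flow (cap : V → V → ℤ) (h0 : ∀ x y, 0 ≤ cap x y)
    (hH : ∀ x y, 0 < cap x y → H.Adj x y) (s t : V) (k : ℕ)
    (hc : ∀ U : Finset V, s ∈ U → t ∉ U → (k : ℤ) ≤ val cap U) :
    ∃ f : V → V → ℤ, (∀ x y, f y x = -f x y) ∧ (∀ x y, f x y ≤ cap x y) ∧
      ∀ U : Finset V, s ∈ U → t ∉ U → val f U = k := by
  induction k with
  | zero => exact ⟨fun _ _ => 0, by simp, h0, by simp [val]⟩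
  | succ k ih =>
    obtain ⟨f, f1, f2, f3⟩ := ih fun U a b => le_trans (by push_cast; omega) (hc U a b)
    rcases path_or_cut (H := H) (fun x y => f x y < cap x y) (fun x y h => by
      rcases (h0 x y).eq_or_lt with e | e
      · refine (hH y x ?_).symm
        have := f2 y x
        rw [f1] at this
        omega
      · exact hH x y e) s t with ⟨p, p1, p2⟩ | ⟨U, u1, u2, u3⟩
    · refine ⟨fun x y => f x y + phi p x y, fun x y => by
        beta_reduce; rw [f1, phi_anti]; ring, fun x y => ?_,
        fun U a b => ?_⟩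
      · have := f2 x y
        rcases phi_cases p (fun x y => f x y < cap x y) p1.isTrail.edges_nodup p2 x y
          with h | h | h <;> beta_reduce at * <;> omega
      · have h1 := f3 U a b
        have h2 := val_phi p U
        unfold val at h1 h2 ⊢
        simp only [sum_add_distrib, h1, h2, a, b]
        simp
    · have h1 := hc U u1 u2
      have h2 := f3 U u1 u2
      have h3 : val cap U ≤ val f U := sum_le_sum fun x hx => sum_le_sum fun y hy =>
        not_lt.1 (u3 x hx y (mem_compl.1 hy))
      push_cast at h1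
      omega

theorem decompose (s t : V) (k : ℕ) : ∀ f : V → V → ℤ, (∀ x y, f y x = -f x y) →
    (∀ x y, f x y ≤ 1) → (∀ x y, 0 < f x y → H.Adj x y) →
    (∀ U : Finset V, s ∈ U → t ∉ U → val f U = k) →
    ∃ q : Fin k → H.Walk s t, (∀ i, (q i).IsPath) ∧ (∀ i, ∀ d ∈ (q i).darts, 0 < f d.fst d.snd) ∧
      ∀ i j, i ≠ j → ∀ e ∈ (q i).edges, e ∉ (q j).edges := by
  induction k with
  | zero => exact fun _ _ _ _ _ => ⟨Fin.elim0, by simp, by simp, by simp⟩
  | succ k ih =>
    intro f f1 f2 f3 f4
    rcases path_or_cut (H := H) (fun x y => 0 < f x y) f3 s t with ⟨p, p1, p2⟩ | ⟨U, u1, u2, u3⟩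
    · have hc := phi_cases p (fun x y => 0 < f x y) p1.isTrail.edges_nodup p2
      beta_reduce at hc
      have key : ∀ x y, 0 < f x y - phi p x y → 0 < f x y ∧ s(x, y) ∉ p.edges := by
        intro x y h
        have h1 := f2 x y
        have h2 := f1 x y
        rcases hc x y with h | h | h
        · exact ⟨by omega, h.2⟩
        · omega
        · omega
      obtain ⟨q, q1, q2, q3⟩ := ih (fun x y => f x y - phi p x y)
        (fun x y => by rw [f1, phi_anti]; ring)
        (fun x y => by
          have h1 := f2 x y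
          have h2 := f1 x y
          rcases hc x y with h | h | h <;> omega)
        (fun x y h => f3 x y (key x y h).1)
        (fun U a b => by
          have h1 := f4 U a b
          have h2 := val_phi p U
          unfold val at h1 h2 ⊢
          simp only [sum_sub_distrib, h1, h2, a, b]
          simp)
      have q4 : ∀ i, ∀ e ∈ (q i).edges, e ∉ p.edges := by
        intro i e he
        obtain ⟨d, hd, rfl⟩ := List.mem_map.1 he
        exact (key _ _ (q2 i d hd)).2
      refine ⟨Fin.cons p q, fun i => ?_, fun i => ?_, fun i j => ?_⟩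
      · refine Fin.cases ?_ (fun i => ?_) i
        · exact p1
        · exact q1 i
      · refine Fin.cases ?_ (fun i => ?_) i
        · exact p2
        · exact fun d hd => (key _ _ (q2 i d hd)).1
      · refine Fin.cases ?_ (fun i => ?_) i <;> refine Fin.cases ?_ (fun j => ?_) j
        · simp
        · exact fun _ e h1 h2 => q4 j e h2 h1
        · exact fun _ => q4 i
        · exact fun h => q3 i j fun e => h (by rw [e])
    · have h1 := f4 U u1 u2
      have h2 : val f U ≤ 0 := sum_nonpos fun x hx => sum_nonpos fun y hy =>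
        not_lt.1 (u3 x hx y (mem_compl.1 hy))
      push_cast at h1
      omega

open Classical in
theorem menger (C : V → V → Prop) (hH : ∀ x y, C x y → H.Adj x y) (s t : V) (k : ℕ)
    (hc : ∀ U : Finset V, s ∈ U → t ∉ U → k ≤ ∑ x ∈ U, ∑ y ∈ Uᶜ, if C x y then 1 else 0) :
    ∃ q : Fin k → H.Walk s t, (∀ i, (q i).IsPath) ∧ (∀ i, ∀ d ∈ (q i).darts, C d.fst d.snd) ∧
      ∀ i j, i ≠ j → ∀ e ∈ (q i).edges, e ∉ (q j).edges := by
  have hp : ∀ x y, (0 : ℤ) < (if C x y then 1 else 0) → C x y := fun x y h => by
    by_contra hn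
    simp [hn] at h
  obtain ⟨f, f1, f2, f3⟩ := exists_flow (H := H) (fun x y => if C x y then 1 else 0)
    (fun x y => by split_ifs <;> simp) (fun x y h => hH x y (hp x y h)) s t k
    (fun U a b => by unfold val; beta_reduce; exact_mod_cast hc U a b)
  obtain ⟨q, q1, q2, q3⟩ := decompose (H := H) s t k f f1
    (fun x y => (f2 x y).trans (by split_ifs <;> simp))
    (fun x y h => hH x y (hp x y (h.trans_le (f2 x y)))) f3
  exact ⟨q, q1, fun i d hd => hp _ _ ((q2 i d hd).trans_le (f2 _ _)), q3⟩

/-- Arcs of the split network. -/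
def Arc {n : ℕ} (G : SimpleGraph (Fin n)) (s t : Fin n) (x y : Fin n × Bool) : Prop :=
  (x.2 = false ∧ y.2 = true ∧ x.1 = y.1 ∧ x.1 ≠ s ∧ x.1 ≠ t) ∨
    (x.2 = true ∧ y.2 = false ∧ G.Adj x.1 y.1)

theorem project {n : ℕ} (G : SimpleGraph (Fin n)) (s t : Fin n) {x y : Fin n × Bool}
    (q : (⊤ : SimpleGraph (Fin n × Bool)).Walk x y) (hq : ∀ d ∈ q.darts, Arc G s t d.fst d.snd)
    (hy : y.2 = false) :
    ∃ p : G.Walk x.1 y.1, (∀ d ∈ p.darts, s((d.fst, true), (d.snd, false)) ∈ q.edges) ∧
      ∀ w ∈ p.support, w = y.1 ∨ (x = (w, true)) ∨ s((w, false), (w, true)) ∈ q.edges := by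
  induction q with
  | nil => exact ⟨Walk.nil, by simp, by simp⟩
  | @cons a c b h q ih =>
    simp only [Walk.darts_cons, List.mem_cons, forall_eq_or_imp] at hq
    obtain ⟨p, p1, p2⟩ := ih hq.2 hy
    obtain ⟨a1, a2⟩ := a
    obtain ⟨c1, c2⟩ := c
    rcases hq.1 with ⟨h1, h2, h3, _⟩ | ⟨h1, h2, h3⟩
    · simp only at h1 h2 h3
      subst h1 h2 h3
      refine ⟨p, fun d hd => by simp [p1 d hd], fun w hw => ?_⟩
      rcases p2 w hw with h | h | h
      · exact Or.inl h
      · right; right
        simp [(Prod.mk.inj h).1]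
      · right; right
        simp [h]
    · simp only at h1 h2 h3
      subst h1 h2
      refine ⟨Walk.cons h3 p, fun d hd => ?_, fun w hw => ?_⟩
      · simp only [Walk.darts_cons, List.mem_cons] at hd
        rcases hd with rfl | hd
        · simp
        · simp [p1 d hd]
      · simp only [Walk.support_cons, List.mem_cons] at hw
        rcases hw with rfl | hw
        · simp
        · rcases p2 w hw with h | h | h
          · exact Or.inl h
          · simp at h
          · right; right
            simp [h]

open Classical in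
theorem mixed {n k : ℕ} {G : SimpleGraph (Fin n)} (hk : k < n) (h : VCut n k G) :
    ∀ (m : ℕ) (A B : Finset (Fin n)), A.card + B.card = m → A.Nonempty → B.Nonempty →
      Disjoint A B →
      k + A.card + B.card ≤ n + ∑ a ∈ A, ∑ b ∈ B, if G.Adj a b then 1 else 0 := by
  intro m
  induction m using Nat.strong_induction_on with
  | _ m ih =>
    intro A B hm hA hB hd
    by_cases he : ∀ a ∈ A, ∀ b ∈ B, ¬ G.Adj a b
    · exact (h A B hA hB hd he).trans (Nat.le_add_right _ _)
    push Not at he
    obtain ⟨a, ha, b, hb, hab⟩ := he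
    have ea := add_sum_erase A (fun a => ∑ b ∈ B, if G.Adj a b then 1 else 0) ha
    have h1 : 1 ≤ ∑ b ∈ B, if G.Adj a b then 1 else 0 := le_trans (by simp [hab])
      (single_le_sum (f := fun b => if G.Adj a b then 1 else 0) (fun _ _ => Nat.zero_le _) hb)
    have ca := card_erase_of_mem ha
    have cb := card_erase_of_mem hb
    have pa := card_pos.2 hA
    have pb := card_pos.2 hB
    by_cases hA' : (A.erase a).Nonempty
    · have := ih _ (by omega) (A.erase a) B rfl hA' hB
        (disjoint_of_subset_left (erase_subset _ _) hd)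
      omega
    by_cases hB' : (B.erase b).Nonempty
    · have h2 := ih _ (by omega) A (B.erase b) rfl hA hB'
        (disjoint_of_subset_right (erase_subset _ _) hd)
      have h3 : ∑ a ∈ A, ∑ b ∈ B, (if G.Adj a b then 1 else 0) =
          ∑ a ∈ A, (if G.Adj a b then 1 else 0) +
            ∑ a ∈ A, ∑ b ∈ B.erase b, if G.Adj a b then 1 else 0 := by
        rw [← sum_add_distrib]
        exact sum_congr rfl fun a _ =>
          (add_sum_erase B (fun b => if G.Adj a b then 1 else 0) hb).symm
      have h4 : 1 ≤ ∑ a ∈ A, if G.Adj a b then 1 else 0 := le_trans (by simp [hab])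
        (single_le_sum (f := fun a => if G.Adj a b then 1 else 0) (fun _ _ => Nat.zero_le _) ha)
      omega
    rw [not_nonempty_iff_eq_empty, ← card_eq_zero] at hA' hB'
    omega

end Mg

theorem edgeConn_iff (n k : ℕ) (G : SimpleGraph (Fin n)) : EdgeConn n k G ↔ ECut n k G := by
  classical
  constructor
  · rintro h S ⟨u, hu⟩ hS
    obtain ⟨v, hv⟩ : ∃ v, v ∉ S := by
      by_contra hc
      push Not at hc
      exact hS (eq_univ_iff_forall.2 hc)
    obtain ⟨p, hp⟩ := h u v fun e => hv (e ▸ hu)
    have := fun i => (p i).1.exists_boundary_dart (S : Set (Fin n)) hu hv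
    choose d d1 d2 d3 using this
    rw [← sum_product', ← card_filter]
    refine le_trans (card_fin k).ge (card_le_card_of_injOn (fun i => ((d i).fst, (d i).snd))
      (fun i _ => ?_) fun i _ j _ e => ?_)
    · exact mem_coe.2 (mem_filter.2 ⟨mem_product.2 ⟨d2 i, mem_compl.2 (d3 i)⟩, (d i).adj⟩)
    · by_contra hne
      have e' : d i = d j := Dart.ext _ _ e
      exact hp i j hne _ (List.mem_map_of_mem (d1 i)) (e' ▸ List.mem_map_of_mem (d1 j))
  · intro h u v huv
    obtain ⟨q, q1, _, q3⟩ := Mg.menger (H := G) G.Adj (fun _ _ h => h) u v k fun U a b => by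
      convert h U ⟨u, a⟩ fun e => b (e ▸ mem_univ _)
    exact ⟨fun i => ⟨q i, q1 i⟩, q3⟩

theorem vertConn_iff (n k : ℕ) (G : SimpleGraph (Fin n)) (h : k < n) :
    VertConn n k G ↔ VCut n k G := by
  classical
  constructor
  · rintro hG A B ⟨a, ha⟩ ⟨b, hb⟩ hd hn
    have hbA : b ∉ A := disjoint_right.1 hd hb
    obtain ⟨p, _, hp⟩ := hG a b fun e => hbA (e ▸ ha)
    have := fun i => (p i).1.exists_boundary_dart (A : Set (Fin n)) ha hbA
    choose d d1 d2 d3 using this
    have d4 : ∀ i, (d i).snd ∉ B := fun i hB => hn _ (d2 i) _ hB (d i).adj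
    have h1 : (univ : Finset (Fin k)).card ≤ ((A ∪ B)ᶜ).card := by
      refine card_le_card_of_injOn (fun i => (d i).snd) (fun i _ => ?_) fun i _ j _ e => ?_
      · exact mem_coe.2 (mem_compl.2 fun h => (mem_union.1 h).elim (d3 i) (d4 i))
      · by_contra hne
        have e' : (d i).snd = (d j).snd := e
        rcases hp i j hne _ ((p i).1.dart_snd_mem_support_of_mem_darts (d1 i))
          (e' ▸ (p j).1.dart_snd_mem_support_of_mem_darts (d1 j)) with h | h
        · exact d3 i (h ▸ ha)
        · exact d4 i (h ▸ hb)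
    have h2 := card_le_univ (A ∪ B)
    rw [card_compl, card_union_of_disjoint hd] at h1
    rw [card_union_of_disjoint hd] at h2
    simp only [card_univ, Fintype.card_fin] at h1 h2
    omega
  · intro hG s t hst
    obtain ⟨q, _, q2, q3⟩ := Mg.menger (H := ⊤) (Mg.Arc G s t)
      (fun x y h => by
        rintro rfl
        rcases h with ⟨h1, h2, _⟩ | ⟨h1, h2, _⟩ <;> simp [h1] at h2)
      (s, true) (t, false) k fun U a b => by
        set A := univ.filter fun v => (v, true) ∈ U ∧ v ≠ t ∧ ((v, false) ∈ U ∨ v = s) with hA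
        set B := univ.filter fun v => (v, false) ∉ U ∧ v ≠ s with hB
        set S := univ.filter fun v => (v, false) ∈ U ∧ (v, true) ∉ U with hS
        have h1 := Mg.mixed h hG _ A B rfl ⟨s, by simp [hA, a, hst]⟩ ⟨t, by simp [hB, b, hst.symm]⟩
          (disjoint_left.2 fun v h1 h2 => by
            simp only [hA, hB, mem_filter] at h1 h2
            tauto)
        have h2 : n ≤ A.card + B.card + S.card := by
          refine le_trans (card_fin n).ge (le_trans (card_le_card fun v _ => ?_)
            ((card_union_le (A ∪ B) S).trans (Nat.add_le_add_right (card_union_le A B) _)))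
          simp only [hA, hB, hS, mem_union, mem_filter, mem_univ, true_and]
          by_cases c1 : v = s
          · simp [c1, a, hst]
          · by_cases c2 : v = t
            · simp [c2, b, hst.symm]
            · tauto
        rw [← sum_product', ← card_filter] at h1 ⊢
        have h3 : S.card + ((A ×ˢ B).filter fun x => G.Adj x.1 x.2).card ≤
            ((U ×ˢ Uᶜ).filter fun x => Mg.Arc G s t x.1 x.2).card := by
          rw [← card_disjSum]
          refine card_le_card_of_injOn (Sum.elim (fun v => ((v, false), (v, true)))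
            fun x => ((x.1, true), (x.2, false))) ?_ ?_
          · rintro (v | x) hx
            · have := (mem_filter.1 (inl_mem_disjSum.1 (mem_coe.1 hx))).2
              refine mem_coe.2 (mem_filter.2 ⟨mem_product.2 ⟨this.1, mem_compl.2 this.2⟩,
                Or.inl ⟨rfl, rfl, rfl, ?_, ?_⟩⟩)
              · rintro rfl; exact this.2 a
              · rintro rfl; exact b this.1
            · obtain ⟨e1, e2⟩ := mem_filter.1 (inr_mem_disjSum.1 (mem_coe.1 hx))
              obtain ⟨e3, e4⟩ := mem_product.1 e1
              exact mem_coe.2 (mem_filter.2 ⟨mem_product.2 ⟨(mem_filter.1 e3).2.1,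
                mem_compl.2 (mem_filter.1 e4).2.1⟩, Or.inr ⟨rfl, rfl, e2⟩⟩)
          · rintro (v | x) _ (w | y) _ e <;> simp [Prod.ext_iff] at e ⊢ <;> tauto
        omega
    have := fun i => Mg.project G s t (q i) (q2 i) rfl
    choose p p1 p2 using this
    refine ⟨fun i => (p i).toPath, fun i j e => ?_, fun i j hij w h1 h2 => ?_⟩
    · by_contra hne
      obtain ⟨d, d1, _⟩ := ((p i).toPath).1.exists_boundary_dart {s} rfl hst.symm
      have e' : (p i).toPath = (p j).toPath := e
      exact q3 i j hne _ (p1 i d ((p i).darts_bypass_subset_darts d1))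
        (p1 j d ((p j).darts_bypass_subset_darts (e' ▸ d1 : d ∈ ((p j).toPath).1.darts)))
    · rcases p2 i w ((p i).support_bypass_subset_support h1) with h | h | h
      · exact Or.inr h
      · exact Or.inl (Prod.mk.inj h).1.symm
      · rcases p2 j w ((p j).support_bypass_subset_support h2) with h' | h' | h'
        · exact Or.inr h'
        · exact Or.inl (Prod.mk.inj h').1.symm
        · exact absurd h' (q3 i j hij _ h)

theorem edgeConn_lt (n k : ℕ) (G : SimpleGraph (Fin n)) (h : EdgeConn n k G) (hn : 2 ≤ n) :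
    k < n := by
  classical
  have := (edgeConn_iff n k G).1 h {⟨0, by omega⟩} (singleton_nonempty _) fun e => by
    have := congrArg card e
    simp at this
    omega
  rw [sum_singleton, ← card_filter] at this
  have h2 := this.trans (card_filter_le _ _)
  simp [card_compl] at h2
  omega

theorem vertConn_lt (n k : ℕ) (G : SimpleGraph (Fin n)) (h : VertConn n k G) (hn : 2 ≤ n) :
    k < n := by
  classical
  set u : Fin n := ⟨0, by omega⟩
  set v : Fin n := ⟨1, by omega⟩
  have huv : u ≠ v := by simp [u, v]
  obtain ⟨p, p1, p2⟩ := h u v huv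
  have h1 : (univ : Finset (Fin k)).card ≤ (({u} : Finset (Fin n))ᶜ).card := by
    refine card_le_card_of_injOn (fun i => (p i).1.snd) (fun i _ => ?_) fun i _ j _ e => ?_
    · simpa using ((p i).1.adj_snd (Walk.not_nil_of_ne huv)).ne'
    · by_contra hne
      have e' : (p i).1.snd = (p j).1.snd := e
      have a1 := (p i).1.adj_snd (Walk.not_nil_of_ne huv)
      rcases p2 i j hne (p i).1.snd ((p i).1.getVert_mem_support 1)
        (by rw [e']; exact (p j).1.getVert_mem_support 1) with h | h
      · exact a1.ne' h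
      · have key : ∀ {u v : Fin n} (q : G.Path u v), q.1.snd = v → ∀ a : G.Adj u v,
            q.1 = Walk.cons a Walk.nil := by
          rintro u v ⟨q, hq⟩ h a
          cases q with
          | nil => exact absurd rfl a.ne
          | cons a' q =>
            simp only [Walk.snd_cons] at h
            subst h
            have := (Walk.isPath_iff_nil.1 hq.of_cons).eq_nil
            subst this
            rfl
        have a2 : G.Adj u v := h ▸ a1
        exact hne (p1 (Subtype.ext ((key _ h a2).trans (key _ (e' ▸ h) a2).symm)))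
  simp [card_compl] at h1
  omega

end Pool.Agent.Lib.MP_959bb6_lc
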