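import Mathlib
import Pool.Agent.Lib.MP_959bb6_lc.DP

/-!
The scheme for bounded `k` and its combination with the scheme for large `k`.
-/

set_option autoImplicit false

namespace Pool.Agent.Lib.MP_959bb6_lc

open Pool.Agent.Shared.PolyTime Enc Finset

namespace Rd

variable {d : ℕ}

def ltc (d : ℕ) (P : Pts) (u v j : ℕ) : Bool :=
  bif (co P u j).1 then !(co P v j).1 || Bin.lt (sc d P v j) (sc d P u j) else
    !(co P v j).1 && Bin.lt (sc d P u j) (sc d P v j)

def rk (d : ℕ) (P : Pts) : List (List ℕ) := tab P.length fun u => tab (d + 1) fun j =>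
  bif Nat.blt j d then cntB P.length fun z => ltc d P z u j else u

@[fun_prop] theorem pf_rk {α : Type} [Enc α] (d : ℕ) {P : α → Pts} (h : PF P) :
    PF fun a => rk d (P a) := by unfold rk ltc; fun_prop

theorem ltc_iff (I : Inst d) (u v : Fin I.n) (j : Fin d) :
    ltc d (pts I) u v j = true ↔ (I.pt u j : ℝ) < I.pt v j := by
  have hD : (0 : ℝ) < den I := by exact_mod_cast den_pos I
  have e : ∀ u v : Fin I.n, Bin.lt (sc d (pts I) u j) (sc d (pts I) v j) = true ↔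
      |(I.pt u j : ℝ)| < |(I.pt v j : ℝ)| := fun u v => by
    rw [Bin.lt, decide_eq_true_eq, ← Nat.cast_lt (α := ℝ), sc_eq, sc_eq, mul_lt_mul_iff_left₀ hD]
  have s : ∀ u : Fin I.n, (I.pt u j).num < 0 ↔ (I.pt u j : ℝ) < 0 := fun u => by
    rw [Rat.num_neg, Rat.cast_lt_zero]
  simp only [ltc, co_pts, Bool.cond_eq_ite, apply_ite (· = true), Bool.or_eq_true, e, s,
    Bool.and_eq_true, Bool.not_eq_true', decide_eq_false_iff_not, decide_eq_true_eq]
  generalize (I.pt u j : ℝ) = a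
  generalize (I.pt v j : ℝ) = b
  rcases abs_cases a with h | h <;> rcases abs_cases b with g | g <;> rw [h.1, g.1] <;>
    split_ifs <;> grind

theorem nat2_rk (I : Inst d) {u j : ℕ} (hu : u < I.n) (hj : j < d + 1) : nat2 (rk d (pts I)) u j =
    if j < d then ((range I.n).filter fun z => ltc d (pts I) z u j = true).card else u := by
  rw [nat2, rk, length_pts, getD_tab _ _ hu, getD_tab _ _ hj]
  simp only [Bool.cond_eq_ite, Nat.blt_eq, cntB_eq]

theorem exists_geo (I : Inst d) {lam : ℝ} (hl : 0 ≤ lam) : ∃ x, Geo (d + 1) I.n (cM I lam) x ∧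
    ∀ u v i, u < I.n → v < I.n → i < d + 1 → x u i < x v i →
      nat2 (rk d (pts I)) u i < nat2 (rk d (pts I)) v i := by
  obtain ⟨B, hB⟩ := (Set.finite_range fun p : Fin I.n × Fin d => (I.pt p.1 p.2 : ℝ)).bddBelow
  have b : ∀ u j, 0 ≤ lam * ((I.pt u j : ℝ) - B) := fun u j =>
    mul_nonneg hl (sub_nonneg.2 (hB ⟨(u, j), rfl⟩))
  refine ⟨fun u i => if h : u < I.n ∧ i < d then ⌊lam * ((I.pt ⟨u, h.1⟩ ⟨i, h.2⟩ : ℝ) - B)⌋₊
    else u, ⟨fun u v i hu hv _ => ?_, fun u v ρ hu hv h => ?_⟩, fun u v i hu hv hi h => ?_⟩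
  · simp only [cM, hu, hv, true_and, dif_pos]
    split_ifs with c
    swap
    · omega
    refine le_trans ?_ (Nat.add_le_add_left ((Nat.le_add_right _ _).trans (Nat.le_add_right _ _)) _)
    rw [← Nat.floor_add_natCast (b _ _)]
    refine Nat.floor_mono (le_trans ?_ (add_le_add_right (Nat.le_ceil _) _))
    have := (le_abs_self _).trans (PiLp.dist_apply_le (I.point ⟨u, hu⟩) (I.point ⟨v, hv⟩) ⟨i, c⟩)
    have := mul_le_mul_of_nonneg_left this hl
    simp only [Inst.point] at this ⊢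
    linarith
  · have e := h d (by omega)
    simp only [lt_self_iff_false, and_false, dif_neg, not_false_eq_true] at e
    rcases Nat.eq_zero_or_pos ρ with rfl | p
    · obtain rfl : u = v := by omega
      exact ((isMet_cM I hl).self u hu).le
    have p' : (1 : ℝ) ≤ ρ := by exact_mod_cast p
    have f : lam * dist (I.point ⟨u, hu⟩) (I.point ⟨v, hv⟩) ≤ (d * (2 * ρ) : ℕ) := by
      refine (sq_le_sq₀ (by positivity) (by positivity)).1 ?_
      rw [mul_pow, EuclideanSpace.dist_sq_eq, mul_sum]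
      refine le_trans (sum_le_card_nsmul _ _ ((2 * ρ : ℝ) ^ 2) fun j _ => ?_) ?_
      · obtain ⟨g1, g2⟩ := h j (by omega)
        simp only [hu, hv, j.2, and_self, dif_pos, Fin.eta] at g1 g2
        have g1 := (Nat.cast_le (α := ℝ)).2 g1
        have g2 := (Nat.cast_le (α := ℝ)).2 g2
        have := Nat.floor_le (b ⟨u, hu⟩ j)
        have := Nat.floor_le (b ⟨v, hv⟩ j)
        have := Nat.lt_floor_add_one (lam * ((I.pt ⟨u, hu⟩ j : ℝ) - B))
        have := Nat.lt_floor_add_one (lam * ((I.pt ⟨v, hv⟩ j : ℝ) - B))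
        push_cast at g1 g2
        rw [Real.dist_eq, sq_abs, ← mul_pow]
        simp only [Inst.point]
        exact sq_le_sq' (by linarith) (by linarith)
      · simp only [card_univ, Fintype.card_fin, nsmul_eq_mul]
        push_cast
        rw [mul_pow (d : ℝ)]
        exact mul_le_mul_of_nonneg_right (by exact_mod_cast Nat.le_self_pow two_ne_zero d)
          (by positivity)
    have := Nat.ceil_le.2 f
    simp only [cM, hu, hv, and_self, dif_pos]
    have : 2 * (d + 1) * ρ = d * (2 * ρ) + 2 * ρ := by ring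
    omega
  · rw [nat2_rk I hu hi, nat2_rk I hv hi]
    simp only [hu, hv, true_and] at h
    split_ifs at h ⊢ with c
    swap
    · exact h
    have g : (I.pt ⟨u, hu⟩ ⟨i, c⟩ : ℝ) < I.pt ⟨v, hv⟩ ⟨i, c⟩ := not_le.1 fun a =>
      absurd h (not_lt.2 (Nat.floor_mono (mul_le_mul_of_nonneg_left (by linarith) hl)))
    refine card_lt_card ((Finset.ssubset_iff_of_subset (monotone_filter_right _ fun z hz a =>
      (ltc_iff I ⟨z, mem_range.1 hz⟩ ⟨v, hv⟩ ⟨i, c⟩).2 (((ltc_iff I ⟨z, mem_range.1 hz⟩ ⟨u, hu⟩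
        ⟨i, c⟩).1 a).trans g))).2 ⟨u, mem_filter.2 ⟨mem_range.2 hu,
          (ltc_iff I ⟨u, hu⟩ ⟨v, hv⟩ ⟨i, c⟩).2 g⟩, fun a => ?_⟩)
    exact lt_irrefl _ ((ltc_iff I ⟨u, hu⟩ ⟨u, hu⟩ ⟨i, c⟩).1 (mem_filter.1 a).2)

theorem transfer2 {P : (n k : ℕ) → SimpleGraph (Fin n) → Prop}
    (hlt : ∀ n k G, P n k G → 2 ≤ n → k < n)
    (hcon : ∀ n k G, P n k G → 1 ≤ k → G.Preconnected)
    (hsmall : ∀ n k G G', n ≤ 1 → P n k G → P n k G')
    (hzero : ∀ n G, P n 0 G) {δ : ℕ} {alg : ℕ × Dp.In → Mat} (hpf : PF alg)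
    (h : ∀ (I : Inst d) (lam : ℝ), 0 ≤ lam → I.k < I.n → ∀ G, P I.n I.k G →
      P I.n I.k (graphOf I.n (alg (I.k, tab2 I.n (cM I lam), rk d (pts I)))) ∧
        δ * costN I.n (cM I lam) (graphOf I.n (alg (I.k, tab2 I.n (cM I lam), rk d (pts I)))) ≤
          (δ + 1) * costN I.n (cM I lam) G)
    {ε : ℝ} (hδ : 0 < δ) (hε : ((δ : ℝ) + 1) ^ 2 ≤ (1 + ε) * δ ^ 2) :
    Approximable d P (fun _ => True) ε := by
  classical
  set run : Bin × Pts → List (List Bool) := fun x => alg (kA x.1 x.2.length,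
    tab2 x.2.length (cA d (δ * (x.2.length ^ 2 * (x.2.length + 1))) x.2), rk d x.2) with hrun
  have h1 : PF run := hpf.comp (by fun_prop)
  have h2 : PF fun x : Bin × Pts => tab2 x.2.length fun i j =>
      !(i == j) && (entry (run x) i j || entry (run x) j i) :=
    pf_tab2 (by fun_prop) (PF.and' (by fun_prop) (PF.or'
      (PF.entry (h1.comp (by fun_prop)) (by fun_prop) (by fun_prop))
      (PF.entry (h1.comp (by fun_prop)) (by fun_prop) (by fun_prop))))
  refine ⟨fun I => graphOf I.n (run (⟨I.k⟩, pts I)),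
    PF.tm2 h2 _ _ _ (fun I => (⟨I.k⟩, pts I)) code_eq fun I => ?_, fun I _ G hG => ?_⟩
  · rw [encGraph_eq, adjMatrix_eq _ fun i j =>
      !(i == j) && (entry (run (⟨I.k⟩, pts I)) i j || entry (run (⟨I.k⟩, pts I)) j i)]
    · simp only [length_pts]; rfl
    · intro i j
      simp [graphOf, Fin.ext_iff]
  have hδ' : (0 : ℝ) < δ := by exact_mod_cast hδ
  have hε0 : 0 ≤ 1 + ε := by
    by_contra hc
    have := mul_neg_of_neg_of_pos (not_le.1 hc) (pow_pos hδ' 2)
    nlinarith [sq_nonneg ((δ : ℝ) + 1)]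
  rcases lt_or_ge I.n 2 with hn | hn
  · refine ⟨hsmall _ _ _ _ (by omega) hG, ?_⟩
    have z : ∀ G : SimpleGraph (Fin I.n), I.cost G = 0 := fun G =>
      sum_eq_zero fun i _ => sum_eq_zero fun j _ => if_neg fun h => by
        have := h.1; omega
    simp [z]
  have hk := hlt _ _ _ hG hn
  obtain ⟨⟨a, b⟩, _, hab⟩ := exists_max_image (univ : Finset (Fin I.n × Fin I.n))
    (fun x => dist (I.point x.1) (I.point x.2)) ⟨(⟨0, by omega⟩, ⟨0, by omega⟩), mem_univ _⟩
  set Δ := dist (I.point a) (I.point b) with hΔ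
  have hΔ0 : 0 < Δ := by
    refine lt_of_lt_of_le (dist_pos.2 fun e => ?_) (hab (⟨0, by omega⟩, ⟨1, by omega⟩) (mem_univ _))
    have : I.pt ⟨0, by omega⟩ = I.pt ⟨1, by omega⟩ := by
      funext j
      have := congrArg (fun x : EuclideanSpace ℝ (Fin d) => x j) e
      simpa [Inst.point] using this
    simpa using I.inj this
  set L := δ * (I.n ^ 2 * (I.n + 1)) with hL
  have hL0 : (0 : ℝ) < L := by
    have : 0 < L := by positivity
    exact_mod_cast this
  have hl : 0 < (L : ℝ) / Δ := div_pos hL0 hΔ0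
  have e : run (⟨I.k⟩, pts I) = alg (I.k, tab2 I.n (cM I (L / Δ)), rk d (pts I)) := by
    simp only [hrun, length_pts, kA_eq hk.le]
    congr 3
    exact tab2_congr fun i j hi hj => cA_eq I hΔ0 (fun a b => hab (a, b) (mem_univ _))
      ⟨a, b, rfl⟩ ⟨i, hi⟩ ⟨j, hj⟩
  have hs := h I _ hl.le hk
  simp only [e]
  refine ⟨(hs G hG).1, ?_⟩
  generalize graphOf I.n (alg (I.k, tab2 I.n (cM I (L / Δ)), rk d (pts I))) = A at hs
  have g1 := costN_ge I (L / Δ) A
  have g0 := cost2_nonneg I G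
  suffices cost2 I A ≤ (1 + ε) * cost2 I G by
    rw [cost2_eq, cost2_eq] at this
    linarith
  rcases Nat.eq_zero_or_pos I.k with h0 | h0
  · have g2 := (hs ⊥ (h0 ▸ hzero _ _)).2
    have g3 : costN I.n (cM I (L / Δ)) ⊥ = 0 := by simp [costN]
    rw [g3, mul_zero, Nat.le_zero, mul_eq_zero] at g2
    rw [g2.resolve_left hδ.ne', Nat.cast_zero] at g1
    have := le_of_mul_le_mul_left (g1.trans_eq (mul_zero _).symm) hl
    exact this.trans (mul_nonneg hε0 g0)
  have g2 : (δ : ℝ) * costN I.n (cM I (L / Δ)) A ≤ (δ + 1) * costN I.n (cM I (L / Δ)) G := by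
    exact_mod_cast (hs G hG).2
  have g3 := costN_le I hl.le G
  have g4 : (L : ℝ) ≤ L / Δ * cost2 I G := by
    rw [div_mul_eq_mul_div, le_div_iff₀ hΔ0]
    exact mul_le_mul_of_nonneg_left (dist_le_cost2 I (hcon _ _ _ hG h0) a b) hL0.le
  have g5 : (L : ℝ) = δ * (I.n ^ 2 * (I.n + 1) : ℕ) := by rw [hL]; push_cast; ring
  have g6 : (δ : ℝ) * costN I.n (cM I (L / Δ)) G ≤ (δ + 1) * (L / Δ * cost2 I G) := by
    nlinarith [mul_le_mul_of_nonneg_left g3 hδ'.le]
  have g7 : (δ : ℝ) ^ 2 * (L / Δ * cost2 I A) ≤ (δ + 1) ^ 2 * (L / Δ * cost2 I G) := by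
    nlinarith [mul_le_mul_of_nonneg_left g1 (sq_nonneg (δ : ℝ)),
      mul_le_mul_of_nonneg_left g2 hδ'.le,
      mul_le_mul_of_nonneg_left g6 (show (0 : ℝ) ≤ δ + 1 by positivity)]
  have g8 := mul_le_mul_of_nonneg_right hε (mul_nonneg hl.le g0)
  have g9 : (δ : ℝ) ^ 2 * (L / Δ) * cost2 I A ≤ δ ^ 2 * (L / Δ) * ((1 + ε) * cost2 I G) := by
    nlinarith
  exact le_of_mul_le_mul_left g9 (by positivity)

theorem small {P : (n k : ℕ) → SimpleGraph (Fin n) → Prop} {w : ℕ → ℕ} (hw : ∀ k, 0 < w k)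
    (hP : ∀ n k M, Sym n M → k < n → (P n k (graphOf n M) ↔ MC (w k) n k M)) (δ K : ℕ) :
    ∃ alg : ℕ × Dp.In → Mat, PF alg ∧ ∀ (I : Inst d) (lam : ℝ), 0 ≤ lam → I.k < K → I.k < I.n →
      ∀ G, P I.n I.k G → P I.n I.k (graphOf I.n (alg (I.k, tab2 I.n (cM I lam), rk d (pts I)))) ∧
        δ * costN I.n (cM I lam) (graphOf I.n (alg (I.k, tab2 I.n (cM I lam), rk d (pts I)))) ≤
          (δ + 1) * costN I.n (cM I lam) G := by
  induction K with
  | zero => exact ⟨fun _ => [], PF.const _, fun _ _ _ h => absurd h (by omega)⟩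
  | succ K ih =>
    obtain ⟨A, a1, a2⟩ := ih
    obtain ⟨R, hR⟩ := exists_dec (d + 1) K (2 * (d + 1) * δ)
    obtain ⟨B, b1, b2⟩ := Dp.dp (w K) (d + 1) R K
    refine ⟨fun x => bif x.1 == K then B x.2 else A x, PF.cond' (by fun_prop)
      (b1.comp (by fun_prop)) a1, fun I lam hl h1 h2 G hG => ?_⟩
    rcases eq_or_ne I.k K with e | e
    swap
    · simp only [beq_eq_false_iff_ne.2 e, cond_false]
      exact a2 I lam hl (by omega) h2 G hG
    simp only [beq_iff_eq.2 e, cond_true]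
    obtain ⟨x, x1, x2⟩ := exists_geo I hl
    obtain ⟨G', g1, g2, g3, g4⟩ := hR (hw K) (by omega) (isMet_cM I hl).tab (x := x)
      ⟨fun u v i hu hv hi => by rw [nat2_tab2 _ hu hv]; exact x1.lo u v i hu hv hi,
        fun u v ρ hu hv h => by rw [nat2_tab2 _ hu hv]; exact x1.hi u v ρ hu hv h⟩ (sym_adj G)
      (e ▸ (hP _ _ _ (sym_adj G) h2).1 (by rwa [graphOf_adj]))
    have := b2 (tab2 I.n (cM I lam), rk d (pts I)) x G'
    simp only [length_tab2] at this
    obtain ⟨c1, c2, c3⟩ := this (fun u i hu hi => by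
      rw [nat2_rk I hu hi]
      split_ifs
      · exact (card_filter_le _ _).trans (card_range _).le
      · exact hu.le) x2 g1 g2 g3
    refine ⟨(hP _ _ _ c1 h2).2 (e ▸ c2), ?_⟩
    rw [c1.costN, ← graphOf_adj G, (sym_adj G).costN]
    refine (Nat.mul_le_mul_left _ c3).trans (Nat.le_of_mul_le_mul_left ?_
      (show 0 < 2 * (d + 1) by omega))
    rwa [← mul_assoc, ← mul_assoc, mul_add, mul_one]

end Rd

theorem full {P : (n k : ℕ) → SimpleGraph (Fin n) → Prop}
    (hlt : ∀ n k G, P n k G → 2 ≤ n → k < n)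
    (hcon : ∀ n k G, P n k G → 1 ≤ k → G.Preconnected)
    (hsmall : ∀ n k G G', n ≤ 1 → P n k G → P n k G')
    (hzero : ∀ n G, P n 0 G) (hcore : Core P) {w : ℕ → ℕ} (hw : ∀ k, 0 < w k)
    (hP : ∀ n k M, Sym n M → k < n → (P n k (graphOf n M) ↔ MC (w k) n k M)) (d : ℕ) {ε : ℝ}
    (hε : 0 < ε) : Approximable d P (fun _ => True) ε := by
  obtain ⟨δ, hδ⟩ := exists_nat_ge (3 / ε + 1)
  have h0 : 0 < 3 / ε := by positivity
  have h1 : (1 : ℝ) ≤ δ := by linarith
  have h2 : 3 ≤ ε * δ := by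
    have : 3 / ε ≤ δ := by linarith
    rwa [div_le_iff₀' hε] at this
  obtain ⟨K, A, a1, a2⟩ := hcore (Rd.JJ d) δ
  obtain ⟨B, b1, b2⟩ := Rd.small (d := d) hw hP δ K
  refine Rd.transfer2 hlt hcon hsmall hzero (δ := δ)
    (alg := fun x => bif Nat.blt x.1 K then B x else A (x.1, x.2.1))
    (PF.cond' (by fun_prop) b1 (a1.comp (by fun_prop))) (fun I lam hl hk G hG => ?_)
    (by exact_mod_cast (zero_lt_one.trans_le h1)) (by nlinarith)
  simp only [Bool.cond_eq_ite, Nat.blt_eq]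
  split_ifs with c
  · exact b2 I lam hl c hk G hG
  · exact a2 _ _ _ (Rd.isMet_cM I hl) (Rd.doubling_cM I hl) (not_lt.1 c) hk G hG

end Pool.Agent.Lib.MP_959bb6_lc
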