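import Mathlib
import Pool.Agent.Lib.MP_959bb6_lc.VAdj

-- part Pool.Agent.Lib.MP_959bb6_lc.VConn
section

/-!
The output has no small vertex cut: the cases with few nodes on one side.
-/

set_option autoImplicit false

namespace Pool.Agent.Lib.MP_959bb6_lc.Vx

open Pool.Agent.Shared.PolyTime Enc Finset
open Co (nd op at1)

variable {I : In} {A B : Finset ℕ}

theorem div_mu (_ : Ok I) {i : ℕ} (hi : i < pp I) : i / mu I < mm I :=
  Nat.div_lt_of_lt_mul (by rwa [mul_comm])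

theorem ev_blk (h : Ok I) (p : ℕ) {i : ℕ} (hi : i < pp I) :
    ev I (p * mm I + i / mu I) (i % mu I) = vx I p i := by
  rw [ev, blk_div (div_mu h hi), blk_mod (div_mu h hi), Nat.div_add_mod']

theorem mem_at1 {E : EL} {e x : ℕ} : x ∈ at1 E e ↔ x < 2 * E.length ∧ nd E x = e := by simp [at1]

theorem itr_iff {i : ℕ} : itr I i = true ↔
    i < pp I ∧ lam I ≤ i % mu I ∧ i % mu I + lam I < mu I := by simp [itr, and_assoc]

theorem bun_at (h : Ok I) (f : Fe I) (np : ¬ poor I = true) {p i x : ℕ} (hi : i < pp I)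
    (hx : x ∈ at1 (bl I) (p * mm I + i / mu I)) :
    Adj I (vx I p i) (ev I (nd (bl I) (op x)) (mv I x (i % mu I))) ∧
      nd (bl I) (op x) / mm I < nN I ∧ nd (bl I) (op x) / mm I ≠ p := by
  obtain ⟨a, b⟩ := mem_at1.1 hx
  have c := bun_nd f a
  have d := adj_bun h f np a (Nat.mod_lt i h.num.2.2.2.2.2.1)
  rw [b, blk_div (div_mu h hi)] at c
  rw [b, ev_blk h p hi] at d
  exact ⟨d, c.2⟩

theorem exists_bts (h : Ok I) (f : Fe I) (np : ¬ poor I = true) {p : ℕ} (hp : p < nN I) (i : ℕ) :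
    ∃ T : Finset ℕ, T.card = db I p i ∧ ∀ w ∈ T, Adj I (vx I p i) w ∧
      ∃ q r, q < nN I ∧ q ≠ p ∧ r < pp I ∧ w = vx I q r := by
  by_cases c : itr I i = true
  swap
  · exact ⟨∅, by simp [db, c], by simp⟩
  obtain ⟨a, b, d⟩ := itr_iff.1 c
  refine ⟨(at1 (bl I) (p * mm I + i / mu I)).image fun x =>
    ev I (nd (bl I) (op x)) (mv I x (i % mu I)), ?_, fun w hw => ?_⟩
  · rw [card_image_of_injOn fun x hx y hy e => ?_, db, c, cond_true, sumB_eq]
    · exact f.bu.load hp (div_mu h a)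
    · obtain ⟨e1, e2⟩ := ev_eq h (bun_at h f np a hx).2.1 (bun_at h f np a hy).2.1 (mv_lt h _ _)
        (mv_lt h _ _) e
      have hx := mem_at1.1 hx
      have hy := mem_at1.1 hy
      obtain ⟨j, hj⟩ := Nat.exists_eq_add_of_le b
      rw [hj, mv_int f hx.1 (by omega), mv_int f hy.1 (by omega)] at e2
      exact f.bu.inj hx.1 hy.1 (hx.2.trans hy.2.symm) e1 (by omega)
  · obtain ⟨x, hx, rfl⟩ := mem_image.1 hw
    obtain ⟨e1, e2, e3⟩ := bun_at h f np a hx
    exact ⟨e1, _, _, e2, e3, blk_lt h _ (mv_lt h _ _), rfl⟩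

theorem Sp.sum3 (s : Sp I A B) {D E F : Finset ℕ} (a : ∀ v ∈ D, v < nn I ∧ v ∉ A ∧ v ∉ B ∧ v ∉ E ∧
    v ∉ F) (b : ∀ v ∈ E, v < nn I ∧ v ∉ A ∧ v ∉ B ∧ v ∉ F) (c : ∀ v ∈ F, v < nn I ∧ v ∉ A ∧ v ∉ B) :
    D.card + E.card + F.card < kk I := by
  rw [add_assoc, ← card_union_of_disjoint (Finset.disjoint_left.2 fun v hv => (b v hv).2.2.2),
    ← card_union_of_disjoint (Finset.disjoint_left.2 fun v hv => by simp [a v hv])]
  refine s.lt fun v hv => ?_
  simp only [mem_union] at hv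
  rcases hv with hv | hv | hv
  · simp [a v hv]
  · simp [b v hv]
  · exact c v hv

/-- The points of a node outside `A`. -/
def qo (I : In) (A : Finset ℕ) (p : ℕ) : Finset ℕ := (ball I (ctr I p) (qq I p)).filter (· ∉ A)

theorem mem_qo {p v : ℕ} : v ∈ qo I A p ↔ v < nn I ∧ rp I p v < qq I p ∧ v ∉ A := by
  simp [qo, mem_ball, rp, and_assoc]

theorem card_qo (h : Ok I) {p : ℕ} (hp : p < nN I) :
    ((ball I (ctr I p) (qq I p)).filter (· ∈ A)).card + (qo I A p).card = qq I p := by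
  rw [qo, card_filter_add_card_filter_not, card_ball _ ((qq_bd h hp).2.trans h.lt.le)]

theorem Thin.few (h : Ok I) {p : ℕ} (hp : p < nN I) (t : Thin I A p) :
    ((ball I (ctr I p) (qq I p)).filter (· ∈ A)).card < et I :=
  lt_of_le_of_lt (card_le_card fun v hv => by
    have := qq_bd h hp
    simp only [mem_filter, mem_ball] at hv ⊢
    exact ⟨⟨hv.1.1, by omega⟩, hv.2⟩) t

theorem hv_b (h : Ok I) {p j : ℕ} (hp : p < nN I) (hj : j < hh I p) (t : ¬ ta I p = true) :
    hv I p j < nn I ∧ qq I p ≤ rp I p (hv I p j) ∧ rp I p (hv I p j) < kt I := by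
  obtain ⟨r, a, _, _, d⟩ := hv_spec h hp hj
  have := h.lt
  rw [a, ((mt_spec hp).2.2 t).1, d t, hh] at *
  rw [rp_vx (by omega)]
  exact ⟨vx_lt (by omega), by omega, by omega⟩

theorem tb_hv (h : Ok I) {p v : ℕ} (hp : p < nN I) (hv : v < nn I) (g : gp I p = true)
    (a : ¬ ta I p = true) (e' : qq I p ≤ rp I p v) (e : rp I p v < kt I) :
    lo I v = true ∧ pi I v = p ∧ ¬ inn I v = true ∧ cv I p v ≤ sg I * rN I p ∧
      sg I * rN I p ≤ 40 * (sg I ^ 4 * rr I v) := by
  obtain ⟨b, c, d⟩ := tb_near h hp hv g a e e'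
  have := Nat.mul_le_mul_left (sg I) d
  rw [mul_left_comm, ← mul_assoc (sg I)] at this
  have := (h.p4 (rr I v)).1
  have := cv_le h e.le
  have := h.s10 (rN I p)
  exact ⟨b, c, by rw [inn_iff, c]; omega, by omega, by omega⟩

theorem nr_of {p z : ℕ} (np : ¬ poor I = true) (a : nr I p z = true) :
    cv I p z ≤ sg I * rN I p := by simpa [nr, np] using a

theorem Sp.small' (h : Ok I) (f : Fe I) (s : Sp I A B) (np : ¬ poor I = true) {p : ℕ}
    (hp : p < nN I) (g : gp I p = true) (only : ∀ q, q < nN I → Mt I A q → q = p) (a : Mt I A p)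
    (few : ((ball I (ctr I p) (qq I p)).filter (· ∈ A)).card ≤ et I)
    (r : ¬ ta I p = true ∨ twin I = true) : Thin I B p ∧ Thin I B (mt I p) := by
  have n := h.num
  have q := qq_bd h hp
  have c1 := card_qo (A := A) h hp
  have d1 : ∀ v ∈ qo I A p, v < nn I ∧ v ∉ A ∧ v ∉ B ∧ pi I v = p ∧ inn I v = true :=
    fun v hv => by
    obtain ⟨b, c, d⟩ := mem_qo.1 hv
    have e := (pi_mem h hp b c).1
    exact ⟨b, d, fun e => s.both h hp a ⟨v, e, c⟩, e, inn_iff.2 (e.symm ▸ c)⟩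
  by_cases c : tt I ≤ 2 * hh I p
  swap
  · have := s.lt (D := qo I A p) fun v hv => by simp [d1 v hv]
    rw [hh] at c
    omega
  have br : bb I p + je I + et I ≤ breq I p := by
    have : rich I p = true := by simpa [rich, c] using r
    simp only [breq, np, g, this, Bool.not_true, Bool.or_self, cond_false, cond_true]
    omega
  obtain ⟨u, hu, a'⟩ := a
  have eu := vx_rp (p := p) (s.a u hu)
  obtain ⟨T, t1, t2⟩ := adj_grp h hp a'
  obtain ⟨Z, z1, z2⟩ := exists_bts h f np hp (rp I p u)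
  rw [eu] at t2 z2
  have k : ∀ w ∈ stars I p (rp I p u) ∪ T, w < nn I ∧ Adj I u w ∧ (inn I w = true →
      pi I w ≠ p ∧ pp I ≤ rp I (pi I w) w) ∧ (w ∈ A → lo I w = true ∧
        cv I p w ≤ sg I * rN I p ∧ sg I * rN I p ≤ 40 * (sg I ^ 4 * rr I w)) := fun w hw => by
    rcases mem_union.1 hw with hw | hw
    · obtain ⟨b1, _, b2, b3, b4, b5, b6⟩ := mem_stars h f.toFe1 hp hw
      exact ⟨b1, eu ▸ b2, fun c => absurd c b5, fun _ => ⟨b4, nr_of np b3, b6⟩⟩
    · obtain ⟨_, b, j, hj, rfl⟩ := t2 w hw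
      by_cases t : ta I p = true
      · obtain ⟨r, e, _, d, _⟩ := hv_spec h hp hj
        have m := mt_spec hp
        obtain ⟨b1, b2, b3, _⟩ := vx_mem h m.1 (d t).2
        rw [e] at b ⊢
        exact ⟨b1, b, fun _ => by rw [b3, b2]; exact ⟨(m.2.1 t).2.1, by have := d t; omega⟩,
          fun c => absurd (only _ m.1 ⟨_, c, b2.symm ▸ (d t).2⟩) (m.2.1 t).2.1⟩
      · obtain ⟨b1, b2, b3⟩ := hv_b h hp hj t
        obtain ⟨b4, _, b5, b6⟩ := tb_hv h hp b1 g t b2 b3
        exact ⟨b1, b, fun c => absurd c b5, fun _ => ⟨b4, b6⟩⟩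
  by_cases c2 : je I ≤ ((stars I p (rp I p u) ∪ T).filter (· ∈ A)).card
  · obtain ⟨w, hw, b1, b2⟩ := s.heavy h (ρ := sg I * rN I p) (ctr_lt hp)
      (by have := h.s10 (rN I p); change rN I p ≤ _; omega) (fun w hw =>
        ⟨(mem_filter.1 hw).2, (k w (mem_filter.1 hw).1).2.2.2 (mem_filter.1 hw).2⟩) c2
    by_cases e : pi I w = p
    · exact ⟨e ▸ b1, e ▸ b2⟩
    have l := pi_lt h (k w (mem_filter.1 hw).1).1
    have := s.sum3 (D := qo I A p) (E := qo I B (pi I w)) (F := ∅) (fun v hv => by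
      obtain ⟨b1, b2, b3, b4, _⟩ := d1 v hv
      exact ⟨b1, b2, b3, fun c => e ((pi_mem h l b1 (mem_qo.1 c).2.1).1.symm.trans b4), by simp⟩)
      (fun v hv => by
        obtain ⟨b1, b2, b3⟩ := mem_qo.1 hv
        exact ⟨b1, fun c => e (only _ l ⟨v, c, b2⟩), b3, by simp⟩) (by simp)
    have := card_qo (A := B) h l
    have := b1.few h l
    have := qq_bd h l
    omega
  have z3 : ∀ w ∈ Z, w < nn I ∧ pi I w ≠ p ∧ inn I w = true ∧ rp I (pi I w) w < pp I ∧ w ∉ A :=
    fun w hw => by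
    obtain ⟨_, q, r, b1, b2, b3, rfl⟩ := z2 w hw
    have := qq_bd h b1
    obtain ⟨e1, e2, e3, e4, _⟩ := vx_mem h b1 (j := r) (by omega)
    exact ⟨e1, e3.symm ▸ b2, e4, by rwa [e3, e2], fun c => b2 (only q b1 ⟨_, c, by omega⟩)⟩
  have := s.sum3 (D := qo I A p) (E := Z) (F := (stars I p (rp I p u) ∪ T).filter (· ∉ A))
    (fun v hv => by
      obtain ⟨b1, b2, b3, b4, b5⟩ := d1 v hv
      exact ⟨b1, b2, b3, fun c => (z3 v c).2.1 b4,
        fun c => ((k v (mem_filter.1 c).1).2.2.1 b5).1 b4⟩)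
    (fun v hv => by
      obtain ⟨b1, _, b3, b4, b5⟩ := z3 v hv
      exact ⟨b1, b5, fun c => s.no u hu v c (z2 v hv).1,
        fun c => absurd ((k v (mem_filter.1 c).1).2.2.1 b3).2 (not_le.2 b4)⟩) fun v hv => by
      obtain ⟨b1, b2⟩ := mem_filter.1 hv
      exact ⟨(k v b1).1, b2, fun c => s.no u hu v c (k v b1).2.1⟩
  have := card_filter_add_card_filter_not (s := stars I p (rp I p u) ∪ T) (· ∈ A)
  rw [card_union_of_disjoint (Finset.disjoint_right.2 fun v hv => (t2 v hv).1)] at this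
  rw [bb] at br
  omega

/-- The points of the ball outside the node that lie in `B`. -/
def hb (I : In) (B : Finset ℕ) (p : ℕ) : Finset ℕ :=
  (ball I (ctr I p) (kt I)).filter fun v => qq I p ≤ rp I p v ∧ v ∈ B

theorem mem_hb {p v : ℕ} : v ∈ hb I B p ↔
    v < nn I ∧ rp I p v < kt I ∧ qq I p ≤ rp I p v ∧ v ∈ B := by
  rw [hb, mem_filter, mem_ball, and_assoc]; rfl

theorem Thin.hb {p : ℕ} (t : Thin I B p) : (hb I B p).card < et I :=
  lt_of_le_of_lt (card_le_card (monotone_filter_right _ fun _ _ a => a.2)) t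

theorem Sp.ext (h : Ok I) (f : Fe I) (s : Sp I A B) (np : ¬ poor I = true) {p : ℕ}
    (hp : p < nN I) (t : ¬ ta I p = true) (only : ∀ q, q < nN I → Mt I A q → q = p)
    (a : Mt I A p) : (hb I B p).card < je I := by
  have e := h.ej
  by_cases g : gp I p = true
  swap
  · exact (s.core h hp g a).hb.trans_le e
  by_contra c
  have k : ∀ w ∈ hb I B p, _ := fun w hw =>
    tb_hv h hp (mem_hb.1 hw).1 g t (mem_hb.1 hw).2.2.1 (mem_hb.1 hw).2.1
  obtain ⟨w, hw, b, _⟩ := s.symm.heavy h (ρ := sg I * rN I p) (ctr_lt hp)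
    (by have := h.s10 (rN I p); change rN I p ≤ _; omega) (fun w hw =>
      ⟨(mem_hb.1 hw).2.2.2, (k w hw).1, (k w hw).2.2.2⟩) (not_lt.1 c)
  rw [(k w hw).2.1] at b
  exact c ((s.small' h f np hp g only a (b.few h hp).le (Or.inl t)).1.hb.trans_le e)

theorem Sp.none1 (h : Ok I) (s : Sp I A B) (no : ∀ q, q < nN I → ¬ Mt I A q) (a : A.Nonempty) :
    ∃ p, p < nN I ∧ Thin I B p ∧ Thin I B (mt I p) := by
  have l : ∀ v ∈ A, lo I v = true := fun v hv => by
    by_contra c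
    obtain ⟨b, _, d⟩ := pi_gp h (s.a v hv) c
    exact no _ b ⟨v, hv, d⟩
  obtain ⟨z, hz, m⟩ := exists_min_image A (rr I) a
  obtain ⟨T, b, c⟩ := s.nbr h hz (l z hz)
  obtain ⟨w, hw, d⟩ := s.heavy h (ρ := sg I * rr I z) (s.a z hz)
    (by have := h.s10 (rr I z); omega) (fun w hw => by
      have := Nat.mul_le_mul_left (sg I) (m w (c w hw).1)
      have := (h.p4 (rr I w)).2
      exact ⟨(c w hw).1, l w (c w hw).1, (c w hw).2, by omega⟩) b
  exact ⟨_, pi_lt h (s.a w (c w hw).1), d⟩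

/-- Points of a node that are never partners. -/
def pure (I : In) (p j : ℕ) : Finset ℕ := (range j).image fun i => vx I p (pf I + i)

theorem pure_spec (h : Ok I) {p j : ℕ} (hp : p < nN I) (hj : j ≤ 2 * t0 I) :
    (pure I p j).card = j ∧ (∀ w ∈ pure I p j, ∃ i, i < j ∧ pf I + i < qq I p ∧
      w = vx I p (pf I + i)) ∧ (Thin I B p → j < ((pure I p j).filter (· ∉ B)).card + et I) := by
  have n := h.num
  have q := qq_bd h hp
  have l := h.lt
  have a : (pure I p j).card = j := by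
    rw [pure, card_image_of_injOn fun x hx y hy e => ?_, card_range]
    have := mem_range.1 hx
    have := mem_range.1 hy
    exact Nat.add_left_cancel (av_inj (by omega) (by omega) e)
  have b : ∀ w ∈ pure I p j, ∃ i, i < j ∧ pf I + i < qq I p ∧ w = vx I p (pf I + i) :=
    fun w hw => by
    obtain ⟨i, hi, rfl⟩ := mem_image.1 hw
    have := mem_range.1 hi
    exact ⟨i, this, by omega, rfl⟩
  refine ⟨a, b, fun t => ?_⟩
  have := card_filter_add_card_filter_not (s := pure I p j) (· ∈ B)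
  have := lt_of_le_of_lt (card_le_card (filter_subset_filter (· ∈ B) (s := pure I p j)
    fun w hw => by
      obtain ⟨i, _, c, rfl⟩ := b w hw
      exact mem_ball.2 ⟨vx_lt (by omega), (rp_vx (by omega)).trans_lt (by omega)⟩)) t
  omega

theorem hh_le (h : Ok I) {p : ℕ} (hp : p < nN I) : hh I p ≤ 2 * t0 I ∧ qq I p + hh I p = kt I := by
  have := h.num
  have := qq_bd h hp
  rw [hh]
  omega

theorem poor_two (a : poor I = true) : nN I = 2 ∧ ta I 0 = true ∧ ta I 1 = true ∧ nl I < tt I := by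
  simpa [poor, twin, and_assoc] using a

theorem card_bo (h : Ok I) (p : ℕ) : ((ball I (ctr I p) (kt I)).filter (· ∈ B)).card +
    ((ball I (ctr I p) (kt I)).filter (· ∉ B)).card = kt I := by
  rw [card_filter_add_card_filter_not, card_ball _ h.lt.le]

theorem Sp.none (h : Ok I) (f : Fe I) (s : Sp I A B) (no : ∀ q, q < nN I → ¬ Mt I A q)
    (a : A.Nonempty) (b : B.Nonempty) : False := by
  obtain ⟨p, hp, t1, t2⟩ := s.none1 h no a
  have n := h.num
  have l := h.lt
  have m := mt_spec hp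
  have hh' := hh_le h hp
  have c1 := card_bo (B := B) h p
  by_cases t : ta I p = true
  · obtain ⟨_, e2, e3⟩ := pure_spec (B := B) h m.1 hh'.1
    have := s.sum3 (D := qo I B p) (E := (pure I (mt I p) (hh I p)).filter (· ∉ B)) (F := ∅)
      (fun v hv => by
        obtain ⟨b1, b2, b3⟩ := mem_qo.1 hv
        refine ⟨b1, fun c => no p hp ⟨v, c, b2⟩, b3, fun c => (m.2.1 t).2.1 ?_, by simp⟩
        obtain ⟨i, _, d, rfl⟩ := e2 v (mem_filter.1 c).1
        exact (vx_mem h m.1 d).2.2.1.symm.trans (pi_mem h hp b1 b2).1) (fun v hv => by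
        obtain ⟨i, _, d, rfl⟩ := e2 v (mem_filter.1 hv).1
        have := vx_mem h m.1 d
        exact ⟨this.1, fun c => no _ m.1 ⟨_, c, this.2.1.symm ▸ d⟩, (mem_filter.1 hv).2, by simp⟩)
      (by simp)
    have := card_qo (A := B) h hp
    have := t1.few h hp
    have := e3 t2
    omega
  have u : ue I p = kt I := by simp [ue, t]
  unfold Thin at t1
  rcases Nat.lt_or_ge (nN I) 2 with c | c
  · have k : (hb I A p).card < je I := by
      by_cases d : Mt I B p
      · exact s.symm.ext h f (fun e => by have := poor_two e; omega) hp t (fun q _ _ => by omega) d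
      · obtain ⟨q, hq, e, _⟩ := s.symm.none1 h (fun q hq => by rwa [show q = p by omega]) b
        rw [show q = p by omega] at e
        exact e.hb.trans_le h.ej
    have := s.lt (D := (ball I (ctr I p) (kt I)).filter (· ∉ B) \ hb I A p) fun v hv => by
      simp only [mem_sdiff, mem_filter, mem_ball, mem_hb] at hv
      exact ⟨hv.1.1.1, fun c => hv.2 ⟨hv.1.1.1, hv.1.1.2, not_lt.1 fun d => no p hp ⟨v, c, d⟩, c⟩,
        hv.1.2⟩
    have := le_card_sdiff (hb I A p) ((ball I (ctr I p) (kt I)).filter (· ∉ B))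
    omega
  · have x1 := f.cyc.lt p hp
    have q := qq_bd h x1
    have := s.par (D := (ball I (ctr I p) (kt I)).filter (· ∉ B)) (E := ∅)
      (fun d => vx I (nx I p) (rp I p d - qq I p))
      (fun d hd => ⟨(mem_ball.1 (mem_filter.1 hd).1).1, (mem_filter.1 hd).2⟩)
      (fun d hd e he a b c => by
        simp only [mem_filter, mem_ball] at hd he
        have := not_lt.1 fun d => no p hp ⟨_, a, d⟩
        have := not_lt.1 fun d => no p hp ⟨_, b, d⟩
        have := av_inj (by unfold rp; omega) (by unfold rp; omega) c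
        rw [← vx_rp (p := p) hd.1.1, show rp I p d = rp I p e by omega, vx_rp he.1.1])
      fun d hd a => by
        simp only [mem_filter, mem_ball] at hd
        have e := not_lt.1 fun d => no p hp ⟨_, a, d⟩
        have e' : rp I p d < kt I := hd.1.2
        obtain ⟨b1, b2, b3, _⟩ := vx_mem h x1 (j := rp I p d - qq I p) (by omega)
        exact ⟨fun c' => f.cyc.ne c hp (b3.symm.trans (pi_ue h hp b1
          (u ▸ (mem_ball.1 (mem_filter.1 c').1).2))), b1, Or.inl (eZ_mem c hp (Or.inr (Or.inr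
          ⟨rp I p d - qq I p, by omega, by rw [Nat.add_sub_cancel' e, vx_rp hd.1.1]⟩))),
          fun c => absurd ⟨_, c, by omega⟩ (no _ x1)⟩
    rw [card_empty] at this
    omega

/-- The partner of a position. -/
def ptn (I : In) (p : ℕ) (e : ℕ → ℕ) (i : ℕ) : ℕ :=
  if i < pp I then ev I (nd (bl I) (op (e (i / mu I)))) (mv I (e (i / mu I)) (i % mu I))
  else if i < pf I then vx I (nx I p) i else z2 I p i

theorem ptn_spec (h : Ok I) (f : Fe I) (np : ¬ poor I = true) (hN : 2 ≤ nN I) {p : ℕ}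
    (hp : p < nN I) (h2 : nN I = 2 → ¬ ta I (nx I p) = true) {e : ℕ → ℕ}
    (he : Sel (mm I) (fun β => at1 (bl I) (p * mm I + β)) (fun x => nd (bl I) (op x)) e) :
    (∀ i, i < ue I p → Adj I (vx I p i) (ptn I p e i) ∧ ∃ q r, q < nN I ∧ q ≠ p ∧ r < ue I q ∧
      ptn I p e i = vx I q r ∧ (i < pp I → r < pp I) ∧ (r < pf I ∨ (nN I = 2 ∧ q = nx I p ∧
        pf I + (if ta I p = true then hh I p else 0) ≤ r))) ∧
    ∀ i j, i < ue I p → j < ue I p → ptn I p e i = ptn I p e j → i = j := by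
  have n := h.num
  have x1 := f.cyc.lt p hp
  have x2 := f.cyc.lt _ x1
  have x3 := f.cyc.ne hN hp
  have x4 := f.cyc.ne hN x1
  have u := ue_bd h hp
  have hh' := hh_le h hp
  have k : ∀ i, i < ue I p → Adj I (vx I p i) (ptn I p e i) ∧ ∃ q r, q < nN I ∧ q ≠ p ∧
      r < ue I q ∧ ptn I p e i = vx I q r ∧ ((i < pp I ∧ r < pp I) ∨
        (pp I ≤ i ∧ i < pf I ∧ q = nx I p ∧ r = i) ∨
        (pf I ≤ i ∧ nN I ≠ 2 ∧ q = nx I (nx I p) ∧ r + 5 * t0 I = i ∧ r < pf I) ∨
        (pf I ≤ i ∧ nN I = 2 ∧ q = nx I p ∧ r = i + if ta I p = true then hh I p else 0)) := by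
    intro i hi
    have b : ∀ q, q < nN I → pf I < ue I q := fun q hq => by
      have := ue_bd h hq; have := qq_bd h hq; omega
    by_cases c : i < pp I
    · obtain ⟨a1, a2, a3⟩ := bun_at h f np c (he.1 _ (div_mu h c))
      have a4 := blk_lt h (nd (bl I) (op (e (i / mu I)))) (mv_lt h (e (i / mu I)) (i % mu I))
      have := b _ a2
      rw [ptn, if_pos c]
      exact ⟨a1, _, _, a2, a3, by omega, rfl, Or.inl ⟨c, a4⟩⟩
    by_cases d : i < pf I
    · have := b _ x1
      rw [ptn, if_neg c, if_pos d]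
      exact ⟨Or.inl (eZ_mem hN hp (Or.inl ⟨i - pp I, by omega, by
        rw [Nat.add_sub_cancel' (not_lt.1 c)]⟩)), _, _, x1, x3, by omega, rfl, by omega⟩
    rw [ptn, if_neg c, if_neg d]
    refine ⟨Or.inl (eZ_mem hN hp (Or.inr (Or.inl ⟨i - pf I, by omega, by
      rw [Nat.add_sub_cancel' (not_lt.1 d)]⟩))), ?_⟩
    by_cases g : nN I = 2
    · refine ⟨_, i + if ta I p = true then hh I p else 0, x1, x3, ?_,
        by simp [z2, g, Bool.cond_eq_ite], by omega⟩
      rw [show ue I (nx I p) = kt I by simp [ue, h2 g]]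
      rw [ue, Bool.cond_eq_ite] at hi
      split_ifs at hi ⊢ <;> omega
    · have := b _ x2
      exact ⟨_, i - 5 * t0 I, x2, f.cyc.ne2 (by omega) hp, by omega,
        by simp [z2, g, Bool.cond_eq_ite], by omega⟩
  refine ⟨fun i hi => ?_, fun i j hi hj c => ?_⟩
  · obtain ⟨a, q, r, b1, b2, b3, b4, b5⟩ := k i hi
    exact ⟨a, q, r, b1, b2, b3, b4, by omega, by omega⟩
  · by_cases d : i < pp I ∧ j < pp I
    · rw [ptn, ptn, if_pos d.1, if_pos d.2] at c
      obtain ⟨c1, c2⟩ := ev_eq h (bun_at h f np d.1 (he.1 _ (div_mu h d.1))).2.1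
        (bun_at h f np d.2 (he.1 _ (div_mu h d.2))).2.1 (mv_lt h _ _) (mv_lt h _ _) c
      have c3 := he.2 _ _ (div_mu h d.1) (div_mu h d.2) c1
      rw [c3] at c2
      rw [← Nat.div_add_mod i (mu I), c3, shift_inj (Nat.mod_lt _ (by omega))
        (Nat.mod_lt _ (by omega)) c2, Nat.div_add_mod]
    · obtain ⟨_, q, r, b1, _, b3, b4, b5⟩ := k i hi
      obtain ⟨_, q', r', a1, _, a3, a4, a5⟩ := k j hj
      have := vx_eq h b1 a1 b3 a3 (b4 ▸ a4 ▸ c)
      omega

theorem Sp.single (h : Ok I) (f : Fe I) (s : Sp I A B) (np : ¬ poor I = true) (hN : 2 ≤ nN I)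
    {p : ℕ} (hp : p < nN I) (only : ∀ q, q < nN I → Mt I A q → q = p) (a : Mt I A p)
    (h2 : nN I = 2 → ¬ ta I (nx I p) = true ∧ Mt I B (nx I p)) : False := by
  have n := h.num
  have l := h.lt
  have ej := h.ej
  have x1 := f.cyc.lt p hp
  have x3 := f.cyc.ne hN hp
  have hq := hh_le h hp
  obtain ⟨e, lo', he, hm, hl⟩ := f.bu.many hN hp
  change Sel _ (fun β => at1 (bl I) _) (fun x => nd (bl I) _) _ at he
  change Many _ _ (fun β => at1 (bl I) _) (fun x => nd (bl I) _) _ _ at hm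
  obtain ⟨p1, p2⟩ := ptn_spec h f np hN hp (fun c => (h2 c).1) he
  obtain ⟨E, e1, e2, e3⟩ : ∃ E : Finset ℕ, E.card < je I ∧ (∀ w ∈ E, w ∈ A ∧ lo I w = true) ∧
      ∀ i, i < ue I p → ptn I p e i ∈ A → ptn I p e i ∈ E ∧ pp I ≤ i := by
    refine ⟨if nN I = 2 then hb I A (nx I p) else ∅, ?_, fun w hw => ?_, fun i hi c => ?_⟩
    · split_ifs with c
      · refine s.symm.ext h f np x1 (h2 c).1 (fun q hq d => ?_) (h2 c).2
        have : q ≠ p := fun e => s.both h hp a (e ▸ d)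
        omega
      · simp only [card_empty]; omega
    · split_ifs at hw with c
      · obtain ⟨b1, b2, b3, b4⟩ := mem_hb.1 hw
        exact ⟨b4, (tb_hv h x1 b1 (by by_contra g; rw [qq_core g] at b3; omega) (h2 c).1 b3 b2).1⟩
      · simp at hw
    · obtain ⟨_, q, r, b1, b2, b3, b4, b5, b6⟩ := p1 i hi
      have := ue_bd h b1
      have := qq_bd h b1
      have d := rp_vx (I := I) (p := q) (j := r) (by omega)
      rw [b4] at c ⊢
      have : ¬ r < qq I q := fun g => b2 (only q b1 ⟨_, c, d.symm ▸ g⟩)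
      obtain ⟨g, rfl, _⟩ := b6.resolve_left (by omega)
      rw [if_pos g]
      exact ⟨mem_hb.2 ⟨vx_lt (by omega), by omega, by omega, c⟩, by omega⟩
  have cnt : ∀ D E' : Finset ℕ, (∀ d ∈ D, d < nn I ∧ d ∉ B ∧ (d ∈ A → rp I p d < ue I p)) →
      (∀ i, i < ue I p → vx I p i ∈ A → ptn I p e i ∉ D ∧ (ptn I p e i ∈ A → ptn I p e i ∈ E')) →
      D.card < kk I + E'.card := fun D E' d1 d2 =>
    s.par (fun d => ptn I p e (rp I p d)) (fun d hd => ⟨(d1 d hd).1, (d1 d hd).2.1⟩)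
      (fun d hd d' hd' a b c => by
        rw [← vx_rp (p := p) (d1 d hd).1, p2 _ _ ((d1 d hd).2.2 a) ((d1 d' hd').2.2 b) c,
          vx_rp (d1 d' hd').1]) fun d hd a => by
      have b := (d1 d hd).2.2 a
      have c := d2 _ b (by rwa [vx_rp (d1 d hd).1])
      obtain ⟨b0, q, r, b1, _, b3, b4, _⟩ := p1 _ b
      rw [vx_rp (d1 d hd).1] at b0
      exact ⟨c.1, b4 ▸ vx_lt (by have := ue_bd h b1; omega), b0, c.2⟩
  have out : ∀ i, i < ue I p → ptn I p e i < nn I ∧ pi I (ptn I p e i) ≠ p := fun i hi => by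
    obtain ⟨_, q, r, b1, b2, b3, b4, _⟩ := p1 i hi
    have : r < nn I := by have := ue_bd h b1; omega
    rw [b4, pi_ue h b1 (vx_lt this) (by rwa [rp_vx this])]
    exact ⟨vx_lt this, b2⟩
  have nb : ∀ v, rp I p v < qq I p → v ∉ B := fun v hv c => s.both h hp a ⟨v, c, hv⟩
  by_cases t : ta I p = true
  swap
  · have u : ue I p = kt I := by simp [ue, t]
    have := cnt ((ball I (ctr I p) (kt I)).filter (· ∉ B)) E (fun d hd => by
      simp only [mem_filter, mem_ball] at hd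
      exact ⟨hd.1.1, hd.2, fun _ => u ▸ hd.1.2⟩) fun i hi _ => ⟨fun c => (out i hi).2
        (pi_ue h hp (out i hi).1 (u ▸ (mem_ball.1 (mem_filter.1 c).1).2)), fun c => (e3 i hi c).1⟩
    have := card_bo (B := B) h p
    have := s.ext h f np hp t only a
    have := card_le_card (s := (ball I (ctr I p) (kt I)).filter (· ∈ B)) (t := hb I B p)
      fun v hv => mem_filter.2 ⟨(mem_filter.1 hv).1,
        not_lt.1 fun c => nb v c (mem_filter.1 hv).2, (mem_filter.1 hv).2⟩
    omega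
  have u : ue I p = qq I p := by simp [ue, t]
  have m := mt_spec hp
  obtain ⟨g, m1, _⟩ := m.2.1 t
  rw [u] at p1 p2 e3 cnt out
  have gain : ∀ W E' : Finset ℕ, (∀ w ∈ W, w < nn I ∧ w ∉ A ∧ w ∉ B ∧ ¬ rp I p w < qq I p) →
      (∀ i, i < qq I p → vx I p i ∈ A → ptn I p e i ∉ W ∧ (ptn I p e i ∈ A → ptn I p e i ∈ E')) →
      qq I p + W.card < kk I + E'.card := fun W E' w1 w2 => by
    have := cnt (ball I (ctr I p) (qq I p) ∪ W) E' (fun d hd => by
      rcases mem_union.1 hd with c | c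
      · exact ⟨(mem_ball.1 c).1, nb d (mem_ball.1 c).2, fun _ => (mem_ball.1 c).2⟩
      · exact ⟨(w1 d c).1, (w1 d c).2.2.1, fun a => absurd a (w1 d c).2.1⟩) fun i hi c =>
      ⟨fun d => (mem_union.1 d).elim (fun d => (out i hi).2
        (pi_mem h hp (out i hi).1 (mem_ball.1 d).2).1) (w2 i hi c).1, (w2 i hi c).2⟩
    rwa [card_union_of_disjoint (Finset.disjoint_right.2 fun v hv c =>
      (w1 v hv).2.2.2 (mem_ball.1 c).2), card_ball _ (by omega)] at this
  have pu : ∀ q j, q < nN I → q ≠ p → j < hh I p → vx I q (pf I + j) < nn I ∧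
      vx I q (pf I + j) ∉ A ∧ ¬ rp I p (vx I q (pf I + j)) < qq I p ∧
      inn I (vx I q (pf I + j)) = true ∧ pp I ≤ rp I (pi I (vx I q (pf I + j))) (vx I q (pf I + j)) ∧
      ∀ i, i < qq I p → ptn I p e i ≠ vx I q (pf I + j) := fun q j a b c => by
    have := qq_bd h a
    obtain ⟨b1, b2, b3, b4, _⟩ := vx_mem h a (j := pf I + j) (by omega)
    refine ⟨b1, fun d => b (only q a ⟨_, d, by omega⟩),
      fun d => b (b3.symm.trans (pi_mem h hp b1 d).1), b4, by rw [b3, b2]; omega, fun i hi d => ?_⟩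
    obtain ⟨_, q', r, a1, _, a3, a4, _, a6⟩ := p1 i hi
    have := vx_eq h a1 a a3 (by have := ue_bd h a; omega) (a4 ▸ d)
    rw [if_pos t] at a6
    omega
  have gp' : ∀ q (W : Finset ℕ), q < nN I → q ≠ p → (∀ w ∈ W, w ∉ B ∧ ∃ j, j < hh I p ∧
      w = vx I q (pf I + j)) → qq I p + W.card < kk I + E.card := fun q W a b c =>
    gain W E (fun w hw => by
      obtain ⟨d, j, hj, rfl⟩ := c w hw
      have := pu q j a b hj
      exact ⟨this.1, this.2.1, d, this.2.2.1⟩) fun i hi _ => ⟨fun d => by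
        obtain ⟨_, j, hj, d⟩ := c _ d
        exact (pu q j a b hj).2.2.2.2.2 i hi d, fun d => (e3 i hi d).1⟩
  have oth : ∀ w, w < nn I → ∃ q, q < nN I ∧ q ≠ p ∧ (q = pi I w ∨ q = mt I (pi I w)) :=
    fun w hw => by
    by_cases c : pi I w = p
    · exact ⟨_, m.1, m1, Or.inr (by rw [c])⟩
    · exact ⟨_, pi_lt h hw, c, Or.inl rfl⟩
  have tb : ∀ i, ((stars I p i).filter (· ∈ A)).card < je I := fun i => by
    by_contra c
    obtain ⟨w, hw, b1, b2⟩ := s.heavy h (ρ := sg I * rN I p) (ctr_lt hp)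
      (by have := h.s10 (rN I p); change rN I p ≤ _; omega) (fun w hw => by
        obtain ⟨_, _, _, b3, b4, _, b6⟩ := mem_stars h f.toFe1 hp (mem_filter.1 hw).1
        exact ⟨(mem_filter.1 hw).2, b4, nr_of np b3, b6⟩) (not_lt.1 c)
    obtain ⟨q, a1, a2, a3⟩ := oth w (s.a w (mem_filter.1 hw).2)
    obtain ⟨_, d2, d3⟩ := pure_spec (B := B) h a1 hq.1
    have := d3 (by rcases a3 with rfl | rfl <;> assumption)
    have := gp' q ((pure I q (hh I p)).filter (· ∉ B)) a1 a2 fun w hw => by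
      obtain ⟨j, b, _, d⟩ := d2 w (mem_filter.1 hw).1
      exact ⟨(mem_filter.1 hw).2, j, b, d⟩
    omega
  obtain ⟨j0, j1, j2, j3⟩ : ∃ j0, E.card ≤ j0 ∧ (∀ i, ((stars I p i).filter (· ∈ A)).card ≤ j0) ∧
      bb I p + (if b0 I < bb I p then mm I else 0) + j0 ≤ breq I p := by
    have br : bb I p + (if b0 I < bb I p then mm I else 0) +
        (if b1 I < bb I p + je I then je I else 0) ≤ breq I p := by
      simp only [breq, np, g, Bool.not_true, Bool.or_self, Bool.cond_eq_ite, Nat.blt_eq,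
        Bool.false_eq_true, if_false]
      omega
    by_cases c : b1 I < bb I p + je I
    · exact ⟨je I, e1.le, fun i => (tb i).le, by rwa [if_pos c] at br⟩
    have k : ∀ w ∈ A, ¬ lo I w = true := fun w hw d => by
      obtain ⟨q, a1, a2, a3⟩ := oth w (s.a w hw)
      obtain ⟨d1, d2, _⟩ := pure_spec (B := B) h a1 (j := min (b1 I) (hh I p)) (by omega)
      have := gp' q _ a1 a2 fun v hv => by
        obtain ⟨j, b, _, rfl⟩ := d2 v hv
        exact ⟨fun c => s.no w hw _ c (adj_dir (s.a w hw) d a3 (by omega)), j, by omega, rfl⟩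
      rw [bb] at c
      omega
    refine ⟨0, (card_eq_zero.2 (eq_empty_of_forall_notMem fun w hw => k w (e2 w hw).1
      (e2 w hw).2)).le, fun i => (card_eq_zero.2 (filter_eq_empty_iff.2 fun w hw c =>
        k w c (mem_stars h f.toFe1 hp hw).2.2.2.2.1)).le, by rwa [if_neg c] at br⟩
  have fin : ∀ i, i < qq I p → vx I p i ∈ A → ∀ W E' : Finset ℕ, (∀ w ∈ W, w ∉ A ∧ w ∉ B ∧
      ∃ q r, q < nN I ∧ q ≠ p ∧ r < pp I ∧ w = vx I q r) → (∀ i', i' < qq I p → vx I p i' ∈ A →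
        ptn I p e i' ∉ W ∧ ptn I p e i' ∉ stars I p i ∧ (ptn I p e i' ∈ A → ptn I p e i' ∈ E')) →
      qq I p + W.card + breq I p < kk I + E'.card + db I p i +
        ((stars I p i).filter (· ∈ A)).card ∧ qq I p + W.card < kk I + E'.card :=
    fun i hi c W E' w1 w2 => by
    obtain ⟨T, t1, t2⟩ := adj_grp h hp hi
    have t3 : ∀ w ∈ T, ∃ j, j < hh I p ∧ w = vx I (mt I p) (pf I + j) := fun w hw => by
      obtain ⟨_, _, j, hj, rfl⟩ := t2 w hw
      obtain ⟨r, a, _, b, _⟩ := hv_spec h hp hj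
      exact ⟨j, hj, (b t).1 ▸ a⟩
    have w3 : ∀ w ∈ W, w < nn I ∧ pi I w ≠ p ∧ inn I w = true ∧ rp I (pi I w) w < pp I :=
      fun w hw => by
      obtain ⟨_, _, q, r, b1, b2, b3, rfl⟩ := w1 w hw
      have := qq_bd h b1
      obtain ⟨e1, e2, e3, e4, _⟩ := vx_mem h b1 (j := r) (by omega)
      exact ⟨e1, e3.symm ▸ b2, e4, by rwa [e3, e2]⟩
    have := gain (W ∪ ((stars I p i).filter (· ∉ A) ∪ T)) E' (fun w hw => by
      simp only [mem_union, mem_filter] at hw
      rcases hw with hw | hw | hw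
      · exact ⟨(w3 w hw).1, (w1 w hw).1, (w1 w hw).2.1,
          fun d => (w3 w hw).2.1 (pi_mem h hp (w3 w hw).1 d).1⟩
      · obtain ⟨b1, _, b2, _, b4, _⟩ := mem_stars h f.toFe1 hp hw.1
        exact ⟨b1, hw.2, fun d => s.no _ c w d b2, fun d => (pi_mem h hp b1 d).2.1 b4 g⟩
      · obtain ⟨j, hj, d⟩ := t3 w hw
        have := pu _ j m.1 m1 hj
        rw [← d] at this
        exact ⟨this.1, this.2.1, fun d => s.no _ c w d (t2 w hw).2.1, this.2.2.1⟩)
      fun i' hi' c' => ⟨fun d => by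
        simp only [mem_union, mem_filter] at d
        rcases d with d | d | d
        · exact (w2 i' hi' c').1 d
        · exact (w2 i' hi' c').2.1 d.1
        · obtain ⟨j, hj, d⟩ := t3 _ d
          exact (pu _ j m.1 m1 hj).2.2.2.2.2 i' hi' d, (w2 i' hi' c').2.2⟩
    rw [card_union_of_disjoint (Finset.disjoint_left.2 fun w hw d => by
      rcases mem_union.1 d with d | d
      · exact (mem_stars h f.toFe1 hp (mem_filter.1 d).1).2.2.2.2.2.1 (w3 w hw).2.2.1
      · obtain ⟨j, hj, d⟩ := t3 w d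
        have := (pu _ j m.1 m1 hj).2.2.2.2.1
        have := (w3 w hw).2.2.2
        rw [← d] at *
        omega), card_union_of_disjoint (Finset.disjoint_right.2 fun w hw d =>
      (t2 w hw).1 (mem_filter.1 d).1)] at this
    have := card_filter_add_card_filter_not (s := stars I p i) (· ∈ A)
    omega
  have hb' : kk I + 1 ≤ qq I p + bb I p := by rw [bb]; omega
  by_cases c1 : ∃ i, i < qq I p ∧ vx I p i ∈ A ∧ pp I ≤ i
  · obtain ⟨i, a1, a2, a3⟩ := c1
    have e : ∀ w, w ∉ stars I p i := fun w hw => by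
      have := (mem_stars h f.toFe1 hp hw).2.1
      omega
    have := fin i a1 a2 ∅ E (by simp) fun i' hi' _ => ⟨by simp, e _, fun d => (e3 i' hi' d).1⟩
    rw [eq_empty_of_forall_notMem e, show db I p i = 0 by
      simp [db, Bool.cond_eq_ite, itr_iff, not_lt.2 a3]] at this
    simp only [filter_empty, card_empty] at this
    omega
  push Not at c1
  have ok : ∀ i i', i' < qq I p → vx I p i' ∈ A → ptn I p e i' ∉ stars I p i ∧
      (ptn I p e i' ∈ A → ptn I p e i' ∈ (∅ : Finset ℕ)) := fun i i' hi' c => by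
    obtain ⟨_, q, r, b1, _, _, b4, b5, _⟩ := p1 i' hi'
    have := qq_bd h b1
    have := c1 i' hi' c
    exact ⟨fun d => (mem_stars h f.toFe1 hp d).2.2.2.2.2.1 (b4 ▸ (vx_mem h b1 (by omega)).2.2.2.1),
      fun d => by have := (e3 i' hi' d).2; omega⟩
  by_cases c2 : ∃ i, i < qq I p ∧ vx I p i ∈ A ∧ ¬ itr I i = true
  · obtain ⟨i, a1, a2, a3⟩ := c2
    have := fin i a1 a2 ∅ ∅ (by simp) fun i' hi' c => ⟨by simp, ok i i' hi' c⟩
    have := j2 i
    rw [show db I p i = 0 by simp [db, a3]] at *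
    simp only [card_empty] at *
    omega
  push Not at c2
  obtain ⟨X, hX⟩ : ∃ X : ℕ → Finset ℕ, ∀ β i, i ∈ X β ↔
      lam I + i < mu I ∧ vx I p (β * mu I + (lam I + i)) ∈ A :=
    ⟨fun β => (range (mu I)).filter fun i => lam I + i < mu I ∧
      vx I p (β * mu I + (lam I + i)) ∈ A, fun β i => by
        rw [mem_filter, mem_range]; exact and_iff_right_of_imp fun a => by omega⟩
  have toX : ∀ i, i < qq I p → vx I p i ∈ A → i / mu I < mm I ∧ ∃ j ∈ X (i / mu I),
      i % mu I = lam I + j := fun i hi c => by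
    obtain ⟨a1, a2, a3⟩ := itr_iff.1 (c2 i hi c)
    obtain ⟨j, hj⟩ := Nat.exists_eq_add_of_le a2
    exact ⟨div_mu h a1, j, (hX _ _).2 ⟨by omega, by rwa [← hj, Nat.div_add_mod']⟩, hj⟩
  have ofX : ∀ β j, β < mm I → j ∈ X β → β * mu I + (lam I + j) < pp I ∧
      itr I (β * mu I + (lam I + j)) = true ∧ lam I + j + lam I < mu I := fun β j hβ hj => by
    obtain ⟨a1, a2⟩ := (hX β j).1 hj
    have b := blk_lt h β a1
    have := qq_bd h hp
    rw [Nat.mod_eq_of_lt hβ] at b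
    have c := c2 _ (by omega) a2
    have := (itr_iff.1 c).2.2
    rw [blk_mod a1] at this
    exact ⟨b, c, this⟩
  obtain ⟨β, hβ, ⟨i0, hi0⟩, W, w1, w2⟩ := hm X (by
    obtain ⟨v, hv, a⟩ := a
    obtain ⟨b, j, c, _⟩ := toX _ a (by rwa [vx_rp (s.a v hv)])
    exact ⟨_, b, j, c⟩)
  have w3 : ∀ w ∈ W, w.1 / mm I < nN I ∧ w.1 / mm I ≠ p ∧ w.2 < mu I ∧
      ∃ u ∈ A, Adj I u (ev I w.1 w.2) := fun w hw => by
    obtain ⟨⟨x, hx, j, hj, rfl⟩, _⟩ := w2 w hw
    obtain ⟨a1, _, a3⟩ := ofX β j hβ hj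
    have a4 := ((hX β j).1 hj)
    have b := bun_at h f np (p := p) (x := x) a1 (by rwa [blk_div a4.1])
    have d := mv_lt h x (lam I + j)
    rw [blk_mod a4.1] at b
    rw [mv_int f (mem_at1.1 hx).1 a3] at b d
    exact ⟨b.2.1, b.2.2, d, _, a4.2, b.1⟩
  obtain ⟨a1, a2, _⟩ := ofX β i0 hβ hi0
  have a4 := (hX β i0).1 hi0
  have q := qq_bd h hp
  have := fin _ (by omega) a4.2 (W.image fun w => ev I w.1 w.2) ∅ (fun v hv => by
    obtain ⟨w, hw, rfl⟩ := mem_image.1 hv
    obtain ⟨b1, b2, b3, u, b4, b5⟩ := w3 w hw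
    have b6 := blk_lt h w.1 b3
    have := qq_bd h b1
    exact ⟨fun d => b2 (only _ b1 ⟨_, d, (rp_vx (by omega)).trans_lt (by omega)⟩),
      fun d => s.no u b4 _ d b5, _, _, b1, b2, b6, rfl⟩) fun i' hi' c => ⟨fun d => by
        obtain ⟨w, hw, d⟩ := mem_image.1 d
        obtain ⟨b1, j, b2, b3⟩ := toX i' hi' c
        have b4 := c1 i' hi' c
        rw [ptn, if_pos b4] at d
        obtain ⟨d1, d2⟩ := ev_eq h (w3 w hw).1 (bun_at h f np b4 (he.1 _ b1)).2.1 (w3 w hw).2.2.1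
          (mv_lt h _ _) d
        rw [b3, mv_int f (mem_at1.1 (he.1 _ b1)).1 (ofX _ j b1 b2).2.2] at d2
        exact (w2 w hw).2 _ b1 j b2 (Prod.ext d1 d2), ok _ i' hi' c⟩
  rw [card_image_of_injOn fun x hx y hy c => Prod.ext_iff.2
    (ev_eq h (w3 x hx).1 (w3 y hy).1 (w3 x hx).2.2.1 (w3 y hy).2.2.1 c), db, a2, cond_true,
    sumB_eq, blk_div a4.1, card_empty] at this
  have a5 := j2 (β * mu I + (lam I + i0))
  have a6 := f.bu.load hp hβ
  change (at1 (bl I) _).card = _ at a6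
  simp only [a6] at w1
  rcases hl with rfl | ⟨rfl, hl⟩
  · omega
  · have : b0 I + mm I ≤ (∑ q ∈ range (nN I), m2 I p q + β) / mm I :=
      (Nat.le_div_iff_mul_le (by omega)).2 (by rw [mul_comm]; exact hl.trans (Nat.le_add_right _ _))
    split_ifs at j3 <;> omega

end Pool.Agent.Lib.MP_959bb6_lc.Vx
end

-- part Pool.Agent.Lib.MP_959bb6_lc.VTwin
section

/-!
The output has no small vertex cut: the remaining cases.
-/

set_option autoImplicit false

namespace Pool.Agent.Lib.MP_959bb6_lc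

open Pool.Agent.Shared.PolyTime Enc Finset

theorem mod_two {q u j : ℕ} (hu : u < q) (hj : j < q) :
    (u + j) % q = if u + j < q then u + j else u + j - q := by
  split_ifs with c
  · exact Nat.mod_eq_of_lt c
  · rw [Nat.mod_eq_sub_mod (not_lt.1 c), Nat.mod_eq_of_lt (by omega)]

theorem cyc_int {q a : ℕ} {T : Finset ℕ} {len : ℕ → ℕ} (hT : ∀ u ∈ T, u < q ∧ 0 < len u)
    (ha : a < q) (h : ∀ u ∈ T, ∀ j, j < len u → (u + j) % q ≠ a) (ne : T.Nonempty) :
    ∃ u ∈ T, ∃ E : Finset ℕ, T.card + len u ≤ E.card + 1 ∧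
      ∀ e ∈ E, ∃ v ∈ T, ∃ j, j < len v ∧ e = (v + j) % q := by
  obtain ⟨u, hu, m⟩ := exists_min_image T (fun u => if u ≤ a then a - u else a + q - u) ne
  have b := hT u hu
  have c : len u ≤ if u ≤ a then a - u else a + q - u := not_lt.1 fun c => h u hu _ c (by
    rw [mod_two b.1 (by split_ifs <;> omega)]
    split_ifs <;> omega)
  have d : len u < q := by split_ifs at c <;> omega
  refine ⟨u, hu, T ∪ (Ico 1 (len u)).image fun j => (u + j) % q, ?_, fun e he => ?_⟩
  · rw [card_union_of_disjoint (Finset.disjoint_right.2 fun v hv c' => by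
      obtain ⟨j, hj, rfl⟩ := mem_image.1 hv
      rw [mem_Ico] at hj
      have := m _ c'
      rw [mod_two b.1 (by omega)] at this
      split_ifs at this c <;> omega), card_image_of_injOn fun i hi j hj e => by
        rw [coe_Ico, Set.mem_Ico] at hi hj
        exact shift_inj (μ := q) (s := u) (by omega) (by omega) (by simpa [add_comm] using e),
      Nat.card_Ico]
    omega
  · rcases mem_union.1 he with c | c
    · exact ⟨e, c, 0, (hT e c).2, (Nat.mod_eq_of_lt (hT e c).1).symm⟩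
    · obtain ⟨j, hj, rfl⟩ := mem_image.1 c
      exact ⟨u, hu, j, (mem_Ico.1 hj).2, rfl⟩

theorem arc_gap {P S g b x i : ℕ} (hi : i < P) (h : P * b + x < g + S) :
    b ≤ g / P + (S + (P - 1 - i)) / P + if P + x ≤ i + g % P then 1 else 0 := by
  have a := Nat.div_add_mod g P
  have a' := Nat.mod_lt g (Nat.zero_lt_of_lt hi)
  have c := Nat.div_add_mod (S + (P - 1 - i)) P
  have c' := Nat.mod_lt (S + (P - 1 - i)) (Nat.zero_lt_of_lt hi)
  by_contra d
  split_ifs at d with e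
  · have := Nat.mul_le_mul_left P (show g / P + (S + (P - 1 - i)) / P + 2 ≤ b by omega)
    simp only [mul_add] at this
    omega
  · have := Nat.mul_le_mul_left P (show g / P + (S + (P - 1 - i)) / P + 1 ≤ b by omega)
    simp only [mul_add] at this
    omega

namespace Vx

open Co (nd op at1)

variable {I : In} {A B : Finset ℕ}

theorem Sp.cross (h : Ok I) (s : Sp I A B) {p q i j : ℕ} (hp : p < nN I) (hq : q < nN I)
    (hi : i < qq I p) (hj : j < qq I q) (c : ¬ (Mt I A p ↔ Mt I A q))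
    (a : Adj I (vx I p i) (vx I q j)) :
    (vx I p i ∉ A ∧ vx I p i ∉ B) ∨ (vx I q j ∉ A ∧ vx I q j ∉ B) := by
  have k : ∀ (C : Finset ℕ) p i, p < nN I → i < qq I p → vx I p i ∈ C → Mt I C p :=
    fun C p i hp hi c => ⟨_, c, (vx_mem h hp hi).2.1.symm ▸ hi⟩
  have l : ∀ p q i j, p < nN I → q < nN I → i < qq I p → j < qq I q → Mt I A p → ¬ Mt I A q →
      Adj I (vx I p i) (vx I q j) →
      (vx I p i ∉ A ∧ vx I p i ∉ B) ∨ (vx I q j ∉ A ∧ vx I q j ∉ B) :=
    fun p q i j hp hq hi hj a b c => by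
    by_cases d : vx I p i ∈ A
    · exact Or.inr ⟨fun e => b (k A q j hq hj e), fun e => s.no _ d _ e c⟩
    · exact Or.inl ⟨d, fun e => s.both h hp a (k B p i hp hi e)⟩
  by_cases d : Mt I A p
  · exact l p q i j hp hq hi hj d (fun e => c (iff_of_true d e)) a
  · exact (l q p j i hq hp hj hi (by_contra fun e => c (iff_of_false d e)) d a.symm).symm

theorem Sp.zset (h : Ok I) (f : Fe I) (s : Sp I A B) (hN : 2 ≤ nN I) {p : ℕ} (hp : p < nN I)
    (c : ¬ (Mt I A p ↔ Mt I A (nx I p))) : ∃ E : Finset ℕ, E.card = 5 * t0 I ∧ ∀ v ∈ E,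
      v < nn I ∧ v ∉ A ∧ v ∉ B ∧ (pi I v = p ∨ pi I v = nx I p) ∧ pp I ≤ rp I (pi I v) v := by
  have n := h.num
  have x := f.cyc.lt p hp
  have k : ∀ j, ∃ v, j < 5 * t0 I → v < nn I ∧ v ∉ A ∧ v ∉ B ∧ (pi I v = p ∨ pi I v = nx I p) ∧
      rp I (pi I v) v = pp I + j := fun j => by
    by_cases hj : j < 5 * t0 I
    swap
    · exact ⟨0, fun c => absurd c hj⟩
    have := qq_bd h hp
    have := qq_bd h x
    obtain ⟨a1, a2, a3, _⟩ := vx_mem h hp (j := pp I + j) (by omega)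
    obtain ⟨b1, b2, b3, _⟩ := vx_mem h x (j := pp I + j) (by omega)
    rcases s.cross h hp x (i := pp I + j) (j := pp I + j) (by omega) (by omega) c
      (Or.inl (eZ_mem hN hp (Or.inl ⟨j, hj, rfl⟩))) with d | d
    · exact ⟨_, fun _ => ⟨a1, d.1, d.2, Or.inl a3, by rw [a3, a2]⟩⟩
    · exact ⟨_, fun _ => ⟨b1, d.1, d.2, Or.inr b3, by rw [b3, b2]⟩⟩
  choose g hg using k
  refine ⟨(range (5 * t0 I)).image g, ?_, fun v hv => ?_⟩
  · rw [card_image_of_injOn fun i hi j hj e => ?_, card_range]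
    have := (hg i (mem_range.1 hi)).2.2.2.2
    have := (hg j (mem_range.1 hj)).2.2.2.2
    rw [e] at *
    omega
  · obtain ⟨j, hj, rfl⟩ := mem_image.1 hv
    obtain ⟨a, b, c, d, e⟩ := hg j (mem_range.1 hj)
    exact ⟨a, b, c, d, by omega⟩

theorem Sp.both2 (h : Ok I) (f : Fe I) (s : Sp I A B) (np : ¬ poor I = true) {X : Finset ℕ}
    (hX : ∀ p, p ∈ X ↔ p < nN I ∧ Mt I A p) (a : 2 ≤ X.card) (b : X.card + 2 ≤ nN I) : False := by
  have n := h.num
  have x : X ⊆ range (nN I) := fun p hp => mem_range.2 ((hX p).1 hp).1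
  have dv : ∀ e, e < nN I * mm I ↔ e / mm I < nN I := fun e => (Nat.div_lt_iff_lt_mul (by omega)).symm
  have c1 := lift_cover (m := nN I * mm I) (M := mm I) (μ := mu I)
    (fun e => ((range (mu I)).filter fun i => ev I e i ∉ A ∧ ev I e i ∉ B).card)
    (fun e => e / mm I ∈ X) (fun a b => ∃ x, x < 2 * (bl I).length ∧ nd (bl I) x = a ∧
      nd (bl I) (op x) = b ∧ a / mm I ∈ X ∧ b / mm I ∉ X)
    (fun T hT => f.bu.cover X T x (card_pos.1 (by omega)) (fun e => by
      rw [e, card_range] at b; omega) fun x hx a b => hT _ _ ⟨x, hx, rfl, rfl, a, b⟩) (by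
      rintro _ _ ⟨y, hy, rfl, rfl, c, d⟩
      obtain ⟨b1, b2, _⟩ := bun_nd f hy
      refine ⟨c, d, (dv _).2 b1, (dv _).2 b2, ?_⟩
      have e := card_filter_add_card_filter_not (s := range (mu I))
        fun i => ev I (nd (bl I) y) i ∉ A ∧ ev I (nd (bl I) y) i ∉ B
      rw [card_range] at e
      refine e.ge.trans (Nat.add_le_add_left (card_le_card_of_injOn (mv I y) (fun i hi => ?_)
        fun i hi j hj => shift_inj (mem_range.1 (mem_filter.1 hi).1)
          (mem_range.1 (mem_filter.1 hj).1)) _)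
      obtain ⟨hi, g⟩ := mem_filter.1 hi
      have := blk_lt h (nd (bl I) y) (mem_range.1 hi)
      have := blk_lt h (nd (bl I) (op y)) (mv_lt h y i)
      have := qq_bd h b1
      have := qq_bd h b2
      exact mem_filter.2 ⟨mem_range.2 (mv_lt h y i), (s.cross h b1 b2 (by omega) (by omega)
        (fun e => d ((hX _).2 ⟨b2, e.1 ((hX _).1 c).2⟩))
        (adj_bun h f np hy (mem_range.1 hi))).resolve_left g⟩)
  obtain ⟨p, q, hp, hq, c2, c3, c4, c5, c6⟩ := f.cyc.pairs x a b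
  have k : ∀ p, p < nN I → ¬ (p ∈ X ↔ nx I p ∈ X) → ¬ (Mt I A p ↔ Mt I A (nx I p)) :=
    fun p hp c d => c (by rw [hX, hX, d]; simp [hp, f.cyc.lt p hp])
  obtain ⟨E, e1, e2⟩ := s.zset h f (by omega) hp (k p hp c5)
  obtain ⟨F, f1, f2⟩ := s.zset h f (by omega) hq (k q hq c6)
  have c7 := f.cyc.inj p q hp hq
  have := s.sum3 (D := ((range (nN I * mm I) ×ˢ range (mu I)).filter fun w =>
    ev I w.1 w.2 ∉ A ∧ ev I w.1 w.2 ∉ B).image fun w => ev I w.1 w.2) (E := E) (F := F)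
    (fun v hv => by
      obtain ⟨w, hw, rfl⟩ := mem_image.1 hv
      simp only [mem_filter, mem_product, mem_range, dv] at hw
      have := blk_lt h w.1 hw.1.2
      have := qq_bd h hw.1.1
      obtain ⟨b1, b2, b3, _⟩ := vx_mem h hw.1.1 (j := w.1 % mm I * mu I + w.2) (by omega)
      rw [← ev] at b1 b2 b3
      rw [← b3] at b2
      exact ⟨b1, hw.2.1, hw.2.2, fun c => by have := (e2 _ c).2.2.2.2; omega,
        fun c => by have := (f2 _ c).2.2.2.2; omega⟩) (fun v hv => by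
      obtain ⟨b1, b2, b3, b4, _⟩ := e2 v hv
      exact ⟨b1, b2, b3, fun c => by have := (f2 _ c).2.2.2.1; omega⟩) fun v hv =>
      ⟨(f2 v hv).1, (f2 v hv).2.1, (f2 v hv).2.2.1⟩
  rw [card_image_of_injOn fun x hx y hy e => by
    simp only [coe_filter, mem_product, mem_range, dv, Set.mem_ofPred_eq] at hx hy
    exact Prod.ext_iff.2 (ev_eq h hx.1.1 hy.1.1 hx.1.2 hy.1.2 e), card_filter, sum_product] at this
  simp only [← card_filter] at this
  rw [← pp] at c1
  omega

theorem twin_iff : twin I = true ↔ nN I = 2 ∧ ta I 0 = true ∧ ta I 1 = true := by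
  simp [twin, and_assoc]

theorem Sp.rich (h : Ok I) (f : Fe I) (s : Sp I A B) (np : ¬ poor I = true) (tw : twin I = true)
    {p q : ℕ} (hp : p < nN I) (hq : q < nN I) (a : Mt I A p) (b : Mt I B q) : False := by
  obtain ⟨w1, w2, w3⟩ := twin_iff.1 tw
  have n := h.num
  have mt' : ∀ p, p < nN I → gp I p = true ∧ mt I p ≠ p ∧ mt I p < nN I := fun p hp => by
    have := (mt_spec hp).2.1 (by rcases (show p = 0 ∨ p = 1 by omega) with rfl | rfl <;> assumption)
    exact ⟨this.1, this.2.1, (mt_spec hp).1⟩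
  have k : ∀ A B p q, Sp I A B → p < nN I → q < nN I → Mt I A p → Mt I B q →
      ¬ ((ball I (ctr I p) (qq I p)).filter (· ∈ A)).card ≤ et I := fun A B p q s hp hq a b c => by
    obtain ⟨g, m1, m2⟩ := mt' p hp
    have only : ∀ r, r < nN I → Mt I A r → r = p := fun r hr d => by
      have : r ≠ q := fun e => s.both h hq (e ▸ d) b
      have : p ≠ q := fun e => s.both h hq (e ▸ a) b
      omega
    have t := (s.small' h f np hp g only a c (Or.inr tw)).2
    have hh' := hh_le h hp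
    obtain ⟨_, e2, e3⟩ := pure_spec (B := B) h m2 hh'.1
    have := s.sum3 (D := qo I A p) (E := (pure I (mt I p) (hh I p)).filter (· ∉ B)) (F := ∅)
      (fun v hv => by
        obtain ⟨b1, b2, b3⟩ := mem_qo.1 hv
        refine ⟨b1, b3, fun c => s.both h hp a ⟨v, c, b2⟩, fun c => m1 ?_, by simp⟩
        obtain ⟨i, _, d, rfl⟩ := e2 v (mem_filter.1 c).1
        exact (vx_mem h m2 d).2.2.1.symm.trans (pi_mem h hp b1 b2).1) (fun v hv => by
        obtain ⟨i, _, d, rfl⟩ := e2 v (mem_filter.1 hv).1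
        have := vx_mem h m2 d
        exact ⟨this.1, fun c => m1 (only _ m2 ⟨_, c, this.2.1.symm ▸ d⟩), (mem_filter.1 hv).2,
          by simp⟩) (by simp)
    have := card_qo (A := A) h hp
    have := e3 t
    omega
  refine k B A q p s.symm hq hp b a (Thin.few h hq ?_).le
  have : p ≠ q := fun e => s.both h hq (e ▸ a) b
  rw [show q = mt I p by have := mt' p hp; omega]
  refine s.ovl h (l := rp I p) (fun v hv => (mem_filter.1 hv).2) (not_le.1 (k A B p q s hp hq a b)).le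
    (fun u hu v hv e => by
      rw [← vx_rp (p := p) (s.a u (mem_filter.1 hu).2), e, vx_rp (s.a v (mem_filter.1 hv).2)])
    fun w hw => ?_
  obtain ⟨c, d⟩ := mem_ball.1 (mem_filter.1 hw).1
  exact ⟨d.trans_le (qq_bd h hp).2, fun x hx => el_R (mem_cat.2 ⟨p, hp, mem_cat.2 ⟨_, d,
    List.mem_append_right _ (by rwa [tw, Bool.eq_false_iff.2 np, ← rp, vx_rp c])⟩⟩)⟩

theorem pL_spec (po : poor I = true) : pL I < nN I ∧ 1 - pL I < nN I ∧ 1 - pL I ≠ pL I ∧
    qq I (1 - pL I) ≤ qq I (pL I) ∧ ∀ p, p < nN I → gp I p = true := by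
  obtain ⟨a, b, c, _⟩ := poor_two po
  refine ⟨?_, by omega, ?_, ?_, fun p hp => ((mt_spec hp).2.1 (by
    rcases (show p = 0 ∨ p = 1 by omega) with rfl | rfl <;> assumption)).1⟩ <;>
    simp only [pL, Bool.cond_eq_ite, Nat.ble_eq] <;> split_ifs <;>
    (try simp only [Nat.sub_zero, Nat.sub_self]) <;> omega

theorem poor_num (h : Ok I) (f : Fe1 I) (po : poor I = true) : 1 ≤ gm I / pp I ∧
    gm I / pp I ≤ t0 I ∧ ∀ p, p < nN I → pp I * bb I p + t0 I < gm I + so I p (nn I) := by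
  have n := h.num
  have a := (poor_two po).1
  have b := f.sym 0 1 (by omega) (by omega)
  have c := f.cut {0} (by simp [a]) (singleton_nonempty _) fun e => by
    simpa [a] using congrArg card e
  rw [a, dcut, sum_singleton, show range 2 \ {0} = {1} by decide, sum_singleton] at c
  refine ⟨(Nat.le_div_iff_mul_le (by omega)).2 (by rw [gm]; omega), Nat.le_of_lt_succ
    ((Nat.div_lt_iff_lt_mul (by omega)).2 (by rw [Nat.succ_mul, mul_comm, gm]; omega)),
    fun p hp => ?_⟩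
  have d := f.dem p hp
  have := f.zero p hp
  rw [a, sum_range_succ, sum_range_one] at d
  rw [so, sumB_eq, sum_congr rfl fun z _ => (sc_eq I p z).trans (if_pos (by simp [nr, po])), gm]
  rcases (show p = 0 ∨ p = 1 by omega) with rfl | rfl <;> omega

theorem gl_lo {u : ℕ} (hu : u < pp I) :
    gl I u = gm I / pp I + if pp I ≤ u + gm I % pp I then 1 else 0 := by
  simp [gl, hu, Bool.cond_eq_ite]

theorem gl_ge (I : In) (u : ℕ) : gm I / pp I ≤ gl I u := by
  rw [gl, Bool.cond_eq_ite]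
  split_ifs <;> omega

theorem adj_G (po : poor I = true) {u j : ℕ} (hu : u < qq I (1 - pL I)) (hj : j < gl I u) :
    Adj I (vx I (1 - pL I) u) (vx I (pL I) ((u + j) % qq I (pL I))) :=
  Or.inl (el_G po (mem_cat.2 ⟨u, hu, mem_tab.2 ⟨j, hj, rfl⟩⟩))

theorem Sp.fin (h : Ok I) (f : Fe1 I) (s : Sp I A B) {p q i : ℕ} (hp : p < nN I) (hq : q < nN I)
    (e : q ≠ p) (a : vx I p i ∈ A) (hi : i < qq I p) (b : Mt I B q)
    (l : ∀ z ∈ A, ¬ lo I z = true) {E : Finset ℕ} (hE : ∀ j ∈ E, j < qq I q ∧ vx I q j ∉ B) :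
    qq I p + E.card + (stars I p i).card < kk I +
      (((ball I (ctr I p) (qq I p)).filter (· ∈ A)).image (rp I p)).card := by
  have m : Mt I A p := ⟨_, a, (vx_mem h hp hi).2.1.symm ▸ hi⟩
  have := s.sum3 (D := qo I A p) (E := E.image (vx I q)) (F := stars I p i) (fun v hv => by
    obtain ⟨b1, b2, b3⟩ := mem_qo.1 hv
    have b4 := (pi_mem h hp b1 b2).1
    refine ⟨b1, b3, fun c => s.both h hp m ⟨v, c, b2⟩, fun c => e ?_,
      fun c => (mem_stars h f hp c).2.2.2.2.2.1 (inn_iff.2 (b4.symm ▸ b2))⟩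
    obtain ⟨j, hj, rfl⟩ := mem_image.1 c
    exact (vx_mem h hq (hE j hj).1).2.2.1.symm.trans b4) (fun v hv => by
      obtain ⟨j, hj, rfl⟩ := mem_image.1 hv
      obtain ⟨b1, b2, _, b3, _⟩ := vx_mem h hq (hE j hj).1
      exact ⟨b1, fun c => s.both h hq ⟨_, c, b2.symm ▸ (hE j hj).1⟩ b, (hE j hj).2,
        fun c => (mem_stars h f hp c).2.2.2.2.2.1 b3⟩) fun v hv => by
    obtain ⟨b1, _, b2, _, b3, _⟩ := mem_stars h f hp hv
    exact ⟨b1, fun c => l v c b3, fun c => s.no _ a v c b2⟩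
  rw [card_image_of_injOn fun i hi j hj e =>
    (vx_eq h hq hq ((hE i hi).1.trans_le (ue_bd h hq).1) ((hE j hj).1.trans_le (ue_bd h hq).1)
      e).2] at this
  have := card_qo (A := A) h hp
  rw [card_image_of_injOn fun u hu v hv e => by
    rw [← vx_rp (p := p) (s.a u (mem_filter.1 hu).2), e, vx_rp (s.a v (mem_filter.1 hv).2)]]
  omega

theorem mem_pos (h : Ok I) {p j : ℕ} (hp : p < nN I) :
    j ∈ ((ball I (ctr I p) (qq I p)).filter (· ∈ A)).image (rp I p) ↔
      j < qq I p ∧ vx I p j ∈ A := by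
  simp only [mem_image, mem_filter, mem_ball]
  constructor
  · rintro ⟨v, ⟨⟨a, b⟩, c⟩, rfl⟩
    exact ⟨b, by rwa [vx_rp a]⟩
  · rintro ⟨a, b⟩
    obtain ⟨c, d, _⟩ := vx_mem h hp a
    exact ⟨_, ⟨⟨c, d.trans_lt a⟩, b⟩, d⟩

theorem Sp.poor (h : Ok I) (f : Fe1 I) (s : Sp I A B) (po : poor I = true) (a : Mt I A (pL I))
    (b : Mt I B (1 - pL I)) : False := by
  have n := h.num
  obtain ⟨p1, p2, p3, p4, _⟩ := pL_spec po
  obtain ⟨w1, w2, w3⟩ := poor_num h f po
  have q1 := qq_bd h p1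
  have q2 := qq_bd h p2
  have ne : ∀ (C : Finset ℕ) p, Mt I C p → (∀ v ∈ C, v < nn I) →
      (((ball I (ctr I p) (qq I p)).filter (· ∈ C)).image (rp I p)).Nonempty :=
    fun C p ⟨v, a, b⟩ c => ⟨_, mem_image_of_mem _ (mem_filter.2 ⟨mem_ball.2 ⟨c v a, b⟩, a⟩)⟩
  by_cases c : ∀ z ∈ B, ¬ lo I z = true
  · obtain ⟨x, hx⟩ := ne A _ a s.a
    rw [mem_pos h p1] at hx
    obtain ⟨u, hu, E, e1, e2⟩ := cyc_int (len := gl I) (fun u hu => ⟨((mem_pos h p2).1 hu).1.trans_le
      p4, w1.trans (gl_ge I u)⟩) hx.1 (fun u hu j hj e => s.no _ hx.2 _ ((mem_pos h p2).1 hu).2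
        (e ▸ (adj_G po ((mem_pos h p2).1 hu).1 hj).symm)) (ne B _ b s.b)
    rw [mem_pos h p2] at hu
    have := s.symm.fin h f p2 p1 p3.symm hu.2 hu.1 a c (E := E) fun j hj => by
      obtain ⟨v, hv, i, hi, rfl⟩ := e2 j hj
      rw [mem_pos h p2] at hv
      exact ⟨Nat.mod_lt _ (by omega), fun c => s.no _ c _ hv.2 (adj_G po hv.1 hi).symm⟩
    by_cases d : u < pp I
    · have := arc_gap d ((Nat.add_le_add_left (Nat.zero_le _) _).trans_lt (w3 _ p2))
      rw [← card_stars h p2 d, bb, add_zero] at this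
      rw [gl_lo d] at e1
      omega
    · have : bb I (1 - pL I) ≤ gl I u := by simp [gl, d, Bool.cond_eq_ite]
      rw [bb] at this
      omega
  push Not at c
  obtain ⟨z, z1, z2⟩ := c
  obtain ⟨T, hT⟩ : ∃ T, T = ((ball I (ctr I (pL I)) (qq I (pL I))).filter (· ∈ A)).image
    (rp I (pL I)) := ⟨_, rfl⟩
  have t1 : ∀ j ∈ T, j < qq I (pL I) ∧ vx I (pL I) j ∈ A ∧ gm I / pp I < j ∧ j < pp I :=
    fun j hj => by
    rw [hT, mem_pos h p1] at hj
    refine ⟨hj.1, hj.2, by_contra fun c => s.no _ hj.2 z z1 (Or.inr (el_P po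
      (List.mem_append_right _ (mem_cat.2 ⟨z, s.b z z1, mem_cat.2 ⟨j, hj.1, mem_opt.2 ⟨?_, rfl⟩⟩⟩))))⟩
    simp only [z2, Bool.true_and, Bool.or_eq_true, Nat.ble_eq]
    omega
  obtain ⟨j, hj, m⟩ := exists_min_image T (fun x => x) (hT ▸ ne A _ a s.a)
  obtain ⟨j1, j2, j3, j4⟩ := t1 j hj
  have k : ∀ x ∈ T, ∀ u, u ≤ x → x < u + gl I u → u < qq I (1 - pL I) ∧ vx I (1 - pL I) u ∉ B :=
    fun x hx u a b => by
    obtain ⟨j1, j2, j3, j4⟩ := t1 x hx
    have := adj_G po (u := u) (j := x - u) (by omega) (by omega)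
    rw [Nat.add_sub_cancel' a, Nat.mod_eq_of_lt j1] at this
    exact ⟨by omega, fun c => s.no _ j2 _ c this.symm⟩
  have d := arc_gap j4 ((Nat.add_le_add_left w2 _).trans_lt (w3 _ p1))
  have := s.fin h f p1 p2 p3 j2 j1 b (fun v hv l => s.no v hv z z1 (by
    have k : ∀ u v, u < v → v < nn I → lo I u = true → lo I v = true → (u, v) ∈ el I :=
      fun u v a b c d => el_P po (List.mem_append_left _
        (mem_prs.2 ⟨u, v, a, b, mem_opt.2 ⟨by rw [c, d]; rfl, rfl⟩⟩))
    rcases lt_or_gt_of_ne (fun e : v = z => s.dis v hv (e ▸ z1)) with c | c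
    · exact Or.inl (k v z c (s.b z z1) l z2)
    · exact Or.inr (k z v c (s.a v hv) z2 l))) (E := T ∪ Ico (j + 1 - gm I / pp I -
      if pp I + gm I / pp I ≤ j + gm I % pp I then 1 else 0) j) fun u hu => by
    rcases mem_union.1 hu with c | c
    · exact k u c u le_rfl (by have := gl_ge I u; omega)
    · rw [mem_Ico] at c
      refine k j hj u c.2.le ?_
      rw [gl_lo (by omega)]
      split_ifs at c ⊢ <;> omega
  rw [card_union_of_disjoint (Finset.disjoint_left.2 fun u hu c =>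
    absurd (m u hu) (not_le.2 (mem_Ico.1 c).2)), Nat.card_Ico, ← hT] at this
  rw [← card_stars h p1 j4, bb] at d
  split_ifs at this d <;> omega

theorem Sp.one (h : Ok I) (f : Fe I) (s : Sp I A B) (np : ¬ Vx.poor I = true) {p q : ℕ}
    (hp : p < nN I) (hq : q < nN I) (a : Mt I A p) (b : Mt I B q)
    (only : ∀ r, r < nN I → Mt I A r → r = p) : False := by
  have e : p ≠ q := fun e => s.both h hq (e ▸ a) b
  have hN : 2 ≤ nN I := by omega
  by_cases c : nN I = 2
  swap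
  · exact s.single h f np hN hp only a fun d => absurd d c
  have x : ∀ p q, p < nN I → q < nN I → p ≠ q → nx I p = q := fun p q hp hq e => by
    have := f.cyc.lt p hp
    have := f.cyc.ne hN hp
    omega
  by_cases d : ta I q = true
  swap
  · exact s.single h f np hN hp only a fun _ => (x p q hp hq e).symm ▸ ⟨d, b⟩
  by_cases g : ta I p = true
  · exact s.rich h f np (twin_iff.2 ⟨c, by
      rcases (show p = 0 ∧ q = 1 ∨ p = 1 ∧ q = 0 by omega) with ⟨rfl, rfl⟩ | ⟨rfl, rfl⟩ <;>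
        exact ⟨‹_›, ‹_›⟩⟩) hp hq a b
  · exact s.symm.single h f np hN hq (fun r hr k => by
      have : r ≠ p := fun e => s.both h hp a (e ▸ k)
      omega) b fun _ => (x q p hq hp e.symm).symm ▸ ⟨g, a⟩

theorem conn (h : Ok I) (f : Fe I) : VC (nn I) (kk I) (matOf (nn I) (el I)) := by
  classical
  intro A B hA hB a b c d
  by_contra e
  have s : Sp I A B := ⟨fun v hv => mem_range.1 (hA hv), fun v hv => mem_range.1 (hB hv),
    Finset.disjoint_left.1 c, fun u hu v hv g => d u hu v hv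
      ((entry_matOf _ (mem_range.1 (hA hu)) (mem_range.1 (hB hv))).2
        ⟨fun e => Finset.disjoint_left.1 c hu (e ▸ hv), g⟩), by
      have := card_le_card (union_subset hA hB)
      rw [card_sdiff_of_subset (union_subset hA hB)]
      rw [card_union_of_disjoint c, card_range] at *
      omega⟩
  by_cases c1 : ∀ q, q < nN I → ¬ Mt I A q
  · exact s.none h f c1 a b
  by_cases c2 : ∀ q, q < nN I → ¬ Mt I B q
  · exact s.symm.none h f c2 b a
  push Not at c1 c2
  obtain ⟨p, hp, a⟩ := c1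
  obtain ⟨q, hq, b⟩ := c2
  have e : p ≠ q := fun e => s.both h hq (e ▸ a) b
  by_cases po : poor I = true
  · have := pL_spec po
    have := (poor_two po).1
    by_cases g : p = pL I
    · exact s.poor h f.toFe1 po (g ▸ a) (by rwa [show 1 - pL I = q by omega])
    · exact s.symm.poor h f.toFe1 po (by rwa [show pL I = q by omega])
        (by rwa [show 1 - pL I = p by omega])
  by_cases c1 : ∀ r, r < nN I → Mt I A r → r = p
  · exact s.one h f po hp hq a b c1
  by_cases c2 : ∀ r, r < nN I → Mt I B r → r = q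
  · exact s.symm.one h f po hq hp b a c2
  push Not at c1 c2
  obtain ⟨p', a1, a2, a3⟩ := c1
  obtain ⟨q', b1, b2, b3⟩ := c2
  refine s.both2 h f po (X := (range (nN I)).filter (Mt I A)) (by simp)
    (one_lt_card.2 ⟨p, by simp [hp, a], p', by simp [a1, a2], a3.symm⟩) ?_
  have := card_filter_add_card_filter_not (s := range (nN I)) (Mt I A)
  have : 2 ≤ ((range (nN I)).filter fun p => ¬ Mt I A p).card := one_lt_card.2
    ⟨q, mem_filter.2 ⟨mem_range.2 hq, fun c => s.both h hq c b⟩,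
      q', mem_filter.2 ⟨mem_range.2 b1, fun c => s.both h b1 c b2⟩, b3.symm⟩
  rw [card_range] at *
  omega

end Vx

end Pool.Agent.Lib.MP_959bb6_lc
end
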