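import Mathlib
import Pool.Agent.Lib.MP_959bb6_lc.VTwin
import Pool.Agent.Lib.MP_959bb6_lc.Menger

-- part Pool.Agent.Lib.MP_959bb6_lc.VCost
section

/-!
The cost of the output: cliques, bundles and connections along the tour.
-/

set_option autoImplicit false

namespace Pool.Agent.Lib.MP_959bb6_lc

open Pool.Agent.Shared.PolyTime Enc Finset

theorem lc_bd {c : ℕ → ℕ → ℕ} {s ρ r : ℕ} {L : EL} (h : ∀ x ∈ L, s * c x.1 x.2 ≤ ρ)
    (hl : L.length ≤ r) : s * lc c L ≤ r * ρ := by
  refine le_trans ?_ (Nat.mul_le_mul_right _ hl)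
  clear hl
  induction L with
  | nil => simp [lc, ls]
  | cons x L ih =>
    have := h x List.mem_cons_self
    have := ih fun y hy => h y (List.mem_cons_of_mem _ hy)
    simp only [lc, ls, List.map_cons, List.sum_cons, List.length_cons, mul_add, add_mul] at *
    omega

theorem length_cat {β : Type} (a : ℕ) (f : ℕ → List β) :
    (cat a f).length = ∑ i ∈ range a, (f i).length := by
  have : ∀ L : List β, L.length = ls (fun _ => 1) L := fun L => by simp [ls]
  simp only [this, ls_cat]

theorem length_cat_le {β : Type} {a r : ℕ} {f : ℕ → List β} (h : ∀ i, i < a → (f i).length ≤ r) :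
    (cat a f).length ≤ a * r := by
  rw [length_cat]
  exact (sum_le_card_nsmul _ _ r fun i hi => h i (mem_range.1 hi)).trans (by simp)

theorem lc_prs {n : ℕ} {c : ℕ → ℕ → ℕ} {b : ℕ → ℕ → Bool} (hc : ∀ u v, c u v = c v u)
    (hb : ∀ u v, u < n → v < n → b u v = b v u) (h0 : ∀ u, u < n → c u u = 0) :
    2 * lc c (prs n fun u v => opt (b u v) u v) =
      ∑ u ∈ range n, ∑ v ∈ range n, if b u v = true then c u v else 0 := by
  rw [← ls_prs (fun x : ℕ × ℕ => 2 * c x.1 x.2) (fun u v => opt (b u v) u v) _ (fun u v a d => by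
    rw [← hb u v (a.trans d) d, ← hc u v]
    cases b u v <;> simp [opt, ls, two_mul]) fun u hu => by simp [h0 u hu]]
  simp [lc, ls, List.sum_map_mul_left]

theorem common {n x u v : ℕ} {c : ℕ → ℕ → ℕ} {G : Mat} (hm : IsMet n c) (hu : u < n) (hv : v < n)
    {Q : Finset ℕ} (hQ : Q ⊆ range n) (h : x + (Q.filter fun w => ¬ entry G u w = true).card +
      (Q.filter fun w => ¬ entry G v w = true).card ≤ Q.card) :
    x * c u v ≤ cstAt n c G u + cstAt n c G v := by
  have a := card_filter_add_card_filter_not (s := Q) fun w => entry G u w = true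
  have b := card_filter_add_card_filter_not (s := Q.filter fun w => entry G u w = true)
    fun w => entry G v w = true
  have d := card_le_card (filter_subset_filter (fun w => ¬ entry G v w = true)
    (filter_subset (fun w => entry G u w = true) Q))
  refine (Nat.mul_le_mul_right _ (show x ≤ ((Q.filter fun w => entry G u w = true).filter
    fun w => entry G v w = true).card by omega)).trans ?_
  rw [cstAt, cstAt, ← sum_add_distrib]
  refine (card_nsmul_le_sum _ _ _ fun w hw => ?_).trans (sum_le_sum_of_subset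
    ((filter_subset _ _).trans ((filter_subset _ _).trans hQ)))
  simp only [mem_filter] at hw
  have e := mem_range.1 (hQ hw.1.1)
  rw [ind_true hw.1.2, ind_true hw.2, one_mul, one_mul, hm.symm v w hv e]
  exact hm.tri u w v hu e hv

theorem miss_sum {n a b : ℕ} {c : ℕ → ℕ → ℕ} {G : Mat} (hs : Sym n G) (r : ℕ → ℕ → Prop)
    [∀ u v, Decidable (r u v)] (hr : ∀ u v, r u v → r v u) (φ : ℕ → ℕ)
    (h1 : ∀ u v, u < n → v < n → r u v → a * c u v ≤ φ u + φ v)
    (h2 : ∀ u, u < n → ((range n).filter fun v => r u v ∧ ¬ entry G u v = true).card * φ u ≤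
      b * cstAt n c G u) : a * ∑ u ∈ range n, ∑ v ∈ range n, (if r u v then c u v else 0) ≤
      a * ∑ u ∈ range n, ∑ v ∈ range n, ind G u v * (if r u v then c u v else 0) +
        2 * (b * cst2 n c G) := by
  have e : ∑ u ∈ range n, ∑ v ∈ range n, (if r u v ∧ ¬ entry G u v = true then φ u else 0) ≤
      b * cst2 n c G := by
    rw [cst2, mul_sum]
    refine sum_le_sum fun u hu => le_trans (le_of_eq ?_) (h2 u (mem_range.1 hu))
    rw [← sum_filter, sum_const, smul_eq_mul]
  refine le_trans ?_ (Nat.add_le_add_left (Nat.mul_le_mul_left 2 e) _)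
  rw [two_mul]
  nth_rewrite 4 [sum_comm]
  simp only [mul_sum, ← sum_add_distrib]
  refine sum_le_sum fun u hu => sum_le_sum fun v hv => ?_
  have := h1 u v (mem_range.1 hu) (mem_range.1 hv)
  rw [ind_eq, hs.symm v u (mem_range.1 hv) (mem_range.1 hu)]
  by_cases d : r u v
  · by_cases e : entry G u v = true <;> simp [d, e, hr u v d, this]
  · simp [d]

theorem complete_spec {n k t s : ℕ} {c : ℕ → ℕ → ℕ} {G : Mat} (hm : IsMet n c) (hs : Sym n G)
    (hG : VC n k G) (hk : k < n) (hn : n ≤ k + t) (ht : 2 * (s * t) + 2 * t ≤ k) :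
    Sym n (tab2 n fun u v => !(u == v)) ∧ VC n k (tab2 n fun u v => !(u == v)) ∧
      s * cst2 n c (tab2 n fun u v => !(u == v)) ≤ (s + 1) * cst2 n c G := by
  refine ⟨⟨fun u v hu hv => by rw [entry_tab2 _ hu hv, entry_tab2 _ hv hu, Bool.beq_comm],
    fun u hu => by simp [entry_tab2 _ hu hu]⟩, fun A B hA hB ⟨a, ha⟩ ⟨b, hb⟩ d e => absurd (by
      simpa [entry_tab2 _ (mem_range.1 (hA ha)) (mem_range.1 (hB hb))] using
        fun c : a = b => Finset.disjoint_left.1 d ha (c ▸ hb)) (e a ha b hb), ?_⟩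
  have m : ∀ u, u < n → ((range n).filter fun v => ¬ entry G u v = true).card ≤ t := fun u hu => by
    have := card_filter_add_card_filter_not (s := range n) fun v => entry G u v = true
    have := hG.deg hk hu
    rw [deg_eq] at this
    rw [card_range] at *
    omega
  have := miss_sum (a := 2 * (s * t)) (b := t) (c := c) hs (fun _ _ => True) (fun _ _ _ => trivial)
    (cstAt n c G) (fun u v hu hv _ => common hm hu hv (Subset.refl _) (by
      have := m u hu
      have := m v hv
      rw [card_range]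
      omega)) fun u hu => Nat.mul_le_mul_right _ (by simpa using m u hu)
  simp only [if_true] at this
  have e : cst2 n c (tab2 n fun u v => !(u == v)) ≤ ∑ u ∈ range n, ∑ v ∈ range n, c u v :=
    sum_le_sum fun u _ => sum_le_sum fun v _ =>
      (Nat.mul_le_mul_right _ (ind_le _ _ _)).trans (one_mul _).le
  refine Nat.le_of_mul_le_mul_left ?_ (show 0 < 2 * t by omega)
  change _ ≤ _ * cst2 n c G + _ at this
  nlinarith [Nat.mul_le_mul_left (2 * (s * t)) e]

namespace Vx

open Co (nd op at1)

variable {I : In} {G : Mat}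

theorem intra_iff (h : Ok I) {u v : ℕ} (hu : u < nn I) (hv : v < nn I) (l : ¬ lo I u = true) :
    intra I u v ↔ v ∈ ball I (ctr I (pi I u)) (qq I (pi I u)) := by
  obtain ⟨a, b, _⟩ := pi_gp h hu l
  rw [mem_ball]
  refine ⟨fun c => ⟨hv, c.2.2 ▸ (pi_gp h hv c.2.1).2.2⟩, fun c => ?_⟩
  have := pi_mem h a hv c.2
  exact ⟨l, fun d => this.2.1 d b, this.1.symm⟩

theorem cost_Q (h : Ok I) (hs : Sym (nn I) G) (hG : VC (nn I) (kk I) G) :
    sg I * (2 * lc (cc I) (eQ I)) + sg I * ex I G ≤ (sg I + 16) * cst2 (nn I) (cc I) G := by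
  have n := h.num
  obtain ⟨m, hm⟩ : ∃ m : ℕ → ℕ, ∀ u, m u = ((range (nn I)).filter fun v => intra I u v ∧
    ¬ entry G u v = true).card := ⟨_, fun _ => rfl⟩
  have m1 : ∀ u, u < nn I → ¬ lo I u = true → m u = ((ball I (ctr I (pi I u)) (qq I (pi I u))).filter
      fun v => ¬ entry G u v = true).card := fun u hu l => by
    rw [hm]
    congr 1
    ext v
    simp only [mem_filter, mem_range]
    exact ⟨fun a => ⟨(intra_iff h hu a.1 l).1 a.2.1, a.2.2⟩,
      fun a => ⟨(mem_ball.1 a.1).1, (intra_iff h hu (mem_ball.1 a.1).1 l).2 a.1, a.2⟩⟩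
  have a := miss_sum (a := pp I * sg I) (b := 8 * pp I) (c := cc I) hs (intra I)
    (fun _ _ => intra_comm.1) (fun u => if 2 * tt I < m u then pp I * (2 * rN I (pi I u))
      else sg I * cg I G u) (fun u v hu hv r => by
      obtain ⟨a1, a2, a3⟩ := pi_gp h hu r.1
      have a4 := (pi_gp h hv r.2.1).2.2
      rw [← r.2.2] at a4 ⊢
      have := (gp_mem h hu a2).1 a3
      have := (gp_mem h hv a2).1 a4
      have := (triV h (sg I) a1 hu hv).1
      have := Nat.mul_le_mul_left (pp I) (show sg I * cc I u v ≤ 2 * rN I (pi I u) by omega)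
      rw [mul_assoc]
      split_ifs
      any_goals omega
      have q := qq_bd h a1
      have := m1 u hu r.1
      have := m1 v hv r.2.1
      rw [← r.2.2] at this
      have := Nat.mul_le_mul_left (sg I) (common (x := pp I) (G := G) h.met hu hv
        (Q := ball I (ctr I (pi I u)) (qq I (pi I u))) (filter_subset _ _) (by
          rw [card_ball _ (q.2.trans h.lt.le)]; omega))
      rwa [mul_add, mul_left_comm] at this) fun u hu => by
    rw [← hm]
    by_cases l : lo I u = true
    · rw [hm, filter_eq_empty_iff.2 fun v _ c => c.1.1 l, card_empty, zero_mul]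
      exact Nat.zero_le _
    split_ifs with c
    · obtain ⟨a1, a2, a3⟩ := pi_gp h hu l
      have q := qq_bd h a1
      have b := far_cost (n := nn I) (s := 2) (ρ := rN I (pi I u)) (u := u) (c := cc I) G
        (ball I (ctr I (pi I u)) (kt I)) fun v hv c => by
          have : rN I (pi I u) ≤ cv I (pi I u) v :=
            rr_le h hv (not_lt.1 fun d => c (mem_ball.2 ⟨hv, d⟩))
          have := (gp_mem h hu a2).1 a3
          have := h.s10 (cv I (pi I u) u)
          have := (triV h 1 a1 hu hv).2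
          omega
      have d := card_filter_add_card_filter_not (s := ball I (ctr I (pi I u)) (kt I))
        fun v => entry G u v = true
      have e := card_le_card (filter_subset_filter (fun v => ¬ entry G u v = true)
        (s := ball I (ctr I (pi I u)) (qq I (pi I u))) (t := ball I (ctr I (pi I u)) (kt I))
        fun v hv => mem_ball.2 ⟨(mem_ball.1 hv).1, (mem_ball.1 hv).2.trans_le q.2⟩)
      rw [card_ball _ h.lt.le] at d
      rw [← m1 u hu l] at e
      have := h.deg hG hu
      have := Nat.mul_le_mul_right (rN I (pi I u)) (show m u + 2 * ((ball I (ctr I (pi I u))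
        (kt I)).filter fun v => entry G u v = true).card ≤ 2 * deg (nn I) G u by omega)
      have := Nat.mul_le_mul_left (pp I) (show m u * rN I (pi I u) ≤
        4 * cstAt (nn I) (cc I) G u by nlinarith)
      nlinarith
    · have := h.n3
      have := h.p4 (tt I)
      rw [← mul_assoc]
      refine Nat.mul_le_mul_right _ ((Nat.mul_le_mul_right _ (not_lt.1 c)).trans ?_)
      rw [mul_assoc (100 : ℕ), mul_assoc 2, mul_comm (tt I)] at *
      omega
  have b : 2 * lc (cc I) (eQ I) =
      ∑ u ∈ range (nn I), ∑ v ∈ range (nn I), if intra I u v then cc I u v else 0 := by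
    rw [eQ, lc_prs h.sy (fun u v _ _ => by
      rw [Bool.eq_iff_iff]; simp only [Bool.and_eq_true, beq_iff_eq]; tauto) h.met.self]
    simp [intra, and_assoc]
  have c : ∑ u ∈ range (nn I), ∑ v ∈ range (nn I), ind G u v * (if intra I u v then cc I u v
      else 0) + ex I G = cst2 (nn I) (cc I) G := by
    simp only [ex, cst2, cstAt, ← sum_add_distrib]
    exact sum_congr rfl fun u _ => sum_congr rfl fun v _ => by split_ifs <;> simp
  rw [← b] at a
  refine Nat.le_of_mul_le_mul_left ?_ (show 0 < pp I by omega)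
  rw [← c] at a ⊢
  nlinarith

theorem disp (h : Ok I) {p q j : ℕ} (hp : p < nN I) (hq : q < nN I) (e : p ≠ q) (hj : j < pp I) :
    2 * (sg I * cv I p (vx I p j)) ≤ cN I p q := by
  have n := h.num
  have a := rp_vx (I := I) (p := p) (j := j) (by have := h.lt; omega)
  by_cases g : gp I p = true
  · have := gp_inner h hp g (v := vx I p j) (by omega)
    have := sep h hp hq e
    have := h.ss (cv I p (vx I p j))
    omega
  · have := core_sep h hp hq e g
    have := Nat.mul_le_mul_left (sg I) (cv_le h (p := p) (v := vx I p j) (by omega))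
    omega

theorem triE (h : Ok I) (s : ℕ) {p q u v : ℕ} (hp : p < nN I) (hq : q < nN I) (hu : u < nn I)
    (hv : v < nn I) : s * cc I u v ≤ s * cv I p u + s * cN I p q + s * cv I q v := by
  have := (triV h s hp hu hv).1
  have := (triN h s hp hq hv).2
  omega

theorem cost_B (h : Ok I) (f : Fe I) :
    sg I * (2 * lc (cc I) (eB I)) ≤ (sg I + 1) * (x1 I + 4 * mu I) := by
  have n := h.num
  have l := h.lt
  have a := f.bu.cost (cN I)
  rw [Bu.ls_nd] at a
  refine le_trans ?_ (Nat.mul_le_mul_left _ f.c2)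
  rw [← a, eB, lc_cat, mul_sum, mul_sum, mul_sum, mul_sum]
  refine sum_le_sum fun i hi => ?_
  have hi : i < (bl I).length := mem_range.1 hi
  obtain ⟨b1, b2, b3⟩ := bun_nd f (x := 2 * i) (by omega)
  rw [show op (2 * i) = 2 * i + 1 by simp [op]] at b2 b3
  have := lc_bd (c := cc I) (s := sg I) (r := mu I)
    (ρ := (sg I + 1) * cN I (nd (bl I) (2 * i) / mm I) (nd (bl I) (2 * i + 1) / mm I))
    (L := tab (mu I) fun j => (ev I (nd (bl I) (2 * i)) j,
      ev I (nd (bl I) (2 * i + 1)) ((j + Bu.sf (bu I) i) % mu I))) (fun x hx => by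
      obtain ⟨j, hj, rfl⟩ := mem_tab.1 hx
      have c1 := blk_lt h (nd (bl I) (2 * i)) hj
      have c2 := blk_lt h (nd (bl I) (2 * i + 1)) (Nat.mod_lt (j + Bu.sf (bu I) i) n.2.2.2.2.2.1)
      have := disp h b1 b2 b3.symm c1
      have := disp h b2 b1 b3 c2
      have := triE h (sg I) b1 b2 (vx_lt (p := nd (bl I) (2 * i) / mm I) (c1.trans (by omega)))
        (vx_lt (p := nd (bl I) (2 * i + 1) / mm I) (c2.trans (by omega)))
      rw [cN_sy h (nd (bl I) (2 * i + 1) / mm I)] at *
      simp only [ev, add_mul]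
      omega) (length_tab _ _).le
  change _ ≤ _ * (_ * (cN I (nd (bl I) _ / _) (nd (bl I) _ / _) + cN I (nd (bl I) _ / _)
    (nd (bl I) _ / _)))
  rw [cN_sy h (nd (bl I) (2 * i + 1) / mm I)]
  nlinarith

theorem len_vx (h : Ok I) {p q i j : ℕ} (hp : p < nN I) (hq : q < nN I) (hi : i ≤ kt I)
    (hj : j ≤ kt I) : cc I (vx I p i) (vx I q j) ≤ rN I p + cN I p q + rN I q := by
  have a := hi.trans_lt h.lt
  have b := hj.trans_lt h.lt
  have := triE h 1 hp hq (vx_lt (p := p) a) (vx_lt (p := q) b)
  have := cv_le h (p := p) (v := vx I p i) (by rwa [rp_vx a])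
  have := cv_le h (p := q) (v := vx I q j) (by rwa [rp_vx b])
  omega

theorem cost_Z (h : Ok I) (f : Fe I) : sg I * (2 * lc (cc I) (eZ I)) ≤ 4 * x1 I := by
  have n := h.num
  by_cases c : nN I = 1
  · simp [eZ, c, cat, lc, ls]
  have hN : 2 ≤ nN I := by have := nN_pos h; omega
  have a : lc (cc I) (eZ I) ≤ ∑ p ∈ range (nN I),
      (11 * t0 I * (5 * cN I p (nx I p) + 5 * cN I (nx I p) (nx I (nx I p)))) := by
    rw [eZ, beq_false_of_ne c, cond_false, lc_cat]
    refine sum_le_sum fun p hp => ?_
    have hp := mem_range.1 hp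
    have x1 := f.cyc.lt p hp
    have x2 := f.cyc.lt _ x1
    have s1 := sep h hp x1 (f.cyc.ne hN hp).symm
    have s2 := sep h x1 hp (f.cyc.ne hN hp)
    have s3 := sep h x2 x1 (f.cyc.ne hN x1)
    have u := ue_bd h hp
    have q := qq_bd h hp
    have s4 : cN I p (nx I (nx I p)) ≤ cN I p (nx I p) + cN I (nx I p) (nx I (nx I p)) :=
      h.met.tri _ _ _ (ctr_lt hp) (ctr_lt x1) (ctr_lt x2)
    rw [cN_sy h (nx I p)] at s2
    rw [cN_sy h (nx I (nx I p))] at s3
    refine (one_mul _).ge.trans (lc_bd (fun x hx => ?_) (by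
      simp only [List.length_append, length_tab]; omega))
    simp only [List.mem_append, mem_tab] at hx
    rcases hx with ⟨j, hj, rfl⟩ | ⟨j, hj, rfl⟩ | ⟨j, hj, rfl⟩
    · have := len_vx h hp x1 (i := pp I + j) (j := pp I + j) (by omega) (by omega)
      simp only
      omega
    · simp only [z2, Bool.cond_eq_ite]
      split_ifs with d e
      · have := len_vx h hp x1 (i := pf I + j) (j := pf I + j + hh I p) (by omega) (by
          have := hh_le h hp
          rw [ue, e, cond_true] at hj
          omega)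
        omega
      · have := len_vx h hp x1 (i := pf I + j) (j := pf I + j + 0) (by omega) (by omega)
        omega
      · have := len_vx h hp x2 (i := pf I + j) (j := pf I + j - 5 * t0 I) (by omega) (by omega)
        omega
    · have := len_vx h hp x1 (i := qq I p + j) (j := j) (by omega) (by omega)
      simp only
      omega
  rw [← mul_sum, sum_add_distrib, ← mul_sum, ← mul_sum, f.cyc.sum fun p => cN I p (nx I p)] at a
  have b := (Nat.mul_le_mul_right _ (h.n4.trans (show pp I ≤ kk I - t0 I - 3 by omega))).trans f.c3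
  have d := h.s10 (sg I * (t0 I * ∑ p ∈ range (nN I), cN I p (nx I p)))
  have := Nat.mul_le_mul_left (sg I) a
  nlinarith

theorem sum_pi (h : Ok I) (φ : ℕ → ℕ → ℕ) : ∑ p ∈ range (nN I), ∑ v ∈ range (nn I),
    (if pi I v = p then φ p v else 0) = ∑ v ∈ range (nn I), φ (pi I v) v := by
  rw [sum_comm]
  exact sum_congr rfl fun v hv => by simp [pi_lt h (mem_range.1 hv)]

theorem oo_blk (f : Fe1 I) {z u : ℕ} (hz : z < nn I) (hu : u < nn I) (a : oo I z u = true)
    (b : blk I u = true) : lo I z = true :=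
  (sht_lo (f.osht z u hz hu a)).resolve_right (blk_iff.1 b).1

theorem blk_near (h : Ok I) {u : ℕ} (hu : u < nn I) (b : blk I u = true) : pi I u < nN I ∧
    gp I (pi I u) = true ∧ sg I * sg I * cv I (pi I u) u ≤ rN I (pi I u) := by
  obtain ⟨a, c, _⟩ := pi_gp h hu (blk_iff.1 b).1
  exact ⟨a, c, gp_inner h a c (by have := (blk_iff.1 b).2; have := h.num; omega)⟩

theorem cost_S (h : Ok I) (f : Fe1 I) : sg I * (2 * lc (cc I) (sng I)) ≤ (sg I + 4) * xo I := by
  have n := h.num
  have a : sg I * lc (cc I) (cat (nN I) fun p => cat (nn I) fun z => tab (sc I p z) fun j =>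
      (z, vx I p ((so I p z + j) % pp I))) ≤ (sg I + 4) * ∑ z ∈ range (nn I), ∑ u ∈ range (nn I),
      if oo I z u = true ∧ blk I u = true ∧ nr I (pi I u) z = true then cc I z u else 0 := by
    simp only [lc_cat, mul_sum]
    rw [sum_comm]
    refine sum_le_sum fun z hz => ?_
    rw [mem_range] at hz
    rw [← sum_pi h fun p u => (sg I + 4) * if oo I z u = true ∧ blk I u = true ∧
      nr I p z = true then cc I z u else 0]
    refine sum_le_sum fun p hp => ?_
    rw [mem_range] at hp
    rcases Nat.eq_zero_or_pos (sc I p z) with c | c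
    · simp [c, tab, lc, ls]
    obtain ⟨c1, c2, _, c3, _⟩ := sc_pos h f hz c
    have key : ∀ j u, j < pp I → u < nn I → blk I u = true → pi I u = p →
        sg I * cc I z (vx I p j) ≤ (sg I + 4) * cc I z u := fun j u hj hu b e => by
      have j1 : j < nn I := by have := h.lt; omega
      have a1 := gp_inner h hp c3 (v := vx I p j) (by rw [rp_vx j1]; omega)
      have a2 := (blk_near h hu b).2.2
      have a3 := lo_node.1 c2 p hp c3
      have a4 := (triV h (sg I) hp hz (vx_lt (p := p) j1)).1
      have a5 := (triV h (sg I) hp hu hz).2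
      have a6 := h.ss (cv I p u)
      rw [e] at a2
      rw [h.sy u z] at a5
      have a7 : sg I * (sg I * cv I p u) ≤ sg I * (2 * cc I z u) := by
        rw [← mul_assoc, mul_left_comm]; omega
      have a8 : sg I * (sg I * cv I p (vx I p j)) ≤ sg I * (2 * cc I z u) := by
        rw [← mul_assoc, mul_left_comm]; omega
      have := Nat.le_of_mul_le_mul_left a7 (by have := h.ten; omega)
      have := Nat.le_of_mul_le_mul_left a8 (by have := h.ten; omega)
      rw [add_mul]
      omega
    obtain ⟨T, hT⟩ : ∃ T, T = (range (nn I)).filter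
      fun u => oo I z u = true ∧ blk I u = true ∧ pi I u = p := ⟨_, rfl⟩
    have e : sc I p z = T.card := by rw [sc_eq, if_pos c1, hT]
    obtain ⟨u, hu, m⟩ := exists_min_image T (cc I z) (card_pos.1 (e ▸ c))
    refine (lc_bd (ρ := (sg I + 4) * cc I z u) (fun x hx => ?_)
      ((length_tab _ _).trans e).le).trans ((card_nsmul_le_sum _ _ _ fun v hv =>
        Nat.mul_le_mul_left _ (m v hv)).trans (le_of_eq ?_))
    · obtain ⟨j, _, rfl⟩ := mem_tab.1 hx
      simp only [hT, mem_filter, mem_range] at hu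
      exact key _ u (Nat.mod_lt _ (by omega)) hu.1 hu.2.2.1 hu.2.2.2
    · rw [hT, sum_filter]
      exact sum_congr rfl fun v _ => by
        by_cases d : pi I v = p <;> simp [d, c1]
  have b := lc_prs (b := kp I) h.sy (fun u v hu hv => by
    rw [kp, kp, f.osym u v hu hv, Bool.and_right_comm]) h.met.self
  have c : 2 * lc (cc I) (prs (nn I) fun u v => opt (kp I u v) u v) +
      2 * ∑ z ∈ range (nn I), ∑ u ∈ range (nn I), (if oo I z u = true ∧ blk I u = true ∧
        nr I (pi I u) z = true then cc I z u else 0) ≤ xo I := by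
    rw [b, two_mul, xo]
    nth_rewrite 2 [sum_comm (f := fun z u => if oo I z u = true ∧ blk I u = true ∧
      nr I (pi I u) z = true then cc I z u else 0)]
    simp only [← sum_add_distrib]
    refine sum_le_sum fun u hu => sum_le_sum fun v hv => ?_
    rw [mem_range] at hu hv
    have k : ¬ (oo I u v = true ∧ blk I u = true ∧ blk I v = true) := fun c =>
      (blk_iff.1 c.2.1).1 (oo_blk f hu hv c.1 c.2.2)
    rw [f.osym v u hv hu, h.sy v u, kp]
    revert k
    cases oo I u v <;> cases blk I u <;> cases blk I v <;> cases nr I (pi I v) u <;>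
      cases nr I (pi I u) v <;> simp
  rw [sng, lc_append]
  nlinarith [Nat.mul_le_mul_left (sg I + 4) c]

theorem deg_ms (h : Ok I) (f : Fe1 I) {z : ℕ} (hz : z < nn I) (l : lo I z = true) :
    kk I ≤ ((range (nn I)).filter fun v => ms I z v = true).card + 4 := by
  have n := h.num
  refine (f.deg z hz l).trans (Nat.add_le_add_right ?_ _)
  have key : ∀ b : ℕ → Bool, ((range (nn I)).filter fun v => b v = true).card =
      ((range (nn I)).filter fun v => b v = true ∧
        ¬ (blk I v = true ∧ nr I (pi I v) z = true)).card + ∑ p ∈ range (nN I),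
      ((range (nn I)).filter fun v => (b v = true ∧ blk I v = true ∧ pi I v = p) ∧
        nr I p z = true).card := fun b => by
    simp only [card_filter]
    rw [sum_comm, ← sum_add_distrib]
    refine sum_congr rfl fun v hv => ?_
    rw [sum_eq_single_of_mem _ (mem_range.2 (pi_lt h (mem_range.1 hv))) fun p _ c => by
      simp [c.symm]]
    split_ifs <;> first | rfl | tauto
  rw [key, key]
  refine Nat.add_le_add (card_le_card fun v hv => ?_) (sum_le_sum fun p hp => ?_)
  · simp only [mem_filter, mem_range] at hv ⊢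
    have a := (sht_iff.1 (f.osht z v hz hv.1 hv.2.1)).1
    have b : ¬ blk I z = true := fun c => (blk_iff.1 c).1 l
    have c : kp I z v = true := by simpa [kp, hv.2.1, b, or_iff_not_imp_left] using hv.2.2
    refine ⟨hv.1, (ms_iff hz hv.1).2 ⟨a, ?_⟩, hv.2.2⟩
    rcases lt_or_gt_of_ne a with d | d
    · exact Or.inl (List.mem_append_left _ (mem_prs.2 ⟨z, v, d, hv.1, mem_opt.2 ⟨c, rfl⟩⟩))
    · exact Or.inr (List.mem_append_left _ (mem_prs.2 ⟨v, z, d, hz, mem_opt.2
        ⟨by rwa [kp, f.osym v z hv.1 hz, Bool.and_right_comm], rfl⟩⟩))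
  · rw [mem_range] at hp
    by_cases c : nr I p z = true
    swap
    · simp [c]
    simp only [c, and_true]
    have e := sc_eq I p z
    have q := qq_bd h hp
    have s := sc_le h hp z
    rw [if_pos c] at e
    rw [← e, ← card_range (sc I p z)]
    refine card_le_card_of_injOn (fun j => vx I p ((so I p z + j) % pp I)) (fun j hj => ?_)
      fun i hi j hj e => ?_
    · have hj := mem_range.1 hj
      have a := Nat.mod_lt (so I p z + j) (show 0 < pp I by omega)
      obtain ⟨b1, b2, b3, _, b4⟩ := vx_mem h hp (j := (so I p z + j) % pp I) (by omega)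
      have g := (sc_pos h f hz (Nat.zero_lt_of_lt hj)).2.2.2.1
      have b5 : ¬ lo I (vx I p ((so I p z + j) % pp I)) = true := fun d => b4.1 d g
      simp only [coe_filter, mem_range, Set.mem_ofPred_eq]
      exact ⟨b1, (ms_iff hz b1).2 ⟨fun d => b5 (d ▸ l), Or.inl (st_sng hp hz
        (st_iff.2 ⟨j, hj, rfl⟩))⟩, blk_iff.2 ⟨b5, by rwa [b3, b2]⟩, b3⟩
    · have hi := mem_range.1 hi
      have hj := mem_range.1 hj
      have a := fun j => Nat.mod_lt (so I p z + j) (show 0 < pp I by omega)
      have u := ue_bd h hp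
      have := (vx_eq h hp hp ((a i).trans_le (by omega)) ((a j).trans_le (by omega)) e).2
      exact shift_inj (μ := pp I) (s := so I p z) (by omega) (by omega)
        (by simpa [add_comm] using this)

theorem len_ovl (h : Ok I) (w l p : ℕ) : (ovl I w l p).length ≤ et I :=
  (length_cat_le fun _ _ => (length_cat_le (r := 1) fun _ _ => by
    rw [opt, Bool.cond_eq_ite]; split_ifs <;> simp).trans (mul_one _).le).trans h.dg

theorem mem_ovl {w l p : ℕ} {x : ℕ × ℕ} (a : x ∈ ovl I w l p) :
    ∃ j, j < kt I ∧ x = (w, vx I p j) := by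
  obtain ⟨_, _, a⟩ := mem_cat.1 a
  obtain ⟨_, _, a⟩ := mem_cat.1 a
  exact ⟨_, Nat.blt_eq.mp (mem_opt.1 a).1, (mem_opt.1 a).2⟩

theorem mt_near (h : Ok I) {p : ℕ} (hp : p < nN I) : mt I p < nN I ∧
    cN I p (mt I p) ≤ 6 * rN I p ∧ rN I (mt I p) ≤ 7 * rN I p := by
  have m := mt_spec hp
  have a : cN I p (mt I p) ≤ 6 * rN I p := by
    by_cases c : ta I p = true
    · exact (m.2.1 c).2.2
    · rw [(m.2.2 c).1, cN, h.met.self _ (ctr_lt hp)]; omega
  have : rN I (mt I p) ≤ rN I p + cN I p (mt I p) := rr_lip h (ctr_lt hp) (ctr_lt m.1)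
  exact ⟨m.1, a, by omega⟩

theorem cost_L (h : Ok I) (f : Fe1 I) (hG : VC (nn I) (kk I) G) :
    sg I * lc (cc I) (eL I) ≤ 40 * cst2 (nn I) (cc I) G + 2 * lc (cc I) (sng I) := by
  have n := h.num
  have l := h.lt
  have a := sum_matOf (n := nn I) (cc I) (sng I)
  rw [show (fun u v => cc I v u) = cc I from funext₂ fun u v => h.sy v u, ← two_mul] at a
  refine le_trans ?_ (Nat.add_le_add_left a _)
  rw [eL, lc_cat, mul_sum, cst2, cst2, mul_sum, ← sum_add_distrib]
  refine sum_le_sum fun z hz => ?_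
  rw [mem_range] at hz
  by_cases c : lo I z = true
  swap
  · simp [c, lc, ls]
  obtain ⟨F, hF⟩ : ∃ F, F = (range (nn I)).filter fun v => ms I z v = true ∧
    ¬ cc I z v ≤ sg I * rr I z := ⟨_, rfl⟩
  have b1 : F.card * (sg I * rr I z) ≤ cstAt (nn I) (cc I) (matOf (nn I) (sng I)) z :=
    (card_nsmul_le_sum F (fun v => ind (matOf (nn I) (sng I)) z v * cc I z v) _ fun v hv => by
      simp only [hF, mem_filter] at hv
      rw [ind_true hv.2.1]; omega).trans (sum_le_sum_of_subset (hF ▸ filter_subset _ _))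
  have b2 := lc_bd (c := cc I) (s := sg I) (ρ := sg I * rr I z) (r := F.card + 2 * tt I)
    (L := eL1 I z) (fun x hx => by
      obtain ⟨j, hj, rfl⟩ := List.mem_map.1 hx
      have := List.mem_range.1 (List.mem_of_mem_filter (List.mem_of_mem_take hj))
      exact Nat.mul_le_mul_left _ (av_le h this)) (by
      have := deg_ms h f hz c
      have := card_filter_add_card_filter_not (s := (range (nn I)).filter fun v => ms I z v = true)
        fun v => cc I z v ≤ sg I * rr I z
      rw [filter_filter, filter_filter, ← hF] at this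
      rw [eL1, List.length_map, List.length_take, good, cntB_eq]
      simp only [Bool.and_eq_true, Nat.ble_eq]
      omega)
  obtain ⟨p1, p2, _⟩ := pi_lo h hz c
  obtain ⟨m1, m2, m3⟩ := mt_near h p1
  have r := rN_lip h p1 hz
  have s := h.s10 (rr I z)
  have b3 : ∀ p, p < nN I → cv I p z + rN I p ≤ 900 * (sg I * rr I z) →
      1 * lc (cc I) (eL2 I z p) ≤ 2 * tt I * (900 * (sg I * rr I z)) := fun p hp e =>
    lc_bd (fun x hx => by
      obtain ⟨j, hj, rfl⟩ : ∃ j, j < kt I ∧ x = (z, vx I p j) := by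
        rcases List.mem_append.1 hx with d | d
        · exact mem_ovl d
        · obtain ⟨j, hj, rfl⟩ := mem_tab.1 d
          exact ⟨_, by omega, rfl⟩
      have := (triV h 1 hp hz (vx_lt (p := p) (hj.trans l))).1
      have := cv_le h (p := p) (v := vx I p j) (by rw [rp_vx (hj.trans l)]; omega)
      simp only
      omega) (by
      have := len_ovl h z (rk I (yy I z) z) p
      rw [eL2, List.length_append, length_tab]
      omega)
  have b4 := b3 _ p1 (by omega)
  have b5 := b3 _ m1 (by
    have := (triN h 1 m1 p1 hz).2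
    rw [cN_sy h (mt I _)] at this
    omega)
  have b6 := (Nat.mul_le_mul_right _ h.n3).trans (bud_lo h hG hz c)
  have b7 : 100 * (sg I * (sg I * (tt I * rr I z))) ≤ cg I G z :=
    Nat.le_of_mul_le_mul_left (le_of_eq_of_le (by ring) b6) (show 0 < sg I * sg I by
      have := h.ten; positivity)
  have b8 := h.s10 (sg I * (tt I * rr I z))
  simp only [c, cond_true, lc_append, mul_add]
  rw [cg] at b7
  nlinarith [Nat.mul_le_mul_left (sg I) b4, Nat.mul_le_mul_left (sg I) b5]

end Vx

end Pool.Agent.Lib.MP_959bb6_lc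
end

-- part Pool.Agent.Lib.MP_959bb6_lc.VRep
section

/-!
The cost of the output: repairs and the total.
-/

set_option autoImplicit false

namespace Pool.Agent.Lib.MP_959bb6_lc

open Pool.Agent.Shared.PolyTime Enc Finset

theorem hermite {P : ℕ} (hP : 0 < P) (S : ℕ) : ∑ i ∈ range P, (S + i) / P = S := by
  induction S with
  | zero => exact sum_eq_zero fun i hi => by rw [zero_add, Nat.div_eq_of_lt (mem_range.1 hi)]
  | succ S ih =>
    have a := sum_range_succ (fun i => (S + i) / P) P
    rw [sum_range_succ', ih, Nat.add_div_right _ hP, add_zero] at a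
    simp only [show ∀ i, S + 1 + i = S + (i + 1) from fun i => by omega]
    omega

theorem bal {P b : ℕ} {f : ℕ → ℕ} (h : ∀ i j, i < P → j < P → f j ≤ f i + 1) :
    ∑ i ∈ range P, (b - f i) ≤ P * b - ∑ i ∈ range P, f i := by
  by_cases c : ∀ i, i < P → f i ≤ b
  · refine Nat.le_sub_of_add_le (le_of_eq ?_)
    rw [← sum_add_distrib, sum_congr rfl fun i hi => Nat.sub_add_cancel (c i (mem_range.1 hi))]
    simp
  · push Not at c
    obtain ⟨j, a, d⟩ := c
    rw [sum_eq_zero fun i hi => by have := h i j (mem_range.1 hi) a; omega]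
    exact Nat.zero_le _

theorem div_step {P : ℕ} (S : ℕ) {x : ℕ} (y : ℕ) (hx : x < P) : (S + x) / P ≤ (S + y) / P + 1 := by
  rw [← Nat.add_div_right _ (Nat.zero_lt_of_lt hx)]
  exact Nat.div_le_div_right (by omega)

namespace Vx

variable {I : In} {G : Mat}

/-- The cost of the edges at the points assigned to a node. -/
def cp (I : In) (G : Mat) (p : ℕ) : ℕ := ∑ v ∈ range (nn I), if pi I v = p then cg I G v else 0

theorem sum_cp (h : Ok I) : ∑ p ∈ range (nN I), cp I G p = cst2 (nn I) (cc I) G :=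
  sum_pi h fun _ v => cg I G v

theorem cp_ge {p x : ℕ} {T : Finset ℕ} (s : ℕ) (hT : ∀ v ∈ T, v < nn I ∧ pi I v = p ∧
    x ≤ s * cg I G v) : T.card * x ≤ s * cp I G p := by
  rw [cp, ← sum_filter, mul_sum]
  exact (card_nsmul_le_sum _ _ _ fun v hv => (hT v hv).2.2).trans
    (sum_le_sum_of_subset fun v hv => by simp [hT v hv])

theorem bud_blk (h : Ok I) (hs : Sym (nn I) G) (hG : VC (nn I) (kk I) G) {p : ℕ} (hp : p < nN I) :
    7 * (sg I * (t0 I * bb I p * rN I p)) ≤ cp I G p ∧
      ∀ x, sg I * sg I * x ≤ bb I p → sg I * (pp I * x * rN I p) ≤ 2 * cp I G p := by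
  have n := h.num
  have q := qq_bd h hp
  have s : 0 < sg I := by have := h.ten; omega
  have a : pp I * (bb I p * rN I p) ≤ 2 * sg I * cp I G p := by
    by_cases g : gp I p = true
    swap
    · simp [bb, qq_core g, show kk I + 1 - kt I = 0 by omega]
    rw [← card_node h hp (j := pp I) (by omega)]
    refine cp_ge _ fun u hu => ?_
    simp only [mem_filter, mem_range] at hu
    have b := far_cost (n := nn I) (s := 2 * sg I) (ρ := rN I p) (u := u) (c := cc I) G
      (ball I (ctr I p) (qq I p)) fun v hv c => by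
        have := not_le.1 fun d => c (mem_ball.2 ⟨hv, (gp_mem h hv g).2 d⟩)
        have := gp_inner h hp g (v := u) (by omega)
        have := h.ss (cv I p u)
        have := (triV h (sg I) hp hu.1 hv).2
        rw [mul_assoc]
        omega
    have c := card_le_card (s := (ball I (ctr I p) (qq I p)).filter fun v => entry G u v = true)
      (t := (ball I (ctr I p) (qq I p)).erase u) fun v hv => mem_erase.2
        ⟨(ne_of_adj hs hu.1 (mem_filter.1 hv).2).symm, (mem_filter.1 hv).1⟩
    rw [card_erase_of_mem (mem_ball.2 ⟨hu.1, hu.2.2.trans_le (by omega)⟩),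
      card_ball _ (q.2.trans h.lt.le)] at c
    have := h.deg hG hu.1
    refine ⟨hu.1, hu.2.1, ?_⟩
    rcases Nat.eq_zero_or_pos (bb I p) with e | e
    · simp [e]
    have := Nat.mul_le_mul_right (rN I p) (show bb I p + ((ball I (ctr I p) (qq I p)).filter
      fun v => entry G u v = true).card ≤ deg (nn I) G u by rw [bb] at *; omega)
    rw [add_mul] at this
    unfold cg
    omega
  refine ⟨Nat.le_of_mul_le_mul_left (le_of_eq_of_le (by ring)
    ((Nat.mul_le_mul_right _ h.n4).trans a)) (show 0 < 2 * sg I by omega), fun x hx =>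
    Nat.le_of_mul_le_mul_left ?_ s⟩
  nlinarith [Nat.mul_le_mul_left (pp I * rN I p) hx]

theorem twin_gp (tw : twin I = true) {p : ℕ} (hp : p < nN I) : ta I p = true ∧ gp I p = true := by
  obtain ⟨a, b, c⟩ := twin_iff.1 tw
  have : ta I p = true := by rcases (show p = 0 ∨ p = 1 by omega) with rfl | rfl <;> assumption
  exact ⟨this, ((mt_spec hp).2.1 this).1⟩

theorem twin_near (h : Ok I) (tw : twin I = true) {p q : ℕ} (hp : p < nN I) (hq : q < nN I) :
    cN I p q ≤ 6 * rN I p := by
  have m := mt_spec hp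
  have a := m.2.1 (twin_gp tw hp).1
  have := (twin_iff.1 tw).1
  rcases (show q = p ∨ q = mt I p by omega) with rfl | rfl
  · rw [cN, h.met.self _ (ctr_lt hp)]; omega
  · exact a.2.2

theorem poor_tw (a : poor I = true) : twin I = true := (Bool.and_eq_true_iff.1 a).1

theorem cost_G (h : Ok I) (f : Fe1 I) (hs : Sym (nn I) G) (hG : VC (nn I) (kk I) G)
    (po : poor I = true) : sg I * (2 * lc (cc I) (eG I)) ≤
      (sg I + 5) * x1 I + 31 * cst2 (nn I) (cc I) G := by
  have n := h.num
  obtain ⟨p1, p2, p3, p4, p5⟩ := pL_spec po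
  obtain ⟨w1, w2, _⟩ := poor_num h f po
  have a := (poor_two po).1
  have q1 := qq_bd h p1
  have q2 := qq_bd h p2
  have e : x1 I = 2 * (m1 I 0 1 * cN I (1 - pL I) (pL I)) := by
    have b := (f.sym 0 1 (by omega) (by omega)).1
    have := f.zero 0 (by omega)
    have := f.zero 1 (by omega)
    have : cN I (1 - pL I) (pL I) = cN I 0 1 := by
      rcases (show pL I = 0 ∨ pL I = 1 by omega) with c | c <;> simp [c, cN_sy h 1 0]
    simp [x1, sum_range_succ, cN_sy h 1 0, two_mul, *]
  have c := f.cut {0} (by simp [a]) (singleton_nonempty _) fun e => by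
    simpa [a] using congrArg card e
  rw [a, dcut, sum_singleton, show range 2 \ {0} = {1} by decide, sum_singleton] at c
  have b := lc_bd (c := cc I) (s := sg I) (ρ := (sg I + 4) * cN I (1 - pL I) (pL I))
    (r := gm I + 9 * t0 I * (2 * (gm I / pp I) + bb I (1 - pL I))) (L := eG I) (fun x hx => by
      obtain ⟨u, hu, hx⟩ := mem_cat.1 hx
      obtain ⟨j, _, rfl⟩ := mem_tab.1 hx
      obtain ⟨b1, b2, _⟩ := vx_mem h p2 hu
      have d := Nat.mod_lt (u + j) (show 0 < qq I (pL I) by omega)
      obtain ⟨a1, a2, _⟩ := vx_mem h p1 d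
      have := triE h (sg I) p2 p1 b1 a1
      have := (gp_mem h b1 (p5 _ p2)).1 (b2.symm ▸ hu)
      have := (gp_mem h a1 (p5 _ p1)).1 (a2.symm ▸ d)
      have := sep h p2 p1 p3
      have := sep h p1 p2 p3.symm
      rw [cN_sy h (pL I)] at this
      simp only [add_mul]
      omega) (by
      obtain ⟨x, hx⟩ := Nat.exists_eq_add_of_le (show pp I ≤ qq I (1 - pL I) by omega)
      simp only [eG, length_cat, length_tab]
      rw [hx, sum_range_add, sum_congr rfl fun u hu => gl_lo (mem_range.1 hu), sum_add_distrib,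
        ← card_filter, sum_const, card_range, smul_eq_mul]
      refine Nat.add_le_add ?_ ((sum_le_card_nsmul _ _ (2 * (gm I / pp I) + bb I (1 - pL I))
        fun u _ => by simp [gl, Bool.cond_eq_ite]; omega).trans
        (Nat.mul_le_mul_right _ (by rw [card_range]; omega)))
      have := card_le_card (s := (range (pp I)).filter fun u => pp I ≤ u + gm I % pp I)
        (t := Ico (pp I - gm I % pp I) (pp I)) fun u hu => by
          simp only [mem_filter, mem_range, mem_Ico] at hu ⊢
          omega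
      have := Nat.div_add_mod (gm I) (pp I)
      rw [Nat.card_Ico] at *
      omega)
  have d1 := (bud_blk h hs hG p2).1.trans ((single_le_sum (fun _ _ => Nat.zero_le _)
    (mem_range.2 p2)).trans (sum_cp h).le)
  have d2 := Nat.mul_le_mul_left (sg I * (t0 I * bb I (1 - pL I))) (twin_near h (poor_tw po) p2 p1)
  have d3 : 140 * (sg I * t0 I) ≤ pp I := by
    have a := h.n4
    have := h.ss (t0 I)
    rw [mul_assoc, sq] at a
    omega
  have d4 := Nat.mul_le_mul_right (cN I (1 - pL I) (pL I)) (d3.trans (show pp I ≤ m1 I 0 1 by omega))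
  have d5 := Nat.mul_le_mul_right (cN I (1 - pL I) (pL I)) ((Nat.mul_le_mul_right (gm I / pp I)
    d3).trans ((Nat.mul_div_le _ _).trans (show gm I ≤ 2 * m1 I 0 1 by rw [gm]; omega)))
  have d6 := Nat.mul_le_mul_right (cN I (1 - pL I) (pL I) * (2 * t0 I + 9 * t0 I *
    (2 * (gm I / pp I) + bb I (1 - pL I)))) (show sg I + 4 ≤ 2 * sg I by have := h.ten; omega)
  rw [e]
  nth_rewrite 1 [gm] at b
  nlinarith

theorem cost_P (h : Ok I) (f : Fe1 I) (hG : VC (nn I) (kk I) G) (po : poor I = true) :
    sg I * (2 * lc (cc I) (eP I)) ≤ 92 * cst2 (nn I) (cc I) G := by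
  have n := h.num
  obtain ⟨p1, p2, p3, p4, p5⟩ := pL_spec po
  obtain ⟨_, w2, _⟩ := poor_num h f po
  obtain ⟨a, _, _, a'⟩ := poor_two po
  have q1 := qq_bd h p1
  rw [nl, cntB_eq] at a'
  have ring : ∀ p, p < nN I → (ball I (ctr I p) (qq I p) \ ball I (ctr I p) (pp I)).card ≤
      9 * t0 I := fun p hp => by
    have q := qq_bd h hp
    have := h.lt
    rw [card_sdiff_of_subset fun v hv => mem_ball.2
      ⟨(mem_ball.1 hv).1, (mem_ball.1 hv).2.trans_le (by omega)⟩, card_ball _ (by omega),
      card_ball _ (by omega)]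
    omega
  obtain ⟨E, hE⟩ : ∃ E, E = ∑ z ∈ range (nn I), if lo I z = true then cv I (pL I) z else 0 :=
    ⟨_, rfl⟩
  have b1 : kk I * E ≤ 28 * sg I * cst2 (nn I) (cc I) G := by
    rw [hE, cst2, mul_sum, mul_sum]
    refine sum_le_sum fun z hz => ?_
    rw [mem_range] at hz
    split_ifs with l
    swap
    · simp
    have b := far_cost (n := nn I) (s := 14 * sg I) (ρ := cv I (pL I) z) (u := z) (c := cc I) G
      ((range (nn I)).filter fun v => ¬ blk I v = true) fun v hv c => by
        obtain ⟨c1, c2, c3⟩ := blk_near h hv (by simpa [hv] using c)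
        have := lo_node.1 l _ c1 c2
        have := twin_near h (poor_tw po) c1 p1
        have := (triN h 1 p1 c1 hz).2
        have := (triV h (sg I) c1 hv hz).2
        have := h.ss (cv I (pi I v) v)
        have := h.s10 (cv I (pi I v) z)
        rw [h.sy v z, cN_sy h (pL I)] at *
        rw [mul_assoc]
        omega
    have c := card_le_card (s := ((range (nn I)).filter fun v => ¬ blk I v = true).filter
      fun v => entry G z v = true) (t := ((range (nn I)).filter fun v => lo I v = true) ∪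
        (ball I (ctr I 0) (qq I 0) \ ball I (ctr I 0) (pp I) ∪
          ball I (ctr I 1) (qq I 1) \ ball I (ctr I 1) (pp I))) fun v hv => by
      simp only [mem_filter, mem_range, blk_iff, mem_union, mem_sdiff, mem_ball, not_and] at hv ⊢
      by_cases d : lo I v = true
      · exact Or.inl ⟨hv.1.1, d⟩
      obtain ⟨c1, _, c3⟩ := pi_gp h hv.1.1 d
      have c4 := hv.1.2 d
      rcases (show pi I v = 0 ∨ pi I v = 1 by omega) with e | e <;> rw [e] at c3 c4
      · exact Or.inr (Or.inl ⟨⟨hv.1.1, c3⟩, fun _ => c4⟩)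
      · exact Or.inr (Or.inr ⟨⟨hv.1.1, c3⟩, fun _ => c4⟩)
    have c := c.trans ((card_union_le _ _).trans (Nat.add_le_add a'.le ((card_union_le _ _).trans
      (Nat.add_le_add (ring 0 (by omega)) (ring 1 (by omega))))))
    have := h.deg hG hz
    nlinarith [Nat.mul_le_mul_right (cv I (pL I) z) (show kk I + 2 * (((range (nn I)).filter
      fun v => ¬ blk I v = true).filter fun v => entry G z v = true).card ≤
        2 * deg (nn I) G z by omega)]
  have b2 : 2 * lc (cc I) (prs (nn I) fun u v => opt (lo I u && lo I v) u v) ≤ 2 * (tt I * E) := by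
    have e : ∑ u ∈ range (nn I), ∑ v ∈ range (nn I), (if lo I u = true ∧ lo I v = true then
        cv I (pL I) v else 0) ≤ tt I * E := by
      simp only [ite_and, sum_ite_irrel, ← hE, sum_const_zero]
      rw [← sum_filter, sum_const, smul_eq_mul]
      exact Nat.mul_le_mul_right _ a'.le
    refine le_trans ?_ (Nat.mul_le_mul_left _ e)
    rw [lc_prs h.sy (fun u v _ _ => Bool.and_comm _ _) h.met.self, two_mul]
    nth_rewrite 2 [sum_comm (f := fun u v => if lo I u = true ∧ lo I v = true then
      cv I (pL I) v else 0)]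
    simp only [← sum_add_distrib]
    refine sum_le_sum fun u hu => sum_le_sum fun v hv => ?_
    have := (triV h 1 p1 (mem_range.1 hu) (mem_range.1 hv)).1
    cases lo I u <;> cases lo I v <;> simp
    omega
  have b3 : lc (cc I) (cat (nn I) fun z => cat (qq I (pL I)) fun j => opt (lo I z &&
      (Nat.ble j (gm I / pp I) || Nat.ble (pp I) j)) z (vx I (pL I) j)) ≤ 11 * t0 I * (2 * E) := by
    rw [lc_cat, hE, mul_sum, mul_sum]
    refine sum_le_sum fun z hz => ?_
    rw [mem_range] at hz
    split_ifs with l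
    swap
    · simp [l, lc_cat, lc_opt]
    refine (one_mul _).ge.trans (lc_bd (fun x hx => ?_) ?_)
    · obtain ⟨j, hj, hx⟩ := mem_cat.1 hx
      obtain ⟨b1, b2, _⟩ := vx_mem h p1 hj
      have := (triV h 1 p1 hz b1).1
      have := Nat.le_of_mul_le_mul_left (((gp_mem h b1 (p5 _ p1)).1 (b2.symm ▸ hj)).trans
        (lo_node.1 l _ p1 (p5 _ p1)).le) (by have := h.ten; omega)
      rw [(mem_opt.1 hx).2]
      simp only
      omega
    · rw [length_cat, sum_congr rfl (g := fun j => if j ≤ gm I / pp I ∨ pp I ≤ j then 1 else 0)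
        fun j _ => by simp only [opt, l, Bool.cond_eq_ite]; split_ifs <;> simp_all, ← card_filter]
      refine (card_le_card (t := range (gm I / pp I + 1) ∪ Ico (pp I) (qq I (pL I)))
        fun j hj => ?_).trans ((card_union_le _ _).trans ?_)
      · simp only [mem_filter, mem_range, mem_union, mem_Ico] at hj ⊢
        omega
      · rw [card_range, Nat.card_Ico]; omega
  have b4 := Nat.le_of_mul_le_mul_left (le_of_eq_of_le (show 14 * sg I * (sg I * (t0 I * E)) = _ by
    ring) ((Nat.mul_le_mul_right E (h.n4.trans (show pp I ≤ kk I by omega))).trans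
      (b1.trans_eq (show _ = 14 * sg I * (2 * cst2 (nn I) (cc I) G) by ring))))
    (by have := h.ten; omega)
  have b5 := Nat.mul_le_mul_right E (show tt I ≤ t0 I by omega)
  have := Nat.mul_le_mul_left (sg I) (show 2 * lc (cc I) (eP I) ≤ 46 * (t0 I * E) by
    rw [eP, lc_append]; nlinarith)
  nlinarith

/-- The cost of the single edges at the blocks of a node. -/
def xp (I : In) (p : ℕ) : ℕ := ∑ z ∈ range (nn I), ∑ u ∈ range (nn I),
  if pi I u = p then (if oo I z u = true then cc I z u else 0) else 0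

theorem sum_xp (h : Ok I) : ∑ p ∈ range (nN I), xp I p = xo I := by
  rw [xo]
  simp only [xp]
  rw [sum_comm]
  exact sum_congr rfl fun z _ => sum_pi h fun _ u => if oo I z u = true then cc I z u else 0

theorem card_nitr (h : Ok I) {p : ℕ} (hp : p < nN I) :
    ((range (qq I p)).filter fun i => ¬ itr I i = true).card ≤ 13 * t0 I := by
  have n := h.num
  have q := qq_bd h hp
  obtain ⟨x, hx⟩ := Nat.exists_eq_add_of_le (show pp I ≤ qq I p by omega)
  have a := h.n6
  rw [hx, card_filter, sum_range_add, pp, ML.sum_block]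
  have b : ∑ β ∈ range (mm I), ∑ r ∈ range (mu I), (if ¬ itr I (β * mu I + r) = true then 1
      else 0) ≤ (range (mm I)).card • (2 * lam I) := sum_le_card_nsmul _ _ _ fun β hβ => by
    rw [← card_filter]
    refine (card_le_card (t := range (lam I) ∪ Ico (mu I - lam I) (mu I)) fun r hr => ?_).trans
      ((card_union_le _ _).trans (by rw [card_range, Nat.card_Ico]; omega))
    simp only [mem_filter, mem_range, mem_union, mem_Ico, itr_iff] at hr ⊢
    have := blk_lt h β hr.1
    rw [Nat.mod_eq_of_lt (mem_range.1 hβ)] at this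
    rw [blk_mod hr.1] at hr
    omega
  have c := card_filter_le (range x) fun i => ¬ itr I (mm I * mu I + i) = true
  rw [card_filter, card_range] at c
  rw [card_range, smul_eq_mul, mul_left_comm] at b
  omega

theorem need_sum (h : Ok I) (f : Fe I) {p : ℕ} (hp : p < nN I) : ∃ F,
    sg I * (F * rN I p) ≤ 2 * xp I p ∧ ∑ i ∈ range (qq I p), need I p i ≤
      22 * (t0 I * bb I p) + F + qq I p * (breq I p - bb I p) := by
  have n := h.num
  have q := qq_bd h hp
  refine ⟨∑ z ∈ range (nn I), if nr I p z = true then 0 else ((range (nn I)).filter fun u =>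
    oo I z u = true ∧ blk I u = true ∧ pi I u = p).card, ?_, ?_⟩
  · rw [xp, sum_mul, mul_sum, mul_sum]
    refine sum_le_sum fun z hz => ?_
    split_ifs with c
    · simp
    rw [card_filter, sum_mul, mul_sum, mul_sum]
    refine sum_le_sum fun u hu => ?_
    split_ifs with d
    any_goals first | omega | tauto
    have := (blk_near h (mem_range.1 hu) d.2.1).2.2
    have := (triV h 1 hp (mem_range.1 hu) (mem_range.1 hz)).2
    have := h.ss (cv I p u)
    have := h.s10 (cv I p u)
    have := h.s10 (rN I p)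
    simp only [nr, Bool.or_eq_true, Nat.ble_eq, not_or] at c
    rw [d.2.2, h.sy u z] at *
    rw [one_mul]
    omega
  obtain ⟨g, hg⟩ : ∃ g : ℕ → ℕ, ∀ i, g i = (so I p (nn I) + (pp I - 1 - i)) / pp I +
    (∑ q ∈ range (nN I), m2 I p q + i / mu I) / mm I := ⟨_, fun _ => rfl⟩
  have a : ∑ i ∈ range (qq I p), need I p i ≤ ∑ i ∈ range (qq I p), ((breq I p - bb I p) +
      (if ¬ itr I i = true then bb I p else 0) + if i ∈ range (pp I) then bb I p - g i else 0) :=
    sum_le_sum fun i _ => by
      rw [need, cntB_eq, ← stars]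
      by_cases c : itr I i = true
      · have d := (itr_iff.1 c).1
        rw [if_pos (mem_range.2 d), hg, ← card_stars h hp d, db, c, cond_true, sumB_eq]
        omega
      · rw [if_pos c]; omega
  rw [sum_add_distrib, sum_add_distrib, ← sum_filter, sum_ite_mem,
    inter_eq_right.2 (range_mono (by omega)), sum_const, sum_const, card_range] at a
  have b := Nat.mul_le_mul_right (bb I p) (card_nitr h hp)
  have c := bal (P := pp I) (b := bb I p) (f := g) fun i j hi hj => by
    rw [hg, hg]
    rcases le_total i j with d | d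
    · have := div_step (∑ q ∈ range (nN I), m2 I p q) (i / mu I) (div_mu h hj)
      have : (so I p (nn I) + (pp I - 1 - j)) / pp I ≤ (so I p (nn I) + (pp I - 1 - i)) / pp I :=
        Nat.div_le_div_right (by omega)
      omega
    · have := div_step (so I p (nn I)) (pp I - 1 - i) (show pp I - 1 - j < pp I by omega)
      have : (∑ q ∈ range (nN I), m2 I p q + j / mu I) / mm I ≤
          (∑ q ∈ range (nN I), m2 I p q + i / mu I) / mm I :=
        Nat.div_le_div_right (Nat.add_le_add_left (Nat.div_le_div_right d) _)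
      omega
  have d : ∑ i ∈ range (pp I), g i = so I p (nn I) + mu I * ∑ q ∈ range (nN I), m2 I p q := by
    simp only [hg, sum_add_distrib]
    rw [sum_range_reflect (fun i => (so I p (nn I) + i) / pp I), hermite (by omega), pp,
      ML.sum_block, sum_congr rfl fun β _ => sum_congr rfl fun r hr => by
        rw [blk_div (mem_range.1 hr)]]
    simp only [sum_const, card_range, smul_eq_mul, ← mul_sum]
    rw [hermite (by omega)]
  have e := f.dem p hp
  have e2 := f.d2 p hp
  rw [sum_congr (s₁ := range (nn I)) rfl (g := fun z => sc I p z + if nr I p z = true then 0 else ((range (nn I)).filter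
    fun u => oo I z u = true ∧ blk I u = true ∧ pi I u = p).card) fun z _ => by
      rw [sc_eq]; split_ifs <;> simp, sum_add_distrib,
    show ∑ z ∈ range (nn I), sc I p z = so I p (nn I) from (sumB_eq _ _).symm] at e
  simp only [smul_eq_mul, mul_assoc] at a b
  rcases Nat.eq_zero_or_pos (bb I p) with k | k
  · rw [k, mul_zero, Nat.zero_sub] at c
    rw [k] at a b ⊢
    omega
  · have := h.n7.trans (Nat.le_mul_of_pos_right (t0 I) k)
    omega

theorem bud_rich (h : Ok I) (hG : VC (nn I) (kk I) G) (np : ¬ poor I = true) {p : ℕ}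
    (hp : p < nN I) (g : gp I p = true) (r : rich I p = true ∨ twin I = true) :
    sg I * (qq I p * (je I + 2 * et I) * rN I p) ≤
      294 * (cp I G p + if twin I = true then cst2 (nn I) (cc I) G else 0) := by
  have n := h.num
  have q := qq_bd h hp
  have k : ∀ v, v < nn I → lo I v = true → rN I p ≤ 147 * (sg I * rr I v) →
      t0 I * rN I p ≤ 147 * sg I ^ 3 * cg I G v := fun v hv l e => by
    nlinarith [Nat.mul_le_mul_left (t0 I) e, Nat.mul_le_mul_left (sg I) (bud_lo h hG hv l)]
  have a : tt I * (t0 I * rN I p) ≤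
      147 * sg I ^ 3 * (cp I G p + if twin I = true then cst2 (nn I) (cc I) G else 0) := by
    by_cases tw : twin I = true
    · rw [if_pos tw]
      refine le_trans ?_ (Nat.mul_le_mul_left _ (Nat.le_add_left _ _))
      have : tt I ≤ nl I := by simpa [poor, tw] using np
      rw [nl, cntB_eq] at this
      rw [cst2, mul_sum]
      refine (Nat.mul_le_mul_right _ this).trans ((card_nsmul_le_sum _ _ _ fun v hv => ?_).trans
        (sum_le_sum_of_subset (filter_subset _ _)))
      rw [mem_filter, mem_range] at hv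
      obtain ⟨q, a, b⟩ := exists_node h hv.1 hv.2
      have := rN_lip h a hv.1
      have := twin_near h tw a hp
      have : rN I p ≤ rN I q + cN I q p := rr_lip h (ctr_lt a) (ctr_lt hp)
      have := h.s10 (rr I v)
      exact k v hv.1 hv.2 (by omega)
    · rw [if_neg tw, add_zero]
      have r := r.resolve_right tw
      simp only [rich, tw, Bool.or_false, Bool.and_eq_true, Nat.ble_eq, Bool.not_eq_true'] at r
      have b := cp_ge (I := I) (G := G) (p := p) (x := 7 * (t0 I * rN I p)) (147 * sg I ^ 3)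
        (T := ball I (ctr I p) (kt I) \ ball I (ctr I p) (qq I p)) fun v hv => by
          simp only [mem_sdiff, mem_ball, not_and, not_lt] at hv
          obtain ⟨b1, b2, b3⟩ := tb_near h hp hv.1.1 g (by simp [r.2]) hv.1.2 (hv.2 hv.1.1)
          refine ⟨hv.1.1, b2, ?_⟩
          nlinarith [Nat.mul_le_mul_left (t0 I) b3,
            Nat.mul_le_mul_left (sg I) (bud_lo h hG hv.1.1 b1)]
      rw [card_sdiff_of_subset fun v hv => mem_ball.2
        ⟨(mem_ball.1 hv).1, (mem_ball.1 hv).2.trans_le q.2⟩, card_ball _ h.lt.le,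
        card_ball _ (q.2.trans h.lt.le), ← hh] at b
      have := Nat.mul_le_mul_right (t0 I * rN I p) r.1
      rw [mul_left_comm] at b
      rw [mul_assoc] at this
      omega
  refine Nat.le_of_mul_le_mul_left ?_ (show 0 < sg I ^ 3 by have := h.ten; positivity)
  nlinarith [Nat.mul_le_mul_right (rN I p) h.n5, Nat.mul_le_mul_right
    (sg I ^ 4 * (je I + 2 * et I) * rN I p) (show qq I p ≤ 2 * kk I by omega)]

theorem cost_R (h : Ok I) (f : Fe I) (hs : Sym (nn I) G) (hG : VC (nn I) (kk I) G) :
    sg I * lc (cc I) (eR I) ≤ 13000 * cst2 (nn I) (cc I) G + 28 * xo I := by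
  have n := h.num
  suffices ∀ p, p < nN I → sg I * lc (cc I) (cat (qq I p) fun i => eR1 I p i ++
      bif twin I && !(poor I) then ovl I (vx I p i) i (mt I p) else []) ≤ 4300 * cp I G p +
      28 * xp I p + 4116 * if twin I = true then cst2 (nn I) (cc I) G else 0 by
    rw [eR, lc_cat, mul_sum]
    refine (sum_le_sum fun p hp => this p (mem_range.1 hp)).trans ?_
    rw [sum_add_distrib, sum_add_distrib, ← mul_sum, ← mul_sum, sum_cp h, sum_xp h, sum_const,
      card_range, smul_eq_mul]
    split_ifs with c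
    · rw [(twin_iff.1 c).1]; omega
    · omega
  intro p hp
  have q := qq_bd h hp
  obtain ⟨m1, m2, m3⟩ := mt_near h hp
  obtain ⟨F, f1, f2⟩ := need_sum h f hp
  have a := lc_bd (c := cc I) (s := 1) (ρ := 14 * rN I p) (r := ∑ i ∈ range (qq I p), need I p i +
    qq I p * if twin I = true ∧ ¬ poor I = true then et I else 0) (L := cat (qq I p) fun i =>
      eR1 I p i ++ bif twin I && !(poor I) then ovl I (vx I p i) i (mt I p) else [])
    (fun x hx => by
      obtain ⟨i, hi, hx⟩ := mem_cat.1 hx
      obtain ⟨j, hj, rfl⟩ : ∃ j, j ≤ kt I ∧ x = (vx I p i, vx I (mt I p) j) := by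
        rcases List.mem_append.1 hx with d | d
        · obtain ⟨j, hj, rfl⟩ := List.mem_map.1 d
          obtain ⟨r, a, b, _⟩ := hv_spec h hp
            (List.mem_range.1 (List.mem_of_mem_filter (List.mem_of_mem_take hj)))
          exact ⟨r, b.le.trans (ue_bd h m1).2, by rw [a]⟩
        · rw [Bool.cond_eq_ite] at d
          split_ifs at d
          · exact (mem_ovl d).imp fun j a => ⟨a.1.le, a.2⟩
          · simp at d
      have := len_vx h hp m1 (i := i) (by omega) hj
      simp only
      omega) (by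
      rw [length_cat, ← card_range (qq I p), ← smul_eq_mul, ← sum_const, card_range,
        ← sum_add_distrib]
      refine sum_le_sum fun i _ => ?_
      rw [List.length_append, eR1, List.length_map, List.length_take]
      refine Nat.add_le_add (min_le_left _ _) ?_
      have := len_ovl h (vx I p i) i (mt I p)
      cases twin I <;> cases poor I <;> simp [this])
  by_cases c : poor I = true ∨ ¬ gp I p = true
  · have e : breq I p = 0 := by rcases c with c | c <;> simp [breq, c]
    rw [sum_eq_zero fun i _ => by rw [need, e, Nat.zero_sub, Nat.zero_sub], if_neg fun d =>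
      c.elim d.2 fun c => c (twin_gp d.1 hp).2] at a
    rw [show lc (cc I) _ = 0 by omega]
    omega
  push Not at c
  obtain ⟨b1, b2⟩ := bud_blk h hs hG hp
  obtain ⟨x, y, z, e1, e2, e3, e4⟩ : ∃ x y z, sg I * sg I * x ≤ bb I p ∧ sg I * sg I * y ≤ bb I p ∧
      sg I * (qq I p * z * rN I p) ≤ 294 * (cp I G p + if twin I = true then
        cst2 (nn I) (cc I) G else 0) ∧ breq I p - bb I p +
        (if twin I = true ∧ ¬ poor I = true then et I else 0) ≤ x + y + z := by
    refine ⟨if b0 I < bb I p then mm I else 0, if Vx.b1 I < bb I p + je I then je I else 0,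
      if rich I p = true ∨ twin I = true then je I + 2 * et I else 0, ?_, ?_, ?_, ?_⟩
    · split_ifs with d
      · exact d.le
      · simp
    · split_ifs with d
      · rw [Vx.b1, add_mul] at d; omega
      · simp
    · by_cases d : rich I p = true ∨ twin I = true
      · rw [if_pos d]; exact bud_rich h hG c.1 hp c.2 d
      · simp [d]
    · simp only [breq, c.1, c.2, Bool.cond_eq_ite, Nat.blt_eq, Bool.not_true, Bool.or_self]
      cases rich I p <;> cases twin I <;> simp <;> omega
  have b3 := b2 x e1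
  have b4 := b2 y e2
  have b5 := Nat.mul_le_mul_left (qq I p) e4
  have b6 := Nat.mul_le_mul_right (x + y) (show qq I p ≤ 2 * pp I by omega)
  have b7 := Nat.mul_le_mul_left (sg I) (a.trans (Nat.mul_le_mul_right _
    (show _ ≤ 22 * (t0 I * bb I p) + F + 2 * pp I * (x + y) + qq I p * z by
      simp only [mul_add] at *; omega)))
  nlinarith

theorem cost (h : Ok I) (hs : Sym (nn I) G) (hG : VC (nn I) (kk I) G) :
    VC (nn I) (kk I) (matOf (nn I) (el I)) ∧ sg I * cst2 (nn I) (cc I) (matOf (nn I) (el I)) ≤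
      (sg I + 30000) * cst2 (nn I) (cc I) G := by
  have n := h.num
  obtain ⟨f1, a⟩ := lp1 h hs hG
  have f := lp2 h f1
  refine ⟨conn h f, ?_⟩
  have b := sum_matOf (n := nn I) (cc I) (el I)
  rw [show (fun u v => cc I v u) = cc I from funext₂ fun u v => h.sy v u, ← two_mul] at b
  have c1 := cost_Q h hs hG
  have c2 : sg I * (2 * lc (cc I) (bif poor I then eG I ++ eP I else eB I)) ≤
      (sg I + 5) * x1 I + 123 * cst2 (nn I) (cc I) G := by
    by_cases c : poor I = true
    · have := cost_G h f1 hs hG c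
      have := cost_P h f1 hG c
      simp only [c, cond_true, lc_append, mul_add] at *
      omega
    · have := cost_B h f
      have := kk_le_cst h hs hG
      have := Nat.le_mul_self (kk I)
      have := h.ss (mu I)
      have := h.s10 (mu I)
      have : _ ≤ pp I := Nat.mul_le_mul_right (mu I) h.n8
      simp only [c, cond_false, mul_add, add_mul, sq, mul_left_comm (sg I) 4] at *
      omega
  have c3 := cost_S h f1
  have c4 := cost_L h f1 hG
  have c5 := cost_R h f hs hG
  have c6 := cost_Z h f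
  have c7 : ex I G ≤ cst2 (nn I) (cc I) G :=
    sum_le_sum fun u _ => sum_le_sum fun v _ => Nat.mul_le_mul_left _ (by split_ifs <;> omega)
  have s := h.ten
  have c8 : lc (cc I) (sng I) ≤ xo I := Nat.le_of_mul_le_mul_left (show 2 * sg I * _ ≤ _ by
    nlinarith [h.s10 (xo I)]) (by omega)
  have c9 : x1 I + xo I ≤ 27 * cst2 (nn I) (cc I) G := Nat.le_of_mul_le_mul_left (show sg I * _ ≤ _ by
    nlinarith [h.s10 (cst2 (nn I) (cc I) G), Nat.mul_le_mul_left (sg I) c7]) (by omega)
  have := Nat.mul_le_mul_left (sg I) b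
  simp only [el, lc_append, mul_add, add_mul, mul_left_comm (sg I) 2] at *
  omega

end Vx

end Pool.Agent.Lib.MP_959bb6_lc
end

-- part Pool.Agent.Lib.MP_959bb6_lc.VMain
section

/-!
The core algorithm for vertex connectivity.
-/

set_option autoImplicit false

namespace Pool.Agent.Lib.MP_959bb6_lc.Vx

open Pool.Agent.Shared.PolyTime Enc Finset

theorem ok_of {I : In} {J : ℕ → ℕ} {A B : ℕ} (met : IsMet (nn I) (cc I))
    (sy : ∀ u v, cc I u v = cc I v u) (db : Doubling J (nn I) (cc I)) (ten : 10 ≤ sg I)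
    (e1 : jj I = J (360 * sg I ^ 4)) (e2 : tt I = A * et I) (e3 : t0 I = 100 * sg I ^ 4 * A * et I)
    (e4 : A = 32 * sg I ^ 6 * (jj I + 2)) (e5 : mm I = 16 * sg I ^ 2 * (100 * sg I ^ 4 * A))
    (e6 : gG I = dd I + 1) (de : Dense (3 * mm I * gG I) (dd I) (gG I) I.2.2.1)
    (pw : ∀ i, i < 2 * c0 I → nat1 I.2.2.2.1 i = 2 ^ i) (pw2 : 2 ^ (2 * c0 I) ≤ nat1 I.2.2.2.2 7)
    (b1' : mm I * (nat1 I.2.2.2.2 7 + 2 * mm I + 1) ≤ B)
    (b2 : sg I ^ 5 * J (sg I ^ 5 * (48 * sg I ^ 2 + 1)) ≤ B) (b3 : mm I + 1 ≤ B)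
    (hk : mm I * gG I * B ≤ kk I) :
    2 * (sg I * tt I) + 2 * tt I ≤ kk I ∧ (kt I < nn I → Ok I) := by
  have s2 : 10 ^ 2 ≤ sg I ^ 2 := Nat.pow_le_pow_left ten 2
  have s4 : 10 ^ 4 ≤ sg I ^ 4 := Nat.pow_le_pow_left ten 4
  have s6 : sg I ^ 2 ≤ sg I ^ 6 := Nat.pow_le_pow_right (by omega) (by omega)
  have a1 : (sg I * sg I + 1) * jj I + 2 * jj I + 3 ≤ A := by
    rw [e4, ← sq]
    nlinarith [Nat.mul_le_mul_right (jj I) s6, Nat.mul_le_mul_right (jj I) s2]
  have a2 : A ≤ 100 * sg I ^ 4 * A := Nat.le_mul_of_pos_left _ (by omega)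
  have a3 : 100 * sg I ^ 4 * A ≤ mm I := e5 ▸ Nat.le_mul_of_pos_left _ (by omega)
  have p1 : 0 < mm I * gG I := Nat.mul_pos (by omega) (by omega)
  have g1 : B ≤ gg I := (Nat.le_div_iff_mul_le p1).2 (mul_comm B _ ▸ hk)
  have g2 : gg I ≤ et I := Nat.le_mul_of_pos_left _ (by omega)
  have g3 : mm I * et I ≤ kk I := by rw [et, ← mul_assoc]; exact Nat.mul_div_le _ _
  have g4 : kk I + 1 ≤ 2 * (mm I * et I) := by
    have := Nat.lt_mul_div_succ (kk I) p1
    have := Nat.mul_le_mul_left (mm I * gG I) (show 1 ≤ gg I by omega)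
    rw [et, ← mul_assoc (mm I)]
    rw [← gg, mul_add] at *
    omega
  have g5 : mm I * et I = 16 * (sg I ^ 2 * t0 I) := by rw [e5, e3]; ring
  have g6 : tt I ≤ t0 I := e2 ▸ e3 ▸ Nat.mul_le_mul_right _ a2
  have g7 : 3 * et I ≤ tt I := e2 ▸ Nat.mul_le_mul_right _ (by omega)
  have g8 := Nat.mul_le_mul_right (t0 I) s2
  have g9 : t0 I = 100 * sg I ^ 4 * tt I := by rw [e3, e2]; ring
  have g10 := Nat.mul_le_mul_right (et I) a1
  refine ⟨?_, fun lt => ⟨met, sy, fun u ρ P a b c d => e1 ▸ db _ u ρ P a b c d,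
    ⟨_, _, fun u ρ P a b c d => db (sg I ^ 5 * (48 * sg I ^ 2 + 1)) u ρ P a b c d, by omega, ?_⟩,
    ten, lt, ⟨_, de, ?_⟩, by omega, by omega, Nat.mul_le_mul_right _ (by omega), ?_, ?_, g9.ge, ?_,
    ?_, ?_, ?_, ?_, by rw [e5, mul_assoc]; omega, pw, pw2⟩⟩
  · have := Nat.mul_le_mul_right (tt I) (Nat.le_self_pow (n := 4) (by omega) (sg I))
    have := Nat.mul_le_mul_right (tt I) s4
    rw [mul_assoc] at g9
    omega
  · rw [mul_assoc]
    refine Nat.mul_le_mul_left _ ?_
    rw [kt, add_mul, mul_assoc]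
    omega
  · rw [mul_assoc, ← et, mul_assoc, kt]
    omega
  · simp only [add_mul, mul_assoc, one_mul, ← e2] at g10
    rw [je]
    omega
  · simp only [add_mul, mul_assoc, one_mul, ← e2] at g10
    simp only [b1, je, add_mul, mul_assoc, one_mul]
    omega
  · have f := Nat.div_add_mod (kk I + 1 - 8 * t0 I) (mm I)
    have g := Nat.mod_lt (kk I + 1 - 8 * t0 I) (show 0 < mm I by omega)
    change pp I + _ = _ at f
    rw [mul_assoc]
    omega
  · calc _ ≤ sg I ^ 4 * (2 * (mm I * et I)) * (je I + 2 * et I) := by gcongr; omega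
      _ = _ := by rw [g5, e2, e4, je]; ring
  · have := Nat.mul_div_le (t0 I) (mm I)
    simp only [lam, mul_add] at b1' ⊢
    omega
  · exact (Nat.div_le_of_le_mul (show _ ≤ mm I * (2 * et I) by rw [mul_left_comm]; omega)).trans
      (by omega)
  · rw [e5, mul_comm 16, mul_assoc]
    exact Nat.le_mul_of_pos_right _ (by omega)

theorem core : Core VertConn := by
  intro J δ
  obtain ⟨s, hs⟩ : ∃ s, s = 30000 * δ + 10 := ⟨_, rfl⟩
  obtain ⟨A, hA⟩ : ∃ A, A = 32 * s ^ 6 * (J (360 * s ^ 4) + 2) := ⟨_, rfl⟩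
  obtain ⟨M, hM⟩ : ∃ M, M = 16 * s ^ 2 * (100 * s ^ 4 * A) := ⟨_, rfl⟩
  obtain ⟨C, hC⟩ : ∃ C, C = 2 * (M * (s * s * M + M)) := ⟨_, rfl⟩
  obtain ⟨D, hD⟩ := exists_dense (3 * M - 1)
  obtain ⟨T, hT⟩ := hD (D + 1) (Nat.succ_pos _)
  have m : 0 < M := by rw [hM, hA, hs]; positivity
  rw [Nat.sub_add_cancel (by omega)] at hT
  refine ⟨M * (D + 1) * (M * (2 ^ C + 2 * M + 1) + s ^ 5 * J (s ^ 5 * (48 * s ^ 2 + 1)) + (M + 1)),
    fun x => alg (x.1, x.2, T, tab C fun i => 2 ^ i,
      [s, J (360 * s ^ 4), D + 1, D, A, 100 * s ^ 4 * A, M, 2 ^ C]), by fun_prop,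
    fun n k c h1 h2 h3 h4 G hG => ?_⟩
  obtain ⟨I, hI⟩ : ∃ I : In, I = (k, tab2 n c, T, tab C fun i => 2 ^ i,
    [s, J (360 * s ^ 4), D + 1, D, A, 100 * s ^ 4 * A, M, 2 ^ C]) := ⟨_, rfl⟩
  have e1 : nn I = n := by simp [hI, nn]
  have e2 : cc I = nat2 (tab2 n c) := by rw [hI]; rfl
  have e3 : sg I = s := by rw [hI]; rfl
  have e4 : kk I = k := by rw [hI]; rfl
  have e5 : mm I = M := by rw [hI]; rfl
  have e6 : 2 * c0 I = C := by rw [c0, b0, e3, e5, hC]
  have e7 : nat1 I.2.2.2.2 7 = 2 ^ C := by rw [hI]; rfl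
  have e8 : gG I = D + 1 := by rw [hI]; rfl
  have e9 : jj I = J (360 * s ^ 4) := by rw [hI]; rfl
  have met : IsMet (nn I) (cc I) := by rw [e1, e2]; exact h1.tab
  obtain ⟨o1, o2⟩ := ok_of (I := I) (J := J) (A := A) met (fun u v => by
      have z : ∀ u v, ¬ (u < n ∧ v < n) → nat2 (tab2 n c) u v = 0 := fun u v a => by
        by_cases d : u < n
        · simp [nat2, tab2, d, not_lt.1 fun e => a ⟨d, e⟩]
        · simp [nat2, not_lt.1 d]
      by_cases d : u < n ∧ v < n
      · exact met.symm u v (e1 ▸ d.1) (e1 ▸ d.2)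
      · rw [e2, z u v d, z v u fun a => d a.symm]) (by
      rw [e1, e2]
      intro L u ρ P a b d e
      exact h2 L u ρ P a b (fun p hp => nat2_tab2 c a (mem_range.1 (b hp)) ▸ d p hp)
        fun p hp q hq f => nat2_tab2 c (mem_range.1 (b hp)) (mem_range.1 (b hq)) ▸ e p hp q hq f)
    (by omega) (by rw [e9, e3]) (by rw [hI]; rfl) (by rw [e3, hI]; rfl) (by rw [e3, e9, hA])
    (by rw [e5, e3, hM]) (by rw [hI]; rfl) (by rw [e5, e8, hI]; exact hT)
    (fun i hi => by rw [e6] at hi; rw [hI]; exact nat1_tab _ hi) (by rw [e6, e7])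
    (B := M * (2 ^ C + 2 * M + 1) + s ^ 5 * J (s ^ 5 * (48 * s ^ 2 + 1)) + (M + 1))
    (by rw [e5, e7]; omega) (by rw [e3]; omega) (by omega) (by rwa [e5, e8, e4])
  have sG : Sym (nn I) (adjMatrix G) := e1 ▸ sym_adj G
  have vG : VC (nn I) (kk I) (adjMatrix G) := by
    rw [e1, e4, ← (sym_adj G).vcut, Rd.graphOf_adj, ← vertConn_iff n k G h4]; exact hG
  obtain ⟨a, b, d⟩ : Sym (nn I) (alg I) ∧ VC (nn I) (kk I) (alg I) ∧
      sg I * cst2 (nn I) (cc I) (alg I) ≤ (sg I + 30000) * cst2 (nn I) (cc I) (adjMatrix G) := by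
    rw [alg, Bool.cond_eq_ite]
    split_ifs with l
    · exact ⟨sym_matOf _ _, cost (o2 (Nat.blt_eq.mp l)) sG vG⟩
    · obtain ⟨a, b, d⟩ := complete_spec met sG vG (by omega)
        (not_lt.1 fun e => l (Nat.blt_eq.mpr e)) o1
      exact ⟨a, b, d.trans (Nat.mul_le_mul_right _ (by omega))⟩
  rw [e1] at a b d
  rw [e2, e3, ← a.costN, ← (sym_adj G).costN, Rd.graphOf_adj] at d
  rw [e4, ← a.vcut, ← vertConn_iff n k _ h4] at b
  simp only [← hI]
  refine ⟨b, Nat.le_of_mul_le_mul_left ?_ (show 0 < s by omega)⟩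
  rw [hs] at d ⊢
  nlinarith [Nat.mul_le_mul_left δ d]

end Pool.Agent.Lib.MP_959bb6_lc.Vx
end
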